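import Pool.Agent.EV.AStm
import Pool.Agent.H98.MF.LocTriv
import Pool.Agent.H98.MF.ParK
import Pool.Agent.H98.MF.NNin
import Pool.Agent.H98.MF.C.Main

/-!
# Project T4 (MP_a3214d), even order, row A6: the local-global principle
-/

set_option autoImplicit false

open scoped BigOperators
open NumberField IsDedekindDomain

namespace Pool.Agent.EV

open Pool.Agent.H98.MF

section

variable {G : Type} [Group G] (D : GD G)

theorem has_single {r : ℕ} (v : VV r) : v = ∑ i, v i • (Pi.single i 1 : VV r) := by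
  funext j
  rw [Finset.sum_apply, Finset.sum_eq_single j]
  · simp
  · intro b _ hb
    rw [Pi.smul_apply, Pi.single_eq_of_ne hb.symm, smul_zero]
  · intro h
    exact absurd (Finset.mem_univ j) h

/-- the commutator in coordinates -/
theorem has_c (g : G) (v : VV D.d) (s : Fin D.n) :
    D.c g v s = ∑ i, v i * D.c g (Pi.single i 1) s := by
  have h0 : ∀ (a : ZMod 2) (w : VV D.d), D.c g (a • w) = a • D.c g w := by
    intro a w
    rcases LT.zero_or_one a with rfl | rfl
    · rw [zero_smul, zero_smul, D.c_zero]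
    · rw [one_smul, one_smul]
  have h1 : ∀ (t : Finset (Fin D.d)) (w : Fin D.d → VV D.d),
      D.c g (∑ i ∈ t, w i) = ∑ i ∈ t, D.c g (w i) := by
    classical
    intro t w
    induction t using Finset.induction_on with
    | empty => rw [Finset.sum_empty, Finset.sum_empty, D.c_zero]
    | insert i t hi ih => rw [Finset.sum_insert hi, Finset.sum_insert hi, D.c_add, ih]
  have h2 : D.c g v = ∑ i, v i • D.c g (Pi.single i 1) := by
    conv_lhs => rw [has_single v]
    rw [h1]
    exact Finset.sum_congr rfl fun i _ => h0 _ _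
  rw [h2, Finset.sum_apply]
  exact Finset.sum_congr rfl fun i _ => by rw [Pi.smul_apply, smul_eq_mul]

variable {k : Type} [Field k] [NumberField k] (F : Frm k)

/-- the second entries of the sums of cup products -/
noncomputable def hasB (x : F.I →₀ VV D.d) (g : Fin D.n → Fin D.d → kˣ) (s : Fin D.n)
    (i : Fin D.d) : kˣ :=
  (∏ l : Fin D.d, F.AA x l ^ (D.β (Pi.single i 1) (Pi.single l 1) s).val) * g s i

theorem has_key (ρ : Gm k →* G) (x : F.I →₀ VV D.d) (g : Fin D.n → Fin D.d → kˣ)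
    (hg : ∀ s i τ, D.c (ρ τ) (Pi.single i 1) s = chi (g s i : k) τ) (s : Fin D.n) (σ τ : Gm k) :
    (D.β (F.par x σ) (F.par x τ) + D.c (ρ τ) (F.par x σ)) s =
      ∑ i, chi (F.AA x i : k) σ * chi (hasB D F x g s i : k) τ := by
  rw [Pi.add_apply, LT.bil D.β, has_c, ← Finset.sum_add_distrib]
  refine Finset.sum_congr rfl fun i _ => ?_
  rw [F.par_apply, ← mul_add]
  congr 1
  unfold hasB
  rw [B.chi_mul_units, hg]
  congr 1
  rw [LT.map_prod (fun a : kˣ => chi (a : k) τ) fun a b => B.chi_mul_units a b τ]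
  refine Finset.sum_congr rfl fun l _ => ?_
  rw [F.par_apply]

/-- lifts on a subgroup -/
theorem has_sub (ρ : Gm k →* G) (x : F.I →₀ VV D.d) (g : Fin D.n → Fin D.d → kˣ)
    (hg : ∀ s i τ, D.c (ρ τ) (Pi.single i 1) s = chi (g s i : k) τ) (H : Subgroup (Gm k)) :
    (∃ f : Gm k → VV D.n, IsLocallyConstant f ∧ ∀ σ ∈ H, ∀ τ ∈ H,
      f (σ * τ) = f σ + f τ + D.β (F.par x σ) (F.par x τ) + D.c (ρ τ) (F.par x σ)) ↔
    ∀ s, Triv H (fun i => (F.AA x i : k)) (fun i => (hasB D F x g s i : k)) := by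
  constructor
  · rintro ⟨f, hf, h⟩ s
    refine ⟨fun σ => f σ s, hf.comp fun z => z s, fun σ hσ τ hτ => ?_⟩
    have h1 := congrFun (h σ hσ τ hτ) s
    rw [← has_key D F ρ x g hg, ← Pi.add_apply, ← Pi.add_apply, ← add_assoc]
    exact h1
  · intro h
    choose f hf h using h
    refine ⟨fun σ s => f s σ, ?_, fun σ hσ τ hτ => ?_⟩
    · rw [IsLocallyConstant.iff_eventually_eq]
      intro σ
      have h1 : ∀ s : Fin D.n, ∀ᶠ τ in nhds σ, f s τ = f s σ := fun s =>
        (IsLocallyConstant.iff_eventually_eq (f s)).1 (hf s) σ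
      filter_upwards [Filter.eventually_all.2 h1] with τ hτ
      funext s
      exact hτ s
    · funext s
      rw [add_assoc (_ + _)]
      show f s (σ * τ) = f s σ + f s τ +
        (D.β (F.par x σ) (F.par x τ) + D.c (ρ τ) (F.par x σ)) s
      rw [has_key D F ρ x g hg, h s σ hσ τ hτ]

theorem has_ex (ρ : Gm k →* G) (hρ : IsLocallyConstant ρ) :
    ∃ g : Fin D.n → Fin D.d → kˣ,
      ∀ s i τ, D.c (ρ τ) (Pi.single i 1) s = chi (g s i : k) τ := by
  have h : ∀ (s : Fin D.n) (i : Fin D.d), ∃ d : kˣ, ∀ τ,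
      D.c (ρ τ) (Pi.single i 1) s = chi (d : k) τ := by
    intro s i
    refine ParK.exists_chi1 (fun τ => D.c (ρ τ) (Pi.single i 1) s)
      (hρ.comp fun a => D.c a (Pi.single i 1) s) fun σ τ => ?_
    rw [map_mul, D.c_mul, Pi.add_apply]
  choose g hg using h
  exact ⟨g, hg⟩

end

theorem saHas : SaHas := by
  intro k _ _ F G _ D ρ hρ x
  obtain ⟨g, hg⟩ := has_ex D ρ hρ
  constructor
  · rintro ⟨f, hf⟩ v
    exact ⟨f, hf.lc, fun σ _ τ _ => hf.hom σ τ⟩
  · intro h
    have h1 : ∀ v : Pl k, ∀ s,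
        Triv (DecP v) (fun i => (F.AA x i : k)) (fun i => (hasB D F x g s i : k)) := fun v =>
      (has_sub D F ρ x g hg (DecP v)).1 (h v)
    obtain ⟨f, hf, h2⟩ := (has_sub D F ρ x g hg ⊤).2 fun s =>
      B.hpSt (nin k) D.d (F.AA x) (hasB D F x g s) (fun P => h1 (Sum.inl P) s)
        (fun φ => h1 (Sum.inr φ) s)
    exact ⟨f, hf, fun σ τ => h2 σ (Subgroup.mem_top _) τ (Subgroup.mem_top _)⟩

end Pool.Agent.EV
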