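import Pool.Agent.EV.AStm
import Pool.Agent.H98.MF.LocTriv
import Pool.Agent.H98.MF.ParK
import Pool.Agent.H98.MF.LhTauK
import Pool.Agent.H98.MF.C.Lin

/-!
# Project T4 (MP_a3214d), even order, row A5: the local condition at a prime outside `S`
-/

set_option autoImplicit false

open scoped BigOperators
open NumberField IsDedekindDomain

namespace Pool.Agent.EV

open Pool.Agent.H98.MF
open Pool.Agent.H98.MK (sg)
open Pool.Agent.D8 (pat RxF TF)

/-! ### the tame symbol by the values of the characters -/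

section

variable {k : Type} [Field k] [NumberField k]

/-- the values of the characters at a tame generator -/
private theorem al_tau {P : HeightOneSpectrum (𝓞 k)} {τ φ : Gm k} (h : IsTauK P τ φ) (a : kˣ) :
    chi (a : k) τ = ((ord P (a : k) : ℤ) : ZMod 2) := by
  rcases Int.even_or_odd (ord P (a : k)) with he | ho
  · rw [(h.chi0 (a : k) a.ne_zero he).1]
    obtain ⟨r, hr⟩ := he
    rw [hr, Int.cast_add]
    exact (LT.add_self _).symm
  · rw [h.chi1 (a : k) ho]
    obtain ⟨r, hr⟩ := ho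
    rw [hr, Int.cast_add, Int.cast_mul, Int.cast_one]
    have h2 : ((2 : ℤ) : ZMod 2) = 0 := by decide
    rw [h2, zero_mul, zero_add]

/-- the difference of the symbol and the formula -/
private noncomputable def alD (P : HeightOneSpectrum (𝓞 k)) (τ φ : Gm k) (a b : kˣ) : ZMod 2 :=
  hs P (a : k) (b : k) + (chi (a : k) τ * chi (b : k) φ + chi (b : k) τ * chi (a : k) φ +
    qr (-1 : k) P * (chi (a : k) τ * chi (b : k) τ))

private theorem alD_symm (hL : LIn k) (P : HeightOneSpectrum (𝓞 k)) (τ φ : Gm k) (a b : kˣ) :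
    alD P τ φ a b = alD P τ φ b a := by
  unfold alD
  have h1 : hs P (a : k) (b : k) = hs P (b : k) (a : k) := hL.symm (Sum.inl P) a b
  rw [h1]
  ring

private theorem alD_mul (hL : LIn k) (P : HeightOneSpectrum (𝓞 k)) (τ φ : Gm k) (a b c : kˣ) :
    alD P τ φ a (b * c) = alD P τ φ a b + alD P τ φ a c := by
  unfold alD
  have h1 : hs P (a : k) ((b * c : kˣ) : k) = hs P (a : k) (b : k) + hs P (a : k) (c : k) :=
    hL.mulR (Sum.inl P) a b c
  rw [h1, B.chi_mul_units b c φ, B.chi_mul_units b c τ]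
  ring

private theorem alD_unit (hL : LIn k) {P : HeightOneSpectrum (𝓞 k)} (h2 : ord P (2 : k) = 0)
    {τ φ : Gm k} (h : IsTauK P τ φ) (a b : kˣ) (ha : ord P (a : k) = 0) :
    alD P τ φ a b = 0 := by
  unfold alD
  rw [hL.unt P h2 a b ha, al_tau h a, al_tau h b, ha,
    (h.chi0 (a : k) a.ne_zero (by rw [ha]; exact Even.zero)).2, Int.cast_zero, zero_mul,
    zero_mul, mul_zero, add_zero, zero_add]
  exact LT.add_self _

private theorem alD_pi (hL : LIn k) {P : HeightOneSpectrum (𝓞 k)} (h2 : ord P (2 : k) = 0)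
    {τ φ : Gm k} (h : IsTauK P τ φ) (π : kˣ) (hπ : ord P (π : k) = 1) :
    alD P τ φ π π = 0 := by
  have h1 : hs P (π : k) ((-π : kˣ) : k) = 0 := by
    refine hL.nm (Sum.inl P) _ _ 0 1 ?_
    rw [Units.val_neg]
    ring
  have h3 : π = (-1) * (-π) := by
    rw [neg_mul_neg, one_mul]
  have h4 : hs P (π : k) (π : k) = qr (-1 : k) P := by
    have h5 : hs P (π : k) (π : k) = hs P (π : k) ((((-1) * (-π) : kˣ)) : k) := by
      rw [← h3]
    have h6 : hs P (π : k) ((((-1) * (-π) : kˣ)) : k) =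
        hs P (π : k) ((-1 : kˣ) : k) + hs P (π : k) ((-π : kˣ) : k) :=
      hL.mulR (Sum.inl P) π (-1) (-π)
    have h7 : hs P (π : k) ((-1 : kˣ) : k) = hs P ((-1 : kˣ) : k) (π : k) :=
      hL.symm (Sum.inl P) π (-1)
    have h8 : ord P (((-1 : kˣ)) : k) = 0 := by
      rw [Units.val_neg, Units.val_one]
      exact B.ord_neg_one _
    rw [h5, h6, h1, add_zero, h7, hL.unt P h2 _ _ h8, hπ, Int.cast_one, one_mul,
      Units.val_neg, Units.val_one]
  unfold alD
  rw [h4, al_tau h π, hπ, Int.cast_one, one_mul, one_mul, mul_one]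
  have h9 : ∀ x y : ZMod 2, x + (y + y + x) = 0 := by decide
  exact h9 _ _

/-- the tame symbol -/
private theorem al_hs (hL : LIn k) {P : HeightOneSpectrum (𝓞 k)} (h2 : ord P (2 : k) = 0)
    {τ φ : Gm k} (h : IsTauK P τ φ) (π : kˣ) (hπ : ord P (π : k) = 1) (a b : kˣ) :
    hs P (a : k) (b : k) = chi (a : k) τ * chi (b : k) φ + chi (b : k) τ * chi (a : k) φ +
      qr (-1 : k) P * (chi (a : k) τ * chi (b : k) τ) := by
  -- homomorphisms in the second variable that vanish on units and on `π` vanish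
  have key : ∀ c : kˣ, (∀ e : kˣ, ord P (e : k) = 0 → alD P τ φ c e = 0) →
      alD P τ φ c π = 0 → ∀ b : kˣ, alD P τ φ c b = 0 := by
    intro c hu hp b
    let f : kˣ →* Multiplicative (ZMod 2) :=
      MonoidHom.mk' (fun e => Multiplicative.ofAdd (alD P τ φ c e)) fun e e' => by
        rw [alD_mul hL, ofAdd_add]
    have hf : ∀ e, Multiplicative.toAdd (f e) = alD P τ φ c e := fun e => rfl
    have hb : b = (b * (π ^ ord P (b : k))⁻¹) * π ^ ord P (b : k) := by
      rw [inv_mul_cancel_right]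
    have h0 : ord P ((b * (π ^ ord P (b : k))⁻¹ : kˣ) : k) = 0 := by
      rw [Units.val_mul, B.ord_mul _ b.ne_zero (Units.ne_zero _), Units.val_inv_eq_inv_val,
        B.ord_inv, Units.val_zpow_eq_zpow_val, B.ord_zpow, hπ, mul_one, add_neg_cancel]
    rw [← hf, hb, map_mul, map_zpow, toAdd_mul, toAdd_zpow, hf, hf, hu _ h0, hp, smul_zero,
      add_zero]
  have h3 : alD P τ φ a b = 0 := by
    refine key a (fun e he => ?_) ?_ b
    · rw [alD_symm hL]
      exact alD_unit hL h2 h e a he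
    · rw [alD_symm hL]
      refine key π (fun e he => ?_) ?_ a
      · rw [alD_symm hL]
        exact alD_unit hL h2 h e π he
      · exact alD_pi hL h2 h π hπ
  have h4 : ∀ x y : ZMod 2, x + y = 0 → x = y := by decide
  exact h4 _ _ h3

end

/-! ### coordinates of the cochain relation -/

section

variable {k : Type} [Field k] [NumberField k] (F : Frm k) {G : Type} [Group G] (D : GD G)

/-- the commutator in coordinates -/
private theorem al_c (g : G) (v : VV D.d) (t : Fin D.n) :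
    D.c g v t = ∑ i, v i * D.c g (Pi.single i 1) t := by
  let L0 : VV D.d →+ VV D.n := AddMonoidHom.mk' (D.c g) (D.c_add g)
  let L : VV D.d →ₗ[ZMod 2] VV D.n := L0.toZModLinearMap 2
  have h1 : L v = ∑ i, v i • L (Pi.single i 1) := by
    have h2 := LinearMap.pi_apply_eq_sum_univ L v
    rw [h2]
    refine Finset.sum_congr rfl fun i _ => ?_
    congr 2
    funext j
    by_cases hj : i = j
    · subst hj
      rw [if_pos rfl, Pi.single_eq_same]
    · rw [if_neg hj, Pi.single_eq_of_ne fun h => hj h.symm]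
  have h3 := congrFun h1 t
  rw [Finset.sum_apply] at h3
  exact h3

/-- the characters of the commutators -/
private theorem al_gam (ρ : Gm k →* G) (hρ : IsLocallyConstant ρ) :
    ∃ γ : Fin D.n → Fin D.d → kˣ, ∀ t i σ,
      D.c (ρ σ) (Pi.single i 1) t = chi (γ t i : k) σ := by
  have h : ∀ (t : Fin D.n) (i : Fin D.d), ∃ γ : kˣ, ∀ σ,
      D.c (ρ σ) (Pi.single i 1) t = chi (γ : k) σ := fun t i =>
    ParK.exists_chi1 (fun σ => D.c (ρ σ) (Pi.single i 1) t)
      (hρ.comp fun g => D.c g (Pi.single i 1) t) fun σ τ => by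
        rw [map_mul, D.c_mul, Pi.add_apply]
  choose γ hγ using h
  exact ⟨γ, hγ⟩

/-- the second entries -/
private noncomputable def alB (x : F.I →₀ VV D.d) (γ : Fin D.n → Fin D.d → kˣ) (t : Fin D.n)
    (i : Fin D.d) : kˣ :=
  (∏ l : Fin D.d, F.AA x l ^ (D.β (Pi.single i 1) (Pi.single l 1) t).val) * γ t i

private theorem al_rel (ρ : Gm k →* G) (x : F.I →₀ VV D.d) (γ : Fin D.n → Fin D.d → kˣ)
    (hγ : ∀ t i σ, D.c (ρ σ) (Pi.single i 1) t = chi (γ t i : k) σ) (t : Fin D.n)
    (σ τ : Gm k) :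
    (D.β (F.par x σ) (F.par x τ) + D.c (ρ τ) (F.par x σ)) t =
      ∑ i, chi (F.AA x i : k) σ * chi (alB F D x γ t i : k) τ := by
  rw [Pi.add_apply, LT.bil D.β, al_c D, ← Finset.sum_add_distrib]
  refine Finset.sum_congr rfl fun i _ => ?_
  rw [F.par_apply, ← mul_add]
  congr 1
  unfold alB
  rw [B.chi_mul_units, hγ]
  congr 1
  rw [LT.map_prod (fun a : kˣ => chi (a : k) τ) (fun a b => B.chi_mul_units a b τ)]
  refine Finset.sum_congr rfl fun l _ => ?_
  rw [F.par_apply]

private theorem al_lcR (ρ : Gm k →* G) (x : F.I →₀ VV D.d) (γ : Fin D.n → Fin D.d → kˣ)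
    (hγ : ∀ t i σ, D.c (ρ σ) (Pi.single i 1) t = chi (γ t i : k) σ) (v : Pl k) :
    LcR D ρ (F.par x) v ↔ ∀ t, Triv (DecP v) (fun i => (F.AA x i : k))
      (fun i => (alB F D x γ t i : k)) := by
  constructor
  · rintro ⟨f, hf, h⟩ t
    refine ⟨fun σ => f σ t, hf.comp fun z => z t, fun σ hσ τ hτ => ?_⟩
    have h1 := congrFun (h σ hσ τ hτ) t
    rw [← al_rel F D ρ x γ hγ, Pi.add_apply, ← add_assoc]
    exact h1
  · intro h
    choose f hf h using h
    refine ⟨fun σ t => f t σ, ?_, fun σ hσ τ hτ => ?_⟩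
    · rw [IsLocallyConstant.iff_eventually_eq]
      intro σ
      have h1 : ∀ t : Fin D.n, ∀ᶠ τ in nhds σ, f t τ = f t σ := fun t =>
        (IsLocallyConstant.iff_eventually_eq (f t)).1 (hf t) σ
      filter_upwards [Filter.eventually_all.2 h1] with τ hτ
      funext t
      exact hτ t
    · funext t
      show f t (σ * τ) = f t σ + f t τ + D.β (F.par x σ) (F.par x τ) t + D.c (ρ τ) (F.par x σ) t
      rw [h t σ hσ τ hτ, ← al_rel F D ρ x γ hγ, Pi.add_apply, ← add_assoc]

end

/-- Row A5: the local condition. -/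
theorem saLoc : SaLoc := by
  intro k _ _ F Rk G _ D ρ hρ x p hτ hq
  have hL : LIn k := B.lin k
  obtain ⟨γ, hγ⟩ := al_gam D ρ hρ
  have h2 := F.ord_pl_two p
  have hT : IsTauK (F.pl p) (Rk.tau (F.pl p)) (Rk.phi (F.pl p)) :=
    (Rk.tf (F.pl p) h2).toIsTauK
  have hpar : F.par x (Rk.tau (F.pl p)) = x (Sum.inr p) := F.par_tau Rk.toRx x p
  rw [al_lcR F D ρ x γ hγ]
  have key : ∀ t, ∑ i, hs (F.pl p) (F.AA x i : k) (alB F D x γ t i : k) =
      (D.c (ρ (Rk.phi (F.pl p))) (x (Sum.inr p)) +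
        D.Bd.B (F.par x (Rk.phi (F.pl p))) (x (Sum.inr p))) t := by
    intro t
    have e1 := al_rel F D ρ x γ hγ t (Rk.tau (F.pl p)) (Rk.phi (F.pl p))
    have e2 := al_rel F D ρ x γ hγ t (Rk.phi (F.pl p)) (Rk.tau (F.pl p))
    have e3 := al_rel F D ρ x γ hγ t (Rk.tau (F.pl p)) (Rk.tau (F.pl p))
    rw [hpar] at e1 e2 e3
    rw [hτ, D.c_one, add_zero] at e2 e3
    rw [hq, Pi.zero_apply] at e3
    have e4 : ∀ i, hs (F.pl p) (F.AA x i : k) (alB F D x γ t i : k) =
        chi (F.AA x i : k) (Rk.tau (F.pl p)) * chi (alB F D x γ t i : k) (Rk.phi (F.pl p)) +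
        chi (F.AA x i : k) (Rk.phi (F.pl p)) * chi (alB F D x γ t i : k) (Rk.tau (F.pl p)) +
        qr (-1 : k) (F.pl p) * (chi (F.AA x i : k) (Rk.tau (F.pl p)) *
          chi (alB F D x γ t i : k) (Rk.tau (F.pl p))) := by
      intro i
      rw [al_hs hL h2 hT (F.pi p) (F.pi_self p)]
      ring
    rw [Finset.sum_congr rfl fun i _ => e4 i, Finset.sum_add_distrib, Finset.sum_add_distrib,
      ← Finset.mul_sum, ← e1, ← e2, ← e3, mul_zero, add_zero, D.Bd_apply]
    simp only [Pi.add_apply]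
    ring
  constructor
  · intro h
    funext t
    rw [← key t, Pi.zero_apply]
    exact (hL.triv (F.pl p) _ _).1 (h t)
  · intro h t
    refine (hL.triv (F.pl p) _ _).2 ?_
    rw [key t, h, Pi.zero_apply]

end Pool.Agent.EV
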