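import Pool.Agent.EV.AStm
import Pool.Agent.H98.MF.NormalK
import Pool.Agent.H98.MF.LhTauK

/-!
# Project T4 (MP_a3214d), even order, algebra, row A4: normal cochains exist
-/

set_option autoImplicit false

open scoped BigOperators
open NumberField IsDedekindDomain

namespace Pool.Agent.EV

open Pool.Agent.H98.MF
open Pool.Agent.H98.ML (norb)
open Pool.Agent.D8 (RxF)

/-- a continuous homomorphism to a finite 2-group is ramified at finitely many primes -/
theorem ano_fin {k : Type} [Field k] [NumberField k] (F : Frm k) (R : Rx k) {G : Type} [Group G]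
    (hG : P2 G) (ρ : Gm k →* G) (hρ : IsLocallyConstant ρ) :
    {p : F.sys.P | ρ (R.tau (F.pl p)) ≠ 1}.Finite := by
  obtain ⟨hfin, j, hj⟩ := hG
  have hopen : IsOpen (ρ.ker : Set (Gm k)) := hρ {1}
  have hidx : ∃ i, ρ.ker.index = 2 ^ i := by
    rw [Subgroup.index_ker]
    have h1 : Nat.card ρ.range ∣ 2 ^ j := by
      rw [← hj]
      exact Subgroup.card_subgroup_dvd_card ρ.range
    obtain ⟨i, -, hi⟩ := (Nat.dvd_prime_pow Nat.prime_two).1 h1
    exact ⟨i, hi⟩
  refine Set.Finite.subset ((R.fin ρ.ker hopen).preimage F.pl_inj.injOn) fun p hp => ?_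
  have h2 := R.disc (F.pl p) (F.ltk_two p) ρ.ker hopen hidx ρ.ker le_rfl
  have h3 : norb ρ.ker (R.tau (F.pl p)) < ρ.ker.index := by
    apply Pool.Agent.H98.ML.m3_norb_lt
    · obtain ⟨i, hi⟩ := hidx
      rw [hi]
      positivity
    · intro h
      exact hp (MonoidHom.mem_ker.1 h)
  show R.rex (F.pl p) ρ.ker ≠ 0
  omega

/-- A4: normal cochains -/
theorem saNo (hT : SaTw) (hP : SaPar) : SaNo := by
  classical
  intro k _ _ F Rk G _ D ρ hG hρ x f h
  have hlc := ((hP k F G D ρ hρ).2.1 x f h).1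
  have hfin : {p : F.sys.P | f (Rk.tau (F.pl p)) ≠ 0}.Finite := by
    refine ((ano_fin F Rk.toRx hG ρ hρ).union (ano_fin F Rk.toRx hG _ hlc)).subset ?_
    intro p hp
    by_contra hc
    rw [Set.mem_union, not_or] at hc
    have h1 : ρ (Rk.tau (F.pl p)) = 1 := by
      by_contra h2
      exact hc.1 h2
    have h2 : hm D ρ (F.par x) f (Rk.tau (F.pl p)) = 1 := by
      by_contra h3
      exact hc.2 h3
    rw [hm_apply h (F.par_hom x), h1, one_mul] at h2
    exact hp (D.inj _ _ h2).2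
  let z0 : F.sys.P →₀ VV D.n := Finsupp.onFinset hfin.toFinset
    (fun p => f (Rk.tau (F.pl p))) fun p hp => by
      rw [Set.Finite.mem_toFinset]
      exact hp
  let z : F.I →₀ VV D.n := Finsupp.embDomain ⟨Sum.inr, Sum.inr_injective⟩ z0
  have hz : ∀ p, z (Sum.inr p) = f (Rk.tau (F.pl p)) := fun p =>
    (Finsupp.embDomain_apply_self ⟨Sum.inr, Sum.inr_injective⟩ z0 p).trans rfl
  refine ⟨fun σ => f σ + F.par z σ, ⟨(hT k F G D ρ (F.par x) f h).1 z, fun p => ?_⟩⟩
  show f (Rk.tau (F.pl p)) + F.par z (Rk.tau (F.pl p)) = 0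
  rw [F.par_tau Rk.toRx z p, hz]
  exact GD.two_V _

end Pool.Agent.EV
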