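import Pool.Agent.EV.AStm
import Pool.Agent.H98.MF.LhTauK

/-!
# Project T4 (MP_a3214d), even order: the values at the tame generators
-/

set_option autoImplicit false

open scoped BigOperators
open NumberField IsDedekindDomain

namespace Pool.Agent.EV

open Pool.Agent.H98.MF
open Pool.Agent.D8 (RxF)

theorem saTau : SaTau := by
  intro k _ _ F Rk G _ D ρ x f hf p hp
  have h1 : F.par x (Rk.tau (F.pl p)) = x (Sum.inr p) := F.par_tau Rk.toRx x p
  have h2 : hm D ρ (F.par x) f (Rk.tau (F.pl p)) =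
      D.s (x (Sum.inr p)) * D.zz (f (Rk.tau (F.pl p))) := by
    rw [hm_apply hf (F.par_hom x), hp, one_mul, h1]
  refine ⟨h2, ?_, ?_⟩
  · rw [h2]
    exact D.sz_sq_eq_one _ _
  · rw [h2]
    exact D.sz_eq_one _ _

end Pool.Agent.EV
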