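import Pool.Agent.D8.ARx
import Pool.Agent.H92.EL.DHer

/-!
# Project T4 (MP_a3214d), even order, algebra: tame data for 2-groups from universal tame data
-/

set_option autoImplicit false

open scoped BigOperators Pointwise
open NumberField IsDedekindDomain

namespace Pool.Agent.EV

open Pool.Agent.H98.MF
open Pool.Agent.H98.ML (norb m3_norb_lt)
open Pool.Agent.D8 (RxF TF Two2)
open Pool.Agent.H92.EL (TM IsTM TmU Tme)

section

variable {k : Type} [Field k] [NumberField k]

/-- the norm of a prime not dividing two is odd -/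
theorem atm_odd (P : HeightOneSpectrum (𝓞 k)) (h2 : ord P (2 : k) = 0) :
    Nat.Coprime 2 (nrm P) := by
  have h2' : (2 : 𝓞 k) ∉ P.asIdeal := by
    intro h
    have h1 := (le_ord_iff P (2 : 𝓞 k) 1).2 (by rwa [pow_one])
    rcases h1 with h1 | h1
    · exact two_ne_zero h1
    · have h3 : ((2 : 𝓞 k) : k) = (2 : k) := rfl
      rw [h3, h2] at h1
      norm_num at h1
  haveI : P.asIdeal.IsMaximal := P.isMaximal
  letI : Field (𝓞 k ⧸ P.asIdeal) := Ideal.Quotient.field P.asIdeal
  haveI : Finite (𝓞 k ⧸ P.asIdeal) := Ideal.finiteQuotientOfFreeOfNeBot _ P.ne_bot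
  letI : Fintype (𝓞 k ⧸ P.asIdeal) := Fintype.ofFinite _
  have hcard : nrm P = Fintype.card (𝓞 k ⧸ P.asIdeal) := by
    unfold nrm
    rw [Ideal.absNorm_apply, Submodule.cardQuot_apply, Nat.card_eq_fintype_card]
  have h2F : (2 : 𝓞 k ⧸ P.asIdeal) ≠ 0 := by
    intro h
    apply h2'
    rw [← Ideal.Quotient.eq_zero_iff_mem]
    exact h
  have h4 : Fintype.card (𝓞 k ⧸ P.asIdeal) % 2 = 1 := by
    apply FiniteField.odd_card_of_char_ne_two
    intro h
    apply h2F
    have h1 : ((ringChar (𝓞 k ⧸ P.asIdeal) : ℕ) : 𝓞 k ⧸ P.asIdeal) = 0 :=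
      ringChar.Nat.cast_ringChar
    rw [h] at h1
    exact_mod_cast h1
  rw [hcard]
  exact (Nat.coprime_two_left).2 (Nat.odd_iff.2 h4)

theorem atm_tmU {P : HeightOneSpectrum (𝓞 k)} (h2 : ord P (2 : k) = 0) {U : Subgroup (Gm k)}
    (h : U.Normal) (ho : IsOpen (U : Set (Gm k))) (hj : ∃ j, U.index = 2 ^ j) : TmU P U := by
  refine ⟨h, ho, ?_⟩
  obtain ⟨j, hj⟩ := hj
  rw [hj]
  exact Nat.Coprime.pow_left j (atm_odd P h2)

/-- the tame data for 2-groups at a prime not dividing two -/
theorem atm_tf (P : HeightOneSpectrum (𝓞 k)) (h2 : ord P (2 : k) = 0) {τ φ : Gm k}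
    (h : IsTM P τ φ) : TF P τ φ := by
  have hine : ∀ x : 𝓞 (Om k), Two2 x → τ • x - x ∈ top P := by
    rintro x ⟨U, hU1, hU2, hU3, hU4⟩
    exact h.ine x ⟨U, atm_tmU h2 hU1 hU2 hU3, hU4⟩
  have hfro : ∀ x : 𝓞 (Om k), Two2 x → φ • x - x ^ Ideal.absNorm P.asIdeal ∈ top P := by
    rintro x ⟨U, hU1, hU2, hU3, hU4⟩
    exact h.fro x ⟨U, atm_tmU h2 hU1 hU2 hU3, hU4⟩
  refine ⟨⟨h.decτ, h.decφ, fun U h3 h4 h5 => h.rel U (atm_tmU h2 h3 h4 h5),
    fun U h3 h4 h5 W hW => h.disc U (atm_tmU h2 h3 h4 h5) W hW, ?_, ?_⟩, hine, hfro⟩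
  · intro a ha hev
    let U : Subgroup (Gm k) := d8_ker a
    have hUn : U.Normal := d8_ker_normal a
    have hU : IsOpen (U : Set (Gm k)) := d8_ker_open a
    have hj : ∃ j, U.index = 2 ^ j := d8_ker_index a
    have hFD : FiniteDimensional k (fld k U) := fldK_finite U hU
    have hNU : NumberField (fld k U) := fldK_nf U hU
    have hGal : IsGalois k (fld k U) := fldK_galois U hU
    have hQp : (low P (fld k U)).IsPrime := low_prime P (fld k U)
    have hQc := low_comap P (fld k U)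
    have hfix : ∀ x : 𝓞 (fld k U), ∀ σ ∈ U, σ • algebraMap (𝓞 (fld k U)) (𝓞 (Om k)) x =
        algebraMap (𝓞 (fld k U)) (𝓞 (Om k)) x := by
      intro x σ hσ
      apply RingOfIntegers.coe_injective
      exact (IntermediateField.mem_fixedField_iff U ((x : fld k U) : Om k)).1 (x : fld k U).2 σ hσ
    have hTwo : ∀ x : 𝓞 (fld k U), Two2 (algebraMap (𝓞 (fld k U)) (𝓞 (Om k)) x) :=
      fun x => ⟨U, hUn, hU, hj, hfix x⟩
    have hin0 : AlgEquiv.restrictNormal τ (fld k U) ∈
        (low P (fld k U)).inertia (fld k U ≃ₐ[k] fld k U) := by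
      intro x
      have h1 := hine _ (hTwo x)
      change AlgEquiv.restrictNormal τ (fld k U) • x - x ∈ low P (fld k U)
      rw [tp_mem_low, map_sub, tp_res]
      exact h1
    have hφ0 : ∀ x : 𝓞 (fld k U), AlgEquiv.restrictNormal φ (fld k U) • x -
        x ^ Ideal.absNorm P.asIdeal ∈ low P (fld k U) := by
      intro x
      have h1 := hfro _ (hTwo x)
      rw [tp_mem_low, map_sub, map_pow, tp_res]
      exact h1
    have hmem : Pool.Agent.H98.MF.sq a ∈ fld k U := fin_sq_mem fun σ hσ => hσ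
    have key : (⟨Pool.Agent.H98.MF.sq a, hmem⟩ : fld k U) ^ 2 = algebraMap k (fld k U) a := by
      apply Subtype.ext
      exact sq_sq a
    have hres : ∀ (σ : Gm k) (x : fld k U),
        ((AlgEquiv.restrictNormal σ (fld k U) x : fld k U) : Om k) = σ (x : Om k) :=
      fun σ x => AlgEquiv.restrictNormal_commutes σ (fld k U) x
    have h1 := rd_quad_inertia P h2 (low P (fld k U)) hQc ha hev key _ hin0
    have h3 := rd_quad_frob P h2 (low P (fld k U)) hQc ha hev key _ hφ0
    have h1' : τ (Pool.Agent.H98.MF.sq a) = Pool.Agent.H98.MF.sq a := by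
      have := congrArg (fun z : fld k U => (z : Om k)) h1
      simpa only [hres] using this
    refine ⟨(chi_eq_zero_iff (sq_sq a) τ).2 h1', ?_⟩
    unfold qr
    by_cases hl : LocSq P a
    · rw [if_pos hl]
      have h4 := h3.1 hl
      have h4' : φ (Pool.Agent.H98.MF.sq a) = Pool.Agent.H98.MF.sq a := by
        have := congrArg (fun z : fld k U => (z : Om k)) h4
        simpa only [hres] using this
      exact (chi_eq_zero_iff (sq_sq a) φ).2 h4'
    · rw [if_neg hl]
      have h4 := h3.2 hl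
      have h4' : φ (Pool.Agent.H98.MF.sq a) = -Pool.Agent.H98.MF.sq a := by
        have := congrArg (fun z : fld k U => (z : Om k)) h4
        simp only [hres] at this
        exact this
      exact (chi_eq_one_iff ha (sq_sq a) φ).2 h4'
  · intro a hod
    obtain ⟨τ', φ', h'⟩ := Pool.Agent.D8.arx_ex P h2
    have hUn : (d8_ker a).Normal := d8_ker_normal a
    have hU : IsOpen ((d8_ker a : Subgroup (Gm k)) : Set (Gm k)) := d8_ker_open a
    have hj := d8_ker_index a
    have h3 := h.disc (d8_ker a) (atm_tmU h2 hUn hU hj) (d8_ker a) le_rfl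
    have h4 := h'.disc (d8_ker a) hUn hU hj (d8_ker a) le_rfl
    have h5 : τ' ∉ d8_ker a := by
      intro h6
      have h7 : chi a τ' = 0 := h6
      rw [h'.chi1 a hod] at h7
      exact one_ne_zero h7
    have h6 : (d8_ker a).index ≠ 0 := by
      obtain ⟨j, hj⟩ := hj
      rw [hj]
      positivity
    have h7 := m3_norb_lt (d8_ker a) h6 τ' h5
    have h8 : τ ∉ d8_ker a := by
      intro h9
      have h10 := Pool.Agent.H92.EL.d6h_norb (d8_ker a) h9
      omega
    have h9 : chi a τ ≠ 0 := h8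
    have h10 : ∀ x : ZMod 2, x ≠ 0 → x = 1 := by decide
    exact h10 _ h9

/-- the tame data for 2-groups attached to universal tame data -/
theorem rk_of (T : TM k) : ∃ Rk : RxF k, Rk.tau = T.tau ∧ Rk.phi = T.phi := by
  have hT : ∀ P, ord P (2 : k) = 0 → TF P (T.tau P) (T.phi P) := fun P h2 => atm_tf P h2 (T.tm P)
  refine ⟨{
    rex := fun P U => rexp P (fld k U)
    tau := T.tau
    fin := fun U _ => rexp_finite (fld k U)
    prod := fun U hU => ?_
    loc := fun G _ _ ρ ρ' H hc hc' hs hs' P h => ?_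
    disc := fun P h2 U hn hU hj W hUW => ?_
    chi := fun P h2 a => ?_
    phi := T.phi
    tf := fun P h2 => hT P h2 }, rfl, rfl⟩
  · have := fldK_finite U hU
    exact rdN_eq (fld k U)
  · refine rexp_dec P H ρ ρ' (ker_openK ρ hc) (ker_openK ρ' hc') hs hs' 1 fun σ hσ => ?_
    rw [h σ hσ, one_mul, inv_one, mul_one]
  · exact (hT P h2).disc U hn hU hj W hUW
  · have hφ := hT P h2
    rcases Int.even_or_odd (ord P (a : k)) with he | ho
    · rw [(hφ.chi0 (a : k) a.ne_zero he).1]
      exact ((ZMod.intCast_eq_zero_iff_even).2 he).symm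
    · rw [hφ.chi1 (a : k) ho]
      exact ((ZMod.intCast_eq_one_iff_odd).2 ho).symm

end

end Pool.Agent.EV
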