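import Pool.Agent.EV.AStm
import Pool.Agent.H98.MF.ParK

/-!
# Project T4 (MP_a3214d), even order, A2: twists by homomorphisms to the central subgroup
-/

set_option autoImplicit false

open scoped BigOperators
open NumberField IsDedekindDomain

namespace Pool.Agent.EV

open Pool.Agent.H98.MF

/-- a combination of quadratic characters is additive -/
theorem atw_hom {k : Type} [Field k] [NumberField k] {r m : ℕ} (u : Fin m → kˣ)
    (z : Fin m → VV r) (σ τ : Gm k) :
    ∑ j, chi (u j : k) (σ * τ) • z j =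
      ∑ j, chi (u j : k) σ • z j + ∑ j, chi (u j : k) τ • z j := by
  rw [← Finset.sum_add_distrib]
  refine Finset.sum_congr rfl fun j _ => ?_
  rw [chiM_hom, add_smul]

/-- a combination of quadratic characters is locally constant -/
theorem atw_lc {k : Type} [Field k] [NumberField k] {r m : ℕ} (u : Fin m → kˣ)
    (z : Fin m → VV r) (s : Finset (Fin m)) :
    IsLocallyConstant fun σ : Gm k => ∑ j ∈ s, chi (u j : k) σ • z j := by
  induction s using Finset.induction_on with
  | empty => exact IsLocallyConstant.const (0 : VV r)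
  | insert i s hi ih =>
    simp only [Finset.sum_insert hi]
    exact ((chiM_lc (u i : k)).comp fun c => c • z i).add ih

/-- adding a locally constant homomorphism to a cochain -/
theorem atw_add {k : Type} [Field k] [NumberField k] {G : Type} [Group G] {D : GD G}
    {ρ : Gm k →* G} {a : Gm k → VV D.d} {f : Gm k → VV D.n} (hf : IsR D ρ a f)
    {h : Gm k → VV D.n} (hlc : IsLocallyConstant h) (hh : ∀ σ τ, h (σ * τ) = h σ + h τ) :
    IsR D ρ a fun σ => f σ + h σ where
  lc := hf.lc.add hlc
  hom σ τ := by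
    show f (σ * τ) + h (σ * τ) = f σ + h σ + (f τ + h τ) + D.β (a σ) (a τ) + D.c (ρ τ) (a σ)
    rw [hf.hom, hh]
    abel

theorem saTw : SaTw := by
  intro k _ _ F G _ D ρ a f hf
  refine ⟨fun z => atw_add hf (F.par_lc z) (F.par_hom z), fun z w => ?_, fun f' hf' => ?_⟩
  · exact atw_add (atw_add hf (atw_lc F.u z Finset.univ) (atw_hom F.u z))
      (atw_lc F.w w Finset.univ) (atw_hom F.w w)
  · obtain ⟨z, hz⟩ := F.par_exists (fun σ => f σ + f' σ) (hf.lc.add hf'.lc) (fun σ τ => by
      show f (σ * τ) + f' (σ * τ) = f σ + f' σ + (f τ + f' τ)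
      rw [hf.hom, hf'.hom]
      calc f σ + f τ + D.β (a σ) (a τ) + D.c (ρ τ) (a σ) +
            (f' σ + f' τ + D.β (a σ) (a τ) + D.c (ρ τ) (a σ))
          = f σ + f' σ + (f τ + f' τ) + (D.β (a σ) (a τ) + D.β (a σ) (a τ)) +
            (D.c (ρ τ) (a σ) + D.c (ρ τ) (a σ)) := by abel
        _ = f σ + f' σ + (f τ + f' τ) := by rw [GD.two_V, GD.two_V, add_zero, add_zero])
    refine ⟨z, fun σ => ?_⟩
    rw [← hz]
    show f' σ = f σ + (f σ + f' σ)
    rw [← add_assoc, GD.two_V, zero_add]

end Pool.Agent.EV
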