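import Pool.Agent.EV.AStm
import Pool.Agent.H98.MF.ParK
import Pool.Agent.H98.MF.LhTauK

/-!
# Project T4 (MP_a3214d), even order, row B3: the type characters exist
-/

set_option autoImplicit false

open scoped BigOperators Topology
open NumberField IsDedekindDomain Filter

namespace Pool.Agent.EV

open Pool.Agent.H98.MF
open Pool.Agent.H98.MK (sg)
open Pool.Agent.D8 (pat RxF)

section

variable {k : Type} [Field k] [NumberField k] (F : Frm k)

theorem bcy_lcU {r : ℕ} (y : Fin F.sys.m → VV r) : IsLocallyConstant (F.parU y) := by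
  classical
  have h : ∀ s : Finset (Fin F.sys.m),
      IsLocallyConstant fun σ : Gm k => ∑ j ∈ s, chi (F.u j : k) σ • y j := by
    intro s
    induction s using Finset.induction_on with
    | empty => exact IsLocallyConstant.const (0 : VV r)
    | insert i s hi ih =>
      simp only [Finset.sum_insert hi]
      exact ((chiM_lc (F.u i : k)).comp fun c => c • y i).add ih
  exact h Finset.univ

theorem bcy_homU {r : ℕ} (y : Fin F.sys.m → VV r) (σ τ : Gm k) :
    F.parU y (σ * τ) = F.parU y σ + F.parU y τ := by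
  unfold Frm.parU
  rw [← Finset.sum_add_distrib]
  refine Finset.sum_congr rfl fun j _ => ?_
  rw [chiM_hom, add_smul]

theorem bcy_tauU (R : Rx k) {r : ℕ} (y : Fin F.sys.m → VV r) (p : F.sys.P) :
    F.parU y (R.tau (F.pl p)) = 0 := by
  unfold Frm.parU
  refine Finset.sum_eq_zero fun j _ => ?_
  have h := F.ltk_chi_other R p (Sum.inl j) Sum.inl_ne_inr
  have h' : chi (F.u j : k) (R.tau (F.pl p)) = 0 := h
  rw [h', zero_smul]

/-- additive functions that vanish at the tame generators are given by the units -/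
theorem bcy_units (R : Rx k) (h : Gm k → ZMod 2) (hlc : IsLocallyConstant h)
    (hh : ∀ σ τ, h (σ * τ) = h σ + h τ) (h0 : ∀ p, h (R.tau (F.pl p)) = 0) :
    ∃ c : F.sys.T, ∀ σ, h σ = ∑ j, c j * chi (F.u j : k) σ := by
  classical
  obtain ⟨x, hx⟩ := F.par_exists (r := 1) (fun σ _ => h σ) (hlc.comp fun v _ => v)
    (fun σ τ => by
      funext i
      exact hh σ τ)
  have hp : ∀ p, x (Sum.inr p) = 0 := by
    intro p
    have h1 := F.par_tau R x p
    rw [← hx] at h1
    rw [← h1]
    funext i
    exact h0 p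
  refine ⟨fun j => x (Sum.inl j) 0, fun σ => ?_⟩
  have h1 : h σ = F.par x σ 0 := by
    rw [← hx]
  rw [h1, Frm.par, Finsupp.sum]
  have hsub : x.support ⊆ Finset.univ.disjSum (∅ : Finset F.sys.P) := by
    rintro (j | p) hi
    · exact Finset.inl_mem_disjSum.2 (Finset.mem_univ j)
    · exact absurd (hp p) (Finsupp.mem_support_iff.1 hi)
  rw [Finset.sum_subset hsub (fun i _ hi => by
    rw [Finsupp.notMem_support_iff.1 hi, smul_zero]), Finset.sum_disjSum, Finset.sum_empty,
    add_zero, Finset.sum_apply]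
  refine Finset.sum_congr rfl fun j _ => ?_
  show chi (F.u j : k) σ * x (Sum.inl j) 0 = x (Sum.inl j) 0 * chi (F.u j : k) σ
  rw [mul_comm]

end

/-- B3: the type characters exist -/
theorem sbCy : SbCy := by
  classical
  intro k _ _ F Rk G _ D ρ hB y
  have key : ∀ (v : VV D.d) (i : Fin D.n), ∃ c : F.sys.T, ∀ σ : Gm k,
      (D.c (ρ σ) v + D.Bd.B (F.parU y σ) v) i = ∑ j, c j * chi (F.u j : k) σ := by
    intro v i
    refine bcy_units F Rk.toRx _ ?_ ?_ ?_
    · have h1 : IsLocallyConstant fun σ : Gm k => D.c (ρ σ) v := hB.lc.comp fun g => D.c g v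
      have h2 : IsLocallyConstant fun σ : Gm k => D.Bd.B (F.parU y σ) v :=
        (bcy_lcU F y).comp fun w => D.Bd.B w v
      exact (h1.add h2).comp fun w => w i
    · intro σ τ
      rw [map_mul, D.c_mul, bcy_homU, map_add, LinearMap.add_apply]
      simp only [Pi.add_apply]
      ring
    · intro p
      rw [hB.un p, D.c_one, bcy_tauU F Rk.toRx y p, map_zero, LinearMap.zero_apply, add_zero]
      rfl
  choose c hc using key
  refine ⟨fun v ζ => ∑ i, ζ i • c v i, fun v ζ σ => ?_, fun v ζ ζ' => ?_⟩
  · have h1 : ∀ i, ζ i * (D.c (ρ σ) v + D.Bd.B (F.parU y σ) v) i =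
        ∑ j, ζ i * (c v i j * chi (F.u j : k) σ) := by
      intro i
      rw [hc v i σ, Finset.mul_sum]
    unfold dotProduct
    rw [Finset.sum_congr rfl fun i _ => h1 i, Finset.sum_comm]
    refine Finset.sum_congr rfl fun j _ => ?_
    rw [Finset.sum_apply, Finset.sum_mul]
    refine Finset.sum_congr rfl fun i _ => ?_
    rw [Pi.smul_apply, smul_eq_mul, mul_assoc]
  · rw [← Finset.sum_add_distrib]
    refine Finset.sum_congr rfl fun i _ => ?_
    rw [Pi.add_apply, add_smul]

end Pool.Agent.EV
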