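import Pool.Agent.EV.AStm
import Pool.Agent.H98.MF.ParK

/-!
# Project T4 (MP_a3214d), even order: generation and the exponent
-/

set_option autoImplicit false

open scoped BigOperators
open NumberField IsDedekindDomain

namespace Pool.Agent.EV

open Pool.Agent.H98.MF

section

variable {k : Type} [Field k] [NumberField k] (F : Frm k) {G : Type} [Group G]

theorem bg_ind (t : Fin F.sys.m → ZMod 2)
    (h : ∀ σ : Gm k, ∑ j, t j * chi (F.u j : k) σ = 0) : t = 0 := by
  classical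
  have h1 := F.parK_ind ((Finset.univ.filter fun j : Fin F.sys.m => t j ≠ 0).map
    ⟨Sum.inl, Sum.inl_injective⟩) (fun σ => by
      rw [Finset.sum_map, Finset.sum_filter]
      refine Eq.trans (Finset.sum_congr rfl fun j _ => ?_) (h σ)
      show (if t j ≠ 0 then chi (F.u j : k) σ else 0) = t j * chi (F.u j : k) σ
      rcases ParK.cases2 (t j) with h2 | h2
      · rw [h2, if_neg (by simp), zero_mul]
      · rw [h2, if_pos one_ne_zero, one_mul])
  funext j
  by_contra h2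
  have h3 : (Sum.inl j : F.I) ∈ ((Finset.univ.filter fun j : Fin F.sys.m => t j ≠ 0).map
      ⟨Sum.inl, Sum.inl_injective⟩ : Finset F.I) :=
    Finset.mem_map.2 ⟨j, Finset.mem_filter.2 ⟨Finset.mem_univ _, h2⟩, rfl⟩
  rw [h1] at h3
  exact absurd h3 (Finset.notMem_empty _)

variable {F}

theorem bg_key {D : GD G} {ρ : Gm k →* G} {y : Fin F.sys.m → VV D.d}
    {c : VV D.d → VV D.n → F.sys.T} (hc : Cy F D ρ y c) {W : Set (VV D.d)}
    (hG : Gn D ρ (F.parU y) W) (v : VV D.d) (ζ : VV D.n) (h0 : c v ζ = 0)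
    (hW : ∀ w ∈ W, ζ ⬝ᵥ D.Bd.B w v = 0) (g : G) : ζ ⬝ᵥ D.c g v = 0 := by
  let K : Subgroup G :=
    { carrier := {g | ζ ⬝ᵥ D.c g v = 0}
      mul_mem' := by
        intro a b ha hb
        have ha' : ζ ⬝ᵥ D.c a v = 0 := ha
        have hb' : ζ ⬝ᵥ D.c b v = 0 := hb
        show ζ ⬝ᵥ D.c (a * b) v = 0
        rw [D.c_mul, dotProduct_add, ha', hb', add_zero]
      one_mem' := by
        show ζ ⬝ᵥ D.c 1 v = 0
        rw [D.c_one, dotProduct_zero]
      inv_mem' := by
        intro a ha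
        have ha' : ζ ⬝ᵥ D.c a v = 0 := ha
        show ζ ⬝ᵥ D.c a⁻¹ v = 0
        have h1 : ζ ⬝ᵥ D.c (a * a⁻¹) v = 0 := by
          rw [mul_inv_cancel, D.c_one, dotProduct_zero]
        rw [D.c_mul, dotProduct_add, ha', zero_add] at h1
        exact h1 }
  have hK : K = ⊤ := by
    refine hG K ?_ ?_ ?_
    · intro x
      show ζ ⬝ᵥ D.c (D.zz x) v = 0
      rw [D.c_zz, dotProduct_zero]
    · intro w hw
      show ζ ⬝ᵥ D.c (D.s w) v = 0
      rw [D.c_s']
      exact hW w hw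
    · intro σ
      show ζ ⬝ᵥ D.c (ρ σ * D.s (F.parU y σ)) v = 0
      rw [D.c_mul, D.c_s', hc.eq, h0]
      simp
  have hg : g ∈ K := by
    rw [hK]
    exact Subgroup.mem_top g
  exact hg

theorem bg_iff {D : GD G} {ρ : Gm k →* G} {y : Fin F.sys.m → VV D.d}
    {c : VV D.d → VV D.n → F.sys.T} (hc : Cy F D ρ y c) (hG : Ph F D ρ y Finset.univ)
    (v : VV D.d) (ζ : VV D.n) :
    (cT (S := F.sys) c v ζ = (0, ∅) ∧ ∀ w : D.R, ζ ⬝ᵥ D.Bd.B w v = 0) ↔
      ∀ g, ζ ⬝ᵥ D.c g v = 0 := by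
  constructor
  · rintro ⟨h1, h2⟩ g
    have h3 : c v ζ = 0 := congrArg Prod.fst h1
    refine bg_key hc hG v ζ h3 ?_ g
    rintro w ⟨u, _, rfl⟩
    exact h2 u
  · intro h
    have h2 : ∀ w : VV D.d, ζ ⬝ᵥ D.Bd.B w v = 0 := by
      intro w
      rw [← D.c_s']
      exact h _
    refine ⟨?_, fun w => h2 w⟩
    have h3 : c v ζ = 0 := by
      refine bg_ind F _ fun σ => ?_
      rw [← hc.eq, dotProduct_add, h, h2, add_zero]
    unfold cT
    rw [h3]

end

/-- B5: generation, and the exponent -/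
theorem sbGen (hB : SgB) : SbGen := by
  classical
  intro k _ _ F G _ D ρ y c hc
  refine ⟨?_, ?_, ?_⟩
  · intro U hU v _ ζ h0 hW w
    have h3 : c v ζ = 0 := congrArg Prod.fst h0
    have h4 := bg_key hc hU v ζ h3 (by
      rintro w ⟨u, hu, rfl⟩
      exact hW u hu) (D.s w)
    rwa [D.c_s'] at h4
  · intro U U' hUU hU H h1 h2 h3
    refine hU H h1 ?_ h3
    rintro w ⟨u, hu, rfl⟩
    exact h2 _ ⟨u, hUU hu, rfl⟩
  · intro hfin hU
    have h1 := hB G D
    have h2 : (RZ D.n).card + 1 = 2 ^ D.n := by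
      unfold RZ
      have h3 : (Finset.univ.filter fun v : VV D.n => v ≠ 0) = Finset.univ.erase 0 := by
        ext v
        simp
      rw [h3, Finset.card_erase_add_one (Finset.mem_univ _), Finset.card_univ, Fintype.card_fun,
        ZMod.card, Fintype.card_fin]
    have h4 : bV D.Bd D.R (cT (S := F.sys) c) =
        ∑ v ∈ D.R, Nat.card {ζ : VV D.n // ∀ g, ζ ⬝ᵥ D.c g v = 0} := by
      unfold bV
      refine Finset.sum_congr rfl fun v _ => ?_
      unfold nv
      rw [Nat.card_eq_fintype_card, Fintype.card_subtype]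
      refine congrArg Finset.card (Finset.filter_congr fun ζ _ => ?_)
      exact bg_iff hc hU v ζ
    rw [h4]
    omega

end Pool.Agent.EV
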