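import Pool.Agent.EV.AStm
import Pool.Agent.H98.MF.Crd
import Pool.Agent.H98.MF.L.KIn

/-!
# Project T4 (MP_a3214d), even order, row EV-B8: the mean of the local average is a function of
the types
-/

set_option autoImplicit false

open scoped BigOperators
open NumberField IsDedekindDomain

namespace Pool.Agent.EV

open Pool.Agent.H98.MF
open Pool.Agent.D8 (pat RxF)

section

variable {k : Type} [Field k] [NumberField k] (F : Frm k) (Rk : RxF k) {G : Type} [Group G]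
  (D : GD G) (ρ : Gm k →* G)

open Classical in
/-- the local average of a cochain -/
noncomputable def b8_av (H : (Gm k →* G) → Prop) (a : Gm k → VV D.d) (f : Gm k → VV D.n)
    (t : Fin D.n → F.sys.T) : ℝ :=
  (1 / ((2 : ℝ) ^ F.sys.m) ^ D.n) * ∑ z : Fin F.sys.m → VV D.n,
    (if H (hm D ρ a fun σ => f σ + F.parU z σ + F.parW (trn F t) σ) then 1 else 0)

theorem b8_parU_add {r : ℕ} (z w : Fin F.sys.m → (Fin r → ZMod 2)) (σ : Gm k) :
    F.parU (z + w) σ = F.parU z σ + F.parU w σ := by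
  unfold Frm.parU
  rw [← Finset.sum_add_distrib]
  exact Finset.sum_congr rfl fun j _ => smul_add _ _ _

theorem b8_parW_add {r : ℕ} (z w : Fin F.sys.m → (Fin r → ZMod 2)) (σ : Gm k) :
    F.parW (z + w) σ = F.parW z σ + F.parW w σ := by
  unfold Frm.parW
  rw [← Finset.sum_add_distrib]
  exact Finset.sum_congr rfl fun j _ => smul_add _ _ _

/-- the mean of the local averages of two cochains that agree with each other up to local
characters -/
theorem b8_shift (hT : SaTw) (hP : SaPar) (hlc : IsLocallyConstant ρ)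
    (H : (Gm k →* G) → Prop) (hH : LcS F.S H) (x x' : F.I →₀ VV D.d)
    (he : ∀ v ∈ pls F.S, ∀ σ ∈ DecP v, F.par x σ = F.par x' σ) (f f' : Gm k → VV D.n)
    (hf : IsR D ρ (F.par x) f) (hf' : IsR D ρ (F.par x') f') :
    ∑ t : Fin D.n → F.sys.T, b8_av F D ρ H (F.par x') f' t =
      ∑ t : Fin D.n → F.sys.T, b8_av F D ρ H (F.par x) f t := by
  classical
  -- the difference of the cochains
  have h1 : IsLocallyConstant fun σ => f' σ + f σ :=
    (IsLocallyConstant.prodMk hf'.lc hf.lc).comp fun x : VV D.n × VV D.n => x.1 + x.2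
  obtain ⟨z0, e0, h0⟩ := F.crd_exists (kin k) (fun σ => f' σ + f σ) h1
    (fun v hv σ hσ τ hτ => by
      show f' (σ * τ) + f (σ * τ) = (f' σ + f σ) + (f' τ + f τ)
      rw [hf'.hom, hf.hom, he v hv σ hσ, he v hv τ hτ]
      have e1 : f' σ + f' τ + D.β (F.par x' σ) (F.par x' τ) + D.c (ρ τ) (F.par x' σ) +
          (f σ + f τ + D.β (F.par x' σ) (F.par x' τ) + D.c (ρ τ) (F.par x' σ)) =
          (f' σ + f σ) + (f' τ + f τ) + ((D.β (F.par x' σ) (F.par x' τ) +
            D.β (F.par x' σ) (F.par x' τ)) + (D.c (ρ τ) (F.par x' σ) +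
              D.c (ρ τ) (F.par x' σ))) := by abel
      rw [e1, GD.two_V, GD.two_V, add_zero, add_zero])
  have h2 : ∀ v ∈ pls F.S, ∀ σ ∈ DecP v, f' σ = f σ + F.parU z0 σ + F.parW e0 σ := by
    intro v hv σ hσ
    have h3 : f' σ + f σ = F.parU z0 σ + F.parW e0 σ := h0 v hv σ hσ
    rw [add_assoc, ← h3, ← add_assoc, add_comm (f σ), add_assoc, GD.two_V, add_zero]
  set t0 : Fin D.n → F.sys.T := fun i j => e0 j i with ht0
  have ht : ∀ t : Fin D.n → F.sys.T, trn F (t + t0) = trn F t + e0 := fun t => rfl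
  have key : ∀ (z : Fin F.sys.m → VV D.n) (t : Fin D.n → F.sys.T),
      H (hm D ρ (F.par x') fun σ => f' σ + F.parU z σ + F.parW (trn F t) σ) ↔
      H (hm D ρ (F.par x) fun σ => f σ + F.parU (z + z0) σ + F.parW (trn F (t + t0)) σ) := by
    intro z t
    have r1 := (hT k F G D ρ (F.par x') f' hf').2.1 z (trn F t)
    have r2 := (hT k F G D ρ (F.par x) f hf).2.1 (z + z0) (trn F (t + t0))
    refine hH _ _ ((hP k F G D ρ hlc).2.1 x' _ r1).1 ((hP k F G D ρ hlc).2.1 x _ r2).1 ?_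
    intro v hv σ hσ
    rw [hm_apply r1 (F.par_hom x'), hm_apply r2 (F.par_hom x), he v hv σ hσ, h2 v hv σ hσ, ht,
      b8_parU_add, b8_parW_add]
    congr 3
    abel
  have h4 : ∀ t : Fin D.n → F.sys.T, b8_av F D ρ H (F.par x') f' t =
      b8_av F D ρ H (F.par x) f (t + t0) := by
    intro t
    unfold b8_av
    congr 1
    refine Fintype.sum_equiv (Equiv.addRight z0) _ _ fun z => ?_
    rw [Equiv.coe_addRight]
    exact if_congr (key z t) rfl rfl
  rw [Finset.sum_congr rfl fun t _ => h4 t]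
  exact Fintype.sum_equiv (Equiv.addRight t0) _ _ fun t => by rw [Equiv.coe_addRight]

theorem b8_gH (H : (Gm k →* G) → Prop) (y : Fin F.sys.m → VV D.d) (X : D.R → Finset F.sys.P)
    (h : ∃ f, IsN F Rk D ρ (F.par (xo F y X)) f) :
    ∃ f, IsN F Rk D ρ (F.par (xo F y X)) f ∧
      ∀ t, gH F Rk D ρ H y X t = b8_av F D ρ H (F.par (xo F y X)) f t := by
  refine ⟨h.choose, h.choose_spec, fun t => ?_⟩
  unfold gH b8_av
  rw [dif_pos h]

theorem b8_gH0 (H : (Gm k →* G) → Prop) (y : Fin F.sys.m → VV D.d) (X : D.R → Finset F.sys.P)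
    (h : ¬ ∃ f, IsN F Rk D ρ (F.par (xo F y X)) f) (t : Fin D.n → F.sys.T) :
    gH F Rk D ρ H y X t = 0 := by
  unfold gH
  rw [dif_neg h]

theorem b8_nonneg (H : (Gm k →* G) → Prop) (y : Fin F.sys.m → VV D.d)
    (X : D.R → Finset F.sys.P) (t : Fin D.n → F.sys.T) : 0 ≤ gH F Rk D ρ H y X t := by
  classical
  by_cases h : ∃ f, IsN F Rk D ρ (F.par (xo F y X)) f
  · obtain ⟨f, -, hf⟩ := b8_gH F Rk D ρ H y X h
    rw [hf]
    unfold b8_av
    refine mul_nonneg (by positivity) (Finset.sum_nonneg fun z _ => ?_)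
    split_ifs <;> norm_num
  · rw [b8_gH0 F Rk D ρ H y X h]

/-- solvable configurations with the same types -/
theorem b8_ex (hN : SaNo) (hS : SbSol) (hY : SbTy) (hG : P2 G) (hB : Bs F Rk ρ)
    (y : Fin F.sys.m → VV D.d) (c : VV D.d → VV D.n → F.sys.T) (hc : Cy F D ρ y c)
    (X X' : D.R → Finset F.sys.P) (hX : F.sys.Dj X) (hX' : F.sys.Dj X')
    (hk' : okc D.Bd D.R (cT (S := F.sys) c) X')
    (ht : ∀ v, F.sys.tys (X v) = F.sys.tys (X' v))
    (h : ∃ f, IsN F Rk D ρ (F.par (xo F y X)) f) :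
    ∃ f, IsN F Rk D ρ (F.par (xo F y X')) f := by
  obtain ⟨f, hf⟩ := h
  have h1 := ((hS k F Rk G D ρ hB y c hc X hX).1 ⟨f, hf.toIsR⟩).2
  have h2 := hY k F D.d D.R y X X' hX hX' ht
  obtain ⟨f', hf'⟩ := (hS k F Rk G D ρ hB y c hc X' hX').2 ⟨hk', fun v hv => by
    obtain ⟨g, hg, hg1⟩ := h1 v hv
    refine ⟨g, hg, fun σ hσ τ hτ => ?_⟩
    rw [← h2 v hv σ hσ, ← h2 v hv τ hτ]
    exact hg1 σ hσ τ hτ⟩
  exact hN k F Rk G D ρ hG hB.lc (xo F y X') f' hf'

theorem b8_eq (hT : SaTw) (hN : SaNo) (hP : SaPar) (hS : SbSol) (hY : SbTy) (hG : P2 G)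
    (hB : Bs F Rk ρ) (H : (Gm k →* G) → Prop) (hH : LcS F.S H) (y : Fin F.sys.m → VV D.d)
    (c : VV D.d → VV D.n → F.sys.T) (hc : Cy F D ρ y c)
    (X X' : D.R → Finset F.sys.P) (hX : F.sys.Dj X) (hX' : F.sys.Dj X')
    (hk : okc D.Bd D.R (cT (S := F.sys) c) X) (hk' : okc D.Bd D.R (cT (S := F.sys) c) X')
    (ht : ∀ v, F.sys.tys (X v) = F.sys.tys (X' v)) :
    ∑ t : Fin D.n → F.sys.T, gH F Rk D ρ H y X' t =
      ∑ t : Fin D.n → F.sys.T, gH F Rk D ρ H y X t := by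
  by_cases h : ∃ f, IsN F Rk D ρ (F.par (xo F y X)) f
  · have h' := b8_ex F Rk D ρ hN hS hY hG hB y c hc X X' hX hX' hk' ht h
    obtain ⟨f, hf, e⟩ := b8_gH F Rk D ρ H y X h
    obtain ⟨f', hf', e'⟩ := b8_gH F Rk D ρ H y X' h'
    rw [Finset.sum_congr rfl fun t _ => e t, Finset.sum_congr rfl fun t _ => e' t]
    exact b8_shift F D ρ hT hP hB.lc H hH (xo F y X) (xo F y X')
      (hY k F D.d D.R y X X' hX hX' ht) f f' hf.toIsR hf'.toIsR
  · have h' : ¬ ∃ f, IsN F Rk D ρ (F.par (xo F y X')) f := fun h' =>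
      h (b8_ex F Rk D ρ hN hS hY hG hB y c hc X' X hX' hX hk (fun v => (ht v).symm) h')
    rw [Finset.sum_congr rfl fun t _ => b8_gH0 F Rk D ρ H y X h t,
      Finset.sum_congr rfl fun t _ => b8_gH0 F Rk D ρ H y X' h' t]

end

/-- B8: the mean of the local average is a function of the types -/
theorem sbMean (hT : SaTw) (hN : SaNo) (hP : SaPar) (hS : SbSol) (hY : SbTy) : SbMean := by
  classical
  intro k _ _ F Rk G _ D ρ hG hB H hH y c hc
  let g : (D.R → Finset F.sys.P) → ℝ := fun X =>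
    (1 / ((2 : ℝ) ^ F.sys.m) ^ D.n) * ∑ t : Fin D.n → F.sys.T, gH F Rk D ρ H y X t
  let Q : (D.R → F.sys.T) → (D.R → Finset F.sys.P) → Prop := fun t X =>
    F.sys.Dj X ∧ okc D.Bd D.R (cT (S := F.sys) c) X ∧ ∀ v, F.sys.tys (X v) = t v
  refine ⟨fun t => if h : ∃ X, Q t X then g h.choose else 0, fun t => ?_, fun X hX hk => ?_⟩
  · show 0 ≤ if h : ∃ X, Q t X then g h.choose else 0
    split_ifs with h
    · exact mul_nonneg (by positivity)
        (Finset.sum_nonneg fun t _ => b8_nonneg F Rk D ρ H y _ t)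
    · exact le_refl 0
  · have h : ∃ X', Q (fun v => F.sys.tys (X v)) X' := ⟨X, hX, hk, fun v => rfl⟩
    show g X = if h : ∃ X', Q (fun v => F.sys.tys (X v)) X' then g h.choose else 0
    rw [dif_pos h]
    obtain ⟨h1, h2, h3⟩ := h.choose_spec
    show (1 / ((2 : ℝ) ^ F.sys.m) ^ D.n) * ∑ t : Fin D.n → F.sys.T, gH F Rk D ρ H y X t =
      (1 / ((2 : ℝ) ^ F.sys.m) ^ D.n) * ∑ t : Fin D.n → F.sys.T, gH F Rk D ρ H y h.choose t
    rw [b8_eq F Rk D ρ hT hN hP hS hY hG hB H hH y c hc h.choose X h1 hX h2 hk h3]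

end Pool.Agent.EV
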