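import Pool.Agent.EV.AStm

/-!
# Project T4 (MP_a3214d), even order, row B6: solvability of a configuration
-/

set_option autoImplicit false

open scoped BigOperators
open NumberField IsDedekindDomain

namespace Pool.Agent.EV

open Pool.Agent.H98.MF

section

variable {k : Type} [Field k] [NumberField k]

/-- a place outside `pls S` is a prime outside `S` -/
theorem bsol_place (S : Finset (HeightOneSpectrum (𝓞 k))) (v : Pl k) (hv : v ∉ pls S) :
    ∃ P, v = Sum.inl P ∧ P ∉ S := by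
  rcases v with P | φ
  · refine ⟨P, rfl, fun hP => hv ?_⟩
    unfold pls
    rw [Finset.inl_mem_disjSum]
    exact hP
  · exfalso
    apply hv
    unfold pls
    rw [Finset.inr_mem_disjSum]
    exact Finset.mem_univ _

end

theorem sbSol (h5 : SaLoc) (h6 : SaHas) (h1 : SbXo) (h4 : SbOk) : SbSol := by
  intro k _ _ F Rk G _ D ρ hρ y c hc X hX
  obtain ⟨-, hx1, hx2, -⟩ := h1 k F D.d D.R y X hX
  rw [h6 k F G D ρ hρ.lc (xo F y X), h4 k F Rk G D ρ y c hc X hX]
  have key : ∀ (u : D.R) (p : F.sys.P), p ∈ X u →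
      (LcR D ρ (F.par (xo F y X)) (Sum.inl (F.pl p)) ↔ D.c (ρ (Rk.phi (F.pl p))) u +
        D.Bd.B (F.par (xo F y X) (Rk.phi (F.pl p))) u = 0) := by
    intro u p hp
    have h2 : xo F y X (Sum.inr p) = u := hx1 u p hp
    have h3 : D.β (xo F y X (Sum.inr p)) (xo F y X (Sum.inr p)) = 0 := by
      rw [h2]
      exact (D.mem_R.1 u.2).2
    have h7 := h5 k F Rk G D ρ hρ.lc (xo F y X) p (hρ.un p) h3
    rwa [h2] at h7
  constructor
  · intro h
    exact ⟨fun v p hp => (key v p hp).1 (h _), fun v _ => h v⟩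
  · rintro ⟨h, h'⟩ v
    by_cases hv : v ∈ pls F.S
    · exact h' v hv
    · obtain ⟨P, rfl, hP⟩ := bsol_place F.S v hv
      obtain ⟨p, rfl⟩ := (F.pl_iff P).2 hP
      by_cases hp : ∃ u, p ∈ X u
      · obtain ⟨u, hu⟩ := hp
        exact (key u p hu).2 (h u p hu)
      · have h2 := hx2 p fun v hv => hp ⟨v, hv⟩
        have h3 : D.β (xo F y X (Sum.inr p)) (xo F y X (Sum.inr p)) = 0 := by
          rw [h2, map_zero]
        rw [h5 k F Rk G D ρ hρ.lc (xo F y X) p (hρ.un p) h3, h2, D.c_zero, map_zero, add_zero]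

end Pool.Agent.EV
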