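import Pool.Agent.EV.AStm
import Pool.Agent.H98.MF.ParK

/-!
# Project T4 (MP_a3214d), even order, row B2: surjectivity
-/

set_option autoImplicit false

open scoped BigOperators
open NumberField IsDedekindDomain

namespace Pool.Agent.EV

open Pool.Agent.H98.MF
open Pool.Agent.D8 (pat RxF)

section

variable {G : Type} [Group G] (D : GD G)

theorem bSur_add (v w : VV D.d) : D.s (v + w) = D.s v * D.s w * D.zz (D.β v w) := by
  rw [D.s_mul, mul_assoc, D.zz_self, mul_one]

theorem bSur_sum (H : Subgroup G) (hz : ∀ x, D.zz x ∈ H) {ι : Type} (t : Finset ι)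
    (g : ι → VV D.d) (hg : ∀ i ∈ t, D.s (g i) ∈ H) : D.s (∑ i ∈ t, g i) ∈ H := by
  classical
  induction t using Finset.induction_on with
  | empty =>
    rw [Finset.sum_empty, D.s_zero]
    exact H.one_mem
  | insert i t hi ih =>
    rw [Finset.sum_insert hi, bSur_add]
    exact H.mul_mem (H.mul_mem (hg i (Finset.mem_insert_self i t))
      (ih fun j hj => hg j (Finset.mem_insert_of_mem hj))) (hz _)

theorem bSur_smul (H : Subgroup G) (c : ZMod 2) (v : VV D.d) (h : c ≠ 0 → D.s v ∈ H) :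
    D.s (c • v) ∈ H := by
  rcases ParK.cases2 c with h0 | h0
  · rw [h0, zero_smul, D.s_zero]
    exact H.one_mem
  · rw [h0, one_smul]
    exact h (by rw [h0]; exact one_ne_zero)

/-- the subgroup of the elements congruent to an element of `H` modulo `Z` -/
def bSurK (H : Subgroup G) : Subgroup G where
  carrier := {g | ∃ x, g * D.zz x ∈ H}
  mul_mem' := by
    rintro a b ⟨x, hx⟩ ⟨y, hy⟩
    refine ⟨x + y, ?_⟩
    have h1 : a * b * D.zz (x + y) = a * D.zz x * (b * D.zz y) := by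
      rw [D.zz_add]
      calc a * b * (D.zz x * D.zz y) = a * (b * D.zz x) * D.zz y := by simp only [mul_assoc]
        _ = a * (D.zz x * b) * D.zz y := by rw [D.zz_cen x b]
        _ = _ := by simp only [mul_assoc]
    rw [h1]
    exact H.mul_mem hx hy
  one_mem' := by
    refine ⟨0, ?_⟩
    rw [D.zz_zero, mul_one]
    exact H.one_mem
  inv_mem' := by
    rintro a ⟨x, hx⟩
    refine ⟨x, ?_⟩
    have h1 : a⁻¹ * D.zz x = (a * D.zz x)⁻¹ := by
      rw [mul_inv_rev, eq_comm, inv_mul_eq_iff_eq_mul, ← D.zz_cen x a⁻¹, ← mul_assoc,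
        D.zz_self, one_mul]
    rw [h1]
    exact H.inv_mem hx

theorem bSurK_mem {H : Subgroup G} {g : G} : g ∈ bSurK D H ↔ ∃ x, g * D.zz x ∈ H := Iff.rfl

theorem bSurK_zz (H : Subgroup G) (x : VV D.n) : D.zz x ∈ bSurK D H := by
  refine ⟨x, ?_⟩
  rw [D.zz_self]
  exact H.one_mem

theorem bSurK_le (H : Subgroup G) {g : G} (hg : g ∈ H) : g ∈ bSurK D H := by
  refine ⟨0, ?_⟩
  rw [D.zz_zero, mul_one]
  exact hg

end

section

variable {k : Type} [Field k] [NumberField k] (F : Frm k) {G : Type} [Group G] (D : GD G)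

/-- the values of the homomorphism and of its unit part -/
theorem bSur_iff (h1 : SbXo) (ρ : Gm k →* G) (y : Fin F.sys.m → VV D.d)
    (X : D.R → Finset F.sys.P) (f : Gm k → VV D.n) (hX : F.sys.Dj X)
    (hf : IsR D ρ (F.par (xo F y X)) f) (H : Subgroup G) (hz : ∀ x, D.zz x ∈ H)
    (hw : ∀ v ∈ pat X, D.s (v : VV D.d) ∈ H) (σ : Gm k) :
    hm D ρ (F.par (xo F y X)) f σ ∈ H ↔ ρ σ * D.s (F.parU y σ) ∈ H := by
  have e1 := (h1 k F D.d D.R y X hX).2.2.2 σ
  have h2 : D.s (∑ v : D.R, (∑ p ∈ X v, chi (F.pi p : k) σ) • (v : VV D.d)) ∈ H := by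
    refine bSur_sum D H hz _ _ fun v _ => bSur_smul D H _ _ fun hc => hw v ?_
    unfold pat
    rw [Finset.mem_filter]
    refine ⟨Finset.mem_univ _, ?_⟩
    by_contra h3
    rw [Finset.not_nonempty_iff_eq_empty] at h3
    rw [h3, Finset.sum_empty] at hc
    exact hc rfl
  rw [hm_apply hf (F.par_hom _), e1, bSur_add]
  generalize D.s (∑ v : D.R, (∑ p ∈ X v, chi (F.pi p : k) σ) • (v : VV D.d)) = g at h2 ⊢
  generalize D.β (F.parU y σ) (∑ v : D.R, (∑ p ∈ X v, chi (F.pi p : k) σ) • (v : VV D.d)) = b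
  have e2 : ρ σ * (D.s (F.parU y σ) * g * D.zz b * D.zz (f σ)) =
      ρ σ * D.s (F.parU y σ) * (g * D.zz b * D.zz (f σ)) := by
    simp only [mul_assoc]
  rw [e2]
  exact Subgroup.mul_mem_cancel_right H (H.mul_mem (H.mul_mem h2 (hz _)) (hz _))

end

/-- B2: surjectivity -/
theorem sbSur (h1 : SbXo) (h3 : SaTau) : SbSur := by
  intro k _ _ F Rk G _ D ρ hρ y X f hX hf
  constructor
  · intro hs H hz hw hr
    rw [eq_top_iff]
    intro g _
    obtain ⟨σ, rfl⟩ := hs g
    exact (bSur_iff F D h1 ρ y X f hX hf H hz (fun v hv => hw _ ⟨v, hv, rfl⟩) σ).2 (hr σ)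
  · intro hP
    set R0 : Subgroup G := (hm D ρ (F.par (xo F y X)) f).range with hR0
    have hz := bSurK_zz D R0
    have hw : ∀ v ∈ pat X, D.s (v : VV D.d) ∈ bSurK D R0 := by
      intro v hv
      unfold pat at hv
      rw [Finset.mem_filter] at hv
      obtain ⟨p, hp⟩ := hv.2
      have e1 := (h3 k F Rk G D ρ (xo F y X) f hf p (hρ.un p)).1
      rw [(h1 k F D.d D.R y X hX).2.1 v p hp] at e1
      refine ⟨f (Rk.tau (F.pl p)), ?_⟩
      rw [← e1]
      exact ⟨_, rfl⟩
    have hK : bSurK D R0 = ⊤ := by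
      refine hP _ hz ?_ fun σ => ?_
      · rintro w ⟨v, hv, rfl⟩
        exact hw v hv
      · exact (bSur_iff F D h1 ρ y X f hX hf _ hz hw σ).1 (bSurK_le D R0 ⟨σ, rfl⟩)
    have hT : R0 = ⊤ := by
      refine D.frat R0 fun g => ?_
      have hg : g ∈ bSurK D R0 := by
        rw [hK]
        exact Subgroup.mem_top g
      exact hg
    exact MonoidHom.range_eq_top.1 hT

end Pool.Agent.EV
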