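import Pool.Agent.EV.AStm
import Pool.Agent.H98.MF.LocData
import Pool.Agent.H98.MF.L.KIn

/-!
# Project T4 (MP_a3214d), even order: the parameters at the places of `S`
-/

set_option autoImplicit false

open scoped BigOperators
open NumberField IsDedekindDomain

namespace Pool.Agent.EV

open Pool.Agent.H98.MF

/-- B7: the parameters at the places of `S` depend on the types only -/
theorem sbTy (h1 : SbXo) : SbTy := by
  intro k _ _ F d R y X X' hX hX' ht v hv σ hσ
  rw [(h1 k F d R y X hX).2.2.2 σ, (h1 k F d R y X' hX').2.2.2 σ]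
  congr 1
  refine Finset.sum_congr rfl fun r _ => ?_
  have key : ∀ A : Finset F.sys.P, ∑ p ∈ A, chi (F.pi p : k) σ =
      ∑ j, F.sys.tys A j * chi (F.w j : k) σ := by
    intro A
    have h2 : ∑ p ∈ A, chi (F.pi p : k) σ = ∑ p ∈ A, ∑ j, F.sys.ty p j * chi (F.w j : k) σ :=
      Finset.sum_congr rfl fun p _ => F.m6a_chi_pi (kin k) p hv hσ
    rw [h2, Finset.sum_comm]
    refine Finset.sum_congr rfl fun j _ => ?_
    rw [← Finset.sum_mul]
    unfold Sys.tys
    rw [Finset.sum_apply]
  rw [key, key, ht r]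

end Pool.Agent.EV
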