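import Pool.Agent.EV.AStm

/-!
# Project T4 (MP_a3214d), even order: the parameters of a configuration
-/

set_option autoImplicit false

open scoped BigOperators
open NumberField IsDedekindDomain

namespace Pool.Agent.EV

open Pool.Agent.H98.MF

section

variable {k : Type} [Field k] [NumberField k] (F : Frm k) {d : ℕ}

theorem bxo_par (x : F.I →₀ VV d) (σ : Gm k) : F.par x σ =
    Finsupp.liftAddHom (fun i => DistribSMul.toAddMonoidHom (VV d) (chi (F.e i : k) σ)) x := rfl

theorem bxo_single (i : F.I) (v : VV d) (σ : Gm k) :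
    F.par (Finsupp.single i v) σ = chi (F.e i : k) σ • v := by
  rw [bxo_par, Finsupp.liftAddHom_apply_single]
  rfl

theorem bxo_add (x y : F.I →₀ VV d) (σ : Gm k) : F.par (x + y) σ = F.par x σ + F.par y σ := by
  rw [bxo_par, bxo_par, bxo_par, map_add]

theorem bxo_sum {ι : Type} (s : Finset ι) (x : ι → F.I →₀ VV d) (σ : Gm k) :
    F.par (∑ i ∈ s, x i) σ = ∑ i ∈ s, F.par (x i) σ := by
  rw [bxo_par, map_sum]
  rfl

variable {R : Finset (VV d)} (y : Fin F.sys.m → VV d) (X : R → Finset F.sys.P)

open Classical in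
theorem bxo_apply (i : F.I) : xo F y X i = ∑ j, Finsupp.single (Sum.inl j : F.I) (y j) i +
    ∑ v : R, ∑ p ∈ X v, Finsupp.single (Sum.inr p : F.I) (v : VV d) i := by
  unfold xo
  rw [Finsupp.add_apply, Finsupp.finsetSum_apply, Finsupp.finsetSum_apply]
  congr 1
  refine Finset.sum_congr rfl fun v _ => ?_
  rw [Finsupp.finsetSum_apply]

theorem bxo_inl (j : Fin F.sys.m) : xo F y X (Sum.inl j) = y j := by
  classical
  rw [bxo_apply]
  have h1 : ∑ i, Finsupp.single (Sum.inl i : F.I) (y i) (Sum.inl j : F.I) = y j := by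
    rw [Finset.sum_eq_single j]
    · rw [Finsupp.single_eq_same]
    · intro i _ hi
      rw [Finsupp.single_apply, if_neg fun h => hi (Sum.inl_injective h)]
    · intro h
      exact absurd (Finset.mem_univ j) h
  have h2 : ∑ v : R, ∑ p ∈ X v, Finsupp.single (Sum.inr p : F.I) (v : VV d) (Sum.inl j : F.I) =
      0 := by
    refine Finset.sum_eq_zero fun v _ => Finset.sum_eq_zero fun p _ => ?_
    rw [Finsupp.single_apply, if_neg Sum.inr_ne_inl]
  rw [h1, h2, add_zero]

open Classical in
theorem bxo_inr (p : F.sys.P) : xo F y X (Sum.inr p) =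
    ∑ v : R, if p ∈ X v then (v : VV d) else 0 := by
  rw [bxo_apply]
  have h1 : ∑ i, Finsupp.single (Sum.inl i : F.I) (y i) (Sum.inr p : F.I) = 0 := by
    refine Finset.sum_eq_zero fun v _ => ?_
    rw [Finsupp.single_apply, if_neg Sum.inl_ne_inr]
  rw [h1, zero_add]
  refine Finset.sum_congr rfl fun v _ => ?_
  have h2 : ∀ q : F.sys.P, Finsupp.single (Sum.inr q : F.I) (v : VV d) (Sum.inr p : F.I) =
      if q = p then (v : VV d) else 0 := fun q => by
    rw [Finsupp.single_apply]
    exact if_congr ⟨fun h => Sum.inr_injective h, fun h => by rw [h]⟩ rfl rfl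
  rw [Finset.sum_congr rfl fun q _ => h2 q, Finset.sum_ite_eq']

end

/-- B1: the parameters of a configuration -/
theorem sbXo : SbXo := by
  classical
  intro k _ _ F d R y X hX
  refine ⟨bxo_inl F y X, ?_, ?_, ?_⟩
  · intro v p hp
    rw [bxo_inr, Finset.sum_eq_single v]
    · rw [if_pos hp]
    · intro w _ hw
      rw [if_neg]
      intro hc
      exact Finset.disjoint_left.1 (hX w v hw) hc hp
    · intro h
      exact absurd (Finset.mem_univ v) h
  · intro p hp
    rw [bxo_inr]
    exact Finset.sum_eq_zero fun v _ => if_neg (hp v)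
  · intro σ
    unfold xo
    rw [bxo_add, bxo_sum, bxo_sum]
    unfold Frm.parU
    congr 1
    · refine Finset.sum_congr rfl fun j _ => ?_
      rw [bxo_single]
      rfl
    · refine Finset.sum_congr rfl fun v _ => ?_
      rw [bxo_sum, Finset.sum_smul]
      refine Finset.sum_congr rfl fun p _ => ?_
      rw [bxo_single]
      rfl

end Pool.Agent.EV
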