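import Pool.Agent.EV.AStm

/-!
# Project T4 (MP_a3214d), even order, row E1: the asymptotic formula for a base homomorphism
unramified outside `S`
-/

set_option autoImplicit false

open scoped BigOperators Topology
open NumberField IsDedekindDomain Filter

namespace Pool.Agent.EV

open Pool.Agent.H98.MF
open Pool.Agent.D8 (pat RxF)

section

variable {k : Type} [Field k] [NumberField k] (F : Frm k) (Rk : RxF k) {G : Type} [Group G]
  (D : GD G) (ρ : Gm k →* G)

/-- the local average has values in the unit interval -/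
theorem ef1_gH (H : (Gm k →* G) → Prop) (y : Fin F.sys.m → VV D.d)
    (X : D.R → Finset F.sys.P) (t : Fin D.n → F.sys.T) :
    0 ≤ gH F Rk D ρ H y X t ∧ gH F Rk D ρ H y X t ≤ 1 := by
  classical
  unfold gH
  split_ifs with h
  · have hc : (0 : ℝ) < ((2 : ℝ) ^ F.sys.m) ^ D.n := by positivity
    constructor
    · refine mul_nonneg (by positivity) (Finset.sum_nonneg fun z _ => ?_)
      split_ifs
      · exact zero_le_one
      · exact le_rfl
    · have h1 : (∑ z : Fin F.sys.m → VV D.n,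
          (if H (hm D ρ (F.par (xo F y X)) fun σ => h.choose σ + F.parU z σ +
            F.parW (trn F t) σ) then (1 : ℝ) else 0)) ≤ ((2 : ℝ) ^ F.sys.m) ^ D.n := by
        refine (Finset.sum_le_card_nsmul _ _ 1 fun z _ => ?_).trans ?_
        · split_ifs
          · exact le_rfl
          · exact zero_le_one
        · rw [nsmul_eq_mul, mul_one, Finset.card_univ]
          have h2 : Fintype.card (Fin F.sys.m → VV D.n) = (2 ^ F.sys.m) ^ D.n := by
            rw [Fintype.card_fun, Fintype.card_fun, ZMod.card, Fintype.card_fin, Fintype.card_fin,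
              ← pow_mul, ← pow_mul, mul_comm]
          rw [h2]
          push_cast
          exact le_rfl
      rw [one_div, inv_mul_le_iff₀ hc, mul_one]
      exact h1
  · exact ⟨le_rfl, zero_le_one⟩

/-- without generating patterns the sum vanishes -/
theorem ef1_zero (y : Fin F.sys.m → VV D.d) (c : VV D.d → VV D.n → F.sys.T)
    (hmono : ∀ U U' : Finset D.R, U ⊆ U' → Ph F D ρ y U → Ph F D ρ y U')
    (hn : ¬ Ph F D ρ y Finset.univ)
    (g : (D.R → Finset F.sys.P) → (Fin D.n → F.sys.T) → ℝ) (Y : ℝ) :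
    NN D.Bd D.R (cT (S := F.sys) c) ∅ (Ph F D ρ y) g Y = 0 := by
  classical
  unfold NN
  refine Finset.sum_eq_zero fun x _ => ?_
  rw [if_neg]
  rintro ⟨-, -, -, h, -⟩
  exact hn (hmono _ _ (Finset.subset_univ _) h)

end

/-- the configuration of a homomorphism of a coset -/
theorem ef1_conf (hX : SbXo) (hP : SaPar) (h3 : SaTau) {k : Type} [Field k] [NumberField k]
    (F : Frm k) (Rk : RxF k) {G : Type} [Group G] (D : GD G) (ρ : Gm k →* G)
    (hρ : IsLocallyConstant ρ) (hun : ∀ p, ρ (Rk.tau (F.pl p)) = 1) (ρ' : Gm k →* G)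
    (hlc : IsLocallyConstant ρ') (hsim : D.Sim ρ ρ')
    (h2 : ∀ p, ρ' (Rk.tau (F.pl p)) ^ 2 = 1) :
    ∃ (y : Fin F.sys.m → VV D.d) (X : D.R → Finset F.sys.P) (f : Gm k → VV D.n), F.sys.Dj X ∧
      IsR D ρ (F.par (xo F y X)) f ∧ ρ' = hm D ρ (F.par (xo F y X)) f := by
  classical
  obtain ⟨x, f, hf, hρ'⟩ := (hP k F G D ρ hρ).1 ρ' hlc hsim
  let X : D.R → Finset F.sys.P := fun v =>
    (x.support.preimage Sum.inr Sum.inr_injective.injOn).filter fun p => x (Sum.inr p) = v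
  have hXm : ∀ (v : D.R) (p : F.sys.P), p ∈ X v ↔ x (Sum.inr p) = v := by
    intro v p
    show p ∈ Finset.filter _ _ ↔ _
    rw [Finset.mem_filter, Finset.mem_preimage, Finsupp.mem_support_iff]
    constructor
    · exact fun h => h.2
    · intro h
      refine ⟨?_, h⟩
      rw [h]
      exact (D.mem_R.1 v.2).1
  have hDj : F.sys.Dj X := by
    intro u v huv
    rw [Finset.disjoint_left]
    intro p hu hv
    apply huv
    apply Subtype.ext
    rw [← (hXm u p).1 hu, ← (hXm v p).1 hv]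
  have hx : xo F (fun j => x (Sum.inl j)) X = x := by
    obtain ⟨h5, h6, h7, -⟩ := hX k F D.d D.R (fun j => x (Sum.inl j)) X hDj
    ext i
    rcases i with j | p
    · rw [h5 j]
    · by_cases h8 : x (Sum.inr p) = 0
      · rw [h7 p, h8]
        intro v hv
        rw [hXm, h8] at hv
        exact (D.mem_R.1 v.2).1 hv.symm
      · have h9 : D.β (x (Sum.inr p)) (x (Sum.inr p)) = 0 := by
          have h10 := (h3 k F Rk G D ρ x f hf p (hun p)).2.1
          rw [← hρ'] at h10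
          exact h10.1 (h2 p)
        have h10 : x (Sum.inr p) ∈ D.R := D.mem_R.2 ⟨h8, h9⟩
        rw [h6 ⟨x (Sum.inr p), h10⟩ p ((hXm _ _).2 rfl)]
  refine ⟨fun j => x (Sum.inl j), X, f, hDj, ?_, ?_⟩
  · rw [hx]
    exact hf
  · rw [hx]
    exact hρ'

/-- the local average is positive for a suitable type -/
theorem ef1_pos (hN : SaNo) (hT : SaTw) (hP : SaPar) (hL : ScLoc) {k : Type} [Field k]
    [NumberField k] (F : Frm k) (Rk : RxF k) {G : Type} [Group G] (hG : P2 G) (D : GD G)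
    (ρ : Gm k →* G) (hρ : IsLocallyConstant ρ) (H : (Gm k →* G) → Prop) (hH : LcS F.S H)
    (y : Fin F.sys.m → VV D.d) (X : D.R → Finset F.sys.P) (f : Gm k → VV D.n)
    (hf : IsR D ρ (F.par (xo F y X)) f) (hh : H (hm D ρ (F.par (xo F y X)) f)) :
    ∃ t, 0 < gH F Rk D ρ H y X t := by
  classical
  have hex : ∃ f', IsN F Rk D ρ (F.par (xo F y X)) f' :=
    hN k F Rk G D ρ hG hρ (xo F y X) f hf
  obtain ⟨-, htw2, htw3⟩ := hT k F G D ρ (F.par (xo F y X)) hex.choose hex.choose_spec.toIsR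
  obtain ⟨b, hb⟩ := htw3 f hf
  refine ⟨tot F b, ?_⟩
  unfold gH
  rw [dif_pos hex]
  have hc : (0 : ℝ) < 1 / ((2 : ℝ) ^ F.sys.m) ^ D.n := by positivity
  refine mul_pos hc ?_
  refine Finset.sum_pos' (fun z _ => ?_) ⟨fun j => b (Sum.inl j), Finset.mem_univ _, ?_⟩
  · split_ifs
    · exact zero_le_one
    · exact le_rfl
  · rw [if_pos]
    · exact one_pos
    have hR := htw2 (fun j => b (Sum.inl j)) (trn F (tot F b))
    obtain ⟨-, hlc, -⟩ := hP k F G D ρ hρ
    have hadd := F.par_hom (xo F y X)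
    refine (hH _ _ (hlc _ _ hf).1 (hlc _ _ hR).1 fun v hv σ hσ => ?_).1 hh
    rw [hm_apply hf hadd, hm_apply hR hadd, hb σ, hL k F D.n b v hv σ hσ, add_assoc]

open Classical in
/-- E1: the base homomorphism is unramified outside `S` -/
theorem seF1 (hF : SFix) (hCy : SbCy) (hG : SbGen) (hM : SbMean) (hC : ScCa) (hX : SbXo)
    (hP : SaPar) (h3 : SaTau) (hS : SbSol) (hN : SaNo) (hT : SaTw) (hL : ScLoc)
    (hSur : SbSur) : SeF1 := by
  intro k _ _ F Rk G _ D ρ hP2 hn hBs H hH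
  have hfinG : Finite G := hP2.1
  choose c hc using fun y => hCy k F Rk G D ρ hBs y
  -- the limit for each choice of the unit coordinates
  have hy : ∀ y : Fin F.sys.m → VV D.d, ∃ L : ℝ, 0 ≤ L ∧ Tendsto (fun Y : ℝ =>
      NN D.Bd D.R (cT (S := F.sys) (c y)) ∅ (Ph F D ρ y) (gH F Rk D ρ H y) Y /
        (Y * Real.log Y ^ (D.b - 1))) atTop (𝓝 L) ∧
      (∀ (X : D.R → Finset F.sys.P) (f : Gm k → VV D.n), F.sys.Dj X →
        IsR D ρ (F.par (xo F y X)) f → H (hm D ρ (F.par (xo F y X)) f) →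
        Function.Surjective (hm D ρ (F.par (xo F y X)) f) → 0 < L) := by
    intro y
    obtain ⟨hgen, hmono, hbV⟩ := hG k F G D ρ y (c y) (hc y)
    by_cases hu : Ph F D ρ y Finset.univ
    · obtain ⟨θ, hθ0, hθ⟩ := hM k F Rk G D ρ hP2 hBs H hH y (c y) (hc y)
      obtain ⟨L, hL0, hlim, hpos⟩ := hF F.sys D.d D.n D.Bd D.R (c y) (Ph F D ρ y) θ
        (gH F Rk D ρ H y) hn (hc y).add hgen hu (fun x t => ef1_gH F Rk D ρ H y x t) hθ0 hθ
      rw [hbV hfinG hu] at hlim
      refine ⟨L, hL0, hlim, ?_⟩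
      intro X f hDj hf hh _
      have hok := ((hS k F Rk G D ρ hBs y (c y) (hc y) X hDj).1 ⟨f, hf⟩).1
      refine hpos ⟨X, hDj, hok, ?_⟩
      rw [← hθ X hDj hok]
      obtain ⟨t, ht⟩ := ef1_pos hN hT hP hL F Rk hP2 D ρ hBs.lc H hH y X f hf hh
      have h1 : (0 : ℝ) < 1 / ((2 : ℝ) ^ F.sys.m) ^ D.n := by positivity
      exact mul_pos h1 (Finset.sum_pos' (fun t _ => (ef1_gH F Rk D ρ H y X t).1)
        ⟨t, Finset.mem_univ _, ht⟩)
    · refine ⟨0, le_rfl, ?_, ?_⟩
      · have h1 : (fun Y : ℝ =>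
            NN D.Bd D.R (cT (S := F.sys) (c y)) ∅ (Ph F D ρ y) (gH F Rk D ρ H y) Y /
              (Y * Real.log Y ^ (D.b - 1))) = fun _ => 0 := by
          funext Y
          rw [ef1_zero F D ρ y (c y) hmono hu, zero_div]
        rw [h1]
        exact tendsto_const_nhds
      · intro X f hDj hf _ hsurj
        exfalso
        apply hu
        exact hmono _ _ (Finset.subset_univ _)
          ((hSur k F Rk G D ρ hBs y X f hDj hf).1 hsurj)
  choose L hL0 hlim hpos using hy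
  have hc0 : (0 : ℝ) < ((2 : ℝ) ^ F.sys.m) ^ D.n := by positivity
  refine ⟨((2 : ℝ) ^ F.sys.m) ^ D.n * ∑ y, L y,
    mul_nonneg hc0.le (Finset.sum_nonneg fun y _ => hL0 y), ?_, ?_⟩
  · have h1 : (fun Y : ℝ => ((Ca F Rk D ρ H Y).ncard : ℝ) / (Y * Real.log Y ^ (D.b - 1))) =
        fun Y : ℝ => ((2 : ℝ) ^ F.sys.m) ^ D.n * ∑ y : Fin F.sys.m → VV D.d,
          NN D.Bd D.R (cT (S := F.sys) (c y)) ∅ (Ph F D ρ y) (gH F Rk D ρ H y) Y /
            (Y * Real.log Y ^ (D.b - 1)) := by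
      funext Y
      rw [(hC k F Rk G D ρ hP2 hBs H hH c hc Y).2, mul_div_assoc, Finset.sum_div]
    rw [h1]
    exact (tendsto_finsetSum _ fun y _ => hlim y).const_mul _
  · rintro ⟨Y, ρ', hsurj, hlc, hsim, hh, hsq, -⟩
    obtain ⟨y, X, f, hDj, hf, hρ'⟩ := ef1_conf hX hP h3 F Rk D ρ hBs.lc hBs.un ρ' hlc hsim hsq
    rw [hρ'] at hh hsurj
    have h1 := hpos y X f hDj hf hh hsurj
    refine mul_pos hc0 (Finset.sum_pos' (fun y _ => hL0 y) ⟨y, Finset.mem_univ _, h1⟩)

end Pool.Agent.EV
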