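import Pool.Agent.EV.AStm
import Pool.Agent.D8.CFrm
import Pool.Agent.H98.MF.LhTauK

/-!
# Project T4 (MP_a3214d), even order, row EV-E2: the inner statement for fixed data, from frames
adapted to the data
-/

set_option autoImplicit false

open scoped BigOperators Topology
open NumberField IsDedekindDomain Filter

namespace Pool.Agent.EV

open Pool.Agent.H98.MF
open Pool.Agent.H98.MK (sg)
open Pool.Agent.H98.ML (norb)
open Pool.Agent.D8 (pat RxF)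
open Pool.Agent.H92.EL (TM Om1 Ncl Zt Ctn Hk HLo Cg nO HI InnF InnU Hyp)

/-! ### limits -/

theorem f2_ratio (q : ℝ) (hq : 1 ≤ q) (m : ℕ) :
    Tendsto (fun Y : ℝ => ((Y / q) * Real.log (Y / q) ^ m) / (Y * Real.log Y ^ m)) atTop
      (𝓝 (1 / q)) := by
  have hq0 : 0 < q := by linarith
  have h1 : Tendsto (fun X : ℝ => (1 - Real.log q / Real.log X) ^ m) atTop (𝓝 ((1 - 0) ^ m)) :=
    ((Real.tendsto_log_atTop.const_div_atTop (Real.log q)).const_sub 1).pow m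
  have h2 := h1.const_mul (1 / q)
  rw [sub_zero, one_pow, mul_one] at h2
  refine h2.congr' ?_
  filter_upwards [eventually_gt_atTop (1 : ℝ)] with X hX
  have hX0 : 0 < X := by linarith
  have hlog : Real.log X ≠ 0 := (Real.log_pos hX).ne'
  rw [Real.log_div hX0.ne' hq0.ne']
  have e1 : 1 - Real.log q / Real.log X = (Real.log X - Real.log q) / Real.log X := by
    field_simp
  rw [e1, div_pow]
  have hl : Real.log X ^ m ≠ 0 := pow_ne_zero m hlog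
  field_simp

theorem f2_comp (q : ℝ) (hq : 1 ≤ q) (m : ℕ) (S : ℝ → ℝ) (l : ℝ)
    (hS : Tendsto (fun Y : ℝ => S Y / (Y * Real.log Y ^ m)) atTop (𝓝 l)) :
    Tendsto (fun Y : ℝ => S (Y / q) / (Y * Real.log Y ^ m)) atTop (𝓝 (l * (1 / q))) := by
  have hq0 : 0 < q := by linarith
  have hY : Tendsto (fun Y : ℝ => Y / q) atTop atTop := tendsto_id.atTop_div_const hq0
  refine ((hS.comp hY).mul (f2_ratio q hq m)).congr' ?_
  filter_upwards [hY.eventually (eventually_gt_atTop (1 : ℝ))] with X hX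
  have h1 : X / q * Real.log (X / q) ^ m ≠ 0 :=
    mul_ne_zero (by linarith) (pow_ne_zero m (Real.log_pos hX).ne')
  simp only [Function.comp_apply]
  rw [div_mul_div_cancel₀ h1]

/-! ### ramified primes -/

section

variable {k : Type} [Field k] [NumberField k] {G : Type} [Group G]

omit [NumberField k] in
theorem f2_open (ρ : Gm k →* G) (hρ : IsLocallyConstant ρ) : IsOpen (ρ.ker : Set (Gm k)) := by
  have h := hρ.isOpen_fiber (1 : G)
  have h2 : (ρ.ker : Set (Gm k)) = {x | ρ x = 1} := by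
    ext x
    exact MonoidHom.mem_ker
  rw [h2]
  exact h

omit [NumberField k] in
theorem f2_index (hG : P2 G) (ρ : Gm k →* G) : ∃ j, ρ.ker.index = 2 ^ j := by
  obtain ⟨hf, j0, hj0⟩ := hG
  have h : ρ.ker.index ∣ 2 ^ j0 := by
    rw [Subgroup.index_ker]
    have h1 := Subgroup.card_subgroup_dvd_card ρ.range
    rwa [hj0] at h1
  obtain ⟨j, -, hj⟩ := (Nat.dvd_prime_pow Nat.prime_two).1 h
  exact ⟨j, hj⟩

theorem f2_fin (Rk : RxF k) (hG : P2 G) (ρ : Gm k →* G) (hρ : IsLocallyConstant ρ) :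
    {P : HeightOneSpectrum (𝓞 k) | ord P (2 : k) = 0 ∧ ρ (Rk.tau P) ≠ 1}.Finite := by
  refine Set.Finite.subset (Rk.fin ρ.ker (f2_open ρ hρ)) ?_
  rintro P ⟨h2, hp⟩
  have h3 := Rk.disc P h2 ρ.ker (f2_open ρ hρ) (f2_index hG ρ) ρ.ker le_rfl
  have h4 : norb ρ.ker (Rk.tau P) < ρ.ker.index := by
    apply Pool.Agent.H98.ML.m3_norb_lt
    · obtain ⟨j, hj⟩ := f2_index hG ρ
      rw [hj]
      positivity
    · intro h
      exact hp (MonoidHom.mem_ker.1 h)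
  show Rk.rex P ρ.ker ≠ 0
  omega

omit [NumberField k] in
theorem f2_cg (D : GD G) (ρ ρ0 : Gm k →* G) : Cg 2 ρ ρ0 ↔ D.Sim ρ0 ρ := by
  constructor
  · intro h σ
    have h1 : (ρ0 σ)⁻¹ * (ρ σ * (ρ0 σ)⁻¹) * ((ρ0 σ)⁻¹)⁻¹ ∈ Om1 2 G :=
      (Om1.normal 2 G).conj_mem _ (h σ) _
    have h2 : (ρ0 σ)⁻¹ * (ρ σ * (ρ0 σ)⁻¹) * ((ρ0 σ)⁻¹)⁻¹ = (ρ0 σ)⁻¹ * ρ σ := by group
    rw [h2] at h1
    obtain ⟨v, x, hvx⟩ := (D.mem _).1 h1
    exact ⟨v, x, by rw [← hvx]; group⟩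
  · intro h σ
    obtain ⟨v, x, hvx⟩ := h σ
    have h1 : D.s v * D.zz x ∈ Om1 2 G := (D.mem _).2 ⟨v, x, rfl⟩
    have h2 := (Om1.normal 2 G).conj_mem _ h1 (ρ0 σ)
    rw [hvx]
    exact h2

end

section

variable {k : Type} [Field k] [NumberField k] {G : Type} [Group G]

open Classical in
/-- the condition at the primes of the larger frame -/
def f2H (T : TM k) (B : Finset (HeightOneSpectrum (𝓞 k))) (H : (Gm k →* G) → Prop)
    (E : Finset (HeightOneSpectrum (𝓞 k))) (ρ : Gm k →* G) : Prop :=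
  H ρ ∧ ∀ P ∈ B, ρ (T.tau P) ^ 2 = 1 ∧ (ρ (T.tau P) ≠ 1 ↔ P ∈ E)

theorem f2_lcs (T : TM k) {S S' B : Finset (HeightOneSpectrum (𝓞 k))} (hS : S ⊆ S')
    (hB : B ⊆ S') {H : (Gm k →* G) → Prop} (hH : HLo S H)
    (E : Finset (HeightOneSpectrum (𝓞 k))) : LcS S' (f2H T B H E) := by
  intro ρ ρ' _ _ h
  have hD : ∀ P ∈ S', ∀ σ ∈ Dec P, ρ σ = ρ' σ := by
    intro P hP σ hσ
    refine h (Sum.inl P) ?_ σ hσ
    unfold pls
    simp [hP]
  have key : ∀ P ∈ B, ρ (T.tau P) = ρ' (T.tau P) := fun P hP =>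
    hD P (hB hP) _ (T.tm P).decτ
  unfold f2H
  refine and_congr ⟨hH ρ ρ' fun P hP σ hσ => hD P (hS hP) σ hσ,
    hH ρ' ρ fun P hP σ hσ => (hD P (hS hP) σ hσ).symm⟩ ?_
  refine forall_congr' fun P => forall_congr' fun hP => ?_
  rw [key P hP]

open Classical in
theorem f2_nO (T : TM k) (F : Frm k) {S : Finset (HeightOneSpectrum (𝓞 k))} (hS : S ⊆ F.S)
    (ρ : Gm k →* G) (E : Finset (HeightOneSpectrum (𝓞 k))) (hE : E ⊆ F.S \ S)
    (h1 : ∀ P ∈ F.S \ S, (ρ (T.tau P) ≠ 1 ↔ P ∈ E)) (c : Finset F.sys.P)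
    (h2 : ∀ p, p ∈ c ↔ ρ (T.tau (F.pl p)) ≠ 1) :
    nO T S ρ = (∏ P ∈ E, nrm P) * F.sys.nm c := by
  have hset : {P : HeightOneSpectrum (𝓞 k) | P ∉ S ∧ ρ (T.tau P) ≠ 1} =
      ((E ∪ c.image F.pl : Finset (HeightOneSpectrum (𝓞 k))) : Set _) := by
    ext P
    rw [Finset.mem_coe, Finset.mem_union, Finset.mem_image]
    constructor
    · rintro ⟨hP, hr⟩
      by_cases hF : P ∈ F.S
      · exact Or.inl ((h1 P (Finset.mem_sdiff.2 ⟨hF, hP⟩)).1 hr)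
      · obtain ⟨p, rfl⟩ := (F.pl_iff P).2 hF
        exact Or.inr ⟨p, (h2 p).2 hr, rfl⟩
    · rintro (hP | ⟨p, hp, rfl⟩)
      · have h3 := hE hP
        exact ⟨(Finset.mem_sdiff.1 h3).2, (h1 P h3).2 hP⟩
      · refine ⟨fun hPS => ?_, (h2 p).1 hp⟩
        exact (F.pl_iff _).1 ⟨p, rfl⟩ (hS hPS)
  unfold nO
  rw [hset, finprod_mem_coe_finset, Finset.prod_union]
  · congr 1
    rw [Finset.prod_image fun p _ q _ h => F.pl_inj h]
    unfold Pre.nm
    exact Finset.prod_congr rfl fun p _ => (F.N_eq p).symm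
  · rw [Finset.disjoint_left]
    intro P hP hc
    obtain ⟨p, _, rfl⟩ := Finset.mem_image.1 hc
    exact (F.pl_iff _).1 ⟨p, rfl⟩ (Finset.mem_sdiff.1 (hE hP)).1

theorem f2_N (E : Finset (HeightOneSpectrum (𝓞 k))) : 1 ≤ ∏ P ∈ E, nrm P := by
  refine Finset.one_le_prod' fun P _ => ?_
  rw [Nat.one_le_iff_ne_zero]
  unfold nrm
  rw [Ne, Ideal.absNorm_eq_zero_iff]
  exact P.ne_bot

open Classical in
/-- the decomposition by the ramification at the primes of the larger frame -/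
theorem f2_union (T : TM k) (Rk : RxF k) (ht : Rk.tau = T.tau) (hG : P2 G) (D : GD G)
    (F : Frm k) {S : Finset (HeightOneSpectrum (𝓞 k))} (hS : S ⊆ F.S) (ρ0 : Gm k →* G)
    (H : (Gm k →* G) → Prop) (Y : ℝ) :
    HI T 2 ρ0 H S Y = ⋃ E ∈ (F.S \ S).powerset,
      Ca F Rk D ρ0 (f2H T (F.S \ S) H E) (Y / ((∏ P ∈ E, nrm P : ℕ) : ℝ)) := by
  ext ρ
  simp only [Set.mem_iUnion, exists_prop]
  constructor
  · rintro ⟨⟨hs, hl⟩, hc, hH, hsq, hn⟩
    have hfin : {p : F.sys.P | ρ (T.tau (F.pl p)) ≠ 1}.Finite := by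
      refine ((f2_fin Rk hG ρ hl).preimage F.pl_inj.injOn).subset fun p hp => ?_
      refine ⟨F.ltk_two p, ?_⟩
      rw [ht]
      exact hp
    have h2 : ∀ p, p ∈ hfin.toFinset ↔ ρ (T.tau (F.pl p)) ≠ 1 := by
      intro p
      rw [Set.Finite.mem_toFinset]
      rfl
    have h1 : ∀ P ∈ F.S \ S, (ρ (T.tau P) ≠ 1 ↔
        P ∈ (F.S \ S).filter fun P => ρ (T.tau P) ≠ 1) := by
      intro P hP
      rw [Finset.mem_filter]
      exact ⟨fun h => ⟨hP, h⟩, fun h => h.2⟩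
    refine ⟨(F.S \ S).filter fun P => ρ (T.tau P) ≠ 1,
      Finset.mem_powerset.2 (Finset.filter_subset _ _), hs, hl, (f2_cg D ρ ρ0).1 hc,
      ⟨hH, fun P hP => ⟨hsq P (Finset.mem_sdiff.1 hP).2, h1 P hP⟩⟩, fun p => ?_,
      hfin.toFinset, ?_, fun p => ?_⟩
    · rw [ht]
      exact hsq _ fun h => (F.pl_iff _).1 ⟨p, rfl⟩ (hS h)
    · rw [F.sys.mem_bx, le_div_iff₀ (by exact_mod_cast f2_N _), mul_comm, ← Nat.cast_mul,
        ← f2_nO T F hS ρ _ (Finset.filter_subset _ _) h1 _ h2]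
      exact hn
    · rw [ht]
      exact h2 p
  · rintro ⟨E, hE, hs, hl, hc, ⟨hH, hB⟩, hsq, c, hcb, hcc⟩
    rw [Finset.mem_powerset] at hE
    rw [ht] at hsq hcc
    refine ⟨⟨hs, hl⟩, (f2_cg D ρ ρ0).2 hc, hH, fun P hP => ?_, ?_⟩
    · by_cases hF : P ∈ F.S
      · exact (hB P (Finset.mem_sdiff.2 ⟨hF, hP⟩)).1
      · obtain ⟨p, rfl⟩ := (F.pl_iff P).2 hF
        exact hsq p
    · rw [f2_nO T F hS ρ E hE (fun P hP => (hB P hP).2) c hcc, Nat.cast_mul, mul_comm,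
        ← le_div_iff₀ (by exact_mod_cast f2_N E)]
      exact F.sys.mem_bx.1 hcb

/-- the statement for 2-groups with coordinates -/
theorem seF2 (hR : ∀ (k : Type) [Field k] [NumberField k] (T : TM k), ∃ Rk : RxF k,
    Rk.tau = T.tau ∧ Rk.phi = T.phi) (hC : ScCa) (hCy : SbCy) (hE : SeF1) : SeF2 := by
  classical
  intro k _ _ T G _ D hG hn ρ0 hρ0 S _ H hH
  obtain ⟨Rk, ht, -⟩ := hR k T
  obtain ⟨F, hF⟩ := Pool.Agent.D8.cFrm k (S ∪ (f2_fin Rk hG ρ0 hρ0).toFinset)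
  have hS : S ⊆ F.S := Finset.subset_union_left.trans hF
  have hb : Bs F Rk ρ0 := by
    refine ⟨hρ0, fun p => ?_⟩
    by_contra hne
    refine (F.pl_iff (F.pl p)).1 ⟨p, rfl⟩ (hF (Finset.mem_union_right _ ?_))
    rw [Set.Finite.mem_toFinset]
    exact ⟨F.ltk_two p, hne⟩
  choose c hc using fun y => hCy k F Rk G D ρ0 hb y
  have hl : ∀ E, LcS F.S (f2H T (F.S \ S) H E) := fun E =>
    f2_lcs T hS Finset.sdiff_subset hH E
  choose L hL0 hLt hLp using fun E => hE k F Rk G D ρ0 hG hn hb _ (hl E)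
  have hfin : ∀ E Y, (Ca F Rk D ρ0 (f2H T (F.S \ S) H E) Y).Finite := fun E Y =>
    (hC k F Rk G D ρ0 hG hb _ (hl E) c hc Y).1
  have hcard : ∀ Y : ℝ, ((HI T 2 ρ0 H S Y).ncard : ℝ) = ∑ E ∈ (F.S \ S).powerset,
      ((Ca F Rk D ρ0 (f2H T (F.S \ S) H E) (Y / ((∏ P ∈ E, nrm P : ℕ) : ℝ))).ncard : ℝ) := by
    intro Y
    rw [f2_union T Rk ht hG D F hS ρ0 H Y]
    have h1 : (⋃ E ∈ (F.S \ S).powerset, Ca F Rk D ρ0 (f2H T (F.S \ S) H E)
        (Y / ((∏ P ∈ E, nrm P : ℕ) : ℝ))) =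
        (((F.S \ S).powerset.biUnion fun E => (hfin E (Y / ((∏ P ∈ E, nrm P : ℕ) : ℝ))).toFinset :
          Finset (Gm k →* G)) : Set (Gm k →* G)) := by
      ext ρ
      simp only [Set.mem_iUnion, exists_prop, Finset.coe_biUnion, Finset.mem_coe,
        Set.Finite.coe_toFinset]
    rw [h1, Set.ncard_coe_finset, Finset.card_biUnion]
    · push_cast
      refine Finset.sum_congr rfl fun E _ => ?_
      rw [Set.ncard_eq_toFinset_card _ (hfin E _)]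
    · intro E hE1 E' hE' hne
      show Disjoint _ _
      rw [Finset.disjoint_left]
      intro ρ hr hr'
      apply hne
      rw [Set.Finite.mem_toFinset] at hr hr'
      have h3 : ∀ P ∈ F.S \ S, (ρ (T.tau P) ≠ 1 ↔ P ∈ E) := fun P hP => (hr.2.2.2.1.2 P hP).2
      have h3' : ∀ P ∈ F.S \ S, (ρ (T.tau P) ≠ 1 ↔ P ∈ E') := fun P hP =>
        (hr'.2.2.2.1.2 P hP).2
      rw [Finset.mem_coe, Finset.mem_powerset] at hE1 hE'
      ext P
      constructor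
      · intro h
        exact (h3' P (hE1 h)).1 ((h3 P (hE1 h)).2 h)
      · intro h
        exact (h3 P (hE' h)).1 ((h3' P (hE' h)).2 h)
  refine ⟨∑ E ∈ (F.S \ S).powerset, L E * (1 / ((∏ P ∈ E, nrm P : ℕ) : ℝ)), ?_, ?_, ?_⟩
  · refine Finset.sum_nonneg fun E _ => mul_nonneg (hL0 E) ?_
    positivity
  · have h1 := tendsto_finsetSum (F.S \ S).powerset fun E _ =>
      f2_comp ((∏ P ∈ E, nrm P : ℕ) : ℝ) (by exact_mod_cast f2_N E) (D.b - 1) _ (L E) (hLt E)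
    refine h1.congr fun Y => ?_
    rw [hcard Y, Finset.sum_div]
  · rintro ⟨Y, ρ, hρ⟩
    rw [f2_union T Rk ht hG D F hS ρ0 H Y] at hρ
    simp only [Set.mem_iUnion, exists_prop] at hρ
    obtain ⟨E, hE1, hρE⟩ := hρ
    refine lt_of_lt_of_le (mul_pos (hLp E ⟨_, ρ, hρE⟩)
      (one_div_pos.2 (by exact_mod_cast f2_N E))) (Finset.single_le_sum (f := fun E =>
        L E * (1 / ((∏ P ∈ E, nrm P : ℕ) : ℝ))) (fun E _ => mul_nonneg (hL0 E) ?_) hE1)
    positivity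

end

end Pool.Agent.EV
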