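import Mathlib

/-!
# Project T4 (MP_a3214d), even order, row EV-G1: tools for the coordinates of a finite 2-group
-/

set_option autoImplicit false

open scoped BigOperators commutatorElement

namespace Pool.Agent.EV

/-! ### the Frattini subgroup of a finite 2-group -/

section

variable {G : Type} [Group G]

theorem gd_sq_coatom [Finite G] (hp : IsPGroup 2 G) {M : Subgroup G} (hM : IsCoatom M) (g : G) :
    g * g ∈ M := by
  have hnil : Group.IsNilpotent G := hp.isNilpotent
  have hn : M.Normal := Subgroup.NormalizerCondition.normal_of_coatom M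
    Group.normalizerCondition_of_isNilpotent hM
  by_contra h
  have h1 : M ⊔ Subgroup.zpowers (g * g) = ⊤ := by
    refine hM.2 _ (lt_of_le_of_ne le_sup_left fun he => h ?_)
    rw [he]
    exact (le_sup_right : Subgroup.zpowers (g * g) ≤ M ⊔ Subgroup.zpowers (g * g))
      (Subgroup.mem_zpowers _)
  have h2 : g ∈ M ⊔ Subgroup.zpowers (g * g) := by
    rw [h1]
    exact Subgroup.mem_top g
  rw [Subgroup.mem_sup_of_normal_left] at h2
  obtain ⟨m, hm, w, hw, hmw⟩ := h2
  obtain ⟨k, rfl⟩ := Subgroup.mem_zpowers_iff.1 hw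
  obtain ⟨j, hj⟩ := hp g
  have e1 : ((g : G ⧸ M)) ^ ((2 : ℤ) ^ j) = 1 := by
    have e0 : ((g : G ⧸ M)) ^ (2 ^ j) = 1 := by
      rw [← QuotientGroup.mk_pow, hj, QuotientGroup.mk_one]
    rw [← e0, ← zpow_natCast]
    push_cast
    rfl
  have e2 : ((g : G ⧸ M)) ^ (2 * k - 1) = 1 := by
    have e3 : (g : G ⧸ M) = ((g : G ⧸ M)) ^ (2 * k) := by
      conv_lhs => rw [← hmw]
      rw [QuotientGroup.mk_mul, (QuotientGroup.eq_one_iff m).2 hm, one_mul,
        QuotientGroup.mk_zpow, QuotientGroup.mk_mul, ← pow_two, zpow_mul]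
      norm_cast
    rw [zpow_sub, ← e3, zpow_one, mul_inv_cancel]
  have e4 : IsCoprime ((2 : ℤ) ^ j) (2 * k - 1) := by
    refine IsCoprime.pow_left ⟨k, -1, by ring⟩
  obtain ⟨a, b, hab⟩ := e4
  have e5 : (g : G ⧸ M) = 1 := by
    calc (g : G ⧸ M) = ((g : G ⧸ M)) ^ (a * 2 ^ j + b * (2 * k - 1)) := by rw [hab, zpow_one]
      _ = 1 := by
        rw [zpow_add, mul_comm a, mul_comm b, zpow_mul, zpow_mul, e1, e2, one_zpow, one_zpow,
          one_mul]
  have e6 : g ∈ M := (QuotientGroup.eq_one_iff g).1 e5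
  exact h (M.mul_mem e6 e6)

theorem gd_sq [Finite G] (hp : IsPGroup 2 G) (g : G) : g * g ∈ frattini G := by
  unfold frattini Order.radical
  simp only [Subgroup.mem_iInf]
  intro M hM
  exact gd_sq_coatom hp hM g

theorem gd_com_of_sq {H : Subgroup G} (hH : ∀ g : G, g * g ∈ H) (g h : G) :
    g * h * g⁻¹ * h⁻¹ ∈ H := by
  have h1 : g * h * g⁻¹ * h⁻¹ =
      ((g * h) * (g * h)) * ((h⁻¹ * g⁻¹ * h) * (h⁻¹ * g⁻¹ * h)) * (h⁻¹ * h⁻¹) := by group
  rw [h1]
  exact H.mul_mem (H.mul_mem (hH _) (hH _)) (hH _)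

variable (G) in
/-- the central elements of order two in the Frattini subgroup -/
def gdZ : Subgroup G where
  carrier := {z | (∀ g : G, z * g = g * z) ∧ z ∈ frattini G ∧ z * z = 1}
  mul_mem' := by
    rintro a b ⟨ha, ha', ha2⟩ ⟨hb, hb', hb2⟩
    refine ⟨fun g => ?_, (frattini G).mul_mem ha' hb', ?_⟩
    · rw [mul_assoc, hb, ← mul_assoc, ha, mul_assoc]
    · calc a * b * (a * b) = a * (b * a) * b := by simp only [mul_assoc]
        _ = a * (a * b) * b := by rw [ha b]
        _ = (a * a) * (b * b) := by simp only [mul_assoc]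
        _ = 1 := by rw [ha2, hb2, one_mul]
  one_mem' := ⟨fun g => by rw [one_mul, mul_one], (frattini G).one_mem, one_mul 1⟩
  inv_mem' := by
    rintro a ⟨ha, ha', ha2⟩
    have h1 : a⁻¹ = a := inv_eq_of_mul_eq_one_left ha2
    rw [Set.mem_ofPred_eq, h1]
    exact ⟨ha, ha', ha2⟩

theorem gd_mem {z : G} : z ∈ gdZ G ↔ (∀ g : G, z * g = g * z) ∧ z ∈ frattini G ∧ z * z = 1 :=
  Iff.rfl

/-- a nontrivial normal subgroup of a nilpotent group meets the center -/
theorem gd_center [Group.IsNilpotent G] {H : Subgroup G} [H.Normal] (hH : H ≠ ⊥) :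
    ∃ x ∈ H, x ≠ 1 ∧ ∀ g : G, x * g = g * x := by
  classical
  have h0 : ∃ k, ∃ x ∈ H, x ≠ 1 ∧ x ∈ Subgroup.upperCentralSeries G k := by
    obtain ⟨n, hn⟩ := Group.IsNilpotent.nilpotent G
    obtain ⟨a, ha⟩ := Subgroup.ne_bot_iff_exists_ne_one.1 hH
    exact ⟨n, (a : G), a.2, fun h => ha (Subtype.ext h), by rw [hn]; exact Subgroup.mem_top _⟩
  obtain ⟨x, hx, hx1, hxk⟩ := Nat.find_spec h0
  have hmin := fun m (hm : m < Nat.find h0) => Nat.find_min h0 hm
  set k := Nat.find h0 with hk
  refine ⟨x, hx, hx1, fun g => ?_⟩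
  have hk0 : k ≠ 0 := by
    intro hk0
    rw [hk0, Subgroup.upperCentralSeries_zero, Subgroup.mem_bot] at hxk
    exact hx1 hxk
  obtain ⟨m, hm⟩ := Nat.exists_eq_succ_of_ne_zero hk0
  rw [hm] at hxk
  have h1 := (Subgroup.mem_upperCentralSeries_succ_iff.1 hxk) g
  have h2 : ⁅x, g⁆ ∈ H := by
    rw [commutatorElement_def, mul_assoc, mul_assoc]
    refine H.mul_mem hx ?_
    rw [← mul_assoc]
    exact Subgroup.Normal.conj_mem inferInstance _ (H.inv_mem hx) g
  by_contra h3
  have h4 : ⁅x, g⁆ ≠ 1 := by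
    intro h5
    rw [commutatorElement_eq_one_iff_mul_comm] at h5
    exact h3 h5
  exact hmin m (by omega) ⟨_, h2, h4, h1⟩

/-- there is a nontrivial central element of order two in the Frattini subgroup -/
theorem gd_ne [Finite G] (hp : IsPGroup 2 G) (h : ∃ g : G, g * g ≠ 1) : ∃ z ∈ gdZ G, z ≠ 1 := by
  have hnil : Group.IsNilpotent G := hp.isNilpotent
  obtain ⟨g, hg⟩ := h
  have h1 : frattini G ≠ ⊥ := by
    intro h2
    have h3 := gd_sq hp g
    rw [h2, Subgroup.mem_bot] at h3
    exact hg h3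
  obtain ⟨x, hx, hx1, hxc⟩ := gd_center h1
  obtain ⟨j, hj⟩ := hp x
  -- a power of `x` has order two
  have h2 : ∀ j : ℕ, ∀ x ∈ frattini G, x ≠ 1 → (∀ g : G, x * g = g * x) → x ^ 2 ^ j = 1 →
      ∃ z ∈ gdZ G, z ≠ 1 := by
    intro j
    induction j with
    | zero =>
      intro x _ hx1 _ hj
      rw [pow_zero, pow_one] at hj
      exact absurd hj hx1
    | succ j ih =>
      intro x hx hx1 hxc hj
      by_cases h : x * x = 1
      · exact ⟨x, ⟨hxc, hx, h⟩, hx1⟩
      · refine ih (x * x) ((frattini G).mul_mem hx hx) h (fun g => ?_) ?_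
        · rw [mul_assoc, hxc, ← mul_assoc, hxc, mul_assoc]
        · rw [← pow_two, ← pow_mul, ← pow_succ']
          exact hj
  exact h2 j x hx hx1 hxc hj

/-- coordinates of a finite group of exponent two -/
theorem gd_coord (Q : Type) [Group Q] [Finite Q] (hQ : ∀ q : Q, q * q = 1) :
    ∃ (d : ℕ) (e : (Fin d → ZMod 2) → Q), Function.Bijective e ∧
      ∀ v w, e (v + w) = e v * e w := by
  have hinv : ∀ a : Q, a⁻¹ = a := fun a => inv_eq_of_mul_eq_one_left (hQ a)
  have hc : ∀ a b : Q, a * b = b * a := by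
    intro a b
    have h1 := hinv (a * b)
    rw [mul_inv_rev, hinv, hinv] at h1
    exact h1.symm
  let _ : CommGroup Q := { (inferInstance : Group Q) with mul_comm := hc }
  let _ : Module (ZMod 2) (Additive Q) := AddCommGroup.zmodModule (n := 2) (by
    intro x
    rw [two_nsmul]
    exact hQ (Additive.toMul x))
  have : Finite (Additive Q) := inferInstanceAs (Finite Q)
  have hf : Module.Finite (ZMod 2) (Additive Q) := inferInstance
  let b := Module.finBasis (ZMod 2) (Additive Q)
  refine ⟨_, fun v => Additive.toMul (b.equivFun.symm v), ?_, ?_⟩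
  · exact Additive.toMul.bijective.comp b.equivFun.symm.bijective
  · intro v w
    show Additive.toMul (b.equivFun.symm (v + w)) = _
    rw [map_add]
    rfl

end

/-! ### sections -/

section

variable {G : Type} [Group G]

/-- powers with exponent in `ZMod 2` -/
def gdp (γ : G) (a : ZMod 2) : G := if a = 0 then 1 else γ

theorem gdp_zero (γ : G) : gdp γ 0 = 1 := if_pos rfl

theorem gdp_one (γ : G) : gdp γ 1 = γ := if_neg (by decide)

theorem gd_two (a : ZMod 2) : a = 0 ∨ a = 1 := by
  revert a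
  decide

variable {n : ℕ} {zz : (Fin n → ZMod 2) → G} (hadd : ∀ x y, zz (x + y) = zz x * zz y)
  (hcen : ∀ x g, zz x * g = g * zz x)

include hadd in
theorem gd_zz0 : zz 0 = 1 := by
  have h := hadd 0 0
  rw [add_zero] at h
  exact left_eq_mul.1 h

include hadd in
theorem gd_zzs (x : Fin n → ZMod 2) : zz x * zz x = 1 := by
  rw [← hadd, ← gd_zz0 hadd]
  congr 1
  funext i
  exact CharTwo.add_self_eq_zero (x i)

include hadd in
theorem gdp_mul {γ : G} {q : Fin n → ZMod 2} (hq : γ * γ = zz q) (a b : ZMod 2) :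
    gdp γ a * gdp γ b = gdp γ (a + b) * zz ((a * b) • q) := by
  have h0 := gd_zz0 hadd
  rcases gd_two a with rfl | rfl <;> rcases gd_two b with rfl | rfl
  · rw [gdp_zero, zero_mul, zero_smul, add_zero, gdp_zero, h0]
  · rw [gdp_zero, zero_mul, zero_smul, zero_add, gdp_one, h0, one_mul, mul_one]
  · rw [gdp_zero, mul_zero, zero_smul, add_zero, gdp_one, h0]
  · rw [gdp_one, mul_one, one_smul, hq]
    have h2 : (1 : ZMod 2) + 1 = 0 := by decide
    rw [h2, gdp_zero, one_mul]

include hadd in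
theorem gdp_right {γ y : G} {r : Fin n → ZMod 2} (h : y * γ = γ * (y * zz r)) (b : ZMod 2) :
    y * gdp γ b = gdp γ b * (y * zz (b • r)) := by
  rcases gd_two b with rfl | rfl
  · rw [gdp_zero, zero_smul, gd_zz0 hadd, one_mul]
  · rw [gdp_one, one_smul, h]

include hadd in
theorem gdp_left {γ h : G} {r : Fin n → ZMod 2} (h1 : γ * h = h * (γ * zz r)) (a : ZMod 2) :
    gdp γ a * h = h * (gdp γ a * zz (a • r)) := by
  rcases gd_two a with rfl | rfl
  · rw [gdp_zero, zero_smul, gd_zz0 hadd, one_mul, mul_one, mul_one]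
  · rw [gdp_one, one_smul, h1]

theorem gdp_mem {H : Subgroup G} {γ : G} (h : γ ∈ H) (a : ZMod 2) : gdp γ a ∈ H := by
  rcases gd_two a with rfl | rfl
  · rw [gdp_zero]
    exact H.one_mem
  · rw [gdp_one]
    exact h

include hadd hcen in
/-- sections with a bilinear cocycle -/
theorem gd_rec : ∀ (d : ℕ) (g : Fin d → G) (q : Fin d → Fin n → ZMod 2)
    (cg : Fin d → G → Fin n → ZMod 2), (∀ i, g i * g i = zz (q i)) →
    (∀ i h, g i * h = h * (g i * zz (cg i h))) →
    ∃ (s : (Fin d → ZMod 2) → G)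
      (β : (Fin d → ZMod 2) →ₗ[ZMod 2] (Fin d → ZMod 2) →ₗ[ZMod 2] (Fin n → ZMod 2))
      (c : G → (Fin d → ZMod 2) →ₗ[ZMod 2] (Fin n → ZMod 2)),
      (∀ v w, s v * s w = s (v + w) * zz (β v w)) ∧
      (∀ h v, s v * h = h * (s v * zz (c h v))) ∧
      (∀ i, s (Pi.single i 1) = g i) ∧
      ∀ H : Subgroup G, (∀ i, g i ∈ H) → ∀ v, s v ∈ H := by
  intro d
  induction d with
  | zero =>
    intro g q cg _ _
    refine ⟨fun _ => 1, 0, fun _ => 0, ?_, ?_, fun i => i.elim0, fun H _ _ => H.one_mem⟩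
    · intro v w
      rw [LinearMap.zero_apply, LinearMap.zero_apply, gd_zz0 hadd]
    · intro h v
      rw [LinearMap.zero_apply, gd_zz0 hadd, one_mul, mul_one, mul_one]
  | succ d ih =>
    intro g q cg hg hc
    obtain ⟨s, β, c, h1, h2, h3, h4⟩ := ih (fun i => g i.succ) (fun i => q i.succ)
      (fun i => cg i.succ) (fun i => hg _) (fun i h => hc _ h)
    have hs0 : s 0 = 1 := by
      have h5 := h1 0 0
      rw [add_zero, map_zero, gd_zz0 hadd, mul_one] at h5
      exact left_eq_mul.1 h5.symm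
    let T : (Fin (d + 1) → ZMod 2) →ₗ[ZMod 2] (Fin d → ZMod 2) :=
      LinearMap.funLeft (ZMod 2) (ZMod 2) Fin.succ
    have hT : ∀ v i, T v i = v i.succ := fun v i => rfl
    refine ⟨fun v => gdp (g 0) (v 0) * s (T v),
      LinearMap.mk₂ (ZMod 2) (fun v w => (w 0) • c (g 0) (T v) + (v 0 * w 0) • q 0 +
        β (T v) (T w)) ?_ ?_ ?_ ?_,
      fun h => LinearMap.smulRight (LinearMap.proj 0) (cg 0 h) + (c h).comp T, ?_, ?_, ?_, ?_⟩
    · intro v v' w
      rw [map_add, map_add, map_add, Pi.add_apply, add_mul, smul_add, add_smul,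
        LinearMap.add_apply]
      abel
    · intro r v w
      rw [map_smul, map_smul, map_smul, Pi.smul_apply, smul_eq_mul, smul_add, smul_add,
        LinearMap.smul_apply, smul_smul, smul_smul, smul_smul, mul_assoc, mul_comm (w 0) r]
    · intro v w w'
      rw [map_add, map_add, Pi.add_apply, mul_add, add_smul, add_smul]
      abel
    · intro r v w
      rw [map_smul, map_smul, Pi.smul_apply, smul_eq_mul, smul_add, smul_add,
        smul_smul, smul_smul, mul_left_comm]
    · intro v w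
      have e1 := gdp_right hadd (h2 (g 0) (T v)) (w 0)
      have e2 := gdp_mul hadd (hg 0) (v 0) (w 0)
      show gdp (g 0) (v 0) * s (T v) * (gdp (g 0) (w 0) * s (T w)) =
        gdp (g 0) (v 0 + w 0) * s (T (v + w)) * zz ((w 0) • c (g 0) (T v) +
          (v 0 * w 0) • q 0 + β (T v) (T w))
      rw [map_add T]
      calc gdp (g 0) (v 0) * s (T v) * (gdp (g 0) (w 0) * s (T w))
          = gdp (g 0) (v 0) * (s (T v) * gdp (g 0) (w 0)) * s (T w) := by
            simp only [mul_assoc]
        _ = gdp (g 0) (v 0) * gdp (g 0) (w 0) * (s (T v) * (zz (w 0 • c (g 0) (T v)) *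
              s (T w))) := by
            rw [e1]
            simp only [mul_assoc]
        _ = gdp (g 0) (v 0 + w 0) * (zz ((v 0 * w 0) • q 0) * ((s (T v) * s (T w)) *
              zz (w 0 • c (g 0) (T v)))) := by
            rw [e2, hcen (w 0 • c (g 0) (T v)) (s (T w))]
            simp only [mul_assoc]
        _ = gdp (g 0) (v 0 + w 0) * (zz ((v 0 * w 0) • q 0) * (s (T v + T w) *
              (zz (β (T v) (T w)) * zz (w 0 • c (g 0) (T v))))) := by
            rw [h1]
            simp only [mul_assoc]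
        _ = gdp (g 0) (v 0 + w 0) * (s (T v + T w) * (zz ((v 0 * w 0) • q 0) *
              (zz (β (T v) (T w)) * zz (w 0 • c (g 0) (T v))))) := by
            rw [← mul_assoc (zz ((v 0 * w 0) • q 0)) (s (T v + T w)), hcen _ (s (T v + T w))]
            simp only [mul_assoc]
        _ = _ := by
            rw [← hadd, ← hadd]
            have e3 : (v 0 * w 0) • q 0 + (β (T v) (T w) + w 0 • c (g 0) (T v)) =
                w 0 • c (g 0) (T v) + (v 0 * w 0) • q 0 + β (T v) (T w) := by abel
            rw [e3]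
            simp only [mul_assoc]
    · intro h v
      have e1 := gdp_left hadd (hc 0 h) (v 0)
      rw [LinearMap.add_apply, LinearMap.smulRight_apply, LinearMap.comp_apply, hadd]
      show gdp (g 0) (v 0) * s (T v) * h = h * (gdp (g 0) (v 0) * s (T v) *
        (zz (v 0 • cg 0 h) * zz (c h (T v))))
      calc gdp (g 0) (v 0) * s (T v) * h = gdp (g 0) (v 0) * (s (T v) * h) := by
            rw [mul_assoc]
        _ = (gdp (g 0) (v 0) * h) * (s (T v) * zz (c h (T v))) := by
            rw [h2]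
            simp only [mul_assoc]
        _ = h * (gdp (g 0) (v 0) * ((zz (v 0 • cg 0 h) * s (T v)) * zz (c h (T v)))) := by
            rw [e1]
            simp only [mul_assoc]
        _ = _ := by
            rw [hcen (v 0 • cg 0 h) (s (T v))]
            simp only [mul_assoc]
    · intro i
      refine Fin.cases ?_ (fun j => ?_) i
      · have e1 : T (Pi.single 0 1) = 0 := by
          funext j
          rw [hT, Pi.single_eq_of_ne (Fin.succ_ne_zero j)]
          rfl
        show gdp (g 0) ((Pi.single 0 1 : Fin (d + 1) → ZMod 2) 0) * s (T (Pi.single 0 1)) = g 0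
        rw [e1, hs0, Pi.single_eq_same, gdp_one, mul_one]
      · have e1 : T (Pi.single j.succ 1) = Pi.single j 1 := by
          funext i
          rw [hT]
          by_cases hij : i = j
          · subst hij
            rw [Pi.single_eq_same, Pi.single_eq_same]
          · rw [Pi.single_eq_of_ne hij, Pi.single_eq_of_ne (fun h => hij (Fin.succ_injective _ h))]
        show gdp (g 0) ((Pi.single j.succ 1 : Fin (d + 1) → ZMod 2) 0) *
          s (T (Pi.single j.succ 1)) = g j.succ
        rw [e1, h3, Pi.single_eq_of_ne (Fin.succ_ne_zero j).symm, gdp_zero, one_mul]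
    · intro H hH v
      exact H.mul_mem (gdp_mem (hH 0) _) (h4 H (fun i => hH _) _)

end

end Pool.Agent.EV
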