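import Pool.Agent.EV.AStm
import Pool.Agent.EV.GrpDa

/-!
# Project T4 (MP_a3214d), even order, row EV-G1: coordinates of a finite 2-group
-/

set_option autoImplicit false

open scoped BigOperators commutatorElement

namespace Pool.Agent.EV

open Pool.Agent.H92.EL (Om1 Zt)

section

variable {G : Type} [Group G]

theorem gd_om_z2 (hZ : Zt 2 G) {x : G} (hx : x ∈ Om1 2 G) :
    x ∈ Subgroup.upperCentralSeries G 2 := by
  have h1 : Om1 2 G ≤ Subgroup.upperCentralSeries G 2 := by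
    unfold Om1
    rw [Subgroup.closure_le]
    exact fun g hg => hZ g hg
  exact h1 hx

/-- commutators with elements of the subgroup are central -/
theorem gd_cen (hZ : Zt 2 G) {x : G} (hx : x ∈ Om1 2 G) (g h : G) : ⁅x, g⁆ * h = h * ⁅x, g⁆ := by
  have h1 := (Subgroup.mem_upperCentralSeries_succ_iff.1 (gd_om_z2 hZ hx)) g
  rw [Subgroup.upperCentralSeries_one, Subgroup.mem_center_iff] at h1
  exact (h1 h).symm

theorem gd_com_mul (hZ : Zt 2 G) {x y : G} (hy : y ∈ Om1 2 G) (g : G) :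
    ⁅x * y, g⁆ = ⁅y, g⁆ * ⁅x, g⁆ := by
  have h1 : ⁅x * y, g⁆ = x * ⁅y, g⁆ * x⁻¹ * ⁅x, g⁆ := by
    simp only [commutatorElement_def]
    group
  rw [h1, ← gd_cen hZ hy g x, mul_inv_cancel_right]

theorem gd_com_sq (hZ : Zt 2 G) {x : G} (hx : x ∈ Om1 2 G) (g : G) :
    ⁅x, g⁆ * ⁅x, g⁆ = 1 := by
  unfold Om1 at hx
  induction hx using Subgroup.closure_induction with
  | mem t ht =>
    have ht1 : t ∈ Om1 2 G := Subgroup.subset_closure ht
    have ht2 : t * t = 1 := by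
      have h : t ^ 2 = 1 := ht
      rwa [pow_two] at h
    rw [← gd_com_mul hZ ht1, ht2]
    simp
  | one => simp
  | mul x y hx hy h1 h2 =>
    rw [gd_com_mul hZ (x := x) (y := y) hy]
    calc ⁅y, g⁆ * ⁅x, g⁆ * (⁅y, g⁆ * ⁅x, g⁆)
        = ⁅y, g⁆ * (⁅x, g⁆ * ⁅y, g⁆) * ⁅x, g⁆ := by simp only [mul_assoc]
      _ = ⁅y, g⁆ * (⁅y, g⁆ * ⁅x, g⁆) * ⁅x, g⁆ := by rw [gd_cen hZ hx g ⁅y, g⁆]
      _ = (⁅y, g⁆ * ⁅y, g⁆) * (⁅x, g⁆ * ⁅x, g⁆) := by simp only [mul_assoc]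
      _ = 1 := by rw [h1, h2, one_mul]
  | inv x hx h1 =>
    have h2 : ⁅x⁻¹, g⁆ * ⁅x, g⁆ = 1 := by
      rw [← gd_com_mul hZ (x := x) (y := x⁻¹) (inv_mem hx)]
      simp
    have h3 : ⁅x⁻¹, g⁆ = ⁅x, g⁆⁻¹ := eq_inv_of_mul_eq_one_left h2
    rw [h3, ← mul_inv_rev, h1, inv_one]

variable [Finite G] (hp : IsPGroup 2 G) (hZ : Zt 2 G)

include hp hZ in
theorem gd_com_Z {x : G} (hx : x ∈ Om1 2 G) (g : G) : ⁅x, g⁆ ∈ gdZ G := by
  refine ⟨gd_cen hZ hx g, ?_, gd_com_sq hZ hx g⟩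
  rw [commutatorElement_def]
  exact gd_com_of_sq (gd_sq hp) x g

include hp hZ in
theorem gd_sq_Z {x : G} (hx : x ∈ Om1 2 G) : x * x ∈ gdZ G := by
  unfold Om1 at hx
  induction hx using Subgroup.closure_induction with
  | mem t ht =>
    have ht2 : t * t = 1 := by
      have h : t ^ 2 = 1 := ht
      rwa [pow_two] at h
    rw [ht2]
    exact (gdZ G).one_mem
  | one =>
    rw [one_mul]
    exact (gdZ G).one_mem
  | mul x y hx hy h1 h2 =>
    have h3 : x * y * (x * y) = ⁅y, x⁆ * (x * x) * (y * y) := by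
      have h4 : ⁅y, x⁆ * x = x * ⁅y, x⁆ := gd_cen hZ hy x x
      calc x * y * (x * y) = x * (⁅y, x⁆ * (x * y)) * y := by
            rw [commutatorElement_def]
            group
        _ = (x * ⁅y, x⁆) * x * (y * y) := by simp only [mul_assoc]
        _ = _ := by rw [← h4]; simp only [mul_assoc]
    rw [h3]
    exact (gdZ G).mul_mem ((gdZ G).mul_mem (gd_com_Z hp hZ hy x) h1) h2
  | inv x hx h1 =>
    rw [← mul_inv_rev]
    exact (gdZ G).inv_mem h1

end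

theorem sgD : SgD := by
  intro G _ hP hZ hne
  obtain ⟨hfin, j, hj⟩ := hP
  have hp : IsPGroup 2 G := IsPGroup.of_card hj
  have hZN : gdZ G ≤ Om1 2 G := by
    intro z hz
    refine Subgroup.subset_closure ?_
    show z ^ 2 = 1
    rw [pow_two]
    exact hz.2.2
  have hZc : ∀ z ∈ gdZ G, ∀ g : G, z * g = g * z := fun z hz => hz.1
  -- coordinates of `Z`
  obtain ⟨n, e0, he0, he0a⟩ := gd_coord (gdZ G) (fun q => Subtype.ext q.2.2.2)
  set zz : (Fin n → ZMod 2) → G := fun x => (e0 x : G) with hzz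
  have hadd : ∀ x y, zz (x + y) = zz x * zz y := fun x y => by
    show ((e0 (x + y) : gdZ G) : G) = _
    rw [he0a]
    rfl
  have hcen : ∀ x g, zz x * g = g * zz x := fun x g => hZc _ (e0 x).2 g
  have hsur : ∀ z ∈ gdZ G, ∃ x, z = zz x := fun z hz => by
    obtain ⟨x, hx⟩ := he0.2 ⟨z, hz⟩
    exact ⟨x, by rw [hzz]; show z = ((e0 x : gdZ G) : G); rw [hx]⟩
  have hzZ : ∀ x, zz x ∈ gdZ G := fun x => (e0 x).2
  have hinj : ∀ x y, zz x = zz y → x = y := fun x y h => he0.1 (Subtype.ext h)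
  have hzz0 : zz 0 = 1 := gd_zz0 hadd
  -- coordinates of `N / Z`
  have hnor : ((gdZ G).subgroupOf (Om1 2 G)).Normal := by
    refine ⟨fun a ha g => ?_⟩
    rw [Subgroup.mem_subgroupOf] at ha ⊢
    have h1 : ((g * a * g⁻¹ : Om1 2 G) : G) = (a : G) := by
      push_cast
      rw [← hZc _ ha, mul_inv_cancel_right]
    rw [h1]
    exact ha
  obtain ⟨d, e, he, hea⟩ := gd_coord (Om1 2 G ⧸ (gdZ G).subgroupOf (Om1 2 G)) (fun q => by
    obtain ⟨a, rfl⟩ := QuotientGroup.mk_surjective q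
    rw [← QuotientGroup.mk_mul, QuotientGroup.eq_one_iff, Subgroup.mem_subgroupOf]
    exact gd_sq_Z hp hZ a.2)
  have hee0 : e 0 = 1 := by
    have h := hea 0 0
    rw [add_zero] at h
    exact left_eq_mul.1 h
  have hlift : ∀ i : Fin d, ∃ a : Om1 2 G,
      (a : Om1 2 G ⧸ (gdZ G).subgroupOf (Om1 2 G)) = e (Pi.single i 1) :=
    fun i => QuotientGroup.mk_surjective _
  choose γ hγ using hlift
  have hq : ∀ i, ∃ q, (γ i : G) * (γ i : G) = zz q := fun i => hsur _ (gd_sq_Z hp hZ (γ i).2)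
  choose q hq using hq
  have hcg : ∀ i (h : G), ∃ r, (γ i : G) * h = h * ((γ i : G) * zz r) := by
    intro i h
    obtain ⟨r, hr⟩ := hsur _ (gd_com_Z hp hZ (inv_mem (γ i).2) h⁻¹)
    refine ⟨r, ?_⟩
    rw [← hr, commutatorElement_def]
    group
  choose cg hcg using hcg
  obtain ⟨s, β, c, h1, h2, h3, h4⟩ := gd_rec hadd hcen d (fun i => (γ i : G)) q cg hq hcg
  have hs0 : s 0 = 1 := by
    have h5 := h1 0 0
    rw [add_zero, map_zero, hzz0, mul_one] at h5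
    exact left_eq_mul.1 h5.symm
  have hsN : ∀ v, s v ∈ Om1 2 G := h4 (Om1 2 G) (fun i => (γ i).2)
  -- the class of `s v`
  have key : ∀ v, ((⟨s v, hsN v⟩ : Om1 2 G) :
      Om1 2 G ⧸ (gdZ G).subgroupOf (Om1 2 G)) = e v := by
    have kadd : ∀ v w, ((⟨s v, hsN v⟩ : Om1 2 G) :
        Om1 2 G ⧸ (gdZ G).subgroupOf (Om1 2 G)) = e v → ((⟨s w, hsN w⟩ : Om1 2 G) :
        Om1 2 G ⧸ (gdZ G).subgroupOf (Om1 2 G)) = e w → ((⟨s (v + w), hsN (v + w)⟩ : Om1 2 G) :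
        Om1 2 G ⧸ (gdZ G).subgroupOf (Om1 2 G)) = e (v + w) := by
      intro v w hv hw
      rw [hea, ← hv, ← hw, ← QuotientGroup.mk_mul, QuotientGroup.eq, Subgroup.mem_subgroupOf]
      have h5 : ((⟨s (v + w), hsN (v + w)⟩ : Om1 2 G)⁻¹ * (⟨s v, hsN v⟩ * ⟨s w, hsN w⟩) :
          Om1 2 G) = (s (v + w))⁻¹ * (s v * s w) := rfl
      rw [h5, h1, inv_mul_cancel_left]
      exact hzZ _
    intro v
    rw [← Finset.univ_sum_single v]
    refine Finset.sum_induction (p := fun v => ((⟨s v, hsN v⟩ : Om1 2 G) :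
      Om1 2 G ⧸ (gdZ G).subgroupOf (Om1 2 G)) = e v) _ kadd ?_ (fun i _ => ?_)
    · rw [hee0, QuotientGroup.eq_one_iff, Subgroup.mem_subgroupOf]
      show s 0 ∈ gdZ G
      rw [hs0]
      exact (gdZ G).one_mem
    · rcases gd_two (v i) with hv | hv
      · rw [hv, Pi.single_zero, hee0, QuotientGroup.eq_one_iff, Subgroup.mem_subgroupOf]
        show s 0 ∈ gdZ G
        rw [hs0]
        exact (gdZ G).one_mem
      · rw [hv, ← hγ]
        congr 1
        exact Subtype.ext (h3 i)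
  refine ⟨⟨d, n, β, s, zz, h1, hadd, hcen, ?_, fun g v => c g v, fun g v => h2 g v, ?_, ?_⟩, ?_⟩
  · intro v x hvx
    have h5 : s v ∈ gdZ G := by
      rw [eq_inv_of_mul_eq_one_left hvx]
      exact (gdZ G).inv_mem (hzZ x)
    have h6 : e v = 1 := by
      rw [← key v, QuotientGroup.eq_one_iff, Subgroup.mem_subgroupOf]
      exact h5
    have h7 : v = 0 := he.1 (by rw [h6, hee0])
    subst h7
    rw [hs0, one_mul] at hvx
    exact ⟨rfl, hinj _ _ (by rw [hvx, hzz0])⟩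
  · intro g
    constructor
    · intro hg
      obtain ⟨v, hv⟩ := he.2 ((⟨g, hg⟩ : Om1 2 G) : Om1 2 G ⧸ (gdZ G).subgroupOf (Om1 2 G))
      rw [← key v, QuotientGroup.eq, Subgroup.mem_subgroupOf] at hv
      have h5 : (s v)⁻¹ * g ∈ gdZ G := hv
      obtain ⟨x, hx⟩ := hsur _ h5
      exact ⟨v, x, by rw [← hx, mul_inv_cancel_left]⟩
    · rintro ⟨v, x, rfl⟩
      exact (Om1 2 G).mul_mem (hsN v) (hZN (hzZ x))
  · intro H hH
    refine frattini_nongenerating ?_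
    rw [eq_top_iff]
    intro g _
    obtain ⟨x, hx⟩ := hH g
    have h5 : g = g * zz x * (zz x)⁻¹ := by rw [mul_inv_cancel_right]
    rw [h5]
    exact (H ⊔ frattini G).mul_mem ((le_sup_left : H ≤ H ⊔ frattini G) hx)
      ((H ⊔ frattini G).inv_mem ((le_sup_right : frattini G ≤ H ⊔ frattini G) (hzZ x).2.1))
  · show 1 ≤ n
    by_contra hn
    have hn0 : n = 0 := by omega
    subst hn0
    obtain ⟨z, hz, hz1⟩ := gd_ne hp hne
    obtain ⟨x, hx⟩ := hsur z hz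
    refine hz1 ?_
    rw [hx, Subsingleton.elim x 0, hzz0]

end Pool.Agent.EV
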