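import Pool.Agent.EV.AStm
import Pool.Agent.H98.MF.SBase

/-!
# Project T4 (MP_a3214d), even order, algebra, row C4: the number of homomorphisms
-/

set_option autoImplicit false

open scoped BigOperators
open NumberField IsDedekindDomain

namespace Pool.Agent.EV

open Pool.Agent.H98.MF
open Pool.Agent.D8 (pat RxF)

section

variable {k : Type} [Field k] [NumberField k] (F : Frm k) {G : Type} [Group G] (D : GD G)

open Classical in
/-- the sets of primes of parameters -/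
noncomputable def kcaX (x : F.I →₀ VV D.d) (v : D.R) : Finset F.sys.P :=
  (x.support.preimage Sum.inr Sum.inr_injective.injOn).filter fun p =>
    x (Sum.inr p) = (v : VV D.d)

theorem kca_mem (x : F.I →₀ VV D.d) (v : D.R) (p : F.sys.P) :
    p ∈ kcaX F D x v ↔ x (Sum.inr p) = (v : VV D.d) := by
  unfold kcaX
  rw [Finset.mem_filter, Finset.mem_preimage, Finsupp.mem_support_iff]
  refine ⟨fun h => h.2, fun h => ⟨?_, h⟩⟩
  rw [h]
  exact (D.mem_R.1 v.2).1

theorem kca_dj (x : F.I →₀ VV D.d) : F.sys.Dj (kcaX F D x) := by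
  intro v w hvw
  rw [Finset.disjoint_left]
  intro p hp hp'
  rw [kca_mem] at hp hp'
  exact hvw (Subtype.ext (hp.symm.trans hp'))

/-- parameters with values in `R` are those of a configuration -/
theorem kca_xo (h1 : SbXo) (x : F.I →₀ VV D.d)
    (hx : ∀ p, D.β (x (Sum.inr p)) (x (Sum.inr p)) = 0) :
    x = xo F (fun j => x (Sum.inl j)) (kcaX F D x) := by
  obtain ⟨ha, hb, hc, -⟩ := h1 k F D.d D.R (fun j => x (Sum.inl j)) (kcaX F D x) (kca_dj F D x)
  apply Finsupp.ext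
  rintro (j | p)
  · rw [ha]
  · by_cases h0 : x (Sum.inr p) = 0
    · rw [h0, hc p]
      intro v hv
      rw [kca_mem, h0] at hv
      exact (D.mem_R.1 v.2).1 hv.symm
    · have hR : x (Sum.inr p) ∈ D.R := D.mem_R.2 ⟨h0, hx p⟩
      have h2 := hb ⟨x (Sum.inr p), hR⟩ p (by rw [kca_mem])
      exact h2.symm

/-- configurations with the same parameters are equal -/
theorem kca_inj (h1 : SbXo) (y y' : Fin F.sys.m → VV D.d) (X X' : D.R → Finset F.sys.P)
    (hX : F.sys.Dj X) (hX' : F.sys.Dj X') (h : xo F y X = xo F y' X') : y = y' ∧ X = X' := by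
  obtain ⟨ha, hb, hc, -⟩ := h1 k F D.d D.R y X hX
  obtain ⟨ha', hb', hc', -⟩ := h1 k F D.d D.R y' X' hX'
  have key : ∀ (X X' : D.R → Finset F.sys.P) (x : F.I →₀ VV D.d),
      (∀ v : D.R, ∀ p ∈ X v, x (Sum.inr p) = v) →
      (∀ v : D.R, ∀ p ∈ X' v, x (Sum.inr p) = v) →
      (∀ p, (∀ v, p ∉ X' v) → x (Sum.inr p) = 0) → ∀ v, X v ⊆ X' v := by
    intro X X' x e1 e2 e3 v p hp
    have h2 := e1 v p hp
    by_cases h3 : ∃ w, p ∈ X' w
    · obtain ⟨w, hw⟩ := h3
      have h4 := e2 w p hw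
      have h5 : v = w := Subtype.ext (h2.symm.trans h4)
      rw [h5]
      exact hw
    · exfalso
      push Not at h3
      have h4 := e3 p h3
      rw [h2] at h4
      exact (D.mem_R.1 v.2).1 h4
  constructor
  · funext j
    rw [← ha j, h, ha' j]
  · funext v
    apply Finset.Subset.antisymm
    · exact key X X' (xo F y X) hb (by rw [h]; exact hb') (by rw [h]; exact hc') v
    · exact key X' X (xo F y X) (by rw [h]; exact hb') hb hc v

end

/-- C4: the number of homomorphisms -/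
theorem scCa (hP : SaPar) (h3 : SaTau) (h1 : SbXo) (hX : ScCx) (hS : SbSol) : ScCa := by
  classical
  intro k _ _ F Rk G _ D ρ hG hB H hH c hc Y
  have hcx := hX k F Rk G D ρ hG hB H hH
  obtain ⟨hP1, hP2, hP3⟩ := hP k F G D ρ hB.lc
  let A : Finset ((Fin F.sys.m → VV D.d) × (D.R → Finset F.sys.P)) :=
    Finset.univ ×ˢ (Fintype.piFinset (fun _ : D.R => F.sys.bx Y)).filter (fun X => F.sys.Dj X)
  have hA : ∀ a, a ∈ A ↔ (∀ v, a.2 v ∈ F.sys.bx Y) ∧ F.sys.Dj a.2 := by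
    intro a
    show a ∈ Finset.univ ×ˢ
      (Fintype.piFinset (fun _ : D.R => F.sys.bx Y)).filter (fun X => F.sys.Dj X) ↔ _
    rw [Finset.mem_product, Finset.mem_filter, Fintype.mem_piFinset]
    exact ⟨fun h => h.2, fun h => ⟨Finset.mem_univ _, h⟩⟩
  let t : (Fin F.sys.m → VV D.d) × (D.R → Finset F.sys.P) → Finset (Gm k →* G) := fun a =>
    if h : (Cx F Rk D ρ H a.1 a.2 Y).Finite then h.toFinset else ∅
  have ht : ∀ a ∈ A, ∀ ρ', ρ' ∈ t a ↔ ρ' ∈ Cx F Rk D ρ H a.1 a.2 Y := by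
    intro a ha ρ'
    have hf := (hcx a.1 a.2 ((hA a).1 ha).2 Y).1
    show ρ' ∈ (if h : (Cx F Rk D ρ H a.1 a.2 Y).Finite then h.toFinset else ∅) ↔ _
    rw [dif_pos hf, Set.Finite.mem_toFinset]
  have htc : ∀ a ∈ A, ((t a).card : ℝ) = ((Cx F Rk D ρ H a.1 a.2 Y).ncard : ℝ) := by
    intro a ha
    have hf := (hcx a.1 a.2 ((hA a).1 ha).2 Y).1
    show (((if h : (Cx F Rk D ρ H a.1 a.2 Y).Finite then h.toFinset else ∅) :
      Finset (Gm k →* G)).card : ℝ) = _
    rw [dif_pos hf, Set.ncard_eq_toFinset_card _ hf]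
  have hU : Ca F Rk D ρ H Y = ↑(A.biUnion t) := by
    ext ρ'
    rw [Finset.mem_coe, Finset.mem_biUnion]
    constructor
    · intro h
      have h' := h
      obtain ⟨_, hlc, hsim, _, hsq, c0, hc0, hc1⟩ := h'
      obtain ⟨x, f, hxf, hρ⟩ := hP1 ρ' hlc hsim
      have hx : ∀ p, D.β (x (Sum.inr p)) (x (Sum.inr p)) = 0 := by
        intro p
        have h4 := (h3 k F Rk G D ρ x f hxf p (hB.un p)).2.1
        rw [← h4, ← hρ]
        exact hsq p
      have hxo := kca_xo F D h1 x hx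
      have hmem : ((fun j => x (Sum.inl j), kcaX F D x) :
          (Fin F.sys.m → VV D.d) × (D.R → Finset F.sys.P)) ∈ A := by
        rw [hA]
        refine ⟨fun v => ?_, kca_dj F D x⟩
        rw [F.sys.mem_bx] at hc0 ⊢
        refine le_trans ?_ hc0
        exact_mod_cast F.sys.nm_mono fun p hp => by
          rw [hc1]
          intro h5
          rw [hρ] at h5
          have h6 := ((h3 k F Rk G D ρ x f hxf p (hB.un p)).2.2.1 h5).1
          rw [kca_mem, h6] at hp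
          exact (D.mem_R.1 v.2).1 hp.symm
      refine ⟨_, hmem, (ht _ hmem ρ').2 ⟨h, f, ?_⟩⟩
      show IsR D ρ (F.par (xo F (fun j => x (Sum.inl j)) (kcaX F D x))) f ∧
        ρ' = hm D ρ (F.par (xo F (fun j => x (Sum.inl j)) (kcaX F D x))) f
      rw [← hxo]
      exact ⟨hxf, hρ⟩
    · rintro ⟨a, ha, h⟩
      exact ((ht a ha ρ').1 h).1
  have hdis : ∀ a ∈ A, ∀ b ∈ A, a ≠ b → Disjoint (t a) (t b) := by
    intro a ha b hb hab
    rw [Finset.disjoint_left]
    intro ρ' h4 h5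
    obtain ⟨_, f, hf, e1⟩ := (ht a ha ρ').1 h4
    obtain ⟨_, f', hf', e2⟩ := (ht b hb ρ').1 h5
    have h6 := (hP3 _ _ f f' hf hf' (e1.symm.trans e2)).1
    obtain ⟨h7, h8⟩ := kca_inj F D h1 a.1 b.1 a.2 b.2 ((hA a).1 ha).2 ((hA b).1 hb).2 h6
    exact hab (Prod.ext h7 h8)
  refine ⟨by rw [hU]; exact Finset.finite_toSet _, ?_⟩
  rw [hU, Set.ncard_coe_finset, Finset.card_biUnion hdis]
  push_cast
  rw [Finset.sum_congr rfl htc]
  show ∑ a ∈ Finset.univ ×ˢ
    (Fintype.piFinset (fun _ : D.R => F.sys.bx Y)).filter (fun X => F.sys.Dj X), _ = _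
  rw [Finset.sum_product, Finset.mul_sum]
  refine Finset.sum_congr rfl fun y _ => ?_
  unfold NN
  rw [Finset.sum_filter, Finset.mul_sum]
  refine Finset.sum_congr rfl fun X _ => ?_
  by_cases hD : F.sys.Dj X
  · rw [if_pos hD]
    have hoff : Off F.sys ∅ X := fun u => Finset.disjoint_empty_right _
    show ((Cx F Rk D ρ H y X Y).ncard : ℝ) = _
    by_cases hok : okc D.Bd D.R (cT (S := F.sys) (c y)) X
    · rw [(hcx y X hD Y).2]
      by_cases hΦ : Ph F D ρ y (pat X) ∧ ((∏ u, F.sys.nm (X u) : ℕ) : ℝ) ≤ Y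
      · rw [if_pos hΦ, if_pos ⟨hD, hoff, hok, hΦ.1, hΦ.2⟩]
      · rw [if_neg hΦ, if_neg (fun h => hΦ ⟨h.2.2.2.1, h.2.2.2.2⟩), mul_zero]
    · rw [if_neg (fun h => hok h.2.2.1), mul_zero]
      have he : Cx F Rk D ρ H y X Y = ∅ := by
        ext ρ'
        refine ⟨?_, fun h => h.elim⟩
        rintro ⟨_, f, hf, _⟩
        exact (hok ((hS k F Rk G D ρ hB y (c y) (hc y) X hD).1 ⟨f, hf⟩).1).elim
      rw [he, Set.ncard_empty, Nat.cast_zero]
  · rw [if_neg hD, if_neg (fun h => hD h.1), mul_zero]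

end Pool.Agent.EV
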