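import Pool.Agent.EV.AStm
import Pool.Agent.H98.MF.SBase
import Pool.Agent.H98.MF.ParK
import Pool.Agent.H98.MF.LhTauK

/-!
# Project T4 (MP_a3214d), even order, row K3: the homomorphisms of a configuration
-/

set_option autoImplicit false

open scoped BigOperators Topology
open NumberField IsDedekindDomain Filter

namespace Pool.Agent.EV

open Pool.Agent.H98.MF
open Pool.Agent.H98.MK (sg)
open Pool.Agent.D8 (pat RxF)

section

variable {S : Sys}

open Classical in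
/-- linearity of the weighted count -/
theorem kcx_CC_mul {ι : Type} [Fintype ι] (y : Finset S.P) (g : (ι → S.T) → ℝ) (a Y : ℝ) :
    CC y (fun t => a * g t) Y = a * CC y g Y := by
  unfold CC
  rw [Finset.mul_sum]
  refine Finset.sum_congr rfl fun x _ => ?_
  split_ifs
  · rfl
  · rw [mul_zero]

open Classical in
/-- the norm of the union of a disjoint family -/
theorem kcx_nm_un {ι : Type} [Fintype ι] (X : ι → Finset S.P) (hX : S.Dj X) :
    S.nm (un X) = ∏ u, S.nm (X u) := by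
  unfold un Pre.nm
  rw [Finset.prod_biUnion]
  intro i _ j _ hij
  exact hX i j hij

open Classical in
theorem kcx_mem_un {ι : Type} [Fintype ι] (X : ι → Finset S.P) (p : S.P) :
    p ∈ un X ↔ ∃ u, p ∈ X u := by
  unfold un
  rw [Finset.mem_biUnion]
  exact ⟨fun ⟨u, _, h⟩ => ⟨u, h⟩, fun ⟨u, h⟩ => ⟨u, Finset.mem_univ u, h⟩⟩

end

/-- K3: the number of homomorphisms of a configuration -/
theorem scCx (hP : SaPar) (hT : SaTw) (hN : SaNo) (h3 : SaTau) (hS : SbSur) (h1 : SbXo)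
    (hL : ScLoc) (hC : ScNum) : ScCx := by
  classical
  intro k _ _ F Rk G _ D ρ hG hB H hH y X hX Y
  set x : F.I →₀ VV D.d := xo F y X with hx
  have hadd : ∀ σ τ : Gm k, F.par x (σ * τ) = F.par x σ + F.par x τ := F.par_hom x
  obtain ⟨-, hXin, hXout, -⟩ := h1 k F D.d D.R y X hX
  have hW : ∀ p, p ∈ un X ↔ x (Sum.inr p) ≠ 0 := by
    intro p
    rw [kcx_mem_un]
    constructor
    · rintro ⟨v, hv⟩
      rw [hx, hXin v p hv]
      exact (D.mem_R.1 v.2).1
    · intro h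
      by_contra h2
      push Not at h2
      exact h (hXout p h2)
  have hβ : ∀ p, D.β (x (Sum.inr p)) (x (Sum.inr p)) = 0 := by
    intro p
    by_cases h : ∃ v, p ∈ X v
    · obtain ⟨v, hv⟩ := h
      rw [hx, hXin v p hv]
      exact (D.mem_R.1 v.2).2
    · push Not at h
      rw [hx, hXout p h, map_zero]
  by_cases hex : ∃ f, IsR D ρ (F.par x) f
  swap
  · -- no cochain
    have hE : Cx F Rk D ρ H y X Y = ∅ := by
      rw [Set.eq_empty_iff_forall_notMem]
      rintro ρ' ⟨-, f, hf, -⟩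
      exact hex ⟨f, hf⟩
    have hg : ∀ t, gH F Rk D ρ H y X t = 0 := by
      intro t
      unfold gH
      rw [dif_neg]
      rintro ⟨f, hf⟩
      exact hex ⟨f, hf.toIsR⟩
    rw [hE]
    refine ⟨Set.finite_empty, ?_⟩
    have h0 : ∀ z : F.sys.P →₀ VV D.n, CC (un X)
        (fun t : RZ D.n → F.sys.T => gH F Rk D ρ H y X (tz z t))
        (Y / (∏ u, F.sys.nm (X u) : ℕ)) = 0 := by
      intro z
      unfold CC
      refine Finset.sum_eq_zero fun e _ => ?_
      split_ifs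
      · exact hg _
      · rfl
    rw [Set.ncard_empty, Nat.cast_zero]
    split_ifs
    · rw [Finset.sum_eq_zero fun z _ => h0 z, mul_zero]
    · rfl
  -- the normal cochain
  obtain ⟨fe, hfe⟩ := hex
  have h : ∃ f, IsN F Rk D ρ (F.par x) f := hN k F Rk G D ρ hG hB.lc x fe hfe
  set f0 : Gm k → VV D.n := h.choose with hf0
  have hn : IsN F Rk D ρ (F.par x) f0 := h.choose_spec
  have hn' : IsR D ρ (F.par x) f0 := hn.toIsR
  obtain ⟨hT1, hT2, hT3⟩ := hT k F G D ρ (F.par x) f0 hn'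
  obtain ⟨-, hP2, hP3⟩ := hP k F G D ρ hB.lc
  set Q : (Fin F.sys.m → VV D.n) → (Fin D.n → F.sys.T) → Prop := fun u t =>
    H (hm D ρ (F.par x) fun σ => f0 σ + F.parU u σ + F.parW (trn F t) σ) with hQ
  have hgH : ∀ t, gH F Rk D ρ H y X t = (1 / ((2 : ℝ) ^ F.sys.m) ^ D.n) *
      ∑ u : Fin F.sys.m → VV D.n, (if Q u t then 1 else 0) := by
    intro t
    unfold gH
    rw [dif_pos h]
  let Φ : (F.I →₀ VV D.n) → (Gm k →* G) := fun b => hm D ρ (F.par x) fun σ => f0 σ + F.par b σ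
  have hΦ : ∀ b, Φ b = hm D ρ (F.par x) fun σ => f0 σ + F.par b σ := fun _ => rfl
  have hinj : Function.Injective Φ := by
    intro b b' hb
    have h4 := (hP3 x x _ _ (hT1 b) (hT1 b') hb).2
    apply F.par_inj
    funext σ
    exact add_left_cancel (congrFun h4 σ)
  have hval : ∀ b p, Φ b (Rk.tau (F.pl p)) = 1 ↔ x (Sum.inr p) = 0 ∧ b (Sum.inr p) = 0 := by
    intro b p
    have h4 := (h3 k F Rk G D ρ x _ (hT1 b) p (hB.un p)).2.2
    rw [hΦ, h4, hn.nor p, F.par_tau Rk.toRx, zero_add]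
  have hsq : ∀ b p, Φ b (Rk.tau (F.pl p)) ^ 2 = 1 := fun b p =>
    (h3 k F Rk G D ρ x _ (hT1 b) p (hB.un p)).2.1.2 (hβ p)
  have hHQ : ∀ b, H (Φ b) ↔ Q (fun j => b (Sum.inl j)) (tot F b) := by
    intro b
    refine hH _ _ (hP2 x _ (hT1 b)).1 (hP2 x _ (hT2 _ _)).1 fun v hv σ hσ => ?_
    rw [hΦ, hm_apply (hT1 b) hadd, hm_apply (hT2 _ _) hadd, hL k F D.n b v hv σ hσ, add_assoc]
  have hsur : ∀ b, Function.Surjective (Φ b) ↔ Ph F D ρ y (pat X) := fun b =>
    hS k F Rk G D ρ hB y X _ hX (hT1 b)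
  have hnmW : F.sys.nm (un X) = ∏ u, F.sys.nm (X u) := kcx_nm_un X hX
  set W : Finset F.sys.P := un X with hWdef
  have hWpos : (0 : ℝ) < (F.sys.nm W : ℝ) := by exact_mod_cast F.sys.nm_pos W
  rw [← hnmW]
  -- elements of the configuration
  have hmem : ∀ ρ', ρ' ∈ Cx F Rk D ρ H y X Y → ∃ b, ρ' = Φ b := by
    rintro ρ' ⟨-, f, hf, rfl⟩
    obtain ⟨b, hb⟩ := hT3 f hf
    refine ⟨b, ?_⟩
    have e : f = fun σ => f0 σ + F.par b σ := funext hb
    rw [e]
  have hmem2 : ∀ b, Φ b ∈ Cx F Rk D ρ H y X Y ↔ (Ph F D ρ y (pat X) ∧ (F.sys.nm W : ℝ) ≤ Y) ∧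
      (b ∈ Bq F D.n W (Y / (F.sys.nm W : ℕ)) ∧ Q (fun j => b (Sum.inl j)) (tot F b)) := by
    intro b
    constructor
    · rintro ⟨⟨hs, -, -, hHb, -, c, hc, hcp⟩, -⟩
      have hWc : W ⊆ c := by
        intro p hp
        rw [hcp, Ne, hval]
        exact fun h5 => (hW p).1 hp h5.1
      have hc1 : (F.sys.nm c : ℝ) ≤ Y := F.sys.mem_bx.1 hc
      have hcu : c = W ∪ (c \ W) := (Finset.union_sdiff_of_subset hWc).symm
      have hcn : F.sys.nm c = F.sys.nm W * F.sys.nm (c \ W) := by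
        conv_lhs => rw [hcu]
        exact F.sys.nm_union Finset.disjoint_sdiff
      have hc2 : (F.sys.nm W : ℝ) * (F.sys.nm (c \ W) : ℝ) ≤ Y := by
        have h5 : (F.sys.nm c : ℝ) = F.sys.nm W * F.sys.nm (c \ W) := by exact_mod_cast hcn
        rw [← h5]
        exact hc1
      refine ⟨⟨(hsur b).1 hs, ?_⟩, ?_, (hHQ b).1 hHb⟩
      · have h6 : (1 : ℝ) ≤ (F.sys.nm (c \ W) : ℝ) := F.sys.one_le_nmr _
        nlinarith
      · refine ⟨c \ W, F.sys.mem_bx.2 ?_, Finset.sdiff_disjoint, fun p hp => ?_⟩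
        · rw [le_div_iff₀ hWpos, mul_comm]
          exact hc2
        · rw [Finset.mem_sdiff]
          have h5 : x (Sum.inr p) = 0 := by
            by_contra h6
            exact hp ((hW p).2 h6)
          rw [hcp p, Ne, hval]
          constructor
          · rintro ⟨h6, -⟩ h7
            exact h6 ⟨h5, h7⟩
          · exact fun h6 => ⟨fun h7 => h6 h7.2, hp⟩
    · rintro ⟨⟨hPh, hWY⟩, ⟨c, hc, hcW, hcp⟩, hQb⟩
      refine ⟨⟨(hsur b).2 hPh, (hP2 x _ (hT1 b)).1, (hP2 x _ (hT1 b)).2, (hHQ b).2 hQb, hsq b,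
        W ∪ c, F.sys.mem_bx.2 ?_, fun p => ?_⟩, _, hT1 b, rfl⟩
      · rw [F.sys.nm_union hcW.symm]
        have h5 := F.sys.mem_bx.1 hc
        rw [le_div_iff₀ hWpos, mul_comm] at h5
        exact_mod_cast h5
      · rw [Finset.mem_union, Ne, hval]
        by_cases hp : p ∈ W
        · exact ⟨fun _ h6 => (hW p).1 hp h6.1, fun _ => Or.inl hp⟩
        · have h5 : x (Sum.inr p) = 0 := by
            by_contra h6
            exact hp ((hW p).2 h6)
          constructor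
          · rintro (h6 | h6)
            · exact absurd h6 hp
            · exact fun h7 => (hcp p hp).1 h6 h7.2
          · exact fun h6 => Or.inr ((hcp p hp).2 fun h7 => h6 ⟨h5, h7⟩)
  by_cases hcond : Ph F D ρ y (pat X) ∧ (F.sys.nm W : ℝ) ≤ Y
  · rw [if_pos hcond]
    have hset : Cx F Rk D ρ H y X Y = Φ '' {b | b ∈ Bq F D.n W (Y / (F.sys.nm W : ℕ)) ∧
        Q (fun j => b (Sum.inl j)) (tot F b)} := by
      ext ρ'
      constructor
      · intro hρ
        obtain ⟨b, rfl⟩ := hmem ρ' hρ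
        exact ⟨b, ((hmem2 b).1 hρ).2, rfl⟩
      · rintro ⟨b, hb, rfl⟩
        exact (hmem2 b).2 ⟨hcond, hb⟩
    obtain ⟨hfin, hcard⟩ := hC k F D.n W Q (Y / (F.sys.nm W : ℕ))
    rw [hset]
    refine ⟨hfin.image Φ, ?_⟩
    rw [Set.ncard_image_of_injective _ hinj, hcard, Finset.mul_sum]
    refine Finset.sum_congr rfl fun z _ => ?_
    have e : (fun t : RZ D.n → F.sys.T => gH F Rk D ρ H y X (tz z t)) = fun t =>
        (1 / ((2 : ℝ) ^ F.sys.m) ^ D.n) * ∑ u : Fin F.sys.m → VV D.n,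
          (if Q u (tz z t) then (1 : ℝ) else 0) := by
      funext t
      exact hgH _
    rw [e, kcx_CC_mul, ← mul_assoc, mul_one_div_cancel (by positivity), one_mul]
  · rw [if_neg hcond]
    have hE : Cx F Rk D ρ H y X Y = ∅ := by
      rw [Set.eq_empty_iff_forall_notMem]
      intro ρ' hρ
      obtain ⟨b, rfl⟩ := hmem ρ' hρ
      exact hcond ((hmem2 b).1 hρ).1
    rw [hE]
    exact ⟨Set.finite_empty, by rw [Set.ncard_empty, Nat.cast_zero]⟩

end Pool.Agent.EV
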