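import Pool.Agent.EV.AStm
import Pool.Agent.H98.MF.ParK
import Pool.Agent.H98.MF.LocData
import Pool.Agent.H98.MF.L.KIn

/-!
# Project T4 (MP_a3214d), even order, row K1: twists at the places of `S`
-/

set_option autoImplicit false

open scoped BigOperators
open NumberField IsDedekindDomain

namespace Pool.Agent.EV

open Pool.Agent.H98.MF

section

variable {k : Type} [Field k] [NumberField k] (F : Frm k)

private theorem kl_tot_add {n : ℕ} (b b' : F.I →₀ VV n) :
    tot F (b + b') = tot F b + tot F b' := by
  classical
  funext i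
  show tot F (b + b') i = tot F b i + tot F b' i
  unfold tot
  refine Finsupp.sum_add_index' ?_ ?_
  · intro j
    cases j with
    | inl j => rfl
    | inr p => simp
  · intro j v w
    cases j with
    | inl j => simp
    | inr p =>
      show (v i + w i) • F.sys.ty p = v i • F.sys.ty p + w i • F.sys.ty p
      rw [add_smul]

private theorem kl_tot_zero {n : ℕ} : tot F (0 : F.I →₀ VV n) = 0 := by
  classical
  funext i
  unfold tot
  exact Finsupp.sum_zero_index

private theorem kl_tot_inl {n : ℕ} (j : Fin F.sys.m) (v : VV n) :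
    tot F (Finsupp.single (Sum.inl j) v) = 0 := by
  classical
  funext i
  unfold tot
  rw [Finsupp.sum_single_index]
  · rfl
  · rfl

private theorem kl_tot_inr {n : ℕ} (p : F.sys.P) (v : VV n) (i : Fin n) :
    tot F (Finsupp.single (Sum.inr p) v) i = v i • F.sys.ty p := by
  classical
  unfold tot
  rw [Finsupp.sum_single_index]
  · rfl
  · show (0 : ZMod 2) • F.sys.ty p = 0
    rw [zero_smul]

private theorem kl_U_add {n : ℕ} (z z' : Fin F.sys.m → VV n) (σ : Gm k) :
    F.parU (z + z') σ = F.parU z σ + F.parU z' σ := by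
  unfold Frm.parU
  rw [← Finset.sum_add_distrib]
  refine Finset.sum_congr rfl fun j _ => ?_
  rw [Pi.add_apply, smul_add]

private theorem kl_W_add {n : ℕ} (z z' : Fin F.sys.m → VV n) (σ : Gm k) :
    F.parW (z + z') σ = F.parW z σ + F.parW z' σ := by
  unfold Frm.parW
  rw [← Finset.sum_add_distrib]
  refine Finset.sum_congr rfl fun j _ => ?_
  rw [Pi.add_apply, smul_add]

private theorem kl_U_zero {n : ℕ} (σ : Gm k) : F.parU (0 : Fin F.sys.m → VV n) σ = 0 := by
  unfold Frm.parU
  refine Finset.sum_eq_zero fun j _ => ?_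
  rw [Pi.zero_apply, smul_zero]

private theorem kl_W_zero {n : ℕ} (σ : Gm k) : F.parW (0 : Fin F.sys.m → VV n) σ = 0 := by
  unfold Frm.parW
  refine Finset.sum_eq_zero fun j _ => ?_
  rw [Pi.zero_apply, smul_zero]

private theorem kl_single {n : ℕ} (j : F.I) (v : VV n) (σ : Gm k) :
    F.par (Finsupp.single j v) σ = chi (F.e j : k) σ • v := by
  classical
  unfold Frm.par
  rw [Finsupp.sum_single_index]
  rw [smul_zero]

end

/-- C1 -/
theorem scLoc : ScLoc := by
  classical
  intro k _ _ F n b v hv σ hσ
  induction b using Finsupp.induction_linear with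
  | zero =>
    rw [kl_tot_zero]
    have h1 : F.par (0 : F.I →₀ VV n) σ = 0 := by
      unfold Frm.par
      exact Finsupp.sum_zero_index
    have h2 : trn F (0 : Fin n → F.sys.T) = 0 := rfl
    have h3 : (fun j => (0 : F.I →₀ VV n) (Sum.inl j)) = (0 : Fin F.sys.m → VV n) := rfl
    rw [h1, h2, h3, kl_U_zero, kl_W_zero, add_zero]
  | add b b' hb hb' =>
    rw [kl_tot_add]
    have h2 : trn F (tot F b + tot F b') = trn F (tot F b) + trn F (tot F b') := rfl
    have h3 : (fun j => (b + b') (Sum.inl j)) =
        (fun j => b (Sum.inl j)) + (fun j => b' (Sum.inl j)) := rfl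
    rw [h2, h3, kl_U_add, kl_W_add, Frm.par_add, hb, hb']
    abel
  | single j w =>
    rw [kl_single]
    cases j with
    | inl j =>
      rw [kl_tot_inl]
      have h2 : trn F (0 : Fin n → F.sys.T) = 0 := rfl
      rw [h2, kl_W_zero, add_zero]
      unfold Frm.parU
      rw [Finset.sum_eq_single j]
      · beta_reduce
        rw [Finsupp.single_eq_same]
        rfl
      · intro i _ hi
        beta_reduce
        rw [Finsupp.single_eq_of_ne (fun h => hi (Sum.inl_injective h)), smul_zero]
      · intro h
        exact absurd (Finset.mem_univ j) h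
    | inr p =>
      have h3 : (fun j => (Finsupp.single (Sum.inr p) w : F.I →₀ VV n) (Sum.inl j)) =
          (0 : Fin F.sys.m → VV n) := by
        funext j
        rw [Finsupp.single_eq_of_ne (fun h => by cases h)]
        rfl
      rw [h3, kl_U_zero, zero_add]
      show chi (F.pi p : k) σ • w = _
      rw [F.m6a_chi_pi (kin k) p hv hσ, Finset.sum_smul]
      unfold Frm.parW
      refine Finset.sum_congr rfl fun j _ => ?_
      funext i
      show F.sys.ty p j * chi (F.w j : k) σ * w i =
        chi (F.w j : k) σ * (tot F (Finsupp.single (Sum.inr p) w) i j)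
      rw [kl_tot_inr]
      show _ = chi (F.w j : k) σ * (w i * F.sys.ty p j)
      ring

end Pool.Agent.EV
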