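import Pool.Agent.EV.AStm
import Pool.Agent.H98.MF.SBase

/-!
# Project T4 (MP_a3214d), even order, row K2: the number of twists
-/

set_option autoImplicit false

open scoped BigOperators Topology
open NumberField IsDedekindDomain Filter

namespace Pool.Agent.EV

open Pool.Agent.H98.MF
open Pool.Agent.D8 (pat RxF)

section

variable {S : Sys} {n : ℕ}

theorem kn_rz {v : VV n} : v ∈ RZ n ↔ v ≠ 0 := by
  unfold RZ
  rw [Finset.mem_filter]
  exact ⟨fun h => h.2, fun h => ⟨Finset.mem_univ _, h⟩⟩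

/-- the assignment of a family indexed by the nonzero vectors -/
noncomputable def knW (W : RZ n → Finset S.P) : S.P →₀ VV n :=
  ∑ v : RZ n, ∑ p ∈ W v, Finsupp.single p (v : VV n)

theorem knW_apply (W : RZ n → Finset S.P) (p : S.P) [∀ v : RZ n, Decidable (p ∈ W v)] :
    knW W p = ∑ v : RZ n, if p ∈ W v then (v : VV n) else 0 := by
  classical
  unfold knW
  rw [Finsupp.finsetSum_apply]
  refine Finset.sum_congr rfl fun v _ => ?_
  rw [Finsupp.finsetSum_apply]
  by_cases h : p ∈ W v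
  · rw [if_pos h, Finset.sum_eq_single_of_mem p h]
    · rw [Finsupp.single_eq_same]
    · intro q _ hq
      rw [Finsupp.single_eq_of_ne]
      exact fun h => hq h.symm
  · rw [if_neg h]
    refine Finset.sum_eq_zero fun q hq => ?_
    rw [Finsupp.single_eq_of_ne]
    rintro rfl
    exact h hq

theorem knW_mem {W : RZ n → Finset S.P} (hW : S.Dj W) {v : RZ n} {p : S.P} (h : p ∈ W v) :
    knW W p = v := by
  classical
  rw [knW_apply, Finset.sum_eq_single v]
  · rw [if_pos h]
  · intro w _ hw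
    rw [if_neg]
    intro h'
    exact Finset.disjoint_left.1 (hW w v hw) h' h
  · intro h'
    exact absurd (Finset.mem_univ _) h'

theorem knW_out {W : RZ n → Finset S.P} {p : S.P} (h : ∀ v, p ∉ W v) : knW W p = 0 := by
  classical
  rw [knW_apply]
  exact Finset.sum_eq_zero fun v _ => if_neg (h v)

theorem knW_iff {W : RZ n → Finset S.P} (hW : S.Dj W) (v : RZ n) (p : S.P) :
    p ∈ W v ↔ knW W p = v := by
  constructor
  · exact knW_mem hW
  · intro h
    by_contra hp
    by_cases h1 : ∃ w, p ∈ W w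
    · obtain ⟨w, hw⟩ := h1
      rw [knW_mem hW hw] at h
      exact hp (Subtype.ext h ▸ hw)
    · push Not at h1
      rw [knW_out h1] at h
      exact kn_rz.1 v.2 h.symm

theorem knW_ne {W : RZ n → Finset S.P} (hW : S.Dj W) (p : S.P) :
    knW W p ≠ 0 ↔ ∃ v, p ∈ W v := by
  constructor
  · intro h
    by_contra h1
    push Not at h1
    exact h (knW_out h1)
  · rintro ⟨v, hv⟩
    rw [knW_mem hW hv]
    exact kn_rz.1 v.2

/-- the parameters of the units, the primes of `y` and the other primes -/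
noncomputable def kb (u : Fin S.m → VV n) (z : S.P →₀ VV n) (W : RZ n → Finset S.P) :
    (Fin S.m ⊕ S.P) →₀ VV n :=
  Finsupp.mapDomain Sum.inl (Finsupp.equivFunOnFinite.symm u) +
    Finsupp.mapDomain Sum.inr (z + knW W)

theorem kb_inl (u : Fin S.m → VV n) (z : S.P →₀ VV n) (W : RZ n → Finset S.P) (j : Fin S.m) :
    kb u z W (Sum.inl j) = u j := by
  unfold kb
  rw [Finsupp.add_apply, Finsupp.mapDomain_apply Sum.inl_injective,
    Finsupp.mapDomain_of_notMem_range, add_zero]
  · rfl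
  · rintro ⟨p, hp⟩
    exact absurd hp (by simp)

theorem kb_inr (u : Fin S.m → VV n) (z : S.P →₀ VV n) (W : RZ n → Finset S.P) (p : S.P) :
    kb u z W (Sum.inr p) = z p + knW W p := by
  unfold kb
  rw [Finsupp.add_apply, Finsupp.mapDomain_apply Sum.inr_injective,
    Finsupp.mapDomain_of_notMem_range, zero_add]
  · rfl
  · rintro ⟨p, hp⟩
    exact absurd hp (by simp)

theorem kb_sum (u : Fin S.m → VV n) (z : S.P →₀ VV n) (W : RZ n → Finset S.P) (i : Fin n) :
    ((kb u z W).sum fun j v => Sum.elim (fun _ => 0) (fun p => v i • S.ty p) j : S.T) =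
      tz z (fun v => S.tys (W v)) i := by
  classical
  unfold kb
  rw [Finsupp.sum_add_index', Finsupp.sum_mapDomain_index, Finsupp.sum_mapDomain_index]
  · simp only [Sum.elim_inl, Sum.elim_inr, Finsupp.sum_fun_zero, zero_add]
    rw [Finsupp.sum_add_index']
    · unfold tz
      congr 1
      have h1 : ∀ c : S.P →₀ VV n, (c.sum fun p v => v i • S.ty p) =
          (Finsupp.liftAddHom (fun p => (AddMonoidHom.mk' (fun v : VV n => v i • S.ty p)
            (fun a b => by simp [add_smul]))) : (S.P →₀ VV n) →+ S.T) c := fun c => by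
        rw [Finsupp.liftAddHom_apply]
        rfl
      rw [h1]
      unfold knW
      rw [map_sum]
      refine Finset.sum_congr rfl fun v _ => ?_
      rw [map_sum]
      unfold Sys.tys
      rw [Finset.smul_sum]
      refine Finset.sum_congr rfl fun p _ => ?_
      rw [Finsupp.liftAddHom_apply_single]
      rfl
    · intro p
      simp
    · intro p a b
      simp [add_smul]
  · rintro (j | p) <;> simp
  · rintro (j | p) a b <;> simp [add_smul]
  · rintro (j | p) <;> simp
  · rintro (j | p) a b <;> simp [add_smul]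
  · rintro (j | p) <;> simp
  · rintro (j | p) a b <;> simp [add_smul]

/-- the parameters lie in the set -/
theorem kb_mem {y : Finset S.P} {Y : ℝ} {u : Fin S.m → VV n} {z : S.P →₀ VV n}
    {W : RZ n → Finset S.P} (hz : z.support ⊆ y) (hW : S.Dj W) (ho : Off S y W)
    (hY : ((∏ v, S.nm (W v) : ℕ) : ℝ) ≤ Y) :
    ∃ c ∈ S.bx Y, Disjoint c y ∧ ∀ p, p ∉ y → (p ∈ c ↔ kb u z W (Sum.inr p) ≠ 0) := by
  classical
  refine ⟨Finset.univ.biUnion W, ?_, ?_, ?_⟩
  · rw [S.mem_bx, S.nm_biUnion]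
    · exact hY
    · intro i _ j _ hij
      exact hW i j hij
  · rw [Finset.disjoint_biUnion_left]
    exact fun v _ => ho v
  · intro p hp
    have hzp : z p = 0 := by
      by_contra h
      exact hp (hz (Finsupp.mem_support_iff.2 h))
    rw [kb_inr, hzp, zero_add, knW_ne hW, Finset.mem_biUnion]
    simp

/-- the parameters determine the data -/
theorem kb_inj {y : Finset S.P} {u u' : Fin S.m → VV n} {z z' : S.P →₀ VV n}
    {W W' : RZ n → Finset S.P} (hz : z.support ⊆ y) (hz' : z'.support ⊆ y) (hW : S.Dj W)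
    (hW' : S.Dj W') (ho : Off S y W) (ho' : Off S y W') (h : kb u z W = kb u' z' W') :
    u = u' ∧ z = z' ∧ W = W' := by
  have h1 : ∀ p, z p + knW W p = z' p + knW W' p := by
    intro p
    rw [← kb_inr u, ← kb_inr u', h]
  have hin : ∀ p ∈ y, knW W p = 0 ∧ knW W' p = 0 := by
    intro p hp
    exact ⟨knW_out fun v hv => Finset.disjoint_left.1 (ho v) hv hp,
      knW_out fun v hv => Finset.disjoint_left.1 (ho' v) hv hp⟩
  have hout : ∀ p, p ∉ y → z p = 0 ∧ z' p = 0 := by
    intro p hp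
    constructor
    · by_contra h
      exact hp (hz (Finsupp.mem_support_iff.2 h))
    · by_contra h
      exact hp (hz' (Finsupp.mem_support_iff.2 h))
  have h2 : ∀ p, knW W p = knW W' p := by
    intro p
    by_cases hp : p ∈ y
    · rw [(hin p hp).1, (hin p hp).2]
    · have h3 := h1 p
      rwa [(hout p hp).1, (hout p hp).2, zero_add, zero_add] at h3
  refine ⟨?_, ?_, ?_⟩
  · funext j
    rw [← kb_inl u z W, h, kb_inl]
  · ext1 p
    have h3 := h1 p
    rw [h2 p] at h3
    exact add_right_cancel h3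
  · funext v
    ext p
    rw [knW_iff hW, knW_iff hW', h2]

/-- every parameter is of this form -/
theorem kb_surj {y : Finset S.P} {Y : ℝ} {b : (Fin S.m ⊕ S.P) →₀ VV n}
    (hb : ∃ c ∈ S.bx Y, Disjoint c y ∧ ∀ p, p ∉ y → (p ∈ c ↔ b (Sum.inr p) ≠ 0)) :
    ∃ (z : S.P →₀ VV n) (W : RZ n → Finset S.P), z.support ⊆ y ∧ S.Dj W ∧ Off S y W ∧
      ((∏ v, S.nm (W v) : ℕ) : ℝ) ≤ Y ∧ kb (fun j => b (Sum.inl j)) z W = b := by
  classical
  obtain ⟨c, hc, hd, hcb⟩ := hb
  let a : S.P →₀ VV n := b.comapDomain Sum.inr Sum.inr_injective.injOn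
  have ha : ∀ p, a p = b (Sum.inr p) := fun p => rfl
  let W : RZ n → Finset S.P := fun v => c.filter fun p => a p = v
  have hWm : ∀ v p, p ∈ W v ↔ p ∈ c ∧ a p = v := fun v p => Finset.mem_filter
  have hW : S.Dj W := by
    intro v w hvw
    rw [Finset.disjoint_left]
    intro p hp hp'
    rw [hWm] at hp hp'
    exact hvw (Subtype.ext (hp.2.symm.trans hp'.2))
  have ho : Off S y W := by
    intro v
    rw [Finset.disjoint_left]
    intro p hp hp'
    rw [hWm] at hp
    exact Finset.disjoint_left.1 hd hp.1 hp'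
  have hun : Finset.univ.biUnion W = c := by
    ext p
    rw [Finset.mem_biUnion]
    constructor
    · rintro ⟨v, -, hv⟩
      exact ((hWm v p).1 hv).1
    · intro hp
      have hpy : p ∉ y := fun h => Finset.disjoint_left.1 hd hp h
      have h1 : a p ≠ 0 := (hcb p hpy).1 hp
      exact ⟨⟨a p, kn_rz.2 h1⟩, Finset.mem_univ _, (hWm _ p).2 ⟨hp, rfl⟩⟩
  refine ⟨a.filter (· ∈ y), W, ?_, hW, ho, ?_, ?_⟩
  · intro p hp
    rw [Finsupp.support_filter, Finset.mem_filter] at hp
    exact hp.2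
  · rw [← S.nm_biUnion, hun]
    · exact S.mem_bx.1 hc
    · intro i _ j _ hij
      exact hW i j hij
  · ext1 j
    rcases j with j | p
    · rw [kb_inl]
    · rw [kb_inr]
      by_cases hp : p ∈ y
      · have h1 : knW W p = 0 := knW_out fun v hv => Finset.disjoint_left.1 (ho v) hv hp
        rw [Finsupp.filter_apply_pos _ _ hp, h1, add_zero, ha]
      · rw [Finsupp.filter_apply_neg _ _ hp, zero_add]
        by_cases h0 : a p = 0
        · have h1 : knW W p = 0 := by
            refine knW_out fun v hv => ?_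
            rw [hWm] at hv
            exact (hcb p hp).1 hv.1 (by rw [← ha]; exact h0)
          rw [h1, ← ha, h0]
        · have hpc : p ∈ c := (hcb p hp).2 (by rw [← ha]; exact h0)
          exact knW_mem hW (v := ⟨a p, kn_rz.2 h0⟩) ((hWm _ p).2 ⟨hpc, rfl⟩)

end

/-- C2: the number of twists -/
theorem scNum : ScNum := by
  classical
  intro k _ _ F n y Q Y
  let I3 : Type := (F.sys.P →₀ VV n) × (RZ n → Finset F.sys.P) × (Fin F.sys.m → VV n)
  let T : Finset I3 := ((asg n y) ×ˢ (Fintype.piFinset (fun _ : RZ n => F.sys.bx Y)) ×ˢ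
    (Finset.univ : Finset (Fin F.sys.m → VV n))).filter fun t =>
      (F.sys.Dj t.2.1 ∧ Off F.sys y t.2.1 ∧ ((∏ v, F.sys.nm (t.2.1 v) : ℕ) : ℝ) ≤ Y) ∧
        Q t.2.2 (tz t.1 (fun v => F.sys.tys (t.2.1 v)))
  have hasg : ∀ z : F.sys.P →₀ VV n, z ∈ asg n y ↔ z.support ⊆ y := by
    intro z
    unfold asg
    rw [Finset.mem_finsupp_iff]
    exact ⟨fun h => h.1, fun h => ⟨h, fun _ _ => Finset.mem_univ _⟩⟩
  have hT : ∀ t : I3, t ∈ T ↔ t.1.support ⊆ y ∧ (F.sys.Dj t.2.1 ∧ Off F.sys y t.2.1 ∧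
      ((∏ v, F.sys.nm (t.2.1 v) : ℕ) : ℝ) ≤ Y) ∧
        Q t.2.2 (tz t.1 (fun v => F.sys.tys (t.2.1 v))) := by
    intro t
    rw [Finset.mem_filter, Finset.mem_product, Finset.mem_product, hasg]
    constructor
    · rintro ⟨⟨h1, -, -⟩, h2, h3⟩
      exact ⟨h1, h2, h3⟩
    · rintro ⟨h1, h2, h3⟩
      refine ⟨⟨h1, ?_, Finset.mem_univ _⟩, h2, h3⟩
      rw [Fintype.mem_piFinset]
      intro v
      rw [F.sys.mem_bx]
      refine le_trans ?_ h2.2.2
      have h4 : F.sys.nm (t.2.1 v) ≤ ∏ v, F.sys.nm (t.2.1 v) :=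
        Finset.single_le_prod' (fun i _ => F.sys.one_le_nm _) (Finset.mem_univ v)
      exact_mod_cast h4
  have hset : {b | b ∈ Bq F n y Y ∧ Q (fun j => b (Sum.inl j)) (tot F b)} =
      (fun t : I3 => kb t.2.2 t.1 t.2.1) '' (T : Set I3) := by
    ext b
    constructor
    · rintro ⟨hb, hQ⟩
      obtain ⟨z, W, h1, h2, h3, h4, h5⟩ := kb_surj hb
      refine ⟨(z, W, fun j => b (Sum.inl j)), ?_, h5⟩
      rw [Finset.mem_coe, hT]
      refine ⟨h1, ⟨h2, h3, h4⟩, ?_⟩
      have h6 : tot F b = tz z (fun v => F.sys.tys (W v)) := by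
        funext i
        rw [← kb_sum (fun j => b (Sum.inl j)), h5]
        rfl
      rw [← h6]
      exact hQ
    · rintro ⟨⟨z, W, u⟩, ht, rfl⟩
      rw [Finset.mem_coe, hT] at ht
      obtain ⟨h1, ⟨h2, h3, h4⟩, h5⟩ := ht
      refine ⟨kb_mem h1 h2 h3 h4, ?_⟩
      have h6 : tot F (kb u z W) = tz z (fun v => F.sys.tys (W v)) := by
        funext i
        rw [← kb_sum u]
        rfl
      have h7 : (fun j => kb u z W (Sum.inl j)) = u := funext fun j => kb_inl u z W j
      show Q (fun j => kb u z W (Sum.inl j)) (tot F (kb u z W))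
      rw [h6, h7]
      exact h5
  have hinj : Set.InjOn (fun t : I3 => kb t.2.2 t.1 t.2.1) (T : Set I3) := by
    rintro ⟨z, W, u⟩ ht ⟨z', W', u'⟩ ht' h
    rw [Finset.mem_coe, hT] at ht ht'
    obtain ⟨h1, h2, h3⟩ := kb_inj ht.1 ht'.1 ht.2.1.1 ht'.2.1.1 ht.2.1.2.1 ht'.2.1.2.1 h
    have e1 : u = u' := h1
    have e2 : z = z' := h2
    have e3 : W = W' := h3
    rw [e1, e2, e3]
  refine ⟨?_, ?_⟩
  · rw [hset]
    exact (Finset.finite_toSet T).image _
  · rw [hset, Set.InjOn.ncard_image hinj, Set.ncard_coe_finset]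
    have h1 : T.card = ∑ t ∈ (asg n y) ×ˢ (Fintype.piFinset (fun _ : RZ n => F.sys.bx Y)) ×ˢ
        (Finset.univ : Finset (Fin F.sys.m → VV n)),
        if (F.sys.Dj t.2.1 ∧ Off F.sys y t.2.1 ∧
          ((∏ v, F.sys.nm (t.2.1 v) : ℕ) : ℝ) ≤ Y) ∧
          Q t.2.2 (tz t.1 (fun v => F.sys.tys (t.2.1 v))) then 1 else 0 :=
      Finset.card_filter _ _
    rw [h1, Finset.sum_product, Nat.cast_sum]
    refine Finset.sum_congr rfl fun z _ => ?_
    rw [Finset.sum_product, Nat.cast_sum]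
    unfold CC
    refine Finset.sum_congr (Finset.ext fun W => by
      simp only [Fintype.mem_piFinset]) fun W _ => ?_
    rw [Nat.cast_sum]
    by_cases h : F.sys.Dj W ∧ Off F.sys y W ∧ ((∏ v, F.sys.nm (W v) : ℕ) : ℝ) ≤ Y
    · rw [if_pos h]
      refine Finset.sum_congr rfl fun u _ => ?_
      by_cases hq : Q u (tz z (fun v => F.sys.tys (W v)))
      · rw [if_pos ⟨h, hq⟩, if_pos hq, Nat.cast_one]
      · rw [if_neg fun h' => hq h'.2, if_neg hq, Nat.cast_zero]
    · rw [if_neg h]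
      refine Finset.sum_eq_zero fun u _ => ?_
      rw [if_neg fun h' => h h'.1, Nat.cast_zero]

end Pool.Agent.EV
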