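import Pool.Agent.EV.APar
import Pool.Agent.EV.ATw
import Pool.Agent.EV.ATau
import Pool.Agent.EV.ANo
import Pool.Agent.EV.ALoc
import Pool.Agent.EV.AHas
import Pool.Agent.EV.BXo
import Pool.Agent.EV.BSur
import Pool.Agent.EV.BCy
import Pool.Agent.EV.BGen
import Pool.Agent.EV.BSol
import Pool.Agent.EV.BTy
import Pool.Agent.EV.BMean
import Pool.Agent.EV.KLoc
import Pool.Agent.EV.KNum
import Pool.Agent.EV.KCx
import Pool.Agent.EV.KCa
import Pool.Agent.EV.EF1
import Pool.Agent.EV.EF2
import Pool.Agent.EV.GrpD
import Pool.Agent.EV.GrpB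
import Pool.Agent.EV.ATm

/-!
# Project T4 (MP_a3214d), even order: the inner statement for fixed data, assembly of the rows
-/

set_option autoImplicit false

namespace Pool.Agent.EV

/-- the inner statement for 2-groups with coordinates, from the analytic part and one row -/
theorem seF2_of (hB : SbOk) (hF : SFix) : SeF2 := by
  have hNo : SaNo := saNo saTw saPar
  have hSol : SbSol := sbSol saLoc saHas sbXo hB
  have hSur : SbSur := sbSur sbXo saTau
  have hCx : ScCx := scCx saPar saTw hNo saTau hSur sbXo scLoc scNum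
  have hCa : ScCa := scCa saPar saTau sbXo hCx hSol
  have hM : SbMean := sbMean saTw hNo saPar hSol (sbTy sbXo)
  have hE : SeF1 := seF1 hF sbCy (sbGen sgB) hM hCa sbXo saPar saTau hSol hNo saTw scLoc hSur
  exact seF2 (fun k _ _ T => rk_of T) hCa sbCy hE

end Pool.Agent.EV
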