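import Pool.Agent.EV.CDefs
import Pool.Agent.D8.Stm

/-!
# Project T4 (MP_a3214d), even order, block C: statements of the analytic part
-/

set_option autoImplicit false

open scoped BigOperators Topology
open Filter

namespace Pool.Agent.EV

open Pool.Agent.H98.MK (sg)
open Pool.Agent.H98.MF
open Pool.Agent.H32.MQ (El)
open Pool.Agent.D8 (pat Tk ls ad)

/-! ### the pattern theorem -/

open Classical in
/-- the sums over isolated variables -/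
def SInn : Prop := ∀ (S : Sys) (ι : Type) [Fintype ι] (B : ℝ),
  ∃ C E : ℝ, 0 ≤ C ∧ 0 ≤ E ∧ ∀ (τ : S.P → ℝ) (c : ι → El S) (M : Finset S.P), Tk S B τ →
    (∀ u, (c u).2 ⊆ M) → ∀ σ : ℝ, 0 < σ → σ ≤ 1 →
    |∑' x : ι → Finset S.P, (if S.Dj x ∧ Off S M x then
      ((sg (∑ u, ∑ p ∈ x u, xc (c u) p) : ℤ) : ℝ) *
        ∏ u, ∏ p ∈ x u, (τ p * (S.N p : ℝ) ^ (-(1 + σ))) else 0)| ≤
      C * (1 + Real.log (S.nm M)) ^ E * ls S M ^ E *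
        σ ^ (-((Finset.univ.filter fun u => c u = (0, ∅)).card : ℝ))

/-- all terms are summable -/
def SSm : Prop := ∀ (S : Sys) (ι : Type) [Fintype ι] (b : ι → ι → ZMod 2) (c : ι → El S)
  (M : Finset S.P) (B : ℝ) (τ : S.P → ℝ), Tk S B τ →
  ∀ σ : ℝ, 0 < σ → Summable fun x : ι → Finset S.P => |Kt τ (1 + σ) b c M x|

open Classical in
/-- the characters of the large variables given the small ones -/
def SCh1 : Prop := ∀ (S : Sys) (ι : Type) [Fintype ι] (b : ι → ι → ZMod 2) (c : ι → El S)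
  (M : Finset S.P), (∀ u, b u u = 0) → (∀ u v, b u v = 0 ∨ b v u = 0) →
  (∀ u, (c u).2 ⊆ M) →
  ∀ (I : Finset ι) (y : ι → Finset S.P), (∀ u ∈ I, ∀ v ∈ I, ¬ Lk b u v) →
  (∀ u ∈ I, y u = ∅) → S.Dj y → Off S M y →
  ∃ (c' : ι → El S) (M' : Finset S.P), (∀ u, (c' u).2 ⊆ M') ∧
    (∀ p, p ∈ M' ↔ (p ∈ M ∨ ∃ u, p ∈ y u)) ∧
    (∀ u ∈ I, (c' u = (0, ∅) ↔ (c u = (0, ∅) ∧ ∀ v, Lk b u v → y v = ∅))) ∧
    ∀ x : ι → Finset S.P, (∀ u, u ∉ I → x u = ∅) →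
      ((S.Dj (fun u => x u ∪ y u) ∧ Off S M (fun u => x u ∪ y u)) ↔ (S.Dj x ∧ Off S M' x)) ∧
      (S.Dj x → Off S M' x → EE b c (fun u => x u ∪ y u) =
        EE b c y + ∑ u, ∑ p ∈ x u, xc (c' u) p)

open Classical in
/-- the pattern theorem, for coefficients moved to one side -/
def SPat : Prop := ∀ (S : Sys) (ι : Type) [Fintype ι] (b : ι → ι → ZMod 2) (B : ℝ),
  (∀ u, b u u = 0) → (∀ u v, b u v = 0 ∨ b v u = 0) → ∃ E : ℝ, 0 ≤ E ∧ ∀ ε : ℝ, 0 < ε →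
  ∃ C : ℝ, 0 ≤ C ∧ ∀ (τ : S.P → ℝ) (c : ι → El S) (M : Finset S.P), Tk S B τ →
  (∀ u, (c u).2 ⊆ M) → ∀ (U : Finset ι) (σ : ℝ), 0 < σ → σ ≤ 1 →
    |PS τ (1 + σ) b c M U| ≤ C * (S.nm M : ℝ) ^ ε *
      (if iso b U = U then 1 else (1 + Real.log (1 / σ)) ^ E) * σ ^ (-(wt b c U : ℝ))

/-! ### combinatorics -/

open Classical in
/-- the number of isolated types with trivial character; the shifts `η` depend only on the vector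
for isolated types -/
def SComb : Prop := ∀ (S : Sys) (d n : ℕ) (Bd : BD d n) (R : Finset (VV d))
  (c : VV d → VV n → El S) (Φ : Finset R → Prop), Adc c → Gen Bd R c Φ →
  ∀ (η : R × VV n → El S) (U : Finset (R × VV n)),
  (∀ u ∈ iso (bz Bd R) U, ∀ u' ∈ iso (bz Bd R) U, u.1 = u'.1 → η u = η u') →
  Φ (U.image Prod.fst) →
    wt (bz Bd R) (fun u => ad (cz R c u) (η u)) U ≤ bV Bd R c ∧
    (iso (bz Bd R) U ≠ U → wt (bz Bd R) (fun u => ad (cz R c u) (η u)) U < bV Bd R c) ∧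
    (wt (bz Bd R) (fun u => ad (cz R c u) (η u)) U = bV Bd R c →
      U.image Prod.fst = Finset.univ)

open Classical in
/-- the maximal sets of unlinked types -/
def SFull : Prop := ∀ (d n : ℕ) (Bd : BD d n) (R : Finset (VV d)) (U : Finset (R × VV n)),
  (U.image Prod.fst = Finset.univ → iso (bz Bd R) U = U →
    ∃ ψ, Fam Bd R ψ ∧ (∀ u ∈ U, ∀ w : R, u.2 ⬝ᵥ Bd.B w u.1 = ψ w u.1) ∧
      ∀ ψ', Fam Bd R ψ' → (∀ u ∈ U, ∀ w : R, u.2 ⬝ᵥ Bd.B w u.1 = ψ' w u.1) → ψ' = ψ) ∧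
  (∀ ψ, Fam Bd R ψ → (∀ u ∈ U, ∀ w : R, u.2 ⬝ᵥ Bd.B w u.1 = ψ w u.1) →
    iso (bz Bd R) U = U) ∧
  Fam Bd R 0 ∧ ∀ ψ ψ', Fam Bd R ψ → Fam Bd R ψ' → Fam Bd R (ψ + ψ')

open Classical in
/-- the exponent on a set of unlinked types -/
def SPh : Prop := ∀ (S : Sys) (d n : ℕ) (Bd : BD d n) (R : Finset (VV d))
  (ψ : R → R → ZMod 2), Fam Bd R ψ → ∀ x : R × VV n → Finset S.P, S.Dj x →
  (∀ u, (x u).Nonempty → ∀ w : R, u.2 ⬝ᵥ Bd.B w u.1 = ψ w u.1) →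
  ∑ u, ∑ v, bz Bd R u v * S.JJ (x u) (x v) =
    ph R ψ (fun v => ∑ ζ : VV n, S.tys (x (v, ζ)))

open Classical in
/-- expansion of the sum in types -/
def SExpd : Prop := ∀ (S : Sys) (d n : ℕ) (Bd : BD d n) (R : Finset (VV d))
  (c : VV d → VV n → El S) (M : Finset S.P) (Φ : Finset R → Prop) (θ : (R → S.T) → ℝ)
  (B : ℝ) (τ : S.P → ℝ), Tk S B τ → Adc c →
  ∃ th : Finset (R × VV n) → (R × VV n → S.T) → ℝ, (∀ U η, |th U η| ≤ ∑ t : R → S.T, |θ t|) ∧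
    (∀ U η, th U η ≠ 0 → ∀ u ∈ iso (bz Bd R) U, ∀ u' ∈ iso (bz Bd R) U, u.1 = u'.1 →
      η u = η u') ∧
    ∀ σ : ℝ, 0 < σ →
    (Summable fun x : R → Finset S.P => if S.Dj x ∧ Off S M x ∧ okc Bd R c x ∧ Φ (pat x)
      then θ (fun v => S.tys (x v)) *
        ∏ v, ∏ p ∈ x v, ((2 : ℝ) ^ n * τ p * (S.N p : ℝ) ^ (-(1 + σ))) else 0) ∧
    FF Bd R c M Φ θ τ (1 + σ) = ∑ U : Finset (R × VV n), if Φ (U.image Prod.fst)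
      then ∑ η : R × VV n → S.T, th U η *
        PS τ (1 + σ) (b1 Bd R) (fun u => ad (cz R c u) (η u, ∅)) M U else 0

open Classical in
/-- expansion of the sum in types, the kernels being left as they are -/
def SExp0 : Prop := ∀ (S : Sys) (d n : ℕ) (Bd : BD d n) (R : Finset (VV d))
  (c : VV d → VV n → El S) (M : Finset S.P) (Φ : Finset R → Prop) (θ : (R → S.T) → ℝ)
  (B : ℝ) (τ : S.P → ℝ), Tk S B τ → Adc c → ∀ σ : ℝ, 0 < σ →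
    (Summable fun x : R → Finset S.P => if S.Dj x ∧ Off S M x ∧ okc Bd R c x ∧ Φ (pat x)
      then θ (fun v => S.tys (x v)) *
        ∏ v, ∏ p ∈ x v, ((2 : ℝ) ^ n * τ p * (S.N p : ℝ) ^ (-(1 + σ))) else 0) ∧
    FF Bd R c M Φ θ τ (1 + σ) = ∑ U : Finset (R × VV n), if Φ (U.image Prod.fst)
      then ∑' x : R × VV n → Finset S.P, (if pat x = U
        then θ (fun v => ∑ ζ : VV n, S.tys (x (v, ζ))) *
          Kt τ (1 + σ) (bz Bd R) (cz R c) M x else 0) else 0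

/-- the uniform bound -/
def SUni : Prop := ∀ (S : Sys) (d n : ℕ) (Bd : BD d n) (R : Finset (VV d)) (B ε : ℝ),
  0 < ε → ∃ C : ℝ, 0 ≤ C ∧
  ∀ (τ : S.P → ℝ) (c : VV d → VV n → El S) (M : Finset S.P) (Φ : Finset R → Prop),
    Tk S B τ → Adc c → (∀ v ζ, (c v ζ).2 ⊆ M) → Gen Bd R c Φ → ∀ σ : ℝ, 0 < σ → σ ≤ 1 →
    FF Bd R c M Φ (fun _ => 1) τ (1 + σ) ≤ C * (S.nm M : ℝ) ^ ε * σ ^ (-(bV Bd R c : ℝ))

/-! ### the main term for a fixed frame -/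

/-- limits of prime sums -/
def SPl : Prop := ∀ (S : Sys),
  (∃ L : ℝ, Tendsto (fun σ : ℝ => ∑' p : S.P, (S.N p : ℝ) ^ (-(1 + σ)) - Real.log (1 / σ))
    (𝓝[>] 0) (𝓝 L)) ∧
  ∀ c : S.T, c ≠ 0 → ∃ L : ℝ, Tendsto (fun σ : ℝ =>
    ∑' p : S.P, ((sg (c ⬝ᵥ S.ty p) : ℤ) : ℝ) * (S.N p : ℝ) ^ (-(1 + σ))) (𝓝[>] 0) (𝓝 L)

open Classical in
/-- sums over disjoint families are Euler products -/
def SEu : Prop := ∀ (P ι : Type) [Fintype ι] (w : ι → P → ℝ) (a : P → ℝ),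
  (∀ u p, |w u p| ≤ a p) → Summable a →
  (Summable fun x : ι → Finset P => if Pool.Agent.D8.DjP x then ∏ u, ∏ p ∈ x u, w u p else 0) ∧
  ∑' x : ι → Finset P, (if Pool.Agent.D8.DjP x then ∏ u, ∏ p ∈ x u, w u p else 0) =
    ∏' p : P, (1 + ∑ u, w u p) ∧
  |∏' p : P, (1 + ∑ u, w u p)| ≤
    Real.exp (∑' p : P, ∑ u, w u p + (Fintype.card ι : ℝ) ^ 2 * ∑' p : P, a p ^ 2)

/-- limits of Euler products -/
def SGE1 : Prop := ∀ (S : Sys) (ι : Type) [Fintype ι] (f : ι → S.T → ℝ) (B : ℝ)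
  (τ : S.P → ℝ) (b : ℕ), Tk S B τ →
  (mu f < b → Tendsto (fun σ : ℝ => σ ^ b * GE (fun _ => 1) f τ (1 + σ)) (𝓝[>] 0) (𝓝 0)) ∧
  (mu f = b → ∃ L : ℝ, Tendsto (fun σ : ℝ => σ ^ b * GE (fun _ => 1) f τ (1 + σ))
    (𝓝[>] 0) (𝓝 L)) ∧
  (mu f = b → (∀ u t, 0 ≤ f u t) → ∃ L : ℝ, 0 < L ∧
    Tendsto (fun σ : ℝ => σ ^ b * GE (fun _ => 1) f τ (1 + σ)) (𝓝[>] 0) (𝓝 L))

open Classical in
/-- the main term: reduction to Euler products -/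
def SMainA : Prop := ∀ (S : Sys) (d n : ℕ) (Bd : BD d n) (R : Finset (VV d))
  (c : VV d → VV n → S.T) (Φ : Finset R → Prop) (θ : (R → S.T) → ℝ) (B : ℝ) (τ : S.P → ℝ),
  Tk S B τ → (∀ v ζ ζ', c v (ζ + ζ') = c v ζ + c v ζ') → Gen Bd R (cT (S := S) c) Φ →
  Φ Finset.univ →
  Tendsto (fun σ : ℝ => σ ^ bV Bd R (cT (S := S) c) *
    (FF Bd R (cT c) ∅ Φ θ τ (1 + σ) - ∑ ψ ∈ Fams Bd R,
      GE (fun t => θ t * ((sg (ph R ψ t) : ℤ) : ℝ)) (gψ Bd R c ψ) τ (1 + σ))) (𝓝[>] 0) (𝓝 0)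

open Classical in
/-- factorisation of the local factors -/
def SGfac : Prop := ∀ (S : Sys) (d n : ℕ) (Bd : BD d n) (R : Finset (VV d))
  (c : VV d → VV n → S.T), (∀ v ζ ζ', c v (ζ + ζ') = c v ζ + c v ζ') →
  ∃ (w : R → S.T → ℝ) (φ : (R → R → ZMod 2) → R → S.T → ZMod 2),
    (∀ v t, 0 ≤ w v t) ∧ (∀ v, 0 < w v 0) ∧
    (∀ v : R, (1 / (2 : ℝ) ^ S.m) * ∑ t : S.T, w v t = nv Bd R (cT (S := S) c) v) ∧
    (∀ ψ, Fam Bd R ψ → ∀ v t, gψ Bd R c ψ v t = w v t * ((sg (φ ψ v t) : ℤ) : ℝ)) ∧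
    (∀ ψ ψ', Fam Bd R ψ → Fam Bd R ψ' → ∀ v t, w v t ≠ 0 →
      φ (ψ + ψ') v t = φ ψ v t + φ ψ' v t) ∧
    (∀ ψ, Fam Bd R ψ → ∀ v t t', φ ψ v (t + t') = φ ψ v t + φ ψ v t') ∧
    (∀ v t t', w v t ≠ 0 → w v t' ≠ 0 → w v (t + t') ≠ 0) ∧
    ∀ (v : R) (t : S.T) (a : R → ZMod 2),
      (∀ ζ : VV n, c v ζ ⬝ᵥ t = ∑ w : R, a w * (ζ ⬝ᵥ Bd.B w v)) →
      w v t ≠ 0 ∧ ∀ ψ, Fam Bd R ψ → φ ψ v t = ∑ w : R, a w * ψ w v

open Classical in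
/-- limit and positivity of the main term -/
def SMainL : Prop := ∀ (S : Sys) (d n : ℕ) (Bd : BD d n) (R : Finset (VV d))
  (c : VV d → VV n → S.T) (θ : (R → S.T) → ℝ) (B : ℝ) (τ : S.P → ℝ), Tk S B τ →
  (∀ v ζ ζ', c v (ζ + ζ') = c v ζ + c v ζ') → (∀ t, 0 ≤ θ t) → (∀ p, 0 < τ p) →
  ∃ L : ℝ, 0 ≤ L ∧ Tendsto (fun σ : ℝ => σ ^ bV Bd R (cT (S := S) c) *
      ∑ ψ ∈ Fams Bd R, GE (fun t => θ t * ((sg (ph R ψ t) : ℤ) : ℝ)) (gψ Bd R c ψ) τ (1 + σ))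
      (𝓝[>] 0) (𝓝 L) ∧
    ((∃ x : R → Finset S.P, S.Dj x ∧ okc Bd R (cT (S := S) c) x ∧
      0 < θ (fun v => S.tys (x v))) → 0 < L)

/-- the result for a fixed frame -/
def SMain : Prop := ∀ (S : Sys) (d n : ℕ) (Bd : BD d n) (R : Finset (VV d))
  (c : VV d → VV n → S.T) (Φ : Finset R → Prop) (θ : (R → S.T) → ℝ) (B : ℝ) (τ : S.P → ℝ),
  Tk S B τ → (∀ v ζ ζ', c v (ζ + ζ') = c v ζ + c v ζ') → Gen Bd R (cT (S := S) c) Φ →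
  Φ Finset.univ → (∀ t, 0 ≤ θ t) → (∀ p, 0 < τ p) →
  ∃ L : ℝ, 0 ≤ L ∧ Tendsto (fun σ : ℝ => σ ^ bV Bd R (cT (S := S) c) *
      FF Bd R (cT c) ∅ Φ θ τ (1 + σ)) (𝓝[>] 0) (𝓝 L) ∧
    ((∃ x : R → Finset S.P, S.Dj x ∧ okc Bd R (cT (S := S) c) x ∧
      0 < θ (fun v => S.tys (x v))) → 0 < L)

/-! ### the central part -/

open Classical in
/-- sums over tuples of ideals -/
def SDiv : Prop := ∀ (S : Sys) (ι : Type) [Fintype ι] [Nonempty ι],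
  ∃ C : ℝ, 0 ≤ C ∧ ∀ (c : ι → S.T) (Y : ℝ), 1 ≤ Y →
    |DD c Y - (if ∀ u, c u = 0 then S.κ ^ Fintype.card ι / ((Fintype.card ι - 1).factorial : ℝ) *
        (Y * Real.log Y ^ (Fintype.card ι - 1)) else 0)| ≤
      C * Y * (1 + Real.log Y) ^ ((Fintype.card ι : ℝ) - 3 / 2)

/-- comparison of families and ideals -/
def SCmp : Prop := ∀ (S : Sys) (ι : Type) [Fintype ι],
  ∃ A0 C κ0 : ℝ, 0 ≤ A0 ∧ 0 ≤ C ∧ 0 < κ0 ∧ ∀ (c : ι → S.T) (y : Finset S.P),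
    ∃ h : (S.P →₀ ℕ) → ℝ,
      (Summable fun f => |h f| * (S.nf f : ℝ) ^ (-(3 / 4) : ℝ)) ∧
      ∑' f, |h f| * (S.nf f : ℝ) ^ (-(3 / 4) : ℝ) ≤ C * lo A0 y ∧
      (∀ Y : ℝ, 1 ≤ Y → CCc y c Y = ∑ f ∈ S.idl Y, h f * DD c (Y / S.nf f)) ∧
      ((∀ u, c u = 0) → ∑' f, h f * ((S.nf f : ℝ)⁻¹) = κ0 * ty0 ι y)

open Classical in
/-- the number of central families -/
def SCc : Prop := ∀ (S : Sys) (ι : Type) [Fintype ι] [Nonempty ι],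
  ∃ κ1 A0 C : ℝ, 0 < κ1 ∧ 0 ≤ A0 ∧ 0 ≤ C ∧ ∀ (y : Finset S.P)
  (g : (ι → S.T) → ℝ), (∀ t, |g t| ≤ 1) → ∀ Y : ℝ, 1 ≤ Y →
    |CC y g Y - κ1 * ((1 / ((2 : ℝ) ^ S.m) ^ Fintype.card ι) * ∑ t : ι → S.T, g t) *
      ty0 ι y * (Y * Real.log Y ^ (Fintype.card ι - 1))| ≤
      C * lo A0 y * Y * (1 + Real.log Y) ^ ((Fintype.card ι : ℝ) - 3 / 2)

/-! ### the two results used in the assembly -/

open Classical in
/-- the asymptotic formula for a fixed frame -/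
def SFix : Prop := ∀ (S : Sys) (d n : ℕ) (Bd : BD d n) (R : Finset (VV d))
  (c : VV d → VV n → S.T) (Φ : Finset R → Prop) (θ : (R → S.T) → ℝ)
  (g : (R → Finset S.P) → (Fin n → S.T) → ℝ), 1 ≤ n →
  (∀ v ζ ζ', c v (ζ + ζ') = c v ζ + c v ζ') → Gen Bd R (cT (S := S) c) Φ → Φ Finset.univ →
  (∀ x t, 0 ≤ g x t ∧ g x t ≤ 1) → (∀ t, 0 ≤ θ t) →
  (∀ x, S.Dj x → okc Bd R (cT (S := S) c) x →
    (1 / ((2 : ℝ) ^ S.m) ^ n) * ∑ t : Fin n → S.T, g x t = θ (fun v => S.tys (x v))) →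
  ∃ L : ℝ, 0 ≤ L ∧ Tendsto (fun Y : ℝ => NN Bd R (cT (S := S) c) ∅ Φ g Y /
      (Y * Real.log Y ^ (bV Bd R (cT (S := S) c) + (RZ n).card - 1))) atTop (𝓝 L) ∧
    ((∃ x : R → Finset S.P, S.Dj x ∧ okc Bd R (cT (S := S) c) x ∧
      0 < θ (fun v => S.tys (x v))) → 0 < L)

open Classical in
/-- the uniform bound -/
def SUnf : Prop := ∀ (S : Sys) (d n : ℕ) (Bd : BD d n) (R : Finset (VV d)) (ε : ℝ),
  1 ≤ n → 0 < ε → ∃ C : ℝ, 0 ≤ C ∧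
  ∀ (c : VV d → VV n → El S) (M : Finset S.P) (Φ : Finset R → Prop),
    Adc c → (∀ v ζ, (c v ζ).2 ⊆ M) → Gen Bd R c Φ →
    ∀ Y : ℝ, 2 ≤ Y → NN Bd R c M Φ (fun _ _ => 1) Y ≤
      C * (S.nm M : ℝ) ^ ε * (Y * Real.log Y ^ (bV Bd R c + (RZ n).card - 1))

end Pool.Agent.EV
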