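import Pool.Agent.EV.ADefs
import Pool.Agent.EV.CStm

/-!
# Project T4 (MP_a3214d), even order: the uniform inner statement, definitions and statements

`ρs` is one element of the set to be counted. The other elements are `ρs σ * (s (a σ) * zz (f σ))`
with `a` additive; the coordinates of `a` are the unit coordinates `y`, the vectors `xs` of the
tame inertia of `ρs` outside `M`, and the sets `X v` of the primes outside `M` with inertia
above `v`.
-/

set_option autoImplicit false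

open scoped BigOperators
open NumberField IsDedekindDomain

namespace Pool.Agent.EV

open Pool.Agent.H98.MF
open Pool.Agent.H98.MK (sg)
open Pool.Agent.H32.MQ (El rep co)
open Pool.Agent.D8 (pat RxF)
open Pool.Agent.H92.EL (Om1 Ncl TM InnU)

section

variable {k : Type} [Field k] [NumberField k] (F : Frm k) (Rk : RxF k) {G : Type} [Group G]
  (D : GD G)

/-- surjective homomorphisms congruent to `ρs`, with the same tame generators at `M` and
inertia of order at most two outside `S` and `M` -/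
structure UA (ρs : Gm k →* G) (M : Finset F.sys.P) (ρ : Gm k →* G) : Prop where
  sur : Function.Surjective ρ
  lc : IsLocallyConstant ρ
  sim : D.Sim ρs ρ
  inM : ∀ p ∈ M, ρ (Rk.tau (F.pl p)) = ρs (Rk.tau (F.pl p))
  out : ∀ p, p ∉ M → ρ (Rk.tau (F.pl p)) ^ 2 = 1

/-- the ramification of the base point outside `M` -/
structure XS (ρs : Gm k →* G) (M : Finset F.sys.P) (xs : F.I →₀ VV D.d) : Prop where
  unit : ∀ j, xs (Sum.inl j) = 0
  inM : ∀ p ∈ M, xs (Sum.inr p) = 0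
  out : ∀ p, p ∉ M → ∃ x, ρs (Rk.tau (F.pl p)) = D.s (xs (Sum.inr p)) * D.zz x

/-- coordinates of a homomorphism -/
structure UC (ρs : Gm k →* G) (M : Finset F.sys.P) (xs : F.I →₀ VV D.d)
    (y : Fin F.sys.m → VV D.d) (X : D.R → Finset F.sys.P) (f : Gm k → VV D.n)
    (ρ : Gm k →* G) : Prop where
  dj : F.sys.Dj X
  off : Off F.sys M X
  isr : IsR D ρs (F.par (xo F y X + xs)) f
  eq : ∀ σ, ρ σ = ρs σ * (D.s (F.par (xo F y X + xs) σ) * D.zz (f σ))
  mem : ∀ (v : D.R) (p : F.sys.P), p ∈ X v ↔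
    (p ∉ M ∧ ∃ x, ρ (Rk.tau (F.pl p)) = D.s v * D.zz x)

/-- the classes of the outer characters: `ζ` composed with the commutator with `v` -/
structure UCl (ρs : Gm k →* G) (M : Finset F.sys.P) (xs : F.I →₀ VV D.d)
    (y : Fin F.sys.m → VV D.d) (c : VV D.d → VV D.n → El F.sys) : Prop where
  add : Adc c
  sub : ∀ v ζ, (c v ζ).2 ⊆ M
  eq : ∀ v ζ σ, chi (rep F (c v ζ) : k) σ =
    ζ ⬝ᵥ (D.c (ρs σ) v + D.Bd.B (F.parU y σ + F.par xs σ) v)

/-- the homomorphisms with given unit coordinates and bounded ramification outside `M` -/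
def US (ρs : Gm k →* G) (M : Finset F.sys.P) (xs : F.I →₀ VV D.d)
    (y : Fin F.sys.m → VV D.d) (Y : ℝ) : Set (Gm k →* G) :=
  {ρ | UA F Rk D ρs M ρ ∧ (∃ X f, UC F Rk D ρs M xs y X f ρ) ∧
    ∃ A : Finset F.sys.P, (∀ p, p ∈ A ↔ (p ∉ M ∧ ρ (Rk.tau (F.pl p)) ≠ 1)) ∧
      (F.sys.nm A : ℝ) ≤ Y}

end

/-- the patterns for which the dual vectors of trivial class are as expected -/
def Pc {S : Sys} {d n : ℕ} (Bd : BD d n) (R : Finset (VV d)) (c : VV d → VV n → El S)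
    (U : Finset R) : Prop :=
  ∀ v ∈ R, ∀ ζ : VV n, c v ζ = (0, ∅) → (∀ w ∈ U, ζ ⬝ᵥ Bd.B w v = 0) →
    ∀ w : R, ζ ⬝ᵥ Bd.B w v = 0

open Classical in
/-- the dual vectors vanishing on the commutators with `v` -/
noncomputable def nvG {G : Type} [Group G] (D : GD G) (v : VV D.d) : ℕ :=
  (Finset.univ.filter fun ζ : VV D.n => ∀ g, ζ ⬝ᵥ D.c g v = 0).card

/-! ### statements -/

/-- UN0: the number of classes of involutions -/
def SUb : Prop := ∀ (G : Type) [Group G] [Finite G] (D : GD G),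
  ∑ v ∈ D.R, nvG D v + (RZ D.n).card = D.b

section

variable (k : Type) [Field k] [NumberField k]

/-- UN1: the ramification of the base point -/
def SUxs : Prop := ∀ (F : Frm k) (Rk : RxF k) (G : Type) [Group G] [Finite G] (D : GD G),
  IsPGroup 2 G → ∀ (ρs : Gm k →* G) (M : Finset F.sys.P), UA F Rk D ρs M ρs →
    ∃ xs : F.I →₀ VV D.d, XS F Rk D ρs M xs

/-- UN2: coordinates -/
def SUco : Prop := ∀ (F : Frm k) (Rk : RxF k) (G : Type) [Group G] [Finite G] (D : GD G),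
  IsPGroup 2 G → ∀ (ρs : Gm k →* G) (M : Finset F.sys.P) (xs : F.I →₀ VV D.d),
  UA F Rk D ρs M ρs → XS F Rk D ρs M xs → ∀ ρ, UA F Rk D ρs M ρ →
    ∃ y X f, UC F Rk D ρs M xs y X f ρ

/-- UN3: the classes of the outer characters -/
def SUcl : Prop := ∀ (F : Frm k) (Rk : RxF k) (G : Type) [Group G] [Finite G] (D : GD G),
  IsPGroup 2 G → ∀ (ρs : Gm k →* G) (M : Finset F.sys.P) (xs : F.I →₀ VV D.d),
  UA F Rk D ρs M ρs → XS F Rk D ρs M xs → ∀ y, ∃ c, UCl F D ρs M xs y c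

/-- UN4: the local conditions -/
def SUok : Prop := ∀ (F : Frm k) (Rk : RxF k) (G : Type) [Group G] [Finite G] (D : GD G),
  IsPGroup 2 G → ∀ (ρs : Gm k →* G) (M : Finset F.sys.P) (xs : F.I →₀ VV D.d)
  (y : Fin F.sys.m → VV D.d) (c : VV D.d → VV D.n → El F.sys), UCl F D ρs M xs y c →
  ∀ ρ X f, UA F Rk D ρs M ρ → UC F Rk D ρs M xs y X f ρ → okc D.Bd D.R c X

/-- UN5: the patterns, and the exponent -/
def SUph : Prop := ∀ (F : Frm k) (Rk : RxF k) (G : Type) [Group G] [Finite G] (D : GD G)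
  (ρs : Gm k →* G) (M : Finset F.sys.P) (xs : F.I →₀ VV D.d)
  (y : Fin F.sys.m → VV D.d) (c : VV D.d → VV D.n → El F.sys), UCl F D ρs M xs y c →
  ∀ ρ X f, UA F Rk D ρs M ρ → UC F Rk D ρs M xs y X f ρ →
    Pc D.Bd D.R c (pat X) ∧ ∀ v ∈ D.R, nv D.Bd D.R c v ≤ nvG D v

/-- UN6: the number of homomorphisms -/
def SUnc : Prop := ∀ (F : Frm k) (Rk : RxF k) (G : Type) [Group G] [Finite G] (D : GD G),
  IsPGroup 2 G → ∀ (ρs : Gm k →* G) (M : Finset F.sys.P) (xs : F.I →₀ VV D.d)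
  (y : Fin F.sys.m → VV D.d) (c : VV D.d → VV D.n → El F.sys) (Φ : Finset D.R → Prop),
  XS F Rk D ρs M xs → (∀ ρ X f, UA F Rk D ρs M ρ → UC F Rk D ρs M xs y X f ρ →
    okc D.Bd D.R c X ∧ Φ (pat X)) → ∀ Y : ℝ, 1 ≤ Y →
    (US F Rk D ρs M xs y Y).Finite ∧ ((US F Rk D ρs M xs y Y).ncard : ℝ) ≤
      ((2 : ℝ) ^ D.n) ^ F.sys.m * NN D.Bd D.R c M Φ (fun _ _ => 1) Y

/-- UN7: the uniform bound for the trivial form -/
def SUn0 : Prop := ∀ (S : Sys) (d : ℕ) (Bd : BD d 0) (R : Finset (VV d)), R.Nonempty →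
  ∃ C : ℝ, 0 ≤ C ∧ ∀ (c : VV d → VV 0 → El S) (M : Finset S.P) (Φ : Finset R → Prop)
    (Y : ℝ), 2 ≤ Y → NN Bd R c M Φ (fun _ _ => 1) Y ≤
      C * (Y * Real.log Y ^ (R.card - 1))

/-- UN8: the uniform inner statement -/
def SInnU : Prop := ∀ (T : TM k) (G : Type) [Group G] [Finite G] (D : GD G), IsPGroup 2 G →
  2 ∣ Nat.card G → InnU T G 2 D.b

end

end Pool.Agent.EV
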