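import Pool.Agent.EV.AStm
import Pool.Agent.EV.UStm

/-!
# Project T4 (MP_a3214d), even order: the two inner statements, assembly
-/

set_option autoImplicit false

open scoped BigOperators Topology
open NumberField IsDedekindDomain Filter

namespace Pool.Agent.EV

open Pool.Agent.H98.MF
open Pool.Agent.D8 (RxF)
open Pool.Agent.H92.EL (TM Om1 Ncl Zt Ctn Hk HLo Cg nO HI InnF InnU Hyp)

theorem afin_dvd {G : Type} [Group G] (hG : P2 G) (h1 : ∃ g : G, g ≠ 1) : 2 ∣ Nat.card G := by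
  obtain ⟨hf, j, hj⟩ := hG
  obtain ⟨g, hg⟩ := h1
  rcases j with _ | j
  · exfalso
    rw [pow_zero] at hj
    have h2 := Nat.card_eq_one_iff_unique.1 hj
    exact hg (h2.1.elim g 1)
  · rw [hj, pow_succ]
    exact Dvd.intro_left _ rfl

/-- 2-groups -/
theorem inn_two (hD : SgD) (hF : SeF2) (hA : SeAb)
    (hU : ∀ (k : Type) [Field k] [NumberField k], SInnU k) :
    ∀ (k : Type) [Field k] [NumberField k] (T : TM k) (G : Type) [Group G], P2 G → Zt 2 G →
      (∃ g : G, g ≠ 1) →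
      InnF T G 2 (Nat.card (Ncl 2 G)) ∧ InnU T G 2 (Nat.card (Ncl 2 G)) := by
  intro k _ _ T G _ hG hZ h1
  by_cases h2 : ∃ g : G, g * g ≠ 1
  · obtain ⟨D, hn⟩ := hD G hG hZ h2
    have : Finite G := hG.1
    obtain ⟨j, hj⟩ := hG.2
    exact ⟨hF k T G D hG hn, hU k T G D (IsPGroup.of_card hj) (afin_dvd hG h1)⟩
  · push Not at h2
    exact hA k T G hG.1 h2 h1

/-- nilpotent groups of even order -/
theorem inn_even (hD : SgD) (hF : SeF2) (hA : SeAb)
    (hU : ∀ (k : Type) [Field k] [NumberField k], SInnU k) (hN : SeNil) :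
    ∀ (k : Type) [Field k] [NumberField k] (T : TM k) (G : Type) [Group G], Hyp 2 G → Zt 2 G →
      InnF T G 2 (Nat.card (Ncl 2 G)) ∧ InnU T G 2 (Nat.card (Ncl 2 G)) :=
  hN (inn_two hD hF hA hU)

end Pool.Agent.EV
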