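import Pool.Agent.EV.AStm
import Pool.Agent.H98.MF.ParK

/-!
# Project T4 (MP_a3214d), even order, A1: homomorphisms congruent to a given one and cochains
-/

set_option autoImplicit false

open scoped BigOperators Topology
open NumberField IsDedekindDomain Filter

namespace Pool.Agent.EV

open Pool.Agent.H98.MF

private theorem apar_lc {X A B : Type*} [TopologicalSpace X] {e : X → A} {a : X → B}
    (he : IsLocallyConstant e) (h : ∀ x y, e x = e y → a x = a y) : IsLocallyConstant a :=
  (IsLocallyConstant.iff_eventually_eq a).2 fun x =>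
    ((IsLocallyConstant.iff_eventually_eq e).1 he x).mono fun y hy => h y x hy

private theorem apar_lc3 {X A B C E : Type*} [TopologicalSpace X] {e : X → A} {f : X → B}
    {g : X → C} {a : X → E} (he : IsLocallyConstant e) (hf : IsLocallyConstant f)
    (hg : IsLocallyConstant g) (h : ∀ x y, e x = e y → f x = f y → g x = g y → a x = a y) :
    IsLocallyConstant a :=
  (IsLocallyConstant.iff_eventually_eq a).2 fun x => by
    filter_upwards [(IsLocallyConstant.iff_eventually_eq e).1 he x,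
      (IsLocallyConstant.iff_eventually_eq f).1 hf x,
      (IsLocallyConstant.iff_eventually_eq g).1 hg x] with y h1 h2 h3
    exact h y x h1 h2 h3

private theorem apar_move {G : Type} [Group G] (D : GD G) (r t : G) (v w : VV D.d)
    (x y : VV D.n) :
    r * (D.s v * D.zz x) * (t * (D.s w * D.zz y)) =
      r * t * (D.s (v + w) * D.zz (x + y + D.β v w + D.c t v)) := by
  have h1 : D.s v * D.zz x * t = t * (D.s v * D.zz (D.c t v + x)) := by
    rw [mul_assoc, D.zz_cen, ← mul_assoc, D.com, D.zz_add]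
    simp only [mul_assoc]
  calc r * (D.s v * D.zz x) * (t * (D.s w * D.zz y))
      = r * (D.s v * D.zz x * t) * (D.s w * D.zz y) := by simp only [mul_assoc]
    _ = r * (t * (D.s v * D.zz (D.c t v + x))) * (D.s w * D.zz y) := by rw [h1]
    _ = r * t * (D.s v * D.zz (D.c t v + x) * (D.s w * D.zz y)) := by simp only [mul_assoc]
    _ = r * t * (D.s (v + w) * D.zz (D.c t v + x + y + D.β v w)) := by rw [D.mul_sz]
    _ = _ := by
      have h2 : D.c t v + x + y + D.β v w = x + y + D.β v w + D.c t v := by abel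
      rw [h2]

theorem saPar : SaPar := by
  intro k _ _ F G _ D ρ hρ
  refine ⟨?_, ?_, ?_⟩
  · intro ρ' hρ' hS
    have hS' : ∀ σ, ∃ v x, ρ' σ = ρ σ * (D.s v * D.zz x) := hS
    choose a f h using hS'
    have he : IsLocallyConstant fun σ => ((ρ σ)⁻¹ * ρ' σ : G) := hρ.inv.mul hρ'
    have hval : ∀ σ, (ρ σ)⁻¹ * ρ' σ = D.s (a σ) * D.zz (f σ) := by
      intro σ
      rw [h σ, inv_mul_cancel_left]
    have hfac : ∀ σ τ, (ρ σ)⁻¹ * ρ' σ = (ρ τ)⁻¹ * ρ' τ → a σ = a τ ∧ f σ = f τ := by
      intro σ τ h1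
      rw [hval, hval] at h1
      exact D.sz_inj h1
    have ha : IsLocallyConstant a := apar_lc he fun σ τ h1 => (hfac σ τ h1).1
    have hf : IsLocallyConstant f := apar_lc he fun σ τ h1 => (hfac σ τ h1).2
    have hmul : ∀ σ τ, a (σ * τ) = a σ + a τ ∧
        f (σ * τ) = f σ + f τ + D.β (a σ) (a τ) + D.c (ρ τ) (a σ) := by
      intro σ τ
      have h1 : ρ' (σ * τ) = ρ' σ * ρ' τ := map_mul _ _ _
      rw [h (σ * τ), h σ, h τ, apar_move, map_mul] at h1
      exact D.sz_inj (mul_left_cancel h1)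
    obtain ⟨x, hx⟩ := F.par_exists a ha fun σ τ => (hmul σ τ).1
    subst hx
    have hR : IsR D ρ (F.par x) f := ⟨hf, fun σ τ => (hmul σ τ).2⟩
    refine ⟨x, f, hR, ?_⟩
    ext σ
    rw [hm_apply hR (F.par_hom x), h σ]
  · intro x f hR
    refine ⟨?_, fun σ => ⟨F.par x σ, f σ, hm_apply hR (F.par_hom x) σ⟩⟩
    refine apar_lc3 hρ (F.par_lc x) hR.lc fun σ τ h1 h2 h3 => ?_
    rw [hm_apply hR (F.par_hom x), hm_apply hR (F.par_hom x), h1, h2, h3]
  · intro x x' f f' hR hR' h
    have h1 : ∀ σ, F.par x σ = F.par x' σ ∧ f σ = f' σ := by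
      intro σ
      have h2 := DFunLike.congr_fun h σ
      rw [hm_apply hR (F.par_hom x), hm_apply hR' (F.par_hom x')] at h2
      exact D.sz_inj (mul_left_cancel h2)
    exact ⟨F.par_inj x x' (funext fun σ => (h1 σ).1), funext fun σ => (h1 σ).2⟩

end Pool.Agent.EV
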