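import Pool.Agent.EV.ADefs
import Pool.Agent.EV.CStm
import Pool.Agent.H92.EL.ZStm

/-!
# Project T4 (MP_a3214d), even order: statements of the algebraic part
-/

set_option autoImplicit false

open scoped BigOperators Topology
open NumberField IsDedekindDomain Filter

namespace Pool.Agent.EV

open Pool.Agent.H98.MF
open Pool.Agent.H98.MK (sg)
open Pool.Agent.D8 (pat RxF)
open Pool.Agent.H92.EL (TM Om1 Ncl Zt Ctn Hk HLo Cg nO HI InnF InnU Hyp)

/-! ### group theory -/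

/-- the order is a power of two -/
def P2 (G : Type) [Group G] : Prop := Finite G ∧ ∃ j : ℕ, Nat.card G = 2 ^ j

/-- G1: coordinates exist -/
def SgD : Prop := ∀ (G : Type) [Group G], P2 G → Zt 2 G → (∃ g : G, g * g ≠ 1) →
  ∃ D : GD G, 1 ≤ D.n

/-- G2: the number of classes of involutions -/
def SgB : Prop := ∀ (G : Type) [Group G] [Finite G] (D : GD G),
  D.b + 1 = 2 ^ D.n + ∑ v ∈ D.R, Nat.card {ζ : VV D.n // ∀ g, ζ ⬝ᵥ D.c g v = 0}

/-! ### cochains -/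

/-- A1: homomorphisms congruent to a given one and cochains -/
def SaPar : Prop := ∀ (k : Type) [Field k] [NumberField k] (F : Frm k) (G : Type) [Group G]
  (D : GD G) (ρ : Gm k →* G), IsLocallyConstant ρ →
  (∀ ρ' : Gm k →* G, IsLocallyConstant ρ' → D.Sim ρ ρ' →
    ∃ (x : F.I →₀ VV D.d) (f : Gm k → VV D.n), IsR D ρ (F.par x) f ∧
      ρ' = hm D ρ (F.par x) f) ∧
  (∀ (x : F.I →₀ VV D.d) (f : Gm k → VV D.n), IsR D ρ (F.par x) f →
    IsLocallyConstant (hm D ρ (F.par x) f) ∧ D.Sim ρ (hm D ρ (F.par x) f)) ∧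
  (∀ (x x' : F.I →₀ VV D.d) (f f' : Gm k → VV D.n), IsR D ρ (F.par x) f →
    IsR D ρ (F.par x') f' → hm D ρ (F.par x) f = hm D ρ (F.par x') f' → x = x' ∧ f = f')

/-- A2: twists by homomorphisms to `Z` -/
def SaTw : Prop := ∀ (k : Type) [Field k] [NumberField k] (F : Frm k) (G : Type) [Group G]
  (D : GD G) (ρ : Gm k →* G) (a : Gm k → VV D.d) (f : Gm k → VV D.n), IsR D ρ a f →
  (∀ z : F.I →₀ VV D.n, IsR D ρ a fun σ => f σ + F.par z σ) ∧
  (∀ z w : Fin F.sys.m → VV D.n, IsR D ρ a fun σ => f σ + F.parU z σ + F.parW w σ) ∧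
  ∀ f' : Gm k → VV D.n, IsR D ρ a f' → ∃ z : F.I →₀ VV D.n, ∀ σ, f' σ = f σ + F.par z σ

/-- A3: the values at the tame generators -/
def SaTau : Prop := ∀ (k : Type) [Field k] [NumberField k] (F : Frm k) (Rk : RxF k) (G : Type)
  [Group G] (D : GD G) (ρ : Gm k →* G) (x : F.I →₀ VV D.d) (f : Gm k → VV D.n),
  IsR D ρ (F.par x) f → ∀ p, ρ (Rk.tau (F.pl p)) = 1 →
    hm D ρ (F.par x) f (Rk.tau (F.pl p)) = D.s (x (Sum.inr p)) * D.zz (f (Rk.tau (F.pl p))) ∧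
    (hm D ρ (F.par x) f (Rk.tau (F.pl p)) ^ 2 = 1 ↔ D.β (x (Sum.inr p)) (x (Sum.inr p)) = 0) ∧
    (hm D ρ (F.par x) f (Rk.tau (F.pl p)) = 1 ↔
      x (Sum.inr p) = 0 ∧ f (Rk.tau (F.pl p)) = 0)

/-- A4: normal cochains -/
def SaNo : Prop := ∀ (k : Type) [Field k] [NumberField k] (F : Frm k) (Rk : RxF k) (G : Type)
  [Group G] (D : GD G) (ρ : Gm k →* G), P2 G → IsLocallyConstant ρ → ∀ (x : F.I →₀ VV D.d)
  (f : Gm k → VV D.n), IsR D ρ (F.par x) f → ∃ f', IsN F Rk D ρ (F.par x) f'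

/-- A5: the local condition at a prime outside `S` -/
def SaLoc : Prop := ∀ (k : Type) [Field k] [NumberField k] (F : Frm k) (Rk : RxF k) (G : Type)
  [Group G] (D : GD G) (ρ : Gm k →* G), IsLocallyConstant ρ → ∀ (x : F.I →₀ VV D.d) (p : F.sys.P),
  ρ (Rk.tau (F.pl p)) = 1 → D.β (x (Sum.inr p)) (x (Sum.inr p)) = 0 →
    (LcR D ρ (F.par x) (Sum.inl (F.pl p)) ↔ D.c (ρ (Rk.phi (F.pl p))) (x (Sum.inr p)) +
      D.Bd.B (F.par x (Rk.phi (F.pl p))) (x (Sum.inr p)) = 0)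

/-- A6: the local-global principle -/
def SaHas : Prop := ∀ (k : Type) [Field k] [NumberField k] (F : Frm k) (G : Type)
  [Group G] (D : GD G) (ρ : Gm k →* G), IsLocallyConstant ρ → ∀ x : F.I →₀ VV D.d,
    (∃ f, IsR D ρ (F.par x) f) ↔ ∀ v : Pl k, LcR D ρ (F.par x) v

/-! ### configurations -/

section

variable {k : Type} [Field k] [NumberField k] (F : Frm k) (Rk : RxF k) {G : Type} [Group G]

/-- the base homomorphism is continuous and unramified outside `S` -/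
structure Bs (ρ : Gm k →* G) : Prop where
  lc : IsLocallyConstant ρ
  un : ∀ p, ρ (Rk.tau (F.pl p)) = 1

end

/-- B1: the parameters of a configuration -/
def SbXo : Prop := ∀ (k : Type) [Field k] [NumberField k] (F : Frm k) (d : ℕ)
  (R : Finset (VV d)) (y : Fin F.sys.m → VV d) (X : R → Finset F.sys.P), F.sys.Dj X →
  (∀ j, xo F y X (Sum.inl j) = y j) ∧ (∀ v : R, ∀ p ∈ X v, xo F y X (Sum.inr p) = v) ∧
  (∀ p, (∀ v, p ∉ X v) → xo F y X (Sum.inr p) = 0) ∧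
  ∀ σ : Gm k, F.par (xo F y X) σ = F.parU y σ +
    ∑ v : R, (∑ p ∈ X v, chi (F.pi p : k) σ) • (v : VV d)

/-- B2: surjectivity -/
def SbSur : Prop := ∀ (k : Type) [Field k] [NumberField k] (F : Frm k) (Rk : RxF k) (G : Type)
  [Group G] (D : GD G) (ρ : Gm k →* G), Bs F Rk ρ → ∀ (y : Fin F.sys.m → VV D.d)
  (X : D.R → Finset F.sys.P) (f : Gm k → VV D.n), F.sys.Dj X →
  IsR D ρ (F.par (xo F y X)) f →
    (Function.Surjective (hm D ρ (F.par (xo F y X)) f) ↔ Ph F D ρ y (pat X))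

/-- B3: the type characters exist -/
def SbCy : Prop := ∀ (k : Type) [Field k] [NumberField k] (F : Frm k) (Rk : RxF k) (G : Type)
  [Group G] (D : GD G) (ρ : Gm k →* G), Bs F Rk ρ → ∀ y : Fin F.sys.m → VV D.d,
    ∃ c, Cy F D ρ y c

/-- B4: the condition at the primes of a configuration -/
def SbOk : Prop := ∀ (k : Type) [Field k] [NumberField k] (F : Frm k) (Rk : RxF k) (G : Type)
  [Group G] (D : GD G) (ρ : Gm k →* G) (y : Fin F.sys.m → VV D.d)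
  (c : VV D.d → VV D.n → F.sys.T), Cy F D ρ y c → ∀ X : D.R → Finset F.sys.P, F.sys.Dj X →
    (okc D.Bd D.R (cT (S := F.sys) c) X ↔ ∀ v : D.R, ∀ p ∈ X v,
      D.c (ρ (Rk.phi (F.pl p))) v + D.Bd.B (F.par (xo F y X) (Rk.phi (F.pl p))) v = 0)

open Classical in
/-- B5: generation, and the exponent -/
def SbGen : Prop := ∀ (k : Type) [Field k] [NumberField k] (F : Frm k) (G : Type)
  [Group G] (D : GD G) (ρ : Gm k →* G) (y : Fin F.sys.m → VV D.d)
  (c : VV D.d → VV D.n → F.sys.T), Cy F D ρ y c →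
    Gen D.Bd D.R (cT (S := F.sys) c) (Ph F D ρ y) ∧
    (∀ U U' : Finset D.R, U ⊆ U' → Ph F D ρ y U → Ph F D ρ y U') ∧
    (Finite G → Ph F D ρ y Finset.univ →
      bV D.Bd D.R (cT (S := F.sys) c) + (RZ D.n).card = D.b)

/-- B6: solvability -/
def SbSol : Prop := ∀ (k : Type) [Field k] [NumberField k] (F : Frm k) (Rk : RxF k) (G : Type)
  [Group G] (D : GD G) (ρ : Gm k →* G), Bs F Rk ρ → ∀ (y : Fin F.sys.m → VV D.d)
  (c : VV D.d → VV D.n → F.sys.T), Cy F D ρ y c → ∀ X : D.R → Finset F.sys.P, F.sys.Dj X →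
    ((∃ f, IsR D ρ (F.par (xo F y X)) f) ↔
      okc D.Bd D.R (cT (S := F.sys) c) X ∧ ∀ v ∈ pls F.S, LcR D ρ (F.par (xo F y X)) v)

/-- B7: the parameters at the places of `S` depend on the types only -/
def SbTy : Prop := ∀ (k : Type) [Field k] [NumberField k] (F : Frm k) (d : ℕ)
  (R : Finset (VV d)) (y : Fin F.sys.m → VV d) (X X' : R → Finset F.sys.P), F.sys.Dj X →
  F.sys.Dj X' → (∀ v, F.sys.tys (X v) = F.sys.tys (X' v)) → ∀ v ∈ pls F.S, ∀ σ ∈ DecP v,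
    F.par (xo F y X) σ = F.par (xo F y X') σ

/-- B8: the mean of the local average is a function of the types -/
def SbMean : Prop := ∀ (k : Type) [Field k] [NumberField k] (F : Frm k) (Rk : RxF k) (G : Type)
  [Group G] (D : GD G) (ρ : Gm k →* G), P2 G → Bs F Rk ρ → ∀ H : (Gm k →* G) → Prop, LcS F.S H →
  ∀ (y : Fin F.sys.m → VV D.d) (c : VV D.d → VV D.n → F.sys.T), Cy F D ρ y c →
  ∃ θ : (D.R → F.sys.T) → ℝ, (∀ t, 0 ≤ θ t) ∧ ∀ X : D.R → Finset F.sys.P, F.sys.Dj X →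
    okc D.Bd D.R (cT (S := F.sys) c) X →
    (1 / ((2 : ℝ) ^ F.sys.m) ^ D.n) * ∑ t : Fin D.n → F.sys.T, gH F Rk D ρ H y X t =
      θ fun v => F.sys.tys (X v)

/-! ### twists -/

section

variable {k : Type} [Field k] [NumberField k] (F : Frm k)

open Classical in
/-- the total type of parameters -/
noncomputable def tot {n : ℕ} (b : F.I →₀ VV n) : Fin n → F.sys.T :=
  fun i => b.sum fun j v => Sum.elim (fun _ => 0) (fun p => v i • F.sys.ty p) j

/-- parameters with primes of bounded norm away from `y` -/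
def Bq (n : ℕ) (y : Finset F.sys.P) (Y : ℝ) : Set (F.I →₀ VV n) :=
  {b | ∃ c ∈ F.sys.bx Y, Disjoint c y ∧ ∀ p, p ∉ y → (p ∈ c ↔ b (Sum.inr p) ≠ 0)}

end

/-- C1: the twists at the places of `S` depend on the unit coordinates and the total type -/
def ScLoc : Prop := ∀ (k : Type) [Field k] [NumberField k] (F : Frm k) (n : ℕ)
  (b : F.I →₀ VV n), ∀ v ∈ pls F.S, ∀ σ ∈ DecP v,
    F.par b σ = F.parU (fun j => b (Sum.inl j)) σ + F.parW (trn F (tot F b)) σ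

open Classical in
/-- C2: the number of twists -/
def ScNum : Prop := ∀ (k : Type) [Field k] [NumberField k] (F : Frm k) (n : ℕ)
  (y : Finset F.sys.P) (Q : (Fin F.sys.m → VV n) → (Fin n → F.sys.T) → Prop) (Y : ℝ),
  {b | b ∈ Bq F n y Y ∧ Q (fun j => b (Sum.inl j)) (tot F b)}.Finite ∧
  ({b | b ∈ Bq F n y Y ∧ Q (fun j => b (Sum.inl j)) (tot F b)}.ncard : ℝ) =
    ∑ z ∈ asg n y, CC y (fun t : RZ n → F.sys.T =>
      ∑ u : Fin F.sys.m → VV n, if Q u (tz z t) then (1 : ℝ) else 0) Y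

/-- the homomorphisms of a configuration -/
def Cx {k : Type} [Field k] [NumberField k] (F : Frm k) (Rk : RxF k) {G : Type} [Group G]
    (D : GD G) (ρ : Gm k →* G) (H : (Gm k →* G) → Prop) (y : Fin F.sys.m → VV D.d)
    (X : D.R → Finset F.sys.P) (Y : ℝ) : Set (Gm k →* G) :=
  {ρ' | ρ' ∈ Ca F Rk D ρ H Y ∧ ∃ f, IsR D ρ (F.par (xo F y X)) f ∧
    ρ' = hm D ρ (F.par (xo F y X)) f}

open Classical in
/-- C3: the number of homomorphisms of a configuration -/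
def ScCx : Prop := ∀ (k : Type) [Field k] [NumberField k] (F : Frm k) (Rk : RxF k) (G : Type)
  [Group G] (D : GD G) (ρ : Gm k →* G), P2 G → Bs F Rk ρ → ∀ H : (Gm k →* G) → Prop, LcS F.S H →
  ∀ (y : Fin F.sys.m → VV D.d) (X : D.R → Finset F.sys.P), F.sys.Dj X → ∀ Y : ℝ,
  (Cx F Rk D ρ H y X Y).Finite ∧ ((Cx F Rk D ρ H y X Y).ncard : ℝ) =
    if Ph F D ρ y (pat X) ∧ ((∏ u, F.sys.nm (X u) : ℕ) : ℝ) ≤ Y
    then ((2 : ℝ) ^ F.sys.m) ^ D.n * ∑ z ∈ asg D.n (un X),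
      CC (un X) (fun t : RZ D.n → F.sys.T => gH F Rk D ρ H y X (tz z t))
        (Y / (∏ u, F.sys.nm (X u) : ℕ))
    else 0

/-- C4: the number of homomorphisms -/
def ScCa : Prop := ∀ (k : Type) [Field k] [NumberField k] (F : Frm k) (Rk : RxF k) (G : Type)
  [Group G] (D : GD G) (ρ : Gm k →* G), P2 G → Bs F Rk ρ → ∀ H : (Gm k →* G) → Prop, LcS F.S H →
  ∀ c : (Fin F.sys.m → VV D.d) → VV D.d → VV D.n → F.sys.T, (∀ y, Cy F D ρ y (c y)) → ∀ Y : ℝ,
  (Ca F Rk D ρ H Y).Finite ∧ ((Ca F Rk D ρ H Y).ncard : ℝ) =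
    ((2 : ℝ) ^ F.sys.m) ^ D.n * ∑ y : Fin F.sys.m → VV D.d,
      NN D.Bd D.R (cT (S := F.sys) (c y)) ∅ (Ph F D ρ y) (gH F Rk D ρ H y) Y

/-! ### the asymptotic formula for fixed outer data -/

/-- E1: the base homomorphism is unramified outside `S` -/
def SeF1 : Prop := ∀ (k : Type) [Field k] [NumberField k] (F : Frm k) (Rk : RxF k) (G : Type)
  [Group G] (D : GD G) (ρ : Gm k →* G), P2 G → 1 ≤ D.n → Bs F Rk ρ →
  ∀ H : (Gm k →* G) → Prop, LcS F.S H →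
  ∃ L : ℝ, 0 ≤ L ∧ Tendsto (fun Y : ℝ => ((Ca F Rk D ρ H Y).ncard : ℝ) /
    (Y * Real.log Y ^ (D.b - 1))) atTop (𝓝 L) ∧
    ((∃ Y, (Ca F Rk D ρ H Y).Nonempty) → 0 < L)

/-- E2: 2-groups with coordinates -/
def SeF2 : Prop := ∀ (k : Type) [Field k] [NumberField k] (T : TM k) (G : Type) [Group G]
  (D : GD G), P2 G → 1 ≤ D.n → InnF T G 2 D.b

/-- E3: elementary abelian 2-groups -/
def SeAb : Prop := ∀ (k : Type) [Field k] [NumberField k] (T : TM k) (G : Type) [Group G],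
  Finite G → (∀ g : G, g * g = 1) → (∃ g : G, g ≠ 1) →
    InnF T G 2 (Nat.card (Ncl 2 G)) ∧ InnU T G 2 (Nat.card (Ncl 2 G))

/-- E4: from the Sylow subgroup to nilpotent groups -/
def SeNil : Prop :=
  (∀ (k : Type) [Field k] [NumberField k] (T : TM k) (G : Type) [Group G], P2 G → Zt 2 G →
    (∃ g : G, g ≠ 1) →
    InnF T G 2 (Nat.card (Ncl 2 G)) ∧ InnU T G 2 (Nat.card (Ncl 2 G))) →
  ∀ (k : Type) [Field k] [NumberField k] (T : TM k) (G : Type) [Group G], Hyp 2 G → Zt 2 G →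
    InnF T G 2 (Nat.card (Ncl 2 G)) ∧ InnU T G 2 (Nat.card (Ncl 2 G))

end Pool.Agent.EV
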