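import Pool.Agent.EV.CStm
import Pool.Agent.H98.MK.SumSg

/-!
# Project T4 (MP_a3214d), even order, block C: the number of central families
-/

set_option autoImplicit false

open scoped BigOperators Topology
open Filter

namespace Pool.Agent.EV

open Pool.Agent.H98.MK (sg sum_sg)
open Pool.Agent.H98.MF

/-! ### inequalities for real numbers -/

theorem ccn_log {n : ℝ} (hn : 1 ≤ n) : (1 + Real.log n) ^ (1 / 2 : ℝ) ≤ 2 * n ^ (1 / 4 : ℝ) := by
  have h0 : (0 : ℝ) ≤ n := by linarith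
  have h1 : Real.log n ≤ n ^ (1 / 2 : ℝ) / (1 / 2) := Real.log_le_rpow_div h0 (by norm_num)
  have h2 : (1 : ℝ) ≤ n ^ (1 / 2 : ℝ) := Real.one_le_rpow hn (by norm_num)
  have h3 : 1 + Real.log n ≤ 4 * n ^ (1 / 2 : ℝ) := by linarith
  have h4 : 0 ≤ 1 + Real.log n := by
    have := Real.log_nonneg hn
    linarith
  calc (1 + Real.log n) ^ (1 / 2 : ℝ) ≤ (4 * n ^ (1 / 2 : ℝ)) ^ (1 / 2 : ℝ) :=
        Real.rpow_le_rpow h4 h3 (by norm_num)
    _ = 4 ^ (1 / 2 : ℝ) * (n ^ (1 / 2 : ℝ)) ^ (1 / 2 : ℝ) :=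
        Real.mul_rpow (by norm_num) (by positivity)
    _ = 2 * n ^ (1 / 4 : ℝ) := by
        rw [← Real.rpow_mul h0]
        congr 1
        · rw [show (4 : ℝ) = 2 ^ (2 : ℝ) by norm_num, ← Real.rpow_mul (by norm_num)]
          norm_num
        · norm_num

theorem ccn_inv {n : ℝ} (hn : 1 ≤ n) : n⁻¹ = n ^ (-(3 / 4) : ℝ) * n ^ (-(1 / 4) : ℝ) := by
  rw [← Real.rpow_add (by linarith), ← Real.rpow_neg_one]
  norm_num

theorem ccn_quarter {n : ℝ} (hn : 1 ≤ n) : n ^ (-(1 / 4) : ℝ) * n ^ (1 / 4 : ℝ) = 1 := by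
  rw [← Real.rpow_add (by linarith)]
  norm_num

theorem ccn_pow (q : ℕ) {a b : ℝ} (ha : 0 ≤ a) (hab : a ≤ b) :
    b ^ (q + 1) - a ^ (q + 1) ≤ (q + 1) * (b - a) * b ^ q := by
  induction q with
  | zero => simp
  | succ q ih =>
    have hb : 0 ≤ b := ha.trans hab
    have h1 : a ^ (q + 1) ≤ b ^ (q + 1) := pow_le_pow_left₀ ha hab _
    have h2 : b * (b ^ (q + 1) - a ^ (q + 1)) ≤ b * ((q + 1) * (b - a) * b ^ q) :=
      mul_le_mul_of_nonneg_left ih hb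
    have h3 : (b - a) * a ^ (q + 1) ≤ (b - a) * b ^ (q + 1) :=
      mul_le_mul_of_nonneg_left h1 (by linarith)
    have h4 : b ^ (q + 1 + 1) - a ^ (q + 1 + 1) =
        b * (b ^ (q + 1) - a ^ (q + 1)) + (b - a) * a ^ (q + 1) := by ring
    rw [h4]
    push_cast
    calc b * (b ^ (q + 1) - a ^ (q + 1)) + (b - a) * a ^ (q + 1)
        ≤ b * ((q + 1) * (b - a) * b ^ q) + (b - a) * b ^ (q + 1) := add_le_add h2 h3
      _ = ((q : ℝ) + 1 + 1) * (b - a) * b ^ (q + 1) := by ring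

theorem ccn_A (q : ℕ) {n Y : ℝ} (hn : 1 ≤ n) (hY : n ≤ Y) :
    n⁻¹ * |Real.log (Y / n) ^ q - Real.log Y ^ q| ≤
      4 * q * n ^ (-(3 / 4) : ℝ) * (1 + Real.log Y) ^ ((q : ℝ) - 1 / 2) := by
  have hn0 : 0 < n := by linarith
  have hY0 : 0 < Y := by linarith
  have ha : 0 ≤ Real.log (Y / n) := Real.log_nonneg ((one_le_div hn0).2 hY)
  have hln : 0 ≤ Real.log n := Real.log_nonneg hn
  have he : Real.log (Y / n) = Real.log Y - Real.log n := Real.log_div hY0.ne' hn0.ne'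
  have hab : Real.log (Y / n) ≤ Real.log Y := by linarith
  have hb : 0 ≤ Real.log Y := ha.trans hab
  have hpos : 0 ≤ (1 + Real.log Y) ^ ((q : ℝ) - 1 / 2) := Real.rpow_nonneg (by linarith) _
  have h1 : |Real.log (Y / n) ^ q - Real.log Y ^ q| ≤
      q * Real.log n * (1 + Real.log Y) ^ ((q : ℝ) - 1 / 2) := by
    rw [abs_sub_comm, abs_of_nonneg (sub_nonneg.2 (pow_le_pow_left₀ ha hab q))]
    rcases q with _ | q
    · simp
    · have h2 := ccn_pow q ha hab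
      have h3 : Real.log Y - Real.log (Y / n) = Real.log n := by linarith
      rw [h3] at h2
      refine h2.trans ?_
      push_cast
      refine mul_le_mul_of_nonneg_left ?_ (by positivity)
      calc Real.log Y ^ q ≤ (1 + Real.log Y) ^ q := pow_le_pow_left₀ hb (by linarith) q
        _ = (1 + Real.log Y) ^ (q : ℝ) := (Real.rpow_natCast _ _).symm
        _ ≤ (1 + Real.log Y) ^ ((q : ℝ) + 1 - 1 / 2) :=
            Real.rpow_le_rpow_of_exponent_le (by linarith) (by linarith)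
  have h4 : n⁻¹ * Real.log n ≤ 4 * n ^ (-(3 / 4) : ℝ) := by
    have h5 : Real.log n ≤ n ^ (1 / 4 : ℝ) / (1 / 4) :=
      Real.log_le_rpow_div hn0.le (by norm_num)
    calc n⁻¹ * Real.log n ≤ n⁻¹ * (n ^ (1 / 4 : ℝ) / (1 / 4)) :=
          mul_le_mul_of_nonneg_left h5 (by positivity)
      _ = 4 * n ^ (-(3 / 4) : ℝ) * (n ^ (-(1 / 4) : ℝ) * n ^ (1 / 4 : ℝ)) := by
          rw [ccn_inv hn]
          ring
      _ = 4 * n ^ (-(3 / 4) : ℝ) := by rw [ccn_quarter hn, mul_one]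
  calc n⁻¹ * |Real.log (Y / n) ^ q - Real.log Y ^ q|
      ≤ n⁻¹ * (q * Real.log n * (1 + Real.log Y) ^ ((q : ℝ) - 1 / 2)) :=
        mul_le_mul_of_nonneg_left h1 (by positivity)
    _ = q * (n⁻¹ * Real.log n) * (1 + Real.log Y) ^ ((q : ℝ) - 1 / 2) := by ring
    _ ≤ q * (4 * n ^ (-(3 / 4) : ℝ)) * (1 + Real.log Y) ^ ((q : ℝ) - 1 / 2) :=
        mul_le_mul_of_nonneg_right (mul_le_mul_of_nonneg_left h4 (by positivity)) hpos
    _ = 4 * q * n ^ (-(3 / 4) : ℝ) * (1 + Real.log Y) ^ ((q : ℝ) - 1 / 2) := by ring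

theorem ccn_B (q : ℕ) {n Y : ℝ} (hY1 : 1 ≤ Y) (hY : Y < n) :
    n⁻¹ * Real.log Y ^ q ≤
      2 * n ^ (-(3 / 4) : ℝ) * (1 + Real.log Y) ^ ((q : ℝ) - 1 / 2) := by
  have hn : 1 ≤ n := hY1.trans hY.le
  have hn0 : 0 < n := by linarith
  have hY0 : 0 < Y := by linarith
  have hb : 0 ≤ Real.log Y := Real.log_nonneg hY1
  have hpos : 0 ≤ (1 + Real.log Y) ^ ((q : ℝ) - 1 / 2) := Real.rpow_nonneg (by linarith) _
  have h1 : Real.log Y ^ q ≤ (1 + Real.log Y) ^ ((q : ℝ) - 1 / 2) * (2 * Y ^ (1 / 4 : ℝ)) := by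
    calc Real.log Y ^ q ≤ (1 + Real.log Y) ^ q := pow_le_pow_left₀ hb (by linarith) q
      _ = (1 + Real.log Y) ^ ((q : ℝ) - 1 / 2) * (1 + Real.log Y) ^ (1 / 2 : ℝ) := by
          rw [← Real.rpow_add (by linarith), sub_add_cancel, Real.rpow_natCast]
      _ ≤ (1 + Real.log Y) ^ ((q : ℝ) - 1 / 2) * (2 * Y ^ (1 / 4 : ℝ)) :=
          mul_le_mul_of_nonneg_left (ccn_log hY1) hpos
  have h2 : n ^ (-(1 / 4) : ℝ) ≤ Y ^ (-(1 / 4) : ℝ) :=
    Real.rpow_le_rpow_of_nonpos hY0 hY.le (by norm_num)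
  calc n⁻¹ * Real.log Y ^ q
      ≤ n⁻¹ * ((1 + Real.log Y) ^ ((q : ℝ) - 1 / 2) * (2 * Y ^ (1 / 4 : ℝ))) :=
        mul_le_mul_of_nonneg_left h1 (by positivity)
    _ = 2 * n ^ (-(3 / 4) : ℝ) * (1 + Real.log Y) ^ ((q : ℝ) - 1 / 2) *
          (n ^ (-(1 / 4) : ℝ) * Y ^ (1 / 4 : ℝ)) := by
        rw [ccn_inv hn]
        ring
    _ ≤ 2 * n ^ (-(3 / 4) : ℝ) * (1 + Real.log Y) ^ ((q : ℝ) - 1 / 2) *
          (Y ^ (-(1 / 4) : ℝ) * Y ^ (1 / 4 : ℝ)) :=
        mul_le_mul_of_nonneg_left (mul_le_mul_of_nonneg_right h2 (by positivity)) (by positivity)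
    _ = 2 * n ^ (-(3 / 4) : ℝ) * (1 + Real.log Y) ^ ((q : ℝ) - 1 / 2) := by
        rw [ccn_quarter hY1, mul_one]

theorem ccn_C (q : ℕ) {n Y : ℝ} (hn : 1 ≤ n) (hY : n ≤ Y) :
    n⁻¹ * (1 + Real.log (Y / n)) ^ ((q : ℝ) - 1 / 2) ≤
      2 * n ^ (-(3 / 4) : ℝ) * (1 + Real.log Y) ^ ((q : ℝ) - 1 / 2) := by
  have hn0 : 0 < n := by linarith
  have hY0 : 0 < Y := by linarith
  have ha : 0 ≤ Real.log (Y / n) := Real.log_nonneg ((one_le_div hn0).2 hY)
  have hln : 0 ≤ Real.log n := Real.log_nonneg hn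
  have he : Real.log (Y / n) = Real.log Y - Real.log n := Real.log_div hY0.ne' hn0.ne'
  have hb : 0 ≤ Real.log Y := by linarith
  set l := 1 + Real.log (Y / n) with hl
  set L := 1 + Real.log Y with hL
  set a := 1 + Real.log n with haa
  have hl1 : 1 ≤ l := by linarith
  have hL1 : 1 ≤ L := by linarith
  have ha1 : 1 ≤ a := by linarith
  have hlL : l ≤ L := by linarith
  have hLla : L ≤ l * a := by nlinarith
  have h1 : l ^ ((q : ℝ) - 1 / 2) ≤ L ^ ((q : ℝ) - 1 / 2) * a ^ (1 / 2 : ℝ) := by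
    have h2 : l ^ ((q : ℝ) - 1 / 2) = l ^ q * l ^ (-(1 / 2) : ℝ) := by
      rw [← Real.rpow_natCast l q, ← Real.rpow_add (by linarith)]
      congr 1
    have h3 : L ^ ((q : ℝ) - 1 / 2) = L ^ q * L ^ (-(1 / 2) : ℝ) := by
      rw [← Real.rpow_natCast L q, ← Real.rpow_add (by linarith)]
      congr 1
    have h4 : l ^ (-(1 / 2) : ℝ) ≤ L ^ (-(1 / 2) : ℝ) * a ^ (1 / 2 : ℝ) := by
      have h5 : (l * a) ^ (-(1 / 2) : ℝ) ≤ L ^ (-(1 / 2) : ℝ) :=
        Real.rpow_le_rpow_of_nonpos (by linarith) hLla (by norm_num)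
      rw [Real.mul_rpow (by linarith) (by linarith)] at h5
      have h6 : a ^ (-(1 / 2) : ℝ) * a ^ (1 / 2 : ℝ) = 1 := by
        rw [← Real.rpow_add (by linarith)]
        norm_num
      calc l ^ (-(1 / 2) : ℝ) = l ^ (-(1 / 2) : ℝ) * (a ^ (-(1 / 2) : ℝ) * a ^ (1 / 2 : ℝ)) := by
            rw [h6, mul_one]
        _ = (l ^ (-(1 / 2) : ℝ) * a ^ (-(1 / 2) : ℝ)) * a ^ (1 / 2 : ℝ) := by ring
        _ ≤ L ^ (-(1 / 2) : ℝ) * a ^ (1 / 2 : ℝ) :=
            mul_le_mul_of_nonneg_right h5 (Real.rpow_nonneg (by linarith) _)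
    rw [h2, h3, mul_assoc]
    exact mul_le_mul (pow_le_pow_left₀ (by linarith) hlL q) h4
      (Real.rpow_nonneg (by linarith) _) (pow_nonneg (by linarith) q)
  have hpos : 0 ≤ L ^ ((q : ℝ) - 1 / 2) := Real.rpow_nonneg (by linarith) _
  have h7 : a ^ (1 / 2 : ℝ) ≤ 2 * n ^ (1 / 4 : ℝ) := ccn_log hn
  calc n⁻¹ * l ^ ((q : ℝ) - 1 / 2) ≤ n⁻¹ * (L ^ ((q : ℝ) - 1 / 2) * (2 * n ^ (1 / 4 : ℝ))) :=
        mul_le_mul_of_nonneg_left (h1.trans (mul_le_mul_of_nonneg_left h7 hpos)) (by positivity)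
    _ = 2 * n ^ (-(3 / 4) : ℝ) * L ^ ((q : ℝ) - 1 / 2) *
          (n ^ (-(1 / 4) : ℝ) * n ^ (1 / 4 : ℝ)) := by
        rw [ccn_inv hn]
        ring
    _ = 2 * n ^ (-(3 / 4) : ℝ) * L ^ ((q : ℝ) - 1 / 2) := by rw [ccn_quarter hn, mul_one]

/-! ### the convolution -/

theorem ccn_conv {X : Type} (n : X → ℕ) (hn : ∀ x, 1 ≤ n x) (I : Finset X) {Y : ℝ}
    (hY : 1 ≤ Y) (hI : ∀ x, x ∈ I ↔ (n x : ℝ) ≤ Y) (h : X → ℝ) (q : ℕ) {Λ k C1 : ℝ}
    (hk : 0 ≤ k) (hC1 : 0 ≤ C1) (Dd : ℝ → ℝ)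
    (hD : ∀ Z : ℝ, 1 ≤ Z → |Dd Z - k * (Z * Real.log Z ^ q)| ≤
      C1 * Z * (1 + Real.log Z) ^ ((q : ℝ) - 1 / 2))
    (hs : Summable fun x => |h x| * (n x : ℝ) ^ (-(3 / 4) : ℝ))
    (hΛ : ∑' x, |h x| * (n x : ℝ) ^ (-(3 / 4) : ℝ) ≤ Λ) :
    |∑ x ∈ I, h x * Dd (Y / n x) - k * (∑' x, h x * ((n x : ℝ)⁻¹)) * (Y * Real.log Y ^ q)| ≤
      (2 * C1 + k * (4 * q + 2)) * Λ * Y * (1 + Real.log Y) ^ ((q : ℝ) - 1 / 2) := by
  classical
  have hn1 : ∀ x, (1 : ℝ) ≤ n x := fun x => by exact_mod_cast hn x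
  have hlY : 0 ≤ Real.log Y := Real.log_nonneg hY
  set Le := (1 + Real.log Y) ^ ((q : ℝ) - 1 / 2) with hLe
  have hLe0 : 0 ≤ Le := Real.rpow_nonneg (by linarith) _
  have hterm : ∀ x, 0 ≤ |h x| * (n x : ℝ) ^ (-(3 / 4) : ℝ) := fun x => by positivity
  have hnI : ∀ x ∈ I, (1 : ℝ) ≤ Y / n x := fun x hx => by
    rw [one_le_div (by linarith [hn1 x])]
    exact (hI x).1 hx
  -- the error terms
  have hE : |∑ x ∈ I, h x * (Dd (Y / n x) - k * (Y / n x * Real.log (Y / n x) ^ q))| ≤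
      2 * C1 * Λ * Y * Le := by
    calc |∑ x ∈ I, h x * (Dd (Y / n x) - k * (Y / n x * Real.log (Y / n x) ^ q))|
        ≤ ∑ x ∈ I, |h x * (Dd (Y / n x) - k * (Y / n x * Real.log (Y / n x) ^ q))| :=
          Finset.abs_sum_le_sum_abs _ _
      _ ≤ ∑ x ∈ I, (2 * C1 * Y * Le) * (|h x| * (n x : ℝ) ^ (-(3 / 4) : ℝ)) := by
          refine Finset.sum_le_sum fun x hx => ?_
          rw [abs_mul]
          have h1 := hD _ (hnI x hx)
          have h2 := ccn_C q (hn1 x) ((hI x).1 hx)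
          calc |h x| * |Dd (Y / n x) - k * (Y / n x * Real.log (Y / n x) ^ q)|
              ≤ |h x| * (C1 * (Y / n x) * (1 + Real.log (Y / n x)) ^ ((q : ℝ) - 1 / 2)) :=
                mul_le_mul_of_nonneg_left h1 (abs_nonneg _)
            _ = |h x| * C1 * Y * ((n x : ℝ)⁻¹ * (1 + Real.log (Y / n x)) ^ ((q : ℝ) - 1 / 2)) := by
                rw [div_eq_mul_inv]
                ring
            _ ≤ |h x| * C1 * Y * (2 * (n x : ℝ) ^ (-(3 / 4) : ℝ) * Le) :=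
                mul_le_mul_of_nonneg_left h2 (by positivity)
            _ = (2 * C1 * Y * Le) * (|h x| * (n x : ℝ) ^ (-(3 / 4) : ℝ)) := by ring
      _ = (2 * C1 * Y * Le) * ∑ x ∈ I, |h x| * (n x : ℝ) ^ (-(3 / 4) : ℝ) :=
          (Finset.mul_sum _ _ _).symm
      _ ≤ (2 * C1 * Y * Le) * Λ :=
          mul_le_mul_of_nonneg_left ((hs.sum_le_tsum I fun x _ => hterm x).trans hΛ)
            (by positivity)
      _ = 2 * C1 * Λ * Y * Le := by ring
  -- the main terms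
  have hH : Summable fun x => h x * ((n x : ℝ)⁻¹) := by
    refine Summable.of_norm_bounded hs fun x => ?_
    rw [Real.norm_eq_abs, abs_mul, abs_of_pos (by have := hn1 x; positivity : (0 : ℝ) < (n x : ℝ)⁻¹)]
    refine mul_le_mul_of_nonneg_left ?_ (abs_nonneg _)
    rw [← Real.rpow_neg_one]
    exact Real.rpow_le_rpow_of_exponent_le (hn1 x) (by norm_num)
  let D1 : X → ℝ := fun x => if x ∈ I then h x * ((n x : ℝ)⁻¹) * Real.log (Y / n x) ^ q else 0
  have hD1s : Summable D1 := summable_of_ne_finset_zero (s := I) fun x hx => if_neg hx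
  have hD1t : ∑' x, D1 x = ∑ x ∈ I, h x * ((n x : ℝ)⁻¹) * Real.log (Y / n x) ^ q := by
    rw [tsum_eq_sum (s := I) fun x hx => if_neg hx]
    exact Finset.sum_congr rfl fun x hx => if_pos hx
  have hDD : ∀ x, |D1 x - h x * ((n x : ℝ)⁻¹) * Real.log Y ^ q| ≤
      ((4 * q + 2) * Le) * (|h x| * (n x : ℝ) ^ (-(3 / 4) : ℝ)) := by
    intro x
    have hinv : (0 : ℝ) < (n x : ℝ)⁻¹ := by
      have := hn1 x
      positivity
    have hp34 : (0 : ℝ) ≤ (n x : ℝ) ^ (-(3 / 4) : ℝ) := by positivity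
    by_cases hx : x ∈ I
    · have h1 : D1 x = h x * ((n x : ℝ)⁻¹) * Real.log (Y / n x) ^ q := if_pos hx
      rw [h1]
      have h2 : h x * ((n x : ℝ)⁻¹) * Real.log (Y / n x) ^ q - h x * ((n x : ℝ)⁻¹) * Real.log Y ^ q =
          h x * ((n x : ℝ)⁻¹ * (Real.log (Y / n x) ^ q - Real.log Y ^ q)) := by ring
      rw [h2, abs_mul, abs_mul, abs_of_pos hinv]
      have h3 := ccn_A q (hn1 x) ((hI x).1 hx)
      calc |h x| * ((n x : ℝ)⁻¹ * |Real.log (Y / n x) ^ q - Real.log Y ^ q|)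
          ≤ |h x| * (4 * q * (n x : ℝ) ^ (-(3 / 4) : ℝ) * Le) :=
            mul_le_mul_of_nonneg_left h3 (abs_nonneg _)
        _ = (4 * q * Le) * (|h x| * (n x : ℝ) ^ (-(3 / 4) : ℝ)) := by ring
        _ ≤ ((4 * q + 2) * Le) * (|h x| * (n x : ℝ) ^ (-(3 / 4) : ℝ)) := by
            refine mul_le_mul_of_nonneg_right ?_ (hterm x)
            nlinarith
    · have h1 : D1 x = 0 := if_neg hx
      have hx' : Y < n x := by
        rw [hI, not_le] at hx
        exact hx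
      rw [h1, zero_sub, abs_neg, mul_assoc, abs_mul,
        abs_of_nonneg (by positivity : 0 ≤ (n x : ℝ)⁻¹ * Real.log Y ^ q)]
      have h3 := ccn_B q hY hx'
      calc |h x| * ((n x : ℝ)⁻¹ * Real.log Y ^ q)
          ≤ |h x| * (2 * (n x : ℝ) ^ (-(3 / 4) : ℝ) * Le) :=
            mul_le_mul_of_nonneg_left h3 (abs_nonneg _)
        _ = (2 * Le) * (|h x| * (n x : ℝ) ^ (-(3 / 4) : ℝ)) := by ring
        _ ≤ ((4 * q + 2) * Le) * (|h x| * (n x : ℝ) ^ (-(3 / 4) : ℝ)) := by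
            refine mul_le_mul_of_nonneg_right ?_ (hterm x)
            have : (0 : ℝ) ≤ q := Nat.cast_nonneg q
            nlinarith
  have hM : |∑ x ∈ I, h x * ((n x : ℝ)⁻¹) * Real.log (Y / n x) ^ q -
      (∑' x, h x * ((n x : ℝ)⁻¹)) * Real.log Y ^ q| ≤ (4 * q + 2) * Le * Λ := by
    rw [← hD1t, ← tsum_mul_right, ← (hD1s.tsum_sub (hH.mul_right _))]
    have hsb : Summable fun x => ((4 * q + 2) * Le) * (|h x| * (n x : ℝ) ^ (-(3 / 4) : ℝ)) :=
      hs.mul_left _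
    have h1 : ‖∑' x, (D1 x - h x * ((n x : ℝ)⁻¹) * Real.log Y ^ q)‖ ≤
        ∑' x, ((4 * q + 2) * Le) * (|h x| * (n x : ℝ) ^ (-(3 / 4) : ℝ)) :=
      tsum_of_norm_bounded hsb.hasSum fun x => by
        rw [Real.norm_eq_abs]
        exact hDD x
    rw [Real.norm_eq_abs, tsum_mul_left] at h1
    exact h1.trans (mul_le_mul_of_nonneg_left hΛ (by positivity))
  -- together
  have hsplit : ∑ x ∈ I, h x * Dd (Y / n x) - k * (∑' x, h x * ((n x : ℝ)⁻¹)) *
      (Y * Real.log Y ^ q) =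
      ∑ x ∈ I, h x * (Dd (Y / n x) - k * (Y / n x * Real.log (Y / n x) ^ q)) +
      (k * Y) * (∑ x ∈ I, h x * ((n x : ℝ)⁻¹) * Real.log (Y / n x) ^ q -
        (∑' x, h x * ((n x : ℝ)⁻¹)) * Real.log Y ^ q) := by
    have h1 : ∑ x ∈ I, h x * (Dd (Y / n x) - k * (Y / n x * Real.log (Y / n x) ^ q)) =
        ∑ x ∈ I, h x * Dd (Y / n x) -
          (k * Y) * ∑ x ∈ I, h x * ((n x : ℝ)⁻¹) * Real.log (Y / n x) ^ q := by
      rw [Finset.mul_sum, ← Finset.sum_sub_distrib]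
      refine Finset.sum_congr rfl fun x _ => ?_
      rw [div_eq_mul_inv]
      ring
    rw [h1]
    ring
  rw [hsplit]
  have hkY : 0 ≤ k * Y := by positivity
  calc |∑ x ∈ I, h x * (Dd (Y / n x) - k * (Y / n x * Real.log (Y / n x) ^ q)) +
      (k * Y) * (∑ x ∈ I, h x * ((n x : ℝ)⁻¹) * Real.log (Y / n x) ^ q -
        (∑' x, h x * ((n x : ℝ)⁻¹)) * Real.log Y ^ q)|
      ≤ 2 * C1 * Λ * Y * Le + (k * Y) * ((4 * q + 2) * Le * Λ) := by
        refine (abs_add_le _ _).trans (add_le_add hE ?_)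
        rw [abs_mul, abs_of_nonneg hkY]
        exact mul_le_mul_of_nonneg_left hM hkY
    _ = (2 * C1 + k * (4 * q + 2)) * Λ * Y * Le := by ring

/-! ### Fourier expansion -/

section Fourier

variable {m : ℕ} {ι : Type} [Fintype ι]

/-- the characters of families of types -/
def ccnχ (c t : ι → Fin m → ZMod 2) : ℝ := ((sg (∑ u, c u ⬝ᵥ t u) : ℤ) : ℝ)

open Classical in
theorem ccnχ_orth (t : ι → Fin m → ZMod 2) :
    ∑ c : ι → Fin m → ZMod 2, ccnχ c t =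
      if t = 0 then ((2 : ℝ) ^ m) ^ Fintype.card ι else 0 := by
  have h1 : ∑ c : ι → Fin m → ZMod 2, ccnχ c t =
      ((∏ u : ι, ∑ c : Fin m → ZMod 2, sg (c ⬝ᵥ t u) : ℤ) : ℝ) := by
    rw [Finset.prod_univ_sum, Fintype.piFinset_univ]
    push_cast
    refine Finset.sum_congr rfl fun c _ => ?_
    unfold ccnχ
    rw [sg_sum]
    push_cast
    rfl
  rw [h1]
  simp only [sum_sg]
  by_cases ht : t = 0
  · subst ht
    simp
  · rw [if_neg ht]
    obtain ⟨u, hu⟩ := Function.ne_iff.1 ht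
    rw [Finset.prod_eq_zero (Finset.mem_univ u) (if_neg hu)]
    simp

theorem ccnχ_mul (c t t' : ι → Fin m → ZMod 2) : ccnχ c t * ccnχ c t' = ccnχ c (t + t') := by
  unfold ccnχ
  rw [← Int.cast_mul, ← sg_add, ← Finset.sum_add_distrib]
  simp only [Pi.add_apply, dotProduct_add]

theorem ccnχ_abs (c t : ι → Fin m → ZMod 2) : |ccnχ c t| = 1 := abs_sgr _

open Classical in
/-- the Fourier coefficients -/
noncomputable def ccnF (g : (ι → Fin m → ZMod 2) → ℝ) (c : ι → Fin m → ZMod 2) : ℝ :=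
  (1 / ((2 : ℝ) ^ m) ^ Fintype.card ι) * ∑ t : ι → Fin m → ZMod 2, g t * ccnχ c t

open Classical in
theorem ccnF_inv (g : (ι → Fin m → ZMod 2) → ℝ) (t : ι → Fin m → ZMod 2) :
    g t = ∑ c : ι → Fin m → ZMod 2, ccnF g c * ccnχ c t := by
  have hN : (((2 : ℝ) ^ m) ^ Fintype.card ι) ≠ 0 := by positivity
  unfold ccnF
  have h1 : ∀ c : ι → Fin m → ZMod 2, (1 / ((2 : ℝ) ^ m) ^ Fintype.card ι) *
      (∑ t' : ι → Fin m → ZMod 2, g t' * ccnχ c t') * ccnχ c t =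
      (1 / ((2 : ℝ) ^ m) ^ Fintype.card ι) *
        ∑ t' : ι → Fin m → ZMod 2, g t' * ccnχ c (t' + t) := by
    intro c
    rw [mul_assoc, Finset.sum_mul]
    congr 1
    refine Finset.sum_congr rfl fun t' _ => ?_
    rw [mul_assoc, ccnχ_mul]
  simp only [h1]
  rw [← Finset.mul_sum, Finset.sum_comm]
  simp only [← Finset.mul_sum, ccnχ_orth]
  have h2 : ∀ t' : ι → Fin m → ZMod 2, (t' + t = 0) ↔ t' = t := by
    intro t'
    constructor
    · intro h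
      funext u i
      have h3 := congrFun (congrFun h u) i
      have h4 : ∀ a b : ZMod 2, a + b = 0 → a = b := by decide
      exact h4 _ _ h3
    · rintro rfl
      funext u i
      have h4 : ∀ a : ZMod 2, a + a = 0 := by decide
      exact h4 _
  simp only [h2, mul_ite, mul_zero, Finset.sum_ite_eq', Finset.mem_univ, if_true]
  field_simp

open Classical in
theorem ccnF_le (g : (ι → Fin m → ZMod 2) → ℝ) (hg : ∀ t, |g t| ≤ 1)
    (c : ι → Fin m → ZMod 2) : |ccnF g c| ≤ 1 := by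
  unfold ccnF
  have hN : (0 : ℝ) < ((2 : ℝ) ^ m) ^ Fintype.card ι := by positivity
  rw [abs_mul, abs_of_pos (by positivity : (0 : ℝ) < 1 / ((2 : ℝ) ^ m) ^ Fintype.card ι)]
  have h1 : |∑ t : ι → Fin m → ZMod 2, g t * ccnχ c t| ≤ ((2 : ℝ) ^ m) ^ Fintype.card ι := by
    refine (Finset.abs_sum_le_sum_abs _ _).trans ?_
    calc ∑ t : ι → Fin m → ZMod 2, |g t * ccnχ c t| ≤ ∑ _t : ι → Fin m → ZMod 2, (1 : ℝ) := by
          refine Finset.sum_le_sum fun t _ => ?_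
          rw [abs_mul, ccnχ_abs, mul_one]
          exact hg t
      _ = ((2 : ℝ) ^ m) ^ Fintype.card ι := by
          rw [Finset.sum_const, Finset.card_univ, nsmul_eq_mul, mul_one]
          simp [Fintype.card_pi]
  calc 1 / ((2 : ℝ) ^ m) ^ Fintype.card ι * |∑ t : ι → Fin m → ZMod 2, g t * ccnχ c t|
      ≤ 1 / ((2 : ℝ) ^ m) ^ Fintype.card ι * ((2 : ℝ) ^ m) ^ Fintype.card ι :=
        mul_le_mul_of_nonneg_left h1 (by positivity)
    _ = 1 := by field_simp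

end Fourier

/-! ### the theorem -/

theorem scc (h1 : SDiv) (h2 : SCmp) : SCc := by
  classical
  intro S ι _ _
  obtain ⟨C1, hC1, hdiv⟩ := h1 S ι
  obtain ⟨A0, C2, κ0, hA0, hC2, hκ0, hcmp⟩ := h2 S ι
  set q : ℕ := Fintype.card ι - 1 with hq
  have hcard : 1 ≤ Fintype.card ι := Fintype.card_pos
  have hqe : ((Fintype.card ι : ℝ) - 3 / 2) = (q : ℝ) - 1 / 2 := by
    rw [hq, Nat.cast_sub hcard]
    push_cast
    ring
  set k : ℝ := S.κ ^ Fintype.card ι / ((Fintype.card ι - 1).factorial : ℝ) with hk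
  have hk0 : 0 < k := by
    have h3 : (0 : ℝ) < ((Fintype.card ι - 1).factorial : ℝ) := by
      exact_mod_cast Nat.factorial_pos _
    have h4 := S.κ_pos
    positivity
  have hK : 0 ≤ 2 * C1 + k * (4 * q + 2) := by positivity
  refine ⟨k * κ0, A0, (Fintype.card (ι → S.T) : ℝ) * ((2 * C1 + k * (4 * q + 2)) * C2),
    by positivity, hA0, by positivity, fun y g hg Y hY => ?_⟩
  rw [hqe]
  have hlY : 0 ≤ Real.log Y := Real.log_nonneg hY
  have hLe0 : 0 ≤ (1 + Real.log Y) ^ ((q : ℝ) - 1 / 2) := Real.rpow_nonneg (by linarith) _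
  have hlo : 0 ≤ lo (S := S) A0 y := Finset.prod_nonneg fun p _ => by positivity
  -- one character
  have hone : ∀ c : ι → S.T, |CCc y c Y - (if ∀ u, c u = 0 then k * κ0 * ty0 ι y *
      (Y * Real.log Y ^ q) else 0)| ≤
      (2 * C1 + k * (4 * q + 2)) * (C2 * lo A0 y) * Y * (1 + Real.log Y) ^ ((q : ℝ) - 1 / 2) := by
    intro c
    obtain ⟨h, hs, hΛ, hY1, h0⟩ := hcmp c y
    rw [hY1 Y hY]
    have hn : ∀ f : S.P →₀ ℕ, 1 ≤ S.nf f := fun f => S.nf_pos f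
    have hI : ∀ f : S.P →₀ ℕ, f ∈ S.idl Y ↔ (S.nf f : ℝ) ≤ Y := fun f => S.mem_idl
    by_cases hc : ∀ u, c u = 0
    · rw [if_pos hc]
      have h3 := ccn_conv (fun f : S.P →₀ ℕ => S.nf f) hn (S.idl Y) hY hI h q hk0.le hC1
        (fun Z => DD c Z) (fun Z hZ => by
          have h4 := hdiv c Z hZ
          rw [if_pos hc, hqe] at h4
          exact h4) hs hΛ
      rw [h0 hc] at h3
      have h5 : k * κ0 * ty0 ι y * (Y * Real.log Y ^ q) =
          k * (κ0 * ty0 ι y) * (Y * Real.log Y ^ q) := by ring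
      rw [h5]
      exact h3
    · rw [if_neg hc]
      have h3 := ccn_conv (fun f : S.P →₀ ℕ => S.nf f) hn (S.idl Y) hY hI h q (le_refl (0 : ℝ)) hC1
        (fun Z => DD c Z) (fun Z hZ => by
          have h4 := hdiv c Z hZ
          rw [if_neg hc, hqe] at h4
          rw [zero_mul]
          exact h4) hs hΛ
      rw [zero_mul, zero_mul, zero_mul, add_zero] at h3
      refine h3.trans ?_
      refine mul_le_mul_of_nonneg_right (mul_le_mul_of_nonneg_right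
        (mul_le_mul_of_nonneg_right ?_ (by positivity)) (by linarith)) hLe0
      have : 0 ≤ k * (4 * q + 2) := by positivity
      linarith
  -- the expansion
  have hexp : CC y g Y = ∑ c : ι → S.T, ccnF g c * CCc y c Y := by
    unfold CC CCc
    simp only [Finset.mul_sum]
    rw [Finset.sum_comm]
    refine Finset.sum_congr rfl fun x _ => ?_
    by_cases hx : S.Dj x ∧ Off S y x ∧ ((∏ u, S.nm (x u) : ℕ) : ℝ) ≤ Y
    · simp only [if_pos hx]
      exact ccnF_inv g _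
    · simp only [if_neg hx, mul_zero, Finset.sum_const_zero]
  have hmain : k * κ0 * ((1 / ((2 : ℝ) ^ S.m) ^ Fintype.card ι) * ∑ t : ι → S.T, g t) *
      ty0 ι y * (Y * Real.log Y ^ (Fintype.card ι - 1)) =
      ∑ c : ι → S.T, ccnF g c * (if ∀ u, c u = 0 then k * κ0 * ty0 ι y *
        (Y * Real.log Y ^ q) else 0) := by
    symm
    refine (Finset.sum_eq_single (0 : ι → S.T) ?_ ?_).trans ?_
    · intro c _ hc
      have hne : ¬ ∀ u, c u = 0 := fun h => hc (funext h)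
      rw [if_neg hne, mul_zero]
    · intro h
      exact absurd (Finset.mem_univ _) h
    · have hz : ∀ u, (0 : ι → S.T) u = 0 := fun u => rfl
      rw [if_pos hz]
      have h3 : ccnF g (0 : ι → S.T) =
          (1 / ((2 : ℝ) ^ S.m) ^ Fintype.card ι) * ∑ t : ι → S.T, g t := by
        unfold ccnF
        congr 1
        refine Finset.sum_congr rfl fun t _ => ?_
        have h4 : ccnχ (0 : ι → S.T) t = 1 := by
          unfold ccnχ
          simp [sg]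
        rw [h4, mul_one]
      rw [h3]
      ring
  rw [hexp, hmain, ← Finset.sum_sub_distrib]
  calc |∑ c : ι → S.T, (ccnF g c * CCc y c Y - ccnF g c * (if ∀ u, c u = 0
        then k * κ0 * ty0 ι y * (Y * Real.log Y ^ q) else 0))|
      ≤ ∑ c : ι → S.T, |ccnF g c * CCc y c Y - ccnF g c * (if ∀ u, c u = 0
        then k * κ0 * ty0 ι y * (Y * Real.log Y ^ q) else 0)| := Finset.abs_sum_le_sum_abs _ _
    _ ≤ ∑ _c : ι → S.T, (2 * C1 + k * (4 * q + 2)) * (C2 * lo A0 y) * Y *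
          (1 + Real.log Y) ^ ((q : ℝ) - 1 / 2) := by
        refine Finset.sum_le_sum fun c _ => ?_
        rw [← mul_sub, abs_mul]
        calc |ccnF g c| * |CCc y c Y - (if ∀ u, c u = 0
            then k * κ0 * ty0 ι y * (Y * Real.log Y ^ q) else 0)|
            ≤ 1 * |CCc y c Y - (if ∀ u, c u = 0
            then k * κ0 * ty0 ι y * (Y * Real.log Y ^ q) else 0)| :=
              mul_le_mul_of_nonneg_right (ccnF_le g hg c) (abs_nonneg _)
          _ ≤ _ := by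
              rw [one_mul]
              exact hone c
    _ = (Fintype.card (ι → S.T) : ℝ) * ((2 * C1 + k * (4 * q + 2)) * C2) * lo A0 y * Y *
          (1 + Real.log Y) ^ ((q : ℝ) - 1 / 2) := by
        rw [Finset.sum_const, Finset.card_univ, nsmul_eq_mul]
        ring

end Pool.Agent.EV
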