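import Pool.Agent.EV.CStm

/-!
# Project T4 (MP_a3214d), even order, block C: the characters of the isolated variables
-/

set_option autoImplicit false

open scoped BigOperators Topology
open Filter

namespace Pool.Agent.EV

open Pool.Agent.H98.MK (sg)
open Pool.Agent.H98.MF
open Pool.Agent.H32.MQ (El)
open Pool.Agent.D8 (pat Tk ls ad)

section

variable (S : Sys) {ι : Type} [Fintype ι] (b : ι → ι → ZMod 2) (y : ι → Finset S.P)

theorem ech_two (a : ZMod 2) : a = 0 ∨ a = 1 := by
  revert a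
  decide

open Classical in
/-- the primes of the variables linked to `u` -/
noncomputable def echU (u : ι) : Finset S.P :=
  (Finset.univ.filter fun v => Lk b u v).biUnion y

/-- the unit part of the additional class -/
noncomputable def echT (u : ι) : S.T := ∑ v, (b v u * (S.l ⬝ᵥ S.tys (y v))) • S.l

theorem echU_mem (u : ι) (p : S.P) : p ∈ echU S b y u ↔ ∃ v, Lk b u v ∧ p ∈ y v := by
  classical
  unfold echU
  simp only [Finset.mem_biUnion, Finset.mem_filter, Finset.mem_univ, true_and]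

theorem echU_sum (hy : S.Dj y) (u : ι) (f : S.P → ZMod 2) :
    ∑ q ∈ echU S b y u, f q = ∑ v, (b u v + b v u) * ∑ q ∈ y v, f q := by
  classical
  unfold echU
  rw [Finset.sum_biUnion (fun i _ j _ hij => hy i j hij), Finset.sum_filter]
  refine Finset.sum_congr rfl fun v _ => ?_
  unfold Lk
  rcases ech_two (b u v + b v u) with h | h
  · rw [h, if_neg (by decide), zero_mul]
  · rw [h, if_pos rfl, one_mul]

theorem ech_tys (z : Finset S.P) : S.l ⬝ᵥ S.tys z = ∑ q ∈ z, S.l ⬝ᵥ S.ty q := by
  unfold Sys.tys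
  exact dotProduct_sum _ _ _

theorem echT_dot (u : ι) (t : S.T) :
    echT S b y u ⬝ᵥ t = ∑ v, b v u * (S.l ⬝ᵥ S.tys (y v)) * (S.l ⬝ᵥ t) := by
  unfold echT
  rw [sum_dotProduct]
  exact Finset.sum_congr rfl fun v _ => by rw [smul_dotProduct, smul_eq_mul]

theorem ech_rec (p : S.P) (z : Finset S.P) (h : ∀ q ∈ z, p ≠ q) :
    ∑ q ∈ z, S.J p q = ∑ q ∈ z, S.J q p + (S.l ⬝ᵥ S.tys z) * (S.l ⬝ᵥ S.ty p) := by
  rw [ech_tys, Finset.sum_mul, ← Finset.sum_add_distrib]
  refine Finset.sum_congr rfl fun q hq => ?_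
  have h1 := S.recip p q (h q hq)
  have h2 : S.J q p + S.J q p = 0 := CharTwo.add_self_eq_zero _
  linear_combination h1 - h2

/-- the mixed part -/
theorem ech_mix (hy : S.Dj y) {x : ι → Finset S.P}
    (h : ∀ u v, ∀ p ∈ x u, ∀ q ∈ y v, p ≠ q) :
    ∑ u, ∑ v, b u v * S.JJ (x u) (y v) + ∑ u, ∑ v, b u v * S.JJ (y u) (x v) =
      ∑ u, ∑ p ∈ x u, (∑ q ∈ echU S b y u, S.J q p + echT S b y u ⬝ᵥ S.ty p) := by
  rw [Finset.sum_comm (f := fun u v => b u v * S.JJ (y u) (x v)), ← Finset.sum_add_distrib]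
  refine Finset.sum_congr rfl fun u _ => ?_
  rw [← Finset.sum_add_distrib]
  have h1 : ∀ v, b u v * S.JJ (x u) (y v) + b v u * S.JJ (y v) (x u) =
      ∑ p ∈ x u, ((b u v + b v u) * ∑ q ∈ y v, S.J q p +
        b v u * (S.l ⬝ᵥ S.tys (y v)) * (S.l ⬝ᵥ S.ty p)) := by
    intro v
    unfold Sys.JJ
    rw [Finset.sum_comm (s := y v), Finset.mul_sum, Finset.mul_sum, ← Finset.sum_add_distrib]
    refine Finset.sum_congr rfl fun p hp => ?_
    rw [ech_rec S p (y v) (h u v p hp)]
    ring
  rw [Finset.sum_congr rfl fun v _ => h1 v, Finset.sum_comm]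
  refine Finset.sum_congr rfl fun p _ => ?_
  rw [Finset.sum_add_distrib, echU_sum S b y hy, echT_dot]

/-- the unlinked part vanishes -/
theorem ech_zero (h1 : ∀ u v, b u v = 0 ∨ b v u = 0) (I : Finset ι)
    (hI : ∀ u ∈ I, ∀ v ∈ I, ¬ Lk b u v) {x : ι → Finset S.P} (hxI : ∀ u, u ∉ I → x u = ∅) :
    ∑ u, ∑ v, b u v * S.JJ (x u) (x v) = 0 := by
  refine Finset.sum_eq_zero fun u _ => Finset.sum_eq_zero fun v _ => ?_
  by_cases hu : u ∈ I
  · by_cases hv : v ∈ I
    · have h2 : b u v = 0 := by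
        rcases ech_two (b u v) with h | h
        · exact h
        · exfalso
          rcases h1 u v with h3 | h3
          · rw [h3] at h
            exact absurd h (by decide)
          · exact hI u hu v hv (by unfold Lk; rw [h, h3, add_zero])
      rw [h2, zero_mul]
    · rw [hxI v hv]
      unfold Sys.JJ
      simp
  · rw [hxI u hu]
    unfold Sys.JJ
    simp

open Classical in
omit [Fintype ι] in
theorem ech_un {x y : ι → Finset S.P} (h : ∀ u, x u = ∅ ∨ y u = ∅) (u : ι)
    (f : S.P → ZMod 2) : ∑ p ∈ x u ∪ y u, f p = ∑ p ∈ x u, f p + ∑ p ∈ y u, f p := by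
  refine Finset.sum_union ?_
  rcases h u with h1 | h1
  · rw [h1]; exact Finset.disjoint_empty_left _
  · rw [h1]; exact Finset.disjoint_empty_right _

open Classical in
omit [Fintype ι] in
theorem ech_JJ {x y : ι → Finset S.P} (h : ∀ u, x u = ∅ ∨ y u = ∅) (u v : ι) :
    S.JJ (x u ∪ y u) (x v ∪ y v) = S.JJ (x u) (x v) + S.JJ (x u) (y v) + S.JJ (y u) (x v) +
      S.JJ (y u) (y v) := by
  have h1 : ∀ z : Finset S.P, S.JJ z (x v ∪ y v) = S.JJ z (x v) + S.JJ z (y v) := by
    intro z
    unfold Sys.JJ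
    rw [← Finset.sum_add_distrib]
    exact Finset.sum_congr rfl fun p _ => ech_un S h v _
  have h2 : S.JJ (x u ∪ y u) (x v ∪ y v) = S.JJ (x u) (x v ∪ y v) + S.JJ (y u) (x v ∪ y v) :=
    ech_un S h u _
  rw [h2, h1, h1]
  ring

open Classical in
theorem ech_EE (c : ι → El S) {x y : ι → Finset S.P} (h : ∀ u, x u = ∅ ∨ y u = ∅) :
    EE b c (fun u => x u ∪ y u) = EE b c y + (∑ u, ∑ v, b u v * S.JJ (x u) (x v) +
      (∑ u, ∑ v, b u v * S.JJ (x u) (y v) + ∑ u, ∑ v, b u v * S.JJ (y u) (x v)) +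
      ∑ u, ∑ p ∈ x u, xc (c u) p) := by
  unfold EE
  have h1 : ∑ u, ∑ p ∈ x u ∪ y u, xc (c u) p =
      ∑ u, ∑ p ∈ x u, xc (c u) p + ∑ u, ∑ p ∈ y u, xc (c u) p := by
    rw [← Finset.sum_add_distrib]
    exact Finset.sum_congr rfl fun u _ => ech_un S h u _
  have h2 : ∑ u, ∑ v, b u v * S.JJ (x u ∪ y u) (x v ∪ y v) =
      ∑ u, ∑ v, b u v * S.JJ (x u) (x v) + ∑ u, ∑ v, b u v * S.JJ (x u) (y v) +
        ∑ u, ∑ v, b u v * S.JJ (y u) (x v) + ∑ u, ∑ v, b u v * S.JJ (y u) (y v) := by
    simp only [← Finset.sum_add_distrib]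
    refine Finset.sum_congr rfl fun u _ => Finset.sum_congr rfl fun v _ => ?_
    rw [ech_JJ S h u v]
    ring
  rw [h1, h2]
  ring

end

/-- the characters of the large variables given the small ones -/
theorem sch1 : SCh1 := by
  classical
  intro S ι _ b c M hb hos hcM I y hI hyI hy hoff
  have hdis : ∀ u, Disjoint (c u).2 (echU S b y u) := by
    intro u
    refine Finset.disjoint_left.2 fun p hp hq => ?_
    obtain ⟨v, -, hv⟩ := (echU_mem S b y u p).1 hq
    exact Finset.disjoint_left.1 (hoff v) hv (hcM u hp)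
  have hM' : ∀ p, p ∈ M ∪ Finset.univ.biUnion y ↔ (p ∈ M ∨ ∃ u, p ∈ y u) := by
    intro p
    rw [Finset.mem_union]
    simp only [Finset.mem_biUnion, Finset.mem_univ, true_and]
  refine ⟨fun u => ((c u).1 + echT S b y u, (c u).2 ∪ echU S b y u),
    M ∪ Finset.univ.biUnion y, fun u p hp => ?_, hM', fun u _ => ?_,
    fun x hxI => ?_⟩
  · rcases Finset.mem_union.1 hp with h | h
    · exact (hM' p).2 (Or.inl (hcM u h))
    · obtain ⟨v, -, hv⟩ := (echU_mem S b y u p).1 h
      exact (hM' p).2 (Or.inr ⟨v, hv⟩)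
  · have hT : (∀ v, Lk b u v → y v = ∅) → echT S b y u = 0 := by
      intro h
      unfold echT
      refine Finset.sum_eq_zero fun v _ => ?_
      rcases ech_two (b v u) with h1 | h1
      · rw [h1, zero_mul, zero_smul]
      · have h2 : b u v = 0 := by
          rcases hos u v with h3 | h3
          · exact h3
          · rw [h3] at h1
            exact absurd h1 (by decide)
        have h3 : y v = ∅ := h v (by unfold Lk; rw [h1, h2, zero_add])
        have h4 : S.l ⬝ᵥ S.tys (y v) = 0 := by rw [ech_tys, h3, Finset.sum_empty]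
        rw [h4, mul_zero, zero_smul]
    constructor
    · intro h
      have e1 : (c u).1 + echT S b y u = 0 := congrArg Prod.fst h
      have e2 : (c u).2 ∪ echU S b y u = ∅ := congrArg Prod.snd h
      rw [Finset.union_eq_empty] at e2
      have h3 : ∀ v, Lk b u v → y v = ∅ := by
        intro v hv
        refine Finset.eq_empty_of_forall_notMem fun p hp => ?_
        have h4 : p ∈ echU S b y u := (echU_mem S b y u p).2 ⟨v, hv, hp⟩
        rw [e2.2] at h4
        exact absurd h4 (Finset.notMem_empty p)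
      refine ⟨Prod.ext ?_ e2.1, h3⟩
      rw [hT h3, add_zero] at e1
      exact e1
    · rintro ⟨h1, h2⟩
      refine Prod.ext ?_ ?_
      · change (c u).1 + echT S b y u = 0
        rw [hT h2, h1, add_zero]
      · change (c u).2 ∪ echU S b y u = ∅
        rw [Finset.union_eq_empty]
        refine ⟨by rw [h1], Finset.eq_empty_of_forall_notMem fun p hp => ?_⟩
        obtain ⟨v, hv, hq⟩ := (echU_mem S b y u p).1 hp
        rw [h2 v hv] at hq
        exact absurd hq (Finset.notMem_empty p)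
  · have hxy : ∀ u, x u = ∅ ∨ y u = ∅ := by
      intro u
      by_cases hu : u ∈ I
      · exact Or.inr (hyI u hu)
      · exact Or.inl (hxI u hu)
    refine ⟨⟨?_, ?_⟩, ?_⟩
    · rintro ⟨h1, h2⟩
      refine ⟨fun i j hij => Finset.disjoint_of_subset_left Finset.subset_union_left
        (Finset.disjoint_of_subset_right Finset.subset_union_left (h1 i j hij)), fun u => ?_⟩
      refine Finset.disjoint_left.2 fun p hp hq => ?_
      rcases (hM' p).1 hq with h3 | ⟨v, h3⟩
      · exact Finset.disjoint_left.1 (h2 u) (Finset.mem_union_left _ hp) h3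
      · by_cases huv : u = v
        · subst huv
          rcases hxy u with h4 | h4
          · rw [h4] at hp
            exact absurd hp (Finset.notMem_empty p)
          · rw [h4] at h3
            exact absurd h3 (Finset.notMem_empty p)
        · exact Finset.disjoint_left.1 (h1 u v huv) (Finset.mem_union_left _ hp)
            (Finset.mem_union_right _ h3)
    · rintro ⟨h1, h2⟩
      have h3 : ∀ i j, Disjoint (x i) (y j) := fun i j =>
        Finset.disjoint_left.2 fun p hp hq =>
          Finset.disjoint_left.1 (h2 i) hp ((hM' p).2 (Or.inr ⟨j, hq⟩))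
      refine ⟨fun i j hij => ?_, fun u => ?_⟩
      · exact Finset.disjoint_union_left.2 ⟨Finset.disjoint_union_right.2 ⟨h1 i j hij, h3 i j⟩,
          Finset.disjoint_union_right.2 ⟨(h3 j i).symm, hy i j hij⟩⟩
      · exact Finset.disjoint_union_left.2 ⟨Finset.disjoint_left.2 fun p hp hq =>
          Finset.disjoint_left.1 (h2 u) hp ((hM' p).2 (Or.inl hq)), hoff u⟩
    · intro h1 h2
      have h3 : ∀ u v, ∀ p ∈ x u, ∀ q ∈ y v, p ≠ q := by
        intro u v p hp q hq h
        exact Finset.disjoint_left.1 (h2 u) hp ((hM' p).2 (Or.inr ⟨v, h ▸ hq⟩))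
      rw [ech_EE S b c hxy, ech_zero S b hos I hI hxI, ech_mix S b y hy h3, zero_add,
        ← Finset.sum_add_distrib]
      congr 1
      refine Finset.sum_congr rfl fun u _ => ?_
      rw [← Finset.sum_add_distrib]
      refine Finset.sum_congr rfl fun p _ => ?_
      unfold xc Sys.ex
      rw [Finset.sum_union (hdis u), add_dotProduct]
      ring

end Pool.Agent.EV
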