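import Pool.Agent.EV.CCmp0

/-!
# Project T4 (MP_a3214d), even order, block C, row C19: comparison of families and ideals
-/

set_option autoImplicit false

open scoped BigOperators Topology
open Filter

namespace Pool.Agent.EV

open Pool.Agent.H98.MK (sg)
open Pool.Agent.H98.MF
open Pool.Agent.H32.MQ (El)
open Pool.Agent.D8 (pat Tk ls ad)

/-! ### the identity -/

section Id

variable {S : Sys} {ι : Type} [Fintype ι]

/-- the local factors of the family of characters -/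
noncomputable def cmA (c : ι → S.T) (y : Finset S.P) (p : S.P) : PowerSeries ℝ :=
  ((cmL (fun u => c u ⬝ᵥ S.ty p) (decide (p ∈ y)) : Polynomial ℝ) : PowerSeries ℝ)

theorem cme_A (c : ι → S.T) (y : Finset S.P) (p : S.P) (k : ℕ) :
    PowerSeries.coeff k (cmA c y p) =
      (cmL (fun u => c u ⬝ᵥ S.ty p) (decide (p ∈ y))).coeff k :=
  Polynomial.coeff_coe _ _

theorem cme_A0 (c : ι → S.T) (y : Finset S.P) (p : S.P) :
    PowerSeries.coeff 0 (cmA c y p) = 1 := by
  rw [cme_A, cme_L0]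

theorem cme_sg_mul (z : ZMod 2) (k : ℕ) : cmS ((k : ZMod 2) * z) = cmS z ^ k := by
  unfold cmS
  induction k with
  | zero => simp [sg_zero]
  | succ k ih => rw [Nat.cast_succ, add_mul, sg_add, one_mul, pow_succ, Int.cast_mul, ih]

theorem cme_cv (c : S.T) (f : S.P →₀ ℕ) : ((cv c f : ℤ) : ℝ) =
    MvPowerSeries.coeff f (cmE (fun p => cmG (cmS (c ⬝ᵥ S.ty p)))) := by
  change _ = ∏ p ∈ f.support, PowerSeries.coeff (f p) (cmG (cmS (c ⬝ᵥ S.ty p)))
  unfold cv Finsupp.sum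
  rw [sg_sum, Int.cast_prod]
  refine Finset.prod_congr rfl fun p _ => ?_
  unfold cmG
  rw [PowerSeries.coeff_mk]
  exact cme_sg_mul _ _

theorem cme_DD (c : ι → S.T) (Y : ℝ) : DD c Y =
    ∑ F ∈ S.idl Y, MvPowerSeries.coeff F
      (∏ u, cmE (fun p => cmG (cmS (c u ⬝ᵥ S.ty p)))) := by
  classical
  rw [← cme_pi]
  unfold DD
  refine Finset.sum_congr (by congr) fun f _ => ?_
  refine if_congr Iff.rfl ?_ rfl
  rw [Int.cast_prod]
  exact Finset.prod_congr rfl fun u _ => cme_cv _ _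

/-- the local factors of the families -/
noncomputable def cmR (c : ι → S.T) (y : Finset S.P) (p : S.P) : PowerSeries ℝ :=
  if p ∈ y then 1 else 1 + PowerSeries.C (∑ u, cmS (c u ⬝ᵥ S.ty p)) * PowerSeries.X

theorem cme_prodR (c : ι → S.T) (y : Finset S.P) :
    cmE (cmA c y) * ∏ u, cmE (fun p => cmG (cmS (c u ⬝ᵥ S.ty p))) = cmE (cmR c y) := by
  have h1 := cme_prod Finset.univ (fun (u : ι) (p : S.P) => cmG (cmS (c u ⬝ᵥ S.ty p)))
    (fun _ _ => cme_geo0 _)
  rw [h1.2, cme_mul _ _ (cme_A0 c y) h1.1]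
  congr 1
  funext p
  unfold cmA cmR
  rw [cme_loc]
  simp

theorem cme_R (c : ι → S.T) (y : Finset S.P) (Y : ℝ) :
    ∑ F ∈ S.idl Y, MvPowerSeries.coeff F (cmE (cmR c y)) =
      ∑ d ∈ (S.bx Y).filter (fun d => Disjoint d y),
        ∏ p ∈ d, ∑ u, cmS (c u ⬝ᵥ S.ty p) := by
  classical
  symm
  refine Finset.sum_of_injOn S.idf (fun a _ b _ h => S.idf_inj h) ?_ ?_ ?_
  · intro d hd
    rw [Finset.mem_coe, Finset.mem_filter, S.mem_bx] at hd
    rw [Finset.mem_coe, S.mem_idl, S.nf_idf]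
    exact hd.1
  · intro F hF hn
    change (∏ p ∈ F.support, PowerSeries.coeff (F p) (cmR c y p)) = 0
    by_contra hne
    have h1 : ∀ p ∈ F.support, p ∉ y ∧ F p = 1 := by
      intro p hp
      have h2 := Finset.prod_ne_zero_iff.1 hne p hp
      have h3 : F p ≠ 0 := Finsupp.mem_support_iff.1 hp
      unfold cmR at h2
      split_ifs at h2 with hy
      · rw [PowerSeries.coeff_one, if_neg h3] at h2
        exact absurd rfl h2
      · refine ⟨hy, ?_⟩
        by_contra h4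
        obtain ⟨k, hk⟩ : ∃ k, F p = k + 1 + 1 := ⟨F p - 2, by omega⟩
        rw [hk, map_add, PowerSeries.coeff_one, if_neg (Nat.succ_ne_zero _),
          PowerSeries.coeff_succ_mul_X, PowerSeries.coeff_C, if_neg (Nat.succ_ne_zero _),
          add_zero] at h2
        exact h2 rfl
    have h5 : F = S.idf F.support := by
      ext p
      rw [S.idf_apply]
      split_ifs with h
      · exact (h1 p h).2
      · exact Finsupp.notMem_support_iff.1 h
    refine hn ⟨F.support, ?_, h5.symm⟩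
    rw [Finset.mem_coe, Finset.mem_filter, S.mem_bx, ← S.nf_idf, ← h5]
    exact ⟨S.mem_idl.1 hF, Finset.disjoint_left.2 fun p hp => (h1 p hp).1⟩
  · intro d hd
    rw [Finset.mem_filter] at hd
    change _ = ∏ p ∈ (S.idf d).support, PowerSeries.coeff (S.idf d p) (cmR c y p)
    rw [S.idf_support]
    refine Finset.prod_congr rfl fun p hp => ?_
    rw [S.idf_apply, if_pos hp]
    unfold cmR
    rw [if_neg (Finset.disjoint_left.1 hd.2 hp), map_add, PowerSeries.coeff_one,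
      if_neg one_ne_zero, zero_add]
    have h := PowerSeries.coeff_succ_mul_X 0 (PowerSeries.C (∑ u, cmS (c u ⬝ᵥ S.ty p)))
    rw [PowerSeries.coeff_C, if_pos rfl] at h
    exact h.symm

theorem cme_CC (c : ι → S.T) (y : Finset S.P) (Y : ℝ) :
    CCc y c Y = ∑ F ∈ S.idl Y, MvPowerSeries.coeff F (cmE (cmR c y)) := by
  classical
  rw [cme_R]
  unfold CCc
  rw [← Finset.sum_filter]
  rw [← Finset.sum_fiberwise_of_maps_to (g := fun x : ι → Finset S.P => Finset.univ.biUnion x)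
    (t := (S.bx Y).filter (fun d => Disjoint d y))]
  · refine Finset.sum_congr rfl fun d hd => ?_
    rw [Finset.mem_filter, S.mem_bx] at hd
    rw [← cme_fam (fun (u : ι) (p : S.P) => cmS (c u ⬝ᵥ S.ty p)) d]
    · refine Finset.sum_congr rfl fun x _ => ?_
      rw [sg_sum, Int.cast_prod]
      refine Finset.prod_congr rfl fun u _ => ?_
      unfold Sys.tys cmS
      rw [dotProduct_sum, sg_sum, Int.cast_prod]
    · intro x
      rw [Finset.mem_filter, Finset.mem_filter]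
      constructor
      · rintro ⟨⟨_, h1, _, _⟩, h2⟩
        refine ⟨h1, ?_⟩
        convert h2
      · rintro ⟨h1, h2⟩
        have h2' : Finset.univ.biUnion x = d := by convert h2
        have h3 : ((∏ u, S.nm (x u) : ℕ) : ℝ) ≤ Y := by
          rw [← S.nm_biUnion Finset.univ x (fun i _ j _ hij => h1 i j hij), h2']
          exact hd.1
        refine ⟨⟨?_, h1, ?_, h3⟩, h2'⟩
        · rw [Fintype.mem_piFinset]
          intro u
          rw [S.mem_bx]
          refine le_trans ?_ h3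
          exact_mod_cast Finset.single_le_prod' (f := fun u => S.nm (x u))
            (fun v _ => S.one_le_nm _) (Finset.mem_univ u)
        · intro u
          refine Finset.disjoint_of_subset_left ?_ hd.2
          rw [← h2']
          exact Finset.subset_biUnion_of_mem x (Finset.mem_univ u)
  · intro x hx
    rw [Finset.mem_filter] at hx
    obtain ⟨_, h1, h2, h3⟩ := hx
    rw [Finset.mem_filter, S.mem_bx, S.nm_biUnion Finset.univ x (fun i _ j _ hij => h1 i j hij),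
      Finset.disjoint_biUnion_left]
    exact ⟨h3, fun u _ => h2 u⟩

theorem cme_id (c : ι → S.T) (y : Finset S.P) (Y : ℝ) :
    CCc y c Y = ∑ f ∈ S.idl Y, MvPowerSeries.coeff f (cmE (cmA c y)) * DD c (Y / S.nf f) := by
  rw [cme_CC, ← cme_prodR, ← cme_conv]
  exact Finset.sum_congr rfl fun f _ => by rw [cme_DD]

end Id

/-! ### the norms -/

section Nm

theorem cme_Lsum {ι : Type} [Fintype ι] (t : ι → ZMod 2) (b : Bool) (x : ℝ) (h0 : 0 ≤ x)
    (n : ℕ) (hn : Fintype.card ι ≤ n) :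
    ∑ k ∈ Finset.range (n + 2), |(cmL t b).coeff k| * x ^ k ≤
      1 + |(cmL t b).coeff 1| * x + ((Fintype.card ι : ℝ) * cmB ι) * max 1 (x ^ Fintype.card ι) *
        x ^ 2 := by
  rw [Finset.sum_range_succ', Finset.sum_range_succ', cme_L0, abs_one, pow_zero, mul_one,
    zero_add, pow_one]
  have h1 : ∑ k ∈ Finset.range n, |(cmL t b).coeff (k + 1 + 1)| * x ^ (k + 1 + 1) =
      ∑ k ∈ Finset.range (Fintype.card ι), |(cmL t b).coeff (k + 1 + 1)| * x ^ (k + 1 + 1) := by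
    symm
    refine Finset.sum_subset (fun k hk => ?_) fun k _ hk => ?_
    · rw [Finset.mem_range] at hk ⊢
      omega
    · rw [Finset.mem_range, not_lt] at hk
      rw [cme_Lhi t b (k + 1 + 1) (by omega), abs_zero, zero_mul]
  rw [h1]
  have h2 : ∑ k ∈ Finset.range (Fintype.card ι), |(cmL t b).coeff (k + 1 + 1)| *
      x ^ (k + 1 + 1) ≤ ∑ _k ∈ Finset.range (Fintype.card ι),
        cmB ι * max 1 (x ^ Fintype.card ι) * x ^ 2 := by
    refine Finset.sum_le_sum fun k hk => ?_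
    rw [Finset.mem_range] at hk
    rw [show k + 1 + 1 = k + 2 by omega, pow_add, ← mul_assoc]
    refine mul_le_mul_of_nonneg_right ?_ (by positivity)
    refine mul_le_mul (cme_B t b _) ?_ (by positivity) cme_B_nonneg
    rcases le_total x 1 with hx | hx
    · exact (pow_le_one₀ h0 hx).trans (le_max_left _ _)
    · exact (pow_le_pow_right₀ hx hk.le).trans (le_max_right _ _)
  rw [Finset.sum_const, Finset.card_range, nsmul_eq_mul] at h2
  linarith

theorem cme_Lsum' {ι : Type} [Fintype ι] (t : ι → ZMod 2) (b : Bool) (x : ℝ) (h0 : 0 ≤ x)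
    (hx : x ≤ 1) (n : ℕ) (hn : Fintype.card ι ≤ n) :
    ∑ k ∈ Finset.range (n + 2), |(cmL t b).coeff k| * x ^ k ≤
      1 + |(cmL t b).coeff 1| * x + ((Fintype.card ι : ℝ) * cmB ι) * x ^ 2 := by
  have h := cme_Lsum t b x h0 n hn
  rwa [max_eq_left (pow_le_one₀ h0 hx), mul_one] at h

/-- the constant -/
noncomputable def cmK (ι : Type) [Fintype ι] : ℝ := ((Fintype.card ι : ℝ) + 1) * cmB ι

theorem cme_K_nonneg (ι : Type) [Fintype ι] : 0 ≤ cmK ι :=
  mul_nonneg (by positivity) cme_B_nonneg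

variable {S : Sys} {ι : Type} [Fintype ι]

theorem cme_nf (f : S.P →₀ ℕ) (s : ℝ) :
    (S.nf f : ℝ) ^ (-s) = ∏ p ∈ f.support, ((S.N p : ℝ) ^ (-s)) ^ (f p) := by
  unfold Pre.nf Finsupp.prod
  rw [Nat.cast_prod, ← Real.finsetProd_rpow _ _ (fun p _ => Nat.cast_nonneg _)]
  refine Finset.prod_congr rfl fun p _ => ?_
  rw [Nat.cast_pow, ← Real.rpow_natCast, ← Real.rpow_natCast, ← Real.rpow_mul (Nat.cast_nonneg _),
    ← Real.rpow_mul (Nat.cast_nonneg _), mul_comm]

theorem cme_term (c : ι → S.T) (y : Finset S.P) (f : S.P →₀ ℕ) (s : ℝ) (D : Finset S.P)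
    (hD : f.support ⊆ D) :
    MvPowerSeries.coeff f (cmE (cmA c y)) * (S.nf f : ℝ) ^ (-s) =
      ∏ p ∈ D, (PowerSeries.coeff (f p) (cmA c y p) * ((S.N p : ℝ) ^ (-s)) ^ (f p)) := by
  rw [cme_coeff _ (cme_A0 c y) f f.support subset_rfl, cme_nf, ← Finset.prod_mul_distrib]
  refine Finset.prod_subset hD fun p _ hp => ?_
  rw [Finsupp.notMem_support_iff.1 hp, cme_A0, pow_zero, mul_one]

theorem cme_absterm (c : ι → S.T) (y : Finset S.P) (f : S.P →₀ ℕ) (s : ℝ) (D : Finset S.P)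
    (hD : f.support ⊆ D) :
    |MvPowerSeries.coeff f (cmE (cmA c y))| * (S.nf f : ℝ) ^ (-s) =
      ∏ p ∈ D, (|PowerSeries.coeff (f p) (cmA c y p)| * ((S.N p : ℝ) ^ (-s)) ^ (f p)) := by
  have h1 : 0 ≤ (S.nf f : ℝ) ^ (-s) := Real.rpow_nonneg (Nat.cast_nonneg _) _
  rw [← abs_of_nonneg h1, ← abs_mul, cme_term c y f s D hD, Finset.abs_prod]
  refine Finset.prod_congr rfl fun p _ => ?_
  rw [abs_mul, abs_of_nonneg (pow_nonneg (Real.rpow_nonneg (Nat.cast_nonneg _) _) _)]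

theorem cme_x (p : S.P) : 0 ≤ (S.N p : ℝ) ^ (-(3 / 4) : ℝ) ∧ (S.N p : ℝ) ^ (-(3 / 4) : ℝ) ≤ 1 ∧
    (S.N p : ℝ) ^ (-(3 / 4) : ℝ) ≤ (S.N p : ℝ) ^ (-(1 / 2) : ℝ) ∧
    ((S.N p : ℝ) ^ (-(3 / 4) : ℝ)) ^ 2 = (S.N p : ℝ) ^ (-(3 / 2) : ℝ) := by
  have h2 : (1 : ℝ) ≤ S.N p := by exact_mod_cast S.one_le_N p
  refine ⟨Real.rpow_nonneg (by linarith) _, Real.rpow_le_one_of_one_le_of_nonpos h2 (by norm_num),
    Real.rpow_le_rpow_of_exponent_le h2 (by norm_num), ?_⟩
  rw [← Real.rpow_natCast, ← Real.rpow_mul (by linarith)]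
  norm_num

open Classical in
/-- the bound for the local factors -/
noncomputable def cmW (ι : Type) [Fintype ι] (y : Finset S.P) (p : S.P) : ℝ :=
  (if p ∈ y then 1 + cmK ι * (S.N p : ℝ) ^ (-(1 / 2) : ℝ) else 1) *
    Real.exp (cmK ι * (S.N p : ℝ) ^ (-(3 / 2) : ℝ))

theorem cme_locle (c : ι → S.T) (y : Finset S.P) (p : S.P) (n : ℕ)
    (hn : Fintype.card ι ≤ n) :
    ∑ k ∈ Finset.range (n + 2), |PowerSeries.coeff k (cmA c y p)| *
      ((S.N p : ℝ) ^ (-(3 / 4) : ℝ)) ^ k ≤ cmW ι y p := by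
  obtain ⟨x0, x1, x2, x3⟩ := cme_x (S := S) p
  have hB := cme_B_nonneg (ι := ι)
  have hK := cme_K_nonneg ι
  simp only [cme_A]
  refine (cme_Lsum' _ _ _ x0 x1 n hn).trans ?_
  have h0 : 0 ≤ cmK ι * (S.N p : ℝ) ^ (-(3 / 2) : ℝ) := by
    rw [← x3]
    positivity
  have he := Real.add_one_le_exp (cmK ι * (S.N p : ℝ) ^ (-(3 / 2) : ℝ))
  unfold cmW
  by_cases hp : p ∈ y
  · rw [if_pos hp]
    have h1 : |(cmL (fun u => c u ⬝ᵥ S.ty p) (decide (p ∈ y))).coeff 1| *
        (S.N p : ℝ) ^ (-(3 / 4) : ℝ) ≤ cmB ι * (S.N p : ℝ) ^ (-(1 / 2) : ℝ) :=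
      mul_le_mul (cme_B _ _ _) x2 x0 hB
    have h2 : ((Fintype.card ι : ℝ) * cmB ι) * ((S.N p : ℝ) ^ (-(3 / 4) : ℝ)) ^ 2 ≤
        ((Fintype.card ι : ℝ) * cmB ι) * (S.N p : ℝ) ^ (-(1 / 2) : ℝ) := by
      refine mul_le_mul_of_nonneg_left ?_ (by positivity)
      refine le_trans ?_ x2
      rw [sq]
      exact mul_le_of_le_one_left x0 x1
    have h3 : 0 ≤ (S.N p : ℝ) ^ (-(1 / 2) : ℝ) := x0.trans x2
    have h4 : 1 + cmK ι * (S.N p : ℝ) ^ (-(1 / 2) : ℝ) ≤
        (1 + cmK ι * (S.N p : ℝ) ^ (-(1 / 2) : ℝ)) *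
          Real.exp (cmK ι * (S.N p : ℝ) ^ (-(3 / 2) : ℝ)) :=
      le_mul_of_one_le_right (by positivity) (by linarith)
    refine le_trans ?_ h4
    unfold cmK
    rw [add_mul, add_mul, one_mul]
    linarith
  · rw [if_neg hp, one_mul]
    have h1 : (cmL (fun u => c u ⬝ᵥ S.ty p) (decide (p ∈ y))).coeff 1 = 0 := by
      have : decide (p ∈ y) = false := by simpa using hp
      rw [this]
      exact cme_L1 _
    rw [h1, abs_zero, zero_mul, add_zero, x3]
    refine le_trans ?_ he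
    have h2 : ((Fintype.card ι : ℝ) * cmB ι) * (S.N p : ℝ) ^ (-(3 / 2) : ℝ) ≤
        cmK ι * (S.N p : ℝ) ^ (-(3 / 2) : ℝ) := by
      refine mul_le_mul_of_nonneg_right ?_ (by rw [← x3]; positivity)
      unfold cmK
      nlinarith
    linarith

theorem cme_prodle (y D : Finset S.P) : ∏ p ∈ D, cmW ι y p ≤
    lo (cmK ι) y * Real.exp (cmK ι * ∑' p : S.P, (S.N p : ℝ) ^ (-(3 / 2) : ℝ)) := by
  classical
  have hK := cme_K_nonneg ι
  have hs : Summable fun p : S.P => (S.N p : ℝ) ^ (-(3 / 2) : ℝ) :=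
    summable_N S (3 / 2) (by norm_num)
  have hn : ∀ p : S.P, 0 ≤ (S.N p : ℝ) ^ (-(3 / 2) : ℝ) :=
    fun p => Real.rpow_nonneg (Nat.cast_nonneg _) _
  have h1 : ∀ p : S.P, 1 ≤ 1 + cmK ι * (S.N p : ℝ) ^ (-(1 / 2) : ℝ) := by
    intro p
    have : 0 ≤ cmK ι * (S.N p : ℝ) ^ (-(1 / 2) : ℝ) :=
      mul_nonneg hK (Real.rpow_nonneg (Nat.cast_nonneg _) _)
    linarith
  unfold cmW
  rw [Finset.prod_mul_distrib, ← Finset.prod_filter, ← Real.exp_sum, ← Finset.mul_sum]
  refine mul_le_mul ?_ (Real.exp_le_exp.2 (mul_le_mul_of_nonneg_left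
    (hs.sum_le_tsum D fun p _ => hn p) hK)) (Real.exp_pos _).le ?_
  · unfold lo
    have hsub : D.filter (fun p => p ∈ y) ⊆ y := fun p hp => (Finset.mem_filter.1 hp).2
    rw [← Finset.prod_sdiff hsub]
    refine le_mul_of_one_le_left (Finset.prod_nonneg fun p _ => zero_le_one.trans (h1 p)) ?_
    exact Finset.one_le_prod fun p _ => h1 p
  · exact Finset.prod_nonneg fun p _ => zero_le_one.trans (h1 p)

theorem cme_sumle (c : ι → S.T) (y : Finset S.P) (U : Finset (S.P →₀ ℕ)) :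
    ∑ f ∈ U, |MvPowerSeries.coeff f (cmE (cmA c y))| * (S.nf f : ℝ) ^ (-(3 / 4) : ℝ) ≤
      Real.exp (cmK ι * ∑' p : S.P, (S.N p : ℝ) ^ (-(3 / 2) : ℝ)) * lo (cmK ι) y := by
  classical
  set D : Finset S.P := U.biUnion fun f => f.support with hD
  set n : ℕ := Fintype.card ι + ∑ f ∈ U, ∑ p ∈ f.support, f p with hn
  have hsup : ∀ f ∈ U, f.support ⊆ D := fun f hf =>
    Finset.subset_biUnion_of_mem (fun f : S.P →₀ ℕ => f.support) hf
  have hle : ∀ f ∈ U, ∀ p, f p ≤ n := by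
    intro f hf p
    by_cases hp : p ∈ f.support
    · have h1 : f p ≤ ∑ p ∈ f.support, f p :=
        Finset.single_le_sum (f := fun p => f p) (fun _ _ => Nat.zero_le _) hp
      have h2 : ∑ p ∈ f.support, f p ≤ ∑ f ∈ U, ∑ p ∈ f.support, f p :=
        Finset.single_le_sum (f := fun f : S.P →₀ ℕ => ∑ p ∈ f.support, f p)
          (fun _ _ => Nat.zero_le _) hf
      omega
    · rw [Finsupp.notMem_support_iff.1 hp]
      exact Nat.zero_le _
  have hU : U ⊆ D.finsupp fun _ => Finset.range (n + 2) := by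
    intro f hf
    rw [Finset.mem_finsupp_iff]
    refine ⟨hsup f hf, fun p _ => ?_⟩
    rw [Finset.mem_range]
    have := hle f hf p
    omega
  calc ∑ f ∈ U, |MvPowerSeries.coeff f (cmE (cmA c y))| * (S.nf f : ℝ) ^ (-(3 / 4) : ℝ)
      ≤ ∑ f ∈ D.finsupp (fun _ => Finset.range (n + 2)),
        |MvPowerSeries.coeff f (cmE (cmA c y))| * (S.nf f : ℝ) ^ (-(3 / 4) : ℝ) :=
        Finset.sum_le_sum_of_subset_of_nonneg hU fun f _ _ =>
          mul_nonneg (abs_nonneg _) (Real.rpow_nonneg (Nat.cast_nonneg _) _)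
    _ = ∑ f ∈ D.finsupp (fun _ => Finset.range (n + 2)), ∏ p ∈ D,
        (|PowerSeries.coeff (f p) (cmA c y p)| * ((S.N p : ℝ) ^ (-(3 / 4) : ℝ)) ^ (f p)) := by
        refine Finset.sum_congr rfl fun f hf => ?_
        rw [Finset.mem_finsupp_iff] at hf
        exact cme_absterm c y f (3 / 4) D hf.1
    _ = ∏ p ∈ D, ∑ k ∈ Finset.range (n + 2),
        (|PowerSeries.coeff k (cmA c y p)| * ((S.N p : ℝ) ^ (-(3 / 4) : ℝ)) ^ k) :=
        cme_fin D (fun _ => Finset.range (n + 2)) (fun p k =>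
          |PowerSeries.coeff k (cmA c y p)| * ((S.N p : ℝ) ^ (-(3 / 4) : ℝ)) ^ k)
    _ ≤ ∏ p ∈ D, cmW ι y p := by
        refine Finset.prod_le_prod (fun p _ => Finset.sum_nonneg fun k _ =>
          mul_nonneg (abs_nonneg _) (pow_nonneg (cme_x (S := S) p).1 _)) fun p _ => ?_
        exact cme_locle c y p n (by omega)
    _ ≤ _ := by
        rw [mul_comm]
        exact cme_prodle y D

end Nm

/-! ### the value at `1` -/

section Val

variable {S : Sys} {ι : Type} [Fintype ι]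

/-- the local values -/
noncomputable def cmV (c : ι → S.T) (y : Finset S.P) (p : S.P) : ℝ :=
  ∑ k ∈ Finset.range (Fintype.card ι + 2),
    PowerSeries.coeff k (cmA c y p) * ((S.N p : ℝ) ^ (-(1 : ℝ))) ^ k

theorem cme_tends (c : ι → S.T) (y : Finset S.P)
    (hs : Summable fun f => MvPowerSeries.coeff f (cmE (cmA c y)) * (S.nf f : ℝ)⁻¹) :
    Tendsto (fun D : Finset S.P => ∏ p ∈ D, cmV c y p) atTop
      (𝓝 (∑' f, MvPowerSeries.coeff f (cmE (cmA c y)) * (S.nf f : ℝ)⁻¹)) := by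
  classical
  set F : (S.P →₀ ℕ) → ℝ := fun f => MvPowerSeries.coeff f (cmE (cmA c y)) * (S.nf f : ℝ)⁻¹
    with hF
  set r : ℕ := Fintype.card ι + 2 with hr
  have hz : ∀ f : S.P →₀ ℕ, (∃ p, r ≤ f p) → F f = 0 := by
    rintro f ⟨p, hp⟩
    have hp0 : p ∈ f.support := by
      rw [Finsupp.mem_support_iff]
      omega
    have h1 : MvPowerSeries.coeff f (cmE (cmA c y)) = 0 := by
      change (∏ p ∈ f.support, PowerSeries.coeff (f p) (cmA c y p)) = 0
      refine Finset.prod_eq_zero hp0 ?_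
      rw [cme_A, cme_Lhi _ _ _ hp]
    rw [hF]
    simp only [h1, zero_mul]
  have h1 : HasSum (fun f : {f : S.P →₀ ℕ // ∀ p, f p < r} => F f.1) (∑' f, F f) := by
    refine (hasSum_subtype_iff_of_support_subset (s := {f : S.P →₀ ℕ | ∀ p, f p < r}) ?_).2
      hs.hasSum
    intro f hf p
    by_contra h
    exact hf (hz f ⟨p, not_lt.1 h⟩)
  have h2 : Tendsto (fun D : Finset S.P => (D.finsupp (fun _ => Finset.range r)).subtype
      (fun f : S.P →₀ ℕ => ∀ p, f p < r)) atTop atTop := by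
    refine Filter.tendsto_atTop_finset_of_monotone ?_ ?_
    · intro D D' hDD f hf
      rw [Finset.mem_subtype, Finset.mem_finsupp_iff] at hf ⊢
      exact ⟨hf.1.trans hDD, fun p _ => Finset.mem_range.2 (f.2 p)⟩
    · intro f
      refine ⟨f.1.support, ?_⟩
      rw [Finset.mem_subtype, Finset.mem_finsupp_iff]
      exact ⟨subset_rfl, fun p _ => Finset.mem_range.2 (f.2 p)⟩
  have h3 : Tendsto (fun D : Finset S.P => ∑ f ∈ (D.finsupp (fun _ => Finset.range r)).subtype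
      (fun f : S.P →₀ ℕ => ∀ p, f p < r), F f.1) atTop (𝓝 (∑' f, F f)) :=
    Filter.Tendsto.comp (g := fun s : Finset {f : S.P →₀ ℕ // ∀ p, f p < r} =>
      ∑ f ∈ s, F f.1) h1 h2
  refine h3.congr fun D => ?_
  rw [Finset.sum_subtype_of_mem (f := F) (p := fun f : S.P →₀ ℕ => ∀ p, f p < r)]
  · unfold cmV
    rw [← cme_fin D (fun _ => Finset.range r) (fun p k =>
      PowerSeries.coeff k (cmA c y p) * ((S.N p : ℝ) ^ (-(1 : ℝ))) ^ k)]
    refine Finset.sum_congr rfl fun f hf => ?_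
    rw [Finset.mem_finsupp_iff] at hf
    rw [hF, ← cme_term c y f 1 D hf.1, Real.rpow_neg (Nat.cast_nonneg _), Real.rpow_one]
  · intro f hf p
    rw [Finset.mem_finsupp_iff] at hf
    by_cases hp : p ∈ D
    · exact Finset.mem_range.1 (hf.2 p hp)
    · have : f p = 0 := by
        by_contra h
        exact hp (hf.1 (Finsupp.mem_support_iff.2 h))
      omega

/-- the factors of the constant -/
noncomputable def cmg (ι : Type) [Fintype ι] (p : S.P) : ℝ :=
  (1 + (Fintype.card ι : ℝ) / (S.N p : ℝ)) * (1 - 1 / (S.N p : ℝ)) ^ Fintype.card ι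

theorem cme_evalL (b : Bool) (x : ℝ) :
    ∑ k ∈ Finset.range (Fintype.card ι + 2), (cmL (fun _ : ι => (0 : ZMod 2)) b).coeff k * x ^ k =
      (if b then 1 else 1 + (Fintype.card ι : ℝ) * x) * (1 - x) ^ Fintype.card ι := by
  rw [← Polynomial.eval_eq_sum_range' (cme_Ldeg _ b) x]
  unfold cmL cmD cmS
  simp only [sg_zero, Finset.prod_const, Finset.card_univ]
  cases b <;> simp

theorem cme_V0 (c : ι → S.T) (hc : ∀ u, c u = 0) (y : Finset S.P) (p : S.P) :
    cmV c y p = cmg ι p *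
      (if p ∈ y then (1 + (Fintype.card ι : ℝ) / (S.N p : ℝ))⁻¹ else 1) := by
  have h2 : (2 : ℝ) ≤ S.N p := by exact_mod_cast S.two_le p
  have h3 : (1 + (Fintype.card ι : ℝ) / (S.N p : ℝ)) ≠ 0 := by positivity
  have ht : (fun u => c u ⬝ᵥ S.ty p) = fun _ : ι => (0 : ZMod 2) := by
    funext u
    rw [hc u, zero_dotProduct]
  unfold cmV cmg
  simp only [cme_A]
  rw [ht, cme_evalL, Real.rpow_neg (by linarith), Real.rpow_one]
  by_cases hp : p ∈ y
  · simp only [hp, decide_true, if_true]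
    rw [one_div]
    field_simp
  · simp only [hp, decide_false, if_false]
    rw [one_div, div_eq_mul_inv, mul_one]
    simp

theorem cme_gsum : Summable fun p : S.P => ‖cmg ι p - 1‖ := by
  refine Summable.of_nonneg_of_le (fun _ => norm_nonneg _) (fun p => ?_)
    ((summable_N S (3 / 2) (by norm_num)).mul_left ((Fintype.card ι : ℝ) * cmB ι))
  have h2 : (2 : ℝ) ≤ S.N p := by exact_mod_cast S.two_le p
  have h1 := cme_V0 (S := S) (fun _ : ι => 0) (fun _ => rfl) ∅ p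
  rw [if_neg (Finset.notMem_empty p), mul_one] at h1
  rw [← h1]
  unfold cmV
  simp only [cme_A]
  set x : ℝ := (S.N p : ℝ) ^ (-(1 : ℝ)) with hx
  have x0 : 0 ≤ x := Real.rpow_nonneg (by linarith) _
  have x1 : x ≤ 1 := Real.rpow_le_one_of_one_le_of_nonpos (by linarith) (by norm_num)
  have x2 : x ^ 2 ≤ (S.N p : ℝ) ^ (-(3 / 2) : ℝ) := by
    rw [hx, ← Real.rpow_natCast, ← Real.rpow_mul (by linarith)]
    refine Real.rpow_le_rpow_of_exponent_le (by linarith) ?_
    norm_num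
  have hd : decide (p ∈ (∅ : Finset S.P)) = false := by simp
  rw [hd]
  have h4 := cme_Lsum' (fun u : ι => (0 : S.T) ⬝ᵥ S.ty p) false x x0 x1 (Fintype.card ι) le_rfl
  rw [cme_L1, abs_zero, zero_mul, add_zero, Finset.sum_range_succ', cme_L0, abs_one, pow_zero,
    mul_one] at h4
  rw [Finset.sum_range_succ', cme_L0, pow_zero, mul_one, add_sub_cancel_right]
  refine (norm_sum_le _ _).trans ?_
  have h5 : ∀ k ∈ Finset.range (Fintype.card ι + 1),
      ‖(cmL (fun u : ι => (0 : S.T) ⬝ᵥ S.ty p) false).coeff (k + 1) * x ^ (k + 1)‖ =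
      |(cmL (fun u : ι => (0 : S.T) ⬝ᵥ S.ty p) false).coeff (k + 1)| * x ^ (k + 1) := by
    intro k _
    rw [Real.norm_eq_abs, abs_mul, abs_of_nonneg (pow_nonneg x0 (k + 1))]
  rw [Finset.sum_congr rfl h5]
  have hB := cme_B_nonneg (ι := ι)
  have h6 : ((Fintype.card ι : ℝ) * cmB ι) * x ^ 2 ≤
      ((Fintype.card ι : ℝ) * cmB ι) * (S.N p : ℝ) ^ (-(3 / 2) : ℝ) :=
    mul_le_mul_of_nonneg_left x2 (by positivity)
  linarith

theorem cme_gpos (p : S.P) : 0 < cmg ι p := by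
  have h2 : (2 : ℝ) ≤ S.N p := by exact_mod_cast S.two_le p
  have h3 : 1 / (S.N p : ℝ) < 1 := by
    rw [div_lt_one (by linarith)]
    linarith
  unfold cmg
  have h4 : 0 < 1 - 1 / (S.N p : ℝ) := by linarith
  positivity

theorem cme_gprod : HasProd (fun p : S.P => cmg ι p) (∏' p : S.P, cmg ι p) := by
  have h := multipliable_one_add_of_summable (cme_gsum (S := S) (ι := ι))
  simp only [add_sub_cancel] at h
  exact h.hasProd

theorem cme_kpos : 0 < ∏' p : S.P, cmg ι p := by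
  have hne := tprod_one_add_ne_zero_of_summable (f := fun p : S.P => cmg ι p - 1)
    (fun p => by
      rw [add_sub_cancel]
      exact (cme_gpos p).ne') (cme_gsum (S := S) (ι := ι))
  simp only [add_sub_cancel] at hne
  refine lt_of_le_of_ne ?_ hne.symm
  refine ge_of_tendsto (cme_gprod (S := S) (ι := ι)) (Filter.Eventually.of_forall fun s => ?_)
  exact Finset.prod_nonneg fun p _ => (cme_gpos p).le

end Val

theorem scmp : SCmp := by
  intro S ι _
  refine ⟨cmK ι, Real.exp (cmK ι * ∑' p : S.P, (S.N p : ℝ) ^ (-(3 / 2) : ℝ)),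
    ∏' p : S.P, cmg ι p, cme_K_nonneg ι, (Real.exp_pos _).le, cme_kpos, fun c y => ?_⟩
  have h0 : ∀ f : S.P →₀ ℕ, 0 ≤ |MvPowerSeries.coeff f (cmE (cmA c y))| *
      (S.nf f : ℝ) ^ (-(3 / 4) : ℝ) := fun f =>
    mul_nonneg (abs_nonneg _) (Real.rpow_nonneg (Nat.cast_nonneg _) _)
  have hsum : Summable fun f : S.P →₀ ℕ => |MvPowerSeries.coeff f (cmE (cmA c y))| *
      (S.nf f : ℝ) ^ (-(3 / 4) : ℝ) := summable_of_sum_le h0 (cme_sumle c y)
  refine ⟨fun f => MvPowerSeries.coeff f (cmE (cmA c y)), hsum,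
    Real.tsum_le_of_sum_le h0 (cme_sumle c y), fun Y _ => cme_id c y Y, fun hc => ?_⟩
  have hs : Summable fun f => MvPowerSeries.coeff f (cmE (cmA c y)) * (S.nf f : ℝ)⁻¹ := by
    refine Summable.of_norm_bounded hsum fun f => ?_
    have h1 : (1 : ℝ) ≤ S.nf f := by exact_mod_cast S.nf_pos f
    rw [Real.norm_eq_abs, abs_mul, abs_of_nonneg (inv_nonneg.2 (zero_le_one.trans h1))]
    refine mul_le_mul_of_nonneg_left ?_ (abs_nonneg _)
    rw [← Real.rpow_neg_one]
    exact Real.rpow_le_rpow_of_exponent_le h1 (by norm_num)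
  have h1 := cme_tends c y hs
  have h2 : HasProd (fun p : S.P =>
      if p ∈ y then (1 + (Fintype.card ι : ℝ) / (S.N p : ℝ))⁻¹ else 1) (ty0 ι y) := by
    have h3 := hasProd_prod_of_ne_finset_one (L := SummationFilter.unconditional S.P)
      (f := fun p : S.P => if p ∈ y then (1 + (Fintype.card ι : ℝ) / (S.N p : ℝ))⁻¹ else 1)
      (s := y) (fun p hp => if_neg hp)
    have h4 : ∏ p ∈ y, (if p ∈ y then (1 + (Fintype.card ι : ℝ) / (S.N p : ℝ))⁻¹ else 1) =
        ty0 ι y := Finset.prod_congr rfl fun p hp => if_pos hp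
    rwa [h4] at h3
  have h3 := (cme_gprod (S := S) (ι := ι)).mul h2
  have h4 : Tendsto (fun D : Finset S.P => ∏ p ∈ D, cmV c y p) atTop
      (𝓝 ((∏' p : S.P, cmg ι p) * ty0 ι y)) := by
    have h5 : (fun p : S.P => cmg ι p *
        (if p ∈ y then (1 + (Fintype.card ι : ℝ) / (S.N p : ℝ))⁻¹ else 1)) = cmV c y :=
      funext fun p => (cme_V0 c hc y p).symm
    rw [h5] at h3
    exact h3
  exact tendsto_nhds_unique h1 h4

end Pool.Agent.EV
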