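import Pool.Agent.EV.CStm

/-!
# Project T4 (MP_a3214d), even order, C5: the number of isolated types with trivial character
(helper40)
-/

set_option autoImplicit false

open scoped BigOperators

namespace Pool.Agent.EV

open Pool.Agent.H98.MF
open Pool.Agent.H32.MQ (El)
open Pool.Agent.D8 (pat Tk ls ad)

section

variable {d n : ℕ}

private theorem ecomb_dbl {m : ℕ} (v : Fin m → ZMod 2) : v + v = 0 := by
  funext i
  exact CharTwo.add_self_eq_zero (v i)

private theorem ecomb_alt (Bd : BD d n) (v w : VV d) : Bd.B v w = Bd.B w v := by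
  have h := Bd.alt (v + w)
  rw [map_add, map_add, LinearMap.add_apply, LinearMap.add_apply, Bd.alt, Bd.alt, zero_add,
    add_zero] at h
  have h2 := ecomb_dbl (Bd.B w v)
  rw [← h2] at h
  exact (add_left_cancel h)

private theorem ecomb_ad {S : Sys} {a b : El S} : ad a b = (0, ∅) ↔ a = b := by
  classical
  unfold ad
  constructor
  · intro h
    have h1 : a.1 + b.1 = 0 := congrArg Prod.fst h
    have h2 : symmDiff a.2 b.2 = ∅ := congrArg Prod.snd h
    refine Prod.ext ?_ ?_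
    · rw [← ecomb_dbl b.1] at h1
      exact add_right_cancel h1
    · rw [← Finset.bot_eq_empty, symmDiff_eq_bot] at h2
      exact h2
  · rintro rfl
    rw [ecomb_dbl, symmDiff_self, Finset.bot_eq_empty]

private theorem ecomb_mem {ι : Type} [Fintype ι] {b : ι → ι → ZMod 2} {U : Finset ι} {u : ι} :
    u ∈ iso b U ↔ u ∈ U ∧ ∀ v ∈ U, ¬ Lk b u v := by
  unfold iso
  exact @Finset.mem_filter _ _ (_) _ _

private theorem ecomb_z2 {a : ZMod 2} (h : a ≠ 1) : a = 0 := by
  revert a; decide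

private theorem ecomb_iso {Bd : BD d n} {R : Finset (VV d)}
    {U : Finset (R × VV n)} {u : R × VV n} (hu : u ∈ iso (bz Bd R) U)
    {w : R × VV n} (hw : w ∈ U) :
    u.2 ⬝ᵥ Bd.B w.1 u.1 + w.2 ⬝ᵥ Bd.B w.1 u.1 = 0 := by
  have h := (ecomb_mem.1 hu).2 w hw
  unfold Lk bz at h
  rw [ecomb_alt Bd u.1 w.1] at h
  exact ecomb_z2 h

private theorem ecomb_fib {S : Sys} {Bd : BD d n} {R : Finset (VV d)}
    {c : VV d → VV n → El S} {Φ : Finset R → Prop} (hA : Adc c)
    (hG : Gen Bd R c Φ) (η : R × VV n → El S) (U : Finset (R × VV n))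
    [DecidableEq R] (hU : Φ (U.image Prod.fst)) (A : Finset (R × VV n))
    (hη : ∀ u ∈ A, ∀ u' ∈ A, u.1 = u'.1 → η u = η u')
    (hAi : ∀ u ∈ A, u ∈ iso (bz Bd R) U ∧ ad (cz R c u) (η u) = (0, ∅)) (v : R) :
    (A.filter fun u => u.1 = v).card ≤ nv Bd R c v := by
  classical
  rcases Finset.eq_empty_or_nonempty (A.filter fun u => u.1 = v) with h0 | ⟨u0, hu0⟩
  · rw [h0, Finset.card_empty]
    exact Nat.zero_le _
  rw [Finset.mem_filter] at hu0
  obtain ⟨hu0A, hu0v⟩ := hu0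
  have h0 := hAi u0 hu0A
  unfold nv
  refine Finset.card_le_card_of_injOn (fun u => u.2 + u0.2) ?_ ?_
  · intro u hu
    rw [Finset.mem_coe, Finset.mem_filter] at hu
    obtain ⟨huA, huv⟩ := hu
    have h1 := hAi u huA
    have hc : c v (u.2 + u0.2) = (0, ∅) := by
      rw [hA v u.2 u0.2, ecomb_ad]
      have e2 := ecomb_ad.1 h1.2
      have e3 := ecomb_ad.1 h0.2
      unfold cz at e2 e3
      rw [huv] at e2
      rw [hu0v] at e3
      rw [e2, e3]
      exact hη u huA u0 hu0A (huv.trans hu0v.symm)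
    rw [Finset.mem_coe, Finset.mem_filter]
    refine ⟨Finset.mem_univ _, hc, ?_⟩
    refine hG _ hU v v.2 _ hc ?_
    intro w hw
    rw [Finset.mem_image] at hw
    obtain ⟨x, hx, rfl⟩ := hw
    have e1 := ecomb_iso h1.1 hx
    have e2 := ecomb_iso h0.1 hx
    rw [huv] at e1
    rw [hu0v] at e2
    change (u.2 + u0.2) ⬝ᵥ Bd.B x.1 v = 0
    rw [add_dotProduct]
    have e3 : x.2 ⬝ᵥ Bd.B x.1 v + x.2 ⬝ᵥ Bd.B x.1 v = 0 := CharTwo.add_self_eq_zero _
    linear_combination e1 + e2 - e3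
  · intro u hu u' hu' h
    rw [Finset.mem_coe, Finset.mem_filter] at hu hu'
    have h1 : u.2 = u'.2 := add_right_cancel h
    exact Prod.ext (hu.2.trans hu'.2.symm) h1

private theorem ecomb_nv {S : Sys} (Bd : BD d n) (R : Finset (VV d))
    {c : VV d → VV n → El S} (hA : Adc c) (v : VV d) :
    1 ≤ nv Bd R c v := by
  classical
  unfold nv
  rw [Nat.succ_le_iff, Finset.card_pos]
  refine ⟨0, ?_⟩
  rw [Finset.mem_filter]
  refine ⟨Finset.mem_univ _, ?_, fun w => zero_dotProduct _⟩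
  have h := hA v 0 0
  rw [add_zero] at h
  rw [h, ecomb_ad]

end

/-- the number of isolated types with trivial character -/
theorem scomb : SComb := by
  classical
  intro S d n Bd R c Φ hA hG η U hη hU
  set A : Finset (R × VV n) := (iso (bz Bd R) U).filter
    fun u => ad (cz R c u) (η u) = (0, ∅) with hAdef
  have hAi : ∀ u ∈ A, u ∈ iso (bz Bd R) U ∧ ad (cz R c u) (η u) = (0, ∅) := by
    intro u hu
    rw [hAdef, Finset.mem_filter] at hu
    exact hu
  have hU' : Φ (U.image Prod.fst) := by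
    convert hU
  have hwt : wt (bz Bd R) (fun u => ad (cz R c u) (η u)) U = A.card := by
    unfold wt
    rw [hAdef]
  have hcard : A.card = ∑ v : R, (A.filter fun u => u.1 = v).card :=
    Finset.card_eq_sum_card_fiberwise (fun u _ => Finset.mem_coe.2 (Finset.mem_univ _))
  have hbV : bV Bd R c = ∑ v : R, nv Bd R c v := by
    unfold bV
    rw [Finset.sum_coe_sort R (fun v => nv Bd R c v)]
  have hfib : ∀ v : R, (A.filter fun u => u.1 = v).card ≤ nv Bd R c v := fun v =>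
    ecomb_fib hA hG η U hU' A (fun u hu u' hu' => hη u (hAi u hu).1 u' (hAi u' hu').1) hAi v
  have hle : A.card ≤ bV Bd R c := by
    rw [hcard, hbV]
    exact Finset.sum_le_sum fun v _ => hfib v
  have heq : A.card = bV Bd R c → ∀ v : R, ∃ z : VV n, (v, z) ∈ A := by
    intro h v
    rw [hcard, hbV, Finset.sum_eq_sum_iff_of_le (fun v _ => hfib v)] at h
    have h1 := h v (Finset.mem_univ v)
    have h2 := ecomb_nv (S := S) Bd R hA (v : VV d)
    rw [← h1, Nat.succ_le_iff, Finset.card_pos] at h2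
    obtain ⟨u, hu⟩ := h2
    rw [Finset.mem_filter] at hu
    refine ⟨u.2, ?_⟩
    rw [← hu.2]
    exact hu.1
  have hiU : ∀ u ∈ iso (bz Bd R) U, u ∈ U := by
    intro u hu
    exact (ecomb_mem.1 hu).1
  rw [hwt]
  refine ⟨hle, ?_, ?_⟩
  · intro hne
    refine lt_of_le_of_ne hle fun h => hne ?_
    have hex := heq h
    refine Finset.Subset.antisymm hiU ?_
    intro u' hu'
    rw [ecomb_mem]
    refine ⟨hu', fun u'' hu'' => ?_⟩
    intro hg
    obtain ⟨z1, hz1⟩ := hex u'.1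
    obtain ⟨z2, hz2⟩ := hex u''.1
    have i1 := (hAi _ hz1).1
    have i2 := (hAi _ hz2).1
    have e1 := ecomb_iso i1 hu''
    have e2 := ecomb_iso i2 hu'
    have e3 := ecomb_iso i1 (hiU _ i2)
    simp only at e1 e2 e3
    rw [ecomb_alt Bd u'.1 u''.1] at e2
    unfold Lk bz at hg
    rw [ecomb_alt Bd u'.1 u''.1] at hg
    have e4 : u'.2 ⬝ᵥ Bd.B u''.1 u'.1 + u''.2 ⬝ᵥ Bd.B u''.1 u'.1 = 0 := by
      have k1 : z1 ⬝ᵥ Bd.B u''.1 u'.1 + z1 ⬝ᵥ Bd.B u''.1 u'.1 = 0 :=
        CharTwo.add_self_eq_zero _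
      have k2 : z2 ⬝ᵥ Bd.B u''.1 u'.1 + z2 ⬝ᵥ Bd.B u''.1 u'.1 = 0 :=
        CharTwo.add_self_eq_zero _
      linear_combination e1 + e2 + e3 - k1 - k2
    rw [e4] at hg
    exact absurd hg (by decide)
  · intro h
    have hex := heq h
    rw [Finset.eq_univ_iff_forall]
    intro v
    obtain ⟨z, hz⟩ := hex v
    exact Finset.mem_image.2 ⟨(v, z), hiU _ (hAi _ hz).1, rfl⟩

end Pool.Agent.EV
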