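import Pool.Agent.EV.CStm
import Pool.Agent.H92.EL.CDiv

/-!
# Project T4 (MP_a3214d), even order, block C: sums over tuples of ideals
-/

set_option autoImplicit false

open scoped BigOperators Topology
open Filter

namespace Pool.Agent.EV

open Pool.Agent.H98.MK (sg)
open Pool.Agent.H98.MF
open Pool.Agent.H92.EL.CDiv (idl_zero idl_floor Z Z_nonneg abel_bd abel_up log_sum rpow_sum
  sum_pi_succ er er_le)

namespace CDiv

section

variable (S : Sys)

/-- the value of a type character as a complex number -/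
noncomputable def cvc (c : S.T) (f : S.P →₀ ℕ) : ℂ := ((cv c f : ℤ) : ℂ)

/-- the sum as a complex number -/
noncomputable def DDc {ι : Type} [Fintype ι] (c : ι → S.T) (Y : ℝ) : ℂ :=
  ((DD c Y : ℝ) : ℂ)

lemma DD_fin (n : ℕ) (c : Fin n → S.T) (Y : ℝ) : DDc S c Y =
    ∑ f ∈ Fintype.piFinset (fun _ : Fin n => S.idl Y),
      if ((∏ u, S.nf (f u) : ℕ) : ℝ) ≤ Y then ∏ u, cvc S (c u) (f u) else 0 := by
  unfold DDc DD cvc
  rw [Complex.ofReal_sum]
  have h : (Fintype.piFinset (fun _ : Fin n => S.idl Y)) =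
      @Fintype.piFinset (Fin n) (fun a b => Classical.propDecidable (a = b)) _ _
        (fun _ : Fin n => S.idl Y) := by
    congr
    exact Subsingleton.elim _ _
  rw [h]
  refine Finset.sum_congr rfl fun f _ => ?_
  split_ifs <;> push_cast <;> rfl

lemma DD_succ (n : ℕ) (c : Fin (n + 1) → S.T) (Y : ℝ) (hY : 0 ≤ Y) :
    DDc S c Y = ∑ f ∈ S.idl Y, cvc S (c 0) f *
      DDc S (fun i : Fin n => c i.succ) (Y / S.nf f) := by
  rw [DD_fin, sum_pi_succ]
  refine Finset.sum_congr rfl fun f hf => ?_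
  rw [DD_fin]
  have hf0 : (0 : ℝ) < S.nf f := by exact_mod_cast S.nf_pos f
  have hsub : Fintype.piFinset (fun _ : Fin n => S.idl (Y / S.nf f)) ⊆
      Fintype.piFinset (fun _ : Fin n => S.idl Y) := by
    intro g hg
    rw [Fintype.mem_piFinset] at hg ⊢
    intro i
    have := hg i
    rw [S.mem_idl] at this ⊢
    refine this.trans (div_le_self hY ?_)
    exact_mod_cast S.nf_pos f
  rw [Finset.mul_sum]
  refine Eq.trans ?_ (Finset.sum_subset hsub ?_).symm
  · refine Finset.sum_congr rfl fun g _ => ?_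
    rw [Fin.prod_univ_succ, Fin.prod_univ_succ]
    simp only [Fin.cons_zero, Fin.cons_succ]
    have : (((S.nf f * ∏ i : Fin n, S.nf (g i) : ℕ) : ℝ) ≤ Y) ↔
        (((∏ i : Fin n, S.nf (g i) : ℕ) : ℝ) ≤ Y / S.nf f) := by
      rw [le_div_iff₀ hf0]
      push_cast
      rw [mul_comm]
    by_cases h : ((∏ i : Fin n, S.nf (g i) : ℕ) : ℝ) ≤ Y / S.nf f
    · rw [if_pos h, if_pos (this.2 h)]
    · rw [if_neg h, if_neg (fun h' => h (this.1 h')), mul_zero]
  · intro g _ hg
    rw [if_neg, mul_zero]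
    intro hle
    apply hg
    rw [Fintype.mem_piFinset]
    intro i
    rw [S.mem_idl]
    refine le_trans ?_ hle
    rw [Nat.cast_le]
    exact Finset.single_le_prod' (f := fun i => S.nf (g i)) (fun j _ => S.nf_pos (g j))
      (Finset.mem_univ i)

lemma DD_equiv {ι κ : Type} [Fintype ι] [Fintype κ] (e : ι ≃ κ) (c : ι → S.T) (Y : ℝ) :
    DD c Y = DD (fun j => c (e.symm j)) Y := by
  classical
  unfold DD
  refine Finset.sum_nbij' (fun f j => f (e.symm j)) (fun g i => g (e i)) ?_ ?_ ?_ ?_ ?_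
  · intro f hf
    rw [Fintype.mem_piFinset] at hf ⊢
    exact fun j => hf _
  · intro g hg
    rw [Fintype.mem_piFinset] at hg ⊢
    exact fun i => hg _
  · intro f _
    funext i
    simp
  · intro g _
    funext j
    simp
  · intro f _
    have h1 : ∏ j, S.nf (f (e.symm j)) = ∏ u, S.nf (f u) :=
      Equiv.prod_comp e.symm fun u => S.nf (f u)
    have h2 : ∏ j, cv (c (e.symm j)) (f (e.symm j)) = ∏ u, cv (c u) (f u) :=
      Equiv.prod_comp e.symm fun u => cv (c u) (f u)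
    rw [h1, h2]

/-! ### one variable -/

open Classical in
/-- the density of a character -/
noncomputable def al (c : S.T) : ℝ := if c = 0 then S.κ else 0

lemma norm_cv (c : S.T) (f : S.P →₀ ℕ) : ‖cvc S c f‖ = 1 := by
  unfold cvc cv sg
  split_ifs <;> simp

lemma one_var (c : S.T) (t : ℝ) (ht : 1 ≤ t) :
    ‖∑ f ∈ S.idl t, cvc S c f - ((al S c : ℝ) : ℂ) * t‖ ≤ S.C * t ^ (1 - S.δ) := by
  by_cases h : c = 0
  · subst h
    have h1 : ∀ f ∈ S.idl t, cvc S 0 f = 1 := by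
      intro f _
      unfold cvc cv sg
      simp
    rw [Finset.sum_congr rfl h1, al, if_pos rfl]
    have h2 := S.cnt t ht
    simp only [Finset.sum_const, nsmul_eq_mul, mul_one]
    rw [← Complex.ofReal_natCast, ← Complex.ofReal_mul, ← Complex.ofReal_sub, Complex.norm_real,
      Real.norm_eq_abs]
    exact h2
  · rw [al, if_neg h]
    have h2 := S.chr ∅ c (Or.inr h) t ht
    have h3 : ∀ f ∈ S.idl t, (S.toPre.chv ∅ (fun p => ∑ q ∈ (∅ : Finset S.P), S.J q p +
        c ⬝ᵥ S.ty p) f : ℝ) = ((cv c f : ℤ) : ℝ) := by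
      intro f _
      unfold Pre.chv cv
      rw [if_pos (by simp)]
      simp
    rw [Finset.sum_congr rfl h3] at h2
    have h4 : S.nm (∅ : Finset S.P) = 1 := by
      simp [Pre.nm]
    rw [h4] at h2
    have h5 : ∑ f ∈ S.idl t, cvc S c f = ((∑ f ∈ S.idl t, ((cv c f : ℤ) : ℝ) : ℝ) : ℂ) := by
      unfold cvc
      push_cast
      rfl
    rw [h5]
    simp only [Complex.ofReal_zero, zero_mul, sub_zero, Complex.norm_real, Real.norm_eq_abs]
    simpa using h2

lemma card_le (m : ℕ) : ((S.idl ((m : ℕ) : ℝ)).card : ℝ) ≤ (S.κ + S.C) * m := by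
  rcases Nat.eq_zero_or_pos m with rfl | hm
  · rw [idl_zero]; simp
  · have hm1 : (1 : ℝ) ≤ m := by exact_mod_cast hm
    have h1 := (abs_le.1 (S.cnt m hm1)).2
    have h2 : (m : ℝ) ^ (1 - S.δ) ≤ m := by
      calc (m : ℝ) ^ (1 - S.δ) ≤ (m : ℝ) ^ (1 : ℝ) :=
            Real.rpow_le_rpow_of_exponent_le hm1 (by linarith [S.δ_pos])
        _ = m := Real.rpow_one _
    have h3 := mul_le_mul_of_nonneg_left h2 S.C_nonneg
    nlinarith

lemma nf_one (f : S.P →₀ ℕ) : (1 : ℝ) ≤ S.nf f := by exact_mod_cast S.nf_pos f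

lemma inv_sum (Y : ℝ) (hY : 1 ≤ Y) :
    ∑ f ∈ S.idl Y, ((S.nf f : ℝ))⁻¹ ≤ (S.κ + S.C) * (1 + Real.log Y) := by
  have hY0 : 0 ≤ Y := by linarith
  have hM1 : 1 ≤ ⌊Y⌋₊ := Nat.le_floor (by exact_mod_cast hY)
  rw [idl_floor S.toPre hY0]
  have h1 := abel_up S.toPre (S.κ + S.C) (card_le S) (fun m => ((m : ℝ))⁻¹) ⌊Y⌋₊
    (by positivity) (fun m hm _ => by
      have hm0 : (0 : ℝ) < m := by exact_mod_cast hm
      push_cast
      exact inv_anti₀ hm0 (by linarith))
  refine h1.trans (mul_le_mul_of_nonneg_left ?_ (add_nonneg S.κ_pos.le S.C_nonneg))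
  have h2 := (abs_le.1 (log_sum Y hY 0)).2
  simp only [pow_zero, zero_add, pow_one, Nat.cast_zero, div_one, one_div] at h2
  linarith

lemma er_sum (k : ℕ) : ∃ C : ℝ, 0 ≤ C ∧ ∀ Y : ℝ, 1 ≤ Y →
    ∑ f ∈ S.idl Y, er S.δ k (Y / S.nf f) ≤ C * (Y * (1 + Real.log Y) ^ k) := by
  have hκC : 0 ≤ S.κ + S.C := add_nonneg S.κ_pos.le S.C_nonneg
  cases k with
  | zero =>
    refine ⟨(S.κ + S.C) / S.δ, div_nonneg hκC S.δ_pos.le, fun Y hY => ?_⟩
    have hY0 : 0 < Y := by linarith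
    have h1 := abel_up S.toPre (S.κ + S.C) (card_le S) (fun m => (m : ℝ) ^ (-(1 - S.δ))) ⌊Y⌋₊
      (by positivity) (fun m hm _ => by
        have hm0 : (0 : ℝ) < m := by exact_mod_cast hm
        push_cast
        exact Real.rpow_le_rpow_of_nonpos hm0 (by linarith) (by linarith [S.δ_le]))
    rw [← idl_floor S.toPre hY0.le] at h1
    have h2 := rpow_sum S.δ S.δ_pos S.δ_le ⌊Y⌋₊
    have h3 : (⌊Y⌋₊ : ℝ) ^ S.δ ≤ Y ^ S.δ :=
      Real.rpow_le_rpow (Nat.cast_nonneg _) (Nat.floor_le hY0.le) S.δ_pos.le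
    have h4 : ∀ f ∈ S.idl Y, er S.δ 0 (Y / S.nf f) =
        Y ^ (1 - S.δ) * (S.nf f : ℝ) ^ (-(1 - S.δ)) := by
      intro f _
      have := nf_one S f
      change (Y / S.nf f) ^ (1 - S.δ) = _
      rw [Real.div_rpow hY0.le (by linarith), Real.rpow_neg (by linarith), div_eq_mul_inv]
    rw [Finset.sum_congr rfl h4, ← Finset.mul_sum, pow_zero, mul_one]
    have h5 : 0 ≤ Y ^ (1 - S.δ) := Real.rpow_nonneg hY0.le _
    have h6 : Y ^ (1 - S.δ) * Y ^ S.δ = Y := by
      rw [← Real.rpow_add hY0, sub_add_cancel, Real.rpow_one]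
    calc _ ≤ Y ^ (1 - S.δ) * ((S.κ + S.C) * (Y ^ S.δ / S.δ)) := by
          refine mul_le_mul_of_nonneg_left (h1.trans (mul_le_mul_of_nonneg_left
            (h2.trans ?_) hκC)) h5
          exact div_le_div_of_nonneg_right h3 S.δ_pos.le
      _ = (S.κ + S.C) / S.δ * (Y ^ (1 - S.δ) * Y ^ S.δ) := by ring
      _ = _ := by rw [h6]
  | succ k =>
    refine ⟨S.κ + S.C, hκC, fun Y hY => ?_⟩
    have hY0 : 0 < Y := by linarith
    have hlY := Real.log_nonneg hY
    have h4 : ∀ f ∈ S.idl Y, er S.δ (k + 1) (Y / S.nf f) ≤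
        (Y * (1 + Real.log Y) ^ k) * (S.nf f : ℝ)⁻¹ := by
      intro f hf
      have h1 := nf_one S f
      have hf0 : (0 : ℝ) < S.nf f := by linarith
      rw [S.mem_idl] at hf
      change (Y / S.nf f) * (1 + Real.log (Y / S.nf f)) ^ k ≤ _
      have h2 : 0 ≤ Real.log (Y / S.nf f) :=
        Real.log_nonneg (by rw [le_div_iff₀ hf0, one_mul]; exact hf)
      have h3 : Real.log (Y / S.nf f) ≤ Real.log Y :=
        Real.log_le_log (by positivity) (div_le_self hY0.le h1)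
      calc _ ≤ (Y / S.nf f) * (1 + Real.log Y) ^ k :=
            mul_le_mul_of_nonneg_left (pow_le_pow_left₀ (by linarith) (by linarith) k)
              (by positivity)
        _ = _ := by ring
    refine (Finset.sum_le_sum h4).trans ?_
    rw [← Finset.mul_sum]
    calc _ ≤ (Y * (1 + Real.log Y) ^ k) * ((S.κ + S.C) * (1 + Real.log Y)) :=
          mul_le_mul_of_nonneg_left (inv_sum S Y hY) (by positivity)
      _ = _ := by ring

/-- the main term of one more variable -/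
lemma main_sum (k : ℕ) : ∃ C : ℝ, 0 ≤ C ∧ ∀ (c : S.T) (Y : ℝ), 1 ≤ Y →
    ‖∑ f ∈ S.idl Y, cvc S c f * ((Real.log (Y / S.nf f) ^ k / (S.nf f : ℝ) : ℝ) : ℂ) -
      ((al S c * (Real.log Y ^ (k + 1) / ((k : ℝ) + 1)) : ℝ) : ℂ)‖ ≤ C * Real.log Y ^ k := by
  refine ⟨S.C * (1 + Z S.δ) + S.κ, ?_, fun c Y hY => ?_⟩
  · have := Z_nonneg S.δ
    have := S.C_nonneg
    have := S.κ_pos
    positivity
  have hY0 : 0 < Y := by linarith
  have hM1 : 1 ≤ ⌊Y⌋₊ := Nat.le_floor (by exact_mod_cast hY)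
  have hnn : ∀ m : ℕ, 1 ≤ m → m ≤ ⌊Y⌋₊ → 0 ≤ Real.log (Y / m) := by
    intro m hm hm'
    have hm0 : (0 : ℝ) < m := by exact_mod_cast hm
    apply Real.log_nonneg
    rw [le_div_iff₀ hm0, one_mul]
    exact (Nat.le_floor_iff hY0.le).1 hm'
  have h1 := abel_bd S.toPre (cvc S c) ((al S c : ℝ) : ℂ) S.C S.δ S.δ_pos S.C_nonneg
    (fun m hm => by
      have := one_var S c m (by exact_mod_cast hm)
      simpa using this)
    (fun m => Real.log (Y / m) ^ k) ⌊Y⌋₊ hM1
    (fun m hm hm' => pow_nonneg (hnn m hm hm') k)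
    (fun m hm hm' => by
      have hm0 : (0 : ℝ) < m := by exact_mod_cast hm
      refine pow_le_pow_left₀ (hnn (m + 1) (by omega) (by omega)) ?_ k
      refine Real.log_le_log (by positivity) ?_
      refine div_le_div_of_nonneg_left hY0.le hm0 ?_
      push_cast; linarith)
  rw [← idl_floor S.toPre hY0.le] at h1
  simp only [Nat.cast_one, div_one] at h1
  have h2 := log_sum Y hY k
  have hal : 0 ≤ al S c ∧ al S c ≤ S.κ := by
    unfold al
    split_ifs
    · exact ⟨S.κ_pos.le, le_rfl⟩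
    · exact ⟨le_rfl, S.κ_pos.le⟩
  have h3 : ‖((al S c : ℝ) : ℂ) * ((∑ m ∈ Finset.Icc 1 ⌊Y⌋₊,
      Real.log (Y / m) ^ k / (m : ℝ) : ℝ) : ℂ) -
      ((al S c * (Real.log Y ^ (k + 1) / ((k : ℝ) + 1)) : ℝ) : ℂ)‖ ≤ S.κ * Real.log Y ^ k := by
    rw [← Complex.ofReal_mul, ← Complex.ofReal_sub, Complex.norm_real, Real.norm_eq_abs,
      ← mul_sub, abs_mul, abs_of_nonneg hal.1]
    exact mul_le_mul hal.2 h2 (abs_nonneg _) S.κ_pos.le
  refine (norm_sub_le_norm_sub_add_norm_sub _ (((al S c : ℝ) : ℂ) *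
    ((∑ m ∈ Finset.Icc 1 ⌊Y⌋₊, Real.log (Y / m) ^ k / (m : ℝ) : ℝ) : ℂ)) _).trans ?_
  rw [add_mul]
  exact add_le_add h1 h3

open Classical in
/-- the induction -/
lemma tuples (k : ℕ) : ∃ C : ℝ, 0 ≤ C ∧ ∀ (c : Fin (k + 1) → S.T) (Y : ℝ), 1 ≤ Y →
    ‖DDc S c Y - (if ∀ u, c u = 0 then
      ((S.κ ^ (k + 1) / (k.factorial : ℝ) * (Y * Real.log Y ^ k) : ℝ) : ℂ) else 0)‖ ≤
      C * er S.δ k Y := by
  induction k with
  | zero =>
    refine ⟨S.C, S.C_nonneg, fun c Y hY => ?_⟩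
    have h1 := one_var S (c 0) Y hY
    have h2 : DDc S c Y = ∑ f ∈ S.idl Y, cvc S (c 0) f := by
      rw [DD_succ S 0 c Y (by linarith)]
      refine Finset.sum_congr rfl fun f hf => ?_
      rw [DD_fin]
      rw [S.mem_idl] at hf
      have hf0 : (0 : ℝ) < S.nf f := by exact_mod_cast S.nf_pos f
      have h3 : (1 : ℝ) ≤ Y / S.nf f := by rw [le_div_iff₀ hf0, one_mul]; exact hf
      simp [h3]
    rw [h2]
    have h3 : (∀ u, c u = 0) ↔ c 0 = 0 :=
      ⟨fun h => h 0, fun h u => by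
        have hu : u = 0 := Fin.ext (by have := u.2; simp)
        rw [hu]; exact h⟩
    have h4 : (if ∀ u, c u = 0 then
      ((S.κ ^ (0 + 1) / ((0 : ℕ).factorial : ℝ) * (Y * Real.log Y ^ 0) : ℝ) : ℂ) else 0) =
      ((al S (c 0) : ℝ) : ℂ) * Y := by
      unfold al
      by_cases h : c 0 = 0
      · rw [if_pos (h3.2 h), if_pos h]; simp
      · rw [if_neg (fun h' => h (h3.1 h')), if_neg h]; simp
    rw [h4]
    exact h1
  | succ k ih =>
    obtain ⟨C1, hC1, ih⟩ := ih
    obtain ⟨C2, hC2, hE⟩ := er_sum S k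
    obtain ⟨C3, hC3, hM⟩ := main_sum S k
    set a : ℝ := S.κ ^ (k + 1) / (k.factorial : ℝ) with ha
    have ha0 : 0 ≤ a := div_nonneg (pow_nonneg S.κ_pos.le _) (Nat.cast_nonneg _)
    refine ⟨C1 * C2 + a * C3, by positivity, fun c Y hY => ?_⟩
    have hY0 : 0 < Y := by linarith
    have hlY := Real.log_nonneg hY
    rw [DD_succ S (k + 1) c Y hY0.le]
    set c' : Fin (k + 1) → S.T := fun i => c i.succ with hc'
    set mn : ℝ → ℂ := fun t => if ∀ u, c' u = 0 then
      ((a * (t * Real.log t ^ k) : ℝ) : ℂ) else 0 with hmn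
    have h1 : ‖∑ f ∈ S.idl Y, cvc S (c 0) f * DDc S c' (Y / S.nf f) -
        ∑ f ∈ S.idl Y, cvc S (c 0) f * mn (Y / S.nf f)‖ ≤ C1 * (C2 * (Y * (1 + Real.log Y) ^ k)) := by
      rw [← Finset.sum_sub_distrib]
      refine (norm_sum_le _ _).trans ?_
      refine (Finset.sum_le_sum (g := fun f => C1 * er S.δ k (Y / S.nf f)) fun f hf => ?_).trans ?_
      · rw [← mul_sub, norm_mul, norm_cv, one_mul]
        rw [S.mem_idl] at hf
        have hf0 : (0 : ℝ) < S.nf f := by exact_mod_cast S.nf_pos f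
        exact ih c' (Y / S.nf f) (by rw [le_div_iff₀ hf0, one_mul]; exact hf)
      · rw [← Finset.mul_sum]
        exact mul_le_mul_of_nonneg_left (hE Y hY) hC1
    have h2 : ‖∑ f ∈ S.idl Y, cvc S (c 0) f * mn (Y / S.nf f) - (if ∀ u, c u = 0 then
        ((S.κ ^ (k + 1 + 1) / ((k + 1).factorial : ℝ) * (Y * Real.log Y ^ (k + 1)) : ℝ) : ℂ)
        else 0)‖ ≤ a * C3 * (Y * (1 + Real.log Y) ^ k) := by
      by_cases hc : ∀ u, c' u = 0
      · have e1 : ∀ f ∈ S.idl Y, cvc S (c 0) f * mn (Y / S.nf f) = ((a * Y : ℝ) : ℂ) *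
            (cvc S (c 0) f * ((Real.log (Y / S.nf f) ^ k / (S.nf f : ℝ) : ℝ) : ℂ)) := by
          intro f _
          rw [hmn]
          simp only
          rw [if_pos hc]
          push_cast
          ring
        have e2 : (if ∀ u, c u = 0 then
            ((S.κ ^ (k + 1 + 1) / ((k + 1).factorial : ℝ) * (Y * Real.log Y ^ (k + 1)) : ℝ) : ℂ)
            else 0) = ((a * Y : ℝ) : ℂ) *
              ((al S (c 0) * (Real.log Y ^ (k + 1) / ((k : ℝ) + 1)) : ℝ) : ℂ) := by
          unfold al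
          by_cases h : c 0 = 0
          · rw [if_pos (fun u => by
              refine Fin.cases h (fun j => ?_) u
              exact hc j), if_pos h, ← Complex.ofReal_mul]
            congr 1
            rw [ha, Nat.factorial_succ]
            push_cast
            have : ((k : ℝ) + 1) ≠ 0 := by positivity
            have : (k.factorial : ℝ) ≠ 0 := by positivity
            field_simp
            ring
          · rw [if_neg (fun h' => h (h' 0)), if_neg h]
            simp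
        rw [Finset.sum_congr rfl e1, ← Finset.mul_sum, e2, ← mul_sub, norm_mul,
          Complex.norm_real, Real.norm_eq_abs, abs_of_nonneg (by positivity)]
        calc _ ≤ a * Y * (C3 * Real.log Y ^ k) :=
              mul_le_mul_of_nonneg_left (hM (c 0) Y hY) (by positivity)
          _ ≤ a * Y * (C3 * (1 + Real.log Y) ^ k) := by
              refine mul_le_mul_of_nonneg_left (mul_le_mul_of_nonneg_left
                (pow_le_pow_left₀ hlY (by linarith) k) hC3) (by positivity)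
          _ = _ := by ring
      · have e1 : ∀ f ∈ S.idl Y, cvc S (c 0) f * mn (Y / S.nf f) = 0 := by
          intro f _
          rw [hmn]
          simp only
          rw [if_neg hc, mul_zero]
        rw [Finset.sum_congr rfl e1, Finset.sum_const_zero,
          if_neg (fun h' => hc fun u => h' u.succ), sub_zero, norm_zero]
        positivity
    have h3 := norm_sub_le_norm_sub_add_norm_sub
      (∑ f ∈ S.idl Y, cvc S (c 0) f * DDc S c' (Y / S.nf f))
      (∑ f ∈ S.idl Y, cvc S (c 0) f * mn (Y / S.nf f)) (if ∀ u, c u = 0 then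
        ((S.κ ^ (k + 1 + 1) / ((k + 1).factorial : ℝ) * (Y * Real.log Y ^ (k + 1)) : ℝ) : ℂ)
        else 0)
    refine h3.trans ((add_le_add h1 h2).trans (le_of_eq ?_))
    change _ = _ * (Y * (1 + Real.log Y) ^ k)
    ring

end

end CDiv

open Classical in
/-- sums over tuples of ideals -/
theorem sdiv : SDiv := by
  intro S ι _ _
  obtain ⟨k, hk⟩ : ∃ k, Fintype.card ι = k + 1 :=
    ⟨Fintype.card ι - 1, by have := Fintype.card_pos (α := ι); omega⟩
  obtain ⟨C1, hC1, h1⟩ := CDiv.tuples S k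
  obtain ⟨C2, hC2, h2⟩ := er_le S.δ S.δ_pos k
  refine ⟨C1 * C2, by positivity, fun c Y hY => ?_⟩
  have e : ι ≃ Fin (k + 1) := Fintype.equivFinOfCardEq hk
  rw [CDiv.DD_equiv S e c Y, hk, Nat.add_sub_cancel]
  have h3 : (∀ u, c u = 0) ↔ ∀ j, c (e.symm j) = 0 :=
    ⟨fun h j => h _, fun h u => by simpa using h (e u)⟩
  have h4 := h1 (fun j => c (e.symm j)) Y hY
  simp only [h3]
  have h5 : |DD (fun j => c (e.symm j)) Y - (if ∀ j, c (e.symm j) = 0 then
      S.κ ^ (k + 1) / (k.factorial : ℝ) * (Y * Real.log Y ^ k) else 0)| =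
      ‖CDiv.DDc S (fun j => c (e.symm j)) Y - (if ∀ j, c (e.symm j) = 0 then
      ((S.κ ^ (k + 1) / (k.factorial : ℝ) * (Y * Real.log Y ^ k) : ℝ) : ℂ) else 0)‖ := by
    unfold CDiv.DDc
    rw [← Real.norm_eq_abs, ← Complex.norm_real]
    congr 1
    split_ifs <;> push_cast <;> ring
  rw [h5]
  refine h4.trans ?_
  calc C1 * er S.δ k Y ≤ C1 * (C2 * Y * (1 + Real.log Y) ^ (((k + 1 : ℕ) : ℝ) - 3 / 2)) :=
        mul_le_mul_of_nonneg_left (h2 Y hY) hC1
    _ = _ := by ring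

end Pool.Agent.EV
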