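import Pool.Agent.EV.CStm
import Pool.Agent.D8.BMrg
import Pool.Agent.D8.BExp

/-!
# Project T4 (MP_a3214d), even order: sums over disjoint families are Euler products
-/

set_option autoImplicit false

open scoped BigOperators Topology
open Filter

namespace Pool.Agent.EV

open Pool.Agent.D8 (DjP mrg)

/-- products of summable families -/
theorem ceu_pi {ι X : Type} [Fintype ι] (f : ι → X → ℝ) (h0 : ∀ u t, 0 ≤ f u t)
    (hf : ∀ u, Summable (f u)) : Summable fun x : ι → X => ∏ u, f u (x u) := by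
  classical
  refine summable_of_sum_le (c := ∏ u, ∑' t, f u t)
    (fun x => Finset.prod_nonneg fun u _ => h0 u (x u)) fun T => ?_
  have hsub : T ⊆ Fintype.piFinset fun u => T.image fun x => x u := by
    intro x hx
    rw [Fintype.mem_piFinset]
    exact fun u => Finset.mem_image_of_mem (fun x : ι → X => x u) hx
  calc ∑ x ∈ T, ∏ u, f u (x u)
      ≤ ∑ x ∈ Fintype.piFinset fun u => T.image fun x => x u, ∏ u, f u (x u) :=
        Finset.sum_le_sum_of_subset_of_nonneg hsub fun x _ _ =>
          Finset.prod_nonneg fun u _ => h0 u (x u)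
    _ = ∏ u, ∑ t ∈ T.image fun x => x u, f u t := (Finset.prod_univ_sum _ f).symm
    _ ≤ ∏ u, ∑' t, f u t := Finset.prod_le_prod
        (fun u _ => Finset.sum_nonneg fun t _ => h0 u t)
        fun u _ => (hf u).sum_le_tsum _ fun t _ => h0 u t

theorem ceu_sq {P ι : Type} [Fintype ι] {w : ι → P → ℝ} {a : P → ℝ}
    (hw : ∀ u p, |w u p| ≤ a p) (p : P) :
    (∑ u, w u p) ^ 2 ≤ (Fintype.card ι : ℝ) ^ 2 * a p ^ 2 := by
  rw [← mul_pow]
  have h1 : |∑ u, w u p| ≤ (Fintype.card ι : ℝ) * a p := by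
    refine (Finset.abs_sum_le_sum_abs _ _).trans ?_
    refine (Finset.sum_le_sum fun u _ => hw u p).trans ?_
    rw [Finset.sum_const, Finset.card_univ, nsmul_eq_mul]
  exact sq_le_sq' (by linarith [(abs_le.1 h1).1]) (abs_le.1 h1).2

/-- sums over disjoint families are Euler products -/
theorem seu : SEu := by
  classical
  intro P ι _ w a hw ha
  have hwn : ∀ u, Summable fun p => |w u p| := fun u =>
    Summable.of_nonneg_of_le (fun _ => abs_nonneg _) (hw u) ha
  have hws : ∀ u, Summable (w u) := fun u => (hwn u).of_abs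
  have hfin : Summable fun p => ∑ u, w u p := summable_sum fun u _ => hws u
  have hfam : Summable fun x : ι → Finset P => ∏ u, ∏ p ∈ x u, |w u p| :=
    ceu_pi (fun u (x : Finset P) => ∏ p ∈ x, |w u p|)
      (fun _ _ => Finset.prod_nonneg fun _ _ => abs_nonneg _)
      fun u => summable_finsetProd_of_summable_nonneg (fun _ => abs_nonneg _) (hwn u)
  have hS : Summable fun x : ι → Finset P => if DjP x then ∏ u, ∏ p ∈ x u, w u p else 0 := by
    refine Summable.of_norm_bounded hfam fun x => ?_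
    split_ifs
    · rw [Real.norm_eq_abs, Finset.abs_prod]
      refine le_of_eq (Finset.prod_congr rfl fun u _ => ?_)
      rw [Finset.abs_prod]
    · rw [norm_zero]
      exact Finset.prod_nonneg fun _ _ => Finset.prod_nonneg fun _ _ => abs_nonneg _
  obtain ⟨hT1, hT2⟩ := Pool.Agent.D8.bexp_tendsto hfin
  have hprod : HasProd (fun p => 1 + ∑ u, w u p) (∑' x : Finset P, ∏ p ∈ x, ∑ u, w u p) := hT2
  have hsum : ∑' x : ι → Finset P, (if DjP x then ∏ u, ∏ p ∈ x u, w u p else 0) =
      ∑' x : Finset P, ∏ p ∈ x, ∑ u, w u p := by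
    have h1 := Pool.Agent.D8.sMrg P ι Unit (fun _ => ()) (fun _ => 1) (fun u _ p => w u p)
      (by simpa only [one_mul] using hS)
    simp only [one_mul] at h1
    rw [h1, ← (Equiv.funUnique Unit (Finset P)).symm.tsum_eq]
    refine tsum_congr fun x => ?_
    have h2 : DjP ((Equiv.funUnique Unit (Finset P)).symm x) := fun i j hij =>
      absurd (Subsingleton.elim i j) hij
    rw [if_pos h2, Fintype.prod_unique]
    refine Finset.prod_congr rfl fun p _ => ?_
    refine Finset.sum_congr ?_ fun _ _ => rfl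
    simp
  refine ⟨hS, ?_, ?_⟩
  · rw [hsum, hprod.tprod_eq]
  · have hsq : Summable fun p => (∑ u, w u p) ^ 2 := Pool.Agent.D8.bexp_sq hfin
    have hasq : Summable fun p => a p ^ 2 := Pool.Agent.D8.bexp_sq ha
    have h4 : Tendsto (fun F : Finset P => Real.exp (∑ p ∈ F, (∑ u, w u p + (∑ u, w u p) ^ 2)))
        atTop (𝓝 (Real.exp (∑' p, (∑ u, w u p + (∑ u, w u p) ^ 2)))) :=
      (Real.continuous_exp.tendsto _).comp (hfin.add hsq).hasSum
    rw [hprod.tprod_eq]
    refine (le_of_tendsto_of_tendsto' hT2.abs h4 fun F => ?_).trans ?_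
    · rw [Finset.abs_prod, Real.exp_sum]
      exact Finset.prod_le_prod (fun _ _ => abs_nonneg _) fun p _ =>
        Pool.Agent.D8.bexp_up (∑ u, w u p)
    · rw [Real.exp_le_exp, hfin.tsum_add hsq, ← tsum_mul_left]
      have h5 : ∑' p, (∑ u, w u p) ^ 2 ≤ ∑' p, (Fintype.card ι : ℝ) ^ 2 * a p ^ 2 :=
        hsq.tsum_le_tsum (fun p => ceu_sq hw p) (hasq.mul_left _)
      linarith

end Pool.Agent.EV
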