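import Pool.Agent.EV.CStm
import Pool.Agent.D8.BMrg

/-!
# Project T4 (MP_a3214d), even order, row C8: the expansion of the sum in types
-/

set_option autoImplicit false

open scoped BigOperators Topology
open Filter

namespace Pool.Agent.EV

open Pool.Agent.H98.MK (sg)
open Pool.Agent.H98.MF
open Pool.Agent.H32.MQ (El)
open Pool.Agent.D8 (pat Tk ls ad mrg DjP mrg_mem mrg_djP mrg_fibre)

section CE0

variable {S : Sys} {d n : ℕ}

/-! ### characters -/

theorem ce0_sum_symm {α : Type} [DecidableEq α] (y y' : Finset α) (f : α → ZMod 2) :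
    ∑ q ∈ symmDiff y y', f q = ∑ q ∈ y, f q + ∑ q ∈ y', f q := by
  have h : ∀ z : Finset α, z ⊆ y ∪ y' →
      ∑ q ∈ z, f q = ∑ q ∈ y ∪ y', if q ∈ z then f q else 0 := by
    intro z hz
    rw [← Finset.sum_filter]
    congr 1
    ext q
    simp only [Finset.mem_filter]
    exact ⟨fun hq => ⟨hz hq, hq⟩, fun hq => hq.2⟩
  rw [h _ (by
    intro q hq
    rw [Finset.mem_symmDiff] at hq
    rw [Finset.mem_union]
    tauto), h y Finset.subset_union_left, h y' Finset.subset_union_right,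
    ← Finset.sum_add_distrib]
  refine Finset.sum_congr rfl fun q _ => ?_
  have h2 : f q + f q = 0 := CharTwo.add_self_eq_zero _
  by_cases h3 : q ∈ y <;> by_cases h4 : q ∈ y' <;> simp [Finset.mem_symmDiff, h3, h4, h2]

theorem ce0_xc_ad (c c' : El S) (p : S.P) : xc (ad c c') p = xc c p + xc c' p := by
  classical
  unfold xc ad Sys.ex
  have h : ∑ q ∈ symmDiff c.2 c'.2, S.J q p = ∑ q ∈ c.2, S.J q p + ∑ q ∈ c'.2, S.J q p := by
    convert ce0_sum_symm c.2 c'.2 (fun q => S.J q p)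
  dsimp only
  rw [h, add_dotProduct]
  ring

/-- the sum of the signs of an additive function -/
theorem ce0_sumsg (A : VV n → ZMod 2) (hA : ∀ ζ ζ', A (ζ + ζ') = A ζ + A ζ') :
    ∑ ζ, ((sg (A ζ) : ℤ) : ℝ) = if ∀ ζ, A ζ = 0 then (2 : ℝ) ^ n else 0 := by
  by_cases h : ∀ ζ, A ζ = 0
  · rw [if_pos h]
    have h1 : ∀ ζ : VV n, ((sg (A ζ) : ℤ) : ℝ) = 1 := by
      intro ζ
      rw [h ζ, sg_zero, Int.cast_one]
    rw [Finset.sum_congr rfl fun ζ _ => h1 ζ, Finset.sum_const, nsmul_eq_mul, mul_one,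
      Finset.card_univ, Fintype.card_fun, ZMod.card, Fintype.card_fin]
    push_cast
    rfl
  · rw [if_neg h]
    push Not at h
    obtain ⟨ζ0, h0⟩ := h
    have h1 : A ζ0 = 1 := (zm2 (A ζ0)).resolve_left h0
    have h2 : ∑ ζ, ((sg (A ζ) : ℤ) : ℝ) = ∑ ζ, ((sg (A (ζ + ζ0)) : ℤ) : ℝ) :=
      (Fintype.sum_equiv (Equiv.addRight ζ0) _ _ fun ζ => rfl).symm
    have h3 : ∀ ζ, ((sg (A (ζ + ζ0)) : ℤ) : ℝ) = -((sg (A ζ) : ℤ) : ℝ) := by
      intro ζ
      rw [hA, h1, sg_add, sg_one]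
      push_cast
      ring
    rw [Finset.sum_congr rfl fun ζ _ => h3 ζ, Finset.sum_neg_distrib] at h2
    linarith

/-- the exponent of the condition -/
def ce0A (Bd : BD d n) (R : Finset (VV d)) (c : VV d → VV n → El S) (x : R → Finset S.P)
    (t : R × VV n) (p : S.P) : ZMod 2 :=
  ∑ w : R, (∑ q ∈ x w, S.J q p) * (t.2 ⬝ᵥ Bd.B w t.1) + xc (c t.1 t.2) p

theorem ce0A_add {c : VV d → VV n → El S} (hc : Adc c) (Bd : BD d n) (R : Finset (VV d))
    (x : R → Finset S.P) (v : R) (p : S.P) (ζ ζ' : VV n) :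
    ce0A Bd R c x (v, ζ + ζ') p = ce0A Bd R c x (v, ζ) p + ce0A Bd R c x (v, ζ') p := by
  unfold ce0A
  dsimp only
  rw [hc, ce0_xc_ad]
  have h1 : ∑ w : R, (∑ q ∈ x w, S.J q p) * ((ζ + ζ') ⬝ᵥ Bd.B w v) =
      ∑ w : R, (∑ q ∈ x w, S.J q p) * (ζ ⬝ᵥ Bd.B w v) +
        ∑ w : R, (∑ q ∈ x w, S.J q p) * (ζ' ⬝ᵥ Bd.B w v) := by
    rw [← Finset.sum_add_distrib]
    refine Finset.sum_congr rfl fun w _ => ?_
    rw [add_dotProduct]
    ring
  rw [h1]
  ring

/-- the factor of a prime -/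
noncomputable def ce0W (Bd : BD d n) (R : Finset (VV d)) (c : VV d → VV n → El S)
    (τ : S.P → ℝ) (s : ℝ) (t : R × VV n) (x : R → Finset S.P) (p : S.P) : ℝ :=
  ((sg (ce0A Bd R c x t p) : ℤ) : ℝ) * (τ p * (S.N p : ℝ) ^ (-s))

open Classical in
/-- the function of the merged family -/
noncomputable def ce0F (R : Finset (VV d)) (M : Finset S.P) (Φ : Finset R → Prop)
    (θ : (R → S.T) → ℝ) (x : R → Finset S.P) : ℝ :=
  if Off S M x ∧ Φ (pat x) then θ (fun v => S.tys (x v)) else 0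

open Classical in
theorem ce0_right {c : VV d → VV n → El S} (hc : Adc c) (Bd : BD d n) (R : Finset (VV d))
    (M : Finset S.P) (Φ : Finset R → Prop) (θ : (R → S.T) → ℝ) (τ : S.P → ℝ) (s : ℝ)
    (x : R → Finset S.P) :
    (if DjP x then ce0F R M Φ θ x * ∏ k, ∏ p ∈ x k,
      ∑ t ∈ Finset.univ.filter (fun t : R × VV n => Prod.fst t = k), ce0W Bd R c τ s t x p else 0) =
    if S.Dj x ∧ Off S M x ∧ okc Bd R c x ∧ Φ (pat x)
      then θ (fun v => S.tys (x v)) *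
        ∏ v, ∏ p ∈ x v, ((2 : ℝ) ^ n * τ p * (S.N p : ℝ) ^ (-s)) else 0 := by
  have h1 : ∀ (k : R) (p : S.P), ∑ t ∈ Finset.univ.filter
      (fun t : R × VV n => Prod.fst t = k), ce0W Bd R c τ s t x p =
      (if ∀ ζ, ce0A Bd R c x (k, ζ) p = 0 then (2 : ℝ) ^ n else 0) *
        (τ p * (S.N p : ℝ) ^ (-s)) := by
    intro k p
    have h2 : Finset.univ.filter (fun t : R × VV n => Prod.fst t = k) =
        Finset.univ.image (fun ζ : VV n => (k, ζ)) := by
      ext t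
      simp only [Finset.mem_filter, Finset.mem_univ, true_and, Finset.mem_image]
      constructor
      · rintro rfl
        exact ⟨t.2, rfl⟩
      · rintro ⟨ζ, rfl⟩
        rfl
    rw [h2, Finset.sum_image (fun a _ b _ h => (Prod.mk.inj h).2)]
    unfold ce0W
    rw [← Finset.sum_mul, ce0_sumsg _ (ce0A_add hc Bd R x k p)]
  by_cases hD : DjP x
  · rw [if_pos hD]
    simp only [h1]
    have hD' : S.Dj x := hD
    by_cases ho : okc Bd R c x
    · have h2 : ∏ k, ∏ p ∈ x k, ((if ∀ ζ, ce0A Bd R c x (k, ζ) p = 0 then (2 : ℝ) ^ n else 0) *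
          (τ p * (S.N p : ℝ) ^ (-s))) =
          ∏ v, ∏ p ∈ x v, ((2 : ℝ) ^ n * τ p * (S.N p : ℝ) ^ (-s)) := by
        refine Finset.prod_congr rfl fun k _ => Finset.prod_congr rfl fun p hp => ?_
        have h3 : ∀ ζ, ce0A Bd R c x (k, ζ) p = 0 := fun ζ => ho k p hp ζ
        rw [if_pos h3]
        ring
      rw [h2]
      unfold ce0F
      by_cases h3 : Off S M x ∧ Φ (pat x)
      · rw [if_pos h3, if_pos ⟨hD', h3.1, ho, h3.2⟩]
      · rw [if_neg h3, if_neg (fun h => h3 ⟨h.2.1, h.2.2.2⟩), zero_mul]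
    · rw [if_neg (fun h => ho h.2.2.1)]
      have h2 : ∏ k, ∏ p ∈ x k, ((if ∀ ζ, ce0A Bd R c x (k, ζ) p = 0 then (2 : ℝ) ^ n else 0) *
          (τ p * (S.N p : ℝ) ^ (-s))) = 0 := by
        unfold okc at ho
        push Not at ho
        obtain ⟨v, p, hp, ζ, hζ⟩ := ho
        refine Finset.prod_eq_zero (Finset.mem_univ v) (Finset.prod_eq_zero hp ?_)
        rw [if_neg (fun h => hζ (h ζ)), zero_mul]
      rw [h2, mul_zero]
  · rw [if_neg hD, if_neg (fun h => hD h.1)]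

/-! ### the merged family -/

theorem ce0_pat {R : Finset (VV d)} (y : R × VV n → Finset S.P) :
    pat (mrg Prod.fst y : R → Finset S.P) = (pat y).image Prod.fst := by
  classical
  ext v
  have h1 : v ∈ pat (mrg Prod.fst y : R → Finset S.P) ↔
      (mrg Prod.fst y v : Finset S.P).Nonempty := by
    unfold pat
    simp only [Finset.mem_filter, Finset.mem_univ, true_and]
  have h2 : ∀ t, t ∈ pat y ↔ (y t).Nonempty := by
    intro t
    unfold pat
    simp only [Finset.mem_filter, Finset.mem_univ, true_and]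
  rw [h1, Finset.mem_image]
  constructor
  · rintro ⟨p, hp⟩
    obtain ⟨t, ht, hpt⟩ := (mrg_mem _ _ _ _).mp hp
    exact ⟨t, (h2 t).mpr ⟨p, hpt⟩, ht⟩
  · rintro ⟨t, ht, htv⟩
    obtain ⟨p, hp⟩ := (h2 t).mp ht
    exact ⟨p, (mrg_mem _ _ _ _).mpr ⟨t, htv, hp⟩⟩

theorem ce0_Off {R : Finset (VV d)} (M : Finset S.P) (y : R × VV n → Finset S.P) :
    Off S M (mrg Prod.fst y : R → Finset S.P) ↔ Off S M y := by
  constructor
  · intro h t
    rw [Finset.disjoint_left]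
    intro p hp hM
    exact Finset.disjoint_left.mp (h t.1) ((mrg_mem _ _ _ _).mpr ⟨t, rfl, hp⟩) hM
  · intro h v
    rw [Finset.disjoint_left]
    intro p hp hM
    obtain ⟨t, _, hpt⟩ := (mrg_mem _ _ _ _).mp hp
    exact Finset.disjoint_left.mp (h t) hpt hM

open Classical in
/-- sums over a merged set -/
theorem ce0_mrg_sum {A : Type} [AddCommMonoid A] {R : Finset (VV d)}
    {y : R × VV n → Finset S.P} (hy : DjP y) (v : R) (f : S.P → A) :
    ∑ p ∈ mrg Prod.fst y v, f p = ∑ ζ : VV n, ∑ p ∈ y (v, ζ), f p := by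
  have h2 : (mrg Prod.fst y v : Finset S.P) = Finset.univ.biUnion fun ζ : VV n => y (v, ζ) := by
    ext p
    rw [mrg_mem, Finset.mem_biUnion]
    constructor
    · rintro ⟨t, rfl, hp⟩
      exact ⟨t.2, Finset.mem_univ _, hp⟩
    · rintro ⟨ζ, _, hp⟩
      exact ⟨(v, ζ), rfl, hp⟩
  rw [h2]
  refine Finset.sum_biUnion fun ζ _ ζ' _ hne => ?_
  exact hy _ _ fun h => hne (Prod.mk.inj h).2

theorem ce0_EE {c : VV d → VV n → El S} (Bd : BD d n) (R : Finset (VV d))
    {y : R × VV n → Finset S.P} (hy : DjP y) :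
    ∑ t, ∑ p ∈ y t, ce0A Bd R c (mrg Prod.fst y) t p = EE (bz Bd R) (cz R c) y := by
  unfold EE ce0A cz
  rw [← Finset.sum_add_distrib]
  refine Finset.sum_congr rfl fun t _ => ?_
  rw [Finset.sum_add_distrib]
  congr 1
  rw [Finset.sum_comm, Fintype.sum_prod_type]
  refine Finset.sum_congr rfl fun w _ => ?_
  have h1 : ∀ p : S.P, (∑ q ∈ mrg Prod.fst y w, S.J q p) * (t.2 ⬝ᵥ Bd.B w t.1) =
      ∑ ζ : VV n, (t.2 ⬝ᵥ Bd.B w t.1) * ∑ q ∈ y (w, ζ), S.J q p := by
    intro p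
    rw [ce0_mrg_sum hy, mul_comm, Finset.mul_sum]
  rw [Finset.sum_congr rfl fun p _ => h1 p, Finset.sum_comm]
  refine Finset.sum_congr rfl fun ζ _ => ?_
  unfold bz Sys.JJ
  dsimp only
  rw [Finset.mul_sum]

theorem ce0_tys {R : Finset (VV d)} {y : R × VV n → Finset S.P} (hy : DjP y) (v : R) :
    S.tys (mrg Prod.fst y v) = ∑ ζ : VV n, S.tys (y (v, ζ)) := by
  unfold Sys.tys
  exact ce0_mrg_sum hy v _

open Classical in
theorem ce0_left (c : VV d → VV n → El S) (Bd : BD d n) (R : Finset (VV d))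
    (M : Finset S.P) (Φ : Finset R → Prop) (θ : (R → S.T) → ℝ) (τ : S.P → ℝ) (s : ℝ)
    (y : R × VV n → Finset S.P) :
    (if DjP y then ce0F R M Φ θ (mrg Prod.fst y) *
      ∏ t, ∏ p ∈ y t, ce0W Bd R c τ s t (mrg Prod.fst y) p else 0) =
    if Φ ((pat y).image Prod.fst) then θ (fun v => ∑ ζ : VV n, S.tys (y (v, ζ))) *
      Kt τ s (bz Bd R) (cz R c) M y else 0 := by
  by_cases hD : DjP y
  · rw [if_pos hD]
    have h1 : ∏ t, ∏ p ∈ y t, ce0W Bd R c τ s t (mrg Prod.fst y) p =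
        ((sg (EE (bz Bd R) (cz R c) y) : ℤ) : ℝ) *
          ∏ u, ∏ p ∈ y u, (τ p * (S.N p : ℝ) ^ (-s)) := by
      rw [← ce0_EE Bd R hD]
      unfold ce0W
      simp only [sg_sum, Int.cast_prod, Finset.prod_mul_distrib]
    rw [h1]
    unfold ce0F Kt
    rw [ce0_Off]
    have h2 : (fun v => S.tys (mrg Prod.fst y v)) = fun v : R => ∑ ζ : VV n, S.tys (y (v, ζ)) :=
      funext fun v => ce0_tys hD v
    have h3 : Φ (pat (mrg Prod.fst y : R → Finset S.P)) ↔ Φ ((pat y).image Prod.fst) := by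
      rw [ce0_pat]
    by_cases h4 : Φ ((pat y).image Prod.fst)
    · rw [if_pos h4]
      by_cases h5 : Off S M y
      · rw [if_pos ⟨h5, h3.mpr h4⟩, if_pos ⟨hD, h5⟩, h2]
      · rw [if_neg (fun h => h5 h.1), if_neg (fun h => h5 h.2), mul_zero, zero_mul]
    · rw [if_neg h4, if_neg (fun h => h4 (h3.mp h.2)), zero_mul]
  · rw [if_neg hD]
    unfold Kt
    have h5 : ¬ (S.Dj y ∧ Off S M y) := fun h => hD h.1
    rw [if_neg h5, mul_zero, ite_self]

theorem ce0_fib {A C : Type} (π : A → C) {f : A → ℝ} (hf : Summable f) (g : C → ℝ)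
    (h : ∀ x, ∑' y : π ⁻¹' {x}, f y = g x) : Summable g ∧ ∑' y, f y = ∑' x, g x := by
  have hF := hf.hasSum.tsum_fiberwise π
  have h1 : (fun x => ∑' y : π ⁻¹' {x}, f y) = g := funext h
  rw [h1] at hF
  exact ⟨hF.summable, hF.tsum_eq.symm⟩

open Classical in
theorem ce0_fibre {c : VV d → VV n → El S} (hc : Adc c) (Bd : BD d n) (R : Finset (VV d))
    (M : Finset S.P) (Φ : Finset R → Prop) (θ : (R → S.T) → ℝ) (τ : S.P → ℝ) (s : ℝ)
    (x : R → Finset S.P) :
    ∑' y : (mrg (Prod.fst : R × VV n → R)) ⁻¹' {x},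
      (fun y : R × VV n → Finset S.P => if DjP y then ce0F R M Φ θ (mrg Prod.fst y) *
        ∏ t, ∏ p ∈ y t, ce0W Bd R c τ s t (mrg Prod.fst y) p else 0) y =
    if S.Dj x ∧ Off S M x ∧ okc Bd R c x ∧ Φ (pat x)
      then θ (fun v => S.tys (x v)) *
        ∏ v, ∏ p ∈ x v, ((2 : ℝ) ^ n * τ p * (S.N p : ℝ) ^ (-s)) else 0 := by
  rw [← ce0_right hc Bd R M Φ θ τ s x]
  refine (mrg_fibre (Prod.fst : R × VV n → R) (ce0F R M Φ θ)
      (fun t x p => ce0W Bd R c τ s t x p) x).trans ?_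
  congr!

end CE0

open Classical in
/-- Row C8: the expansion of the sum in types. -/
theorem sexp0 (hs : SSm) : SExp0 := by
  intro S d n Bd R c M Φ θ B τ hτ hc σ hσ
  have hK := hs S (R × VV n) (bz Bd R) (cz R c) M B τ hτ σ hσ
  set T : ℝ := ∑ t, |θ t| with hT
  have hθ : ∀ t, |θ t| ≤ T := fun t =>
    Finset.single_le_sum (f := fun t => |θ t|) (fun t _ => abs_nonneg _) (Finset.mem_univ t)
  have hG : ∀ F : (R × VV n → Finset S.P) → ℝ, (∀ y, F y = 0 ∨
      F y = θ (fun v => ∑ ζ : VV n, S.tys (y (v, ζ))) *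
        Kt τ (1 + σ) (bz Bd R) (cz R c) M y) → Summable F := by
    intro F hF
    refine Summable.of_norm_bounded (hK.mul_left T) fun y => ?_
    rcases hF y with h | h
    · rw [h, norm_zero]
      exact mul_nonneg ((abs_nonneg _).trans (hθ 0)) (abs_nonneg _)
    · rw [h, Real.norm_eq_abs, abs_mul]
      exact mul_le_mul_of_nonneg_right (hθ _) (abs_nonneg _)
  have hL : (fun y : R × VV n → Finset S.P => if DjP y then ce0F R M Φ θ (mrg Prod.fst y) *
      ∏ t, ∏ p ∈ y t, ce0W Bd R c τ (1 + σ) t (mrg Prod.fst y) p else 0) =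
      fun y => if Φ ((pat y).image Prod.fst) then
        θ (fun v => ∑ ζ : VV n, S.tys (y (v, ζ))) *
          Kt τ (1 + σ) (bz Bd R) (cz R c) M y else 0 :=
    funext fun y => ce0_left c Bd R M Φ θ τ (1 + σ) y
  have hS : Summable fun y : R × VV n → Finset S.P => if DjP y then
      ce0F R M Φ θ (mrg Prod.fst y) *
        ∏ t, ∏ p ∈ y t, ce0W Bd R c τ (1 + σ) t (mrg Prod.fst y) p else 0 := by
    rw [hL]
    refine hG _ fun y => ?_
    by_cases h : Φ ((pat y).image Prod.fst)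
    · exact Or.inr (if_pos h)
    · exact Or.inl (if_neg h)
  have hF := ce0_fib (mrg (Prod.fst : R × VV n → R)) hS (fun x : R → Finset S.P =>
    if S.Dj x ∧ Off S M x ∧ okc Bd R c x ∧ Φ (pat x)
        then θ (fun v => S.tys (x v)) *
          ∏ v, ∏ p ∈ x v, ((2 : ℝ) ^ n * τ p * (S.N p : ℝ) ^ (-(1 + σ))) else 0)
    (ce0_fibre hc Bd R M Φ θ τ (1 + σ))
  refine ⟨hF.1, ?_⟩
  have h1 : FF Bd R c M Φ θ τ (1 + σ) = ∑' y : R × VV n → Finset S.P,
      (if Φ ((pat y).image Prod.fst) then θ (fun v => ∑ ζ : VV n, S.tys (y (v, ζ))) *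
        Kt τ (1 + σ) (bz Bd R) (cz R c) M y else 0) :=
    hF.2.symm.trans (tsum_congr fun y => ce0_left c Bd R M Φ θ τ (1 + σ) y)
  rw [h1]
  have h2 : ∀ U : Finset (R × VV n), (if Φ (U.image Prod.fst)
      then ∑' x : R × VV n → Finset S.P, (if pat x = U
        then θ (fun v => ∑ ζ : VV n, S.tys (x (v, ζ))) *
          Kt τ (1 + σ) (bz Bd R) (cz R c) M x else 0) else 0) =
      ∑' x : R × VV n → Finset S.P, (if Φ (U.image Prod.fst) ∧ pat x = U
        then θ (fun v => ∑ ζ : VV n, S.tys (x (v, ζ))) *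
          Kt τ (1 + σ) (bz Bd R) (cz R c) M x else 0) := by
    intro U
    by_cases h : Φ (U.image Prod.fst)
    · rw [if_pos h]
      refine tsum_congr fun x => ?_
      by_cases h3 : pat x = U
      · rw [if_pos h3, if_pos ⟨h, h3⟩]
      · rw [if_neg h3, if_neg (fun h4 => h3 h4.2)]
    · rw [if_neg h]
      exact ((tsum_congr fun x => if_neg (fun h4 => h h4.1)).trans tsum_zero).symm
  rw [Finset.sum_congr rfl fun U _ => h2 U, ← Summable.tsum_finsetSum (fun U _ => hG _ fun y => by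
    by_cases h : Φ (U.image Prod.fst) ∧ pat y = U
    · exact Or.inr (if_pos h)
    · exact Or.inl (if_neg h))]
  refine tsum_congr fun y => ?_
  by_cases h : Φ ((pat y).image Prod.fst)
  · rw [if_pos h, Finset.sum_eq_single_of_mem (pat y) (Finset.mem_univ _)]
    · rw [if_pos ⟨h, rfl⟩]
    · intro U _ hne
      rw [if_neg (fun h4 => hne h4.2.symm)]
  · rw [if_neg h]
    symm
    refine Finset.sum_eq_zero fun U _ => ?_
    rw [if_neg]
    rintro ⟨h4, h5⟩
    exact h (h5 ▸ h4)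

end Pool.Agent.EV
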