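import Pool.Agent.EV.CStm
import Pool.Agent.D8.BLb

/-!
# Project T4 (MP_a3214d), even order, row C9: expansion of the sum in types
-/

set_option autoImplicit false

open scoped BigOperators

namespace Pool.Agent.EV

open Pool.Agent.H98.MK (sg)
open Pool.Agent.H98.MF
open Pool.Agent.H32.MQ (El)
open Pool.Agent.D8 (pat Tk ls ad)

/-! ### Fourier expansion on families of types -/

section Fourier

variable {ι : Type} [Fintype ι] {m : ℕ}

theorem ce_sg (a b : ZMod 2) :
    ((sg (a + b) : ℤ) : ℝ) = ((sg a : ℤ) : ℝ) * ((sg b : ℤ) : ℝ) := by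
  rw [sg_add]
  push_cast
  rfl

theorem ce_sg_sum (f : ι → ZMod 2) :
    ((sg (∑ i, f i) : ℤ) : ℝ) = ∏ i, ((sg (f i) : ℤ) : ℝ) := by
  rw [sg_sum]
  push_cast
  rfl

variable [DecidableEq ι]

theorem ce_orth (t t' : ι → Fin m → ZMod 2) :
    ∑ η : ι → Fin m → ZMod 2, ((sg (∑ u, η u ⬝ᵥ t' u) : ℤ) : ℝ) *
      ((sg (∑ u, η u ⬝ᵥ t u) : ℤ) : ℝ) = if t' = t then ((2 : ℝ) ^ m) ^ Fintype.card ι else 0 := by
  have h1 : ∀ η : ι → Fin m → ZMod 2, ((sg (∑ u, η u ⬝ᵥ t' u) : ℤ) : ℝ) *
      ((sg (∑ u, η u ⬝ᵥ t u) : ℤ) : ℝ) =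
      ∏ u, (((sg (η u ⬝ᵥ t' u) : ℤ) : ℝ) * ((sg (η u ⬝ᵥ t u) : ℤ) : ℝ)) := by
    intro η
    rw [ce_sg_sum, ce_sg_sum, Finset.prod_mul_distrib]
  rw [Finset.sum_congr rfl fun η _ => h1 η]
  have h2 := Finset.prod_univ_sum (fun _ : ι => (Finset.univ : Finset (Fin m → ZMod 2)))
    (fun u c => ((sg (c ⬝ᵥ t' u) : ℤ) : ℝ) * ((sg (c ⬝ᵥ t u) : ℤ) : ℝ))
  rw [Fintype.piFinset_univ] at h2
  rw [← h2, Finset.prod_congr rfl fun u _ => Pool.Agent.D8.lb_orth (t u) (t' u)]
  by_cases h : t' = t
  · subst h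
    rw [if_pos rfl, Finset.prod_congr rfl fun u _ => if_pos rfl, Finset.prod_const,
      Finset.card_univ]
  · rw [if_neg h]
    obtain ⟨u, hu⟩ : ∃ u, t' u ≠ t u := by
      by_contra hc
      push Not at hc
      exact h (funext hc)
    exact Finset.prod_eq_zero (Finset.mem_univ u) (if_neg hu)

/-- the Fourier coefficient -/
noncomputable def four (F : (ι → Fin m → ZMod 2) → ℝ) (η : ι → Fin m → ZMod 2) : ℝ :=
  (1 / ((2 : ℝ) ^ m) ^ Fintype.card ι) * ∑ t, F t * ((sg (∑ u, η u ⬝ᵥ t u) : ℤ) : ℝ)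

theorem ce_four (F : (ι → Fin m → ZMod 2) → ℝ) (t : ι → Fin m → ZMod 2) :
    F t = ∑ η : ι → Fin m → ZMod 2, four F η * ((sg (∑ u, η u ⬝ᵥ t u) : ℤ) : ℝ) := by
  have h0 : ((2 : ℝ) ^ m) ^ Fintype.card ι ≠ 0 := by positivity
  have h1 : ∀ η : ι → Fin m → ZMod 2, four F η * ((sg (∑ u, η u ⬝ᵥ t u) : ℤ) : ℝ) =
      ∑ t' : ι → Fin m → ZMod 2, (1 / ((2 : ℝ) ^ m) ^ Fintype.card ι) * F t' *
        (((sg (∑ u, η u ⬝ᵥ t' u) : ℤ) : ℝ) * ((sg (∑ u, η u ⬝ᵥ t u) : ℤ) : ℝ)) := by
    intro η
    unfold four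
    rw [Finset.mul_sum, Finset.sum_mul]
    exact Finset.sum_congr rfl fun t' _ => by ring
  rw [Finset.sum_congr rfl fun η _ => h1 η, Finset.sum_comm]
  have h2 : ∀ t' : ι → Fin m → ZMod 2, ∑ η : ι → Fin m → ZMod 2,
      (1 / ((2 : ℝ) ^ m) ^ Fintype.card ι) * F t' *
        (((sg (∑ u, η u ⬝ᵥ t' u) : ℤ) : ℝ) * ((sg (∑ u, η u ⬝ᵥ t u) : ℤ) : ℝ)) =
      if t' = t then F t' else 0 := by
    intro t'
    rw [← Finset.mul_sum, ce_orth t t']
    split_ifs
    · field_simp
    · rw [mul_zero]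
  rw [Finset.sum_congr rfl fun t' _ => h2 t']
  simp

theorem ce_four_le (F : (ι → Fin m → ZMod 2) → ℝ) (C : ℝ) (hF : ∀ t, |F t| ≤ C)
    (η : ι → Fin m → ZMod 2) : |four F η| ≤ C := by
  have h0 : (0 : ℝ) < ((2 : ℝ) ^ m) ^ Fintype.card ι := by positivity
  unfold four
  rw [abs_mul, abs_of_pos (by positivity), one_div, inv_mul_le_iff₀ h0]
  refine (Finset.abs_sum_le_sum_abs _ _).trans ?_
  have h1 : ∀ t ∈ (Finset.univ : Finset (ι → Fin m → ZMod 2)),
      |F t * ((sg (∑ u, η u ⬝ᵥ t u) : ℤ) : ℝ)| ≤ C := by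
    intro t _
    rw [abs_mul, abs_sgr, mul_one]
    exact hF t
  refine (Finset.sum_le_card_nsmul _ _ _ h1).trans (le_of_eq ?_)
  rw [Finset.card_univ, nsmul_eq_mul]
  congr 1
  rw [Fintype.card_fun, Fintype.card_fun, ZMod.card, Fintype.card_fin]
  push_cast
  rfl

/-- a Fourier coefficient vanishes if `F` is invariant under a translation on which the
character is `-1` -/
theorem ce_four_zero (F : (ι → Fin m → ZMod 2) → ℝ) (η s : ι → Fin m → ZMod 2)
    (hF : ∀ t, F (t + s) = F t) (hs : ∑ u, η u ⬝ᵥ s u = 1) : four F η = 0 := by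
  have h1 : four F η = - four F η := by
    conv_lhs => unfold four
    rw [← Equiv.sum_comp (Equiv.addRight s)]
    unfold four
    rw [← mul_neg, ← Finset.sum_neg_distrib]
    congr 1
    refine Finset.sum_congr rfl fun t _ => ?_
    rw [Equiv.coe_addRight, hF]
    have h2 : ∑ u, η u ⬝ᵥ (t + s) u = ∑ u, η u ⬝ᵥ t u + 1 := by
      rw [← hs, ← Finset.sum_add_distrib]
      exact Finset.sum_congr rfl fun u _ => dotProduct_add _ _ _
    rw [h2, ce_sg]
    have h3 : ((sg 1 : ℤ) : ℝ) = -1 := by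
      have : sg 1 = -1 := by decide
      rw [this]
      push_cast
      rfl
    rw [h3]
    ring
  linarith

theorem ce_dot (η : ι → Fin m → ZMod 2) (u u' : ι) (i : Fin m) (hi : (η u + η u') i ≠ 0) :
    ∑ w, η w ⬝ᵥ (Pi.single u (Pi.single i 1) + Pi.single u' (Pi.single i 1) :
      ι → Fin m → ZMod 2) w = 1 := by
  have h1 : ∀ w, η w ⬝ᵥ (Pi.single u (Pi.single i 1) + Pi.single u' (Pi.single i 1) :
      ι → Fin m → ZMod 2) w = (if w = u then η u i else 0) + (if w = u' then η u' i else 0) := by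
    intro w
    rw [Pi.add_apply, dotProduct_add, Pi.single_apply, Pi.single_apply]
    congr 1
    · split_ifs with h2
      · rw [h2, dotProduct_single, mul_one]
      · exact dotProduct_zero _
    · split_ifs with h2
      · rw [h2, dotProduct_single, mul_one]
      · exact dotProduct_zero _
  rw [Finset.sum_congr rfl fun w _ => h1 w, Finset.sum_add_distrib, Finset.sum_ite_eq',
    Finset.sum_ite_eq', if_pos (Finset.mem_univ _), if_pos (Finset.mem_univ _)]
  exact (zm2 _).resolve_left hi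

/-! ### sums over ordered pairs -/

omit [DecidableEq ι] in
/-- moving a double sum to one side -/
theorem ce_half {M : Type} [AddCommMonoid M] (po : ι → ℕ) (hp : Function.Injective po)
    (A : ι → ι → M) (hA : ∀ u, A u u = 0) :
    ∑ u, ∑ v, A u v = ∑ u, ∑ v, if po u < po v then A u v + A v u else 0 := by
  have h1 : ∀ u v, A u v = (if po u < po v then A u v else 0) +
      (if po v < po u then A u v else 0) := by
    intro u v
    rcases lt_trichotomy (po u) (po v) with h | h | h
    · rw [if_pos h, if_neg (not_lt.2 h.le), add_zero]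
    · have := hp h
      subst this
      rw [if_neg (lt_irrefl _), hA, add_zero]
    · rw [if_neg (not_lt.2 h.le), if_pos h, zero_add]
  have h2 : ∑ u, ∑ v, A u v = ∑ u, ∑ v, (if po u < po v then A u v else 0) +
      ∑ u, ∑ v, (if po v < po u then A u v else 0) := by
    rw [← Finset.sum_add_distrib]
    refine Finset.sum_congr rfl fun u _ => ?_
    rw [← Finset.sum_add_distrib]
    exact Finset.sum_congr rfl fun v _ => h1 u v
  rw [h2, Finset.sum_comm (f := fun u v => if po v < po u then A u v else 0),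
    ← Finset.sum_add_distrib]
  refine Finset.sum_congr rfl fun u _ => ?_
  rw [← Finset.sum_add_distrib]
  refine Finset.sum_congr rfl fun v _ => ?_
  split_ifs
  · rfl
  · rw [add_zero]

/-- a quadratic form is invariant under a translation along two coordinates -/
theorem ce_quad (C : ι → ι → ZMod 2) (y : ι → ZMod 2) (u u' : ι) (σ : ZMod 2)
    (h1 : ∀ b, y b ≠ 0 → C b u + C u b + (C b u' + C u' b) = 0)
    (h2 : C u u + C u u' + (C u' u + C u' u') = 0) :
    ∑ a, ∑ b, C a b * ((y a + ((if a = u then σ else 0) + (if a = u' then σ else 0))) *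
      (y b + ((if b = u then σ else 0) + (if b = u' then σ else 0)))) =
      ∑ a, ∑ b, C a b * (y a * y b) := by
  have e1 : ∑ a, ∑ b, C a b * ((y a + ((if a = u then σ else 0) + (if a = u' then σ else 0))) *
      (y b + ((if b = u then σ else 0) + (if b = u' then σ else 0)))) =
      ∑ a, ∑ b, C a b * (y a * y b) +
        (∑ a, ∑ b, C a b * (y a * ((if b = u then σ else 0) + (if b = u' then σ else 0))) +
        ∑ b, ∑ a, C a b * (y b * ((if a = u then σ else 0) + (if a = u' then σ else 0)))) +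
        ∑ a, ∑ b, C a b * (((if a = u then σ else 0) + (if a = u' then σ else 0)) *
          ((if b = u then σ else 0) + (if b = u' then σ else 0))) := by
    rw [Finset.sum_comm (f := fun b a => C a b *
      (y b * ((if a = u then σ else 0) + (if a = u' then σ else 0)))),
      ← Finset.sum_add_distrib, ← Finset.sum_add_distrib, ← Finset.sum_add_distrib]
    refine Finset.sum_congr rfl fun a _ => ?_
    rw [← Finset.sum_add_distrib, ← Finset.sum_add_distrib, ← Finset.sum_add_distrib]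
    refine Finset.sum_congr rfl fun b _ => ?_
    ring
  have e2 : ∑ a, ∑ b, C a b * (y a * ((if b = u then σ else 0) + (if b = u' then σ else 0))) =
      ∑ a, y a * σ * (C a u + C a u') := by
    refine Finset.sum_congr rfl fun a _ => ?_
    simp only [mul_add, mul_ite, mul_zero, Finset.sum_add_distrib, Finset.sum_ite_eq',
      Finset.mem_univ, if_true]
    ring
  have e3 : ∑ b, ∑ a, C a b * (y b * ((if a = u then σ else 0) + (if a = u' then σ else 0))) =
      ∑ b, y b * σ * (C u b + C u' b) := by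
    refine Finset.sum_congr rfl fun b _ => ?_
    simp only [mul_add, mul_ite, mul_zero, Finset.sum_add_distrib, Finset.sum_ite_eq',
      Finset.mem_univ, if_true]
    ring
  have e4 : ∑ a, ∑ b, C a b * (((if a = u then σ else 0) + (if a = u' then σ else 0)) *
      ((if b = u then σ else 0) + (if b = u' then σ else 0))) =
      σ * σ * (C u u + C u u' + (C u' u + C u' u')) := by
    simp only [mul_add, add_mul, mul_ite, ite_mul, mul_zero, zero_mul, Finset.sum_add_distrib,
      Finset.sum_ite_eq', Finset.mem_univ, if_true]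
    ring
  have e5 : ∑ a, y a * σ * (C a u + C a u') + ∑ b, y b * σ * (C u b + C u' b) = 0 := by
    rw [← Finset.sum_add_distrib]
    refine Finset.sum_eq_zero fun b _ => ?_
    by_cases hb : y b = 0
    · rw [hb]
      ring
    · have h3 := h1 b hb
      have h4 : y b * σ * (C b u + C b u') + y b * σ * (C u b + C u' b) =
          y b * σ * (C b u + C u b + (C b u' + C u' b)) := by ring
      rw [h4, h3, mul_zero]
  rw [e1, e2, e3, e4, e5, h2]
  ring

end Fourier

/-! ### the function of the types -/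

theorem ce_iso {ι : Type} [Fintype ι] {b : ι → ι → ZMod 2} {U : Finset ι} {u : ι}
    (hu : u ∈ iso b U) : u ∈ U ∧ ∀ v ∈ U, ¬ Lk b u v := by
  simpa only [iso, Finset.mem_filter] using hu

section Types

variable {S : Sys} {d n : ℕ}

open Classical in
/-- the types on a pattern -/
noncomputable def ceTr {ι : Type} (U : Finset ι) (t : ι → S.T) (u : ι) : S.T :=
  if u ∈ U then t u else 0

/-- the function of the types of a pattern -/
noncomputable def ceF (Bd : BD d n) (R : Finset (VV d)) (θ : (R → S.T) → ℝ)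
    (U : Finset (R × VV n)) (t : R × VV n → S.T) : ℝ :=
  θ (fun v => ∑ ζ : VV n, ceTr U t (v, ζ)) *
    ((sg (∑ u, ∑ v, (if pos u < pos v then bz Bd R v u else 0) *
      ((S.l ⬝ᵥ ceTr U t u) * (S.l ⬝ᵥ ceTr U t v))) : ℤ) : ℝ)

theorem ceF_le (Bd : BD d n) (R : Finset (VV d)) (θ : (R → S.T) → ℝ)
    (U : Finset (R × VV n)) (t : R × VV n → S.T) : |ceF Bd R θ U t| ≤ ∑ t : R → S.T, |θ t| := by
  unfold ceF
  rw [abs_mul, abs_sgr, mul_one]
  exact Finset.single_le_sum (f := fun t : R → S.T => |θ t|) (fun _ _ => abs_nonneg _)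
    (Finset.mem_univ _)

theorem ce_pos {ι : Type} [Fintype ι] : Function.Injective (pos : ι → ℕ) := by
  intro a b h
  exact (Fintype.equivFin ι).injective (Fin.val_injective h)

theorem ce_bz_self (Bd : BD d n) (R : Finset (VV d)) (u u' : R × VV n) (h : u.1 = u'.1) :
    bz Bd R u u' = 0 := by
  unfold bz
  rw [h, Bd.alt, dotProduct_zero]

theorem ce_zsum {T : Type} [AddCommMonoid T] {R : Finset (VV d)} (u : R × VV n) (v : R) (s : T) :
    ∑ ζ : VV n, (if (v, ζ) = u then s else 0) = if v = u.1 then s else 0 := by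
  obtain ⟨a, z⟩ := u
  by_cases h : v = a
  · subst h
    simp
  · simp [h]

theorem ceF_inv (Bd : BD d n) (R : Finset (VV d)) (θ : (R → S.T) → ℝ)
    (U : Finset (R × VV n)) (u u' : R × VV n) (hu : u ∈ iso (bz Bd R) U)
    (hu' : u' ∈ iso (bz Bd R) U) (h1 : u.1 = u'.1) (s : S.T)
    (t : R × VV n → S.T) :
    ceF Bd R θ U (t + (Pi.single u s + Pi.single u' s)) = ceF Bd R θ U t := by
  classical
  obtain ⟨hU, hL⟩ := ce_iso hu
  obtain ⟨hU', hL'⟩ := ce_iso hu'
  have htr : ∀ w, ceTr U (t + (Pi.single u s + Pi.single u' s)) w =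
      ceTr U t w + ((if w = u then s else 0) + (if w = u' then s else 0)) := by
    intro w
    unfold ceTr
    by_cases hw : w ∈ U
    · rw [if_pos hw, if_pos hw, Pi.add_apply, Pi.add_apply, Pi.single_apply, Pi.single_apply]
    · have h2 : w ≠ u := fun h => hw (h ▸ hU)
      have h3 : w ≠ u' := fun h => hw (h ▸ hU')
      rw [if_neg hw, if_neg hw, if_neg h2, if_neg h3, add_zero, add_zero]
  have hθ : (fun v : R => ∑ ζ : VV n, ceTr U (t + (Pi.single u s + Pi.single u' s)) (v, ζ)) =
      fun v : R => ∑ ζ : VV n, ceTr U t (v, ζ) := by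
    funext v
    rw [Finset.sum_congr rfl fun ζ _ => htr (v, ζ), Finset.sum_add_distrib,
      Finset.sum_add_distrib, ce_zsum, ce_zsum, h1]
    have h2 : (if v = u'.1 then s else 0) + (if v = u'.1 then s else 0) = 0 := by
      split_ifs
      · funext i
        exact CharTwo.add_self_eq_zero _
      · rw [add_zero]
    rw [h2, add_zero]
  have hK : ∀ (w : R × VV n), w ∈ iso (bz Bd R) U → ∀ b ∈ U,
      (if pos b < pos w then bz Bd R w b else 0) + (if pos w < pos b then bz Bd R b w else 0) =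
        bz Bd R b w := by
    intro w hw b hb
    obtain ⟨-, hLw⟩ := ce_iso hw
    have h2 := hLw b hb
    unfold Lk at h2
    have h3 : bz Bd R w b = bz Bd R b w := by
      rcases zm2 (bz Bd R w b + bz Bd R b w) with h4 | h4
      · exact CharTwo.add_eq_zero.1 h4
      · exact absurd h4 h2
    rcases lt_trichotomy (pos b) (pos w) with h | h | h
    · rw [if_pos h, if_neg (not_lt.2 h.le), add_zero, h3]
    · have h4 := ce_pos h
      subst h4
      rw [if_neg (lt_irrefl _), ce_bz_self Bd R b b rfl, add_zero]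
    · rw [if_neg (not_lt.2 h.le), if_pos h, zero_add]
  have hb : ∀ b, bz Bd R b u = bz Bd R b u' := by
    intro b
    unfold bz
    rw [h1]
  unfold ceF
  rw [hθ]
  refine congrArg (fun z : ZMod 2 => θ (fun v => ∑ ζ : VV n, ceTr U t (v, ζ)) *
    ((sg z : ℤ) : ℝ)) ?_
  have hy : ∀ w, S.l ⬝ᵥ ceTr U (t + (Pi.single u s + Pi.single u' s)) w =
      S.l ⬝ᵥ ceTr U t w + ((if w = u then S.l ⬝ᵥ s else 0) + (if w = u' then S.l ⬝ᵥ s else 0)) := by
    intro w
    rw [htr, dotProduct_add, dotProduct_add]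
    congr 2
    · split_ifs
      · rfl
      · exact dotProduct_zero _
    · split_ifs
      · rfl
      · exact dotProduct_zero _
  rw [Finset.sum_congr rfl fun a _ => Finset.sum_congr rfl fun b _ => by rw [hy a, hy b]]
  refine ce_quad _ (fun w => S.l ⬝ᵥ ceTr U t w) u u' (S.l ⬝ᵥ s) (fun b hy0 => ?_) ?_
  · have hbU : b ∈ U := by
      by_contra hc
      apply hy0
      unfold ceTr
      rw [if_neg hc, dotProduct_zero]
    have h2 := hK u hu b hbU
    have h3 := hK u' hu' b hbU
    rw [h2, h3, hb b]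
    exact CharTwo.add_self_eq_zero _
  · have h2 := hK u hu u' hU'
    have h3 := h2.trans (ce_bz_self Bd R u' u h1.symm)
    rw [if_neg (lt_irrefl _), if_neg (lt_irrefl _), zero_add, add_zero, add_comm]
    exact h3

/-- moving the coefficients to one side -/
theorem ce_EE (Bd : BD d n) (R : Finset (VV d)) (c : R × VV n → El S)
    (x : R × VV n → Finset S.P) (hd : S.Dj x) :
    EE (bz Bd R) c x = EE (b1 Bd R) c x +
      ∑ u, ∑ v, (if pos u < pos v then bz Bd R v u else 0) *
        ((S.l ⬝ᵥ S.tys (x u)) * (S.l ⬝ᵥ S.tys (x v))) := by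
  unfold EE
  rw [ce_half pos ce_pos (fun u v => bz Bd R u v * S.JJ (x u) (x v)) (fun u => by
    rw [ce_bz_self Bd R u u rfl, zero_mul])]
  rw [add_right_comm]
  congr 1
  rw [← Finset.sum_add_distrib]
  refine Finset.sum_congr rfl fun u _ => ?_
  rw [← Finset.sum_add_distrib]
  refine Finset.sum_congr rfl fun v _ => ?_
  unfold b1
  by_cases h : pos u < pos v
  · have hne : u ≠ v := fun h2 => absurd h (by rw [h2]; exact lt_irrefl _)
    have h2 := S.JJ_recip (hd u v hne)
    have h3 : S.JJ (x v) (x u) = S.JJ (x u) (x v) +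
        (S.l ⬝ᵥ S.tys (x u)) * (S.l ⬝ᵥ S.tys (x v)) := by
      rw [← h2, ← add_assoc, CharTwo.add_self_eq_zero, zero_add]
    rw [if_pos h, if_pos h, if_pos h, h3]
    ring
  · rw [if_neg h, if_neg h, if_neg h, zero_mul, zero_mul, add_zero]

/-- adding characters of the types -/
theorem ce_ad {ι : Type} [Fintype ι] (b : ι → ι → ZMod 2) (c : ι → El S) (η : ι → S.T)
    (x : ι → Finset S.P) :
    EE b (fun u => ad (c u) (η u, ∅)) x = EE b c x + ∑ u, η u ⬝ᵥ S.tys (x u) := by
  unfold EE
  rw [add_assoc]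
  congr 1
  rw [← Finset.sum_add_distrib]
  refine Finset.sum_congr rfl fun u _ => ?_
  rw [Sys.dot_tys, ← Finset.sum_add_distrib]
  refine Finset.sum_congr rfl fun p _ => ?_
  unfold xc ad
  have h1 : symmDiff (c u).2 (∅ : Finset S.P) = (c u).2 := symmDiff_bot _
  change S.ex (symmDiff (c u).2 ∅) ((c u).1 + η u) p = _
  rw [h1]
  unfold Sys.ex
  rw [add_dotProduct, add_assoc]

end Types

open Classical in
/-- the expansion pattern by pattern -/
theorem expd_pat (S : Sys) (d n : ℕ) (Bd : BD d n) (R : Finset (VV d))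
    (c : VV d → VV n → El S) (M : Finset S.P) (θ : (R → S.T) → ℝ) (B : ℝ) (τ : S.P → ℝ)
    (hs : SSm) (hτ : Tk S B τ) :
    ∃ th : Finset (R × VV n) → (R × VV n → S.T) → ℝ, (∀ U η, |th U η| ≤ ∑ t : R → S.T, |θ t|) ∧
    (∀ U η, th U η ≠ 0 → ∀ u ∈ iso (bz Bd R) U, ∀ u' ∈ iso (bz Bd R) U, u.1 = u'.1 →
      η u = η u') ∧
    ∀ σ : ℝ, 0 < σ → ∀ U : Finset (R × VV n),
      ∑' x : R × VV n → Finset S.P, (if pat x = U
        then θ (fun v => ∑ ζ : VV n, S.tys (x (v, ζ))) *
          Kt τ (1 + σ) (bz Bd R) (cz R c) M x else 0) =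
      ∑ η : R × VV n → S.T, th U η *
        PS τ (1 + σ) (b1 Bd R) (fun u => ad (cz R c u) (η u, ∅)) M U := by
  refine ⟨fun U η => four (ceF Bd R θ U) η, fun U η => ?_, fun U η hne u hu u' hu' he => ?_,
    fun σ hσ U => ?_⟩
  · exact ce_four_le _ _ (ceF_le Bd R θ U) η
  · by_contra hc2
    apply hne
    obtain ⟨i, hi⟩ : ∃ i, (η u + η u') i ≠ 0 := by
      by_contra hc3
      push Not at hc3
      apply hc2
      funext i
      exact CharTwo.add_eq_zero.1 (hc3 i)
    exact ce_four_zero _ η _ (fun t => ceF_inv Bd R θ U u u' hu hu' he (Pi.single i 1) t)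
      (ce_dot η u u' i hi)
  · have hpt : ∀ x : R × VV n → Finset S.P, (if pat x = U
        then θ (fun v => ∑ ζ : VV n, S.tys (x (v, ζ))) *
          Kt τ (1 + σ) (bz Bd R) (cz R c) M x else 0) =
        ∑ η : R × VV n → S.T, four (ceF Bd R θ U) η * (if pat x = U then
          Kt τ (1 + σ) (b1 Bd R) (fun u => ad (cz R c u) (η u, ∅)) M x else 0) := by
      intro x
      by_cases hp : pat x = U
      · rw [if_pos hp]
        simp only [if_pos hp]
        unfold Kt
        by_cases hd : S.Dj x ∧ Off S M x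
        · rw [if_pos hd]
          simp only [if_pos hd]
          have htr : ∀ u, ceTr U (fun u => S.tys (x u)) u = S.tys (x u) := by
            intro u
            unfold ceTr
            by_cases hu : u ∈ U
            · rw [if_pos hu]
            · rw [if_neg hu]
              have h3 : x u = ∅ := by
                by_contra hc3
                exact hu (hp ▸ Finset.mem_filter.2 ⟨Finset.mem_univ _,
                  Finset.nonempty_iff_ne_empty.2 hc3⟩)
              rw [h3]
              rfl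
          have hF : ceF Bd R θ U (fun u => S.tys (x u)) =
              θ (fun v => ∑ ζ : VV n, S.tys (x (v, ζ))) *
              ((sg (∑ u, ∑ v, (if pos u < pos v then bz Bd R v u else 0) *
                ((S.l ⬝ᵥ S.tys (x u)) * (S.l ⬝ᵥ S.tys (x v)))) : ℤ) : ℝ) := by
            unfold ceF
            simp only [htr]
          have hF2 := ce_four (ceF Bd R θ U) (fun u => S.tys (x u))
          rw [hF] at hF2
          rw [ce_EE Bd R _ x hd.1, ce_sg]
          have h4 : ∀ η : R × VV n → S.T, four (ceF Bd R θ U) η *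
              (((sg (EE (b1 Bd R) (fun u => ad (cz R c u) (η u, ∅)) x) : ℤ) : ℝ) *
                ∏ u, ∏ p ∈ x u, (τ p * (S.N p : ℝ) ^ (-(1 + σ)))) =
              four (ceF Bd R θ U) η * ((sg (∑ u, η u ⬝ᵥ S.tys (x u)) : ℤ) : ℝ) *
              (((sg (EE (b1 Bd R) (cz R c) x) : ℤ) : ℝ) *
                ∏ u, ∏ p ∈ x u, (τ p * (S.N p : ℝ) ^ (-(1 + σ)))) := by
            intro η
            rw [ce_ad, ce_sg]
            ring
          rw [Finset.sum_congr rfl fun η _ => h4 η, ← Finset.sum_mul, ← hF2]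
          ring
        · rw [if_neg hd]
          simp only [if_neg hd, mul_zero, Finset.sum_const_zero]
      · rw [if_neg hp]
        simp only [if_neg hp, mul_zero, Finset.sum_const_zero]
    rw [tsum_congr hpt, Summable.tsum_finsetSum]
    · refine Finset.sum_congr rfl fun η _ => ?_
      rw [tsum_mul_left]
      refine congrArg _ (tsum_congr fun x => ?_)
      by_cases hp : pat x = U
      · rw [if_pos hp, if_pos hp]
      · rw [if_neg hp, if_neg hp]
    · intro η _
      refine Summable.mul_left _ ?_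
      have h3 := hs S (R × VV n) (b1 Bd R) (fun u => ad (cz R c u) (η u, ∅)) M B τ hτ σ hσ
      refine Summable.of_norm_bounded h3 fun x => ?_
      rw [Real.norm_eq_abs]
      split_ifs
      · exact le_rfl
      · rw [abs_zero]
        exact abs_nonneg _

theorem sexpd (h : SExp0) (hs : SSm) : SExpd := by
  intro S d n Bd R c M Φ θ B τ hτ hc
  obtain ⟨th, h3, h4, h5⟩ := expd_pat S d n Bd R c M θ B τ hs hτ
  refine ⟨th, h3, h4, fun σ hσ => ?_⟩
  obtain ⟨h1, h2⟩ := h S d n Bd R c M Φ θ B τ hτ hc σ hσ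
  refine ⟨h1, ?_⟩
  rw [h2]
  refine Finset.sum_congr rfl fun U _ => ?_
  by_cases hΦ : Φ (U.image Prod.fst)
  · rw [if_pos hΦ, if_pos hΦ]
    exact h5 σ hσ U
  · rw [if_neg hΦ, if_neg hΦ]

end Pool.Agent.EV
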