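import Pool.Agent.EV.CStm
import Pool.Agent.H92.EL.CStm

/-!
# Project T4 (MP_a3214d), even order, block C, row C21: the asymptotic formula for a fixed frame
-/

set_option autoImplicit false

open scoped BigOperators Topology
open Filter

namespace Pool.Agent.EV

open Pool.Agent.H98.MK (sg)
open Pool.Agent.H98.MF
open Pool.Agent.H32.MQ (El)
open Pool.Agent.D8 (pat Tk ls ad)
open Pool.Agent.H92.EL (DPo)

/-! ### families -/

section

variable (S : Sys) {ι : Type} [Fintype ι]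

/-- the norm of a family -/
private noncomputable def cfx_n (x : ι → Finset S.P) : ℕ := ∏ u, S.nm (x u)

private theorem cfx_n1 (x : ι → Finset S.P) : 1 ≤ cfx_n S x :=
  Finset.one_le_prod' fun u _ => S.one_le_nm (x u)

private theorem cfx_le (x : ι → Finset S.P) (u : ι) : S.nm (x u) ≤ cfx_n S x :=
  Finset.single_le_prod' (f := fun u => S.nm (x u)) (fun v _ => S.one_le_nm (x v))
    (Finset.mem_univ u)

private theorem cfx_mem [DecidableEq ι] {Y : ℝ} (x : ι → Finset S.P)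
    (h : (cfx_n S x : ℝ) ≤ Y) : x ∈ Fintype.piFinset (fun _ : ι => S.bx Y) := by
  rw [Fintype.mem_piFinset]
  intro u
  rw [S.mem_bx]
  refine le_trans ?_ h
  exact_mod_cast cfx_le S x u

private theorem cfx_fin (N : ℕ) : {x : ι → Finset S.P | cfx_n S x ≤ N}.Finite := by
  classical
  refine Set.Finite.subset
    (Finset.finite_toSet (Fintype.piFinset (fun _ : ι => S.bx (N : ℝ)))) fun x hx => ?_
  refine cfx_mem S x ?_
  exact_mod_cast (show cfx_n S x ≤ N from hx)

private theorem cfx_memf {Y : ℝ} (hY : 0 ≤ Y) (x : ι → Finset S.P) :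
    x ∈ (cfx_fin (ι := ι) S ⌊Y⌋₊).toFinset ↔ (cfx_n S x : ℝ) ≤ Y := by
  rw [Set.Finite.mem_toFinset]
  exact Nat.le_floor_iff hY

private theorem cfx_un {β : Type} [CommMonoid β] {x : ι → Finset S.P} (h : S.Dj x)
    (f : S.P → β) : ∏ p ∈ un x, f p = ∏ v, ∏ p ∈ x v, f p := by
  classical
  have h1 : un x = Finset.univ.biUnion x := by
    unfold un
    congr
  rw [h1, Finset.prod_biUnion]
  intro u _ v _ huv
  exact h u v huv

/-- the term of a family -/
private theorem cfx_term (n : ℕ) {x : ι → Finset S.P} (h : S.Dj x) (τ : S.P → ℝ) (σ : ℝ) :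
    ∏ v, ∏ p ∈ x v, ((2 : ℝ) ^ n * τ p * (S.N p : ℝ) ^ (-(1 + σ))) =
      ((2 : ℝ) ^ n) ^ (un x).card * (∏ p ∈ un x, τ p) / (cfx_n S x : ℝ) *
        (cfx_n S x : ℝ) ^ (-σ) := by
  have hn : (0 : ℝ) < cfx_n S x := by exact_mod_cast cfx_n1 S x
  have h2 : ∏ p ∈ un x, (S.N p : ℝ) = (cfx_n S x : ℝ) := by
    rw [cfx_un S h]
    unfold cfx_n Pre.nm
    push_cast
    rfl
  rw [← cfx_un S h, Finset.prod_mul_distrib, Finset.prod_mul_distrib, Finset.prod_const,
    Real.finsetProd_rpow _ _ (fun p _ => Nat.cast_nonneg _), h2, neg_add, Real.rpow_add hn,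
    Real.rpow_neg_one]
  ring

private theorem cfx_sm (n : ℕ) {σ K : ℝ} (hσ : 0 < σ) {τ : S.P → ℝ}
    (hτ : ∀ p, 0 ≤ τ p ∧ τ p ≤ K) :
    Summable fun x : ι → Finset S.P =>
      ∏ v, ∏ p ∈ x v, ((2 : ℝ) ^ n * τ p * (S.N p : ℝ) ^ (-(1 + σ))) := by
  classical
  have h0 : ∀ p : S.P, 0 ≤ (2 : ℝ) ^ n * τ p * (S.N p : ℝ) ^ (-(1 + σ)) := fun p =>
    mul_nonneg (mul_nonneg (by positivity) (hτ p).1) (Real.rpow_nonneg (Nat.cast_nonneg _) _)
  have h1 : Summable fun p : S.P => (2 : ℝ) ^ n * τ p * (S.N p : ℝ) ^ (-(1 + σ)) := by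
    refine Summable.of_nonneg_of_le h0 (fun p => ?_)
      ((summable_N S (1 + σ) (by linarith)).mul_left ((2 : ℝ) ^ n * K))
    exact mul_le_mul_of_nonneg_right (mul_le_mul_of_nonneg_left (hτ p).2 (by positivity))
      (Real.rpow_nonneg (Nat.cast_nonneg _) _)
  have h2 := summable_finsetProd_of_summable_nonneg h0 h1
  have h3 : ∀ F : Finset (ι → Finset S.P), ∑ x ∈ F,
      ∏ v, ∏ p ∈ x v, ((2 : ℝ) ^ n * τ p * (S.N p : ℝ) ^ (-(1 + σ))) ≤
      ∏ _v : ι, ∑' y : Finset S.P,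
        ∏ p ∈ y, ((2 : ℝ) ^ n * τ p * (S.N p : ℝ) ^ (-(1 + σ))) := by
    intro F
    have hsub : F ⊆ Fintype.piFinset fun u => F.image fun x => x u := by
      intro x hx
      rw [Fintype.mem_piFinset]
      exact fun u => Finset.mem_image_of_mem (fun x : ι → Finset S.P => x u) hx
    refine (Finset.sum_le_sum_of_subset_of_nonneg hsub fun x _ _ =>
      Finset.prod_nonneg fun v _ => Finset.prod_nonneg fun p _ => h0 p).trans ?_
    rw [← Finset.prod_univ_sum (fun u => F.image fun x => x u)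
      (fun _ y => ∏ p ∈ y, ((2 : ℝ) ^ n * τ p * (S.N p : ℝ) ^ (-(1 + σ))))]
    exact Finset.prod_le_prod
      (fun u _ => Finset.sum_nonneg fun y _ => Finset.prod_nonneg fun p _ => h0 p)
      fun u _ => h2.sum_le_tsum _ fun y _ => Finset.prod_nonneg fun p _ => h0 p
  exact summable_of_sum_le
    (fun x => Finset.prod_nonneg fun v _ => Finset.prod_nonneg fun p _ => h0 p) h3

end

/-! ### the Dirichlet series -/

section

variable (S : Sys) {d n : ℕ}

open Classical in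
/-- the coefficients -/
private noncomputable def cfx_b (Bd : BD d n) (R : Finset (VV d)) (c : VV d → VV n → El S)
    (Φ : Finset R → Prop) (θ : (R → S.T) → ℝ) (τ : S.P → ℝ) (x : R → Finset S.P) : ℝ :=
  if S.Dj x ∧ okc Bd R c x ∧ Φ (pat x)
    then θ (fun v => S.tys (x v)) *
      (((2 : ℝ) ^ n) ^ (un x).card * (∏ p ∈ un x, τ p) / (cfx_n S x : ℝ)) else 0

private theorem cfx_b0 (Bd : BD d n) (R : Finset (VV d)) (c : VV d → VV n → El S)
    (Φ : Finset R → Prop) {θ : (R → S.T) → ℝ} (hθ : ∀ t, 0 ≤ θ t) {τ : S.P → ℝ}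
    (hτ : ∀ p, 0 ≤ τ p) (x : R → Finset S.P) : 0 ≤ cfx_b S Bd R c Φ θ τ x := by
  unfold cfx_b
  split_ifs
  · refine mul_nonneg (hθ _) (div_nonneg (mul_nonneg (by positivity)
      (Finset.prod_nonneg fun p _ => hτ p)) (Nat.cast_nonneg _))
  · exact le_refl _

private theorem cfx_dpo (h1 : SMain) (Bd : BD d n) (R : Finset (VV d))
    (c : VV d → VV n → S.T) (Φ : Finset R → Prop) (θ : (R → S.T) → ℝ) (B : ℝ) (τ : S.P → ℝ)
    (hT : Tk S B τ) (hc : ∀ v ζ ζ', c v (ζ + ζ') = c v ζ + c v ζ')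
    (hG : Gen Bd R (cT (S := S) c) Φ) (hΦ : Φ Finset.univ) (hθ : ∀ t, 0 ≤ θ t)
    (hτ : ∀ p, 0 < τ p) : ∃ L : ℝ, 0 ≤ L ∧
    DPo (cfx_n S) (cfx_b S Bd R (cT (S := S) c) Φ θ τ) (bV Bd R (cT (S := S) c)) L ∧
    ((∃ x : R → Finset S.P, S.Dj x ∧ okc Bd R (cT (S := S) c) x ∧
      0 < θ (fun v => S.tys (x v))) → 0 < L) := by
  classical
  obtain ⟨L, hL0, hL, hLp⟩ := h1 S d n Bd R c Φ θ B τ hT hc hG hΦ hθ hτ
  have hterm : ∀ (σ : ℝ) (x : R → Finset S.P),
      cfx_b S Bd R (cT (S := S) c) Φ θ τ x * (cfx_n S x : ℝ) ^ (-σ) =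
      if S.Dj x ∧ Off S ∅ x ∧ okc Bd R (cT (S := S) c) x ∧ Φ (pat x)
        then θ (fun v => S.tys (x v)) *
          ∏ v, ∏ p ∈ x v, ((2 : ℝ) ^ n * τ p * (S.N p : ℝ) ^ (-(1 + σ)))
        else 0 := by
    intro σ x
    unfold cfx_b
    by_cases h : S.Dj x ∧ okc Bd R (cT (S := S) c) x ∧ Φ (pat x)
    · rw [if_pos h, if_pos ⟨h.1, fun u => Finset.disjoint_empty_right _, h.2⟩,
        cfx_term S n h.1, mul_assoc]
    · rw [if_neg h, if_neg (fun h' => h ⟨h'.1, h'.2.2⟩), zero_mul]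
  have hK : ∀ p, 0 ≤ τ p ∧ τ p ≤ 1 + |B| := by
    intro p
    refine ⟨(hT p).1, ?_⟩
    have e1 := (abs_le.1 (hT p).2).2
    have e2 : (S.N p : ℝ) ^ (-(1 / 2) : ℝ) ≤ 1 :=
      Real.rpow_le_one_of_one_le_of_nonpos (by exact_mod_cast S.one_le_N p) (by norm_num)
    have e3 : (0 : ℝ) ≤ (S.N p : ℝ) ^ (-(1 / 2) : ℝ) := Real.rpow_nonneg (Nat.cast_nonneg _) _
    have e4 : B * (S.N p : ℝ) ^ (-(1 / 2) : ℝ) ≤ |B| * 1 :=
      mul_le_mul (le_abs_self B) e2 e3 (abs_nonneg B)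
    linarith
  obtain ⟨M, hM⟩ : ∃ M : ℝ, ∀ t : R → S.T, θ t ≤ M :=
    ⟨∑ t : R → S.T, θ t, fun t => Finset.single_le_sum (f := θ) (fun t _ => hθ t)
      (Finset.mem_univ t)⟩
  have hM0 : 0 ≤ M := (hθ 0).trans (hM 0)
  refine ⟨L, hL0, ⟨fun x => cfx_b0 S Bd R _ Φ hθ (fun p => (hτ p).le) x, fun σ hσ => ?_, ?_⟩,
    hLp⟩
  · refine Summable.of_nonneg_of_le (fun x => mul_nonneg
      (cfx_b0 S Bd R _ Φ hθ (fun p => (hτ p).le) x)
      (Real.rpow_nonneg (Nat.cast_nonneg _) _)) (fun x => ?_)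
      ((cfx_sm (ι := R) S n hσ hK).mul_left M)
    have hp : 0 ≤ ∏ v, ∏ p ∈ x v, ((2 : ℝ) ^ n * τ p * (S.N p : ℝ) ^ (-(1 + σ))) :=
      Finset.prod_nonneg fun v _ => Finset.prod_nonneg fun p _ =>
        mul_nonneg (mul_nonneg (by positivity) (hτ p).le)
          (Real.rpow_nonneg (Nat.cast_nonneg _) _)
    rw [hterm σ x]
    split_ifs
    · exact mul_le_mul_of_nonneg_right (hM _) hp
    · exact mul_nonneg hM0 hp
  · refine hL.congr fun σ => ?_
    congr 1
    unfold FF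
    refine tsum_congr fun x => ?_
    rw [hterm σ x]

private theorem cfx_asg (n : ℕ) (y : Finset S.P) :
    ((asg n y).card : ℝ) = ((2 : ℝ) ^ n) ^ y.card := by
  classical
  have h1 : asg n y = y.finsupp fun _ => (Finset.univ : Finset (VV n)) := by
    unfold asg
    congr
  rw [h1, Finset.card_finsupp, Finset.prod_const, Finset.card_univ, Fintype.card_fun,
    ZMod.card, Fintype.card_fin]
  push_cast
  rfl

end

/-! ### means -/

/-- the mean of a function over the source of a surjective homomorphism -/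
private theorem cfx_mean {G H : Type} [AddGroup G] [AddGroup H] [Fintype G] [Fintype H]
    (φ : G →+ H) (hφ : Function.Surjective φ) (a : H) (F : H → ℝ) :
    (1 / (Fintype.card G : ℝ)) * ∑ x, F (a + φ x) =
      (1 / (Fintype.card H : ℝ)) * ∑ y, F y := by
  classical
  have h1 : ∀ y : H, (Finset.univ.filter fun x : G => φ x = y).card =
      (Finset.univ.filter fun x : G => φ x = 0).card := by
    intro y
    obtain ⟨g, rfl⟩ := hφ y
    refine Finset.card_bij (fun x _ => x - g) ?_ ?_ ?_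
    · intro x hx
      rw [Finset.mem_filter] at hx ⊢
      exact ⟨Finset.mem_univ _, by rw [map_sub, hx.2, sub_self]⟩
    · intro x _ y _ h
      exact sub_left_injective h
    · intro x hx
      rw [Finset.mem_filter] at hx
      refine ⟨x + g, ?_, add_sub_cancel_right _ _⟩
      rw [Finset.mem_filter]
      exact ⟨Finset.mem_univ _, by rw [map_add, hx.2, zero_add]⟩
  set K := (Finset.univ.filter fun x : G => φ x = 0).card with hK
  have h2 : ∀ F : H → ℝ, ∑ x, F (φ x) = (K : ℝ) * ∑ y, F y := by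
    intro F
    rw [← Finset.sum_fiberwise_of_maps_to (s := Finset.univ) (t := Finset.univ) (g := φ)
      (fun _ _ => Finset.mem_univ _), Finset.mul_sum]
    refine Finset.sum_congr rfl fun y _ => ?_
    rw [Finset.sum_congr rfl (fun x hx => by
      rw [(Finset.mem_filter.1 hx).2] : ∀ x ∈ Finset.univ.filter (fun x : G => φ x = y),
        F (φ x) = F y), Finset.sum_const, h1, nsmul_eq_mul]
  have h3 : (Fintype.card G : ℝ) = K * Fintype.card H := by
    have := h2 fun _ => 1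
    simpa using this
  have h4 : ∑ y, F (a + y) = ∑ y, F y :=
    Fintype.sum_equiv (Equiv.addLeft a) _ _ fun y => rfl
  have hG : (Fintype.card G : ℝ) ≠ 0 := by
    exact_mod_cast Fintype.card_ne_zero
  have hK0 : (K : ℝ) ≠ 0 := by
    intro h
    rw [h, zero_mul] at h3
    exact hG h3
  have hH : (Fintype.card H : ℝ) ≠ 0 := by
    exact_mod_cast Fintype.card_ne_zero
  rw [h2 (fun y => F (a + y)), h4, h3]
  field_simp

section

variable {S : Sys} {n : ℕ}

/-- the linear part of the total type -/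
private noncomputable def cfx_A (S : Sys) (n : ℕ) : (RZ n → S.T) →+ (Fin n → S.T) where
  toFun t := fun i => ∑ v : RZ n, (v : VV n) i • t v
  map_zero' := by
    funext i
    simp
  map_add' s t := by
    funext i
    simp only [Pi.add_apply, smul_add, Finset.sum_add_distrib]

private theorem cfx_single (i : Fin n) : (Pi.single i 1 : VV n) ∈ RZ n := by
  classical
  unfold RZ
  rw [Finset.mem_filter]
  refine ⟨Finset.mem_univ _, fun h => ?_⟩
  have := congrFun h i
  rw [Pi.single_eq_same] at this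
  exact one_ne_zero this

private theorem cfx_surj : Function.Surjective (cfx_A S n) := by
  classical
  intro s
  refine ⟨fun v => ∑ i : Fin n, if (v : VV n) = Pi.single i 1 then s i else 0, ?_⟩
  funext i
  show ∑ v : RZ n, (v : VV n) i • (∑ j : Fin n,
    if (v : VV n) = Pi.single j 1 then s j else 0) = s i
  simp only [Finset.smul_sum]
  rw [Finset.sum_comm]
  have h1 : ∀ j : Fin n, ∑ v : RZ n, (v : VV n) i •
      (if (v : VV n) = Pi.single j 1 then s j else 0) = if j = i then s j else 0 := by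
    intro j
    rw [Finset.sum_eq_single (⟨Pi.single j 1, cfx_single j⟩ : RZ n)]
    · rw [if_pos rfl]
      by_cases h : j = i
      · subst h
        rw [if_pos rfl]
        show (Pi.single j 1 : VV n) j • s j = s j
        rw [Pi.single_eq_same, one_smul]
      · rw [if_neg h]
        show (Pi.single j 1 : VV n) i • s j = 0
        rw [Pi.single_eq_of_ne (Ne.symm h), zero_smul]
    · intro v _ hv
      rw [if_neg (fun h => hv (Subtype.ext h)), smul_zero]
    · intro h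
      exact absurd (Finset.mem_univ _) h
  simp only [h1]
  rw [Finset.sum_ite_eq' Finset.univ i s, if_pos (Finset.mem_univ i)]

/-- the mean over the central families -/
private theorem cfx_tz0 (z : S.P →₀ VV n) (F : (Fin n → S.T) → ℝ) :
    (1 / ((2 : ℝ) ^ S.m) ^ Fintype.card (RZ n)) * ∑ t : RZ n → S.T, F (tz z t) =
      (1 / ((2 : ℝ) ^ S.m) ^ n) * ∑ t : Fin n → S.T, F t := by
  have h := cfx_mean (cfx_A S n) cfx_surj (fun i => z.sum fun p v => v i • S.ty p) F
  have c1 : (Fintype.card (RZ n → S.T) : ℝ) = ((2 : ℝ) ^ S.m) ^ Fintype.card (RZ n) := by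
    rw [Fintype.card_fun, Fintype.card_fun, ZMod.card, Fintype.card_fin]
    push_cast
    rfl
  have c2 : (Fintype.card (Fin n → S.T) : ℝ) = ((2 : ℝ) ^ S.m) ^ n := by
    rw [Fintype.card_fun, Fintype.card_fun, ZMod.card, Fintype.card_fin, Fintype.card_fin]
    push_cast
    rfl
  rw [c1, c2] at h
  exact h

private theorem cfx_tz (inst : Fintype (RZ n → S.T)) (z : S.P →₀ VV n)
    (F : (Fin n → S.T) → ℝ) :
    (1 / ((2 : ℝ) ^ S.m) ^ Fintype.card (RZ n)) * ∑ t : RZ n → S.T, F (tz z t) =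
      (1 / ((2 : ℝ) ^ S.m) ^ n) * ∑ t : Fin n → S.T, F t := by
  have h := cfx_tz0 z F
  rw [Subsingleton.elim inst Pi.instFintype]
  exact h

end

/-! ### the result -/

private theorem cfx_Tk1 (S : Sys) (k : ℕ) :
    Tk S k (fun p => (1 + (k : ℝ) / (S.N p : ℝ))⁻¹) := by
  intro p
  have hN : (1 : ℝ) ≤ S.N p := by exact_mod_cast S.one_le_N p
  have h0 : 0 ≤ (k : ℝ) / (S.N p : ℝ) := by positivity
  refine ⟨by positivity, ?_⟩
  have h1 : (1 + (k : ℝ) / (S.N p : ℝ))⁻¹ - 1 =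
      -((k : ℝ) / (S.N p : ℝ) * (1 + (k : ℝ) / (S.N p : ℝ))⁻¹) := by
    have : (1 + (k : ℝ) / (S.N p : ℝ)) ≠ 0 := by positivity
    field_simp
    ring
  have h2 : (1 + (k : ℝ) / (S.N p : ℝ))⁻¹ ≤ 1 := inv_le_one_of_one_le₀ (by linarith)
  rw [h1, abs_neg, abs_of_nonneg (by positivity)]
  have h3 : ((S.N p : ℝ))⁻¹ ≤ (S.N p : ℝ) ^ (-(1 / 2) : ℝ) := by
    rw [← Real.rpow_neg_one]
    exact Real.rpow_le_rpow_of_exponent_le hN (by norm_num)
  calc (k : ℝ) / (S.N p : ℝ) * (1 + (k : ℝ) / (S.N p : ℝ))⁻¹ ≤ (k : ℝ) / (S.N p : ℝ) * 1 :=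
        mul_le_mul_of_nonneg_left h2 h0
    _ = k * ((S.N p : ℝ))⁻¹ := by rw [mul_one, div_eq_mul_inv]
    _ ≤ k * (S.N p : ℝ) ^ (-(1 / 2) : ℝ) := mul_le_mul_of_nonneg_left h3 (Nat.cast_nonneg _)

private theorem cfx_Tk2 (S : Sys) {A0 : ℝ} (hA : 0 ≤ A0) :
    Tk S A0 (fun p => 1 + A0 * (S.N p : ℝ) ^ (-(1 / 2) : ℝ)) := by
  intro p
  have h0 : 0 ≤ (S.N p : ℝ) ^ (-(1 / 2) : ℝ) := Real.rpow_nonneg (Nat.cast_nonneg _) _
  refine ⟨by positivity, ?_⟩
  rw [add_sub_cancel_left, abs_of_nonneg (by positivity)]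

/-- row C21: the asymptotic formula for a fixed frame -/
theorem sfix (h1 : SMain) (h2 : SCc) (h3 : Pool.Agent.H92.EL.SKarL) : SFix := by
  classical
  intro S d n Bd R c Φ θ g hn hc hG hΦ hg hθ hmean
  have : Nonempty (RZ n) := ⟨⟨Pi.single (⟨0, by omega⟩ : Fin n) 1, cfx_single _⟩⟩
  obtain ⟨κ1, A0, C, hκ, hA0, hC, hCc⟩ := h2 S (RZ n)
  have hcard : Fintype.card (RZ n) = (RZ n).card := Fintype.card_coe _
  set β := Fintype.card (RZ n) with hβ
  have hβ1 : 1 ≤ β := Fintype.card_pos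
  obtain ⟨L, hL0, hD, hLp⟩ := cfx_dpo S h1 Bd R c Φ θ β
    (fun p => (1 + (β : ℝ) / (S.N p : ℝ))⁻¹) (cfx_Tk1 S β) hc hG hΦ hθ (fun p => by
      have : (0 : ℝ) < S.N p := by exact_mod_cast S.one_le_N p
      positivity)
  obtain ⟨L', -, hD', -⟩ := cfx_dpo S h1 Bd R c Φ (fun _ => 1) A0
    (fun p => 1 + A0 * (S.N p : ℝ) ^ (-(1 / 2) : ℝ)) (cfx_Tk2 S hA0) hc hG hΦ
    (fun _ => zero_le_one) (fun p => by
      have : 0 ≤ (S.N p : ℝ) ^ (-(1 / 2) : ℝ) := Real.rpow_nonneg (Nat.cast_nonneg _) _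
      positivity)
  set b := cfx_b S Bd R (cT (S := S) c) Φ θ (fun p => (1 + (β : ℝ) / (S.N p : ℝ))⁻¹) with hb
  set b' := cfx_b S Bd R (cT (S := S) c) Φ (fun _ => 1)
    (fun p => 1 + A0 * (S.N p : ℝ) ^ (-(1 / 2) : ℝ)) with hb'
  set B := bV Bd R (cT (S := S) c) with hB
  let f : (R → Finset S.P) → ℝ → ℝ := fun x t =>
    if S.Dj x ∧ okc Bd R (cT (S := S) c) x ∧ Φ (pat x)
    then ∑ z ∈ asg n (un x), CC (un x) (fun t : RZ n → S.T => g x (tz z t)) t else 0
  have hf : ∀ x t, 1 ≤ t →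
      |f x t - κ1 * (b x * cfx_n S x) * (t * Real.log t ^ (β - 1))| ≤
      C * (b' x * cfx_n S x) * (t * (1 + Real.log t) ^ ((β : ℝ) - 3 / 2)) := by
    intro x t ht
    have hnx : (0 : ℝ) < cfx_n S x := by exact_mod_cast cfx_n1 S x
    by_cases h : S.Dj x ∧ okc Bd R (cT (S := S) c) x ∧ Φ (pat x)
    · have e1 : b x * cfx_n S x = θ (fun v => S.tys (x v)) *
          (((2 : ℝ) ^ n) ^ (un x).card * ty0 (RZ n) (un x)) := by
        rw [hb]
        unfold cfx_b ty0
        rw [if_pos h, mul_assoc, div_mul_cancel₀ _ hnx.ne', hβ]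
      have e2 : b' x * cfx_n S x = ((2 : ℝ) ^ n) ^ (un x).card * lo A0 (un x) := by
        rw [hb']
        unfold cfx_b lo
        rw [if_pos h, mul_assoc, div_mul_cancel₀ _ hnx.ne', one_mul]
      have e3 : f x t = ∑ z ∈ asg n (un x),
          CC (un x) (fun t : RZ n → S.T => g x (tz z t)) t := if_pos h
      have e4 : ∀ z ∈ asg n (un x),
          |CC (un x) (fun t : RZ n → S.T => g x (tz z t)) t -
            κ1 * θ (fun v => S.tys (x v)) * ty0 (RZ n) (un x) *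
              (t * Real.log t ^ (β - 1))| ≤
          C * lo A0 (un x) * t * (1 + Real.log t) ^ ((β : ℝ) - 3 / 2) := by
        intro z _
        have e5 := hCc (un x) (fun t : RZ n → S.T => g x (tz z t)) (fun t => by
          rw [abs_of_nonneg (hg x _).1]
          exact (hg x _).2) t ht
        rw [hβ, cfx_tz _ z (g x), hmean x h.1 h.2.1] at e5
        exact e5
      rw [e1, e2, e3]
      have e6 : ∑ z ∈ asg n (un x), CC (un x) (fun t : RZ n → S.T => g x (tz z t)) t -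
          κ1 * (θ (fun v => S.tys (x v)) *
            (((2 : ℝ) ^ n) ^ (un x).card * ty0 (RZ n) (un x))) * (t * Real.log t ^ (β - 1)) =
          ∑ z ∈ asg n (un x), (CC (un x) (fun t : RZ n → S.T => g x (tz z t)) t -
            κ1 * θ (fun v => S.tys (x v)) * ty0 (RZ n) (un x) *
              (t * Real.log t ^ (β - 1))) := by
        rw [Finset.sum_sub_distrib, Finset.sum_const, nsmul_eq_mul, cfx_asg]
        ring
      rw [e6]
      refine (Finset.abs_sum_le_sum_abs _ _).trans ((Finset.sum_le_sum e4).trans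
        (le_of_eq ?_))
      rw [Finset.sum_const, nsmul_eq_mul, cfx_asg]
      ring
    · have e1 : f x t = 0 := if_neg h
      have e2 : b x = 0 := if_neg h
      have e3 : b' x = 0 := if_neg h
      rw [e1, e2, e3]
      simp
  have hK := h3 (R → Finset S.P) (cfx_n S) b b' B β L L' (cfx_n1 S) hβ1 (cfx_fin (ι := R) S)
    hD hD' κ1 C hκ.le hC f hf
  refine ⟨κ1 * L * ((β - 1).factorial : ℝ) / ((B + β - 1).factorial : ℝ), by positivity,
    ?_, fun h => ?_⟩
  · refine hK.congr' ?_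
    filter_upwards [eventually_ge_atTop (0 : ℝ)] with Y hY
    rw [hcard]
    congr 1
    unfold NN
    have hNN : ∀ x : R → Finset S.P, (((∏ u, S.nm (x u) : ℕ) : ℝ)) = (cfx_n S x : ℝ) :=
      fun x => rfl
    have hOff : ∀ x : R → Finset S.P, Off S ∅ x := fun x u => Finset.disjoint_empty_right _
    rw [← Finset.sum_subset (s₁ := (cfx_fin (ι := R) S ⌊Y⌋₊).toFinset)
      (fun x hx => cfx_mem S x ((cfx_memf S hY x).1 hx))]
    · refine Finset.sum_congr rfl fun x hx => ?_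
      have hx' := (cfx_memf S hY x).1 hx
      by_cases h : S.Dj x ∧ okc Bd R (cT (S := S) c) x ∧ Φ (pat x)
      · rw [if_pos ⟨h.1, hOff x, h.2.1, h.2.2, hx'⟩]
        exact if_pos h
      · rw [if_neg (fun h' => h ⟨h'.1, h'.2.2.1, h'.2.2.2.1⟩)]
        exact if_neg h
    · intro x _ hx
      refine if_neg fun h' => hx ((cfx_memf S hY x).2 h'.2.2.2.2)
  · have := hLp h
    positivity

end Pool.Agent.EV
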