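import Pool.Agent.EV.CStm

/-!
# Project T4 (MP_a3214d), even order, block C, row C6: the maximal sets of unlinked types
-/

set_option autoImplicit false

open scoped BigOperators Topology
open Filter

namespace Pool.Agent.EV

private theorem evf_add_self (x : ZMod 2) : x + x = 0 := by
  revert x; decide

private theorem evf_eq (x y : ZMod 2) (h : ¬ (x + y = 1)) : x = y := by
  revert x y; decide

private theorem evf_mem {ι : Type} [Fintype ι] {b : ι → ι → ZMod 2} {U : Finset ι} {u : ι} :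
    u ∈ iso b U ↔ u ∈ U ∧ ∀ v ∈ U, ¬ Lk b u v := by
  simp only [iso, Finset.mem_filter]

private theorem evf_iso {ι : Type} [Fintype ι] {b : ι → ι → ZMod 2} {U : Finset ι} (h : iso b U = U) :
    ∀ u ∈ U, ∀ v ∈ U, b u v = b v u := by
  intro u hu v hv
  rw [← h] at hu
  exact evf_eq _ _ ((evf_mem.1 hu).2 v hv)

/-- the maximal sets of unlinked types -/
theorem sfull : SFull := by
  classical
  intro d n Bd R U
  refine ⟨?_, ?_, ?_, ?_⟩
  · intro himg hiso
    have hex : ∀ v : R, ∃ u ∈ U, u.1 = v := by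
      intro v
      have h1 : v ∈ U.image Prod.fst := by
        rw [himg]
        exact Finset.mem_univ v
      obtain ⟨u, hu, huv⟩ := Finset.mem_image.1 h1
      exact ⟨u, hu, huv⟩
    choose f hfU hf1 using hex
    have key : ∀ u ∈ U, ∀ w : R, u.2 ⬝ᵥ Bd.B (w : VV d) (u.1 : VV d) =
        (f w).2 ⬝ᵥ Bd.B (u.1 : VV d) (w : VV d) := by
      intro u hu w
      have h1 := evf_iso hiso u hu (f w) (hfU w)
      unfold bz at h1
      rw [hf1 w] at h1
      exact h1
    have hsym : ∀ w v : R, (f v).2 ⬝ᵥ Bd.B (w : VV d) (v : VV d) =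
        (f w).2 ⬝ᵥ Bd.B (v : VV d) (w : VV d) := by
      intro w v
      have h1 := key (f v) (hfU v) w
      rw [hf1 v] at h1
      exact h1
    refine ⟨fun w v => (f v).2 ⬝ᵥ Bd.B (w : VV d) (v : VV d), ⟨hsym, fun v => ⟨(f v).2,
      fun w => rfl⟩⟩, fun u hu w => ?_, ?_⟩
    · rw [key u hu w]
      exact (hsym w u.1).symm
    · intro ψ' _ h'
      funext w v
      have h1 := h' (f v) (hfU v) w
      rw [hf1 v] at h1
      exact h1.symm
  · intro ψ hψ h
    apply Finset.ext
    intro u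
    rw [evf_mem]
    refine ⟨fun h1 => h1.1, fun hu => ⟨hu, fun v hv hl => ?_⟩⟩
    unfold Lk bz at hl
    rw [h u hu v.1, h v hv u.1, hψ.sym v.1 u.1, evf_add_self] at hl
    exact zero_ne_one hl
  · exact ⟨fun _ _ => rfl, fun v => ⟨0, fun w => (zero_dotProduct _).symm⟩⟩
  · intro ψ ψ' h h'
    refine ⟨fun w v => ?_, fun v => ?_⟩
    · show ψ w v + ψ' w v = ψ v w + ψ' v w
      rw [h.sym, h'.sym]
    · obtain ⟨ζ, hζ⟩ := h.rep v
      obtain ⟨ζ', hζ'⟩ := h'.rep v
      refine ⟨ζ + ζ', fun w => ?_⟩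
      show ψ w v + ψ' w v = _
      rw [hζ w, hζ' w, add_dotProduct]

end Pool.Agent.EV
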