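import Pool.Agent.EV.CStm
import Pool.Agent.H98.MF.NLog
import Pool.Agent.H98.MF.SClassSum

/-!
# Project T4 (MP_a3214d), even order, block C, row C13: limits of Euler products (helper80)
-/

set_option autoImplicit false

open scoped BigOperators Topology
open Filter

namespace Pool.Agent.EV

open Pool.Agent.H98.MK (sg)
open Pool.Agent.H98.MF
open Pool.Agent.D8 (Tk)

/-! ### characters -/

private theorem vge_orth {m : ℕ} (t t' : Fin m → ZMod 2) :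
    ∑ c : Fin m → ZMod 2, ((sg (c ⬝ᵥ t') : ℤ) : ℝ) * ((sg (c ⬝ᵥ t) : ℤ) : ℝ) =
      if t' = t then 2 ^ m else 0 := by
  have h1 : ∀ c : Fin m → ZMod 2, ((sg (c ⬝ᵥ t') : ℤ) : ℝ) * ((sg (c ⬝ᵥ t) : ℤ) : ℝ) =
      ((sg (c ⬝ᵥ (t' + t)) : ℤ) : ℝ) := by
    intro c
    rw [dotProduct_add, sg_add]
    push_cast
    rfl
  rw [Finset.sum_congr rfl fun c _ => h1 c, ← Int.cast_sum, cls_sum_T]
  have h2 : t' + t = 0 ↔ t' = t := by
    constructor
    · intro h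
      funext i
      exact CharTwo.add_eq_zero.1 (congrFun h i)
    · rintro rfl
      funext i
      exact CharTwo.add_self_eq_zero _
  by_cases h : t' = t
  · rw [if_pos h, if_pos (h2.2 h)]
    push_cast
    rfl
  · rw [if_neg h, if_neg fun h3 => h (h2.1 h3)]
    push_cast
    rfl

/-- the Fourier coefficients -/
private noncomputable def vge_fh {m : ℕ} (G : (Fin m → ZMod 2) → ℝ)
    (c : Fin m → ZMod 2) : ℝ :=
  (1 / (2 : ℝ) ^ m) * ∑ t : Fin m → ZMod 2, G t * ((sg (c ⬝ᵥ t) : ℤ) : ℝ)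

private theorem vge_fh_zero {m : ℕ} (G : (Fin m → ZMod 2) → ℝ) :
    vge_fh G 0 = (1 / (2 : ℝ) ^ m) * ∑ t : Fin m → ZMod 2, G t := by
  unfold vge_fh
  congr 1
  refine Finset.sum_congr rfl fun t _ => ?_
  rw [zero_dotProduct, sg_zero, Int.cast_one, mul_one]

private theorem vge_inv {m : ℕ} (G : (Fin m → ZMod 2) → ℝ) (t : Fin m → ZMod 2) :
    G t = ∑ c : Fin m → ZMod 2, vge_fh G c * ((sg (c ⬝ᵥ t) : ℤ) : ℝ) := by
  classical
  have hl : (2 : ℝ) ^ m ≠ 0 := by positivity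
  have h1 : ∀ c : Fin m → ZMod 2, vge_fh G c * ((sg (c ⬝ᵥ t) : ℤ) : ℝ) =
      (1 / (2 : ℝ) ^ m) * ∑ t' : Fin m → ZMod 2,
        G t' * (((sg (c ⬝ᵥ t') : ℤ) : ℝ) * ((sg (c ⬝ᵥ t) : ℤ) : ℝ)) := by
    intro c
    unfold vge_fh
    rw [mul_assoc, Finset.sum_mul]
    congr 1
    exact Finset.sum_congr rfl fun t' _ => mul_assoc _ _ _
  rw [Finset.sum_congr rfl fun c _ => h1 c, ← Finset.mul_sum, Finset.sum_comm]
  have h2 : ∀ t' : Fin m → ZMod 2, ∑ c : Fin m → ZMod 2,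
      G t' * (((sg (c ⬝ᵥ t') : ℤ) : ℝ) * ((sg (c ⬝ᵥ t) : ℤ) : ℝ)) =
      if t' = t then G t * (2 : ℝ) ^ m else 0 := by
    intro t'
    rw [← Finset.mul_sum, vge_orth]
    by_cases h : t' = t
    · subst h
      rw [if_pos rfl, if_pos rfl]
    · rw [if_neg h, if_neg h, mul_zero]
  rw [Finset.sum_congr rfl fun t' _ => h2 t', Finset.sum_ite_eq' Finset.univ t,
    if_pos (Finset.mem_univ t)]
  field_simp

/-! ### prime sums -/

section

variable (S : Sys)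

private theorem vge_two (p : S.P) : (2 : ℝ) ≤ S.N p := by exact_mod_cast S.two_le p

private theorem vge_pos (p : S.P) : (0 : ℝ) < S.N p := by linarith [vge_two S p]

private theorem vge_sum (s : ℝ) (hs : 1 < s) : Summable fun p : S.P => (S.N p : ℝ) ^ (-s) := by
  refine pre_summable_N S.toPre (S.κ + S.C) (fun X hX => ?_) s hs
  have h1 := S.cnt X hX
  have h2 : X ^ (1 - S.δ) ≤ X := by
    calc X ^ (1 - S.δ) ≤ X ^ (1 : ℝ) :=
          Real.rpow_le_rpow_of_exponent_le hX (by linarith [S.δ_pos])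
      _ = X := Real.rpow_one X
  have h3 := (abs_le.1 h1).2
  have h4 : S.C * X ^ (1 - S.δ) ≤ S.C * X := mul_le_mul_of_nonneg_left h2 S.C_nonneg
  linarith

private theorem vge_rp_le (p : S.P) {a b : ℝ} (h : a ≤ b) :
    (S.N p : ℝ) ^ a ≤ (S.N p : ℝ) ^ b :=
  Real.rpow_le_rpow_of_exponent_le (by linarith [vge_two S p]) h

private theorem vge_rp_le_one (p : S.P) {a : ℝ} (h : a ≤ 0) : (S.N p : ℝ) ^ a ≤ 1 := by
  have := vge_rp_le S p h
  rwa [Real.rpow_zero] at this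

private theorem vge_rp_nn (p : S.P) (a : ℝ) : 0 ≤ (S.N p : ℝ) ^ a :=
  Real.rpow_nonneg (vge_pos S p).le _

private theorem vge_tau {B : ℝ} {τ : S.P → ℝ} (hτ : Tk S B τ) (p : S.P) : τ p ≤ 1 + |B| := by
  have h1 := (abs_le.1 (hτ p).2).2
  have h2 : B * (S.N p : ℝ) ^ (-(1 / 2) : ℝ) ≤ |B| * 1 :=
    mul_le_mul (le_abs_self B) (vge_rp_le_one S p (by norm_num)) (vge_rp_nn S p _) (abs_nonneg B)
  linarith

private theorem vge_cont (p : S.P) (σ₀ : ℝ) :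
    Tendsto (fun σ : ℝ => (S.N p : ℝ) ^ (-(1 + σ))) (𝓝 σ₀) (𝓝 ((S.N p : ℝ) ^ (-(1 + σ₀)))) := by
  have h : Continuous fun σ : ℝ => (S.N p : ℝ) ^ (-(1 + σ)) :=
    (Real.continuous_const_rpow (vge_pos S p).ne').comp (by fun_prop)
  exact h.tendsto σ₀

/-- the term of a prime -/
private noncomputable def vge_t (G : S.T → ℝ) (τ : S.P → ℝ) (σ : ℝ) (p : S.P) : ℝ :=
  G (S.ty p) * (τ p * (S.N p : ℝ) ^ (-(1 + σ)))

private theorem vge_t_le {G : S.T → ℝ} {F : ℝ} (hF : ∀ t, |G t| ≤ F) {B : ℝ} {τ : S.P → ℝ}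
    (hτ : Tk S B τ) (σ : ℝ) (p : S.P) :
    |vge_t S G τ σ p| ≤ F * (1 + |B|) * (S.N p : ℝ) ^ (-(1 + σ)) := by
  unfold vge_t
  rw [abs_mul, abs_of_nonneg (mul_nonneg (hτ p).1 (vge_rp_nn S p _)), mul_assoc]
  have hF0 : 0 ≤ F := (abs_nonneg _).trans (hF (S.ty p))
  refine mul_le_mul (hF _) ?_ (mul_nonneg (hτ p).1 (vge_rp_nn S p _)) hF0
  exact mul_le_mul_of_nonneg_right (vge_tau S hτ p) (vge_rp_nn S p _)

private theorem vge_t_cont (G : S.T → ℝ) (τ : S.P → ℝ) (p : S.P) (σ₀ : ℝ) :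
    Tendsto (fun σ : ℝ => vge_t S G τ σ p) (𝓝 σ₀) (𝓝 (vge_t S G τ σ₀ p)) := by
  unfold vge_t
  exact Tendsto.const_mul _ ((vge_cont S p σ₀).const_mul _)

private theorem vge_Z_sum {G : S.T → ℝ} {F : ℝ} (hF : ∀ t, |G t| ≤ F) {B : ℝ} {τ : S.P → ℝ}
    (hτ : Tk S B τ) {σ : ℝ} (hσ : 0 < σ) : Summable fun p : S.P => vge_t S G τ σ p := by
  refine Summable.of_norm_bounded ((vge_sum S (1 + σ) (by linarith)).mul_left (F * (1 + |B|)))
    fun p => ?_
  rw [Real.norm_eq_abs]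
  exact vge_t_le S hF hτ σ p

private theorem vge_main (h3 : SPl) (G : S.T → ℝ) : ∃ K : ℝ, Tendsto (fun σ : ℝ =>
    ∑' p : S.P, G (S.ty p) * (S.N p : ℝ) ^ (-(1 + σ)) -
      vge_fh G 0 * Real.log (1 / σ)) (𝓝[>] 0) (𝓝 K) := by
  classical
  obtain ⟨⟨L0, hL0⟩, hL⟩ := h3 S
  have hex : ∀ c : S.T, ∃ L : ℝ, Tendsto (fun σ : ℝ =>
      ∑' p : S.P, ((sg (c ⬝ᵥ S.ty p) : ℤ) : ℝ) * (S.N p : ℝ) ^ (-(1 + σ)) -
        if c = 0 then Real.log (1 / σ) else 0) (𝓝[>] 0) (𝓝 L) := by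
    intro c
    by_cases hc : c = 0
    · subst hc
      refine ⟨L0, hL0.congr fun σ => ?_⟩
      rw [if_pos rfl]
      simp only [zero_dotProduct, sg_zero, Int.cast_one, one_mul]
    · obtain ⟨L, h⟩ := hL c hc
      refine ⟨L, ?_⟩
      simp only [if_neg hc, sub_zero]
      exact h
  choose L hLc using hex
  refine ⟨∑ c, vge_fh G c * L c, ?_⟩
  have h1 : Tendsto (fun σ : ℝ => ∑ c, vge_fh G c *
      (∑' p : S.P, ((sg (c ⬝ᵥ S.ty p) : ℤ) : ℝ) * (S.N p : ℝ) ^ (-(1 + σ)) -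
        if c = 0 then Real.log (1 / σ) else 0)) (𝓝[>] 0)
      (𝓝 (∑ c, vge_fh G c * L c)) :=
    tendsto_finsetSum _ fun c _ => (hLc c).const_mul _
  refine h1.congr' ?_
  filter_upwards [self_mem_nhdsWithin] with σ hσ
  have hσ' : (0 : ℝ) < σ := hσ
  have hs : ∀ c : S.T, Summable fun p : S.P =>
      ((sg (c ⬝ᵥ S.ty p) : ℤ) : ℝ) * (S.N p : ℝ) ^ (-(1 + σ)) := by
    intro c
    refine Summable.of_norm_bounded (vge_sum S (1 + σ) (by linarith)) fun p => ?_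
    rw [Real.norm_eq_abs, abs_mul, abs_sgr, one_mul, abs_of_nonneg (vge_rp_nn S p _)]
  have h2 : ∑' p : S.P, G (S.ty p) * (S.N p : ℝ) ^ (-(1 + σ)) =
      ∑ c, vge_fh G c * ∑' p : S.P, ((sg (c ⬝ᵥ S.ty p) : ℤ) : ℝ) *
        (S.N p : ℝ) ^ (-(1 + σ)) := by
    rw [Finset.sum_congr rfl fun c _ => (tsum_mul_left (a := vge_fh G c)).symm]
    rw [← Summable.tsum_finsetSum fun c _ => (hs c).mul_left _]
    refine tsum_congr fun p => ?_
    conv_lhs => rw [vge_inv G (S.ty p)]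
    rw [Finset.sum_mul]
    exact Finset.sum_congr rfl fun c _ => mul_assoc _ _ _
  rw [h2]
  simp only [mul_sub, Finset.sum_sub_distrib, mul_ite, mul_zero, Finset.sum_ite_eq',
    Finset.mem_univ, if_true]

private theorem vge_lim (h3 : SPl) {G : S.T → ℝ} {F : ℝ} (hF : ∀ t, |G t| ≤ F) {B : ℝ}
    {τ : S.P → ℝ} (hτ : Tk S B τ) : ∃ K : ℝ, Tendsto (fun σ : ℝ =>
      ∑' p : S.P, vge_t S G τ σ p - vge_fh G 0 * Real.log (1 / σ)) (𝓝[>] 0) (𝓝 K) := by
  obtain ⟨K1, hK1⟩ := vge_main S h3 G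
  set D : ℝ → S.P → ℝ := fun σ p => vge_t S G τ σ p -
    G (S.ty p) * (S.N p : ℝ) ^ (-(1 + σ)) with hD
  have hF0 : S.P → 0 ≤ F := fun p => (abs_nonneg _).trans (hF (S.ty p))
  have hbd : ∀ σ : ℝ, 0 ≤ σ → ∀ p, ‖D σ p‖ ≤ F * |B| * (S.N p : ℝ) ^ (-(3 / 2) : ℝ) := by
    intro σ hσ p
    simp only [hD]
    unfold vge_t
    rw [← mul_sub, Real.norm_eq_abs, abs_mul, mul_assoc F]
    refine mul_le_mul (hF _) ?_ (abs_nonneg _) (hF0 p)
    rw [show τ p * (S.N p : ℝ) ^ (-(1 + σ)) - (S.N p : ℝ) ^ (-(1 + σ)) =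
      (τ p - 1) * (S.N p : ℝ) ^ (-(1 + σ)) by ring, abs_mul,
      abs_of_nonneg (vge_rp_nn S p (-(1 + σ)))]
    have h1 : |τ p - 1| ≤ |B| * (S.N p : ℝ) ^ (-(1 / 2) : ℝ) :=
      (hτ p).2.trans (mul_le_mul_of_nonneg_right (le_abs_self B) (vge_rp_nn S p _))
    have h2 : (S.N p : ℝ) ^ (-(1 + σ)) ≤ (S.N p : ℝ) ^ (-1 : ℝ) :=
      vge_rp_le S p (by linarith)
    calc |τ p - 1| * (S.N p : ℝ) ^ (-(1 + σ))
        ≤ (|B| * (S.N p : ℝ) ^ (-(1 / 2) : ℝ)) * (S.N p : ℝ) ^ (-1 : ℝ) :=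
          mul_le_mul h1 h2 (vge_rp_nn S p _)
            (mul_nonneg (abs_nonneg B) (vge_rp_nn S p _))
      _ = |B| * (S.N p : ℝ) ^ (-(3 / 2) : ℝ) := by
          rw [mul_assoc, ← Real.rpow_add (vge_pos S p)]
          norm_num
  have hsb : Summable fun p : S.P => F * |B| * (S.N p : ℝ) ^ (-(3 / 2) : ℝ) :=
    (vge_sum S (3 / 2) (by norm_num)).mul_left _
  have hlim : Tendsto (fun σ : ℝ => ∑' p, D σ p) (𝓝[>] 0) (𝓝 (∑' p, D 0 p)) := by
    refine tendsto_tsum_of_dominated_convergence hsb (fun p => ?_) ?_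
    · refine Tendsto.mono_left ?_ nhdsWithin_le_nhds
      exact (vge_t_cont S G τ p 0).sub ((vge_cont S p 0).const_mul _)
    · filter_upwards [self_mem_nhdsWithin] with σ hσ p
      exact hbd σ (le_of_lt hσ) p
  refine ⟨K1 + ∑' p, D 0 p, (hK1.add hlim).congr' ?_⟩
  filter_upwards [self_mem_nhdsWithin] with σ hσ
  have hσ' : (0 : ℝ) < σ := hσ
  have hs1 := vge_Z_sum S hF hτ hσ'
  have hs2 : Summable fun p : S.P => G (S.ty p) * (S.N p : ℝ) ^ (-(1 + σ)) := by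
    refine Summable.of_norm_bounded ((vge_sum S (1 + σ) (by linarith)).mul_left F) fun p => ?_
    rw [Real.norm_eq_abs, abs_mul, abs_of_nonneg (vge_rp_nn S p _)]
    exact mul_le_mul_of_nonneg_right (hF _) (vge_rp_nn S p _)
  have h1 : ∑' p, D σ p = ∑' p, vge_t S G τ σ p -
      ∑' p : S.P, G (S.ty p) * (S.N p : ℝ) ^ (-(1 + σ)) := hs1.tsum_sub hs2
  rw [h1]
  ring

/-! ### the canonical factors -/

private noncomputable def vge_E (z : ℝ) : ℝ := (1 + z) * Real.exp (-z) - 1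

private theorem vge_E_cont : Continuous vge_E := by
  unfold vge_E
  fun_prop

private theorem vge_E_le {R : ℝ} {z : ℝ} (hz : |z| ≤ R) :
    |vge_E z| ≤ ((1 + R) * Real.exp R + 1) * |z| ^ 2 := by
  have h1 := Complex.norm_exp_sub_sum_le_norm_mul_exp (-(z : ℂ)) 2
  simp only [Finset.sum_range_succ, Finset.sum_range_zero, pow_zero, Nat.factorial_zero,
    Nat.cast_one, div_one, zero_add, pow_one, Nat.factorial_one, norm_neg] at h1
  have h0 : Complex.exp (-(z : ℂ)) - (1 + -(z : ℂ)) = ((Real.exp (-z) - (1 + -z) : ℝ) : ℂ) := by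
    push_cast
    rfl
  rw [h0, Complex.norm_real, Complex.norm_real, Real.norm_eq_abs, Real.norm_eq_abs] at h1
  have h2 : vge_E z = (1 + z) * (Real.exp (-z) - (1 + -z)) - z ^ 2 := by
    unfold vge_E
    ring
  have hR : 0 ≤ R := (abs_nonneg z).trans hz
  have h3 : Real.exp |z| ≤ Real.exp R := Real.exp_le_exp.2 hz
  have h4 : |1 + z| ≤ 1 + R := by
    refine (abs_add_le _ _).trans ?_
    rw [abs_one]
    linarith
  calc |vge_E z| ≤ |(1 + z) * (Real.exp (-z) - (1 + -z))| + |z ^ 2| := by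
        rw [h2]
        exact abs_sub _ _
    _ ≤ (1 + R) * (|z| ^ 2 * Real.exp R) + |z| ^ 2 := by
        rw [abs_mul, abs_pow]
        have h5 : |Real.exp (-z) - (1 + -z)| ≤ |z| ^ 2 * Real.exp R :=
          h1.trans (mul_le_mul_of_nonneg_left h3 (by positivity))
        have h6 := mul_le_mul h4 h5 (abs_nonneg _) (by linarith)
        linarith
    _ = _ := by ring

private theorem vge_prod {G : S.T → ℝ} {F : ℝ} (hF0 : 0 ≤ F) (hF : ∀ t, |G t| ≤ F) {B : ℝ}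
    {τ : S.P → ℝ} (hτ : Tk S B τ) :
    (∀ σ : ℝ, 0 < σ → ∏' p : S.P, (1 + vge_t S G τ σ p) =
      Real.exp (∑' p : S.P, vge_t S G τ σ p) * ∏' p : S.P, (1 + vge_E (vge_t S G τ σ p))) ∧
    Tendsto (fun σ : ℝ => ∏' p : S.P, (1 + vge_E (vge_t S G τ σ p))) (𝓝[>] 0)
      (𝓝 (∏' p : S.P, (1 + vge_E (vge_t S G τ 0 p)))) ∧
    ((∀ p, 1 + vge_t S G τ 0 p ≠ 0) → ∏' p : S.P, (1 + vge_E (vge_t S G τ 0 p)) ≠ 0) := by
  set A : ℝ := F * (1 + |B|) with hA
  have hA0 : 0 ≤ A := mul_nonneg hF0 (by positivity)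
  set bd : S.P → ℝ := fun p => ((1 + A) * Real.exp A + 1) * A ^ 2 *
    (S.N p : ℝ) ^ (-2 : ℝ) with hbd
  have hbs : Summable bd := (vge_sum S 2 (by norm_num)).mul_left _
  have hb : ∀ σ : ℝ, 0 ≤ σ → ∀ p, ‖vge_E (vge_t S G τ σ p)‖ ≤ bd p := by
    intro σ hσ p
    have h1 : |vge_t S G τ σ p| ≤ A * (S.N p : ℝ) ^ (-1 : ℝ) :=
      (vge_t_le S hF hτ σ p).trans
        (mul_le_mul_of_nonneg_left (vge_rp_le S p (by linarith)) hA0)
    have h2 : (S.N p : ℝ) ^ (-1 : ℝ) ≤ 1 := vge_rp_le_one S _ (by norm_num)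
    have h3 : |vge_t S G τ σ p| ≤ A := h1.trans (mul_le_of_le_one_right hA0 h2)
    rw [Real.norm_eq_abs]
    refine (vge_E_le h3).trans ?_
    have h4 : |vge_t S G τ σ p| ^ 2 ≤ (A * (S.N p : ℝ) ^ (-1 : ℝ)) ^ 2 :=
      pow_le_pow_left₀ (abs_nonneg _) h1 2
    have h5 : (A * (S.N p : ℝ) ^ (-1 : ℝ)) ^ 2 =
        A ^ 2 * (S.N p : ℝ) ^ (-2 : ℝ) := by
      rw [mul_pow, ← Real.rpow_natCast ((S.N p : ℝ) ^ (-1 : ℝ)) 2,
        ← Real.rpow_mul (vge_pos S _).le]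
      norm_num
    rw [h5] at h4
    have h6 : 0 ≤ (1 + A) * Real.exp A + 1 := by positivity
    calc ((1 + A) * Real.exp A + 1) * |vge_t S G τ σ p| ^ 2
        ≤ ((1 + A) * Real.exp A + 1) * (A ^ 2 * (S.N p : ℝ) ^ (-2 : ℝ)) :=
          mul_le_mul_of_nonneg_left h4 h6
      _ = bd p := by rw [hbd]; ring
  have hns : ∀ σ : ℝ, 0 ≤ σ → Summable fun p => ‖vge_E (vge_t S G τ σ p)‖ := fun σ hσ =>
    Summable.of_nonneg_of_le (fun _ => norm_nonneg _) (hb σ hσ) hbs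
  refine ⟨fun σ hσ => ?_, ?_, fun hne => ?_⟩
  · have h1 : HasProd (fun p => Real.exp (vge_t S G τ σ p))
        (Real.exp (∑' p : S.P, vge_t S G τ σ p)) := (vge_Z_sum S hF hτ hσ).hasSum.rexp
    have h2 : Multipliable fun p => 1 + vge_E (vge_t S G τ σ p) :=
      multipliable_one_add_of_summable (hns σ hσ.le)
    rw [← h1.tprod_eq, ← h1.multipliable.tprod_mul h2]
    refine tprod_congr fun p => ?_
    unfold vge_E
    rw [add_sub_cancel, mul_comm (1 + vge_t S G τ σ p), ← mul_assoc, ← Real.exp_add,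
      add_neg_cancel, Real.exp_zero, one_mul]
  · refine tendsto_tprod_one_add_of_dominated_convergence hbs (fun p => ?_) ?_
    · refine Tendsto.mono_left ?_ nhdsWithin_le_nhds
      exact (vge_E_cont.tendsto _).comp (vge_t_cont S G τ p 0)
    · filter_upwards [self_mem_nhdsWithin] with σ hσ p
      exact hb σ (le_of_lt hσ) p
  · refine tprod_one_add_ne_zero_of_summable (fun p => ?_) (hns 0 le_rfl)
    unfold vge_E
    rw [add_sub_cancel]
    exact mul_ne_zero (hne p) (Real.exp_ne_zero _)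

end

/-! ### the limits -/

private theorem vge_log_top : Tendsto (fun σ : ℝ => Real.log (1 / σ)) (𝓝[>] 0) atTop := by
  have h : Tendsto (fun σ : ℝ => 1 / σ) (𝓝[>] 0) atTop := by
    simp only [one_div]
    exact tendsto_inv_nhdsGT_zero
  exact Real.tendsto_log_atTop.comp h

private theorem vge_pow (b : ℕ) {σ : ℝ} (hσ : 0 < σ) :
    σ ^ b = Real.exp (-(b * Real.log (1 / σ))) := by
  rw [one_div, Real.log_inv, mul_neg, neg_neg, ← Real.log_pow, Real.exp_log (pow_pos hσ b)]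

theorem sge1 (h2 : SEu) (h3 : SPl) : SGE1 := by
  classical
  intro S ι _ f B τ b hτ
  set G : S.T → ℝ := fun t => ∑ u, f u t with hGdef
  set F : ℝ := ∑ u, ∑ t, |f u t| with hFdef
  have hf : ∀ u t, |f u t| ≤ F := fun u t =>
    (Finset.single_le_sum (f := fun t => |f u t|) (fun t _ => abs_nonneg _)
      (Finset.mem_univ t)).trans
      (Finset.single_le_sum (f := fun u => ∑ t, |f u t|)
        (fun u _ => Finset.sum_nonneg fun t _ => abs_nonneg _) (Finset.mem_univ u))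
  have hG : ∀ t, |G t| ≤ F := fun t =>
    (Finset.abs_sum_le_sum_abs _ _).trans (Finset.sum_le_sum fun u _ =>
      Finset.single_le_sum (f := fun t => |f u t|) (fun t _ => abs_nonneg _)
        (Finset.mem_univ t))
  have hF0 : 0 ≤ F := Finset.sum_nonneg fun u _ => Finset.sum_nonneg fun t _ => abs_nonneg _
  have hmu : mu f = vge_fh G 0 := by
    rw [vge_fh_zero]
    unfold mu
    rw [← Finset.mul_sum, Finset.sum_comm]
  have hw : ∀ σ u p, |vge_t S (f u) τ σ p| ≤ F * (1 + |B|) * (S.N p : ℝ) ^ (-(1 + σ)) :=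
    fun σ u p => vge_t_le S (hf u) hτ σ p
  have hsw : ∀ σ p, ∑ u, vge_t S (f u) τ σ p = vge_t S G τ σ p := by
    intro σ p
    unfold vge_t
    rw [← Finset.sum_mul]
  have hGE : ∀ σ : ℝ, GE (fun _ => 1) f τ (1 + σ) =
      ∑' x : ι → Finset S.P, (if Pool.Agent.D8.DjP x then
        ∏ u, ∏ p ∈ x u, vge_t S (f u) τ σ p else 0) := by
    intro σ
    unfold GE vge_t
    refine tsum_congr fun x => ?_
    by_cases hx : S.Dj x
    · have hx' : Pool.Agent.D8.DjP x := hx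
      rw [if_pos hx, if_pos hx', one_mul]
    · have hx' : ¬ Pool.Agent.D8.DjP x := hx
      rw [if_neg hx, if_neg hx']
  have ha : ∀ σ : ℝ, 0 < σ → Summable fun p : S.P => F * (1 + |B|) * (S.N p : ℝ) ^ (-(1 + σ)) :=
    fun σ hσ => (vge_sum S (1 + σ) (by linarith)).mul_left _
  obtain ⟨K, hK⟩ := vge_lim S h3 hG hτ
  obtain ⟨P1, P2, P3⟩ := vge_prod S hF0 hG hτ
  have hval : ∀ σ : ℝ, 0 < σ → GE (fun _ => 1) f τ (1 + σ) =
      Real.exp (∑' p : S.P, vge_t S G τ σ p) *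
        ∏' p : S.P, (1 + vge_E (vge_t S G τ σ p)) := by
    intro σ hσ
    rw [hGE, ← P1 σ hσ, (h2 S.P ι (fun u p => vge_t S (f u) τ σ p) _ (hw σ) (ha σ hσ)).2.1]
    refine tprod_congr fun p => ?_
    rw [hsw]
  have hval2 : ∀ σ : ℝ, 0 < σ → σ ^ b * GE (fun _ => 1) f τ (1 + σ) =
      (Real.exp (∑' p : S.P, vge_t S G τ σ p - vge_fh G 0 * Real.log (1 / σ)) *
        (∏' p : S.P, (1 + vge_E (vge_t S G τ σ p)))) *
        Real.exp ((mu f - b) * Real.log (1 / σ)) := by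
    intro σ hσ
    rw [hval σ hσ, vge_pow b hσ, hmu, ← mul_assoc, ← Real.exp_add, mul_right_comm,
      ← Real.exp_add]
    congr 2
    ring
  have e1 := ((Real.continuous_exp.tendsto K).comp hK).mul P2
  have hlim : mu f = b → Tendsto (fun σ : ℝ => σ ^ b * GE (fun _ => 1) f τ (1 + σ)) (𝓝[>] 0)
      (𝓝 (Real.exp K * ∏' p : S.P, (1 + vge_E (vge_t S G τ 0 p)))) := by
    intro hb
    refine e1.congr' ?_
    filter_upwards [self_mem_nhdsWithin] with σ hσ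
    have hσ' : (0 : ℝ) < σ := hσ
    rw [hval2 σ hσ', hb, sub_self, zero_mul, Real.exp_zero, mul_one]
    rfl
  refine ⟨fun hb => ?_, fun hb => ⟨_, hlim hb⟩, fun hb hr => ?_⟩
  · have e2 : Tendsto (fun σ : ℝ => (mu f - b) * Real.log (1 / σ)) (𝓝[>] 0) atBot :=
      vge_log_top.const_mul_atTop_of_neg (by linarith)
    have e3 := e1.mul (Real.tendsto_exp_atBot.comp e2)
    rw [mul_zero] at e3
    refine e3.congr' ?_
    filter_upwards [self_mem_nhdsWithin] with σ hσ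
    have hσ' : (0 : ℝ) < σ := hσ
    rw [hval2 σ hσ']
    rfl
  · refine ⟨_, lt_of_le_of_ne ?_ (Ne.symm ?_), hlim hb⟩
    · refine ge_of_tendsto (hlim hb) ?_
      filter_upwards [self_mem_nhdsWithin] with σ hσ
      have hσ' : (0 : ℝ) < σ := hσ
      refine mul_nonneg (pow_pos hσ' b).le ?_
      rw [hGE]
      refine tsum_nonneg fun x => ?_
      split_ifs
      · exact Finset.prod_nonneg fun u _ => Finset.prod_nonneg fun p _ =>
          mul_nonneg (hr u _) (mul_nonneg (hτ p).1 (vge_rp_nn S p _))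
      · exact le_rfl
    · refine mul_ne_zero (Real.exp_ne_zero _) (P3 fun p => ne_of_gt ?_)
      refine add_pos_of_pos_of_nonneg one_pos ?_
      exact mul_nonneg (Finset.sum_nonneg fun u _ => hr u _)
        (mul_nonneg (hτ p).1 (vge_rp_nn S p _))

end Pool.Agent.EV
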