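import Pool.Agent.EV.CStm

/-!
# Project T4 (MP_a3214d), even order, block C, row C15: factorisation of the local factors
-/

set_option autoImplicit false

open scoped BigOperators Topology
open Filter

namespace Pool.Agent.EV

open Pool.Agent.H98.MK (sg)
open Pool.Agent.H98.MF
open Pool.Agent.H32.MQ (El)
open Pool.Agent.D8 (pat Tk ls ad)

theorem gfv_add (a b : ZMod 2) : ((sg (a + b) : ℤ) : ℝ) = ((sg a : ℤ) : ℝ) * ((sg b : ℤ) : ℝ) := by
  have h : ∀ x y : ZMod 2, sg (x + y) = sg x * sg y := by decide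
  rw [h]
  push_cast
  rfl

theorem gfv_zero : ((sg 0 : ℤ) : ℝ) = 1 := by
  have h : sg 0 = 1 := by decide
  rw [h]
  norm_num

theorem gfv_one (a : ZMod 2) (h : ((sg a : ℤ) : ℝ) = 1) : a = 0 := by
  have h1 : sg a = 1 := by exact_mod_cast h
  have h2 : ∀ b : ZMod 2, sg b = 1 → b = 0 := by decide
  exact h2 a h1

open Classical in
/-- the sum of a character over a finite subgroup -/
theorem gfv_sum {G : Type} [AddCommGroup G] (A : Finset G) (f : G → ZMod 2)
    (hf : ∀ x ∈ A, ∀ y ∈ A, f (x + y) = f x + f y) (hA : ∀ x ∈ A, ∀ y ∈ A, x + y ∈ A)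
    (hn : ∀ x ∈ A, -x ∈ A) :
    ∑ x ∈ A, ((sg (f x) : ℤ) : ℝ) = if ∀ x ∈ A, f x = 0 then (A.card : ℝ) else 0 := by
  split_ifs with h
  · rw [Finset.sum_congr rfl fun x hx => by rw [h x hx, gfv_zero], Finset.sum_const,
      nsmul_eq_mul, mul_one]
  · push Not at h
    obtain ⟨x1, hx1, h1⟩ := h
    have h2 : ∑ x ∈ A, ((sg (f x) : ℤ) : ℝ) = ∑ x ∈ A, ((sg (f (x + x1)) : ℤ) : ℝ) := by
      symm
      refine Finset.sum_bij' (fun x _ => x + x1) (fun x _ => x + -x1)
        (fun x hx => hA x hx x1 hx1) (fun x hx => hA x hx _ (hn x1 hx1)) ?_ ?_ ?_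
      · intro x _
        simp
      · intro x _
        simp
      · intro x _
        rfl
    have h3 : ∑ x ∈ A, ((sg (f (x + x1)) : ℤ) : ℝ) =
        (∑ x ∈ A, ((sg (f x) : ℤ) : ℝ)) * ((sg (f x1) : ℤ) : ℝ) := by
      rw [Finset.sum_mul]
      refine Finset.sum_congr rfl fun x hx => ?_
      rw [hf x hx x1 hx1, gfv_add]
    rw [h3] at h2
    have h4 : (∑ x ∈ A, ((sg (f x) : ℤ) : ℝ)) * (1 - ((sg (f x1) : ℤ) : ℝ)) = 0 := by
      linear_combination h2
    rcases mul_eq_zero.1 h4 with h5 | h5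
    · exact h5
    · exact absurd (gfv_one _ (sub_eq_zero.1 h5).symm) h1

section

variable (S : Sys) {d n : ℕ} (Bd : BD d n) (R : Finset (VV d)) (c : VV d → VV n → S.T)

open Classical in
/-- the dual vectors orthogonal to the values at `v` -/
noncomputable def gvN (v : R) : Finset (VV n) :=
  Finset.univ.filter fun ζ => ∀ w : R, ζ ⬝ᵥ Bd.B w v = 0

theorem gfv_memN {v : R} {ζ : VV n} :
    ζ ∈ gvN Bd R v ↔ ∀ w : R, ζ ⬝ᵥ Bd.B w v = 0 := by
  classical
  unfold gvN
  rw [Finset.mem_filter]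
  exact ⟨fun h => h.2, fun h => ⟨Finset.mem_univ _, h⟩⟩

open Classical in
/-- the weight -/
noncomputable def gvW (v : R) (t : S.T) : ℝ :=
  if ∀ ζ ∈ gvN Bd R v, c v ζ ⬝ᵥ t = 0 then ((gvN Bd R v).card : ℝ) else 0

open Classical in
/-- a representative of a form at `v` -/
noncomputable def gvZ (ψ : R → R → ZMod 2) (v : R) : VV n :=
  if h : ∃ ζ : VV n, ∀ w : R, ψ w v = ζ ⬝ᵥ Bd.B w v then h.choose else 0

theorem gfv_Z {ψ : R → R → ZMod 2} {v : R}
    (h : ∃ ζ : VV n, ∀ w : R, ψ w v = ζ ⬝ᵥ Bd.B w v) (w : R) :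
    ψ w v = gvZ Bd R ψ v ⬝ᵥ Bd.B w v := by
  classical
  unfold gvZ
  rw [dif_pos h]
  exact h.choose_spec w

theorem gfv_card (v : R) : 0 < (gvN Bd R v).card := by
  refine Finset.card_pos.2 ⟨0, (gfv_memN Bd R).2 fun w => ?_⟩
  rw [zero_dotProduct]

theorem gfv_W (hc : ∀ v ζ ζ', c v (ζ + ζ') = c v ζ + c v ζ') (v : R) (t : S.T) :
    ∑ ζ ∈ gvN Bd R v, ((sg (c v ζ ⬝ᵥ t) : ℤ) : ℝ) = gvW S Bd R c v t := by
  classical
  rw [gfv_sum (gvN Bd R v) (fun ζ => c v ζ ⬝ᵥ t)]
  · unfold gvW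
    split_ifs <;> rfl
  · intro x _ y _
    show c v (x + y) ⬝ᵥ t = _
    rw [hc, add_dotProduct]
  · intro x hx y hy
    rw [gfv_memN] at hx hy ⊢
    intro w
    rw [add_dotProduct, hx, hy, add_zero]
  · intro x hx
    rw [gfv_memN] at hx ⊢
    intro w
    rw [neg_dotProduct, hx, neg_zero]

theorem gfv_ne (v : R) (t : S.T) :
    gvW S Bd R c v t ≠ 0 ↔ ∀ ζ ∈ gvN Bd R v, c v ζ ⬝ᵥ t = 0 := by
  classical
  unfold gvW
  constructor
  · intro hw
    by_contra h
    apply hw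
    rw [if_neg h]
  · intro h
    rw [if_pos h]
    exact_mod_cast (gfv_card Bd R v).ne'

end

/-- Row C15: factorisation of the local factors -/
theorem sgfac : SGfac := by
  classical
  intro S d n Bd R c hc
  have hc0 : ∀ v, c v 0 = 0 := by
    intro v
    have h := hc v 0 0
    rw [add_zero] at h
    exact add_eq_left.mp h.symm
  have hcn : ∀ v ζ, c v (-ζ) = -c v ζ := by
    intro v ζ
    have h := hc v ζ (-ζ)
    rw [add_neg_cancel, hc0] at h
    exact (neg_eq_of_add_eq_zero_right h.symm).symm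
  refine ⟨gvW S Bd R c, fun ψ v t => c v (gvZ Bd R ψ v) ⬝ᵥ t, ?_, ?_, ?_, ?_, ?_, ?_, ?_, ?_⟩
  · intro v t
    unfold gvW
    split_ifs
    · exact Nat.cast_nonneg _
    · exact le_rfl
  · intro v
    unfold gvW
    rw [if_pos fun ζ _ => dotProduct_zero _]
    exact_mod_cast gfv_card Bd R v
  · intro v
    have h2 : ∑ t : S.T, gvW S Bd R c v t =
        (2 : ℝ) ^ S.m * (nv Bd R (cT (S := S) c) v : ℝ) := by
      have e1 : ∑ t : S.T, gvW S Bd R c v t =
          ∑ ζ ∈ gvN Bd R v, ∑ t : S.T, ((sg (c v ζ ⬝ᵥ t) : ℤ) : ℝ) := by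
        rw [Finset.sum_comm]
        exact Finset.sum_congr rfl fun t _ => (gfv_W S Bd R c hc v t).symm
      have e2 : ∀ ζ : VV n, ∑ t : S.T, ((sg (c v ζ ⬝ᵥ t) : ℤ) : ℝ) =
          if c v ζ = 0 then (2 : ℝ) ^ S.m else 0 := by
        intro ζ
        rw [gfv_sum Finset.univ (fun t : S.T => c v ζ ⬝ᵥ t) (fun x _ y _ => dotProduct_add _ _ _)
          (fun _ _ _ _ => Finset.mem_univ _) (fun _ _ => Finset.mem_univ _)]
        have e3 : (∀ t ∈ (Finset.univ : Finset S.T), c v ζ ⬝ᵥ t = 0) ↔ c v ζ = 0 := by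
          constructor
          · intro h
            funext i
            have h2 := h (Pi.single i 1) (Finset.mem_univ _)
            rwa [dotProduct_single, mul_one] at h2
          · intro h t _
            rw [h, zero_dotProduct]
        have e4 : ((Finset.univ : Finset S.T).card : ℝ) = (2 : ℝ) ^ S.m := by
          rw [Finset.card_univ, Fintype.card_fun, ZMod.card, Fintype.card_fin]
          push_cast
          rfl
        by_cases h : c v ζ = 0
        · rw [if_pos (e3.2 h), if_pos h, e4]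
        · rw [if_neg fun h' => h (e3.1 h'), if_neg h]
      rw [e1, Finset.sum_congr rfl fun ζ _ => e2 ζ, ← Finset.sum_filter, Finset.sum_const,
        nsmul_eq_mul, mul_comm]
      congr 1
      unfold nv
      norm_cast
      congr 1
      ext ζ
      rw [Finset.mem_filter, gfv_memN, Finset.mem_filter]
      unfold cT
      constructor
      · rintro ⟨h1, h2⟩
        exact ⟨Finset.mem_univ _, by rw [h2], h1⟩
      · rintro ⟨-, h1, h2⟩
        exact ⟨h2, congrArg Prod.fst h1⟩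
    rw [h2, one_div, inv_mul_cancel_left₀ (pow_ne_zero _ (by norm_num))]
  · intro ψ hψ v t
    have hz := gfv_Z Bd R (hψ.rep v)
    rw [← gfv_W S Bd R c hc v t, Finset.sum_mul]
    unfold gψ
    refine Finset.sum_bij' (fun ζ _ => ζ - gvZ Bd R ψ v) (fun ζ _ => ζ + gvZ Bd R ψ v)
      ?_ ?_ ?_ ?_ ?_
    · intro ζ hζ
      rw [Finset.mem_filter] at hζ
      rw [gfv_memN]
      intro w
      rw [sub_dotProduct, hζ.2, hz, sub_self]
    · intro ζ hζ
      rw [gfv_memN] at hζ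
      rw [Finset.mem_filter]
      refine ⟨Finset.mem_univ _, fun w => ?_⟩
      rw [add_dotProduct, hζ, zero_add, hz]
    · intro ζ _
      exact sub_add_cancel _ _
    · intro ζ _
      exact add_sub_cancel_right _ _
    · intro ζ _
      rw [← gfv_add, ← add_dotProduct, ← hc, sub_add_cancel]
  · intro ψ ψ' hψ hψ' v t hw
    have hz := gfv_Z Bd R (hψ.rep v)
    have hz' := gfv_Z Bd R (hψ'.rep v)
    have hex : ∃ ζ : VV n, ∀ w : R, (ψ + ψ') w v = ζ ⬝ᵥ Bd.B w v := by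
      refine ⟨gvZ Bd R ψ v + gvZ Bd R ψ' v, fun w => ?_⟩
      rw [add_dotProduct, ← hz, ← hz']
      rfl
    have hz2 := gfv_Z Bd R hex
    have hall := (gfv_ne S Bd R c v t).1 hw
    have hmem : gvZ Bd R (ψ + ψ') v + -(gvZ Bd R ψ v + gvZ Bd R ψ' v) ∈ gvN Bd R v := by
      rw [gfv_memN]
      intro w
      rw [add_dotProduct, neg_dotProduct, add_dotProduct, ← hz, ← hz', ← hz2]
      exact add_neg_cancel _
    have h1 := hall _ hmem
    rw [hc, hcn, hc, add_dotProduct, neg_dotProduct, add_dotProduct] at h1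
    exact add_neg_eq_zero.1 h1
  · intro ψ _ v t t'
    exact dotProduct_add _ _ _
  · intro v t t' h h'
    rw [gfv_ne] at h h' ⊢
    intro ζ hζ
    rw [dotProduct_add, h ζ hζ, h' ζ hζ, add_zero]
  · intro v t a h
    refine ⟨(gfv_ne S Bd R c v t).2 fun ζ hζ => ?_, fun ψ hψ => ?_⟩
    · rw [h ζ]
      refine Finset.sum_eq_zero fun w _ => ?_
      rw [(gfv_memN Bd R).1 hζ w, mul_zero]
    · show c v (gvZ Bd R ψ v) ⬝ᵥ t = _
      rw [h]
      exact Finset.sum_congr rfl fun w _ => by rw [← gfv_Z Bd R (hψ.rep v)]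

end Pool.Agent.EV
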