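import Pool.Agent.EV.CStm
import Pool.Agent.H98.MF.SCount

/-!
# Project T4 (MP_a3214d), even order, block C, row EV-C1: sums over isolated variables
-/

set_option autoImplicit false

open scoped BigOperators Topology
open Filter

namespace Pool.Agent.EV

open Pool.Agent.H98.MK (sg)
open Pool.Agent.H98.MF
open Pool.Agent.H32.MQ (El)
open Pool.Agent.D8 (pat Tk ls ad)

section

variable (S : Sys)

theorem eci_sg (a : ZMod 2) : |((sg a : ℤ) : ℝ)| = 1 := by
  have h : sg a = 1 ∨ sg a = -1 := by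
    revert a
    decide
  rcases h with h | h <;> rw [h] <;> norm_num

theorem eci_N1 (p : S.P) : (1 : ℝ) ≤ (S.N p : ℝ) := by exact_mod_cast S.one_le_N p

/-- bounded multiples -/
theorem eci_tau {B : ℝ} {τ : S.P → ℝ} (hτ : Tk S B τ) (p : S.P) :
    0 ≤ τ p ∧ τ p ≤ 1 + |B| := by
  obtain ⟨h0, h1⟩ := hτ p
  refine ⟨h0, ?_⟩
  have h2 : (S.N p : ℝ) ^ (-(1 / 2) : ℝ) ≤ 1 :=
    Real.rpow_le_one_of_one_le_of_nonpos (eci_N1 S p) (by norm_num)
  have h3 : 0 ≤ (S.N p : ℝ) ^ (-(1 / 2) : ℝ) := Real.rpow_nonneg (Nat.cast_nonneg _) _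
  have h4 : B * (S.N p : ℝ) ^ (-(1 / 2) : ℝ) ≤ |B| * 1 :=
    (mul_le_mul_of_nonneg_right (le_abs_self B) h3).trans
      (mul_le_mul_of_nonneg_left h2 (abs_nonneg B))
  have h5 := (abs_le.1 h1).2
  linarith

theorem eci_tauN {B : ℝ} {τ : S.P → ℝ} (hτ : Tk S B τ) {s : ℝ} (hs : 1 < s) :
    Summable fun p : S.P => τ p * (S.N p : ℝ) ^ (-s) := by
  refine Summable.of_nonneg_of_le (fun p => ?_) (fun p => ?_)
    ((summable_N S s hs).mul_left (1 + |B|))
  · exact mul_nonneg (eci_tau S hτ p).1 (Real.rpow_nonneg (Nat.cast_nonneg _) _)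
  · exact mul_le_mul_of_nonneg_right (eci_tau S hτ p).2 (Real.rpow_nonneg (Nat.cast_nonneg _) _)

open Classical in
/-- the weight of a prime in the variable `u` -/
noncomputable def eciW {ι : Type} (τ : S.P → ℝ) (c : ι → El S) (M : Finset S.P) (s : ℝ) (u : ι)
    (p : S.P) : ℝ :=
  if p ∈ M then 0 else ((sg (xc (c u) p) : ℤ) : ℝ) * (τ p * (S.N p : ℝ) ^ (-s))

theorem eci_sum {X : Type} (s : Finset X) (f : X → ZMod 2) :
    ((sg (∑ i ∈ s, f i) : ℤ) : ℝ) = ∏ i ∈ s, ((sg (f i) : ℤ) : ℝ) := by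
  rw [sg_sum, Int.cast_prod]

open Classical in
theorem eci_prod {ι : Type} [Fintype ι] (τ : S.P → ℝ) (c : ι → El S) (M : Finset S.P) (s : ℝ)
    (x : ι → Finset S.P) :
    ∏ u, ∏ p ∈ x u, eciW S τ c M s u p = if Off S M x then
      ((sg (∑ u, ∑ p ∈ x u, xc (c u) p) : ℤ) : ℝ) *
        ∏ u, ∏ p ∈ x u, (τ p * (S.N p : ℝ) ^ (-s)) else 0 := by
  by_cases h : Off S M x
  · rw [if_pos h]
    have h1 : ((sg (∑ u, ∑ p ∈ x u, xc (c u) p) : ℤ) : ℝ) =
        ∏ u, ∏ p ∈ x u, ((sg (xc (c u) p) : ℤ) : ℝ) := by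
      rw [eci_sum]
      exact Finset.prod_congr rfl fun u _ => eci_sum _ _
    rw [h1, ← Finset.prod_mul_distrib]
    refine Finset.prod_congr rfl fun u _ => ?_
    rw [← Finset.prod_mul_distrib]
    refine Finset.prod_congr rfl fun p hp => ?_
    unfold eciW
    rw [if_neg (Finset.disjoint_left.1 (h u) hp)]
  · rw [if_neg h]
    unfold Off at h
    rw [not_forall] at h
    obtain ⟨u, hu⟩ := h
    rw [Finset.not_disjoint_iff] at hu
    obtain ⟨p, hp, hpM⟩ := hu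
    refine Finset.prod_eq_zero (Finset.mem_univ u) (Finset.prod_eq_zero hp ?_)
    unfold eciW
    rw [if_pos hpM]

theorem eci_norm {ι : Type} {B : ℝ} {τ : S.P → ℝ} (hτ : Tk S B τ) (c : ι → El S)
    (M : Finset S.P) (s : ℝ) (u : ι) (p : S.P) :
    |eciW S τ c M s u p| ≤ τ p * (S.N p : ℝ) ^ (-s) := by
  have h0 : 0 ≤ τ p * (S.N p : ℝ) ^ (-s) :=
    mul_nonneg (eci_tau S hτ p).1 (Real.rpow_nonneg (Nat.cast_nonneg _) _)
  unfold eciW
  split_ifs
  · rw [abs_zero]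
    exact h0
  · rw [abs_mul, eci_sg, one_mul, abs_of_nonneg h0]

open Classical in
theorem eci_pt {ι : Type} {B : ℝ} {τ : S.P → ℝ} (hτ : Tk S B τ) (c : ι → El S) (u : ι)
    (M : Finset S.P) (hM : (c u).2 ⊆ M) {s : ℝ} (hs : 1 ≤ s) (p : S.P) :
    eciW S τ c M s u p ≤
      (if p ∈ (c u).2 then 0 else ((sg (S.ex (c u).2 (c u).1 p) : ℤ) : ℝ)) * (S.N p : ℝ) ^ (-s) +
      |B| * (S.N p : ℝ) ^ (-(3 / 2) : ℝ) +
      (if p ∈ M then (S.N p : ℝ) ^ (-1 : ℝ) else 0) := by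
  have hN := eci_N1 S p
  have hN0 : (0 : ℝ) < S.N p := lt_of_lt_of_le one_pos hN
  have h1 : 0 ≤ (S.N p : ℝ) ^ (-s) := Real.rpow_nonneg hN0.le _
  have h2 : (S.N p : ℝ) ^ (-s) ≤ (S.N p : ℝ) ^ (-1 : ℝ) :=
    Real.rpow_le_rpow_of_exponent_le hN (by linarith)
  have h3 : 0 ≤ (S.N p : ℝ) ^ (-(3 / 2) : ℝ) := Real.rpow_nonneg hN0.le _
  have h4 : 0 ≤ |B| * (S.N p : ℝ) ^ (-(3 / 2) : ℝ) := mul_nonneg (abs_nonneg _) h3
  have h5 : 0 ≤ (S.N p : ℝ) ^ (-1 : ℝ) := Real.rpow_nonneg hN0.le _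
  have hr0 := eci_sg (S.ex (c u).2 (c u).1 p)
  have hr : |((sg (S.ex (c u).2 (c u).1 p) : ℤ) : ℝ)| ≤ 1 := hr0.le
  unfold eciW xc
  set r : ℝ := ((sg (S.ex (c u).2 (c u).1 p) : ℤ) : ℝ) with hrdef
  by_cases h : p ∈ M
  · rw [if_pos h, if_pos h]
    have h6 : -(S.N p : ℝ) ^ (-1 : ℝ) ≤
        (if p ∈ (c u).2 then 0 else r) * (S.N p : ℝ) ^ (-s) := by
      split_ifs
      · rw [zero_mul]
        linarith
      · have h7 := (abs_le.1 hr).1
        have h8 := mul_le_mul_of_nonneg_right h7 h1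
        linarith
    linarith
  · have h6 : p ∉ (c u).2 := fun h7 => h (hM h7)
    rw [if_neg h, if_neg h, if_neg h6]
    have h7 : r * (τ p * (S.N p : ℝ) ^ (-s)) - r * (S.N p : ℝ) ^ (-s) ≤
        |B| * (S.N p : ℝ) ^ (-(3 / 2) : ℝ) := by
      have h8 : r * (τ p * (S.N p : ℝ) ^ (-s)) - r * (S.N p : ℝ) ^ (-s) =
          (r * (τ p - 1)) * (S.N p : ℝ) ^ (-s) := by ring
      rw [h8]
      have h9 : r * (τ p - 1) ≤ |B| * (S.N p : ℝ) ^ (-(1 / 2) : ℝ) := by
        refine le_trans (le_abs_self _) ?_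
        rw [abs_mul]
        calc |r| * |τ p - 1| ≤ 1 * |τ p - 1| := mul_le_mul_of_nonneg_right hr (abs_nonneg _)
          _ = |τ p - 1| := one_mul _
          _ ≤ B * (S.N p : ℝ) ^ (-(1 / 2) : ℝ) := (hτ p).2
          _ ≤ |B| * (S.N p : ℝ) ^ (-(1 / 2) : ℝ) :=
            mul_le_mul_of_nonneg_right (le_abs_self B) (Real.rpow_nonneg hN0.le _)
      calc (r * (τ p - 1)) * (S.N p : ℝ) ^ (-s)
          ≤ (|B| * (S.N p : ℝ) ^ (-(1 / 2) : ℝ)) * (S.N p : ℝ) ^ (-s) :=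
            mul_le_mul_of_nonneg_right h9 h1
        _ ≤ (|B| * (S.N p : ℝ) ^ (-(1 / 2) : ℝ)) * (S.N p : ℝ) ^ (-1 : ℝ) :=
            mul_le_mul_of_nonneg_left h2 (mul_nonneg (abs_nonneg _) (Real.rpow_nonneg hN0.le _))
        _ = |B| * (S.N p : ℝ) ^ (-(3 / 2) : ℝ) := by
            rw [mul_assoc, ← Real.rpow_add hN0]
            norm_num
    linarith

open Classical in
/-- one variable -/
theorem eci_one {ι : Type} {B : ℝ} {τ : S.P → ℝ} (hτ : Tk S B τ) (c : ι → El S) (u : ι)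
    (M : Finset S.P) (hM : (c u).2 ⊆ M) {s : ℝ} (hs : 1 < s) :
    (Summable fun p : S.P => eciW S τ c M s u p) ∧
    ∑' p : S.P, eciW S τ c M s u p ≤
      ∑' p : S.P, (if p ∈ (c u).2 then 0 else ((sg (S.ex (c u).2 (c u).1 p) : ℤ) : ℝ)) *
        (S.N p : ℝ) ^ (-s) +
      |B| * ∑' p : S.P, (S.N p : ℝ) ^ (-(3 / 2) : ℝ) + ∑ p ∈ M, 1 / (S.N p : ℝ) := by
  have hL : Summable fun p : S.P => eciW S τ c M s u p := by
    refine Summable.of_norm_bounded (eci_tauN S hτ hs) fun p => ?_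
    rw [Real.norm_eq_abs]
    exact eci_norm S hτ c M s u p
  have h1 : Summable fun p : S.P =>
      (if p ∈ (c u).2 then 0 else ((sg (S.ex (c u).2 (c u).1 p) : ℤ) : ℝ)) *
        (S.N p : ℝ) ^ (-s) := by
    refine Summable.of_norm_bounded (summable_N S s hs) fun p => ?_
    have h0 : 0 ≤ (S.N p : ℝ) ^ (-s) := Real.rpow_nonneg (Nat.cast_nonneg _) _
    rw [Real.norm_eq_abs, abs_mul, abs_of_nonneg h0]
    refine (mul_le_mul_of_nonneg_right (b := |_|) (c := 1) ?_ h0).trans (one_mul _).le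
    split_ifs
    · rw [abs_zero]
      exact zero_le_one
    · exact (eci_sg _).le
  have h2 : Summable fun p : S.P => |B| * (S.N p : ℝ) ^ (-(3 / 2) : ℝ) :=
    (summable_N S (3 / 2) (by norm_num)).mul_left _
  have h5 : HasSum (fun p : S.P => if p ∈ M then (S.N p : ℝ) ^ (-1 : ℝ) else 0)
      (∑ p ∈ M, 1 / (S.N p : ℝ)) := by
    have h6 : HasSum (fun p : S.P => if p ∈ M then (S.N p : ℝ) ^ (-1 : ℝ) else 0)
        (∑ p ∈ M, if p ∈ M then (S.N p : ℝ) ^ (-1 : ℝ) else 0) :=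
      hasSum_sum_of_ne_finset_zero (fun p hp => if_neg hp)
    have h7 : (∑ p ∈ M, if p ∈ M then (S.N p : ℝ) ^ (-1 : ℝ) else 0) =
        ∑ p ∈ M, 1 / (S.N p : ℝ) := by
      refine Finset.sum_congr rfl fun p hp => ?_
      rw [if_pos hp, Real.rpow_neg_one, one_div]
    rwa [h7] at h6
  refine ⟨hL, ?_⟩
  have h7 := (h1.add h2).add h5.summable
  have h8 := hL.tsum_le_tsum (fun p => eci_pt S hτ c u M hM hs.le p) h7
  rw [(h1.add h2).tsum_add h5.summable, h1.tsum_add h2, h5.tsum_eq, tsum_mul_left] at h8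
  exact h8

end

/-- the sums over isolated variables -/
theorem sinn (h1 : Pool.Agent.D8.SLup) (h2 : SEu) : SInn := by
  classical
  intro S ι _ B
  obtain ⟨C1, hC1, hup⟩ := h1 S
  obtain ⟨K0, hK0⟩ := S.prm0
  set Z : ℝ := ∑' p : S.P, (S.N p : ℝ) ^ (-(3 / 2) : ℝ) with hZ
  set Z2 : ℝ := ∑' p : S.P, (S.N p : ℝ) ^ (-2 : ℝ) with hZ2
  set D : ℝ := (Fintype.card ι : ℝ) ^ 2 with hD
  have hD0 : 0 ≤ D := sq_nonneg _
  set Q : ℝ := |K0| + C1 + |B| * Z with hQ
  have hZ0 : 0 ≤ Z := tsum_nonneg fun p => Real.rpow_nonneg (Nat.cast_nonneg _) _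
  have hQ0 : 0 ≤ Q := by
    have := abs_nonneg K0
    have := mul_nonneg (abs_nonneg B) hZ0
    linarith
  refine ⟨Real.exp (Fintype.card ι * Q + D * ((1 + |B|) ^ 2 * Z2)), Fintype.card ι,
    (Real.exp_pos _).le, Nat.cast_nonneg _, fun τ c M hτ hOk σ hσ hσ1 => ?_⟩
  set s : ℝ := 1 + σ with hs
  have hs1 : 1 < s := by linarith
  have hs2 : s ≤ 2 := by linarith
  have h3 : (∑' x : ι → Finset S.P, (if S.Dj x ∧ Off S M x then
      ((sg (∑ u, ∑ p ∈ x u, xc (c u) p) : ℤ) : ℝ) *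
        ∏ u, ∏ p ∈ x u, (τ p * (S.N p : ℝ) ^ (-s)) else 0)) =
      ∑' x : ι → Finset S.P, (if Pool.Agent.D8.DjP x then
        ∏ u, ∏ p ∈ x u, eciW S τ c M s u p else 0) := by
    refine tsum_congr fun x => ?_
    by_cases hx : S.Dj x
    · rw [if_pos (show Pool.Agent.D8.DjP x from hx), eci_prod]
      by_cases ho : Off S M x
      · rw [if_pos ⟨hx, ho⟩, if_pos ho]
      · rw [if_neg (fun h => ho h.2), if_neg ho]
    · rw [if_neg (fun h => hx h.1), if_neg (show ¬ Pool.Agent.D8.DjP x from hx)]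
  rw [h3]
  obtain ⟨_, h40, h4⟩ := h2 S.P ι (eciW S τ c M s) (fun p => τ p * (S.N p : ℝ) ^ (-s))
    (fun u p => eci_norm S hτ c M s u p) (eci_tauN S hτ hs1)
  rw [h40]
  refine h4.trans ?_
  -- the sum of squares
  have h5 : ∑' p : S.P, (τ p * (S.N p : ℝ) ^ (-s)) ^ 2 ≤ (1 + |B|) ^ 2 * Z2 := by
    have h6 : ∀ p : S.P, (τ p * (S.N p : ℝ) ^ (-s)) ^ 2 ≤
        (1 + |B|) ^ 2 * (S.N p : ℝ) ^ (-2 : ℝ) := fun p => by
      obtain ⟨h7, h8⟩ := eci_tau S hτ p
      have h9 : 0 ≤ (S.N p : ℝ) ^ (-s) := Real.rpow_nonneg (Nat.cast_nonneg _) _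
      have h10 : ((S.N p : ℝ) ^ (-s)) ^ 2 ≤ (S.N p : ℝ) ^ (-2 : ℝ) := by
        rw [← Real.rpow_natCast, ← Real.rpow_mul (Nat.cast_nonneg _)]
        refine Real.rpow_le_rpow_of_exponent_le (eci_N1 S p) ?_
        push_cast
        linarith
      rw [mul_pow]
      exact mul_le_mul (pow_le_pow_left₀ h7 h8 2) h10 (sq_nonneg _) (sq_nonneg _)
    have h7 : Summable fun p : S.P => (1 + |B|) ^ 2 * (S.N p : ℝ) ^ (-2 : ℝ) :=
      (summable_N S 2 (by norm_num)).mul_left _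
    have h8 : Summable fun p : S.P => (τ p * (S.N p : ℝ) ^ (-s)) ^ 2 :=
      Summable.of_nonneg_of_le (fun p => sq_nonneg _) h6 h7
    have h9 := h8.tsum_le_tsum h6 h7
    rwa [tsum_mul_left] at h9
  -- the linear sum
  have hn1 : (1 : ℝ) ≤ (S.nm M : ℝ) := by
    have : 1 ≤ S.nm M := Finset.one_le_prod' fun p _ => S.one_le_N p
    exact_mod_cast this
  have hlog : 0 ≤ Real.log (S.nm M) := Real.log_nonneg hn1
  have h6 : ∀ u, Summable fun p : S.P => eciW S τ c M s u p :=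
    fun u => (eci_one S hτ c u M (hOk u) hs1).1
  have h7 : ∑' p : S.P, ∑ u, eciW S τ c M s u p = ∑ u, ∑' p : S.P, eciW S τ c M s u p :=
    Summable.tsum_finsetSum (fun u _ => h6 u)
  have h8 : ∀ u, ∑' p : S.P, eciW S τ c M s u p ≤
      (if c u = (0, ∅) then Real.log (1 / σ) else 0) + Real.log (1 + Real.log (S.nm M)) +
        (Q + ∑ p ∈ M, 1 / (S.N p : ℝ)) := fun u => by
    have h9 := (eci_one S hτ c u M (hOk u) hs1).2
    have h11 : 0 ≤ Real.log (1 + Real.log (S.nm M)) := Real.log_nonneg (by linarith)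
    have h12 : 0 ≤ |K0| := abs_nonneg K0
    by_cases hc : c u = (0, ∅)
    · rw [if_pos hc]
      have h13 : ∑' p : S.P, (if p ∈ (c u).2 then 0 else
          ((sg (S.ex (c u).2 (c u).1 p) : ℤ) : ℝ)) * (S.N p : ℝ) ^ (-s) =
          ∑' p : S.P, (S.N p : ℝ) ^ (-s) := by
        refine tsum_congr fun p => ?_
        have h14 : p ∉ (c u).2 := by
          rw [hc]
          simp
        have h15 : S.ex (c u).2 (c u).1 p = 0 := by
          rw [hc]
          unfold Sys.ex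
          simp
        rw [if_neg h14, h15, sg_zero, Int.cast_one, one_mul]
      rw [h13] at h9
      have h14 := (abs_le.1 (hK0 s hs1 hs2)).2
      have h15 : s - 1 = σ := by rw [hs]; ring
      rw [h15] at h14
      have h16 : K0 ≤ |K0| := le_abs_self K0
      linarith
    · rw [if_neg hc]
      have hne : (c u).2.Nonempty ∨ (c u).1 ≠ 0 := by
        by_contra hno
        rw [not_or, Finset.not_nonempty_iff_eq_empty, not_not] at hno
        exact hc (Prod.ext hno.2 hno.1)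
      have h13 := hup (c u).2 (c u).1 hne s hs1 hs2
      have h14 : Real.log (1 + Real.log (S.nm (c u).2)) ≤
          Real.log (1 + Real.log (S.nm M)) := by
        have h15 : (1 : ℝ) ≤ (S.nm (c u).2 : ℝ) := by
          have : 1 ≤ S.nm (c u).2 := Finset.one_le_prod' fun p _ => S.one_le_N p
          exact_mod_cast this
        have h16 : (S.nm (c u).2 : ℝ) ≤ (S.nm M : ℝ) := by
          have : S.nm (c u).2 ≤ S.nm M :=
            Finset.prod_le_prod_of_subset_of_one_le' (hOk u) fun p _ _ => S.one_le_N p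
          exact_mod_cast this
        have h17 := Real.log_nonneg h15
        refine Real.log_le_log (by linarith) ?_
        have h18 := Real.log_le_log (by linarith) h16
        linarith
      have h15 : ∑' p : S.P, (if p ∈ (c u).2 then 0 else
          ((sg (S.ex (c u).2 (c u).1 p) : ℤ) : ℝ)) * (S.N p : ℝ) ^ (-s) ≤
          Real.log (1 + Real.log (S.nm (c u).2)) + C1 := by
        refine le_trans (le_of_eq (tsum_congr fun p => ?_)) h13
        by_cases hp : p ∈ (c u).2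
        · rw [if_pos hp]
        · rw [if_neg hp]
      linarith
  have h9 : ∑ u, ∑' p : S.P, eciW S τ c M s u p ≤
      ((Finset.univ.filter fun u => c u = (0, ∅)).card : ℝ) * Real.log (1 / σ) +
        Fintype.card ι * Real.log (1 + Real.log (S.nm M)) +
        Fintype.card ι * (Q + ∑ p ∈ M, 1 / (S.N p : ℝ)) := by
    refine (Finset.sum_le_sum fun u _ => h8 u).trans (le_of_eq ?_)
    rw [Finset.sum_add_distrib, Finset.sum_add_distrib, Finset.sum_const, Finset.sum_const,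
      Finset.card_univ, nsmul_eq_mul, nsmul_eq_mul, ← Finset.sum_filter, Finset.sum_const,
      nsmul_eq_mul]
  rw [h7]
  have h10 : ∑ p ∈ M, 1 / (S.N p : ℝ) ≤ ∑ p ∈ M, 2 / (S.N p : ℝ) := by
    refine Finset.sum_le_sum fun p _ => ?_
    exact div_le_div_of_nonneg_right (by norm_num) (Nat.cast_nonneg _)
  have hι : (0 : ℝ) ≤ Fintype.card ι := Nat.cast_nonneg _
  have h11 : (∑ u, ∑' p : S.P, eciW S τ c M s u p) +
      D * ∑' p : S.P, (τ p * (S.N p : ℝ) ^ (-s)) ^ 2 ≤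
      (Fintype.card ι * Q + D * ((1 + |B|) ^ 2 * Z2)) +
        Real.log (1 + Real.log (S.nm M)) * Fintype.card ι +
        (∑ p ∈ M, 2 / (S.N p : ℝ)) * Fintype.card ι +
        Real.log σ * (-((Finset.univ.filter fun u => c u = (0, ∅)).card : ℝ)) := by
    have h12 := mul_le_mul_of_nonneg_left h5 hD0
    have h13 := mul_le_mul_of_nonneg_left h10 hι
    have h14 : Real.log (1 / σ) = - Real.log σ := by rw [one_div, Real.log_inv]
    rw [h14] at h9
    linarith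
  refine (Real.exp_le_exp.2 h11).trans (le_of_eq ?_)
  rw [Real.exp_add, Real.exp_add, Real.exp_add, Real.exp_mul, Real.exp_mul, Real.exp_mul,
    Real.exp_log hσ, Real.exp_log (by linarith)]
  rfl

end Pool.Agent.EV
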