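import Pool.Agent.EV.CStm

/-!
# Project T4 (MP_a3214d), even order, row C17: the result for a fixed frame
-/

set_option autoImplicit false

open scoped BigOperators Topology
open Filter

namespace Pool.Agent.EV

/-- Row C17: the reduction to Euler products and their limit give the limit. -/
theorem smain (h1 : SMainA) (h2 : SMainL) : SMain := by
  intro S d n Bd R c Φ θ B τ hτ hc hG hΦ hθ hp
  obtain ⟨L, hL0, hL, hpos⟩ := h2 S d n Bd R c θ B τ hτ hc hθ hp
  refine ⟨L, hL0, ?_, hpos⟩
  have h3 := (h1 S d n Bd R c Φ θ B τ hτ hc hG hΦ).add hL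
  rw [zero_add] at h3
  refine h3.congr fun σ => ?_
  ring

end Pool.Agent.EV
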