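import Pool.Agent.EV.CStm
import Pool.Agent.EV.CExpd
import Pool.Agent.D8.BMrg
import Pool.Agent.H98.MF.SBase

/-!
# Project T4 (MP_a3214d), even order, row C14: reduction of the main term to Euler products
-/

set_option autoImplicit false

open scoped BigOperators Topology
open Filter

namespace Pool.Agent.EV

open Pool.Agent.H98.MK (sg)
open Pool.Agent.H98.MF
open Pool.Agent.H32.MQ (El)
open Pool.Agent.D8 (pat Tk ls ad)

open Classical in
/-- the expansion in types, pattern by pattern -/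
def SExpP : Prop := ∀ (S : Sys) (d n : ℕ) (Bd : BD d n) (R : Finset (VV d))
  (c : VV d → VV n → El S) (M : Finset S.P) (θ : (R → S.T) → ℝ)
  (B : ℝ) (τ : S.P → ℝ), Tk S B τ → Adc c →
  ∃ th : Finset (R × VV n) → (R × VV n → S.T) → ℝ, (∀ U η, |th U η| ≤ ∑ t : R → S.T, |θ t|) ∧
    (∀ U η, th U η ≠ 0 → ∀ u ∈ iso (bz Bd R) U, ∀ u' ∈ iso (bz Bd R) U, u.1 = u'.1 →
      η u = η u') ∧
    ∀ σ : ℝ, 0 < σ → ∀ U : Finset (R × VV n),
      ∑' x : R × VV n → Finset S.P, (if pat x = U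
        then θ (fun v => ∑ ζ : VV n, S.tys (x (v, ζ))) *
          Kt τ (1 + σ) (bz Bd R) (cz R c) M x else 0) =
      ∑ η : R × VV n → S.T, th U η *
        PS τ (1 + σ) (b1 Bd R) (fun u => ad (cz R c u) (η u, ∅)) M U

/-! ### small functions -/

/-- powers of the logarithm are small -/
private theorem cma_log (E : ℝ) (hE : 0 ≤ E) (σ : ℝ) (h0 : 0 < σ) (h1 : σ ≤ 1) :
    (1 + Real.log (1 / σ)) ^ E ≤ (2 * E + 3) ^ E * σ ^ (-(1 / 2) : ℝ) := by
  have hx : 1 ≤ 1 / σ := by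
    rw [le_div_iff₀ h0]
    linarith
  have hE1 : 0 < E + 1 := by linarith
  have hδ : 0 < 1 / (2 * (E + 1)) := by positivity
  have hx0 : 0 ≤ 1 / σ := le_trans zero_le_one hx
  have h2 := Real.log_le_rpow_div hx0 hδ
  have h3 : (1 : ℝ) ≤ (1 / σ) ^ (1 / (2 * (E + 1))) := Real.one_le_rpow hx hδ.le
  have h4 : 1 + Real.log (1 / σ) ≤ (2 * E + 3) * (1 / σ) ^ (1 / (2 * (E + 1))) := by
    have h5 : (1 / σ) ^ (1 / (2 * (E + 1))) / (1 / (2 * (E + 1))) =
        (2 * (E + 1)) * (1 / σ) ^ (1 / (2 * (E + 1))) := by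
      rw [div_div_eq_mul_div, div_one, mul_comm]
    rw [h5] at h2
    linarith
  have h5 : 0 ≤ 1 + Real.log (1 / σ) := by
    have := Real.log_nonneg hx
    linarith
  have h6 : (0 : ℝ) ≤ (1 / σ) ^ (1 / (2 * (E + 1))) := le_trans zero_le_one h3
  calc (1 + Real.log (1 / σ)) ^ E ≤ ((2 * E + 3) * (1 / σ) ^ (1 / (2 * (E + 1)))) ^ E :=
        Real.rpow_le_rpow h5 h4 hE
    _ = (2 * E + 3) ^ E * ((1 / σ) ^ (1 / (2 * (E + 1)))) ^ E := Real.mul_rpow (by linarith) h6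
    _ ≤ (2 * E + 3) ^ E * σ ^ (-(1 / 2) : ℝ) := by
        refine mul_le_mul_of_nonneg_left ?_ (Real.rpow_nonneg (by linarith) _)
        rw [← Real.rpow_mul hx0]
        have h7 : 1 / (2 * (E + 1)) * E ≤ 1 / 2 := by
          rw [div_mul_eq_mul_div, one_mul, div_le_div_iff₀ (by positivity) (by norm_num)]
          linarith
        calc (1 / σ) ^ (1 / (2 * (E + 1)) * E) ≤ (1 / σ) ^ (1 / 2 : ℝ) :=
              Real.rpow_le_rpow_of_exponent_le hx h7
          _ = σ ^ (-(1 / 2) : ℝ) := by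
              rw [one_div, Real.inv_rpow h0.le, Real.rpow_neg h0.le]

private theorem cma_lim {f : ℝ → ℝ} (K : ℝ)
    (h : ∀ σ : ℝ, 0 < σ → σ ≤ 1 → |f σ| ≤ K * σ ^ (1 / 2 : ℝ)) :
    Tendsto f (𝓝[>] 0) (𝓝 0) := by
  have h1 : Tendsto (fun σ : ℝ => K * σ ^ (1 / 2 : ℝ)) (𝓝[>] 0) (𝓝 0) := by
    have h2 : Tendsto (fun σ : ℝ => K * σ ^ (1 / 2 : ℝ)) (𝓝 0) (𝓝 (K * (0 : ℝ) ^ (1 / 2 : ℝ))) :=
      (continuous_const.mul (Real.continuous_rpow_const (by norm_num))).tendsto 0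
    rw [Real.zero_rpow (by norm_num), mul_zero] at h2
    exact tendsto_nhdsWithin_of_tendsto_nhds h2
  refine squeeze_zero_norm' ?_ h1
  filter_upwards [Ioo_mem_nhdsGT (show (0 : ℝ) < 1 by norm_num)] with σ hσ
  rw [Real.norm_eq_abs]
  exact h σ hσ.1 hσ.2.le

/-! ### the coefficients -/

private theorem cma_pos {ι : Type} [Fintype ι] {u v : ι} (h : pos u = pos v) : u = v := by
  unfold pos at h
  exact (Fintype.equivFin ι).injective (Fin.ext h)

section

variable {d n : ℕ} (Bd : BD d n) (R : Finset (VV d))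

private theorem cma_bz (u : R × VV n) : bz Bd R u u = 0 := by
  unfold bz
  rw [Bd.alt, dotProduct_zero]

private theorem cma_b1 (u : R × VV n) : b1 Bd R u u = 0 := by
  unfold b1
  rw [if_neg (lt_irrefl _)]

private theorem cma_one (u v : R × VV n) : b1 Bd R u v = 0 ∨ b1 Bd R v u = 0 := by
  unfold b1
  rcases lt_or_ge (pos u) (pos v) with h | h
  · right
    rw [if_neg (by omega)]
  · left
    rw [if_neg (by omega)]

private theorem cma_lk (u v : R × VV n) : Lk (b1 Bd R) u v ↔ Lk (bz Bd R) u v := by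
  unfold Lk
  have h : b1 Bd R u v + b1 Bd R v u = bz Bd R u v + bz Bd R v u := by
    by_cases huv : u = v
    · subst huv
      rw [cma_b1, cma_bz]
    · unfold b1
      rcases lt_trichotomy (pos u) (pos v) with h | h | h
      · rw [if_pos h, if_neg (by omega), add_zero]
      · exact absurd (cma_pos h) huv
      · rw [if_neg (by omega), if_pos h, zero_add, add_comm]
  rw [h]

private theorem cma_iso (U : Finset (R × VV n)) : iso (b1 Bd R) U = iso (bz Bd R) U := by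
  unfold iso
  ext u
  simp only [Finset.mem_filter, cma_lk]

private theorem cma_wt {S : Sys} (c : R × VV n → El S) (U : Finset (R × VV n)) :
    wt (b1 Bd R) c U = wt (bz Bd R) c U := by
  unfold wt
  rw [cma_iso]

end

/-! ### the terms of the patterns -/

open Classical in
/-- the term of a pattern -/
private noncomputable def cmaA (S : Sys) {d n : ℕ} (Bd : BD d n) (R : Finset (VV d))
    (c : VV d → VV n → El S) (M : Finset S.P) (θ : (R → S.T) → ℝ) (τ : S.P → ℝ) (s : ℝ)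
    (U : Finset (R × VV n)) : ℝ :=
  ∑' x : R × VV n → Finset S.P, (if pat x = U
    then θ (fun v => ∑ ζ : VV n, S.tys (x (v, ζ))) * Kt τ s (bz Bd R) (cz R c) M x else 0)

/-- patterns of small weight -/
private theorem cma_small (h1 : SPat) (hP : SExpP) (S : Sys) {d n : ℕ} (Bd : BD d n)
    (R : Finset (VV d)) (c : VV d → VV n → El S) (M : Finset S.P) (θ : (R → S.T) → ℝ)
    (B : ℝ) (τ : S.P → ℝ) (hτ : Tk S B τ) (hc : Adc c) (hM : ∀ v ζ, (c v ζ).2 ⊆ M)
    (U : Finset (R × VV n)) (b : ℕ)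
    (hU : ∀ η : R × VV n → S.T, (∀ u ∈ iso (bz Bd R) U, ∀ u' ∈ iso (bz Bd R) U, u.1 = u'.1 →
      η u = η u') → wt (bz Bd R) (fun u => ad (cz R c u) (η u, ∅)) U < b) :
    Tendsto (fun σ : ℝ => σ ^ b * cmaA S Bd R c M θ τ (1 + σ) U) (𝓝[>] 0) (𝓝 0) := by
  classical
  obtain ⟨th, t1, t2, t3⟩ := hP S d n Bd R c M θ B τ hτ hc
  obtain ⟨E, hE, hp⟩ := h1 S (R × VV n) (b1 Bd R) B (cma_b1 Bd R) (cma_one Bd R)
  obtain ⟨C, hC, hp⟩ := hp 1 one_pos
  have hL : (0 : ℝ) ≤ (2 * E + 3) ^ E := Real.rpow_nonneg (by linarith) _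
  have hN : (0 : ℝ) ≤ (S.nm M : ℝ) ^ (1 : ℝ) := Real.rpow_nonneg (Nat.cast_nonneg _) _
  have hT : 0 ≤ ∑ t : R → S.T, |θ t| := Finset.sum_nonneg fun _ _ => abs_nonneg _
  set K : ℝ := C * (S.nm M : ℝ) ^ (1 : ℝ) * (1 + (2 * E + 3) ^ E) with hK
  have hK0 : 0 ≤ K := mul_nonneg (mul_nonneg hC hN) (by linarith)
  refine cma_lim (∑ _η : R × VV n → S.T, (∑ t : R → S.T, |θ t|) * K) fun σ h0 hσ => ?_
  have hs0 : 0 ≤ σ ^ (1 / 2 : ℝ) := Real.rpow_nonneg h0.le _
  have hbp : 0 ≤ σ ^ b := pow_nonneg h0.le b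
  have key : ∀ η : R × VV n → S.T, th U η ≠ 0 →
      σ ^ b * |PS τ (1 + σ) (b1 Bd R) (fun u => ad (cz R c u) (η u, ∅)) M U| ≤
        K * σ ^ (1 / 2 : ℝ) := by
    intro η hη
    have hw := hU η (t2 U η hη)
    set w : ℕ := wt (bz Bd R) (fun u => ad (cz R c u) (η u, (∅ : Finset S.P))) U with hwdef
    have hOk : ∀ u, (ad (cz R c u) (η u, (∅ : Finset S.P))).2 ⊆ M := by
      intro u
      have e1 : (ad (cz R c u) (η u, (∅ : Finset S.P))).2 = (c u.1 u.2).2 := by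
        simp [ad, cz]
      rw [e1]
      exact hM _ _
    have g1 := hp τ _ M hτ hOk U σ h0 hσ
    rw [cma_wt, ← hwdef] at g1
    have g3 : (1 : ℝ) ≤ σ ^ (-(1 / 2) : ℝ) := by
      rw [Real.rpow_neg h0.le]
      exact (one_le_inv₀ (Real.rpow_pos_of_pos h0 _)).2
        (Real.rpow_le_one h0.le hσ (by norm_num))
    have g4 := cma_log E hE σ h0 hσ
    have g5 : 0 ≤ C * (S.nm M : ℝ) ^ (1 : ℝ) := mul_nonneg hC hN
    have g6 : 0 ≤ σ ^ (-(w : ℝ)) := Real.rpow_nonneg h0.le _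
    have g7 : |PS τ (1 + σ) (b1 Bd R) (fun u => ad (cz R c u) (η u, ∅)) M U| ≤
        C * (S.nm M : ℝ) ^ (1 : ℝ) * ((1 + (2 * E + 3) ^ E) * σ ^ (-(1 / 2) : ℝ)) *
          σ ^ (-(w : ℝ)) := by
      refine g1.trans (mul_le_mul_of_nonneg_right (mul_le_mul_of_nonneg_left ?_ g5) g6)
      by_cases hi : iso (b1 Bd R) U = U
      · rw [if_pos hi]
        nlinarith
      · rw [if_neg hi]
        nlinarith
    have g8 : σ ^ b * (σ ^ (-(1 / 2) : ℝ) * σ ^ (-(w : ℝ))) ≤ σ ^ (1 / 2 : ℝ) := by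
      rw [← Real.rpow_natCast, ← Real.rpow_add h0, ← Real.rpow_add h0]
      apply Real.rpow_le_rpow_of_exponent_ge h0 hσ
      have : (w : ℝ) + 1 ≤ (b : ℝ) := by exact_mod_cast hw
      linarith
    calc σ ^ b * |PS τ (1 + σ) (b1 Bd R) (fun u => ad (cz R c u) (η u, ∅)) M U|
        ≤ σ ^ b * (C * (S.nm M : ℝ) ^ (1 : ℝ) * ((1 + (2 * E + 3) ^ E) *
          σ ^ (-(1 / 2) : ℝ)) * σ ^ (-(w : ℝ))) := mul_le_mul_of_nonneg_left g7 hbp
      _ = K * (σ ^ b * (σ ^ (-(1 / 2) : ℝ) * σ ^ (-(w : ℝ)))) := by rw [hK]; ring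
      _ ≤ K * σ ^ (1 / 2 : ℝ) := mul_le_mul_of_nonneg_left g8 hK0
  have e1 : cmaA S Bd R c M θ τ (1 + σ) U = ∑ η : R × VV n → S.T, th U η *
      PS τ (1 + σ) (b1 Bd R) (fun u => ad (cz R c u) (η u, ∅)) M U := t3 σ h0 U
  rw [e1, abs_mul, abs_of_nonneg hbp]
  calc σ ^ b * |∑ η : R × VV n → S.T, th U η *
        PS τ (1 + σ) (b1 Bd R) (fun u => ad (cz R c u) (η u, ∅)) M U|
      ≤ σ ^ b * ∑ η : R × VV n → S.T, |th U η *
        PS τ (1 + σ) (b1 Bd R) (fun u => ad (cz R c u) (η u, ∅)) M U| :=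
        mul_le_mul_of_nonneg_left (Finset.abs_sum_le_sum_abs _ _) hbp
    _ = ∑ η : R × VV n → S.T, σ ^ b * |th U η *
        PS τ (1 + σ) (b1 Bd R) (fun u => ad (cz R c u) (η u, ∅)) M U| := by
        rw [Finset.mul_sum]
    _ ≤ ∑ _η : R × VV n → S.T, (∑ t : R → S.T, |θ t|) * K * σ ^ (1 / 2 : ℝ) := by
        refine Finset.sum_le_sum fun η _ => ?_
        rw [abs_mul]
        by_cases hη : th U η = 0
        · rw [hη, abs_zero, zero_mul, mul_zero]
          exact mul_nonneg (mul_nonneg hT hK0) hs0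
        · calc σ ^ b * (|th U η| *
                |PS τ (1 + σ) (b1 Bd R) (fun u => ad (cz R c u) (η u, ∅)) M U|)
              = |th U η| * (σ ^ b *
                |PS τ (1 + σ) (b1 Bd R) (fun u => ad (cz R c u) (η u, ∅)) M U|) := by ring
            _ ≤ (∑ t : R → S.T, |θ t|) * (K * σ ^ (1 / 2 : ℝ)) :=
                mul_le_mul (t1 U η) (key η hη) (mul_nonneg hbp (abs_nonneg _)) hT
            _ = _ := by ring
    _ = (∑ _η : R × VV n → S.T, (∑ t : R → S.T, |θ t|) * K) * σ ^ (1 / 2 : ℝ) :=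
        (Finset.sum_mul _ _ _).symm

/-! ### sets of unlinked types -/

open Classical in
/-- the types of a form -/
private noncomputable def cmaT {d n : ℕ} (Bd : BD d n) (R : Finset (VV d))
    (ψ : R → R → ZMod 2) : Finset (R × VV n) :=
  Finset.univ.filter fun u => ∀ w : R, u.2 ⬝ᵥ Bd.B w u.1 = ψ w u.1

private theorem cmaT_mem {d n : ℕ} {Bd : BD d n} {R : Finset (VV d)} {ψ : R → R → ZMod 2}
    {u : R × VV n} : u ∈ cmaT Bd R ψ ↔ ∀ w : R, u.2 ⬝ᵥ Bd.B w u.1 = ψ w u.1 := by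
  unfold cmaT
  simp

private theorem cma_ad_self {S : Sys} (c : S.T) :
    ad ((c, ∅) : El S) (c, (∅ : Finset S.P)) = (0, ∅) := by
  unfold ad
  have h1 : c + c = 0 := by
    funext i
    exact CharTwo.add_self_eq_zero _
  simp [h1]

private theorem cma_wt_lt (h2 : SComb) (h3 : SFull) (S : Sys) {d n : ℕ} (Bd : BD d n)
    (R : Finset (VV d)) (c : VV d → VV n → S.T)
    (hc : ∀ v ζ ζ', c v (ζ + ζ') = c v ζ + c v ζ') (ψ : R → R → ZMod 2) (hψ : Fam Bd R ψ)
    (U : Finset (R × VV n)) (hU : U ⊆ cmaT Bd R ψ) (v1 : R) (hv1 : ∀ u ∈ U, u.1 ≠ v1)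
    (η : R × VV n → S.T) (hη : ∀ u ∈ U, ∀ u' ∈ U, u.1 = u'.1 → η u = η u') :
    wt (bz Bd R) (fun u => ad (cz R (cT c) u) (η u, (∅ : Finset S.P))) U <
      bV Bd R (cT (S := S) c) := by
  classical
  choose ζ hζ using hψ.rep
  have hadc : Adc (cT (S := S) c) := by
    intro v ζ ζ'
    unfold cT ad
    rw [hc]
    simp
  have hgen : Gen Bd R (cT (S := S) c) (fun V => V = Finset.univ) := by
    intro V hV v _ z _ h w
    exact h w (by rw [hV]; exact Finset.mem_univ w)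
  have hTi : iso (bz Bd R) (cmaT Bd R ψ) = cmaT Bd R ψ :=
    (h3 d n Bd R (cmaT Bd R ψ)).2.1 ψ hψ fun u hu => cmaT_mem.1 hu
  have hUi : iso (bz Bd R) U = U :=
    (h3 d n Bd R U).2.1 ψ hψ fun u hu => cmaT_mem.1 (hU hu)
  have hTim : (cmaT Bd R ψ).image Prod.fst = Finset.univ := by
    refine Finset.eq_univ_of_forall fun v => ?_
    exact Finset.mem_image.2 ⟨(v, ζ v), cmaT_mem.2 fun w => (hζ v w).symm, rfl⟩
  set η' : R × VV n → S.T := fun u =>
    if h : ∃ u0 ∈ U, u0.1 = u.1 then η h.choose else c u.1 (ζ u.1) with hη'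
  have hη'1 : ∀ u ∈ U, η' u = η u := by
    intro u hu
    have h : ∃ u0 ∈ U, u0.1 = u.1 := ⟨u, hu, rfl⟩
    rw [hη']
    simp only
    rw [dif_pos h]
    exact hη _ h.choose_spec.1 u hu h.choose_spec.2
  have hη'2 : ∀ u ∈ iso (bz Bd R) (cmaT Bd R ψ), ∀ u' ∈ iso (bz Bd R) (cmaT Bd R ψ),
      u.1 = u'.1 → ((η' u, ∅) : El S) = (η' u', ∅) := by
    rintro ⟨a, z⟩ _ ⟨a', z'⟩ _ h
    have h' : a = a' := h
    subst h'
    rw [hη']
  have hle := (h2 S d n Bd R (cT (S := S) c) (fun V => V = Finset.univ) hadc hgen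
    (fun u => (η' u, (∅ : Finset S.P))) (cmaT Bd R ψ) hη'2 hTim).1
  refine lt_of_lt_of_le ?_ hle
  unfold wt
  rw [hUi, hTi]
  refine Finset.card_lt_card ((Finset.ssubset_iff_of_subset ?_).2 ⟨(v1, ζ v1), ?_, ?_⟩)
  · intro u hu
    rw [Finset.mem_filter] at hu ⊢
    refine ⟨hU hu.1, ?_⟩
    show ad (cz R (cT c) u) (η' u, (∅ : Finset S.P)) = (0, ∅)
    rw [hη'1 u hu.1]
    exact hu.2
  · rw [Finset.mem_filter]
    refine ⟨cmaT_mem.2 fun w => (hζ v1 w).symm, ?_⟩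
    have h : ¬ ∃ u0 ∈ U, u0.1 = ((v1, ζ v1) : R × VV n).1 := by
      rintro ⟨u0, h1, h2⟩
      exact hv1 u0 h1 h2
    have e1 : η' (v1, ζ v1) = c v1 (ζ v1) := by
      rw [hη']
      simp only
      rw [dif_neg h]
    show ad (cz R (cT c) (v1, ζ v1)) (η' (v1, ζ v1), (∅ : Finset S.P)) = (0, ∅)
    rw [e1]
    exact cma_ad_self _
  · intro h
    exact hv1 _ (Finset.mem_filter.1 h).1 rfl

/-! ### the expansion of the Euler products -/

private theorem cma_tys (S : Sys) {n : ℕ} {d : ℕ} {R : Finset (VV d)}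
    {y : R × VV n → Finset S.P} (hy : S.Dj y) (v : R) :
    S.tys (Pool.Agent.D8.mrg Prod.fst y v) = ∑ ζ : VV n, S.tys (y (v, ζ)) := by
  classical
  have e : Pool.Agent.D8.mrg Prod.fst y v =
      (Finset.univ : Finset (VV n)).biUnion fun ζ => y (v, ζ) := by
    ext p
    rw [Pool.Agent.D8.mrg_mem, Finset.mem_biUnion]
    constructor
    · rintro ⟨⟨a, ζ⟩, h1, h2⟩
      have h1' : a = v := h1
      subst h1'
      exact ⟨ζ, Finset.mem_univ _, h2⟩
    · rintro ⟨ζ, _, h2⟩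
      exact ⟨(v, ζ), rfl, h2⟩
  rw [e, S.tys_biUnion]
  intro i _ j _ hij
  refine hy _ _ fun h => hij ?_
  exact (Prod.ext_iff.1 h).2

open Classical in
/-- the weights of the types -/
private noncomputable def cmaw (S : Sys) {d n : ℕ} (Bd : BD d n) (R : Finset (VV d))
    (c : VV d → VV n → S.T) (ψ : R → R → ZMod 2) (τ : S.P → ℝ) (s : ℝ) (t : R × VV n)
    (p : S.P) : ℝ :=
  (if t ∈ cmaT Bd R ψ then ((sg (c t.1 t.2 ⬝ᵥ S.ty p) : ℤ) : ℝ) else 0) *
    (τ p * (S.N p : ℝ) ^ (-s))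

open Classical in
private theorem cmaw_sum (S : Sys) {d n : ℕ} (Bd : BD d n) (R : Finset (VV d))
    (c : VV d → VV n → S.T) (ψ : R → R → ZMod 2) (τ : S.P → ℝ) (s : ℝ) (k : R) (p : S.P) :
    ∑ t ∈ Finset.univ.filter (fun t : R × VV n => Prod.fst t = k), cmaw S Bd R c ψ τ s t p =
      gψ Bd R c ψ k (S.ty p) * (τ p * (S.N p : ℝ) ^ (-s)) := by
  have h1 : ∑ t ∈ Finset.univ.filter (fun t : R × VV n => Prod.fst t = k),
      cmaw S Bd R c ψ τ s t p = ∑ ζ : VV n, cmaw S Bd R c ψ τ s (k, ζ) p := by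
    rw [Finset.sum_filter, Fintype.sum_prod_type]
    rw [Finset.sum_eq_single k]
    · exact Finset.sum_congr rfl fun ζ _ => if_pos rfl
    · intro b _ hb
      exact Finset.sum_eq_zero fun ζ _ => if_neg hb
    · intro h
      exact absurd (Finset.mem_univ k) h
  rw [h1]
  unfold cmaw gψ
  rw [← Finset.sum_mul, Finset.sum_filter]
  congr 1
  refine Finset.sum_congr rfl fun ζ _ => ?_
  by_cases h : (k, ζ) ∈ cmaT Bd R ψ
  · rw [if_pos h, if_pos (cmaT_mem.1 h)]
  · rw [if_neg h, if_neg fun h' => h (cmaT_mem.2 h')]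

open Classical in
private theorem cma_term (h6 : SPh) (S : Sys) {d n : ℕ} (Bd : BD d n) (R : Finset (VV d))
    (c : VV d → VV n → S.T) (θ : (R → S.T) → ℝ) (ψ : R → R → ZMod 2) (hψ : Fam Bd R ψ)
    (τ : S.P → ℝ) (s : ℝ) (y : R × VV n → Finset S.P) :
    (if Pool.Agent.D8.DjP y then
      (θ (fun v => S.tys (Pool.Agent.D8.mrg Prod.fst y v)) *
        ((sg (ph R ψ (fun v => S.tys (Pool.Agent.D8.mrg Prod.fst y v))) : ℤ) : ℝ)) *
        ∏ t, ∏ p ∈ y t, cmaw S Bd R c ψ τ s t p else 0) =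
    if pat y ⊆ cmaT Bd R ψ then
      θ (fun v => ∑ ζ : VV n, S.tys (y (v, ζ))) * Kt τ s (bz Bd R) (cz R (cT c)) ∅ y
    else 0 := by
  have hmem : ∀ t, t ∈ pat y ↔ (y t).Nonempty := by
    intro t
    unfold Pool.Agent.D8.pat
    simp
  by_cases hd : S.Dj y
  · have hd' : Pool.Agent.D8.DjP y := hd
    rw [if_pos hd']
    have e1 : (fun v => S.tys (Pool.Agent.D8.mrg Prod.fst y v)) =
        fun v => ∑ ζ : VV n, S.tys (y (v, ζ)) := funext fun v => cma_tys S hd v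
    rw [e1]
    by_cases hp : pat y ⊆ cmaT Bd R ψ
    · rw [if_pos hp]
      have hoff : S.Dj y ∧ Off S ∅ y := ⟨hd, fun u => Finset.disjoint_empty_right _⟩
      unfold Kt
      rw [if_pos hoff]
      have e2 : ∏ t, ∏ p ∈ y t, cmaw S Bd R c ψ τ s t p =
          (∏ t, ∏ p ∈ y t, ((sg (c t.1 t.2 ⬝ᵥ S.ty p) : ℤ) : ℝ)) *
            ∏ t, ∏ p ∈ y t, (τ p * (S.N p : ℝ) ^ (-s)) := by
        rw [← Finset.prod_mul_distrib]
        refine Finset.prod_congr rfl fun t _ => ?_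
        rw [← Finset.prod_mul_distrib]
        refine Finset.prod_congr rfl fun p hpt => ?_
        unfold cmaw
        rw [if_pos (hp ((hmem t).2 ⟨p, hpt⟩))]
      have e3 : EE (bz Bd R) (cz R (cT c)) y =
          ph R ψ (fun v => ∑ ζ : VV n, S.tys (y (v, ζ))) +
            ∑ t, ∑ p ∈ y t, c t.1 t.2 ⬝ᵥ S.ty p := by
        unfold EE
        rw [h6 S d n Bd R ψ hψ y hd fun u hu w => cmaT_mem.1 (hp ((hmem u).2 hu)) w]
        congr 1
        refine Finset.sum_congr rfl fun t _ => Finset.sum_congr rfl fun p _ => ?_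
        unfold xc cz cT Sys.ex
        rw [Finset.sum_empty, zero_add]
      rw [e2, e3, sg_add, sg_sum]
      have e4 : ∏ t : R × VV n, sg (∑ p ∈ y t, c t.1 t.2 ⬝ᵥ S.ty p) =
          ∏ t : R × VV n, ∏ p ∈ y t, sg (c t.1 t.2 ⬝ᵥ S.ty p) :=
        Finset.prod_congr rfl fun t _ => sg_sum _ _
      rw [e4]
      push_cast
      ring
    · rw [if_neg hp]
      obtain ⟨t, ht, htT⟩ := Finset.not_subset.1 hp
      obtain ⟨p, hpt⟩ := (hmem t).1 ht
      have e2 : ∏ t, ∏ p ∈ y t, cmaw S Bd R c ψ τ s t p = 0 := by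
        refine Finset.prod_eq_zero (Finset.mem_univ t) (Finset.prod_eq_zero hpt ?_)
        unfold cmaw
        rw [if_neg htT, zero_mul]
      rw [e2, mul_zero]
  · have hd' : ¬ Pool.Agent.D8.DjP y := hd
    rw [if_neg hd']
    have e2 : Kt τ s (bz Bd R) (cz R (cT c)) ∅ y = 0 := by
      unfold Kt
      rw [if_neg fun h => hd h.1]
    rw [e2, mul_zero, ite_self]

open Classical in
private theorem cma_GE (h6 : SPh) (hs : SSm) (S : Sys) {d n : ℕ} (Bd : BD d n)
    (R : Finset (VV d)) (c : VV d → VV n → S.T) (θ : (R → S.T) → ℝ) (ψ : R → R → ZMod 2)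
    (hψ : Fam Bd R ψ) (B : ℝ) (τ : S.P → ℝ) (hτ : Tk S B τ) (σ : ℝ) (hσ : 0 < σ) :
    GE (fun t => θ t * ((sg (ph R ψ t) : ℤ) : ℝ)) (gψ Bd R c ψ) τ (1 + σ) =
      ∑ U ∈ (cmaT Bd R ψ).powerset, cmaA S Bd R (cT c) ∅ θ τ (1 + σ) U := by
  have hT : ∀ t, |θ t| ≤ ∑ t : R → S.T, |θ t| := fun t =>
    Finset.single_le_sum (f := fun t => |θ t|) (fun _ _ => abs_nonneg _) (Finset.mem_univ t)
  have hsm := (hs S (R × VV n) (bz Bd R) (cz R (cT c)) ∅ B τ hτ σ hσ).mul_left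
    (∑ t : R → S.T, |θ t|)
  -- summability
  have hsum : ∀ (q : (R × VV n → Finset S.P) → Prop) [DecidablePred q],
      Summable fun y : R × VV n → Finset S.P =>
      if q y then θ (fun v => ∑ ζ : VV n, S.tys (y (v, ζ))) *
        Kt τ (1 + σ) (bz Bd R) (cz R (cT c)) ∅ y else 0 := by
    intro q _
    refine Summable.of_norm_bounded hsm fun y => ?_
    split_ifs
    · rw [norm_mul, Real.norm_eq_abs, Real.norm_eq_abs]
      exact mul_le_mul_of_nonneg_right (hT _) (abs_nonneg _)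
    · rw [norm_zero]
      exact mul_nonneg (Finset.sum_nonneg fun _ _ => abs_nonneg _) (abs_nonneg _)
  have hm := Pool.Agent.D8.sMrg S.P (R × VV n) R Prod.fst
    (fun x => θ (fun v => S.tys (x v)) * ((sg (ph R ψ (fun v => S.tys (x v))) : ℤ) : ℝ))
    (fun t _ p => cmaw S Bd R c ψ τ (1 + σ) t p) (by
      refine (hsum fun y => pat y ⊆ cmaT Bd R ψ).congr fun y => ?_
      exact (cma_term h6 S Bd R c θ ψ hψ τ (1 + σ) y).symm)
  have e1 : GE (fun t => θ t * ((sg (ph R ψ t) : ℤ) : ℝ)) (gψ Bd R c ψ) τ (1 + σ) =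
      ∑' y : R × VV n → Finset S.P, if pat y ⊆ cmaT Bd R ψ then
        θ (fun v => ∑ ζ : VV n, S.tys (y (v, ζ))) *
          Kt τ (1 + σ) (bz Bd R) (cz R (cT c)) ∅ y else 0 := by
    have e2 : ∀ y : R × VV n → Finset S.P, _ = _ :=
      fun y => cma_term h6 S Bd R c θ ψ hψ τ (1 + σ) y
    rw [← tsum_congr e2]
    refine Eq.trans ?_ hm.symm
    unfold GE
    refine tsum_congr fun x => ?_
    by_cases hx : S.Dj x
    · have hx' : Pool.Agent.D8.DjP x := hx
      rw [if_pos hx, if_pos hx']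
      congr 1
      refine Finset.prod_congr rfl fun k _ => Finset.prod_congr rfl fun p _ => ?_
      refine Eq.trans (cmaw_sum S Bd R c ψ τ (1 + σ) k p).symm ?_
      congr
    · have hx' : ¬ Pool.Agent.D8.DjP x := hx
      rw [if_neg hx, if_neg hx']
  rw [e1]
  unfold cmaA
  refine Eq.trans ?_ (Summable.tsum_finsetSum fun U _ => hsum fun y => pat y = U)
  refine tsum_congr fun y => ?_
  rw [Finset.sum_ite_eq]
  by_cases h : pat y ⊆ cmaT Bd R ψ
  · rw [if_pos h, if_pos (Finset.mem_powerset.2 h)]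
  · rw [if_neg h, if_neg fun h' => h (Finset.mem_powerset.1 h')]

/-! ### the expansion pattern by pattern -/

/-- The expansion in types holds pattern by pattern. -/
theorem sexpP (hs : SSm) : SExpP := by
  classical
  intro S d n Bd R c M θ B τ hτ _
  refine ⟨fun U η => four (ceF Bd R θ U) η, fun U η => ?_, fun U η hne u hu u' hu' he => ?_,
    fun σ hσ U => ?_⟩
  · exact ce_four_le _ _ (ceF_le Bd R θ U) η
  · by_contra hc2
    apply hne
    obtain ⟨i, hi⟩ : ∃ i, (η u + η u') i ≠ 0 := by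
      by_contra hc3
      push Not at hc3
      apply hc2
      funext i
      exact CharTwo.add_eq_zero.1 (hc3 i)
    exact ce_four_zero _ η _ (fun t => ceF_inv Bd R θ U u u' hu hu' he (Pi.single i 1) t)
      (ce_dot η u u' i hi)
  · have hpt : ∀ x : R × VV n → Finset S.P, (if pat x = U
        then θ (fun v => ∑ ζ : VV n, S.tys (x (v, ζ))) *
          Kt τ (1 + σ) (bz Bd R) (cz R c) M x else 0) =
        ∑ η : R × VV n → S.T, four (ceF Bd R θ U) η * (if pat x = U then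
          Kt τ (1 + σ) (b1 Bd R) (fun u => ad (cz R c u) (η u, ∅)) M x else 0) := by
      intro x
      by_cases hp : pat x = U
      · rw [if_pos hp]
        simp only [if_pos hp]
        unfold Kt
        by_cases hd : S.Dj x ∧ Off S M x
        · rw [if_pos hd]
          simp only [if_pos hd]
          have htr : ∀ u, ceTr U (fun u => S.tys (x u)) u = S.tys (x u) := by
            intro u
            unfold ceTr
            by_cases hu : u ∈ U
            · rw [if_pos hu]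
            · rw [if_neg hu]
              have h3 : x u = ∅ := by
                by_contra hc3
                exact hu (hp ▸ Finset.mem_filter.2 ⟨Finset.mem_univ _,
                  Finset.nonempty_iff_ne_empty.2 hc3⟩)
              rw [h3]
              rfl
          have hF : ceF Bd R θ U (fun u => S.tys (x u)) =
              θ (fun v => ∑ ζ : VV n, S.tys (x (v, ζ))) *
              ((sg (∑ u, ∑ v, (if pos u < pos v then bz Bd R v u else 0) *
                ((S.l ⬝ᵥ S.tys (x u)) * (S.l ⬝ᵥ S.tys (x v)))) : ℤ) : ℝ) := by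
            unfold ceF
            simp only [htr]
          have hF2 := ce_four (ceF Bd R θ U) (fun u => S.tys (x u))
          rw [hF] at hF2
          rw [ce_EE Bd R _ x hd.1, ce_sg]
          have h4 : ∀ η : R × VV n → S.T, four (ceF Bd R θ U) η *
              (((sg (EE (b1 Bd R) (fun u => ad (cz R c u) (η u, ∅)) x) : ℤ) : ℝ) *
                ∏ u, ∏ p ∈ x u, (τ p * (S.N p : ℝ) ^ (-(1 + σ)))) =
              four (ceF Bd R θ U) η * ((sg (∑ u, η u ⬝ᵥ S.tys (x u)) : ℤ) : ℝ) *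
              (((sg (EE (b1 Bd R) (cz R c) x) : ℤ) : ℝ) *
                ∏ u, ∏ p ∈ x u, (τ p * (S.N p : ℝ) ^ (-(1 + σ)))) := by
            intro η
            rw [ce_ad, ce_sg]
            ring
          rw [Finset.sum_congr rfl fun η _ => h4 η, ← Finset.sum_mul, ← hF2]
          ring
        · rw [if_neg hd]
          simp only [if_neg hd, mul_zero, Finset.sum_const_zero]
      · rw [if_neg hp]
        simp only [if_neg hp, mul_zero, Finset.sum_const_zero]
    have e0 : (∑' x : R × VV n → Finset S.P, if pat x = U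
        then θ (fun v => ∑ ζ : VV n, S.tys (x (v, ζ))) *
          Kt τ (1 + σ) (bz Bd R) (cz R c) M x else 0) = _ := tsum_congr hpt
    refine Eq.trans (Eq.trans ?_ e0) ?_
    · congr
    rw [Summable.tsum_finsetSum]
    rotate_left
    · intro η _
      refine Summable.mul_left _ ?_
      have h3 := hs S (R × VV n) (b1 Bd R) (fun u => ad (cz R c u) (η u, ∅)) M B τ hτ σ hσ
      refine Summable.of_norm_bounded h3 fun x => ?_
      rw [Real.norm_eq_abs]
      split_ifs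
      · exact le_rfl
      · rw [abs_zero]
        exact abs_nonneg _
    · refine Finset.sum_congr rfl fun η _ => ?_
      rw [tsum_mul_left]
      refine congrArg _ (tsum_congr fun x => ?_)
      by_cases hp : pat x = U
      · rw [if_pos hp, if_pos hp]
      · rw [if_neg hp, if_neg hp]

/-! ### one pattern -/

private theorem cma_adc {S : Sys} {d n : ℕ} (c : VV d → VV n → S.T)
    (hc : ∀ v ζ ζ', c v (ζ + ζ') = c v ζ + c v ζ') : Adc (cT (S := S) c) := by
  intro v ζ ζ'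
  unfold cT ad
  rw [hc]
  simp

open Classical in
private theorem cma_pat (h1 : SPat) (h2 : SComb) (h3 : SFull) (hP : SExpP) (S : Sys) {d n : ℕ}
    (Bd : BD d n) (R : Finset (VV d)) (c : VV d → VV n → S.T) (Φ : Finset R → Prop)
    (θ : (R → S.T) → ℝ) (B : ℝ) (τ : S.P → ℝ) (hτ : Tk S B τ)
    (hc : ∀ v ζ ζ', c v (ζ + ζ') = c v ζ + c v ζ') (hG : Gen Bd R (cT (S := S) c) Φ)
    (hΦ : Φ Finset.univ) (U : Finset (R × VV n)) :
    Tendsto (fun σ : ℝ => σ ^ bV Bd R (cT (S := S) c) *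
      ((if Φ (U.image Prod.fst) then cmaA S Bd R (cT c) ∅ θ τ (1 + σ) U else 0) -
        ∑ ψ ∈ Fams Bd R, if U ⊆ cmaT Bd R ψ then cmaA S Bd R (cT c) ∅ θ τ (1 + σ) U else 0))
      (𝓝[>] 0) (𝓝 0) := by
  have hadc := cma_adc c hc
  have hMs : ∀ (v : VV d) (ζ : VV n), (cT (S := S) c v ζ).2 ⊆ (∅ : Finset S.P) := by
    intro v ζ
    exact subset_rfl
  have hmul : Tendsto (fun σ : ℝ => σ ^ bV Bd R (cT (S := S) c) *
      cmaA S Bd R (cT c) ∅ θ τ (1 + σ) U) (𝓝[>] 0) (𝓝 0) →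
      Tendsto (fun σ : ℝ => σ ^ bV Bd R (cT (S := S) c) *
      ((if Φ (U.image Prod.fst) then cmaA S Bd R (cT c) ∅ θ τ (1 + σ) U else 0) -
        ∑ ψ ∈ Fams Bd R, if U ⊆ cmaT Bd R ψ then cmaA S Bd R (cT c) ∅ θ τ (1 + σ) U else 0))
      (𝓝[>] 0) (𝓝 0) := by
    intro h
    have h' := h.const_mul ((if Φ (U.image Prod.fst) then (1 : ℝ) else 0) -
      ∑ ψ ∈ Fams Bd R, if U ⊆ cmaT Bd R ψ then (1 : ℝ) else 0)
    rw [mul_zero] at h'
    refine h'.congr fun σ => ?_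
    have e1 : (∑ ψ ∈ Fams Bd R, if U ⊆ cmaT Bd R ψ then
        cmaA S Bd R (cT c) ∅ θ τ (1 + σ) U else 0) =
        (∑ ψ ∈ Fams Bd R, if U ⊆ cmaT Bd R ψ then (1 : ℝ) else 0) *
          cmaA S Bd R (cT c) ∅ θ τ (1 + σ) U := by
      rw [Finset.sum_mul]
      refine Finset.sum_congr rfl fun ψ _ => ?_
      split_ifs
      · rw [one_mul]
      · rw [zero_mul]
    have e2 : (if Φ (U.image Prod.fst) then cmaA S Bd R (cT c) ∅ θ τ (1 + σ) U else 0) =
        (if Φ (U.image Prod.fst) then (1 : ℝ) else 0) *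
          cmaA S Bd R (cT c) ∅ θ τ (1 + σ) U := by
      split_ifs
      · rw [one_mul]
      · rw [zero_mul]
    rw [e1, e2]
    ring
  have hz : ∀ f : ℝ → ℝ, (∀ σ, f σ = 0) → Tendsto f (𝓝[>] 0) (𝓝 0) := by
    intro f hf
    have : f = fun _ => 0 := funext hf
    rw [this]
    exact tendsto_const_nhds
  by_cases hψ : ∃ ψ, Fam Bd R ψ ∧ U ⊆ cmaT Bd R ψ
  · obtain ⟨ψ, hψ, hUψ⟩ := hψ
    have hiso : iso (bz Bd R) U = U :=
      (h3 d n Bd R U).2.1 ψ hψ fun u hu => cmaT_mem.1 (hUψ hu)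
    by_cases him : U.image Prod.fst = Finset.univ
    · obtain ⟨ψ1, g1, g2, g3⟩ := (h3 d n Bd R U).1 him hiso
      refine hz _ fun σ => ?_
      have e1 : (∑ ψ ∈ Fams Bd R, if U ⊆ cmaT Bd R ψ then
          cmaA S Bd R (cT c) ∅ θ τ (1 + σ) U else 0) = cmaA S Bd R (cT c) ∅ θ τ (1 + σ) U := by
        rw [Finset.sum_eq_single ψ1]
        · exact if_pos fun u hu => cmaT_mem.2 (g2 u hu)
        · intro ψ' hψ' hne
          refine if_neg fun h => hne ?_
          exact g3 ψ' (Finset.mem_filter.1 hψ').2 fun u hu => cmaT_mem.1 (h hu)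
        · intro h
          exact absurd (Finset.mem_filter.2 ⟨Finset.mem_univ _, g1⟩) h
      rw [e1, him, if_pos hΦ, sub_self, mul_zero]
    · refine hmul ?_
      obtain ⟨v1, hv1⟩ : ∃ v1 : R, v1 ∉ U.image Prod.fst := by
        by_contra h
        push Not at h
        exact him (Finset.eq_univ_of_forall h)
      refine cma_small h1 hP S Bd R (cT c) ∅ θ B τ hτ hadc hMs U _ fun η hη => ?_
      rw [hiso] at hη
      refine cma_wt_lt h2 h3 S Bd R c hc ψ hψ U hUψ v1 (fun u hu h => hv1 ?_) η hη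
      exact Finset.mem_image.2 ⟨u, hu, h⟩
  · have hsum : ∀ σ : ℝ, (∑ ψ ∈ Fams Bd R, if U ⊆ cmaT Bd R ψ then
        cmaA S Bd R (cT c) ∅ θ τ (1 + σ) U else 0) = 0 := by
      intro σ
      refine Finset.sum_eq_zero fun ψ hψ' => if_neg fun h => hψ ?_
      exact ⟨ψ, (Finset.mem_filter.1 hψ').2, h⟩
    by_cases hΦU : Φ (U.image Prod.fst)
    · refine hmul ?_
      refine cma_small h1 hP S Bd R (cT c) ∅ θ B τ hτ hadc hMs U _ fun η hη => ?_
      obtain ⟨k1, k2, k3⟩ := h2 S d n Bd R (cT c) Φ hadc hG (fun u => (η u, ∅)) U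
        (fun u hu u' hu' h => by rw [hη u hu u' hu' h]) hΦU
      by_cases hiso : iso (bz Bd R) U = U
      · refine lt_of_le_of_ne k1 fun h => hψ ?_
        obtain ⟨ψ1, g1, g2, _⟩ := (h3 d n Bd R U).1 (k3 h) hiso
        exact ⟨ψ1, g1, fun u hu => cmaT_mem.2 (g2 u hu)⟩
      · exact k2 hiso
    · refine hz _ fun σ => ?_
      rw [if_neg hΦU, hsum, sub_zero, mul_zero]

/-- Row C14: reduction of the main term to Euler products. -/
theorem smainA (h1 : SPat) (h2 : SComb) (h3 : SFull) (_h4 : SExpd) (h5 : SExp0) (h6 : SPh)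
    (hs : SSm) : SMainA := by
  classical
  intro S d n Bd R c Φ θ B τ hτ hc hG hΦ
  have hadc := cma_adc c hc
  have h := tendsto_finsetSum (Finset.univ : Finset (Finset (R × VV n))) fun U _ =>
    cma_pat h1 h2 h3 (sexpP hs) S Bd R c Φ θ B τ hτ hc hG hΦ U
  rw [Finset.sum_const_zero] at h
  refine h.congr' ?_
  filter_upwards [self_mem_nhdsWithin] with σ hσ
  have hσ0 : 0 < σ := hσ
  rw [← Finset.mul_sum, Finset.sum_sub_distrib]
  congr 2
  · refine Eq.trans ?_ ((h5 S d n Bd R (cT c) ∅ Φ θ B τ hτ hadc σ hσ0).2).symm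
    refine Finset.sum_congr rfl fun U _ => ?_
    by_cases hU : Φ (U.image Prod.fst)
    · rw [if_pos, if_pos]
      · rfl
      · exact hU
      · exact hU
    · rw [if_neg, if_neg]
      · exact hU
      · exact hU
  · rw [Finset.sum_comm]
    refine Finset.sum_congr rfl fun ψ hψ => ?_
    rw [cma_GE h6 hs S Bd R c θ ψ (Finset.mem_filter.1 hψ).2 B τ hτ σ hσ0]
    rw [← Finset.sum_filter]
    refine Finset.sum_congr ?_ fun _ _ => rfl
    ext U
    simp only [Finset.mem_filter, Finset.mem_univ, true_and, Finset.mem_powerset]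

end Pool.Agent.EV
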