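import Pool.Agent.EV.CStm
import Pool.Agent.H98.MF.SCount

/-!
# Project T4 (MP_a3214d), even order, block C, row C2: summability
-/

set_option autoImplicit false

open scoped BigOperators Topology
open Filter

namespace Pool.Agent.EV

open Pool.Agent.H98.MK (sg)
open Pool.Agent.H98.MF
open Pool.Agent.H32.MQ (El)
open Pool.Agent.D8 (pat Tk ls ad)

/-- products of summable families -/
theorem evsm_pi {ι X : Type} [Fintype ι] (f : ι → X → ℝ) (h0 : ∀ u t, 0 ≤ f u t)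
    (hf : ∀ u, Summable (f u)) : Summable fun x : ι → X => ∏ u, f u (x u) := by
  classical
  refine summable_of_sum_le (c := ∏ u, ∑' t, f u t)
    (fun x => Finset.prod_nonneg fun u _ => h0 u (x u)) fun T => ?_
  have hsub : T ⊆ Fintype.piFinset fun u => T.image fun x => x u := by
    intro x hx
    rw [Fintype.mem_piFinset]
    exact fun u => Finset.mem_image_of_mem (fun x : ι → X => x u) hx
  calc ∑ x ∈ T, ∏ u, f u (x u)
      ≤ ∑ x ∈ Fintype.piFinset fun u => T.image fun x => x u, ∏ u, f u (x u) :=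
        Finset.sum_le_sum_of_subset_of_nonneg hsub fun x _ _ =>
          Finset.prod_nonneg fun u _ => h0 u (x u)
    _ = ∏ u, ∑ t ∈ T.image fun x => x u, f u t := (Finset.prod_univ_sum _ f).symm
    _ ≤ ∏ u, ∑' t, f u t := Finset.prod_le_prod
        (fun u _ => Finset.sum_nonneg fun t _ => h0 u t)
        fun u _ => (hf u).sum_le_tsum _ fun t _ => h0 u t

section

variable (S : Sys)

/-- bounded multiples -/
theorem evsm_tau {B : ℝ} {τ : S.P → ℝ} (hτ : Tk S B τ) (p : S.P) :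
    0 ≤ τ p ∧ τ p ≤ 1 + |B| := by
  obtain ⟨h0, h1⟩ := hτ p
  refine ⟨h0, ?_⟩
  have h2 : (S.N p : ℝ) ^ (-(1 / 2) : ℝ) ≤ 1 := by
    refine Real.rpow_le_one_of_one_le_of_nonpos ?_ (by norm_num)
    exact_mod_cast S.one_le_N p
  have h3 : 0 ≤ (S.N p : ℝ) ^ (-(1 / 2) : ℝ) := Real.rpow_nonneg (Nat.cast_nonneg _) _
  have h4 : B * (S.N p : ℝ) ^ (-(1 / 2) : ℝ) ≤ |B| * 1 :=
    (mul_le_mul_of_nonneg_right (le_abs_self B) h3).trans
      (mul_le_mul_of_nonneg_left h2 (abs_nonneg B))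
  have h5 := (abs_le.1 h1).2
  linarith

theorem evsm_tauN {B : ℝ} {τ : S.P → ℝ} (hτ : Tk S B τ) {s : ℝ} (hs : 1 < s) :
    Summable fun p : S.P => τ p * (S.N p : ℝ) ^ (-s) := by
  refine Summable.of_nonneg_of_le (fun p => ?_) (fun p => ?_)
    ((summable_N S s hs).mul_left (1 + |B|))
  · exact mul_nonneg (evsm_tau S hτ p).1 (Real.rpow_nonneg (Nat.cast_nonneg _) _)
  · exact mul_le_mul_of_nonneg_right (evsm_tau S hτ p).2 (Real.rpow_nonneg (Nat.cast_nonneg _) _)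

/-- the sum over the finite sets of primes converges -/
theorem evsm_fin {B : ℝ} {τ : S.P → ℝ} (hτ : Tk S B τ) {s : ℝ} (hs : 1 < s) :
    Summable fun x : Finset S.P => ∏ p ∈ x, (τ p * (S.N p : ℝ) ^ (-s)) :=
  summable_finsetProd_of_summable_nonneg
    (fun p => mul_nonneg (evsm_tau S hτ p).1 (Real.rpow_nonneg (Nat.cast_nonneg _) _))
    (evsm_tauN S hτ hs)

/-- the sum over the families converges -/
theorem evsm_fam {ι : Type} [Fintype ι] {B : ℝ} {τ : S.P → ℝ} (hτ : Tk S B τ) {s : ℝ}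
    (hs : 1 < s) : Summable fun x : ι → Finset S.P =>
      ∏ u, ∏ p ∈ x u, (τ p * (S.N p : ℝ) ^ (-s)) :=
  evsm_pi (fun (_ : ι) (x : Finset S.P) => ∏ p ∈ x, (τ p * (S.N p : ℝ) ^ (-s)))
    (fun _ _ => Finset.prod_nonneg fun p _ =>
      mul_nonneg (evsm_tau S hτ p).1 (Real.rpow_nonneg (Nat.cast_nonneg _) _))
    fun _ => evsm_fin S hτ hs

/-- the absolute value of a term -/
theorem evsm_abs_le {ι : Type} [Fintype ι] {B : ℝ} {τ : S.P → ℝ} (hτ : Tk S B τ) (s : ℝ)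
    (b : ι → ι → ZMod 2) (c : ι → El S) (M : Finset S.P) (x : ι → Finset S.P) :
    |Kt τ s b c M x| ≤ ∏ u, ∏ p ∈ x u, (τ p * (S.N p : ℝ) ^ (-s)) := by
  have h0 : 0 ≤ ∏ u, ∏ p ∈ x u, (τ p * (S.N p : ℝ) ^ (-s)) :=
    Finset.prod_nonneg fun u _ => Finset.prod_nonneg fun p _ =>
      mul_nonneg (evsm_tau S hτ p).1 (Real.rpow_nonneg (Nat.cast_nonneg _) _)
  unfold Kt
  split_ifs
  · rw [abs_mul, abs_sgr, one_mul, abs_of_nonneg h0]
  · rw [abs_zero]
    exact h0

end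

/-- all terms are summable -/
theorem ssm : SSm := by
  intro S ι _ b c M B τ hτ σ hσ
  exact Summable.of_nonneg_of_le (fun x => abs_nonneg _)
    (fun x => evsm_abs_le S hτ (1 + σ) b c M x) (evsm_fam S hτ (by linarith))

end Pool.Agent.EV
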