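import Pool.Agent.EV.CStm
import Pool.Agent.EV.CSm
import Pool.Agent.H98.MF.SClassSum

/-!
# Project T4 (MP_a3214d), even order, block C, row C16: limit and positivity of the main term
(helper2)
-/

set_option autoImplicit false

open scoped BigOperators Topology
open Filter

namespace Pool.Agent.EV

open Pool.Agent.H98.MK (sg)
open Pool.Agent.H98.MF
open Pool.Agent.H32.MQ (El)
open Pool.Agent.D8 (pat Tk ls ad)

/-! ### characters -/

private theorem vml_two (x : ZMod 2) : x + x = 0 := by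
  revert x; decide

private theorem vml_sg_ne {a : ZMod 2} (h : a ≠ 0) : sg a = -1 := by
  revert a; decide

private theorem vml_self {ι : Type} {m : ℕ} (t : ι → Fin m → ZMod 2) : t + t = 0 := by
  funext v j
  exact vml_two _

/-- character sums over a finite group of exponent two -/
private theorem vml_orth {G : Type*} [AddCommGroup G] (E : Finset G) (L : G → ZMod 2)
    (hadd : ∀ a ∈ E, ∀ b ∈ E, a + b ∈ E) (hself : ∀ a ∈ E, a + a = 0)
    (hL : ∀ a ∈ E, ∀ b ∈ E, L (a + b) = L a + L b) :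
    (∀ a ∈ E, L a = 0) ∨ ∑ a ∈ E, ((sg (L a) : ℤ) : ℝ) = 0 := by
  by_cases h : ∀ a ∈ E, L a = 0
  · exact Or.inl h
  · right
    push Not at h
    obtain ⟨a0, ha0, hne⟩ := h
    have h1 : ∑ a ∈ E, ((sg (L (a + a0)) : ℤ) : ℝ) = ∑ a ∈ E, ((sg (L a) : ℤ) : ℝ) :=
      Finset.sum_bij (fun a _ => a + a0) (fun a ha => hadd a ha a0 ha0)
        (fun a _ b _ h => add_right_cancel h)
        (fun b hb => ⟨b + a0, hadd b hb _ ha0, by rw [add_assoc, hself a0 ha0, add_zero]⟩)
        (fun a _ => rfl)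
    have h2 : ∑ a ∈ E, ((sg (L (a + a0)) : ℤ) : ℝ) = -∑ a ∈ E, ((sg (L a) : ℤ) : ℝ) := by
      rw [← Finset.sum_neg_distrib]
      refine Finset.sum_congr rfl fun a ha => ?_
      rw [hL a ha a0 ha0, sg_add, vml_sg_ne hne]
      push_cast
      ring
    linarith [h1.symm.trans h2]

private theorem vml_orth_one {G : Type*} (E : Finset G) (L : G → ZMod 2)
    (h : ∀ a ∈ E, L a = 0) : ∑ a ∈ E, ((sg (L a) : ℤ) : ℝ) = E.card := by
  rw [Finset.sum_congr rfl fun a ha => by rw [h a ha, sg_zero, Int.cast_one],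
    Finset.sum_const, nsmul_eq_mul, mul_one]

section Fourier

variable {S : Sys} {ι : Type} [Fintype ι]

/-- the exponent of a character of the types -/
private def vmlE (η t : ι → S.T) : ZMod 2 := ∑ v, η v ⬝ᵥ t v

private theorem vmlE_add (η η' t : ι → S.T) : vmlE (η + η') t = vmlE η t + vmlE η' t := by
  unfold vmlE
  rw [← Finset.sum_add_distrib]
  exact Finset.sum_congr rfl fun v _ => add_dotProduct _ _ _

private theorem vmlE_addR (η t t' : ι → S.T) : vmlE η (t + t') = vmlE η t + vmlE η t' := by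
  unfold vmlE
  rw [← Finset.sum_add_distrib]
  exact Finset.sum_congr rfl fun v _ => dotProduct_add _ _ _

private theorem vmlE_tys (η : ι → S.T) (x : ι → Finset S.P) :
    vmlE η (fun v => S.tys (x v)) = ∑ v, ∑ p ∈ x v, η v ⬝ᵥ S.ty p := by
  unfold vmlE
  exact Finset.sum_congr rfl fun v _ => S.dot_tys _ _

variable [DecidableEq ι]

private theorem vmlE_all {t : ι → S.T} (h : ∀ η : ι → S.T, vmlE η t = 0) : t = 0 := by
  funext v j
  have h1 := h (Pi.single v (Pi.single j 1))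
  unfold vmlE at h1
  rw [Finset.sum_eq_single v] at h1
  · rw [Pi.single_eq_same, single_dotProduct, one_mul] at h1
    exact h1
  · intro u _ hu
    rw [Pi.single_eq_of_ne hu, zero_dotProduct]
  · intro hv
    exact absurd (Finset.mem_univ v) hv

private theorem vmlE_sum (t t' : ι → S.T) : ∑ η : ι → S.T,
    ((sg (vmlE η t') : ℤ) : ℝ) * ((sg (vmlE η t) : ℤ) : ℝ) =
      if t' = t then (Fintype.card (ι → S.T) : ℝ) else 0 := by
  have h1 : ∀ η : ι → S.T, ((sg (vmlE η t') : ℤ) : ℝ) * ((sg (vmlE η t) : ℤ) : ℝ) =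
      ((sg (vmlE η (t' + t)) : ℤ) : ℝ) := by
    intro η
    rw [vmlE_addR, sg_add]
    push_cast
    rfl
  rw [Finset.sum_congr rfl fun η _ => h1 η]
  have h2 := vml_orth (Finset.univ : Finset (ι → S.T)) (fun η => vmlE η (t' + t))
    (fun _ _ _ _ => Finset.mem_univ _) (fun a _ => vml_self a)
    (fun a _ b _ => vmlE_add a b _)
  by_cases h : t' = t
  · rw [if_pos h, h, vml_self]
    refine (vml_orth_one _ _ fun a _ => ?_).trans (by rw [Finset.card_univ])
    unfold vmlE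
    exact Finset.sum_eq_zero fun v _ => dotProduct_zero _
  · rw [if_neg h]
    rcases h2 with h2 | h2
    · exfalso
      have h3 := vmlE_all fun η => h2 η (Finset.mem_univ η)
      apply h
      have h4 : t' + t + t = t := by rw [h3, zero_add]
      rwa [add_assoc, vml_self, add_zero] at h4
    · exact h2

/-- the Fourier coefficients -/
private noncomputable def vmlF (θ : (ι → S.T) → ℝ) (η : ι → S.T) : ℝ :=
  (Fintype.card (ι → S.T) : ℝ)⁻¹ * ∑ t : ι → S.T, θ t * ((sg (vmlE η t) : ℤ) : ℝ)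

private theorem vmlF_inv (θ : (ι → S.T) → ℝ) (t : ι → S.T) :
    θ t = ∑ η : ι → S.T, vmlF θ η * ((sg (vmlE η t) : ℤ) : ℝ) := by
  have hl : (Fintype.card (ι → S.T) : ℝ) ≠ 0 := by
    have h : Fintype.card (ι → S.T) ≠ 0 := Fintype.card_ne_zero
    exact_mod_cast h
  have h1 : ∀ η : ι → S.T, vmlF θ η * ((sg (vmlE η t) : ℤ) : ℝ) =
      (Fintype.card (ι → S.T) : ℝ)⁻¹ * ∑ t' : ι → S.T,
        θ t' * (((sg (vmlE η t') : ℤ) : ℝ) * ((sg (vmlE η t) : ℤ) : ℝ)) := by
    intro η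
    unfold vmlF
    rw [mul_assoc, Finset.sum_mul]
    congr 1
    exact Finset.sum_congr rfl fun t' _ => mul_assoc _ _ _
  rw [Finset.sum_congr rfl fun η _ => h1 η, ← Finset.mul_sum, Finset.sum_comm]
  have h2 : ∀ t' : ι → S.T, ∑ η : ι → S.T,
      θ t' * (((sg (vmlE η t') : ℤ) : ℝ) * ((sg (vmlE η t) : ℤ) : ℝ)) =
      if t' = t then θ t * (Fintype.card (ι → S.T) : ℝ) else 0 := by
    intro t'
    rw [← Finset.mul_sum, vmlE_sum]
    by_cases h : t' = t
    · subst h
      rw [if_pos rfl, if_pos rfl]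
    · rw [if_neg h, if_neg h, mul_zero]
  rw [Finset.sum_congr rfl fun t' _ => h2 t', Finset.sum_ite_eq' Finset.univ t,
    if_pos (Finset.mem_univ t), mul_comm (θ t), inv_mul_cancel_left₀ hl]

omit [DecidableEq ι] in
/-- summability of the twisted sums -/
private theorem vml_sum {f : ι → S.T → ℝ} {A : ℝ} (hA : 0 ≤ A) (hf : ∀ v t, |f v t| ≤ A) {B : ℝ}
    {τ : S.P → ℝ} (hT : Tk S B τ) {s : ℝ} (hs : 1 < s) (q : (ι → Finset S.P) → Prop)
    [DecidablePred q] : Summable fun x : ι → Finset S.P => if q x then (1 : ℝ) *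
      ∏ v, ∏ p ∈ x v, (f v (S.ty p) * (τ p * (S.N p : ℝ) ^ (-s))) else 0 := by
  have hN : ∀ p : S.P, 0 ≤ τ p * (S.N p : ℝ) ^ (-s) := fun p =>
    mul_nonneg (evsm_tau S hT p).1 (Real.rpow_nonneg (Nat.cast_nonneg _) _)
  have h1 : Summable fun x : ι → Finset S.P =>
      ∏ u, ∏ p ∈ x u, (A * (τ p * (S.N p : ℝ) ^ (-s))) :=
    evsm_pi (fun (_ : ι) (x : Finset S.P) => ∏ p ∈ x, (A * (τ p * (S.N p : ℝ) ^ (-s))))
      (fun _ _ => Finset.prod_nonneg fun p _ => mul_nonneg hA (hN p))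
      fun _ => summable_finsetProd_of_summable_nonneg (fun p => mul_nonneg hA (hN p))
        ((evsm_tauN S hT hs).mul_left A)
  refine Summable.of_norm_bounded h1 fun x => ?_
  have h0 : 0 ≤ ∏ u, ∏ p ∈ x u, (A * (τ p * (S.N p : ℝ) ^ (-s))) :=
    Finset.prod_nonneg fun u _ => Finset.prod_nonneg fun p _ => mul_nonneg hA (hN p)
  rw [Real.norm_eq_abs]
  by_cases h : q x
  · rw [if_pos h, one_mul, Finset.abs_prod]
    refine Finset.prod_le_prod (fun v _ => abs_nonneg _) fun v _ => ?_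
    rw [Finset.abs_prod]
    refine Finset.prod_le_prod (fun p _ => abs_nonneg _) fun p _ => ?_
    rw [abs_mul, abs_of_nonneg (hN p)]
    exact mul_le_mul_of_nonneg_right (hf v _) (hN p)
  · rw [if_neg h, abs_zero]
    exact h0

/-- expansion in characters of the types -/
private theorem vml_expand (f : ι → S.T → ℝ) {B : ℝ} {τ : S.P → ℝ} (hT : Tk S B τ) {σ : ℝ}
    (hσ : 0 < σ) (θ : (ι → S.T) → ℝ) : GE θ f τ (1 + σ) = ∑ η : ι → S.T,
      vmlF θ η * GE (fun _ => 1) (fun v t => f v t * ((sg (η v ⬝ᵥ t) : ℤ) : ℝ)) τ (1 + σ) := by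
  classical
  set A : ℝ := ∑ u, ∑ t, |f u t| with hAd
  have hA : 0 ≤ A := Finset.sum_nonneg fun u _ => Finset.sum_nonneg fun t _ => abs_nonneg _
  have hf : ∀ u t, |f u t| ≤ A := fun u t =>
    (Finset.single_le_sum (f := fun t => |f u t|) (fun t _ => abs_nonneg _)
      (Finset.mem_univ t)).trans
      (Finset.single_le_sum (f := fun u => ∑ t, |f u t|)
        (fun u _ => Finset.sum_nonneg fun t _ => abs_nonneg _) (Finset.mem_univ u))
  have hf' : ∀ (η : ι → S.T) (u : ι) (t : S.T),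
      |f u t * ((sg (η u ⬝ᵥ t) : ℤ) : ℝ)| ≤ A := by
    intro η u t
    rw [abs_mul, abs_sgr, mul_one]
    exact hf u t
  unfold GE
  rw [Finset.sum_congr rfl fun η _ => (tsum_mul_left (a := vmlF θ η)).symm,
    ← Summable.tsum_finsetSum fun η _ =>
      (vml_sum hA (hf' η) hT (s := 1 + σ) (by linarith) S.Dj).mul_left _]
  refine tsum_congr fun x => ?_
  by_cases hx : S.Dj x
  · rw [if_pos hx]
    conv_lhs => rw [vmlF_inv θ (fun v => S.tys (x v))]
    rw [Finset.sum_mul]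
    refine Finset.sum_congr rfl fun η _ => ?_
    rw [if_pos hx, one_mul, vmlE_tys, sg_sum, Int.cast_prod, mul_assoc, ← Finset.prod_mul_distrib]
    congr 1
    refine Finset.prod_congr rfl fun v _ => ?_
    rw [sg_sum, Int.cast_prod, ← Finset.prod_mul_distrib]
    refine Finset.prod_congr rfl fun p _ => ?_
    ring
  · rw [if_neg hx]
    exact (Finset.sum_eq_zero fun η _ => by rw [if_neg hx, mul_zero]).symm

end Fourier

/-! ### limits -/

section Limits

variable {S : Sys} {ι : Type} [Fintype ι]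

/-- either the phase is trivial or the mean is smaller -/
private theorem vml_dich {w : ι → S.T → ℝ} (hw : ∀ v t, 0 ≤ w v t) (a : ι → S.T → ZMod 2)
    (h : ¬ ∀ v t, w v t ≠ 0 → a v t = 0) :
    mu (fun v t => w v t * ((sg (a v t) : ℤ) : ℝ)) < mu w := by
  push Not at h
  obtain ⟨v, t, h1, h2⟩ := h
  have hle : ∀ (u : ι) (t : S.T), w u t * ((sg (a u t) : ℤ) : ℝ) ≤ w u t := fun u t =>
    mul_le_of_le_one_right (hw u t) ((le_abs_self _).trans (abs_sgr _).le)
  unfold mu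
  refine Finset.sum_lt_sum (fun u _ => ?_) ⟨v, Finset.mem_univ v, ?_⟩
  · exact mul_le_mul_of_nonneg_left (Finset.sum_le_sum fun t _ => hle u t) (by positivity)
  · refine mul_lt_mul_of_pos_left (Finset.sum_lt_sum (fun t _ => hle v t)
      ⟨t, Finset.mem_univ t, ?_⟩) (by positivity)
    have h3 : 0 < w v t := lt_of_le_of_ne (hw v t) (Ne.symm h1)
    show w v t * ((sg (a v t) : ℤ) : ℝ) < w v t
    rw [vml_sg_ne h2]
    push_cast
    linarith

/-- the limits of the twisted Euler products -/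
private theorem vml_lim (h1 : SGE1) {w : ι → S.T → ℝ} (hw : ∀ v t, 0 ≤ w v t) {b : ℕ}
    (hb : mu w = b) {B : ℝ} {τ : S.P → ℝ} (hT : Tk S B τ) {L0 : ℝ}
    (hL0 : Tendsto (fun σ : ℝ => σ ^ b * GE (fun _ => 1) w τ (1 + σ)) (𝓝[>] 0) (𝓝 L0))
    (a : ι → S.T → ZMod 2) (q : Prop) [Decidable q]
    (hq : q ↔ ∀ v t, w v t ≠ 0 → a v t = 0) :
    Tendsto (fun σ : ℝ => σ ^ b * GE (fun _ => 1)
      (fun v t => w v t * ((sg (a v t) : ℤ) : ℝ)) τ (1 + σ)) (𝓝[>] 0)
      (𝓝 (if q then L0 else 0)) := by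
  by_cases h : q
  · rw [if_pos h]
    have h2 : (fun v t => w v t * ((sg (a v t) : ℤ) : ℝ)) = w := by
      funext v t
      by_cases h3 : w v t = 0
      · rw [h3, zero_mul]
      · rw [hq.1 h v t h3, sg_zero, Int.cast_one, mul_one]
    rw [h2]
    exact hL0
  · rw [if_neg h]
    refine (h1 S ι _ B τ b hT).1 ?_
    rw [← hb]
    exact vml_dich hw a fun h2 => h (hq.2 h2)

end Limits

/-! ### the exponent -/

private theorem vml_ph_add {S : Sys} {d : ℕ} (R : Finset (VV d)) (ψ ψ' : R → R → ZMod 2)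
    (t : R → S.T) : ph R (ψ + ψ') t = ph R ψ t + ph R ψ' t := by
  unfold ph
  rw [← Finset.sum_add_distrib]
  refine Finset.sum_congr rfl fun v _ => ?_
  rw [← Finset.sum_add_distrib]
  refine Finset.sum_congr rfl fun w _ => ?_
  by_cases h : pos v < pos w
  · rw [if_pos h, if_pos h, if_pos h, Pi.add_apply, Pi.add_apply, add_mul]
  · rw [if_neg h, if_neg h, if_neg h, add_zero]

private theorem vml_fam_zero {d n : ℕ} (Bd : BD d n) (R : Finset (VV d)) : Fam Bd R 0 :=
  ⟨fun _ _ => rfl, fun _ => ⟨0, fun _ => (zero_dotProduct _).symm⟩⟩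

private theorem vml_fam_add {d n : ℕ} {Bd : BD d n} {R : Finset (VV d)}
    {ψ ψ' : R → R → ZMod 2} (h : Fam Bd R ψ) (h' : Fam Bd R ψ') : Fam Bd R (ψ + ψ') := by
  refine ⟨fun w v => ?_, fun v => ?_⟩
  · show ψ w v + ψ' w v = ψ v w + ψ' v w
    rw [h.sym, h'.sym]
  · obtain ⟨ζ, hζ⟩ := h.rep v
    obtain ⟨ζ', hζ'⟩ := h'.rep v
    refine ⟨ζ + ζ', fun w => ?_⟩
    show ψ w v + ψ' w v = _
    rw [hζ w, hζ' w, add_dotProduct]

/-- the sum over ordered pairs of different indices -/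
private theorem vml_split {ι : Type} [Fintype ι] (F : ι → ι → ZMod 2) (h0 : ∀ v, F v v = 0) :
    ∑ v, ∑ w, F v w = ∑ v, ∑ w, if pos v < pos w then F v w + F w v else 0 := by
  classical
  have h1 : ∀ v w, F v w = (if pos v < pos w then F v w else 0) +
      (if pos w < pos v then F v w else 0) := by
    intro v w
    rcases lt_trichotomy (pos v) (pos w) with h | h | h
    · rw [if_pos h, if_neg (lt_asymm h), add_zero]
    · have h2 : v = w := by
        have h3 : Fintype.equivFin ι v = Fintype.equivFin ι w := Fin.ext h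
        exact (Fintype.equivFin ι).injective h3
      subst h2
      rw [if_neg (lt_irrefl _), h0, add_zero]
    · rw [if_neg (lt_asymm h), if_pos h, zero_add]
  have h2 : ∑ v, ∑ w, F v w = ∑ v, ∑ w, (if pos v < pos w then F v w else 0) +
      ∑ v, ∑ w, (if pos w < pos v then F v w else 0) := by
    rw [← Finset.sum_add_distrib]
    refine Finset.sum_congr rfl fun v _ => ?_
    rw [← Finset.sum_add_distrib]
    exact Finset.sum_congr rfl fun w _ => h1 v w
  rw [h2, Finset.sum_comm (f := fun v w => if pos w < pos v then F v w else 0),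
    ← Finset.sum_add_distrib]
  refine Finset.sum_congr rfl fun v _ => ?_
  rw [← Finset.sum_add_distrib]
  refine Finset.sum_congr rfl fun w _ => ?_
  by_cases h : pos v < pos w
  · rw [if_pos h, if_pos h, if_pos h]
  · rw [if_neg h, if_neg h, if_neg h, add_zero]

/-- the symbols of a solution give the exponent of the reciprocity law -/
private theorem vml_recip {S : Sys} {d n : ℕ} {Bd : BD d n} {R : Finset (VV d)}
    {ψ : R → R → ZMod 2} (hψ : Fam Bd R ψ) {x : R → Finset S.P} (hx : S.Dj x) :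
    ∑ v : R, ∑ w : R, S.JJ (x v) (x w) * ψ w v = ph R ψ (fun v => S.tys (x v)) := by
  have hd : ∀ v, ψ v v = 0 := by
    intro v
    obtain ⟨ζ, hζ⟩ := hψ.rep v
    rw [hζ v, Bd.alt, dotProduct_zero]
  rw [vml_split (fun v w => S.JJ (x v) (x w) * ψ w v) fun v => by rw [hd, mul_zero]]
  unfold ph
  refine Finset.sum_congr rfl fun v _ => Finset.sum_congr rfl fun w _ => ?_
  by_cases h : pos v < pos w
  · rw [if_pos h, if_pos h]
    have hne : v ≠ w := by
      rintro rfl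
      exact lt_irrefl _ h
    rw [hψ.sym v w, ← add_mul, S.JJ_recip (hx v w hne), mul_comm]
  · rw [if_neg h, if_neg h]

/-! ### the main term -/

/-- limit and positivity of the main term -/
theorem smainL (h1 : SGE1) (h2 : SGfac) : SMainL := by
  classical
  intro S d n Bd R c θ B τ hT hc hθ hτ
  obtain ⟨w, φ, hw, -, hmean, hgψ, hadd, -, -, hval⟩ := h2 S d n Bd R c hc
  have hb : mu w = (bV Bd R (cT (S := S) c) : ℕ) := by
    unfold mu bV
    refine (Finset.sum_congr rfl fun (u : R) _ => hmean u).trans ?_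
    rw [Nat.cast_sum]
    exact Finset.sum_coe_sort R fun v => (nv Bd R (cT (S := S) c) v : ℝ)
  set b := bV Bd R (cT (S := S) c) with hbd
  obtain ⟨L0, hL0, hLim⟩ := (h1 S R w B τ b hT).2.2 hb hw
  -- the group of pairs
  set E : Finset ((R → R → ZMod 2) × (R → S.T)) := Finset.univ.filter fun z =>
    Fam Bd R z.1 ∧ ∀ v t, w v t ≠ 0 → φ z.1 v t + z.2 v ⬝ᵥ t = 0 with hEd
  have hE : ∀ z, z ∈ E ↔ Fam Bd R z.1 ∧ ∀ v t, w v t ≠ 0 → φ z.1 v t + z.2 v ⬝ᵥ t = 0 := by
    intro z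
    rw [hEd, Finset.mem_filter]
    exact ⟨fun h => h.2, fun h => ⟨Finset.mem_univ _, h⟩⟩
  have hEadd : ∀ z ∈ E, ∀ z' ∈ E, z + z' ∈ E := by
    intro z hz z' hz'
    rw [hE] at hz hz' ⊢
    refine ⟨vml_fam_add hz.1 hz'.1, fun v t hvt => ?_⟩
    rw [Prod.fst_add, Prod.snd_add, hadd _ _ hz.1 hz'.1 v t hvt, Pi.add_apply, add_dotProduct]
    linear_combination hz.2 v t hvt + hz'.2 v t hvt
  have hEself : ∀ z ∈ E, z + z = 0 := by
    rintro ⟨ψ, η⟩ -
    refine Prod.ext ?_ ?_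
    · funext u v
      exact vml_two _
    · exact vml_self η
  have hE0 : (0 : (R → R → ZMod 2) × (R → S.T)) ∈ E := by
    rw [hE]
    refine ⟨vml_fam_zero Bd R, fun v t hvt => ?_⟩
    have h3 := hadd 0 0 (vml_fam_zero Bd R) (vml_fam_zero Bd R) v t hvt
    rw [add_zero, vml_two] at h3
    rw [Prod.fst_zero, Prod.snd_zero, h3, Pi.zero_apply, zero_dotProduct, add_zero]
  set Λ : (R → S.T) → (R → R → ZMod 2) × (R → S.T) → ZMod 2 := fun t z =>
    ph R z.1 t + vmlE z.2 t with hΛ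
  have hΛadd : ∀ t, ∀ z ∈ E, ∀ z' ∈ E, Λ t (z + z') = Λ t z + Λ t z' := by
    intro t z _ z' _
    simp only [hΛ, Prod.fst_add, Prod.snd_add, vml_ph_add, vmlE_add]
    ring
  have hnn : ∀ t, 0 ≤ ∑ z ∈ E, ((sg (Λ t z) : ℤ) : ℝ) := by
    intro t
    rcases vml_orth E (Λ t) hEadd hEself (hΛadd t) with h | h
    · rw [vml_orth_one E (Λ t) h]
      exact Nat.cast_nonneg _
    · rw [h]
  have hcard : (0 : ℝ) < (Fintype.card (R → S.T) : ℝ)⁻¹ := by
    have h : 0 < Fintype.card (R → S.T) := Fintype.card_pos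
    exact inv_pos.2 (by exact_mod_cast h)
  refine ⟨L0 * ((Fintype.card (R → S.T) : ℝ)⁻¹ *
    ∑ t : R → S.T, θ t * ∑ z ∈ E, ((sg (Λ t z) : ℤ) : ℝ)), ?_, ?_, ?_⟩
  · exact mul_nonneg hL0.le (mul_nonneg hcard.le
      (Finset.sum_nonneg fun t _ => mul_nonneg (hθ t) (hnn t)))
  · -- the limit
    have hsum : ∑ ψ ∈ Fams Bd R, ∑ η : R → S.T,
        vmlF (fun t => θ t * ((sg (ph R ψ t) : ℤ) : ℝ)) η *
          (if (∀ v t, w v t ≠ 0 → φ ψ v t + η v ⬝ᵥ t = 0) then L0 else 0) =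
        L0 * ((Fintype.card (R → S.T) : ℝ)⁻¹ *
          ∑ t : R → S.T, θ t * ∑ z ∈ E, ((sg (Λ t z) : ℤ) : ℝ)) := by
      have e1 : ∑ ψ ∈ Fams Bd R, ∑ η : R → S.T,
          vmlF (fun t => θ t * ((sg (ph R ψ t) : ℤ) : ℝ)) η *
            (if (∀ v t, w v t ≠ 0 → φ ψ v t + η v ⬝ᵥ t = 0) then L0 else 0) =
          ∑ z ∈ E, vmlF (fun t => θ t * ((sg (ph R z.1 t) : ℤ) : ℝ)) z.2 * L0 := by
        rw [← Finset.sum_product', hEd, Finset.sum_filter, ← Finset.univ_product_univ]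
        unfold Fams
        rw [Finset.sum_product, Finset.sum_product, Finset.sum_filter]
        refine Finset.sum_congr rfl fun ψ _ => ?_
        by_cases hψ : Fam Bd R ψ
        · rw [if_pos hψ]
          refine Finset.sum_congr rfl fun η _ => ?_
          by_cases hη : ∀ v t, w v t ≠ 0 → φ ψ v t + η v ⬝ᵥ t = 0
          · rw [if_pos hη, if_pos ⟨hψ, hη⟩]
          · rw [if_neg hη, if_neg fun h => hη h.2, mul_zero]
        · rw [if_neg hψ]
          exact (Finset.sum_eq_zero fun η _ => if_neg fun h => hψ h.1).symm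
      rw [e1, ← Finset.sum_mul, mul_comm]
      congr 1
      unfold vmlF
      rw [← Finset.mul_sum, Finset.sum_comm]
      congr 1
      refine Finset.sum_congr rfl fun t _ => ?_
      rw [Finset.mul_sum]
      refine Finset.sum_congr rfl fun z _ => ?_
      rw [hΛ, sg_add]
      push_cast
      ring
    rw [← hsum]
    have hlim : Tendsto (fun σ : ℝ => ∑ ψ ∈ Fams Bd R, ∑ η : R → S.T,
        vmlF (fun t => θ t * ((sg (ph R ψ t) : ℤ) : ℝ)) η * (σ ^ b * GE (fun _ => 1)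
          (fun v t => w v t * ((sg (φ ψ v t + η v ⬝ᵥ t) : ℤ) : ℝ)) τ (1 + σ))) (𝓝[>] 0)
        (𝓝 (∑ ψ ∈ Fams Bd R, ∑ η : R → S.T,
        vmlF (fun t => θ t * ((sg (ph R ψ t) : ℤ) : ℝ)) η *
          (if (∀ v t, w v t ≠ 0 → φ ψ v t + η v ⬝ᵥ t = 0) then L0 else 0))) :=
      tendsto_finsetSum _ fun ψ _ => tendsto_finsetSum _ fun η _ =>
        (vml_lim h1 hw hb hT hLim (fun v t => φ ψ v t + η v ⬝ᵥ t) _ Iff.rfl).const_mul _
    refine hlim.congr' ?_
    filter_upwards [self_mem_nhdsWithin] with σ hσ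
    have hσ' : (0 : ℝ) < σ := hσ
    rw [Finset.mul_sum]
    refine Finset.sum_congr rfl fun ψ hψ => ?_
    have hψ' : Fam Bd R ψ := (Finset.mem_filter.1 hψ).2
    rw [vml_expand _ hT hσ', Finset.mul_sum]
    refine Finset.sum_congr rfl fun η _ => ?_
    have e2 : (fun (v : R) (t : S.T) => w v t * ((sg (φ ψ v t + η v ⬝ᵥ t) : ℤ) : ℝ)) =
        fun v t => gψ Bd R c ψ v t * ((sg (η v ⬝ᵥ t) : ℤ) : ℝ) := by
      funext v t
      rw [hgψ ψ hψ' v t, sg_add]
      push_cast
      ring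
    rw [e2]
    ring
  · -- positivity
    rintro ⟨x, hx, hok, hθx⟩
    set t0 : R → S.T := fun v => S.tys (x v) with ht0
    have hvec : ∀ (v : R), ∀ p ∈ x v, w v (S.ty p) ≠ 0 ∧ ∀ ψ, Fam Bd R ψ →
        φ ψ v (S.ty p) = ∑ u : R, (∑ q ∈ x u, S.J q p) * ψ u v := by
      intro v p hp
      refine hval v (S.ty p) (fun u => ∑ q ∈ x u, S.J q p) fun ζ => ?_
      have h3 := hok v p hp ζ
      have h4 : xc (cT (S := S) c v ζ) p = c v ζ ⬝ᵥ S.ty p := by
        unfold xc cT Sys.ex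
        rw [Finset.sum_empty, zero_add]
      rw [h4] at h3
      exact (CharTwo.add_eq_zero.1 h3).symm
    have hzero : ∀ z ∈ E, Λ t0 z = 0 := by
      intro z hz
      rw [hE] at hz
      have e1 : vmlE z.2 t0 = ∑ v : R, ∑ p ∈ x v, φ z.1 v (S.ty p) := by
        rw [ht0, vmlE_tys]
        refine Finset.sum_congr rfl fun v _ => Finset.sum_congr rfl fun p hp => ?_
        exact (CharTwo.add_eq_zero.1 (hz.2 v (S.ty p) (hvec v p hp).1)).symm
      have e2 : ∑ v : R, ∑ p ∈ x v, φ z.1 v (S.ty p) = ph R z.1 t0 := by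
        rw [← vml_recip hz.1 hx]
        refine Finset.sum_congr rfl fun v _ => ?_
        rw [Finset.sum_congr rfl fun p hp => (hvec v p hp).2 z.1 hz.1, Finset.sum_comm]
        refine Finset.sum_congr rfl fun u _ => ?_
        rw [← Finset.sum_mul]
        rfl
      show ph R z.1 t0 + vmlE z.2 t0 = 0
      rw [e1, e2, vml_two]
    refine mul_pos hL0 (mul_pos hcard ?_)
    refine Finset.sum_pos' (fun t _ => mul_nonneg (hθ t) (hnn t)) ⟨t0, Finset.mem_univ _, ?_⟩
    refine mul_pos hθx ?_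
    rw [vml_orth_one E (Λ t0) hzero]
    exact_mod_cast Finset.card_pos.2 ⟨0, hE0⟩

end Pool.Agent.EV
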