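import Pool.Agent.EV.CStm

/-!
# Project T4, even half, block C: the exponent on a set of unlinked types (row EV-C7)
-/

set_option autoImplicit false

open scoped BigOperators

namespace Pool.Agent.EV

open Pool.Agent.H98.MF

/-- symmetrisation of a double sum with zero diagonal -/
private theorem eph_sym {ι : Type} [Fintype ι] (f : ι → ι → ZMod 2) (h : ∀ v, f v v = 0) :
    ∑ v, ∑ w, f v w = ∑ v, ∑ w, if pos v < pos w then f v w + f w v else 0 := by
  have h1 : ∀ v w, f v w = (if pos v < pos w then f v w else 0) +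
      (if pos w < pos v then f v w else 0) := by
    intro v w
    rcases lt_trichotomy (pos v) (pos w) with h2 | h2 | h2
    · rw [if_pos h2, if_neg (by omega), add_zero]
    · have h3 : v = w := by
        unfold pos at h2
        exact (Fintype.equivFin ι).injective (Fin.ext h2)
      subst h3
      rw [h v]
      simp
    · rw [if_neg (by omega), if_pos h2, zero_add]
  have h2 : ∑ v, ∑ w, f v w = (∑ v, ∑ w, if pos v < pos w then f v w else 0) +
      ∑ v, ∑ w, if pos w < pos v then f v w else 0 := by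
    rw [← Finset.sum_add_distrib]
    refine Finset.sum_congr rfl fun v _ => ?_
    rw [← Finset.sum_add_distrib]
    exact Finset.sum_congr rfl fun w _ => h1 v w
  rw [h2, Finset.sum_comm (f := fun v w => if pos w < pos v then f v w else 0),
    ← Finset.sum_add_distrib]
  refine Finset.sum_congr rfl fun v _ => ?_
  rw [← Finset.sum_add_distrib]
  refine Finset.sum_congr rfl fun w _ => ?_
  split_ifs
  · rfl
  · rw [add_zero]

/-- the exponent on a set of unlinked types -/
theorem sph : SPh := by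
  classical
  intro S d n Bd R ψ hψ x hx hu
  have hdiag : ∀ v : R, ψ v v = 0 := by
    intro v
    obtain ⟨ζ, hζ⟩ := hψ.rep v
    rw [hζ v, Bd.alt, dotProduct_zero]
  have h1 : ∀ u v : R × VV n, bz Bd R u v * S.JJ (x u) (x v) =
      ψ v.1 u.1 * S.JJ (x u) (x v) := by
    intro u v
    rcases (x u).eq_empty_or_nonempty with h | h
    · rw [h, S.JJ_empty_left, mul_zero, mul_zero]
    · unfold bz
      rw [hu u h v.1]
  set JX : R → R → ZMod 2 := fun v w => ∑ ζ : VV n, ∑ ζ' : VV n,
    S.JJ (x (v, ζ)) (x (w, ζ')) with hJX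
  have h2 : ∑ u, ∑ v, bz Bd R u v * S.JJ (x u) (x v) = ∑ v, ∑ w, ψ w v * JX v w := by
    rw [Fintype.sum_prod_type]
    refine Finset.sum_congr rfl fun v _ => ?_
    calc ∑ ζ : VV n, ∑ u' : R × VV n, bz Bd R (v, ζ) u' * S.JJ (x (v, ζ)) (x u')
        = ∑ ζ : VV n, ∑ w : R, ∑ ζ' : VV n, ψ w v * S.JJ (x (v, ζ)) (x (w, ζ')) := by
          refine Finset.sum_congr rfl fun ζ _ => ?_
          rw [Fintype.sum_prod_type]
          exact Finset.sum_congr rfl fun w _ => Finset.sum_congr rfl fun ζ' _ =>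
            h1 (v, ζ) (w, ζ')
      _ = ∑ w : R, ∑ ζ : VV n, ∑ ζ' : VV n, ψ w v * S.JJ (x (v, ζ)) (x (w, ζ')) :=
          Finset.sum_comm
      _ = ∑ w, ψ w v * JX v w := by
          refine Finset.sum_congr rfl fun w _ => ?_
          rw [hJX, Finset.mul_sum]
          exact Finset.sum_congr rfl fun ζ _ => (Finset.mul_sum _ _ _).symm
  have h3 : ∀ v w : R, v ≠ w → JX v w + JX w v =
      (S.l ⬝ᵥ ∑ ζ : VV n, S.tys (x (v, ζ))) * (S.l ⬝ᵥ ∑ ζ : VV n, S.tys (x (w, ζ))) := by
    intro v w hvw
    have h4 : JX w v = ∑ ζ : VV n, ∑ ζ' : VV n, S.JJ (x (w, ζ')) (x (v, ζ)) := Finset.sum_comm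
    rw [h4, hJX, ← Finset.sum_add_distrib, dotProduct_sum, dotProduct_sum, Finset.sum_mul]
    refine Finset.sum_congr rfl fun ζ _ => ?_
    rw [← Finset.sum_add_distrib, Finset.mul_sum]
    refine Finset.sum_congr rfl fun ζ' _ => ?_
    exact S.JJ_recip (hx _ _ fun h => hvw (congrArg Prod.fst h))
  rw [h2, eph_sym (fun v w => ψ w v * JX v w) (fun v => by
    show ψ v v * JX v v = 0
    rw [hdiag, zero_mul])]
  unfold ph
  refine Finset.sum_congr rfl fun v _ => Finset.sum_congr rfl fun w _ => ?_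
  by_cases h : pos v < pos w
  · rw [if_pos h, if_pos h]
    have hvw : v ≠ w := by
      rintro rfl
      exact lt_irrefl _ h
    show ψ w v * JX v w + ψ v w * JX w v = _
    rw [hψ.sym v w, ← mul_add, h3 v w hvw]
  · rw [if_neg h, if_neg h]

end Pool.Agent.EV
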