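import Pool.Agent.EV.CPla

/-!
# Project T4 (MP_a3214d), even order, block C: limits of prime sums
-/

set_option autoImplicit false

open scoped BigOperators Topology
open Filter

namespace Pool.Agent.EV

open Pool.Agent.H98.MK (sg)
open Pool.Agent.H98.MF

/-! ### Abel summation -/

theorem cpl_countable (S : Pre) : Countable S.P := by
  have h : (Set.univ : Set S.P) = ⋃ X : ℕ, {p : S.P | S.N p ≤ X} := by
    ext p
    simp only [Set.mem_univ, Set.mem_iUnion, Set.mem_ofPred_eq, true_iff]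
    exact ⟨S.N p, le_rfl⟩
  have h2 : (Set.univ : Set S.P).Countable := by
    rw [h]
    exact Set.countable_iUnion fun X => (S.fin X).countable
  exact Set.countable_univ_iff.1 h2

/-- the integral representation of `n ^ (-s)` -/
theorem cpl_int (n s : ℝ) (hn : 1 ≤ n) (hs : 1 < s) :
    MeasureTheory.IntegrableOn (fun t : ℝ => if n ≤ t then s * t ^ (-s - 1) else 0) (Set.Ioi 1) ∧
      ∫ t in Set.Ioi (1 : ℝ), (if n ≤ t then s * t ^ (-s - 1) else 0) = n ^ (-s) := by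
  have hn0 : 0 < n := by linarith
  have e1 : (fun t : ℝ => if n ≤ t then s * t ^ (-s - 1) else 0) =
      (Set.Ici n).indicator (fun t : ℝ => s * t ^ (-s - 1)) := by
    ext t
    simp only [Set.indicator_apply, Set.mem_Ici]
  have hint : MeasureTheory.IntegrableOn (fun t : ℝ => s * t ^ (-s - 1)) (Set.Ioi n) :=
    (integrableOn_Ioi_rpow_of_lt (by linarith) hn0).const_mul s
  have hval : ∫ t in Set.Ioi n, s * t ^ (-s - 1) = n ^ (-s) := by
    rw [MeasureTheory.integral_const_mul, integral_Ioi_rpow_of_lt (by linarith) hn0]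
    have e2 : -s - 1 + 1 = -s := by ring
    rw [e2]
    field_simp
  rw [e1]
  constructor
  · have h1 : MeasureTheory.IntegrableOn (fun t : ℝ => s * t ^ (-s - 1)) (Set.Ici n) :=
      (integrableOn_Ici_iff_integrableOn_Ioi enorm_ne_top).2 hint
    exact (h1.integrable_indicator measurableSet_Ici).integrableOn
  · rw [MeasureTheory.setIntegral_indicator measurableSet_Ici]
    rcases eq_or_lt_of_le hn with h | h
    · have e3 : Set.Ioi (1 : ℝ) ∩ Set.Ici n = Set.Ioi n := by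
        rw [← h]
        ext t
        simp only [Set.mem_inter_iff, Set.mem_Ioi, Set.mem_Ici]
        constructor
        · exact fun h => h.1
        · exact fun h => ⟨h, h.le⟩
      rw [e3, hval]
    · have e3 : Set.Ioi (1 : ℝ) ∩ Set.Ici n = Set.Ici n := by
        ext t
        simp only [Set.mem_inter_iff, Set.mem_Ioi, Set.mem_Ici]
        constructor
        · exact fun h => h.2
        · exact fun h2 => ⟨lt_of_lt_of_le h h2, h2⟩
      rw [e3, MeasureTheory.integral_Ici_eq_integral_Ioi, hval]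

/-- Abel summation -/
theorem cpl_abel_eq (S : Pre) (χ : (S.P →₀ ℕ) → ℂ) (hχ : ∀ f, ‖χ f‖ ≤ 1) (C₀ : ℝ)
    (hC₀ : ∀ X : ℝ, 1 ≤ X → ((S.idl X).card : ℝ) ≤ C₀ * X) (s : ℝ) (hs : 1 < s) :
    MeasureTheory.IntegrableOn (fun t : ℝ => (∑ f ∈ S.idl t, χ f) *
      ((s * t ^ (-s - 1) : ℝ) : ℂ)) (Set.Ioi 1) ∧
    ∑' f : S.P →₀ ℕ, χ f * (((S.nf f : ℝ) ^ (-s) : ℝ) : ℂ) =
      ∫ t in Set.Ioi (1 : ℝ), (∑ f ∈ S.idl t, χ f) * ((s * t ^ (-s - 1) : ℝ) : ℂ) := by
  have hcP := cpl_countable S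
  have hone : ∀ f : S.P →₀ ℕ, (1 : ℝ) ≤ S.nf f := fun f => by exact_mod_cast S.nf_pos f
  let G : (S.P →₀ ℕ) → ℝ → ℂ := fun f t =>
    χ f * (((if (S.nf f : ℝ) ≤ t then s * t ^ (-s - 1) else 0 : ℝ)) : ℂ)
  have hGi : ∀ f, MeasureTheory.IntegrableOn (G f) (Set.Ioi 1) := fun f =>
    ((cpl_int _ s (hone f) hs).1.ofReal).const_mul (χ f)
  have hGv : ∀ f, ∫ t in Set.Ioi (1 : ℝ), G f t = χ f * (((S.nf f : ℝ) ^ (-s) : ℝ) : ℂ) := by
    intro f
    simp only [G]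
    rw [MeasureTheory.integral_const_mul, integral_complex_ofReal, (cpl_int _ s (hone f) hs).2]
  have hGn : ∀ f, ∫ t in Set.Ioi (1 : ℝ), ‖G f t‖ ≤ (S.nf f : ℝ) ^ (-s) := by
    intro f
    rw [← (cpl_int _ s (hone f) hs).2]
    refine MeasureTheory.setIntegral_mono_on (hGi f).norm (cpl_int _ s (hone f) hs).1
      measurableSet_Ioi ?_
    intro t ht
    have ht1 : 1 < t := ht
    have ht0 : 0 < t := by linarith
    have h2 : 0 ≤ (if (S.nf f : ℝ) ≤ t then s * t ^ (-s - 1) else 0) := by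
      split_ifs
      · positivity
      · exact le_rfl
    simp only [G]
    rw [norm_mul, Complex.norm_real, Real.norm_eq_abs, abs_of_nonneg h2]
    exact mul_le_of_le_one_left h2 (hχ f)
  have hsum : Summable fun f => ∫ t in Set.Ioi (1 : ℝ), ‖G f t‖ := by
    refine Summable.of_nonneg_of_le ?_ hGn (summable_nf S C₀ hC₀ s hs)
    intro f
    exact MeasureTheory.integral_nonneg fun t => norm_nonneg _
  have hHS := MeasureTheory.hasSum_integral_of_summable_integral_norm hGi hsum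
  have e1 : ∑' f : S.P →₀ ℕ, χ f * (((S.nf f : ℝ) ^ (-s) : ℝ) : ℂ) =
      ∫ t in Set.Ioi (1 : ℝ), ∑' f, G f t := by
    rw [← hHS.tsum_eq]
    exact tsum_congr fun f => (hGv f).symm
  have e2 : ∀ t : ℝ, ∑' f, G f t = (∑ f ∈ S.idl t, χ f) * ((s * t ^ (-s - 1) : ℝ) : ℂ) := by
    intro t
    rw [tsum_eq_sum (s := S.idl t)]
    · rw [Finset.sum_mul]
      refine Finset.sum_congr rfl fun f hf => ?_
      simp only [G]
      rw [if_pos (S.mem_idl.1 hf)]
    · intro f hf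
      simp only [G]
      rw [if_neg (fun h3 => hf (S.mem_idl.2 h3)), Complex.ofReal_zero, mul_zero]
  have hTs : ∀ t : ℝ, HasSum (fun f => G f t) (∑' f, G f t) := by
    intro t
    refine (summable_of_ne_finset_zero (s := S.idl t) ?_).hasSum
    intro f hf
    simp only [G]
    rw [if_neg (fun h3 => hf (S.mem_idl.2 h3)), Complex.ofReal_zero, mul_zero]
  have hTm : MeasureTheory.AEStronglyMeasurable (fun t : ℝ => ∑' f, G f t)
      (MeasureTheory.volume.restrict (Set.Ioi 1)) := by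
    refine aestronglyMeasurable_of_tendsto_ae (Filter.atTop : Filter (Finset (S.P →₀ ℕ)))
      (f := fun F t => ∑ f ∈ F, G f t) ?_ (Filter.Eventually.of_forall fun t => ?_)
    · intro F
      exact (MeasureTheory.integrable_finsetSum F fun f _ => hGi f).aestronglyMeasurable
    · exact hTs t
  have hCi : MeasureTheory.IntegrableOn (fun t : ℝ => C₀ * s * t ^ (-s)) (Set.Ioi 1) :=
    (integrableOn_Ioi_rpow_of_lt (by linarith) one_pos).const_mul (C₀ * s)
  have hTi : MeasureTheory.IntegrableOn (fun t : ℝ => ∑' f, G f t) (Set.Ioi 1) := by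
    refine MeasureTheory.Integrable.mono' hCi hTm ?_
    refine (MeasureTheory.ae_restrict_iff' measurableSet_Ioi).2 (Filter.Eventually.of_forall ?_)
    intro t ht
    have ht1 : 1 < t := ht
    have ht0 : 0 < t := by linarith
    have e3 : t ^ (-s) = t * t ^ (-s - 1) := by
      have : -s = 1 + (-s - 1) := by ring
      nth_rw 1 [this]
      rw [Real.rpow_add ht0, Real.rpow_one]
    have h6 : 0 ≤ s * t ^ (-s - 1) := by positivity
    rw [e2, e3, norm_mul, Complex.norm_real, Real.norm_eq_abs, abs_of_nonneg h6]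
    have h7 : ‖∑ f ∈ S.idl t, χ f‖ ≤ C₀ * t := by
      calc ‖∑ f ∈ S.idl t, χ f‖ ≤ ∑ f ∈ S.idl t, ‖χ f‖ := norm_sum_le _ _
        _ ≤ ∑ f ∈ S.idl t, (1 : ℝ) := Finset.sum_le_sum fun f _ => hχ f
        _ = ((S.idl t).card : ℝ) := by simp
        _ ≤ C₀ * t := hC₀ t ht1.le
    calc _ ≤ (C₀ * t) * (s * t ^ (-s - 1)) := mul_le_mul_of_nonneg_right h7 h6
      _ = _ := by ring
  rw [e1]
  simp only [e2] at hTi ⊢
  exact ⟨hTi, trivial⟩

/-- the limit of a series with small partial sums -/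
theorem cpl_abel (S : Pre) (χ : (S.P →₀ ℕ) → ℂ) (hχ : ∀ f, ‖χ f‖ ≤ 1) (C₀ : ℝ)
    (hC₀ : ∀ X : ℝ, 1 ≤ X → ((S.idl X).card : ℝ) ≤ C₀ * X) (C δ : ℝ) (hδ : 0 < δ)
    (h : ∀ X : ℝ, 1 ≤ X → ‖∑ f ∈ S.idl X, χ f‖ ≤ C * X ^ (1 - δ)) :
    ∃ L : ℂ, Tendsto (fun σ : ℝ => ∑' f : S.P →₀ ℕ, χ f *
      (((S.nf f : ℝ) ^ (-(1 + σ)) : ℝ) : ℂ)) (𝓝[>] 0) (𝓝 L) := by
  have hC : 0 ≤ C := by
    have h1 := h 1 le_rfl
    rw [Real.one_rpow, mul_one] at h1
    exact (norm_nonneg _).trans h1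
  refine ⟨∫ t in Set.Ioi (1 : ℝ), (∑ f ∈ S.idl t, χ f) *
    (((1 + (0 : ℝ)) * t ^ (-(1 + (0 : ℝ)) - 1) : ℝ) : ℂ), ?_⟩
  have hlim : Tendsto (fun σ : ℝ => ∫ t in Set.Ioi (1 : ℝ), (∑ f ∈ S.idl t, χ f) *
      (((1 + σ) * t ^ (-(1 + σ) - 1) : ℝ) : ℂ)) (𝓝[>] 0)
      (𝓝 (∫ t in Set.Ioi (1 : ℝ), (∑ f ∈ S.idl t, χ f) *
        (((1 + (0 : ℝ)) * t ^ (-(1 + (0 : ℝ)) - 1) : ℝ) : ℂ))) := by
    refine MeasureTheory.tendsto_integral_filter_of_dominated_convergence
      (fun t : ℝ => C * 2 * t ^ (-1 - δ)) ?_ ?_ ?_ ?_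
    · filter_upwards [self_mem_nhdsWithin] with σ hσ
      have hσ0 : (0 : ℝ) < σ := hσ
      exact (cpl_abel_eq S χ hχ C₀ hC₀ (1 + σ) (by linarith)).1.aestronglyMeasurable
    · filter_upwards [Ioo_mem_nhdsGT (show (0 : ℝ) < 1 by norm_num)] with σ hσ
      refine (MeasureTheory.ae_restrict_iff' measurableSet_Ioi).2
        (Filter.Eventually.of_forall ?_)
      intro t ht
      have ht1 : 1 < t := ht
      have ht0 : 0 < t := by linarith
      have h6 : 0 ≤ (1 + σ) * t ^ (-(1 + σ) - 1) := by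
        have := hσ.1
        positivity
      rw [norm_mul, Complex.norm_real, Real.norm_eq_abs, abs_of_nonneg h6]
      have h7 : (1 + σ) * t ^ (-(1 + σ) - 1) ≤ 2 * t ^ (-2 : ℝ) := by
        refine mul_le_mul (by linarith [hσ.2]) ?_ (Real.rpow_nonneg ht0.le _) (by norm_num)
        exact Real.rpow_le_rpow_of_exponent_le ht1.le (by linarith [hσ.1])
      have e4 : t ^ (-1 - δ) = t ^ (1 - δ) * t ^ (-2 : ℝ) := by
        rw [← Real.rpow_add ht0]
        congr 1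
        ring
      calc _ ≤ (C * t ^ (1 - δ)) * (2 * t ^ (-2 : ℝ)) :=
            mul_le_mul (h t ht1.le) h7 h6 (mul_nonneg hC (Real.rpow_nonneg ht0.le _))
        _ = _ := by rw [e4]; ring
    · exact (integrableOn_Ioi_rpow_of_lt (by linarith) one_pos).const_mul (C * 2)
    · refine (MeasureTheory.ae_restrict_iff' measurableSet_Ioi).2
        (Filter.Eventually.of_forall ?_)
      intro t ht
      have ht1 : 1 < t := ht
      have ht0 : t ≠ 0 := by linarith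
      have h5 : Continuous fun σ : ℝ => (1 + σ) * t ^ (-(1 + σ) - 1) :=
        Continuous.mul (by fun_prop) (Continuous.rpow continuous_const (by fun_prop)
          fun σ => Or.inl ht0)
      have h6 : Continuous fun σ : ℝ => (∑ f ∈ S.idl t, χ f) *
          (((1 + σ) * t ^ (-(1 + σ) - 1) : ℝ) : ℂ) :=
        continuous_const.mul (Complex.continuous_ofReal.comp h5)
      exact tendsto_nhdsWithin_of_tendsto_nhds (h6.tendsto 0)
  refine hlim.congr' ?_
  filter_upwards [self_mem_nhdsWithin] with σ hσ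
  have hσ0 : (0 : ℝ) < σ := hσ
  exact ((cpl_abel_eq S χ hχ C₀ hC₀ (1 + σ) (by linarith)).2).symm

/-! ### the theorem -/

theorem cpl_sg_cases (a : ZMod 2) : sg a = 1 ∨ sg a = -1 := by
  revert a
  decide

theorem cpl_sg_norm (a : ZMod 2) : ‖((sg a : ℤ) : ℂ)‖ = 1 := by
  rcases cpl_sg_cases a with h | h <;> rw [h] <;> simp

theorem cpl_sg_add (a b : ZMod 2) : sg (a + b) = sg a * sg b := by
  revert a b
  decide

theorem cpl_sg_mul (k : ℕ) (a : ZMod 2) : ((sg ((k : ZMod 2) * a) : ℤ) : ℂ) =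
    ((sg a : ℤ) : ℂ) ^ k := by
  induction k with
  | zero =>
    rw [Nat.cast_zero, zero_mul, pow_zero]
    have h : sg (0 : ZMod 2) = 1 := by decide
    rw [h]
    simp
  | succ k ih => rw [Nat.cast_succ, add_mul, one_mul, cpl_sg_add, Int.cast_mul, ih, pow_succ]

theorem cpl_sg_sum {ι : Type} (s : Finset ι) (f : ι → ZMod 2) :
    ((sg (∑ i ∈ s, f i) : ℤ) : ℂ) = ∏ i ∈ s, ((sg (f i) : ℤ) : ℂ) := by
  classical
  induction s using Finset.induction_on with
  | empty =>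
    rw [Finset.sum_empty, Finset.prod_empty]
    have h : sg (0 : ZMod 2) = 1 := by decide
    rw [h]
    simp
  | insert a s ha ih => rw [Finset.sum_insert ha, Finset.prod_insert ha, cpl_sg_add,
      Int.cast_mul, ih]

theorem cpl_card (S : Sys) : ∃ C₀ : ℝ, ∀ X : ℝ, 1 ≤ X →
    ((S.toPre.idl X).card : ℝ) ≤ C₀ * X := by
  refine ⟨S.κ + S.C, fun X hX => ?_⟩
  have h1 := S.cnt X hX
  rw [abs_le] at h1
  have h2 : X ^ (1 - S.δ) ≤ X := by
    calc X ^ (1 - S.δ) ≤ X ^ (1 : ℝ) :=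
          Real.rpow_le_rpow_of_exponent_le hX (by linarith [S.δ_pos])
      _ = X := Real.rpow_one X
  have h3 : S.C * X ^ (1 - S.δ) ≤ S.C * X := mul_le_mul_of_nonneg_left h2 S.C_nonneg
  linarith [h1.2]

/-- the first part -/
theorem cpl_one (S : Sys) :
    ∃ L : ℝ, Tendsto (fun σ : ℝ => ∑' p : S.P, (S.N p : ℝ) ^ (-(1 + σ)) - Real.log (1 / σ))
      (𝓝[>] 0) (𝓝 L) := by
  obtain ⟨C₀, hC₀⟩ := cpl_card S
  set x : S.P → ℂ := fun _ => 1 with hx
  have hx1 : ∀ p, ‖x p‖ ≤ 1 := fun p => by rw [hx]; simp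
  have hg := cpl_g_lim S.toPre C₀ hC₀ hx1
  set g1 : ℂ := ∑' p, cpl_g (cpl_u S.toPre x 1 p) with hg1
  set Z : ℝ → ℝ := fun σ => ∑' f : S.P →₀ ℕ, (S.toPre.nf f : ℝ) ^ (-(1 + σ)) with hZ
  -- the zeta function
  have hL : ∀ σ : ℝ, cpl_L S.toPre x (1 + σ) = (Z σ : ℂ) := by
    intro σ
    unfold cpl_L
    rw [hZ]
    simp only
    rw [Complex.ofReal_tsum]
    refine tsum_congr fun f => ?_
    have h1 : (f.prod fun p n => x p ^ n) = 1 := by
      unfold Finsupp.prod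
      exact Finset.prod_eq_one fun p _ => by rw [hx]; simp
    rw [h1, one_mul]
  have hu : ∀ σ : ℝ, ∑' p, cpl_u S.toPre x (1 + σ) p =
      ((∑' p : S.P, (S.N p : ℝ) ^ (-(1 + σ)) : ℝ) : ℂ) := by
    intro σ
    rw [Complex.ofReal_tsum]
    refine tsum_congr fun p => ?_
    unfold cpl_u
    rw [hx]
    simp only
    rw [one_mul]
  have hZpos : ∀ σ : ℝ, 0 < σ → 0 < Z σ ∧ Real.log (Z σ) =
      ∑' p : S.P, (S.N p : ℝ) ^ (-(1 + σ)) +
        (∑' p, cpl_g (cpl_u S.toPre x (1 + σ) p)).re := by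
    intro σ hσ
    have h1 := cpl_euler S.toPre C₀ hC₀ hx1 (show 1 < 1 + σ by linarith)
    rw [hL, hu] at h1
    have h2 : ‖(Z σ : ℂ)‖ = Real.exp (∑' p : S.P, (S.N p : ℝ) ^ (-(1 + σ)) +
        (∑' p, cpl_g (cpl_u S.toPre x (1 + σ) p)).re) := by
      rw [h1, Complex.norm_exp]
      congr 1
    have h3 : 0 ≤ Z σ := tsum_nonneg fun f => Real.rpow_nonneg (Nat.cast_nonneg _) _
    rw [Complex.norm_real, Real.norm_eq_abs, abs_of_nonneg h3] at h2
    refine ⟨by rw [h2]; exact Real.exp_pos _, ?_⟩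
    rw [h2, Real.log_exp]
  -- the pole
  have hpole : Tendsto (fun σ : ℝ => σ * Z σ) (𝓝[>] 0) (𝓝 S.κ) := by
    have hb : ∀ σ : ℝ, 0 < σ → σ ≤ 1 → |σ * Z σ - S.κ * (1 + σ)| ≤ σ * (2 * S.C / S.δ) := by
      intro σ hσ hσ1
      have h1 := abel_nf S.toPre (fun _ => 1) (fun _ => by simp) C₀ hC₀ S.κ S.C S.δ S.δ_pos
        S.δ_le (fun X hX => by simpa using S.cnt X hX) (1 + σ) (by linarith) (by linarith)
      simp only [one_mul] at h1
      have h2 : σ * Z σ - S.κ * (1 + σ) = σ * (Z σ - S.κ * (1 + σ) / (1 + σ - 1)) := by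
        have h3 : 1 + σ - 1 = σ := by ring
        rw [h3]
        field_simp
      rw [h2, abs_mul, abs_of_pos hσ]
      exact mul_le_mul_of_nonneg_left h1 hσ.le
    have h4 : Tendsto (fun σ : ℝ => σ * Z σ - S.κ * (1 + σ)) (𝓝[>] 0) (𝓝 0) := by
      have h5 : Tendsto (fun σ : ℝ => σ * (2 * S.C / S.δ)) (𝓝[>] 0) (𝓝 0) := by
        have h6 : Tendsto (fun σ : ℝ => σ * (2 * S.C / S.δ)) (𝓝 0)
            (𝓝 (0 * (2 * S.C / S.δ))) := (continuous_id.mul continuous_const).tendsto 0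
        rw [zero_mul] at h6
        exact tendsto_nhdsWithin_of_tendsto_nhds h6
      refine squeeze_zero_norm' ?_ h5
      filter_upwards [Ioo_mem_nhdsGT (show (0 : ℝ) < 1 by norm_num)] with σ hσ
      rw [Real.norm_eq_abs]
      exact hb σ hσ.1 hσ.2.le
    have h7 : Tendsto (fun σ : ℝ => S.κ * (1 + σ)) (𝓝[>] 0) (𝓝 S.κ) := by
      have h8 : Tendsto (fun σ : ℝ => S.κ * (1 + σ)) (𝓝 0) (𝓝 (S.κ * (1 + 0))) :=
        (Continuous.tendsto (by fun_prop) 0)
      rw [add_zero, mul_one] at h8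
      exact tendsto_nhdsWithin_of_tendsto_nhds h8
    have h9 := h4.add h7
    rw [zero_add] at h9
    refine h9.congr fun σ => ?_
    ring
  have hlog : Tendsto (fun σ : ℝ => Real.log (σ * Z σ)) (𝓝[>] 0) (𝓝 (Real.log S.κ)) :=
    hpole.log S.κ_pos.ne'
  have hre : Tendsto (fun σ : ℝ => (∑' p, cpl_g (cpl_u S.toPre x (1 + σ) p)).re) (𝓝[>] 0)
      (𝓝 g1.re) := (Complex.continuous_re.tendsto _).comp hg
  refine ⟨Real.log S.κ - g1.re, (hlog.sub hre).congr' ?_⟩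
  filter_upwards [self_mem_nhdsWithin] with σ hσ
  have hσ0 : (0 : ℝ) < σ := hσ
  obtain ⟨h1, h2⟩ := hZpos σ hσ0
  rw [Real.log_mul hσ0.ne' h1.ne', h2, one_div, Real.log_inv]
  ring

/-- the second part -/
theorem cpl_chr (S : Sys) (c : S.T) (hc : c ≠ 0) :
    ∃ L : ℝ, Tendsto (fun σ : ℝ =>
      ∑' p : S.P, ((sg (c ⬝ᵥ S.ty p) : ℤ) : ℝ) * (S.N p : ℝ) ^ (-(1 + σ))) (𝓝[>] 0) (𝓝 L) := by
  classical
  obtain ⟨C₀, hC₀⟩ := cpl_card S
  obtain ⟨K, hK⟩ := S.prm ∅ c (Or.inr hc)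
  set x : S.P → ℂ := fun p => ((sg (c ⬝ᵥ S.ty p) : ℤ) : ℂ) with hx
  have hx1 : ∀ p, ‖x p‖ ≤ 1 := fun p => by
    rw [hx]
    exact (cpl_sg_norm _).le
  have hg := cpl_g_lim S.toPre C₀ hC₀ hx1
  set g1 : ℂ := ∑' p, cpl_g (cpl_u S.toPre x 1 p) with hg1
  obtain ⟨L1, hL1⟩ := cpl_abel S.toPre (fun f => f.prod fun p n => x p ^ n)
    (cpl_prod_le S.toPre hx1) C₀ hC₀ S.C S.δ S.δ_pos (by
      intro X hX
      have h1 := S.chr ∅ c (Or.inr hc) X hX
      have h2 : ∀ f : S.P →₀ ℕ, ((S.toPre.chv ∅ (fun p => ∑ q ∈ (∅ : Finset S.P), S.J q p +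
          c ⬝ᵥ S.ty p) f : ℤ) : ℂ) = f.prod fun p n => x p ^ n := by
        intro f
        unfold Pre.chv
        rw [if_pos (Finset.disjoint_empty_right _)]
        unfold Finsupp.prod Finsupp.sum
        rw [cpl_sg_sum]
        refine Finset.prod_congr rfl fun p _ => ?_
        beta_reduce
        rw [Finset.sum_empty, zero_add, cpl_sg_mul]
      have h3 : S.toPre.nm ∅ = 1 := by unfold Pre.nm; simp
      rw [h3, Nat.cast_one, Real.one_rpow, mul_one] at h1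
      refine le_trans (le_of_eq ?_) h1
      rw [← Real.norm_eq_abs, ← Complex.norm_real]
      congr 1
      rw [Complex.ofReal_sum]
      refine Finset.sum_congr rfl fun f _ => ?_
      rw [← h2 f, Complex.ofReal_intCast])
  have hL : ∀ σ : ℝ, ∑' f : S.P →₀ ℕ, (f.prod fun p n => x p ^ n) *
      (((S.toPre.nf f : ℝ) ^ (-(1 + σ)) : ℝ) : ℂ) = cpl_L S.toPre x (1 + σ) := fun σ => rfl
  simp only [hL] at hL1
  set Gs : ℝ → ℂ := fun σ => ∑' p, cpl_g (cpl_u S.toPre x (1 + σ) p) with hGs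
  set Ss : ℝ → ℝ := fun σ => ∑' p : S.P, ((sg (c ⬝ᵥ S.ty p) : ℤ) : ℝ) *
    (S.N p : ℝ) ^ (-(1 + σ)) with hSs
  have hSu : ∀ σ : ℝ, ∑' p, cpl_u S.toPre x (1 + σ) p = ((Ss σ : ℝ) : ℂ) := by
    intro σ
    rw [hSs]
    simp only
    rw [Complex.ofReal_tsum]
    refine tsum_congr fun p => ?_
    unfold cpl_u
    rw [hx]
    simp only
    push_cast
    rfl
  have heul : ∀ σ : ℝ, 0 < σ → ‖cpl_L S.toPre x (1 + σ)‖ = Real.exp (Ss σ + (Gs σ).re) := by
    intro σ hσ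
    rw [cpl_euler S.toPre C₀ hC₀ hx1 (show 1 < 1 + σ by linarith), hSu, Complex.norm_exp,
      Complex.add_re, Complex.ofReal_re]
  -- the value at one is not zero
  have hne : L1 ≠ 0 := by
    set K2 : ℝ := ∑' p : S.P, (S.N p : ℝ) ^ (-2 : ℝ) with hK2
    have h1 : ∀ᶠ σ in 𝓝[>] (0 : ℝ), Real.exp (-K - K2) ≤ ‖cpl_L S.toPre x (1 + σ)‖ := by
      filter_upwards [Ioo_mem_nhdsGT (show (0 : ℝ) < 1 by norm_num)] with σ hσ
      rw [heul σ hσ.1]
      refine Real.exp_le_exp.2 ?_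
      have h2 : |Ss σ| ≤ K := by
        refine le_trans (le_of_eq ?_) (hK (1 + σ) (by linarith [hσ.1]) (by linarith [hσ.2]))
        congr 1
        refine tsum_congr fun p => ?_
        unfold Pre.chp
        rw [if_neg (Finset.notMem_empty p)]
        beta_reduce
        rw [Finset.sum_empty, zero_add]
      have h3 : ‖Gs σ‖ ≤ K2 := by
        have hs1 : (1 : ℝ) ≤ 1 + σ := by linarith [hσ.1]
        refine (norm_tsum_le_tsum_norm (cpl_sum_g S.toPre C₀ hC₀ hx1 hs1).norm).trans ?_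
        exact (cpl_sum_g S.toPre C₀ hC₀ hx1 hs1).norm.tsum_le_tsum
          (cpl_gu_le S.toPre hx1 hs1) (pre_summable_N S.toPre C₀ hC₀ 2 (by norm_num))
      have h5 := Complex.abs_re_le_norm (Gs σ)
      rw [abs_le] at h2 h5
      linarith [h2.1, h5.1]
    have h6 : Real.exp (-K - K2) ≤ ‖L1‖ := ge_of_tendsto hL1.norm h1
    intro h7
    rw [h7, norm_zero] at h6
    linarith [Real.exp_pos (-K - K2)]
  have hlog : Tendsto (fun σ : ℝ => Real.log ‖cpl_L S.toPre x (1 + σ)‖) (𝓝[>] 0)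
      (𝓝 (Real.log ‖L1‖)) := hL1.norm.log (norm_ne_zero_iff.2 hne)
  have hre : Tendsto (fun σ : ℝ => (Gs σ).re) (𝓝[>] 0) (𝓝 g1.re) :=
    (Complex.continuous_re.tendsto _).comp hg
  refine ⟨Real.log ‖L1‖ - g1.re, (hlog.sub hre).congr' ?_⟩
  filter_upwards [self_mem_nhdsWithin] with σ hσ
  have hσ0 : (0 : ℝ) < σ := hσ
  rw [heul σ hσ0, Real.log_exp]
  ring

/-- limits of prime sums -/
theorem spl : SPl := by
  intro S
  exact ⟨cpl_one S, fun c hc => cpl_chr S c hc⟩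

end Pool.Agent.EV
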