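import Pool.Agent.EV.CFin2
import Pool.Agent.D8.BFb
import Pool.Agent.H98.MF.SCount

/-!
# Project T4 (MP_a3214d), even order, block C, row C22a: the uniform bound for the number of pairs
of families, the central vectors being in a nonempty set (SUnA)
-/

set_option autoImplicit false

open scoped BigOperators Topology
open Filter

namespace Pool.Agent.EV

open Pool.Agent.H98.MK (sg)
open Pool.Agent.H98.MF
open Pool.Agent.H32.MQ (El)
open Pool.Agent.D8 (pat Tk ls ad)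

section

variable {S : Sys}

private theorem cuna_half (p : S.P) : 0 ≤ (S.N p : ℝ) ^ (-(1 / 2) : ℝ) ∧
    (S.N p : ℝ) ^ (-(1 / 2) : ℝ) ≤ 1 :=
  ⟨Real.rpow_nonneg (Nat.cast_nonneg _) _,
    Real.rpow_le_one_of_one_le_of_nonpos (by exact_mod_cast S.one_le_N p) (by norm_num)⟩

private theorem cuna_lo (A0 : ℝ) (hA : 0 ≤ A0) (y : Finset S.P) : 1 ≤ lo A0 y := by
  unfold lo
  refine Finset.one_le_prod (fun p _ => ?_)
  have := mul_nonneg hA (cuna_half p).1
  linarith

private theorem cuna_ty (ι : Type) [Fintype ι] (y : Finset S.P) : 0 ≤ ty0 ι y ∧ ty0 ι y ≤ 1 := by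
  unfold ty0
  have h : ∀ p : S.P, (1 : ℝ) ≤ 1 + (Fintype.card ι : ℝ) / (S.N p : ℝ) := fun p => by
    have : 0 ≤ (Fintype.card ι : ℝ) / (S.N p : ℝ) := by positivity
    linarith
  refine ⟨Finset.prod_nonneg fun p _ => inv_nonneg.2 (by linarith [h p]), ?_⟩
  exact Finset.prod_le_one (fun p _ => inv_nonneg.2 (by linarith [h p]))
    fun p _ => inv_le_one_of_one_le₀ (h p)

/-- the number of the central families -/
private theorem cuna_cc (h : SCc) (S : Sys) (ι : Type) [Fintype ι] [Nonempty ι] :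
    ∃ A0 C : ℝ, 0 ≤ A0 ∧ 0 ≤ C ∧ ∀ (y : Finset S.P) (t : ℝ), 1 ≤ t →
      CC (ι := ι) y (fun _ => 1) t ≤
        C * lo A0 y * t * (1 + Real.log t) ^ (Fintype.card ι - 1) := by
  classical
  obtain ⟨κ1, A0, C, hκ, hA, hC, h⟩ := h S ι
  set k : ℝ := κ1 * ((1 / ((2 : ℝ) ^ S.m) ^ Fintype.card ι) * ∑ _t : ι → S.T, (1 : ℝ)) with hk
  have hk0 : 0 ≤ k := by
    refine mul_nonneg hκ.le (mul_nonneg (by positivity) (Finset.sum_nonneg fun _ _ => zero_le_one))
  refine ⟨A0, k + C, hA, by linarith, fun y t ht => ?_⟩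
  have h1 := (abs_le.1 (h y (fun _ => 1) (fun _ => by rw [abs_one]) t ht)).2
  have hL : 0 ≤ Real.log t := Real.log_nonneg ht
  have ht0 : 0 ≤ t := by linarith
  have h2 : Real.log t ^ (Fintype.card ι - 1) ≤ (1 + Real.log t) ^ (Fintype.card ι - 1) :=
    pow_le_pow_left₀ hL (by linarith) _
  have h3 : (1 + Real.log t) ^ ((Fintype.card ι : ℝ) - 3 / 2) ≤
      (1 + Real.log t) ^ (Fintype.card ι - 1) := by
    rw [← Real.rpow_natCast]
    refine Real.rpow_le_rpow_of_exponent_le (by linarith) ?_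
    rw [Nat.cast_sub Fintype.card_pos]
    push_cast
    linarith
  have h4 := cuna_lo A0 hA y
  obtain ⟨h5, h6⟩ := cuna_ty ι y
  have h7 : (0 : ℝ) ≤ (1 + Real.log t) ^ (Fintype.card ι - 1) := pow_nonneg (by linarith) _
  have h8 : k * ty0 ι y * (t * Real.log t ^ (Fintype.card ι - 1)) ≤
      k * lo A0 y * (t * (1 + Real.log t) ^ (Fintype.card ι - 1)) := by
    refine mul_le_mul (mul_le_mul_of_nonneg_left (by linarith) hk0)
      (mul_le_mul_of_nonneg_left h2 ht0) (mul_nonneg ht0 (pow_nonneg hL _))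
      (mul_nonneg hk0 (by linarith))
  have h9 : C * lo A0 y * t * (1 + Real.log t) ^ ((Fintype.card ι : ℝ) - 3 / 2) ≤
      C * lo A0 y * t * (1 + Real.log t) ^ (Fintype.card ι - 1) :=
    mul_le_mul_of_nonneg_left h3 (mul_nonneg (mul_nonneg hC (by linarith)) ht0)
  have h10 : CC (ι := ι) y (fun _ => 1) t ≤ k * ty0 ι y * (t * Real.log t ^ (Fintype.card ι - 1)) +
      C * lo A0 y * t * (1 + Real.log t) ^ ((Fintype.card ι : ℝ) - 3 / 2) := by
    linarith
  calc _ ≤ _ := h10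
    _ ≤ k * lo A0 y * (t * (1 + Real.log t) ^ (Fintype.card ι - 1)) +
        C * lo A0 y * t * (1 + Real.log t) ^ (Fintype.card ι - 1) := add_le_add h8 h9
    _ = _ := by ring

/-- products over the primes of a family -/
private theorem cuna_un {ι : Type} [Fintype ι] {x : ι → Finset S.P} (hx : S.Dj x) (f : S.P → ℝ) :
    ∏ p ∈ un x, f p = ∏ u, ∏ p ∈ x u, f p := by
  classical
  unfold un
  exact Finset.prod_biUnion fun i _ j _ hij => hx i j hij

private theorem cuna_tk {A0 : ℝ} (hA : 0 ≤ A0) :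
    Tk S A0 (fun p => 1 + A0 * (S.N p : ℝ) ^ (-(1 / 2) : ℝ)) := by
  intro p
  have h := mul_nonneg hA (cuna_half p).1
  refine ⟨by show 0 ≤ 1 + A0 * (S.N p : ℝ) ^ (-(1 / 2) : ℝ); linarith, ?_⟩
  show |1 + A0 * (S.N p : ℝ) ^ (-(1 / 2) : ℝ) - 1| ≤ _
  rw [add_sub_cancel_left, abs_of_nonneg h]

/-- summability of the masses -/
private theorem cuna_sum (n : ℕ) (ι : Type) [Fintype ι] {A0 : ℝ} (hA : 0 ≤ A0) {s : ℝ}
    (hs : 1 < s) : Summable fun x : ι → Finset S.P => ∏ u, ∏ p ∈ x u,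
      ((2 : ℝ) ^ n * (1 + A0 * (S.N p : ℝ) ^ (-(1 / 2) : ℝ)) * (S.N p : ℝ) ^ (-s)) := by
  have h0 : ∀ p : S.P, 0 ≤ (2 : ℝ) ^ n * (1 + A0 * (S.N p : ℝ) ^ (-(1 / 2) : ℝ)) *
      (S.N p : ℝ) ^ (-s) := fun p =>
    mul_nonneg (mul_nonneg (by positivity) (by
      have := mul_nonneg hA (cuna_half p).1
      linarith)) (Real.rpow_nonneg (Nat.cast_nonneg _) _)
  have h1 : Summable fun p : S.P => (2 : ℝ) ^ n * (1 + A0 * (S.N p : ℝ) ^ (-(1 / 2) : ℝ)) *
      (S.N p : ℝ) ^ (-s) := by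
    have h2 := (summable_N S s hs).mul_left ((2 : ℝ) ^ n * (1 + A0))
    refine Summable.of_nonneg_of_le h0 (fun p => ?_) h2
    refine mul_le_mul_of_nonneg_right ?_ (Real.rpow_nonneg (Nat.cast_nonneg _) _)
    refine mul_le_mul_of_nonneg_left ?_ (by positivity)
    have := mul_le_mul_of_nonneg_left (cuna_half p).2 hA
    linarith
  refine Pool.Agent.D8.prod_pi_summable (fun _ : ι => fun x : Finset S.P => ∏ p ∈ x,
    ((2 : ℝ) ^ n * (1 + A0 * (S.N p : ℝ) ^ (-(1 / 2) : ℝ)) * (S.N p : ℝ) ^ (-s)))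
    (fun _ x => Finset.prod_nonneg fun p _ => h0 p) fun _ => ?_
  exact summable_finsetProd_of_summable_norm h1.norm

/-- powers of the norm of a family -/
private theorem cuna_nm {ι : Type} [Fintype ι] (x : ι → Finset S.P) (s : ℝ) :
    ((∏ u, S.nm (x u) : ℕ) : ℝ) ^ (-s) = ∏ u, ∏ p ∈ x u, (S.N p : ℝ) ^ (-s) := by
  rw [Nat.cast_prod, ← Real.finsetProd_rpow Finset.univ _ (fun _ _ => Nat.cast_nonneg _) _]
  refine Finset.prod_congr rfl fun u _ => ?_
  unfold Pre.nm
  rw [Nat.cast_prod]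
  exact (Real.finsetProd_rpow (x u) _ (fun _ _ => Nat.cast_nonneg _) _).symm

end

/-- **Row C22a.** The uniform bound for a nonempty set of central vectors. -/
theorem suna (h1 : SUni) (h2 : SCc) : SUnA := by
  classical
  intro S d n Bd R A ε hne hε
  have : Nonempty A := hne.to_subtype
  obtain ⟨A0, C1, hA, hC1, hcc⟩ := cuna_cc h2 S A
  obtain ⟨C2, hC2, huni⟩ := h1 S d n Bd R A0 ε hε
  have hcard : Fintype.card A = A.card := Fintype.card_coe _
  have hr1 : 1 ≤ A.card := hne.card_pos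
  set r : ℕ := A.card with hr
  set K : ℝ := 1 + 1 / Real.log 2 with hK
  have hl2 : 0 < Real.log 2 := Real.log_pos one_lt_two
  have hK1 : 1 ≤ K := by
    have : 0 < 1 / Real.log 2 := by positivity
    linarith
  set τ : S.P → ℝ := fun p => 1 + A0 * (S.N p : ℝ) ^ (-(1 / 2) : ℝ) with hτ
  have hTk : Tk S A0 τ := cuna_tk hA
  refine ⟨C1 * Real.exp 1 * C2 * K ^ (R.card * 2 ^ n + r), by positivity, ?_⟩
  intro c M Φ hc hsub hG Y hY
  have hY1 : 1 ≤ Y := by linarith
  have hY0 : 0 < Y := by linarith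
  set L : ℝ := Real.log Y with hL
  have hL0 : 0 ≤ L := Real.log_nonneg hY1
  set σ : ℝ := 1 / (1 + L) with hσ
  have h1L : 0 < 1 + L := by linarith
  have hσ0 : 0 < σ := by positivity
  have hσ1 : σ ≤ 1 := by
    rw [hσ, div_le_one h1L]
    linarith
  have hb : bV Bd R c ≤ R.card * 2 ^ n := by
    unfold bV
    refine (Finset.sum_le_card_nsmul _ _ (2 ^ n) fun v _ => ?_).trans (by rw [smul_eq_mul])
    unfold nv
    refine (Finset.card_le_univ _).trans ?_
    rw [Fintype.card_fun, Fintype.card_fin, ZMod.card]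
  -- the terms
  set G : (R → Finset S.P) → ℝ := fun x =>
    if S.Dj x ∧ Off S M x ∧ okc Bd R c x ∧ Φ (pat x)
    then (fun _ : R → S.T => (1 : ℝ)) (fun v => S.tys (x v)) *
      ∏ v, ∏ p ∈ x v, ((2 : ℝ) ^ n * τ p * (S.N p : ℝ) ^ (-(1 + σ))) else 0 with hGd
  have hpr0 : ∀ x : R → Finset S.P,
      0 ≤ ∏ v, ∏ p ∈ x v, ((2 : ℝ) ^ n * τ p * (S.N p : ℝ) ^ (-(1 + σ))) := fun x =>
    Finset.prod_nonneg fun v _ => Finset.prod_nonneg fun p _ =>
      mul_nonneg (mul_nonneg (by positivity) (hTk p).1) (Real.rpow_nonneg (Nat.cast_nonneg _) _)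
  have hG0 : ∀ x, 0 ≤ G x := fun x => by
    show 0 ≤ (if _ then _ else _ : ℝ)
    split_ifs
    · rw [one_mul]
      exact hpr0 x
    · exact le_rfl
  have hGs : Summable G := by
    refine Summable.of_nonneg_of_le hG0 (fun x => ?_)
      (cuna_sum (S := S) n R hA (s := 1 + σ) (by linarith))
    show (if _ then _ else _ : ℝ) ≤ _
    split_ifs
    · rw [one_mul]
    · exact hpr0 x
  have hFF : ∑' x, G x = FF Bd R c M Φ (fun _ => 1) τ (1 + σ) := rfl
  have hlog1 : 0 ≤ (1 + L) ^ (r - 1) := pow_nonneg h1L.le _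
  have key : ∀ x ∈ Fintype.piFinset (fun _ : R => S.bx Y),
      (if S.Dj x ∧ Off S M x ∧ okc Bd R c x ∧ Φ (pat x) ∧ ((∏ u, S.nm (x u) : ℕ) : ℝ) ≤ Y
      then ((2 : ℝ) ^ n) ^ (un x).card * CC (un x) (fun _ : A → S.T => 1)
        (Y / (∏ u, S.nm (x u) : ℕ))
      else 0) ≤ C1 * Real.exp 1 * Y * (1 + L) ^ (r - 1) * G x := by
    intro x _
    have hc0 : 0 ≤ C1 * Real.exp 1 * Y * (1 + L) ^ (r - 1) := by positivity
    split_ifs with hx
    · obtain ⟨hx1, hx2, hx3, hx4, hx5⟩ := hx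
      have hGx : G x = ∏ v, ∏ p ∈ x v, ((2 : ℝ) ^ n * τ p * (S.N p : ℝ) ^ (-(1 + σ))) := by
        show (if _ then _ else _ : ℝ) = _
        rw [if_pos ⟨hx1, hx2, hx3, hx4⟩, one_mul]
      set m : ℕ := ∏ u, S.nm (x u) with hm
      have hm0 : 0 < (m : ℝ) := by
        have : 0 < m := Finset.prod_pos fun u _ => Finset.prod_pos fun p _ => S.one_le_N p
        exact_mod_cast this
      have ht1 : 1 ≤ Y / m := by
        rw [le_div_iff₀ hm0]
        linarith
      have hm1 : (1 : ℝ) ≤ m := by exact_mod_cast Nat.succ_le_of_lt (by exact_mod_cast hm0)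
      have hlt : 1 + Real.log (Y / m) ≤ 1 + L := by
        have : Y / m ≤ Y := div_le_self hY0.le hm1
        have := Real.log_le_log (by linarith) this
        linarith
      have hl0 : 0 ≤ 1 + Real.log (Y / m) := by
        have := Real.log_nonneg ht1
        linarith
      have e1 := hcc (un x) (Y / m) ht1
      rw [hcard] at e1
      have hpow : (1 + Real.log (Y / m)) ^ (r - 1) ≤ (1 + L) ^ (r - 1) :=
        pow_le_pow_left₀ hl0 hlt _
      have hms : (m : ℝ) ^ σ ≤ Real.exp 1 := by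
        calc (m : ℝ) ^ σ ≤ Y ^ σ := Real.rpow_le_rpow hm0.le hx5 hσ0.le
          _ = Real.exp (L * σ) := by rw [Real.rpow_def_of_pos hY0]
          _ ≤ Real.exp 1 := by
              rw [Real.exp_le_exp, hσ, mul_one_div, div_le_one h1L]
              linarith
      have hmm : (1 : ℝ) / m ≤ Real.exp 1 * (m : ℝ) ^ (-(1 + σ)) := by
        have e2 : (m : ℝ) ^ (-(1 + σ)) = (1 / m) * ((m : ℝ) ^ σ)⁻¹ := by
          rw [Real.rpow_neg hm0.le, Real.rpow_add hm0, Real.rpow_one, mul_inv, one_div]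
        rw [e2]
        have h3 : 0 < (m : ℝ) ^ σ := Real.rpow_pos_of_pos hm0 _
        have h4 : 1 ≤ Real.exp 1 * ((m : ℝ) ^ σ)⁻¹ := by
          rw [← div_eq_mul_inv, le_div_iff₀ h3, one_mul]
          exact hms
        calc (1 : ℝ) / m = 1 / m * 1 := (mul_one _).symm
          _ ≤ 1 / m * (Real.exp 1 * ((m : ℝ) ^ σ)⁻¹) :=
              mul_le_mul_of_nonneg_left h4 (by positivity)
          _ = _ := by ring
      have hprod : ((2 : ℝ) ^ n) ^ (un x).card * (lo A0 (un x) * (m : ℝ) ^ (-(1 + σ))) = G x := by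
        rw [← Finset.prod_const, hGx, hm, cuna_nm, lo, cuna_un hx1, cuna_un hx1,
          ← Finset.prod_mul_distrib, ← Finset.prod_mul_distrib]
        refine Finset.prod_congr rfl fun v _ => ?_
        rw [← Finset.prod_mul_distrib, ← Finset.prod_mul_distrib]
        refine Finset.prod_congr rfl fun p _ => ?_
        rw [mul_assoc]
      have hlo : 0 ≤ lo A0 (un x) := le_trans zero_le_one (cuna_lo A0 hA _)
      calc ((2 : ℝ) ^ n) ^ (un x).card * CC (un x) (fun _ : A → S.T => (1 : ℝ)) (Y / m)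
          ≤ ((2 : ℝ) ^ n) ^ (un x).card * (C1 * lo A0 (un x) * (Y / m) *
              (1 + Real.log (Y / m)) ^ (r - 1)) :=
            mul_le_mul_of_nonneg_left e1 (by positivity)
        _ ≤ ((2 : ℝ) ^ n) ^ (un x).card * (C1 * lo A0 (un x) * (Y *
              (Real.exp 1 * (m : ℝ) ^ (-(1 + σ)))) * (1 + L) ^ (r - 1)) := by
            refine mul_le_mul_of_nonneg_left ?_ (by positivity)
            refine mul_le_mul ?_ hpow (pow_nonneg hl0 _) ?_
            · refine mul_le_mul_of_nonneg_left ?_ (mul_nonneg hC1 hlo)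
              rw [div_eq_mul_one_div]
              exact mul_le_mul_of_nonneg_left hmm hY0.le
            · have := Real.rpow_nonneg hm0.le (-(1 + σ))
              positivity
        _ = C1 * Real.exp 1 * Y * (1 + L) ^ (r - 1) *
              (((2 : ℝ) ^ n) ^ (un x).card * (lo A0 (un x) * (m : ℝ) ^ (-(1 + σ)))) := by ring
        _ = _ := by rw [hprod]
    · exact mul_nonneg hc0 (hG0 x)
  have hN : (0 : ℝ) ≤ (S.nm M : ℝ) ^ ε := Real.rpow_nonneg (Nat.cast_nonneg _) _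
  have hσb : σ ^ (-(bV Bd R c : ℝ)) = (1 + L) ^ bV Bd R c := by
    rw [hσ, one_div, Real.rpow_neg (inv_nonneg.2 h1L.le), Real.inv_rpow h1L.le, inv_inv,
      Real.rpow_natCast]
  have hKL : 1 + L ≤ K * L := by
    have h3 : Real.log 2 ≤ L := Real.log_le_log two_pos hY
    have h4 : 1 ≤ 1 / Real.log 2 * L := by
      rw [one_div, ← div_eq_inv_mul, le_div_iff₀ hl2]
      linarith
    rw [hK]
    linarith
  have hexp : bV Bd R c + r - 1 = (r - 1) + bV Bd R c := by omega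
  have hfin : (1 + L) ^ (r - 1) * (1 + L) ^ bV Bd R c ≤
      K ^ (R.card * 2 ^ n + r) * L ^ (bV Bd R c + r - 1) := by
    rw [hexp, ← pow_add]
    calc (1 + L) ^ (r - 1 + bV Bd R c) ≤ (K * L) ^ (r - 1 + bV Bd R c) :=
          pow_le_pow_left₀ h1L.le hKL _
      _ = K ^ (r - 1 + bV Bd R c) * L ^ (r - 1 + bV Bd R c) := mul_pow _ _ _
      _ ≤ _ := by
          refine mul_le_mul_of_nonneg_right (pow_le_pow_right₀ hK1 ?_) (pow_nonneg hL0 _)
          omega
  calc NA Bd R A c M Φ Y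
      ≤ ∑ x ∈ Fintype.piFinset (fun _ : R => S.bx Y),
          C1 * Real.exp 1 * Y * (1 + L) ^ (r - 1) * G x := Finset.sum_le_sum key
    _ = C1 * Real.exp 1 * Y * (1 + L) ^ (r - 1) *
          ∑ x ∈ Fintype.piFinset (fun _ : R => S.bx Y), G x := (Finset.mul_sum _ _ _).symm
    _ ≤ C1 * Real.exp 1 * Y * (1 + L) ^ (r - 1) * FF Bd R c M Φ (fun _ => 1) τ (1 + σ) := by
        rw [← hFF]
        exact mul_le_mul_of_nonneg_left (hGs.sum_le_tsum _ fun x _ => hG0 x) (by positivity)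
    _ ≤ C1 * Real.exp 1 * Y * (1 + L) ^ (r - 1) *
          (C2 * (S.nm M : ℝ) ^ ε * (1 + L) ^ bV Bd R c) := by
        refine mul_le_mul_of_nonneg_left ?_ (by positivity)
        have := huni τ c M Φ hTk hc hsub hG σ hσ0 hσ1
        rwa [hσb] at this
    _ = C1 * Real.exp 1 * C2 * (S.nm M : ℝ) ^ ε * Y *
          ((1 + L) ^ (r - 1) * (1 + L) ^ bV Bd R c) := by ring
    _ ≤ C1 * Real.exp 1 * C2 * (S.nm M : ℝ) ^ ε * Y *
          (K ^ (R.card * 2 ^ n + r) * L ^ (bV Bd R c + r - 1)) :=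
        mul_le_mul_of_nonneg_left hfin (by positivity)
    _ = _ := by ring

end Pool.Agent.EV
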