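import Pool.Agent.EV.CStm

/-!
# Project T4 (MP_a3214d), even order, row C10: the uniform bound (SUni) from the pattern theorem,
the combinatorics and the expansion
-/

set_option autoImplicit false

open scoped BigOperators Topology
open Filter

namespace Pool.Agent.EV

open Pool.Agent.H98.MK (sg)
open Pool.Agent.H98.MF
open Pool.Agent.H32.MQ (El)
open Pool.Agent.D8 (pat Tk ls ad)

/-- powers of the logarithm are small -/
private theorem cuni_log (E : ℝ) (hE : 0 ≤ E) (σ : ℝ) (h0 : 0 < σ) (h1 : σ ≤ 1) :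
    (1 + Real.log (1 / σ)) ^ E ≤ (E + 2) ^ E * σ⁻¹ := by
  have hx : 1 ≤ 1 / σ := by
    rw [le_div_iff₀ h0]
    linarith
  have hE1 : 0 < E + 1 := by linarith
  have hδ : 0 < 1 / (E + 1) := by positivity
  have hx0 : 0 ≤ 1 / σ := le_trans zero_le_one hx
  have h2 := Real.log_le_rpow_div hx0 hδ
  have h3 : (1 : ℝ) ≤ (1 / σ) ^ (1 / (E + 1)) := Real.one_le_rpow hx hδ.le
  have h4 : 1 + Real.log (1 / σ) ≤ (E + 2) * (1 / σ) ^ (1 / (E + 1)) := by
    have h5 : (1 / σ) ^ (1 / (E + 1)) / (1 / (E + 1)) = (E + 1) * (1 / σ) ^ (1 / (E + 1)) := by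
      rw [div_div_eq_mul_div, div_one, mul_comm]
    rw [h5] at h2
    linarith
  have h5 : 0 ≤ 1 + Real.log (1 / σ) := by
    have := Real.log_nonneg hx
    linarith
  have h6 : (0 : ℝ) ≤ (1 / σ) ^ (1 / (E + 1)) := le_trans zero_le_one h3
  calc (1 + Real.log (1 / σ)) ^ E ≤ ((E + 2) * (1 / σ) ^ (1 / (E + 1))) ^ E :=
        Real.rpow_le_rpow h5 h4 hE
    _ = (E + 2) ^ E * ((1 / σ) ^ (1 / (E + 1))) ^ E := Real.mul_rpow (by linarith) h6
    _ ≤ (E + 2) ^ E * σ⁻¹ := by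
        refine mul_le_mul_of_nonneg_left ?_ (Real.rpow_nonneg (by linarith) _)
        rw [← Real.rpow_mul hx0]
        have h7 : 1 / (E + 1) * E ≤ 1 := by
          rw [div_mul_eq_mul_div, one_mul, div_le_one hE1]
          linarith
        calc (1 / σ) ^ (1 / (E + 1) * E) ≤ (1 / σ) ^ (1 : ℝ) :=
              Real.rpow_le_rpow_of_exponent_le hx h7
          _ = σ⁻¹ := by rw [Real.rpow_one, one_div]

private theorem cuni_pos {ι : Type} [Fintype ι] {u v : ι} (h : pos u = pos v) : u = v := by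
  unfold pos at h
  exact (Fintype.equivFin ι).injective (Fin.ext h)

section

variable {d n : ℕ} (Bd : BD d n) (R : Finset (VV d))

private theorem cuni_bz (u : R × VV n) : bz Bd R u u = 0 := by
  unfold bz
  rw [Bd.alt, dotProduct_zero]

private theorem cuni_b1 (u : R × VV n) : b1 Bd R u u = 0 := by
  unfold b1
  rw [if_neg (lt_irrefl _)]

private theorem cuni_one (u v : R × VV n) : b1 Bd R u v = 0 ∨ b1 Bd R v u = 0 := by
  unfold b1
  rcases lt_or_ge (pos u) (pos v) with h | h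
  · right
    rw [if_neg (by omega)]
  · left
    rw [if_neg (by omega)]

private theorem cuni_lk (u v : R × VV n) : Lk (b1 Bd R) u v ↔ Lk (bz Bd R) u v := by
  unfold Lk
  have h : b1 Bd R u v + b1 Bd R v u = bz Bd R u v + bz Bd R v u := by
    by_cases huv : u = v
    · subst huv
      rw [cuni_b1, cuni_bz]
    · unfold b1
      rcases lt_trichotomy (pos u) (pos v) with h | h | h
      · rw [if_pos h, if_neg (by omega), add_zero]
      · exact absurd (cuni_pos h) huv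
      · rw [if_neg (by omega), if_pos h, zero_add, add_comm]
  rw [h]

private theorem cuni_iso (U : Finset (R × VV n)) : iso (b1 Bd R) U = iso (bz Bd R) U := by
  unfold iso
  ext u
  simp only [Finset.mem_filter, cuni_lk]

private theorem cuni_wt {S : Sys} (c : R × VV n → El S) (U : Finset (R × VV n)) :
    wt (b1 Bd R) c U = wt (bz Bd R) c U := by
  unfold wt
  rw [cuni_iso]

end

/-- **Row C10.** The uniform bound. -/
theorem suni (h1 : SPat) (h2 : SComb) (h3 : SExpd) : SUni := by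
  classical
  intro S d n Bd R B ε hε
  obtain ⟨E, hE, hp⟩ := h1 S (R × VV n) (b1 Bd R) B (cuni_b1 Bd R) (cuni_one Bd R)
  obtain ⟨C, hC, hp⟩ := hp ε hε
  have hL : (0 : ℝ) ≤ (E + 2) ^ E := Real.rpow_nonneg (by linarith) _
  have hC' : 0 ≤ C * (1 + (E + 2) ^ E) := mul_nonneg hC (by linarith)
  refine ⟨∑ _U : Finset (R × VV n), ∑ _η : R × VV n → S.T, (∑ _t : R → S.T, |(1 : ℝ)|) *
    (C * (1 + (E + 2) ^ E)), ?_, ?_⟩
  · exact Finset.sum_nonneg fun _ _ => Finset.sum_nonneg fun _ _ =>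
      mul_nonneg (Finset.sum_nonneg fun _ _ => abs_nonneg _) hC'
  intro τ c M Φ hτ hc hsub hG σ h0 hσ
  obtain ⟨th, ht1, ht2, hex⟩ := h3 S d n Bd R c M Φ (fun _ => 1) B τ hτ hc
  obtain ⟨-, hF⟩ := hex σ h0
  have hN : (0 : ℝ) ≤ (S.nm M : ℝ) ^ ε := Real.rpow_nonneg (Nat.cast_nonneg _) _
  have hW : 0 ≤ (S.nm M : ℝ) ^ ε * σ ^ (-(bV Bd R c : ℝ)) :=
    mul_nonneg hN (Real.rpow_nonneg h0.le _)
  have hT : 0 ≤ ∑ _t : R → S.T, |(1 : ℝ)| := Finset.sum_nonneg fun _ _ => abs_nonneg _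
  have key : ∀ (U : Finset (R × VV n)) (η : R × VV n → S.T), Φ (U.image Prod.fst) →
      th U η ≠ 0 →
      |PS τ (1 + σ) (b1 Bd R) (fun u => ad (cz R c u) (η u, ∅)) M U| ≤
      C * (1 + (E + 2) ^ E) * ((S.nm M : ℝ) ^ ε * σ ^ (-(bV Bd R c : ℝ))) := by
    intro U η hΦ hth
    have hOk : ∀ u, (ad (cz R c u) (η u, (∅ : Finset S.P))).2 ⊆ M := by
      intro u
      have e1 : (ad (cz R c u) (η u, (∅ : Finset S.P))).2 = (c u.1 u.2).2 := by
        simp [ad, cz]
      rw [e1]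
      exact hsub _ _
    obtain ⟨g1, g2, -⟩ := h2 S d n Bd R c Φ hc hG (fun u => (η u, (∅ : Finset S.P))) U
      (fun u hu u' hu' huu => by rw [ht2 U η hth u hu u' hu' huu]) hΦ
    refine (hp τ _ M hτ hOk U σ h0 hσ).trans ?_
    rw [cuni_iso, cuni_wt]
    have hle : ∀ m : ℕ, m ≤ bV Bd R c → σ ^ (-(m : ℝ)) ≤ σ ^ (-(bV Bd R c : ℝ)) := by
      intro m hm
      apply Real.rpow_le_rpow_of_exponent_ge h0 hσ
      have : (m : ℝ) ≤ (bV Bd R c : ℝ) := by exact_mod_cast hm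
      linarith
    have hCN : 0 ≤ C * (S.nm M : ℝ) ^ ε := mul_nonneg hC hN
    by_cases hi : iso (bz Bd R) U = U
    · rw [if_pos hi, mul_one]
      calc C * (S.nm M : ℝ) ^ ε * σ ^ (-(wt (bz Bd R)
              (fun u => ad (cz R c u) (η u, ∅)) U : ℝ))
          ≤ C * (S.nm M : ℝ) ^ ε * σ ^ (-(bV Bd R c : ℝ)) :=
            mul_le_mul_of_nonneg_left (hle _ g1) hCN
        _ = C * 1 * ((S.nm M : ℝ) ^ ε * σ ^ (-(bV Bd R c : ℝ))) := by ring
        _ ≤ _ := mul_le_mul_of_nonneg_right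
            (mul_le_mul_of_nonneg_left (by linarith) hC) hW
    · rw [if_neg hi]
      have g3 := hle _ (Nat.succ_le_of_lt (g2 hi))
      set w : ℕ := wt (bz Bd R) (fun u => ad (cz R c u) (η u, ∅)) U with hw
      have g4 : σ ^ (-(w : ℝ)) = σ ^ (-((w + 1 : ℕ) : ℝ)) * σ := by
        have : -(w : ℝ) = -((w + 1 : ℕ) : ℝ) + 1 := by push_cast; ring
        rw [this, Real.rpow_add h0, Real.rpow_one]
      have g5 := cuni_log E hE σ h0 hσ
      have g6 : 0 ≤ σ ^ (-((w + 1 : ℕ) : ℝ)) := Real.rpow_nonneg h0.le _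
      calc C * (S.nm M : ℝ) ^ ε * (1 + Real.log (1 / σ)) ^ E * σ ^ (-(w : ℝ))
          ≤ C * (S.nm M : ℝ) ^ ε * ((E + 2) ^ E * σ⁻¹) * σ ^ (-(w : ℝ)) :=
            mul_le_mul_of_nonneg_right (mul_le_mul_of_nonneg_left g5 hCN)
              (Real.rpow_nonneg h0.le _)
        _ = C * (E + 2) ^ E * ((S.nm M : ℝ) ^ ε * σ ^ (-((w + 1 : ℕ) : ℝ))) := by
            rw [g4]
            field_simp
        _ ≤ C * (E + 2) ^ E * ((S.nm M : ℝ) ^ ε * σ ^ (-(bV Bd R c : ℝ))) :=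
            mul_le_mul_of_nonneg_left (mul_le_mul_of_nonneg_left g3 hN)
              (mul_nonneg hC hL)
        _ ≤ _ := mul_le_mul_of_nonneg_right
            (mul_le_mul_of_nonneg_left (by linarith) hC) hW
  have hbnd : 0 ≤ (∑ _t : R → S.T, |(1 : ℝ)|) *
      (C * (1 + (E + 2) ^ E) * ((S.nm M : ℝ) ^ ε * σ ^ (-(bV Bd R c : ℝ)))) :=
    mul_nonneg hT (mul_nonneg hC' hW)
  calc FF Bd R c M Φ (fun _ => 1) τ (1 + σ)
      ≤ |FF Bd R c M Φ (fun _ => 1) τ (1 + σ)| := le_abs_self _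
    _ ≤ ∑ U : Finset (R × VV n), ∑ η : R × VV n → S.T, (∑ _t : R → S.T, |(1 : ℝ)|) *
          (C * (1 + (E + 2) ^ E) * ((S.nm M : ℝ) ^ ε * σ ^ (-(bV Bd R c : ℝ)))) := by
        rw [hF]
        refine (Finset.abs_sum_le_sum_abs _ _).trans (Finset.sum_le_sum fun U _ => ?_)
        split_ifs with hΦ
        · refine (Finset.abs_sum_le_sum_abs _ _).trans (Finset.sum_le_sum fun η _ => ?_)
          rw [abs_mul]
          by_cases hth : th U η = 0
          · rw [hth, abs_zero, zero_mul]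
            exact hbnd
          · exact mul_le_mul (ht1 U η) (key U η hΦ hth) (abs_nonneg _) hT
        · rw [abs_zero]
          exact Finset.sum_nonneg fun _ _ => hbnd
    _ = (∑ _U : Finset (R × VV n), ∑ _η : R × VV n → S.T, (∑ _t : R → S.T, |(1 : ℝ)|) *
          (C * (1 + (E + 2) ^ E))) * (S.nm M : ℝ) ^ ε * σ ^ (-(bV Bd R c : ℝ)) := by
        simp only [Finset.sum_const, nsmul_eq_mul]
        ring

end Pool.Agent.EV
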