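import Pool.Agent.EV.CPat
import Pool.Agent.EV.CInn
import Pool.Agent.EV.CCh
import Pool.Agent.EV.CComb
import Pool.Agent.EV.CFull
import Pool.Agent.EV.CPh
import Pool.Agent.EV.CExp0
import Pool.Agent.EV.CExpd
import Pool.Agent.EV.CUni
import Pool.Agent.EV.CPl
import Pool.Agent.EV.CEu
import Pool.Agent.EV.CGE
import Pool.Agent.EV.CMainA
import Pool.Agent.EV.CGfac
import Pool.Agent.EV.CMainL
import Pool.Agent.EV.CMain
import Pool.Agent.EV.CDiv
import Pool.Agent.EV.CCmp
import Pool.Agent.EV.CCc
import Pool.Agent.EV.CFix
import Pool.Agent.EV.CUnf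
import Pool.Agent.EV.CUnA
import Pool.Agent.D8.BEnd
import Pool.Agent.H92.EL.CKar
import Pool.Agent.H92.EL.CKar0

/-!
# Project T4 (MP_a3214d), even order, block C: the results without hypotheses
-/

set_option autoImplicit false

namespace Pool.Agent.EV

open Pool.Agent.D8 (end_T1 end_Fb)

theorem all_pl : SPl := spl

theorem all_pat : SPat :=
  spat Pool.Agent.D8.end_Fa sch1 (sinn (Pool.Agent.D8.sLup Pool.Agent.D8.sExp) seu) end_Fb ssm end_T1

theorem all_exp0 : SExp0 := sexp0 ssm

theorem all_expd : SExpd := sexpd all_exp0 ssm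

theorem all_uni : SUni := suni all_pat scomb all_expd

theorem all_mainA : SMainA := smainA all_pat scomb sfull all_expd all_exp0 sph ssm

theorem all_mainL : SMainL := smainL (sge1 seu spl) sgfac

theorem all_main : SMain := smain all_mainA all_mainL

theorem all_cc : SCc := scc sdiv scmp

/-- the asymptotic formula for a fixed frame -/
theorem all_fix : SFix :=
  sfix all_main all_cc (Pool.Agent.H92.EL.skarL Pool.Agent.H92.EL.skar0)

/-- the uniform bound -/
theorem all_unf : SUnf := sunf all_uni all_cc

/-- the uniform bound for a set of central vectors -/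
theorem all_unA : SUnA := suna all_uni all_cc

end Pool.Agent.EV
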