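import Pool.Agent.EV.ProdU

/-!
# Project T4 (MP_a3214d): the inner statements for nilpotent groups from those for `l`-groups
-/

set_option autoImplicit false

open scoped BigOperators Pointwise Topology
open NumberField IsDedekindDomain Filter

namespace Pool.Agent.EV

open Pool.Agent.H98.MF (Om Gm ord Dec top nrm fld rdN rexp rex)
open Pool.Agent.H92.EL

open Classical in
/-- a finite nilpotent group is the product of an `l`-group and a group of order prime to `l` -/
theorem nil_split (G : Type) [Group G] [Finite G] (hn : Group.IsNilpotent G) (l : ℕ)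
    (hl : l.Prime) (hd : l ∣ Nat.card G) : ∃ (A B : Type) (_ : Group A) (_ : Group B)
      (_ : Finite A) (_ : Finite B) (_ : G ≃* A × B), IsPGroup l A ∧
        Nat.Coprime l (Nat.card B) := by
  have h1 := (Group.isNilpotent_of_finite_tfae (G := G)).out 0 4
  obtain ⟨f⟩ := h1.1 hn
  have hmem : l ∈ (Nat.card G).primeFactors :=
    Nat.mem_primeFactors.2 ⟨hl, hd, Nat.card_pos.ne'⟩
  let i : (Nat.card G).primeFactors := ⟨l, hmem⟩
  let β : (Nat.card G).primeFactors → Type := fun p => ∀ P : Sylow p G, (P : Subgroup G)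
  let g : (∀ p, β p) ≃* β i × (∀ j : {j // j ≠ i}, β j) :=
    { Equiv.piSplitAt i β with
      map_mul' := fun x y => rfl }
  have hfinS : ∀ p : (Nat.card G).primeFactors, Finite (Sylow p G) := fun p => inferInstance
  have hfinβ : ∀ p, Finite (β p) := fun p => by
    have := hfinS p
    exact Pi.finite
  refine ⟨β i, ∀ j : {j // j ≠ i}, β j, inferInstance, inferInstance, hfinβ i,
    Pi.finite, f.symm.trans g, ?_, ?_⟩
  · intro x
    have hfs : Finite (Sylow l G) := inferInstance
    have : Fintype (Sylow l G) := Fintype.ofFinite _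
    have h2 : ∀ P : Sylow l G, ∃ n : ℕ, x P ^ l ^ n = 1 := fun P => P.isPGroup' (x P)
    choose n hn using h2
    refine ⟨∑ P, n P, ?_⟩
    funext P
    rw [Pi.pow_apply, Pi.one_apply]
    have h3 : n P ≤ ∑ P, n P := Finset.single_le_sum (fun _ _ => Nat.zero_le _)
      (Finset.mem_univ P)
    obtain ⟨m, hm⟩ := Nat.exists_eq_add_of_le h3
    rw [hm, pow_add, pow_mul, hn P, one_pow]
  · have : Fintype {j : (Nat.card G).primeFactors // j ≠ i} := Fintype.ofFinite _
    rw [Nat.card_pi]
    refine Nat.Coprime.prod_right fun j _ => ?_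
    have hfs : Finite (Sylow (j : (Nat.card G).primeFactors) G) := hfinS _
    have : Fintype (Sylow (j : (Nat.card G).primeFactors) G) := Fintype.ofFinite _
    change Nat.Coprime l (Nat.card (∀ P : Sylow ((j : (Nat.card G).primeFactors) : ℕ) G,
      (P : Subgroup G)))
    rw [Nat.card_pi]
    refine Nat.Coprime.prod_right fun P _ => ?_
    have hjp : ((j : (Nat.card G).primeFactors) : ℕ).Prime :=
      Nat.prime_of_mem_primeFactors (j : (Nat.card G).primeFactors).2
    have : Fact ((j : (Nat.card G).primeFactors) : ℕ).Prime := ⟨hjp⟩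
    obtain ⟨m, hm⟩ := (IsPGroup.iff_card.1 P.isPGroup')
    rw [hm]
    refine Nat.Coprime.pow_right m ((Nat.coprime_primes hl hjp).2 ?_)
    intro h5
    exact j.2 (Subtype.ext h5.symm)

section

variable {A B G : Type} [Group A] [Group B] [Group G] (e : G ≃* A × B) {l : ℕ}

include e in
theorem nil_Zt (h : Zt l G) : Zt l A := by
  intro a ha
  have h1 : (e.symm (a, 1)) ^ l = 1 := by
    refine e.injective ?_
    rw [map_pow, e.apply_symm_apply, map_one]
    refine Prod.ext ?_ ?_
    · rw [Prod.pow_fst, ha]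
      rfl
    · rw [Prod.pow_snd, one_pow]
      rfl
  have h2 := h _ h1
  rw [Subgroup.mem_upperCentralSeries_succ_iff] at h2 ⊢
  intro y
  have h3 := h2 (e.symm (y, 1))
  rw [Subgroup.mem_upperCentralSeries_succ_iff] at h3 ⊢
  intro z
  have h4 := h3 (e.symm (z, 1))
  rw [Subgroup.upperCentralSeries_zero, Subgroup.mem_bot] at h4 ⊢
  have h5 := congrArg ((MonoidHom.fst A B).comp e.toMonoidHom) h4
  have h6 : ∀ a : A, (MonoidHom.fst A B).comp e.toMonoidHom (e.symm (a, 1)) = a := fun a => by
    change (e (e.symm (a, 1))).1 = a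
    rw [e.apply_symm_apply]
  rw [map_commutatorElement, map_commutatorElement, h6, h6, h6, map_one] at h5
  exact h5

include e in
theorem nil_Ncl [Finite B] (hB : Nat.Coprime l (Nat.card B)) :
    Nat.card (Ncl l G) = Nat.card (Ncl l A) := by
  have hord : ∀ a : A, orderOf (e.symm (a, (1 : B))) = orderOf a := by
    intro a
    rw [MulEquiv.orderOf_eq, Prod.orderOf, orderOf_one, Nat.lcm_one_right]
  let f : A →* G := e.symm.toMonoidHom.comp (MonoidHom.inl A B)
  let F : Ncl l A → Ncl l G := fun c => ⟨ConjClasses.map f c.1, by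
    obtain ⟨g, hg, ho⟩ := c.2
    refine ⟨f g, ?_, (hord g).trans ho⟩
    rw [← hg]
    rfl⟩
  refine (Nat.card_congr (Equiv.ofBijective F ⟨?_, ?_⟩)).symm
  · rintro ⟨c, hc⟩ ⟨c', hc'⟩ h
    have h1 : ConjClasses.map f c = ConjClasses.map f c' := congrArg Subtype.val h
    refine Subtype.ext ?_
    obtain ⟨a, rfl⟩ := ConjClasses.mk_surjective c
    obtain ⟨a', rfl⟩ := ConjClasses.mk_surjective c'
    have h2 : IsConj (f a) (f a') := ConjClasses.mk_eq_mk_iff_isConj.1 h1
    have h3 : IsConj (e (f a)).1 (e (f a')).1 :=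
      ((MonoidHom.fst A B).comp e.toMonoidHom).map_isConj h2
    have h4 : ∀ a : A, (e (f a)).1 = a := fun a => by
      change (e (e.symm (a, 1))).1 = a
      rw [e.apply_symm_apply]
    rw [h4, h4] at h3
    exact ConjClasses.mk_eq_mk_iff_isConj.2 h3
  · rintro ⟨c, g, rfl, ho⟩
    have h1 : g ^ l = 1 := by rw [← ho, pow_orderOf_eq_one]
    obtain ⟨h2, h3⟩ := (prd_pow e hB g).1 h1
    have h4 : e.symm ((e g).1, 1) = g := by
      rw [← h3]
      exact e.symm_apply_apply g
    refine ⟨⟨ConjClasses.mk (e g).1, (e g).1, rfl, ?_⟩, ?_⟩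
    · rw [← hord, h4, ho]
    · refine Subtype.ext ?_
      change ConjClasses.map f (ConjClasses.mk (e g).1) = ConjClasses.mk g
      change ConjClasses.mk (e.symm ((e g).1, 1)) = ConjClasses.mk g
      rw [h4]

end

/-- the inner statements for nilpotent groups from those for `l`-groups -/
theorem inn_nil {k : Type} [Field k] [NumberField k] (T : TM k) (l : ℕ) (hz : ZDis) (hs : SHer)
    (h : ∀ (A : Type) [Group A] [Finite A], IsPGroup l A → l ∣ Nat.card A → Zt l A → ∀ b : ℕ,
      b * Nat.card (cyc k l) = Nat.card (Ncl l A) → InnF T A l b ∧ InnU T A l b)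
    (G : Type) [Group G] (hG : Hyp l G) (hZ : Zt l G) (b : ℕ)
    (hb : b * Nat.card (cyc k l) = Nat.card (Ncl l G)) : InnF T G l b ∧ InnU T G l b := by
  have hfin : Finite G := hG.fin
  obtain ⟨A, B, gA, gB, fA, fB, e, hA, hB⟩ := nil_split G hG.nil l hG.prm hG.dvd
  have hcard : Nat.card G = Nat.card A * Nat.card B := by
    rw [Nat.card_congr e.toEquiv, Nat.card_prod]
  have hlA : l ∣ Nat.card A := by
    have h1 := hG.dvd
    rw [hcard] at h1
    exact (Nat.Coprime.dvd_mul_right hB).1 h1
  have : Fact l.Prime := ⟨hG.prm⟩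
  obtain ⟨m, hm⟩ := IsPGroup.iff_card.1 hA
  have hAB : Nat.Coprime (Nat.card A) (Nat.card B) := by
    rw [hm]
    exact Nat.Coprime.pow_left m hB
  have hHA : Hyp l A :=
    { fin := fA
      nil := hA.isNilpotent
      prm := hG.prm
      dvd := hlA
      least := fun p hp hpA => by
        rw [hm] at hpA
        exact ((Nat.prime_dvd_prime_iff_eq hp hG.prm).1 (hp.dvd_of_dvd_pow hpA)).ge }
  obtain ⟨h1, h2⟩ := h A hA hlA (nil_Zt e hZ) b (by rw [hb, nil_Ncl e hB])
  exact ⟨innF_prod e T hAB hB h1, innU_prod e T hHA hAB hB hz hs h2⟩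

end Pool.Agent.EV
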