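import Pool.Agent.EV.AStm
import Pool.Agent.EV.Nil

/-!
# Project T4 (MP_a3214d), even order, row E4: from the Sylow subgroup to nilpotent groups
-/

set_option autoImplicit false

open scoped BigOperators Topology
open NumberField IsDedekindDomain Filter

namespace Pool.Agent.EV

open Pool.Agent.H98.MF
open Pool.Agent.H92.EL

/-- the cyclotomic character modulo two is trivial -/
theorem enil_cyc (k : Type) [Field k] : Nat.card (cyc k 2) = 1 := by
  have hs : Subsingleton (ZMod 2)ˣ := ⟨by decide⟩
  have h1 : cyc k 2 = {1} := by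
    refine Set.eq_singleton_iff_unique_mem.2 ⟨?_, fun j _ => Subsingleton.elim j 1⟩
    refine ⟨AlgEquiv.refl, fun ζ _ => ?_⟩
    have h2 : ((1 : (ZMod 2)ˣ) : ZMod 2).val = 1 := rfl
    rw [h2, pow_one]
    rfl
  rw [h1]
  exact Nat.card_unique

/-- E4 -/
theorem seNil (hz : ZDis) (hs : SHer) : SeNil := by
  intro h k _ _ T G _ hG hZ
  have hc := enil_cyc k
  refine inn_nil T 2 hz hs ?_ G hG hZ _ (by rw [hc, mul_one])
  intro A _ _ hA hdvd hZA b hb
  rw [hc, mul_one] at hb
  subst hb
  have hP : P2 A := by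
    refine ⟨inferInstance, ?_⟩
    have : Fact (Nat.Prime 2) := ⟨Nat.prime_two⟩
    exact IsPGroup.iff_card.1 hA
  refine h k T A hP hZA ?_
  have h1 : 1 < Nat.card A := by
    have h2 : 0 < Nat.card A := Nat.card_pos
    exact (Nat.le_of_dvd h2 hdvd).trans_lt' (by norm_num)
  rw [Finite.one_lt_card_iff_nontrivial] at h1
  exact exists_ne 1

end Pool.Agent.EV
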