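import Pool.Agent.EV.UStm

/-!
# Project T4 (MP_a3214d), even order: the number of classes of involutions
-/

set_option autoImplicit false

open scoped BigOperators

namespace Pool.Agent.EV

open Pool.Agent.H92.EL (Om1 Ncl)

section ub

variable {G : Type} [Group G] (D : GD G)

theorem ub_two {r : ℕ} (v : VV r) : v + v = 0 := by
  funext i
  exact CharTwo.add_self_eq_zero (v i)

/-- the commutators with a vector -/
noncomputable def ub_H (v : VV D.d) : Submodule (ZMod 2) (VV D.n) where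
  carrier := Set.range fun g => D.c g v
  add_mem' := by
    rintro _ _ ⟨g, rfl⟩ ⟨h, rfl⟩
    exact ⟨g * h, D.c_mul g h v⟩
  zero_mem' := ⟨1, D.c_one v⟩
  smul_mem' := by
    rintro r _ ⟨g, rfl⟩
    rcases (by decide : ∀ r : ZMod 2, r = 0 ∨ r = 1) r with rfl | rfl
    · exact ⟨1, by rw [zero_smul]; exact D.c_one v⟩
    · exact ⟨g, by rw [one_smul]⟩

theorem ub_mem {v : VV D.d} {x : VV D.n} : x ∈ ub_H D v ↔ ∃ g, D.c g v = x := Iff.rfl

theorem ub_conj (g : G) (v : VV D.d) (x : VV D.n) :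
    g⁻¹ * (D.s v * D.zz x) * g = D.s v * D.zz (D.c g v + x) := by
  rw [mul_assoc, inv_mul_eq_iff_eq_mul, mul_assoc, D.zz_cen, ← mul_assoc, D.com g v, D.zz_add]
  simp only [mul_assoc]

theorem ub_iff (v w : VV D.d) (x y : VV D.n) :
    IsConj (D.s v * D.zz x) (D.s w * D.zz y) ↔ v = w ∧ -x + y ∈ ub_H D v := by
  have hx : -x = x := by
    rw [neg_eq_iff_add_eq_zero]
    exact ub_two x
  rw [isConj_iff]
  constructor
  · rintro ⟨c, hc⟩
    have h1 := ub_conj D c⁻¹ v x
    rw [inv_inv, hc] at h1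
    obtain ⟨h2, h3⟩ := D.sz_inj h1
    refine ⟨h2.symm, (ub_mem D).2 ⟨c⁻¹, ?_⟩⟩
    rw [h3, hx, add_comm, add_assoc, ub_two, add_zero]
  · rintro ⟨rfl, h2⟩
    obtain ⟨g, hg⟩ := (ub_mem D).1 h2
    refine ⟨g⁻¹, ?_⟩
    rw [inv_inv, ub_conj, hg, hx]
    congr 2
    rw [add_comm x y, add_assoc, ub_two, add_zero]

/-- the class of a vector and a coset -/
noncomputable def ub_f (s : Σ v : {v : VV D.d // D.β v v = 0}, VV D.n ⧸ ub_H D v.1) :
    ConjClasses G :=
  Quotient.liftOn' s.2 (fun z => ConjClasses.mk (D.s s.1.1 * D.zz z)) fun a b hab => by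
    rw [ConjClasses.mk_eq_mk_iff_isConj, ub_iff]
    exact ⟨rfl, QuotientAddGroup.leftRel_apply.1 hab⟩

theorem ub_f_mk (v : {v : VV D.d // D.β v v = 0}) (z : VV D.n) :
    ub_f D ⟨v, Submodule.Quotient.mk z⟩ = ConjClasses.mk (D.s v.1 * D.zz z) := rfl

theorem ub_inj : Function.Injective (ub_f D) := by
  rintro ⟨⟨v, hv⟩, q⟩ ⟨⟨w, hw⟩, r⟩ h
  obtain ⟨z, rfl⟩ := Submodule.Quotient.mk_surjective _ q
  obtain ⟨y, rfl⟩ := Submodule.Quotient.mk_surjective _ r
  rw [ub_f_mk, ub_f_mk, ConjClasses.mk_eq_mk_iff_isConj, ub_iff] at h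
  obtain ⟨h1, h2⟩ := h
  dsimp only at h1 h2
  subst h1
  congr 1
  rw [Submodule.Quotient.eq]
  have h3 := (ub_H D v).neg_mem h2
  convert h3 using 1
  abel

theorem ub_range : Set.range (ub_f D) = {c : ConjClasses G | ∃ g : G, ConjClasses.mk g = c ∧
    g ^ 2 = 1} := by
  ext c
  constructor
  · rintro ⟨⟨⟨v, hv⟩, q⟩, rfl⟩
    obtain ⟨z, rfl⟩ := Submodule.Quotient.mk_surjective _ q
    exact ⟨D.s v * D.zz z, rfl, (D.sz_sq_eq_one v z).2 hv⟩
  · rintro ⟨g, rfl, hg⟩
    have hg1 : g ∈ Om1 2 G := Subgroup.subset_closure hg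
    obtain ⟨v, z, rfl⟩ := (D.mem g).1 hg1
    exact ⟨⟨⟨v, (D.sz_sq_eq_one v z).1 hg⟩, Submodule.Quotient.mk z⟩, rfl⟩

theorem ub_nv (v : VV D.d) : nvG D v = Nat.card (VV D.n ⧸ ub_H D v) := by
  classical
  let e := dotProductEquiv (ZMod 2) (Fin D.n)
  have h1 : nvG D v = Nat.card {ζ : VV D.n // e ζ ∈ (ub_H D v).dualAnnihilator} := by
    unfold nvG
    rw [Nat.card_eq_fintype_card, Fintype.card_subtype]
    congr 1
    ext ζ
    simp only [Finset.mem_filter, Finset.mem_univ, true_and]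
    rw [Submodule.mem_dualAnnihilator]
    constructor
    · rintro h _ ⟨g, rfl⟩
      exact h g
    · intro h g
      exact h _ ⟨g, rfl⟩
  have h2 : Nat.card {ζ : VV D.n // e ζ ∈ (ub_H D v).dualAnnihilator} =
      Nat.card (ub_H D v).dualAnnihilator :=
    Nat.card_congr (e.toEquiv.subtypeEquiv fun ζ => Iff.rfl)
  have h3 : Module.finrank (ZMod 2) (ub_H D v).dualAnnihilator =
      Module.finrank (ZMod 2) (VV D.n ⧸ ub_H D v) := by
    rw [← LinearEquiv.finrank_eq (ub_H D v).dualQuotEquivDualAnnihilator,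
      Subspace.dual_finrank_eq]
  rw [h1, h2, Module.natCard_eq_pow_finrank (K := ZMod 2) (V := (ub_H D v).dualAnnihilator),
    Module.natCard_eq_pow_finrank (K := ZMod 2) (V := VV D.n ⧸ ub_H D v), h3]

theorem ub_nv0 : nvG D 0 = (RZ D.n).card + 1 := by
  classical
  have h1 : nvG D 0 = Fintype.card (VV D.n) := by
    unfold nvG
    rw [Finset.filter_true_of_mem, Finset.card_univ]
    intro ζ _ g
    rw [D.c_zero, dotProduct_zero]
  have h2 : RZ D.n = Finset.univ.erase (0 : VV D.n) := by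
    unfold RZ
    ext v
    simp
  rw [h1, h2, Finset.card_erase_of_mem (Finset.mem_univ _), Finset.card_univ]
  have : 0 < Fintype.card (VV D.n) := Fintype.card_pos
  omega

end ub

theorem sub_ : SUb := by
  intro G _ _ D
  classical
  have : Finite (ConjClasses G) := inferInstance
  have h1 : Nat.card (Σ v : {v : VV D.d // D.β v v = 0}, VV D.n ⧸ ub_H D v.1) =
      ∑ v : {v : VV D.d // D.β v v = 0}, nvG D v.1 := by
    rw [Nat.card_sigma]
    exact Finset.sum_congr rfl fun v _ => (ub_nv D v.1).symm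
  have h3 : Nat.card (Σ v : {v : VV D.d // D.β v v = 0}, VV D.n ⧸ ub_H D v.1) =
      (Set.range (ub_f D)).ncard := by
    rw [← Nat.card_coe_set_eq]
    exact Nat.card_congr (Equiv.ofInjective _ (ub_inj D))
  have h4 : Set.range (ub_f D) = insert (ConjClasses.mk (1 : G))
      {c : ConjClasses G | ∃ g : G, ConjClasses.mk g = c ∧ orderOf g = 2} := by
    rw [ub_range]
    ext c
    constructor
    · rintro ⟨g, rfl, hg⟩
      by_cases h : g = 1
      · left; rw [h]
      · right; exact ⟨g, rfl, orderOf_eq_prime hg h⟩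
    · rintro (rfl | ⟨g, rfl, hg⟩)
      · exact ⟨1, rfl, one_pow _⟩
      · exact ⟨g, rfl, by rw [← hg]; exact pow_orderOf_eq_one g⟩
  have h5 : ConjClasses.mk (1 : G) ∉
      {c : ConjClasses G | ∃ g : G, ConjClasses.mk g = c ∧ orderOf g = 2} := by
    rintro ⟨g, hg, ho⟩
    rw [ConjClasses.mk_eq_mk_iff_isConj, isConj_one_left] at hg
    rw [hg, orderOf_one] at ho
    exact absurd ho (by norm_num)
  have h6 : (Set.range (ub_f D)).ncard = D.b + 1 := by
    rw [h4, Set.ncard_insert_of_notMem h5 (Set.toFinite _), ← Nat.card_coe_set_eq]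
    rfl
  have h7 : ∑ v : {v : VV D.d // D.β v v = 0}, nvG D v.1 =
      ∑ v ∈ Finset.univ.filter (fun v : VV D.d => D.β v v = 0), nvG D v :=
    (Finset.sum_subtype (Finset.univ.filter fun v : VV D.d => D.β v v = 0)
      (fun x => by simp) (fun v => nvG D v)).symm
  have h8 : Finset.univ.filter (fun v : VV D.d => D.β v v = 0) = insert 0 D.R := by
    ext v
    rw [Finset.mem_filter, Finset.mem_insert, GD.mem_R]
    constructor
    · rintro ⟨_, h⟩
      by_cases h0 : v = 0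
      · exact Or.inl h0
      · exact Or.inr ⟨h0, h⟩
    · rintro (rfl | h)
      · exact ⟨Finset.mem_univ _, by rw [map_zero]⟩
      · exact ⟨Finset.mem_univ _, h.2⟩
  have h9 : (0 : VV D.d) ∉ D.R := by
    rw [GD.mem_R]
    exact fun h => h.1 rfl
  rw [h8, Finset.sum_insert h9, ub_nv0] at h7
  have h10 : D.b + 1 = (RZ D.n).card + 1 + ∑ v ∈ D.R, nvG D v := by
    rw [← h6, ← h3, h1, h7]
  omega

end Pool.Agent.EV
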