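import Pool.Agent.EV.UStm
import Pool.Agent.D8.ACntA
import Pool.Agent.D8.UMvA
import Pool.Agent.H98.MF.NormalK

/-!
# Project T4 (MP_a3214d), even order: the classes of the outer characters (UN3)
-/

set_option autoImplicit false

open scoped BigOperators
open NumberField IsDedekindDomain

namespace Pool.Agent.EV

open Pool.Agent.H98.MF
open Pool.Agent.H98.MK (sg)
open Pool.Agent.H32.MQ (El rep co)
open Pool.Agent.D8 (pat RxF ad)
open Pool.Agent.H92.EL (Om1 Ncl TM InnU)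

section

variable {k : Type} [Field k] [NumberField k] (F : Frm k)

open Classical in
/-- the element of given unit coordinates -/
theorem ucl_parU_eq {r : ℕ} (y : Fin F.sys.m → (Fin r → ZMod 2)) : ∃ z : F.I →₀ (Fin r → ZMod 2),
    (∀ p, z (Sum.inr p) = 0) ∧ ∀ σ, F.parU y σ = F.par z σ := by
  let z : F.I →₀ (Fin r → ZMod 2) := ∑ j, Finsupp.single (Sum.inl j) (y j)
  have hz : ∀ i, z i = ∑ j, (Finsupp.single (Sum.inl j : F.I) (y j)) i := by
    intro i
    rw [Finsupp.finsetSum_apply]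
  have h1 : ∀ p, z (Sum.inr p) = 0 := by
    intro p
    rw [hz]
    refine Finset.sum_eq_zero fun j _ => ?_
    rw [Finsupp.single_apply, if_neg (by simp)]
  have h2 : ∀ j, z (Sum.inl j) = y j := by
    intro j
    rw [hz, Finset.sum_eq_single j]
    · rw [Finsupp.single_apply, if_pos rfl]
    · intro i _ hi
      rw [Finsupp.single_apply, if_neg (fun h => hi (Sum.inl_injective h))]
    · intro h
      exact absurd (Finset.mem_univ j) h
  refine ⟨z, h1, fun σ => ?_⟩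
  rw [F.par_eq_parU z h1 σ]
  congr 1
  funext j
  exact (h2 j).symm

theorem ucl_parU_hom {r : ℕ} (y : Fin F.sys.m → (Fin r → ZMod 2)) (σ τ : Gm k) :
    F.parU y (σ * τ) = F.parU y σ + F.parU y τ := by
  obtain ⟨z, -, hz⟩ := ucl_parU_eq F y
  rw [hz, hz, hz, F.par_hom]

theorem ucl_parU_lc {r : ℕ} (y : Fin F.sys.m → (Fin r → ZMod 2)) :
    IsLocallyConstant (F.parU y) := by
  obtain ⟨z, -, hz⟩ := ucl_parU_eq F y
  have h : F.parU y = F.par z := funext hz
  rw [h]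
  exact F.par_lc z

theorem ucl_parU_tau (Rk : RxF k) {r : ℕ} (y : Fin F.sys.m → (Fin r → ZMod 2)) (p : F.sys.P) :
    F.parU y (Rk.tau (F.pl p)) = 0 := by
  obtain ⟨z, h1, hz⟩ := ucl_parU_eq F y
  rw [hz, F.par_tau Rk.toRx z p, h1]

/-- the class of a quadratic character -/
theorem ucl_ex (f : Gm k → ZMod 2) (hf : IsLocallyConstant f)
    (ha : ∀ σ τ, f (σ * τ) = f σ + f τ) : ∃ c : El F.sys, ∀ σ, chi (rep F c : k) σ = f σ := by
  obtain ⟨t, ht⟩ := ParK.exists_chi1 f hf ha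
  refine ⟨co F t, fun σ => ?_⟩
  obtain ⟨s, hs⟩ := Pool.Agent.H32.MQ.h_co F t
  have h1 : chi ((t * rep F (co F t) : kˣ) : k) σ = 0 := by
    rw [hs, ParK.chu_mul, CharTwo.add_self_eq_zero]
  rw [ParK.chu_mul] at h1
  rw [ht σ]
  exact (CharTwo.add_eq_zero.mp h1).symm

/-- the character of a product of classes -/
theorem ucl_ad (c d : El F.sys) (σ : Gm k) :
    chi (rep F (ad c d) : k) σ = chi (rep F c : k) σ + chi (rep F d : k) σ := by
  obtain ⟨s, hs⟩ := Pool.Agent.D8.um_rep_ad F c d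
  have h1 : chi ((rep F c * rep F d * rep F (ad c d) : kˣ) : k) σ = 0 := by
    rw [hs, ParK.chu_mul, CharTwo.add_self_eq_zero]
  rw [ParK.chu_mul, ParK.chu_mul] at h1
  exact (CharTwo.add_eq_zero.mp h1).symm

end

/-- UN3 -/
theorem sucl (k : Type) [Field k] [NumberField k] : SUcl k := by
  intro F Rk G _ _ D _ ρs M xs hU hX y
  have hlc : ∀ (v : VV D.d) (ζ : VV D.n), IsLocallyConstant fun σ : Gm k =>
      ζ ⬝ᵥ (D.c (ρs σ) v + D.Bd.B (F.parU y σ + F.par xs σ) v) := by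
    intro v ζ
    exact (hU.lc.prodMk ((ucl_parU_lc F y).prodMk (F.par_lc xs))).comp
      fun x : G × VV D.d × VV D.d => ζ ⬝ᵥ (D.c x.1 v + D.Bd.B (x.2.1 + x.2.2) v)
  have hadd : ∀ (v : VV D.d) (ζ : VV D.n) (σ τ : Gm k),
      ζ ⬝ᵥ (D.c (ρs (σ * τ)) v + D.Bd.B (F.parU y (σ * τ) + F.par xs (σ * τ)) v) =
      ζ ⬝ᵥ (D.c (ρs σ) v + D.Bd.B (F.parU y σ + F.par xs σ) v) +
      ζ ⬝ᵥ (D.c (ρs τ) v + D.Bd.B (F.parU y τ + F.par xs τ) v) := by
    intro v ζ σ τ
    rw [← dotProduct_add, map_mul, D.c_mul, ucl_parU_hom, F.par_hom]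
    congr 1
    simp only [map_add, LinearMap.add_apply]
    abel
  choose c hc using fun (v : VV D.d) (ζ : VV D.n) => ucl_ex F _ (hlc v ζ) (hadd v ζ)
  refine ⟨c, ?_, ?_, hc⟩
  · intro v ζ ζ'
    apply Pool.Agent.D8.ct_rep_inj F
    intro σ
    rw [ucl_ad, hc, hc, hc, add_dotProduct]
  · intro v ζ p hp
    by_contra hM
    obtain ⟨x, hx⟩ := hX.out p hM
    have h1 := hc v ζ (Rk.tau (F.pl p))
    rw [Pool.Agent.D8.ct_chi_tau F Rk, if_pos hp, ucl_parU_tau, zero_add,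
      F.par_tau Rk.toRx xs p, hx, D.c_mul, D.c_zz, add_zero, D.c_s', GD.two_V,
      dotProduct_zero] at h1
    exact one_ne_zero h1

end Pool.Agent.EV
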