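import Pool.Agent.EV.UStm

/-!
# Project T4 (MP_a3214d), even order, UN7: the uniform bound for the trivial form
-/

set_option autoImplicit false

open scoped BigOperators

namespace Pool.Agent.EV

open Pool.Agent.H98.MF
open Pool.Agent.H32.MQ (El)
open Pool.Agent.D8 (pat)

theorem un0_RZ : IsEmpty (RZ 0) := by
  refine ⟨fun v => ?_⟩
  have h1 := (Finset.mem_filter.1 v.2).2
  exact h1 (Subsingleton.elim _ _)

open Classical in
/-- the inner sum is at most one -/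
theorem un0_CC {S : Sys} (y : Finset S.P) (Y : ℝ) :
    CC y (fun _ : RZ 0 → S.T => (1 : ℝ)) Y ≤ 1 := by
  have := un0_RZ
  unfold CC
  have h1 : ∀ x ∈ Fintype.piFinset (fun _ : RZ 0 => S.bx Y),
      (if S.Dj x ∧ Off S y x ∧ ((∏ u, S.nm (x u) : ℕ) : ℝ) ≤ Y then (1 : ℝ) else 0) ≤ 1 := by
    intro x _
    split_ifs <;> norm_num
  refine (Finset.sum_le_card_nsmul _ _ 1 h1).trans ?_
  rw [Fintype.card_piFinset]
  simp

open Classical in
/-- the sum over the assignments is at most one -/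
theorem un0_in {S : Sys} {R : Type} [Fintype R] (x : R → Finset S.P) (Y : ℝ) :
    ∑ z ∈ asg 0 (un x), CC (un x) (fun t : RZ 0 → S.T =>
      (fun (_ : R → Finset S.P) (_ : Fin 0 → S.T) => (1 : ℝ)) x (tz z t)) Y ≤ 1 := by
  have h1 : ∀ z ∈ asg 0 (un x), CC (un x) (fun t : RZ 0 → S.T =>
      (fun (_ : R → Finset S.P) (_ : Fin 0 → S.T) => (1 : ℝ)) x (tz z t)) Y ≤ 1 :=
    fun z _ => un0_CC _ _
  refine (Finset.sum_le_card_nsmul _ _ 1 h1).trans ?_
  have h2 : (asg 0 (un x)).card ≤ 1 := by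
    have : Subsingleton (S.P →₀ VV 0) := ⟨fun a b => Finsupp.ext fun p => Subsingleton.elim _ _⟩
    exact Finset.card_le_one_of_subsingleton _
  rw [nsmul_eq_mul, mul_one]
  exact_mod_cast h2

open Classical in
/-- the number of families of bounded norm -/
theorem un0_bd (h : SCc) (S : Sys) (ι : Type) [Fintype ι] [Nonempty ι] :
    ∃ C : ℝ, 0 ≤ C ∧ ∀ Y : ℝ, 2 ≤ Y →
      CC (ι := ι) (∅ : Finset S.P) (fun _ => 1) Y ≤
        C * (Y * Real.log Y ^ (Fintype.card ι - 1)) := by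
  obtain ⟨κ1, A0, C, hκ, hA0, hC, hB⟩ := h S ι
  set K0 : ℝ := (1 / ((2 : ℝ) ^ S.m) ^ Fintype.card ι) * ∑ _t : ι → S.T, (1 : ℝ) with hK0
  have hK0n : 0 ≤ K0 := by
    rw [hK0]
    positivity
  have hl2 : 0 < Real.log 2 := Real.log_pos (by norm_num)
  set q : ℝ := 1 + 1 / Real.log 2 with hq
  have hqp : 0 ≤ q := by
    rw [hq]
    positivity
  refine ⟨κ1 * K0 + C * q ^ (Fintype.card ι - 1), by positivity, ?_⟩
  intro Y hY
  have hY1 : (1 : ℝ) ≤ Y := by linarith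
  have hY0 : (0 : ℝ) ≤ Y := by linarith
  have hlY : Real.log 2 ≤ Real.log Y := Real.log_le_log (by norm_num) hY
  have hlY0 : 0 ≤ Real.log Y := hl2.le.trans hlY
  have h2 := hB ∅ (fun _ => 1) (fun _ => by norm_num) Y hY1
  have e1 : ty0 ι (∅ : Finset S.P) = 1 := Finset.prod_empty
  have e2 : lo A0 (∅ : Finset S.P) = 1 := Finset.prod_empty
  rw [e1, e2, mul_one, mul_one, ← hK0] at h2
  have h3 := (abs_sub_le_iff.1 h2).1
  have hR1 : 1 ≤ Fintype.card ι := Fintype.card_pos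
  have h4 : (1 + Real.log Y) ^ ((Fintype.card ι : ℝ) - 3 / 2) ≤
      q ^ (Fintype.card ι - 1) * Real.log Y ^ (Fintype.card ι - 1) := by
    have a1 : (1 + Real.log Y) ^ ((Fintype.card ι : ℝ) - 3 / 2) ≤
        (1 + Real.log Y) ^ (((Fintype.card ι - 1 : ℕ) : ℝ)) := by
      refine Real.rpow_le_rpow_of_exponent_le (by linarith) ?_
      rw [Nat.cast_sub hR1]
      push_cast
      linarith
    rw [Real.rpow_natCast] at a1
    refine a1.trans ?_
    rw [← mul_pow]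
    refine pow_le_pow_left₀ (by linarith) ?_ _
    have a2 : 1 ≤ 1 / Real.log 2 * Real.log Y := by
      rw [one_div, ← div_eq_inv_mul, le_div_iff₀ hl2, one_mul]
      exact hlY
    rw [hq]
    linarith
  have h5 : C * Y * (1 + Real.log Y) ^ ((Fintype.card ι : ℝ) - 3 / 2) ≤
      C * Y * (q ^ (Fintype.card ι - 1) * Real.log Y ^ (Fintype.card ι - 1)) :=
    mul_le_mul_of_nonneg_left h4 (by positivity)
  calc CC (ι := ι) (∅ : Finset S.P) (fun _ => 1) Y
      ≤ κ1 * K0 * (Y * Real.log Y ^ (Fintype.card ι - 1)) +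
        C * Y * (1 + Real.log Y) ^ ((Fintype.card ι : ℝ) - 3 / 2) := by linarith
    _ ≤ κ1 * K0 * (Y * Real.log Y ^ (Fintype.card ι - 1)) +
        C * Y * (q ^ (Fintype.card ι - 1) * Real.log Y ^ (Fintype.card ι - 1)) := by linarith
    _ = (κ1 * K0 + C * q ^ (Fintype.card ι - 1)) *
        (Y * Real.log Y ^ (Fintype.card ι - 1)) := by ring

/-- the bound for the trivial form -/
theorem sun0 (h : SCc) : SUn0 := by
  classical
  intro S d Bd R hR
  have : Nonempty R := hR.to_subtype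
  obtain ⟨C, hC, hB⟩ := un0_bd h S R
  refine ⟨C, hC, ?_⟩
  intro c M Φ Y hY
  have h1 := hB Y hY
  rw [Fintype.card_coe] at h1
  refine le_trans ?_ h1
  have hcc : CC (ι := R) (∅ : Finset S.P) (fun _ => 1) Y =
      ∑ x ∈ Fintype.piFinset (fun _ : R => S.bx Y),
        if S.Dj x ∧ Off S ∅ x ∧ ((∏ u, S.nm (x u) : ℕ) : ℝ) ≤ Y then (1 : ℝ) else 0 := by
    unfold CC
    congr
    exact Subsingleton.elim _ _
  rw [hcc]
  unfold NN
  refine Finset.sum_le_sum fun x _ => ?_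
  by_cases hx : S.Dj x ∧ Off S M x ∧ okc Bd R c x ∧ Φ (pat x) ∧
      ((∏ u, S.nm (x u) : ℕ) : ℝ) ≤ Y
  · have hx2 : S.Dj x ∧ Off S ∅ x ∧ ((∏ u, S.nm (x u) : ℕ) : ℝ) ≤ Y :=
      ⟨hx.1, fun u => Finset.disjoint_empty_right _, hx.2.2.2.2⟩
    rw [if_pos hx, if_pos hx2]
    exact un0_in x _
  · rw [if_neg hx]
    split_ifs <;> norm_num

end Pool.Agent.EV
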