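import Pool.Agent.EV.UStm
import Pool.Agent.H98.MF.ParK
import Pool.Agent.H98.MF.LhTauK

/-!
# Project T4 (MP_a3214d), even order, row UN6: the number of homomorphisms (helper87)
-/

set_option autoImplicit false

open scoped BigOperators
open NumberField IsDedekindDomain

namespace Pool.Agent.EV

open Pool.Agent.H98.MF
open Pool.Agent.H98.MK (sg)
open Pool.Agent.H32.MQ (El rep co)
open Pool.Agent.D8 (pat RxF)
open Pool.Agent.H92.EL (Om1 Ncl TM InnU)

section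

variable {k : Type} [Field k] [NumberField k] {F : Frm k} {Rk : RxF k} {G : Type} [Group G]
  {D : GD G} {ρs : Gm k →* G} {M : Finset F.sys.P} {xs : F.I →₀ VV D.d}
  {y : Fin F.sys.m → VV D.d} {X : D.R → Finset F.sys.P} {f : Gm k → VV D.n} {ρ : Gm k →* G}

theorem unc_mem_un {ι : Type} [Fintype ι] {S : Sys} {x : ι → Finset S.P} {p : S.P} :
    p ∈ un x ↔ ∃ u, p ∈ x u := by
  classical
  unfold un
  rw [Finset.mem_biUnion]
  exact ⟨fun ⟨u, _, h⟩ => ⟨u, h⟩, fun ⟨u, h⟩ => ⟨u, Finset.mem_univ u, h⟩⟩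

/-- the values at the primes without noncentral inertia -/
theorem unc_val (hA : UA F Rk D ρs M ρ) (hC : UC F Rk D ρs M xs y X f ρ) {p : F.sys.P}
    (hp : p ∉ M) (hX : p ∉ un X) : ∃ x, ρ (Rk.tau (F.pl p)) = D.zz x := by
  have h3 := hA.out p hp
  have h1 : ρ (Rk.tau (F.pl p)) ∈ Om1 2 G := Subgroup.subset_closure h3
  obtain ⟨v, x, h2⟩ := (D.mem _).1 h1
  rw [h2, D.sz_sq_eq_one] at h3
  by_cases hv : v = 0
  · exact ⟨x, by rw [h2, hv, D.s_zero, one_mul]⟩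
  · exfalso
    apply hX
    exact unc_mem_un.2 ⟨⟨v, D.mem_R.2 ⟨hv, h3⟩⟩, (hC.mem _ p).2 ⟨hp, x, h2⟩⟩

/-- noncentral inertia is ramification -/
theorem unc_ram (hC : UC F Rk D ρs M xs y X f ρ) {p : F.sys.P} (hX : p ∈ un X) :
    p ∉ M ∧ ρ (Rk.tau (F.pl p)) ≠ 1 := by
  obtain ⟨v, hv⟩ := unc_mem_un.1 hX
  obtain ⟨h1, x, h2⟩ := (hC.mem v p).1 hv
  refine ⟨h1, fun h3 => ?_⟩
  rw [h2] at h3
  exact (D.mem_R.1 v.2).1 (D.inj _ _ h3).1

/-- the difference of two homomorphisms with the same coordinates -/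
theorem unc_dif {ρ' : Gm k →* G} {f' : Gm k → VV D.n} (hC : UC F Rk D ρs M xs y X f ρ)
    (hC' : UC F Rk D ρs M xs y X f' ρ') :
    ∃ z : F.I →₀ VV D.n, ∀ σ, ρ σ = ρ' σ * D.zz (F.par z σ) := by
  have hadd : ∀ σ τ, (fun σ => f σ + f' σ) (σ * τ) = (fun σ => f σ + f' σ) σ +
      (fun σ => f σ + f' σ) τ := by
    intro σ τ
    have h1 := hC.isr.hom σ τ
    have h2 := hC'.isr.hom σ τ
    show f (σ * τ) + f' (σ * τ) = f σ + f' σ + (f τ + f' τ)
    rw [h1, h2]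
    have h3 := GD.two_V (D.β (F.par (xo F y X + xs) σ) (F.par (xo F y X + xs) τ))
    have h4 := GD.two_V (D.c (ρs τ) (F.par (xo F y X + xs) σ))
    have e : f σ + f τ + D.β (F.par (xo F y X + xs) σ) (F.par (xo F y X + xs) τ) +
        D.c (ρs τ) (F.par (xo F y X + xs) σ) +
        (f' σ + f' τ + D.β (F.par (xo F y X + xs) σ) (F.par (xo F y X + xs) τ) +
        D.c (ρs τ) (F.par (xo F y X + xs) σ)) = f σ + f' σ + (f τ + f' τ) +
        (D.β (F.par (xo F y X + xs) σ) (F.par (xo F y X + xs) τ) +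
          D.β (F.par (xo F y X + xs) σ) (F.par (xo F y X + xs) τ)) +
        (D.c (ρs τ) (F.par (xo F y X + xs) σ) + D.c (ρs τ) (F.par (xo F y X + xs) σ)) := by
      abel
    rw [e, h3, h4, add_zero, add_zero]
  obtain ⟨z, hz⟩ := F.par_exists (fun σ => f σ + f' σ) (hC.isr.lc.add hC'.isr.lc) hadd
  refine ⟨z, fun σ => ?_⟩
  rw [← hz, hC.eq, hC'.eq, mul_assoc, mul_assoc, ← D.zz_add]
  congr 3
  show f σ = f' σ + (f σ + f' σ)
  have e : f' σ + (f σ + f' σ) = f σ + (f' σ + f' σ) := by abel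
  rw [e, GD.two_V, add_zero]

theorem unc_nm {ι : Type} [Fintype ι] {S : Sys} {x : ι → Finset S.P} (h : S.Dj x) :
    S.nm (un x) = ∏ u, S.nm (x u) := by
  classical
  unfold un
  exact S.nm_biUnion Finset.univ x fun i _ j _ hij => h i j hij

end

theorem unc_pi {ι P : Type} [Fintype ι] (A : Finset P) (q : (ι → P) → Prop)
    (d1 d2 : DecidableEq ι) (e1 e2 : DecidablePred q) :
    (@Finset.filter _ q e1 (@Fintype.piFinset ι d1 _ _ (fun _ => A))).card =
      (@Finset.filter _ q e2 (@Fintype.piFinset ι d2 _ _ (fun _ => A))).card := by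
  rw [Subsingleton.elim d1 d2, Subsingleton.elim e1 e2]

theorem sunc (k : Type) [Field k] [NumberField k] : SUnc k := by
  classical
  intro F Rk G _ _ D _ ρs M xs y c Φ _ hok Y hY
  have hYp : 0 < Y := by linarith
  -- choices
  have hch : ∀ ρ : Gm k →* G, ∃ (X : D.R → Finset F.sys.P) (f : Gm k → VV D.n)
      (A : Finset F.sys.P), ρ ∈ US F Rk D ρs M xs y Y → UC F Rk D ρs M xs y X f ρ ∧
        (∀ p, p ∈ A ↔ (p ∉ M ∧ ρ (Rk.tau (F.pl p)) ≠ 1)) ∧ (F.sys.nm A : ℝ) ≤ Y := by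
    intro ρ
    by_cases h : ρ ∈ US F Rk D ρs M xs y Y
    · obtain ⟨_, ⟨X, f, h1⟩, A, h2, h3⟩ := h
      exact ⟨X, f, A, fun _ => ⟨h1, h2, h3⟩⟩
    · exact ⟨fun _ => ∅, fun _ => 0, ∅, fun h' => absurd h' h⟩
  choose X f A hX using hch
  have hb : ∀ X0 : D.R → Finset F.sys.P, ∃ β : Gm k →* G,
      (∃ ρ ∈ US F Rk D ρs M xs y Y, X ρ = X0) → β ∈ US F Rk D ρs M xs y Y ∧ X β = X0 := by
    intro X0
    by_cases h : ∃ ρ ∈ US F Rk D ρs M xs y Y, X ρ = X0
    · obtain ⟨ρ, h1, h2⟩ := h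
      exact ⟨ρ, fun _ => ⟨h1, h2⟩⟩
    · exact ⟨1, fun h' => absurd h' h⟩
  choose β hβ using hb
  have hbr : ∀ ρ ∈ US F Rk D ρs M xs y Y, β (X ρ) ∈ US F Rk D ρs M xs y Y ∧
      X (β (X ρ)) = X ρ := fun ρ hρ => hβ (X ρ) ⟨ρ, hρ, rfl⟩
  have hzz : ∀ ρ : Gm k →* G, ∃ z : F.I →₀ VV D.n, ρ ∈ US F Rk D ρs M xs y Y →
      ∀ σ, ρ σ = β (X ρ) σ * D.zz (F.par z σ) := by
    intro ρ
    by_cases h : ρ ∈ US F Rk D ρs M xs y Y
    · have h1 := (hX ρ h).1
      have h2 := (hX _ (hbr ρ h).1).1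
      rw [(hbr ρ h).2] at h2
      obtain ⟨z, hz⟩ := unc_dif h1 h2
      exact ⟨z, fun _ => hz⟩
    · exact ⟨0, fun h' => absurd h' h⟩
  choose z hz using hzz
  -- the values of the coordinates at the primes
  have hzp : ∀ ρ ∈ US F Rk D ρs M xs y Y, ∀ p : F.sys.P,
      ρ (Rk.tau (F.pl p)) = β (X ρ) (Rk.tau (F.pl p)) * D.zz (z ρ (Sum.inr p)) := by
    intro ρ hρ p
    rw [hz ρ hρ, F.par_tau Rk.toRx]
  have hzM : ∀ ρ ∈ US F Rk D ρs M xs y Y, ∀ p ∈ M, z ρ (Sum.inr p) = 0 := by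
    intro ρ hρ p hp
    have h1 := hzp ρ hρ p
    rw [hρ.1.inM p hp, (hbr ρ hρ).1.1.inM p hp] at h1
    have h2 : D.zz (z ρ (Sum.inr p)) = D.zz 0 := by
      rw [D.zz_zero]
      exact (left_eq_mul.1 h1)
    exact D.zz_inj h2
  -- the coordinates
  let W : (Gm k →* G) → RZ D.n → Finset F.sys.P := fun ρ v =>
    (A ρ).filter fun p => p ∉ un (X ρ) ∧ ρ (Rk.tau (F.pl p)) = D.zz v
  let g : (Gm k →* G) → (F.sys.P →₀ VV D.n) := fun ρ =>
    Finsupp.onFinset (un (X ρ)) (fun p => if p ∈ un (X ρ) then z ρ (Sum.inr p) else 0)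
      (fun p hp => by
        by_contra h
        rw [if_neg h] at hp
        exact hp rfl)
  let Ψ : (Gm k →* G) → (Σ _ : (D.R → Finset F.sys.P),
      (Fin F.sys.m → VV D.n) × (F.sys.P →₀ VV D.n) × (RZ D.n → Finset F.sys.P)) :=
    fun ρ => ⟨X ρ, (fun j => z ρ (Sum.inl j), g ρ, W ρ)⟩
  let AA : Finset (D.R → Finset F.sys.P) :=
    (Fintype.piFinset (fun _ : D.R => F.sys.bx Y)).filter fun x =>
      F.sys.Dj x ∧ Off F.sys M x ∧ okc D.Bd D.R c x ∧ Φ (pat x) ∧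
        ((∏ u, F.sys.nm (x u) : ℕ) : ℝ) ≤ Y
  let WW : (D.R → Finset F.sys.P) → Finset (RZ D.n → Finset F.sys.P) := fun x =>
    (Fintype.piFinset (fun _ : RZ D.n =>
      F.sys.bx (Y / (∏ u, F.sys.nm (x u) : ℕ)))).filter fun w =>
        F.sys.Dj w ∧ Off F.sys (un x) w ∧
          ((∏ u, F.sys.nm (w u) : ℕ) : ℝ) ≤ Y / (∏ u, F.sys.nm (x u) : ℕ)
  let TT := AA.sigma fun x =>
    (Finset.univ : Finset (Fin F.sys.m → VV D.n)) ×ˢ asg D.n (un x) ×ˢ WW x
  -- the image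
  have hmaps : ∀ ρ ∈ US F Rk D ρs M xs y Y, Ψ ρ ∈ (TT : Set _) := by
    intro ρ hρ
    obtain ⟨hC, hAm, hAY⟩ := hX ρ hρ
    have hWd : F.sys.Dj (W ρ) := by
      intro v w hvw
      rw [Finset.disjoint_left]
      intro p hp hp'
      have h1 := (Finset.mem_filter.1 hp).2.2
      have h2 := (Finset.mem_filter.1 hp').2.2
      rw [h1] at h2
      exact hvw (Subtype.ext (D.zz_inj h2))
    have hWo : Off F.sys (un (X ρ)) (W ρ) := by
      intro v
      rw [Finset.disjoint_left]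
      intro p hp hp'
      exact (Finset.mem_filter.1 hp).2.1 hp'
    have hXA : un (X ρ) ⊆ A ρ := fun p hp => (hAm p).2 (unc_ram hC hp)
    have hWA : un (W ρ) ⊆ A ρ := by
      intro p hp
      obtain ⟨v, hv⟩ := unc_mem_un.1 hp
      exact (Finset.mem_filter.1 hv).1
    have hdis : Disjoint (un (X ρ)) (un (W ρ)) := by
      rw [Finset.disjoint_left]
      intro p hp hp'
      obtain ⟨v, hv⟩ := unc_mem_un.1 hp'
      exact (Finset.mem_filter.1 hv).2.1 hp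
    have hprod : (∏ u, F.sys.nm (X ρ u)) * (∏ u, F.sys.nm (W ρ u)) ≤ F.sys.nm (A ρ) := by
      rw [← unc_nm hC.dj, ← unc_nm hWd, ← F.sys.nm_union hdis]
      exact F.sys.nm_mono (Finset.union_subset hXA hWA)
    have hp1 : 0 < ∏ u, F.sys.nm (X ρ u) := Finset.prod_pos fun u _ => F.sys.nm_pos _
    have hp2 : 0 < ∏ u, F.sys.nm (W ρ u) := Finset.prod_pos fun u _ => F.sys.nm_pos _
    have hprodr : ((∏ u, F.sys.nm (X ρ u) : ℕ) : ℝ) * ((∏ u, F.sys.nm (W ρ u) : ℕ) : ℝ) ≤ Y := by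
      refine le_trans ?_ hAY
      exact_mod_cast hprod
    have hXY : ((∏ u, F.sys.nm (X ρ u) : ℕ) : ℝ) ≤ Y := by
      refine le_trans ?_ hAY
      have h1 : F.sys.nm (un (X ρ)) ≤ F.sys.nm (A ρ) := F.sys.nm_mono hXA
      rw [unc_nm hC.dj] at h1
      exact_mod_cast h1
    have hp1r : (0 : ℝ) < ((∏ u, F.sys.nm (X ρ u) : ℕ) : ℝ) := by exact_mod_cast hp1
    have hWY : ((∏ u, F.sys.nm (W ρ u) : ℕ) : ℝ) ≤ Y / (∏ u, F.sys.nm (X ρ u) : ℕ) := by
      rw [le_div_iff₀ hp1r, mul_comm]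
      exact hprodr
    rw [Finset.mem_coe, Finset.mem_sigma]
    refine ⟨Finset.mem_filter.2 ⟨Fintype.mem_piFinset.2 fun v => ?_, hC.dj, hC.off,
      (hok ρ _ _ hρ.1 hC).1, (hok ρ _ _ hρ.1 hC).2, hXY⟩, ?_⟩
    · rw [F.sys.mem_bx]
      refine le_trans ?_ hAY
      have h1 : F.sys.nm (X ρ v) ≤ F.sys.nm (A ρ) :=
        F.sys.nm_mono (fun p hp => hXA (unc_mem_un.2 ⟨v, hp⟩))
      exact_mod_cast h1
    · rw [Finset.mem_product, Finset.mem_product]
      refine ⟨Finset.mem_univ _, ?_, Finset.mem_filter.2 ⟨Fintype.mem_piFinset.2 fun v => ?_,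
        hWd, hWo, hWY⟩⟩
      · show g ρ ∈ asg D.n (un (X ρ))
        unfold asg
        rw [Finset.mem_finsupp_iff]
        refine ⟨Finsupp.support_onFinset_subset, fun _ _ => Finset.mem_univ _⟩
      · rw [F.sys.mem_bx]
        refine le_trans ?_ hWY
        have h1 : F.sys.nm (W ρ v) ≤ ∏ u, F.sys.nm (W ρ u) := by
          rw [← unc_nm hWd]
          exact F.sys.nm_mono (fun p hp => unc_mem_un.2 ⟨v, hp⟩)
        exact_mod_cast h1
  -- injectivity
  have hinj : Set.InjOn Ψ (US F Rk D ρs M xs y Y) := by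
    intro ρ hρ ρ' hρ' he
    have e1 : X ρ = X ρ' := congrArg Sigma.fst he
    have e2 : (fun j => z ρ (Sum.inl j), g ρ, W ρ) = (fun j => z ρ' (Sum.inl j), g ρ', W ρ') := by
      have := Sigma.mk.inj he
      exact eq_of_heq this.2
    have e3 : (fun j => z ρ (Sum.inl j)) = (fun j => z ρ' (Sum.inl j)) := congrArg Prod.fst e2
    have e4 : g ρ = g ρ' := congrArg (fun t => t.2.1) e2
    have e5 : W ρ = W ρ' := congrArg (fun t => t.2.2) e2
    obtain ⟨hC, hAm, hAY⟩ := hX ρ hρ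
    obtain ⟨hC', hAm', hAY'⟩ := hX ρ' hρ'
    -- values at the primes without noncentral inertia
    have hval : ∀ p, p ∉ M → p ∉ un (X ρ) → ρ (Rk.tau (F.pl p)) = ρ' (Rk.tau (F.pl p)) := by
      intro p hp hpX
      obtain ⟨x, hx⟩ := unc_val hρ.1 hC hp hpX
      obtain ⟨x', hx'⟩ := unc_val hρ'.1 hC' hp (e1 ▸ hpX)
      by_cases h0 : x = 0
      · by_cases h0' : x' = 0
        · rw [hx, hx', h0, h0']
        · exfalso
          have h1 : p ∈ W ρ' ⟨x', Finset.mem_filter.2 ⟨Finset.mem_univ _, h0'⟩⟩ := by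
            refine Finset.mem_filter.2 ⟨(hAm' p).2 ⟨hp, fun h2 => ?_⟩, e1 ▸ hpX, hx'⟩
            rw [hx', ← D.zz_zero] at h2
            exact h0' (D.zz_inj h2)
          rw [← e5] at h1
          have h2 := (Finset.mem_filter.1 h1).2.2
          rw [hx, h0] at h2
          exact h0' (D.zz_inj h2).symm
      · have h1 : p ∈ W ρ ⟨x, Finset.mem_filter.2 ⟨Finset.mem_univ _, h0⟩⟩ := by
          refine Finset.mem_filter.2 ⟨(hAm p).2 ⟨hp, fun h2 => ?_⟩, hpX, hx⟩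
          rw [hx, ← D.zz_zero] at h2
          exact h0 (D.zz_inj h2)
        rw [e5] at h1
        rw [hx, (Finset.mem_filter.1 h1).2.2]
    have hzeq : z ρ = z ρ' := by
      refine Finsupp.ext fun i => ?_
      rcases i with j | p
      · exact congrFun e3 j
      · by_cases hp : p ∈ M
        · rw [hzM ρ hρ p hp, hzM ρ' hρ' p hp]
        · by_cases hpX : p ∈ un (X ρ)
          · have h1 := DFunLike.congr_fun e4 p
            have h2 : g ρ p = z ρ (Sum.inr p) := if_pos hpX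
            have h3 : g ρ' p = z ρ' (Sum.inr p) := if_pos (e1 ▸ hpX)
            rw [h2, h3] at h1
            exact h1
          · have h1 := hzp ρ hρ p
            have h2 := hzp ρ' hρ' p
            rw [hval p hp hpX, h2, e1] at h1
            exact (D.zz_inj (mul_left_cancel h1)).symm
    refine MonoidHom.ext fun σ => ?_
    rw [hz ρ hρ, hz ρ' hρ', hzeq, e1]
  have hfin : (US F Rk D ρs M xs y Y).Finite :=
    Set.Finite.of_finite_image ((Finset.finite_toSet TT).subset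
      (Set.image_subset_iff.2 hmaps)) hinj
  refine ⟨hfin, ?_⟩
  have hcard : (US F Rk D ρs M xs y Y).ncard ≤ TT.card := by
    have h1 := Set.ncard_le_ncard_of_injOn Ψ hmaps hinj (Finset.finite_toSet TT)
    rwa [Set.ncard_coe_finset] at h1
  have hcr : ((US F Rk D ρs M xs y Y).ncard : ℝ) ≤ (TT.card : ℝ) := by exact_mod_cast hcard
  refine hcr.trans (le_of_eq ?_)
  have hT : (TT.card : ℝ) = ∑ x ∈ AA, ((2 : ℝ) ^ D.n) ^ F.sys.m *
      (∑ _z ∈ asg D.n (un x), ((WW x).card : ℝ)) := by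
    rw [Finset.card_sigma]
    push_cast
    refine Finset.sum_congr rfl fun x _ => ?_
    rw [Finset.card_product, Finset.card_product, Finset.sum_const, nsmul_eq_mul,
      Finset.card_univ, Fintype.card_fun, Fintype.card_fun, ZMod.card, Fintype.card_fin,
      Fintype.card_fin]
    push_cast
    ring
  rw [hT]
  unfold NN
  rw [Finset.mul_sum, Finset.sum_filter]
  refine Finset.sum_congr rfl fun x _ => ?_
  split_ifs with h
  · congr 1
    refine Finset.sum_congr rfl fun z _ => ?_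
    unfold CC
    rw [Finset.sum_ite, Finset.sum_const_zero, add_zero, Finset.sum_const, nsmul_eq_mul, mul_one]
    show (((WW x).card : ℕ) : ℝ) = _
    exact congrArg (fun n : ℕ => (n : ℝ)) (unc_pi _ _ _ _ _ _)
  · rw [mul_zero]

end Pool.Agent.EV
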