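import Pool.Agent.EV.UStm
import Pool.Agent.EV.ATm
import Pool.Agent.H98.MF.ExistsInvA
import Pool.Agent.H98.MF.LhTauK
import Pool.Agent.H98.MF.ParK
import Pool.Agent.H32.MQ.HBase

/-!
# Project T4 (MP_a3214d), even order, row UN4: the local conditions
-/

set_option autoImplicit false

open scoped BigOperators
open NumberField IsDedekindDomain

namespace Pool.Agent.EV

open Pool.Agent.H98.MF
open Pool.Agent.H98.MK (sg)
open Pool.Agent.H32.MQ (El rep co)
open Pool.Agent.D8 (pat RxF)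
open Pool.Agent.H92.EL (Om1 Ncl TM InnU)

section

variable {k : Type} [Field k] [NumberField k] {F : Frm k} {Rk : RxF k} {G : Type} [Group G]
  {D : GD G}

omit [NumberField k] in
theorem uok_ker [Finite G] (hG : IsPGroup 2 G) (ρ : Gm k →* G) :
    ∃ j, ρ.ker.index = 2 ^ j := by
  rw [Subgroup.index_ker]
  have h1 : Nat.card ρ.range ∣ Nat.card G := Subgroup.card_subgroup_dvd_card _
  obtain ⟨n, hn⟩ := IsPGroup.iff_card.1 hG
  rw [hn] at h1
  obtain ⟨j, -, hj⟩ := (Nat.dvd_prime_pow Nat.prime_two).1 h1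
  exact ⟨j, hj⟩

omit [NumberField k] in
theorem uok_open (ρ : Gm k →* G) (h : IsLocallyConstant ρ) :
    IsOpen (ρ.ker : Set (Gm k)) := by
  have h1 : (ρ.ker : Set (Gm k)) = ρ ⁻¹' {1} := by
    ext σ
    exact MonoidHom.mem_ker
  rw [h1]
  exact h.isOpen_fiber 1

/-- the Frobenius element commutes with inertia of order two -/
theorem uok_comm [Finite G] (hG : IsPGroup 2 G) (ρ : Gm k →* G) (h : IsLocallyConstant ρ)
    (p : F.sys.P) (h2 : ρ (Rk.tau (F.pl p)) ^ 2 = 1) :
    ρ (Rk.phi (F.pl p)) * ρ (Rk.tau (F.pl p)) = ρ (Rk.tau (F.pl p)) * ρ (Rk.phi (F.pl p)) := by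
  have ho := F.ltk_two p
  have htf := Rk.tf (F.pl p) ho
  have h1 := htf.rel ρ.ker inferInstance (uok_open ρ h) (uok_ker hG ρ)
  rw [MonoidHom.mem_ker, map_mul, map_mul, map_mul, map_inv, map_inv, map_pow,
    mul_inv_eq_one] at h1
  have h3 : Odd (Ideal.absNorm (F.pl p).asIdeal) := by
    have h4 := atm_odd (F.pl p) ho
    exact Nat.coprime_two_left.1 h4
  obtain ⟨m, hm⟩ := h3
  rw [hm, pow_succ, pow_mul, h2, one_pow, one_mul] at h1
  rw [mul_inv_eq_iff_eq_mul] at h1
  exact h1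

/-- the commutator of a commuting element vanishes -/
theorem uok_c {g : G} {v : VV D.d} {x : VV D.n}
    (h : g * (D.s v * D.zz x) = D.s v * D.zz x * g) : D.c g v = 0 := by
  have h1 : D.s v * D.zz x * g = g * (D.s v * D.zz (D.c g v + x)) := by
    rw [mul_assoc, D.zz_cen, ← mul_assoc, D.com, D.zz_add]
    simp only [mul_assoc]
  rw [h1] at h
  have h2 := D.sz_inj (mul_left_cancel h)
  have h3 := h2.2
  funext i
  have h4 : x i = D.c g v i + x i := congrFun h3 i
  have h5 : D.c g v i = 0 := by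
    have h6 := congrArg (fun t => t + x i) h4
    simp only [add_assoc, CharTwo.add_self_eq_zero, add_zero] at h6
    exact h6.symm
  exact h5

/-- evaluation as an additive map -/
noncomputable def uokH (F : Frm k) {r : ℕ} (σ : Gm k) : (F.I →₀ (Fin r → ZMod 2)) →+
    (Fin r → ZMod 2) :=
  AddMonoidHom.mk' (fun x => F.par x σ) fun x y => F.par_add x y σ

theorem uok_par {d : ℕ} {R : Finset (VV d)} (y : Fin F.sys.m → VV d)
    (X : R → Finset F.sys.P) (σ : Gm k) : F.par (xo F y X) σ = F.parU y σ +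
      ∑ v : R, (∑ p ∈ X v, chi (F.pi p : k) σ) • (v : VV d) := by
  classical
  change uokH F σ (xo F y X) = _
  unfold xo
  rw [map_add, map_sum, map_sum]
  congr 1
  · unfold Frm.parU
    refine Finset.sum_congr rfl fun j _ => ?_
    change F.par (Finsupp.single (Sum.inl j) (y j)) σ = _
    rw [Pool.Agent.H98.MF.Frm.Inv.par_single]
    rfl
  · refine Finset.sum_congr rfl fun v _ => ?_
    rw [map_sum, Finset.sum_smul]
    refine Finset.sum_congr rfl fun p _ => ?_
    change F.par (Finsupp.single (Sum.inr p) (v : VV d)) σ = _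
    rw [Pool.Agent.H98.MF.Frm.Inv.par_single]
    rfl

theorem uok_pi (p q : F.sys.P) (h : q ≠ p) :
    chi (F.pi q : k) (Rk.phi (F.pl p)) = F.sys.J q p := by
  have htf := Rk.tf (F.pl p) (F.ltk_two p)
  have h1 : ord (F.pl p) (F.pi q : k) = 0 := F.pi_other q p h.symm
  have h2 := htf.chi0 (F.pi q : k) (Units.ne_zero _) (by rw [h1]; exact Even.zero)
  rw [h2.2, F.J_eq q p h]

theorem uok_rep (c : El F.sys) (p : F.sys.P) (h : p ∉ c.2) :
    chi (rep F c : k) (Rk.phi (F.pl p)) = xc c p := by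
  have htf := Rk.tf (F.pl p) (F.ltk_two p)
  have h1 := Pool.Agent.H32.MQ.h_repO (Fr := F) c p
  rw [if_neg h] at h1
  have h2 := htf.chi0 (rep F c : k) (Units.ne_zero _) (by rw [h1]; exact Even.zero)
  rw [h2.2, Pool.Agent.H32.MQ.h_repQ F c p h]
  rfl

end

/-- **Row UN4.** The local conditions. -/
theorem suok (k : Type) [Field k] [NumberField k] : SUok k := by
  classical
  intro F Rk G _ _ D hG ρs M xs y c hc ρ X f hρ hX v p hp ζ
  obtain ⟨hpM, x, hx⟩ := (hX.mem v p).1 hp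
  have h1 := uok_comm hG ρ hρ.lc p (hρ.out p hpM)
  rw [hx] at h1
  have h2 := uok_c h1
  rw [hX.eq, D.c_mul, D.c_mul, D.c_zz, add_zero, D.c_s'] at h2
  have h3 : F.par (xo F y X + xs) (Rk.phi (F.pl p)) =
      (F.parU y (Rk.phi (F.pl p)) + F.par xs (Rk.phi (F.pl p))) +
        ∑ w : D.R, (∑ q ∈ X w, chi (F.pi q : k) (Rk.phi (F.pl p))) • (w : VV D.d) := by
    rw [F.par_add, uok_par]
    abel
  rw [h3, map_add, LinearMap.add_apply, ← add_assoc] at h2
  have h4 := congrArg (fun t => ζ ⬝ᵥ t) h2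
  simp only [dotProduct_add, dotProduct_zero] at h4
  have h5 := hc.eq v ζ (Rk.phi (F.pl p))
  have hpc : p ∉ (c v ζ).2 := fun h => hpM (hc.sub _ _ h)
  rw [uok_rep (c v ζ) p hpc, dotProduct_add] at h5
  rw [← h5] at h4
  have h6 : ζ ⬝ᵥ (D.Bd.B (∑ w : D.R, (∑ q ∈ X w, chi (F.pi q : k) (Rk.phi (F.pl p))) •
      (w : VV D.d))) v = ∑ w : D.R, (∑ q ∈ X w, F.sys.J q p) * (ζ ⬝ᵥ D.Bd.B w v) := by
    rw [map_sum, LinearMap.sum_apply, dotProduct_sum]
    refine Finset.sum_congr rfl fun w _ => ?_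
    rw [map_smul, LinearMap.smul_apply, dotProduct_smul, smul_eq_mul]
    by_cases hw : w = v
    · rw [hw, D.Bd.alt, dotProduct_zero, mul_zero, mul_zero]
    · congr 1
      refine Finset.sum_congr rfl fun q hq => uok_pi p q fun hqp => ?_
      rw [hqp] at hq
      exact Finset.disjoint_left.1 (hX.dj w v hw) hq hp
  rw [h6] at h4
  rw [add_comm]
  exact h4

end Pool.Agent.EV
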