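import Pool.Agent.EV.UStm
import Pool.Agent.H98.MF.ParK
import Pool.Agent.H98.MF.ChiM

/-!
# Project T4 (MP_a3214d), even order, row UN5: the patterns, and the exponent
-/

set_option autoImplicit false

open scoped BigOperators
open NumberField IsDedekindDomain

namespace Pool.Agent.EV

open Pool.Agent.H98.MF
open Pool.Agent.H98.MK (sg)
open Pool.Agent.H32.MQ (El rep co)
open Pool.Agent.D8 (pat RxF)
open Pool.Agent.H92.EL (Om1 Ncl TM InnU)

section

variable {k : Type} [Field k] [NumberField k] (F : Frm k)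

private theorem uph_zero {r : ℕ} (σ : Gm k) : F.par (0 : F.I →₀ (Fin r → ZMod 2)) σ = 0 := by
  unfold Frm.par
  exact Finsupp.sum_zero_index

private theorem uph_sum {r : ℕ} {ι : Type} (s : Finset ι) (x : ι → F.I →₀ (Fin r → ZMod 2))
    (σ : Gm k) : F.par (∑ i ∈ s, x i) σ = ∑ i ∈ s, F.par (x i) σ := by
  classical
  induction s using Finset.induction_on with
  | empty => rw [Finset.sum_empty, Finset.sum_empty, uph_zero]
  | insert i s hi ih => rw [Finset.sum_insert hi, Finset.sum_insert hi, F.par_add, ih]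

private theorem uph_single {r : ℕ} (i : F.I) (v : Fin r → ZMod 2) (σ : Gm k) :
    F.par (Finsupp.single i v) σ = chi (F.e i : k) σ • v := by
  unfold Frm.par
  exact Finsupp.sum_single_index (smul_zero _)

private theorem uph_par {d : ℕ} {R : Finset (VV d)} (y : Fin F.sys.m → VV d)
    (X : R → Finset F.sys.P) (σ : Gm k) : F.par (xo F y X) σ = F.parU y σ +
      ∑ v : R, ∑ p ∈ X v, chi (F.pi p : k) σ • (v : VV d) := by
  unfold xo
  rw [F.par_add, uph_sum, uph_sum]
  congr 1
  · unfold Frm.parU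
    refine Finset.sum_congr rfl fun j _ => ?_
    rw [uph_single]
    rfl
  · refine Finset.sum_congr rfl fun v _ => ?_
    rw [uph_sum]
    refine Finset.sum_congr rfl fun p _ => ?_
    rw [uph_single]
    rfl

private theorem uph_rep (σ : Gm k) : chi (rep F ((0, ∅) : El F.sys) : k) σ = 0 := by
  have h1 : rep F ((0, ∅) : El F.sys) = 1 := by
    unfold rep
    rw [Finset.prod_empty, mul_one]
    refine Finset.prod_eq_one fun j _ => ?_
    show F.u j ^ (0 : ZMod 2).val = 1
    rw [ZMod.val_zero, pow_zero]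
  rw [h1]
  exact Pool.Agent.H98.MF.M6a.chi_one σ

end

theorem suph (k : Type) [Field k] [NumberField k] : SUph k := by
  classical
  intro F Rk G _ _ D ρs M xs y c hc ρ X f hA hC
  -- the main point
  have key : ∀ v ζ, c v ζ = (0, ∅) → (∀ w ∈ pat X, ζ ⬝ᵥ D.Bd.B (w : VV D.d) v = 0) →
      ∀ g, ζ ⬝ᵥ D.c g v = 0 := by
    intro v ζ hζ hw g
    obtain ⟨σ, rfl⟩ := hA.sur g
    have e1 : D.c (ρ σ) v = D.c (ρs σ) v + D.Bd.B (F.par (xo F y X + xs) σ) v := by
      rw [hC.eq σ, D.c_mul, D.c_mul, D.c_zz, add_zero, D.c_s']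
    have e2 : F.par (xo F y X + xs) σ = (F.parU y σ + F.par xs σ) +
        ∑ w : D.R, ∑ p ∈ X w, chi (F.pi p : k) σ • (w : VV D.d) := by
      rw [F.par_add, uph_par]
      abel
    have e3 : ζ ⬝ᵥ D.Bd.B (∑ w : D.R, ∑ p ∈ X w, chi (F.pi p : k) σ • (w : VV D.d)) v = 0 := by
      rw [map_sum, LinearMap.sum_apply, dotProduct_sum]
      refine Finset.sum_eq_zero fun w _ => ?_
      rw [map_sum, LinearMap.sum_apply, dotProduct_sum]
      refine Finset.sum_eq_zero fun p hp => ?_
      rw [map_smul, LinearMap.smul_apply, dotProduct_smul, hw w, smul_zero]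
      unfold pat
      rw [Finset.mem_filter]
      exact ⟨Finset.mem_univ _, ⟨p, hp⟩⟩
    rw [e1, e2, map_add, LinearMap.add_apply, ← add_assoc, dotProduct_add, e3, add_zero,
      ← hc.eq v ζ σ, hζ]
    exact uph_rep F σ
  refine ⟨?_, ?_⟩
  · intro v _ ζ hζ hw w
    have h := key v ζ hζ hw (D.s w)
    rwa [D.c_s'] at h
  · intro v _
    unfold nv nvG
    refine Finset.card_le_card fun ζ hζ => ?_
    rw [Finset.mem_filter] at hζ ⊢
    exact ⟨Finset.mem_univ _, key v ζ hζ.2.1 fun w _ => hζ.2.2 w⟩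

end Pool.Agent.EV
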