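import Pool.Agent.EV.UStm
import Pool.Agent.H98.MF.LhTauK

/-!
# Project T4 (MP_a3214d), even order: the ramification of the base point (row EV-UN1)
-/

set_option autoImplicit false

open scoped BigOperators
open NumberField IsDedekindDomain

namespace Pool.Agent.EV

open Pool.Agent.H98.MF
open Pool.Agent.D8 (RxF)
open Pool.Agent.H92.EL (Om1)

section

variable {k : Type} [Field k] [NumberField k] (F : Frm k) (Rk : RxF k)

/-- a locally constant homomorphism to a finite 2-group is ramified at finitely many primes -/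
theorem uxs_fin {G : Type} [Group G] [Finite G] (hG : IsPGroup 2 G) (ρ : Gm k →* G)
    (hρ : IsLocallyConstant ρ) : {p : F.sys.P | ρ (Rk.tau (F.pl p)) ≠ 1}.Finite := by
  have hop : IsOpen (ρ.ker : Set (Gm k)) := by
    have h := hρ.isOpen_fiber (1 : G)
    have h2 : (ρ.ker : Set (Gm k)) = {x | ρ x = 1} := by
      ext x
      exact MonoidHom.mem_ker
    rw [h2]
    exact h
  have hidx : ∃ j, ρ.ker.index = 2 ^ j := by
    rw [Subgroup.index_ker]
    have : Fact (Nat.Prime 2) := ⟨Nat.prime_two⟩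
    exact (IsPGroup.iff_card.1 (hG.to_subgroup ρ.range))
  refine Set.Finite.subset ((Rk.fin ρ.ker hop).preimage F.pl_inj.injOn) fun p hp => ?_
  have h2 := Rk.disc (F.pl p) (F.ltk_two p) ρ.ker hop hidx ρ.ker le_rfl
  have h3 : Pool.Agent.H98.ML.norb ρ.ker (Rk.tau (F.pl p)) < ρ.ker.index := by
    apply Pool.Agent.H98.ML.m3_norb_lt
    · obtain ⟨j, hj⟩ := hidx
      rw [hj]
      positivity
    · intro h
      exact hp (MonoidHom.mem_ker.1 h)
  show Rk.rex (F.pl p) ρ.ker ≠ 0
  omega

end

/-- EV-UN1 -/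
theorem suxs (k : Type) [Field k] [NumberField k] : SUxs k := by
  classical
  intro F Rk G _ _ D hG ρs M h
  have hfin := uxs_fin F Rk hG ρs h.lc
  have h1 : ∀ p : F.sys.P, ∃ v : VV D.d, (p ∈ M → v = 0) ∧
      (p ∉ M → ∃ x, ρs (Rk.tau (F.pl p)) = D.s v * D.zz x) := by
    intro p
    by_cases hp : p ∈ M
    · exact ⟨0, fun _ => rfl, fun h => absurd hp h⟩
    · have h2 : ρs (Rk.tau (F.pl p)) ∈ Om1 2 G :=
        Subgroup.subset_closure (h.out p hp)
      obtain ⟨v, x, hv⟩ := (D.mem _).1 h2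
      exact ⟨v, fun h => absurd h hp, fun _ => ⟨x, hv⟩⟩
  choose V hV0 hV using h1
  let f : F.I → VV D.d := Sum.elim (fun _ => 0) V
  refine ⟨Finsupp.onFinset (hfin.toFinset.image Sum.inr) f ?_, ?_, ?_, ?_⟩
  · rintro (j | p) hne
    · exact absurd rfl hne
    · refine Finset.mem_image.2 ⟨p, ?_, rfl⟩
      rw [Set.Finite.mem_toFinset]
      intro h3
      apply hne
      show V p = 0
      by_cases hp : p ∈ M
      · exact hV0 p hp
      · obtain ⟨x, hx⟩ := hV p hp
        rw [h3] at hx
        exact ((D.inj _ _ hx.symm)).1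
  · intro j
    rfl
  · intro p hp
    exact hV0 p hp
  · intro p hp
    exact hV p hp

end Pool.Agent.EV
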