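import Pool.Agent.EV.UFin
import Pool.Agent.EV.UB
import Pool.Agent.EV.UXs
import Pool.Agent.EV.UCo
import Pool.Agent.EV.UCl
import Pool.Agent.EV.UOk
import Pool.Agent.EV.UPh
import Pool.Agent.EV.UNc
import Pool.Agent.EV.UN0

/-!
# Project T4 (MP_a3214d), even order: the uniform inner statement from the analytic part
-/

set_option autoImplicit false

namespace Pool.Agent.EV

/-- the uniform inner statement, from the analytic part -/
theorem sinnU_of (h : SUnf) (hc : SCc) (k : Type) [Field k] [NumberField k] : SInnU k :=
  sinnU k sub_ (suxs k) (suco k) (sucl k) (suok k) (suph k) (sunc k) (sun0 hc) h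

end Pool.Agent.EV
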