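import Pool.Agent.EV.AFin
import Pool.Agent.EV.AEnd
import Pool.Agent.EV.UEnd
import Pool.Agent.EV.ENil
import Pool.Agent.EV.GrpD
import Pool.Agent.EV.CAll
import Pool.Agent.H92.EL.ZDis
import Pool.Agent.H92.EL.DHer
import Pool.Agent.H92.EL.DRel
import Pool.Agent.H92.EL.DLoc
import Pool.Agent.H92.EL.DDis

/-!
# Project T4 (MP_a3214d), even order: the inner counting statements
-/

set_option autoImplicit false

namespace Pool.Agent.EV

open Pool.Agent.H92.EL (TM Ncl Zt InnF InnU Hyp ZDis SHer)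

theorem all_dis : ZDis :=
  Pool.Agent.H92.EL.zdis (Pool.Agent.H92.EL.sprodT Pool.Agent.H92.EL.sdisT)
    Pool.Agent.H92.EL.sexp Pool.Agent.H92.EL.sdisT

theorem all_her : SHer := Pool.Agent.H92.EL.sher Pool.Agent.H92.EL.sbdT

/-- the inner counting statements for the prime two -/
theorem inn_even_of (hB : SbOk) (hA : SeAb) :
    ∀ (k : Type) [Field k] [NumberField k] (T : TM k) (G : Type) [Group G], Hyp 2 G → Zt 2 G →
      InnF T G 2 (Nat.card (Ncl 2 G)) ∧ InnU T G 2 (Nat.card (Ncl 2 G)) :=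
  inn_even sgD (seF2_of hB all_fix) hA (fun k _ _ => sinnU_of all_unf all_cc k)
    (seNil all_dis all_her)

end Pool.Agent.EV
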