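import Pool.Agent.EV.AStm
import Pool.Agent.EV.UOk

/-!
# Project T4 (MP_a3214d), even order, row B4: the condition at the primes of a configuration
-/

set_option autoImplicit false

open scoped BigOperators
open NumberField IsDedekindDomain

namespace Pool.Agent.EV

open Pool.Agent.H98.MF
open Pool.Agent.H98.MK (sg)
open Pool.Agent.H32.MQ (El rep co)
open Pool.Agent.D8 (pat RxF)

section

variable {k : Type} [Field k] [NumberField k] {F : Frm k} {Rk : RxF k}

theorem bok_u (p : F.sys.P) (j : Fin F.sys.m) :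
    chi (F.u j : k) (Rk.phi (F.pl p)) = F.sys.ty p j := by
  have htf := Rk.tf (F.pl p) (F.ltk_two p)
  have h1 : ord (F.pl p) (F.u j : k) = 0 := F.parK_ord_u p j
  have h2 := htf.chi0 (F.u j : k) (Units.ne_zero _) (by rw [h1]; exact Even.zero)
  rw [h2.2, F.ty_eq p j]

theorem bok_xc (t : F.sys.T) (p : F.sys.P) :
    xc ((t, ∅) : El F.sys) p = ∑ j, t j * F.sys.ty p j := by
  have h1 : xc ((t, ∅) : El F.sys) p = F.sys.ex ∅ t p := rfl
  rw [h1]
  simp [Sys.ex, dotProduct]

end

/-- B4 -/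
theorem sbOk : SbOk := by
  classical
  intro k _ _ F Rk G _ D ρ y c hc X hX
  have key : ∀ (v : D.R) (p : F.sys.P), p ∈ X v → ∀ ζ : VV D.n,
      ζ ⬝ᵥ (D.c (ρ (Rk.phi (F.pl p))) v +
        D.Bd.B (F.par (xo F y X) (Rk.phi (F.pl p))) v) =
      ∑ w : D.R, (∑ q ∈ X w, F.sys.J q p) * (ζ ⬝ᵥ D.Bd.B w v) +
        xc (cT (S := F.sys) c v ζ) p := by
    intro v p hp ζ
    have h5 := hc.eq v ζ (Rk.phi (F.pl p))
    have h6 : ζ ⬝ᵥ (D.Bd.B (∑ w : D.R, (∑ q ∈ X w, chi (F.pi q : k) (Rk.phi (F.pl p))) •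
        (w : VV D.d))) v = ∑ w : D.R, (∑ q ∈ X w, F.sys.J q p) * (ζ ⬝ᵥ D.Bd.B w v) := by
      rw [map_sum, LinearMap.sum_apply, dotProduct_sum]
      refine Finset.sum_congr rfl fun w _ => ?_
      rw [map_smul, LinearMap.smul_apply, dotProduct_smul, smul_eq_mul]
      by_cases hw : w = v
      · rw [hw, D.Bd.alt, dotProduct_zero, mul_zero, mul_zero]
      · congr 1
        refine Finset.sum_congr rfl fun q hq => uok_pi p q fun hqp => ?_
        rw [hqp] at hq
        exact Finset.disjoint_left.1 (hX w v hw) hq hp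
    have h7 : xc (cT (S := F.sys) c v ζ) p =
        ∑ j, c v ζ j * chi (F.u j : k) (Rk.phi (F.pl p)) := by
      unfold cT
      rw [bok_xc]
      refine Finset.sum_congr rfl fun j _ => ?_
      rw [bok_u]
    rw [uok_par, map_add, LinearMap.add_apply, ← add_assoc, dotProduct_add, h5, h6, h7, add_comm]
  constructor
  · intro h v p hp
    refine funext fun i => ?_
    have h1 := key v p hp (Pi.single i 1)
    rw [h v p hp, single_one_dotProduct] at h1
    exact h1
  · intro h v p hp ζ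
    rw [← key v p hp ζ, h v p hp, dotProduct_zero]

end Pool.Agent.EV
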