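import Pool.Agent.EV.CStm
import Pool.Agent.H98.MF.SBox0
import Pool.Agent.H98.MF.SCount

/-!
# Project T4 (MP_a3214d), even order, block C, row C19: multiplicative functions
-/

set_option autoImplicit false

open scoped BigOperators Topology
open Filter

namespace Pool.Agent.EV

open Pool.Agent.H98.MK (sg)
open Pool.Agent.H98.MF
open Pool.Agent.H32.MQ (El)
open Pool.Agent.D8 (pat Tk ls ad)

section Mult

variable {P : Type}

/-- the finite Euler product -/
theorem cme_fin (s : Finset P) (t : P → Finset ℕ) (a : P → ℕ → ℝ) :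
    ∑ f ∈ s.finsupp t, ∏ p ∈ s, a p (f p) = ∏ p ∈ s, ∑ k ∈ t p, a p k := by
  classical
  rw [Finset.prod_sum]
  unfold Finset.finsupp
  rw [Finset.sum_map]
  refine Finset.sum_congr (by congr) fun φ _ => ?_
  rw [← Finset.prod_attach]
  refine Finset.prod_congr rfl fun x _ => ?_
  change a x.1 (Finsupp.indicator s φ x.1) = _
  rw [Finsupp.indicator_of_mem x.2]

/-- multiplicative functions -/
noncomputable def cmE (a : P → PowerSeries ℝ) : MvPowerSeries P ℝ :=
  fun f => ∏ p ∈ f.support, PowerSeries.coeff (f p) (a p)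

theorem cme_coeff (a : P → PowerSeries ℝ) (h : ∀ p, PowerSeries.coeff 0 (a p) = 1)
    (f : P →₀ ℕ) (s : Finset P) (hs : f.support ⊆ s) :
    MvPowerSeries.coeff f (cmE a) = ∏ p ∈ s, PowerSeries.coeff (f p) (a p) := by
  change (∏ p ∈ f.support, PowerSeries.coeff (f p) (a p)) = _
  refine Finset.prod_subset hs fun p _ hp => ?_
  rw [Finsupp.notMem_support_iff.1 hp, h]

theorem cme_zero_mul (a b : PowerSeries ℝ) (ha : PowerSeries.coeff 0 a = 1)
    (hb : PowerSeries.coeff 0 b = 1) : PowerSeries.coeff 0 (a * b) = 1 := by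
  rw [PowerSeries.coeff_zero_eq_constantCoeff_apply] at ha hb ⊢
  rw [map_mul, ha, hb, mul_one]

theorem cme_mul (a b : P → PowerSeries ℝ) (ha : ∀ p, PowerSeries.coeff 0 (a p) = 1)
    (hb : ∀ p, PowerSeries.coeff 0 (b p) = 1) :
    cmE a * cmE b = cmE (fun p => a p * b p) := by
  classical
  ext F
  have hab : ∀ p, PowerSeries.coeff 0 (a p * b p) = 1 :=
    fun p => cme_zero_mul _ _ (ha p) (hb p)
  rw [MvPowerSeries.coeff_mul, cme_coeff _ hab F F.support subset_rfl]
  have h1 : ∀ p ∈ F.support, PowerSeries.coeff (F p) (a p * b p) =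
      ∑ k ∈ Finset.range (F p + 1), PowerSeries.coeff k (a p) *
        PowerSeries.coeff (F p - k) (b p) := by
    intro p _
    rw [PowerSeries.coeff_mul]
    exact Finset.Nat.sum_antidiagonal_eq_sum_range_succ
      (fun i j => PowerSeries.coeff i (a p) * PowerSeries.coeff j (b p)) (F p)
  rw [Finset.prod_congr rfl h1, ← cme_fin F.support (fun p => Finset.range (F p + 1))
    (fun p k => PowerSeries.coeff k (a p) * PowerSeries.coeff (F p - k) (b p))]
  refine Finset.sum_nbij' (fun x => x.1) (fun f => (f, F - f)) ?_ ?_ ?_ ?_ ?_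
  · intro x hx
    rw [Finset.HasAntidiagonal.mem_antidiagonal] at hx
    rw [Finset.mem_finsupp_iff]
    have h2 : ∀ p, x.1 p + x.2 p = F p := fun p => by rw [← hx]; rfl
    refine ⟨fun p hp => ?_, fun p _ => ?_⟩
    · rw [Finsupp.mem_support_iff] at hp ⊢
      have := h2 p
      omega
    · rw [Finset.mem_range]
      have := h2 p
      omega
  · intro f hf
    rw [Finset.mem_finsupp_iff] at hf
    rw [Finset.HasAntidiagonal.mem_antidiagonal]
    ext p
    change f p + (F - f) p = F p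
    rw [Finsupp.tsub_apply]
    by_cases hp : p ∈ F.support
    · have := Finset.mem_range.1 (hf.2 p hp)
      omega
    · have h3 : f p = 0 := by
        by_contra h
        exact hp (hf.1 (Finsupp.mem_support_iff.2 h))
      omega
  · intro x hx
    rw [Finset.HasAntidiagonal.mem_antidiagonal] at hx
    ext p
    · rfl
    · change (F - x.1) p = x.2 p
      rw [Finsupp.tsub_apply, ← hx, Finsupp.add_apply]
      omega
  · intro f _
    rfl
  · intro x hx
    rw [Finset.HasAntidiagonal.mem_antidiagonal] at hx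
    have h2 : ∀ p, x.1 p + x.2 p = F p := fun p => by rw [← hx]; rfl
    have h3 : x.1.support ⊆ F.support := fun p hp => by
      rw [Finsupp.mem_support_iff] at hp ⊢
      have := h2 p
      omega
    have h4 : x.2.support ⊆ F.support := fun p hp => by
      rw [Finsupp.mem_support_iff] at hp ⊢
      have := h2 p
      omega
    rw [cme_coeff a ha _ _ h3, cme_coeff b hb _ _ h4, ← Finset.prod_mul_distrib]
    refine Finset.prod_congr rfl fun p _ => ?_
    have h5 : F p - x.1 p = x.2 p := by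
      have := h2 p
      omega
    rw [h5]

theorem cme_one : cmE (fun _ : P => (1 : PowerSeries ℝ)) = 1 := by
  classical
  ext F
  rw [MvPowerSeries.coeff_one]
  change (∏ p ∈ F.support, PowerSeries.coeff (F p) (1 : PowerSeries ℝ)) = _
  split_ifs with h
  · rw [h]
    simp
  · obtain ⟨p, hp⟩ := Finsupp.support_nonempty_iff.2 h
    refine Finset.prod_eq_zero hp ?_
    rw [PowerSeries.coeff_one, if_neg (Finsupp.mem_support_iff.1 hp)]

theorem cme_prod {ι : Type} (s : Finset ι) (a : ι → P → PowerSeries ℝ)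
    (h : ∀ u p, PowerSeries.coeff 0 (a u p) = 1) :
    (∀ p, PowerSeries.coeff 0 (∏ u ∈ s, a u p) = 1) ∧
    ∏ u ∈ s, cmE (a u) = cmE (fun p => ∏ u ∈ s, a u p) := by
  classical
  induction s using Finset.induction_on with
  | empty =>
    simp only [Finset.prod_empty]
    exact ⟨fun p => by simp, cme_one.symm⟩
  | insert v s hv ih =>
    simp only [Finset.prod_insert hv]
    refine ⟨fun p => ?_, ?_⟩
    · exact cme_zero_mul _ _ (h v p) (ih.1 p)
    · rw [ih.2, cme_mul _ _ (h v) ih.1]

end Mult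


/-! ### sums over ideals -/

section Idl

variable (S : Pre)

theorem cme_conv (A B : MvPowerSeries S.P ℝ) (Y : ℝ) :
    ∑ f ∈ S.idl Y, MvPowerSeries.coeff f A *
      (∑ g ∈ S.idl (Y / S.nf f), MvPowerSeries.coeff g B) =
      ∑ F ∈ S.idl Y, MvPowerSeries.coeff F (A * B) := by
  classical
  simp_rw [Finset.mul_sum, MvPowerSeries.coeff_mul]
  rw [Finset.sum_sigma', Finset.sum_sigma']
  refine Finset.sum_nbij' (fun x => ⟨x.1 + x.2, (x.1, x.2)⟩) (fun x => ⟨x.2.1, x.2.2⟩)
    ?_ ?_ ?_ ?_ ?_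
  · intro x hx
    rw [Finset.mem_sigma, S.mem_idl, S.mem_idl] at hx
    have h0 : (0 : ℝ) < S.nf x.1 := by exact_mod_cast S.nf_pos x.1
    rw [Finset.mem_sigma, S.mem_idl]
    refine ⟨?_, Finset.HasAntidiagonal.mem_antidiagonal.2 rfl⟩
    change ((S.nf (x.1 + x.2) : ℕ) : ℝ) ≤ Y
    rw [S.nf_add, Nat.cast_mul]
    have h2 := hx.2
    rw [le_div_iff₀ h0] at h2
    linarith
  · intro x hx
    rw [Finset.mem_sigma, S.mem_idl, Finset.HasAntidiagonal.mem_antidiagonal] at hx
    have h0 : (0 : ℝ) < S.nf x.2.1 := by exact_mod_cast S.nf_pos x.2.1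
    have h1 : (1 : ℝ) ≤ S.nf x.2.2 := by exact_mod_cast S.nf_pos x.2.2
    have h2 := hx.1
    rw [← hx.2, S.nf_add, Nat.cast_mul] at h2
    rw [Finset.mem_sigma, S.mem_idl, S.mem_idl]
    refine ⟨?_, ?_⟩
    · change ((S.nf x.2.1 : ℕ) : ℝ) ≤ Y
      nlinarith
    · change ((S.nf x.2.2 : ℕ) : ℝ) ≤ Y / S.nf x.2.1
      rw [le_div_iff₀ h0]
      linarith
  · intro x _
    rfl
  · intro x hx
    rw [Finset.mem_sigma, Finset.HasAntidiagonal.mem_antidiagonal] at hx
    obtain ⟨a, b, c⟩ := x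
    simp only at hx
    obtain ⟨_, rfl⟩ := hx
    rfl
  · intro x _
    rfl

open Classical in
theorem cme_pi {ι : Type} [Fintype ι] (a : ι → MvPowerSeries S.P ℝ) (Y : ℝ) :
    ∑ f ∈ Fintype.piFinset (fun _ : ι => S.idl Y),
      (if ((∏ u, S.nf (f u) : ℕ) : ℝ) ≤ Y then ∏ u, MvPowerSeries.coeff (f u) (a u) else 0) =
    ∑ F ∈ S.idl Y, MvPowerSeries.coeff F (∏ u, a u) := by
  classical
  simp_rw [MvPowerSeries.coeff_prod]
  rw [Finset.sum_sigma', ← Finset.sum_filter]
  refine Finset.sum_nbij' (fun f => ⟨∑ u, f u, Finsupp.equivFunOnFinite.symm f⟩)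
    (fun x => x.2) ?_ ?_ ?_ ?_ ?_
  · intro f hf
    rw [Finset.mem_filter] at hf
    rw [Finset.mem_sigma, S.mem_idl, Finset.mem_finsuppAntidiag]
    refine ⟨?_, rfl, Finset.subset_univ _⟩
    change ((S.nf (∑ u, f u) : ℕ) : ℝ) ≤ Y
    rw [a11_nf_sum]
    exact hf.2
  · intro x hx
    rw [Finset.mem_sigma, S.mem_idl, Finset.mem_finsuppAntidiag] at hx
    have h1 : ((∏ u, S.nf (x.2 u) : ℕ) : ℝ) ≤ Y := by
      rw [← a11_nf_sum, hx.2.1]
      exact hx.1
    rw [Finset.mem_filter, Fintype.mem_piFinset]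
    refine ⟨fun u => ?_, h1⟩
    rw [S.mem_idl]
    refine le_trans ?_ h1
    exact_mod_cast Finset.single_le_prod' (f := fun u => S.nf (x.2 u))
      (fun v _ => S.nf_pos _) (Finset.mem_univ u)
  · intro f _
    rfl
  · intro x hx
    rw [Finset.mem_sigma, Finset.mem_finsuppAntidiag] at hx
    obtain ⟨a, b⟩ := x
    simp only at hx
    obtain ⟨_, rfl, _⟩ := hx
    simp
  · intro f _
    rfl

end Idl

/-! ### families -/

section Fam

variable {P : Type}

open Classical in
theorem cme_fam {ι : Type} [Fintype ι] (w : ι → P → ℝ) (d : Finset P)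
    (A : Finset (ι → Finset P))
    (hA : ∀ x, x ∈ A ↔ ((∀ i j, i ≠ j → Disjoint (x i) (x j)) ∧ Finset.univ.biUnion x = d)) :
    ∑ x ∈ A, ∏ u, ∏ p ∈ x u, w u p = ∏ p ∈ d, ∑ u, w u p := by
  rw [Finset.prod_sum]
  refine Finset.sum_bij' (fun x hx => fun p hp => (Finset.mem_biUnion.1
      (((hA x).1 hx).2.symm ▸ hp : p ∈ Finset.univ.biUnion x)).choose)
    (fun φ _ => fun u => d.filter fun p => ∃ h : p ∈ d, φ p h = u) ?_ ?_ ?_ ?_ ?_
  · intro x hx
    rw [Finset.mem_pi]
    exact fun _ _ => Finset.mem_univ _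
  · intro φ _
    rw [hA]
    refine ⟨fun i j hij => ?_, ?_⟩
    · rw [Finset.disjoint_left]
      intro p hp hq
      rw [Finset.mem_filter] at hp hq
      obtain ⟨_, h1, h2⟩ := hp
      obtain ⟨_, _, h4⟩ := hq
      exact hij (h2.symm.trans h4)
    · ext p
      rw [Finset.mem_biUnion]
      constructor
      · rintro ⟨u, _, hu⟩
        exact (Finset.mem_filter.1 hu).1
      · intro hp
        exact ⟨φ p hp, Finset.mem_univ _, Finset.mem_filter.2 ⟨hp, hp, rfl⟩⟩
  · intro x hx
    have hx' := (hA x).1 hx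
    funext u
    ext p
    rw [Finset.mem_filter]
    constructor
    · rintro ⟨hp, h, rfl⟩
      exact (Finset.mem_biUnion.1
        (hx'.2.symm ▸ hp : p ∈ Finset.univ.biUnion x)).choose_spec.2
    · intro hp
      have hd : p ∈ d := hx'.2 ▸ Finset.mem_biUnion.2 ⟨u, Finset.mem_univ _, hp⟩
      refine ⟨hd, hd, ?_⟩
      by_contra hne
      have h1 := (Finset.mem_biUnion.1
        (hx'.2.symm ▸ hd : p ∈ Finset.univ.biUnion x)).choose_spec.2
      exact Finset.disjoint_left.1 (hx'.1 _ _ hne) h1 hp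
  · intro φ hφ
    funext p hp
    have h1 := (Finset.mem_biUnion.1 (show p ∈ Finset.univ.biUnion
      (fun u => d.filter fun p => ∃ h : p ∈ d, φ p h = u) from
        Finset.mem_biUnion.2 ⟨φ p hp, Finset.mem_univ _,
          Finset.mem_filter.2 ⟨hp, hp, rfl⟩⟩)).choose_spec.2
    obtain ⟨_, _, h3⟩ := Finset.mem_filter.1 h1
    exact h3.symm
  · intro x hx
    have hx' := (hA x).1 hx
    have h0 : ∀ u, ∏ p ∈ x u, w u p = ∏ p ∈ d, if p ∈ x u then w u p else 1 := by
      intro u
      rw [← Finset.prod_filter]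
      refine Finset.prod_congr ?_ fun _ _ => rfl
      ext p
      rw [Finset.mem_filter]
      exact ⟨fun h => ⟨hx'.2 ▸ Finset.mem_biUnion.2 ⟨u, Finset.mem_univ _, h⟩, h⟩, fun h => h.2⟩
    rw [Finset.prod_congr rfl fun u _ => h0 u, Finset.prod_comm, ← Finset.prod_attach]
    refine Finset.prod_congr rfl fun q _ => ?_
    have h1 := (Finset.mem_biUnion.1
      (hx'.2.symm ▸ q.2 : q.1 ∈ Finset.univ.biUnion x)).choose_spec.2
    rw [Finset.prod_eq_single ((Finset.mem_biUnion.1
      (hx'.2.symm ▸ q.2 : q.1 ∈ Finset.univ.biUnion x)).choose)]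
    · rw [if_pos h1]
    · intro v _ hv
      rw [if_neg]
      intro h
      exact Finset.disjoint_left.1 (hx'.1 _ _ hv) h h1
    · intro h
      exact absurd (Finset.mem_univ _) h

end Fam

/-! ### the local factors -/

section Loc

/-- the geometric series -/
noncomputable def cmG (a : ℝ) : PowerSeries ℝ := PowerSeries.mk fun k => a ^ k

theorem cme_geo (a : ℝ) : (1 - PowerSeries.C a * PowerSeries.X) * cmG a = 1 := by
  ext n
  rw [sub_mul, one_mul, map_sub, mul_assoc, PowerSeries.coeff_C_mul]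
  unfold cmG
  rcases n with _ | n
  · simp
  · rw [PowerSeries.coeff_succ_X_mul, PowerSeries.coeff_mk, PowerSeries.coeff_mk,
      PowerSeries.coeff_one, if_neg (Nat.succ_ne_zero n), pow_succ]
    ring

theorem cme_geo0 (a : ℝ) : PowerSeries.coeff 0 (cmG a) = 1 := by
  unfold cmG
  rw [PowerSeries.coeff_mk, pow_zero]

variable {ι : Type} [Fintype ι]

/-- the value of a sign -/
noncomputable def cmS (z : ZMod 2) : ℝ := ((sg z : ℤ) : ℝ)

/-- the denominators -/
noncomputable def cmD (t : ι → ZMod 2) : Polynomial ℝ :=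
  ∏ u, (1 - Polynomial.C (cmS (t u)) * Polynomial.X)

/-- the local polynomial -/
noncomputable def cmL (t : ι → ZMod 2) (b : Bool) : Polynomial ℝ :=
  (if b then 1 else 1 + Polynomial.C (∑ u, cmS (t u)) * Polynomial.X) * cmD t

theorem cme_loc (t : ι → ZMod 2) (b : Bool) :
    ((cmL t b : Polynomial ℝ) : PowerSeries ℝ) * ∏ u, cmG (cmS (t u)) =
      if b then 1 else 1 + PowerSeries.C (∑ u, cmS (t u)) * PowerSeries.X := by
  have h1 : ((cmD t : Polynomial ℝ) : PowerSeries ℝ) =
      ∏ u, (1 - PowerSeries.C (cmS (t u)) * PowerSeries.X) := by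
    unfold cmD
    rw [← Polynomial.coeToPowerSeries.ringHom_apply, map_prod]
    refine Finset.prod_congr rfl fun u _ => ?_
    simp
  unfold cmL
  rw [Polynomial.coe_mul, h1, mul_assoc, ← Finset.prod_mul_distrib,
    Finset.prod_congr rfl (fun u _ => cme_geo (cmS (t u))), Finset.prod_const_one, mul_one]
  cases b
  · rw [if_neg (by simp), if_neg (by simp), Polynomial.coe_add, Polynomial.coe_one,
      Polynomial.coe_mul, Polynomial.coe_C, Polynomial.coe_X]
  · rw [if_pos rfl, if_pos rfl, Polynomial.coe_one]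

omit [Fintype ι] in
theorem cme_D0 (s : Finset ι) (t : ι → ZMod 2) :
    (∏ u ∈ s, (1 - Polynomial.C (cmS (t u)) * Polynomial.X)).coeff 0 = 1 ∧
    (∏ u ∈ s, (1 - Polynomial.C (cmS (t u)) * Polynomial.X)).coeff 1 = - ∑ u ∈ s, cmS (t u) ∧
    (∏ u ∈ s, (1 - Polynomial.C (cmS (t u)) * Polynomial.X)).natDegree ≤ s.card := by
  classical
  induction s using Finset.induction_on with
  | empty => simp [Polynomial.coeff_one]
  | insert v s hv ih =>
    obtain ⟨h1, h2, h3⟩ := ih
    rw [Finset.prod_insert hv, Finset.sum_insert hv, Finset.card_insert_of_notMem hv]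
    refine ⟨?_, ?_, ?_⟩
    · rw [Polynomial.mul_coeff_zero, h1]
      simp
    · rw [Polynomial.mul_coeff_one, h1, h2]
      simp [Polynomial.coeff_one]
    · refine Polynomial.natDegree_mul_le.trans ?_
      have h4 : (1 - Polynomial.C (cmS (t v)) * Polynomial.X : Polynomial ℝ).natDegree ≤ 1 := by
        refine (Polynomial.natDegree_sub_le _ _).trans ?_
        rw [Polynomial.natDegree_one]
        exact max_le (Nat.zero_le _) ((Polynomial.natDegree_C_mul_le _ _).trans
          Polynomial.natDegree_X_le)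
      omega

theorem cme_L0 (t : ι → ZMod 2) (b : Bool) : (cmL t b).coeff 0 = 1 := by
  unfold cmL cmD
  rw [Polynomial.mul_coeff_zero, (cme_D0 _ t).1]
  cases b <;> simp

theorem cme_L1 (t : ι → ZMod 2) : (cmL t false).coeff 1 = 0 := by
  unfold cmL cmD
  rw [Polynomial.mul_coeff_one, (cme_D0 _ t).1, (cme_D0 _ t).2.1]
  simp [Polynomial.coeff_one]

theorem cme_Ldeg (t : ι → ZMod 2) (b : Bool) : (cmL t b).natDegree < Fintype.card ι + 2 := by
  unfold cmL cmD
  refine lt_of_le_of_lt Polynomial.natDegree_mul_le ?_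
  have h1 := (cme_D0 Finset.univ t).2.2
  rw [Finset.card_univ] at h1
  have h2 : (if b = true then (1 : Polynomial ℝ) else
      1 + Polynomial.C (∑ u, cmS (t u)) * Polynomial.X).natDegree ≤ 1 := by
    cases b
    · rw [if_neg (by simp)]
      refine (Polynomial.natDegree_add_le _ _).trans ?_
      rw [Polynomial.natDegree_one]
      exact max_le (Nat.zero_le _) ((Polynomial.natDegree_C_mul_le _ _).trans
          Polynomial.natDegree_X_le)
    · rw [if_pos rfl, Polynomial.natDegree_one]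
      exact Nat.zero_le _
  omega

theorem cme_Lhi (t : ι → ZMod 2) (b : Bool) (k : ℕ) (hk : Fintype.card ι + 2 ≤ k) :
    (cmL t b).coeff k = 0 :=
  Polynomial.coeff_eq_zero_of_natDegree_lt (lt_of_lt_of_le (cme_Ldeg t b) hk)

open Classical in
/-- a bound for the coefficients -/
noncomputable def cmB (ι : Type) [Fintype ι] : ℝ :=
  ∑ t : ι → ZMod 2, ∑ b : Bool, ∑ k ∈ Finset.range (Fintype.card ι + 2), |(cmL t b).coeff k|

theorem cme_B_nonneg : 0 ≤ cmB ι :=
  Finset.sum_nonneg fun _ _ => Finset.sum_nonneg fun _ _ => Finset.sum_nonneg fun _ _ =>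
    abs_nonneg _

theorem cme_B (t : ι → ZMod 2) (b : Bool) (k : ℕ) : |(cmL t b).coeff k| ≤ cmB ι := by
  classical
  by_cases hk : Fintype.card ι + 2 ≤ k
  · rw [cme_Lhi t b k hk, abs_zero]
    exact cme_B_nonneg
  · unfold cmB
    refine le_trans ?_ (Finset.single_le_sum (f := fun t : ι → ZMod 2 => ∑ b : Bool,
      ∑ k ∈ Finset.range (Fintype.card ι + 2), |(cmL t b).coeff k|)
      (fun _ _ => Finset.sum_nonneg fun _ _ => Finset.sum_nonneg fun _ _ => abs_nonneg _)
      (Finset.mem_univ t))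
    refine le_trans ?_ (Finset.single_le_sum (f := fun b : Bool =>
      ∑ k ∈ Finset.range (Fintype.card ι + 2), |(cmL t b).coeff k|)
      (fun _ _ => Finset.sum_nonneg fun _ _ => abs_nonneg _) (Finset.mem_univ b))
    exact Finset.single_le_sum (f := fun k => |(cmL t b).coeff k|)
      (fun _ _ => abs_nonneg _) (Finset.mem_range.2 (not_le.1 hk))

end Loc

end Pool.Agent.EV
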