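import Pool.Agent.D8.Defs

/-!
# Project T4 (MP_a3214d), even order, block C: definitions of the analytic part

`S` is the system of primes of the base field. The variables are the sets of primes with a given
vector of `V = N / Z` (a finite set `R` of vectors), the condition at a prime is bilinear with
values in `Z`, and there are outer characters `c` ramified in a finite set `M` of primes.
-/

set_option autoImplicit false

open scoped BigOperators Topology
open Filter

namespace Pool.Agent.EV

open Pool.Agent.H98.MK (sg)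
open Pool.Agent.H98.MF
open Pool.Agent.H32.MQ (El)
open Pool.Agent.D8 (pat Tk ls ad)

/-! ### kernels -/

section Kernel

variable (S : Sys)

/-- families prime to `M` -/
def Off {ι : Type} (M : Finset S.P) (x : ι → Finset S.P) : Prop := ∀ u, Disjoint (x u) M

variable {S}

/-- the exponent of the character of a class at `p` -/
def xc (c : El S) (p : S.P) : ZMod 2 := S.ex c.2 c.1 p

variable {ι : Type} [Fintype ι]

/-- the exponent of a family: `b u v` is the coefficient of the symbols of the primes of `x v`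
at the primes of `x u` -/
def EE (b : ι → ι → ZMod 2) (c : ι → El S) (x : ι → Finset S.P) : ZMod 2 :=
  ∑ u, ∑ v, b u v * S.JJ (x u) (x v) + ∑ u, ∑ p ∈ x u, xc (c u) p

open Classical in
/-- the term of a family -/
noncomputable def Kt (τ : S.P → ℝ) (s : ℝ) (b : ι → ι → ZMod 2) (c : ι → El S)
    (M : Finset S.P) (x : ι → Finset S.P) : ℝ :=
  if S.Dj x ∧ Off S M x then
    ((sg (EE b c x) : ℤ) : ℝ) * ∏ u, ∏ p ∈ x u, (τ p * (S.N p : ℝ) ^ (-s)) else 0

open Classical in
/-- the sum over the families with given nonempty variables -/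
noncomputable def PS (τ : S.P → ℝ) (s : ℝ) (b : ι → ι → ZMod 2) (c : ι → El S)
    (M : Finset S.P) (U : Finset ι) : ℝ :=
  ∑' x : ι → Finset S.P, if pat x = U then Kt τ s b c M x else 0

omit [Fintype ι] in
/-- linked variables -/
def Lk (b : ι → ι → ZMod 2) (u v : ι) : Prop := b u v + b v u = 1

open Classical in
omit [Fintype ι] in
/-- the isolated variables of a pattern -/
noncomputable def iso (b : ι → ι → ZMod 2) (U : Finset ι) : Finset ι :=
  U.filter fun u => ∀ v ∈ U, ¬ Lk b u v

open Classical in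
omit [Fintype ι] in
/-- the number of isolated variables with trivial outer character -/
noncomputable def wt (b : ι → ι → ZMod 2) (c : ι → El S) (U : Finset ι) : ℕ :=
  ((iso b U).filter fun u => c u = (0, ∅)).card

end Kernel

/-! ### the algebraic data -/

/-- the vectors -/
abbrev VV (d : ℕ) : Type := Fin d → ZMod 2

/-- an alternating bilinear map -/
structure BD (d n : ℕ) where
  /-- the map -/
  B : VV d →ₗ[ZMod 2] VV d →ₗ[ZMod 2] VV n
  alt : ∀ v, B v v = 0

section Alg

variable {S : Sys} {d n : ℕ}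

/-- outer characters: additive in the dual vector -/
def Adc (c : VV d → VV n → El S) : Prop :=
  ∀ v ζ ζ', c v (ζ + ζ') = ad (c v ζ) (c v ζ')

/-- the condition at the primes of a family of sets indexed by vectors -/
def okc (Bd : BD d n) (R : Finset (VV d)) (c : VV d → VV n → El S)
    (x : R → Finset S.P) : Prop :=
  ∀ v : R, ∀ p ∈ x v, ∀ ζ : VV n,
    ∑ w : R, (∑ q ∈ x w, S.J q p) * (ζ ⬝ᵥ Bd.B w v) + xc (c v ζ) p = 0

open Classical in
/-- the number of dual vectors for `v` -/
noncomputable def nv (Bd : BD d n) (R : Finset (VV d)) (c : VV d → VV n → El S)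
    (v : VV d) : ℕ :=
  (Finset.univ.filter fun ζ : VV n => c v ζ = (0, ∅) ∧ ∀ w : R, ζ ⬝ᵥ Bd.B w v = 0).card

/-- patterns that generate -/
def Gen (Bd : BD d n) (R : Finset (VV d)) (c : VV d → VV n → El S)
    (Φ : Finset R → Prop) : Prop :=
  ∀ U : Finset R, Φ U → ∀ v ∈ R, ∀ ζ : VV n, c v ζ = (0, ∅) →
    (∀ w ∈ U, ζ ⬝ᵥ Bd.B w v = 0) → ∀ w : R, ζ ⬝ᵥ Bd.B w v = 0

/-- the exponent of the pole -/
noncomputable def bV (Bd : BD d n) (R : Finset (VV d)) (c : VV d → VV n → El S) : ℕ :=
  ∑ v ∈ R, nv Bd R c v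

open Classical in
/-- the sum over the families satisfying the condition, with weights -/
noncomputable def FF (Bd : BD d n) (R : Finset (VV d)) (c : VV d → VV n → El S)
    (M : Finset S.P) (Φ : Finset R → Prop) (θ : (R → S.T) → ℝ) (τ : S.P → ℝ) (s : ℝ) : ℝ :=
  ∑' x : R → Finset S.P, if S.Dj x ∧ Off S M x ∧ okc Bd R c x ∧ Φ (pat x)
    then θ (fun v => S.tys (x v)) * ∏ v, ∏ p ∈ x v, ((2 : ℝ) ^ n * τ p * (S.N p : ℝ) ^ (-s))
    else 0

/-- the coefficients of the types: vectors and dual vectors -/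
def bz (Bd : BD d n) (R : Finset (VV d)) (u v : R × VV n) : ZMod 2 :=
  u.2 ⬝ᵥ Bd.B v.1 u.1

/-- the position of a variable -/
noncomputable def pos {ι : Type} [Fintype ι] (u : ι) : ℕ := (Fintype.equivFin ι u : ℕ)

/-- the coefficients moved to one side -/
noncomputable def b1 (Bd : BD d n) (R : Finset (VV d)) (u v : R × VV n) : ZMod 2 :=
  if pos u < pos v then bz Bd R u v + bz Bd R v u else 0

/-- the outer characters of the types -/
def cz (R : Finset (VV d)) (c : VV d → VV n → El S) (u : R × VV n) : El S :=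
  c u.1 u.2

/-! ### main terms -/

/-- the forms giving maximal sets of unlinked types -/
structure Fam (Bd : BD d n) (R : Finset (VV d)) (ψ : R → R → ZMod 2) : Prop where
  sym : ∀ w v, ψ w v = ψ v w
  rep : ∀ v : R, ∃ ζ : VV n, ∀ w : R, ψ w v = ζ ⬝ᵥ Bd.B w v

open Classical in
/-- the finite set of the forms -/
noncomputable def Fams (Bd : BD d n) (R : Finset (VV d)) : Finset (R → R → ZMod 2) :=
  Finset.univ.filter fun ψ => Fam Bd R ψ

/-- the outer characters of a fixed frame: functions of the types -/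
def cT (c : VV d → VV n → S.T) (v : VV d) (ζ : VV n) : El S := (c v ζ, ∅)

open Classical in
/-- the local factor of a form -/
noncomputable def gψ (Bd : BD d n) (R : Finset (VV d)) (c : VV d → VV n → S.T)
    (ψ : R → R → ZMod 2) (v : R) (t : S.T) : ℝ :=
  ∑ ζ ∈ Finset.univ.filter (fun ζ : VV n => ∀ w : R, ζ ⬝ᵥ Bd.B w v = ψ w v),
    ((sg (c v ζ ⬝ᵥ t) : ℤ) : ℝ)

/-- the exponent of the reciprocity law for a form -/
noncomputable def ph (R : Finset (VV d)) (ψ : R → R → ZMod 2) (t : R → S.T) : ZMod 2 :=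
  ∑ v : R, ∑ w : R, if pos v < pos w then ψ w v * ((S.l ⬝ᵥ t v) * (S.l ⬝ᵥ t w)) else 0

open Classical in
/-- Euler products twisted by a function of the types -/
noncomputable def GE {ι : Type} [Fintype ι] (θ : (ι → S.T) → ℝ) (f : ι → S.T → ℝ)
    (τ : S.P → ℝ) (s : ℝ) : ℝ :=
  ∑' x : ι → Finset S.P, if S.Dj x
    then θ (fun v => S.tys (x v)) *
      ∏ v, ∏ p ∈ x v, (f v (S.ty p) * (τ p * (S.N p : ℝ) ^ (-s)))
    else 0

/-- the mean of the local factors -/
noncomputable def mu {ι : Type} [Fintype ι] (f : ι → S.T → ℝ) : ℝ :=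
  ∑ u, (1 / (2 : ℝ) ^ S.m) * ∑ t : S.T, f u t

end Alg

/-! ### the central part -/

section Central

variable {S : Sys}

open Classical in
/-- the families of bounded norm away from `y`, weighted by a function of the types -/
noncomputable def CC {ι : Type} [Fintype ι] (y : Finset S.P) (g : (ι → S.T) → ℝ) (Y : ℝ) : ℝ :=
  ∑ x ∈ Fintype.piFinset (fun _ : ι => S.bx Y),
    if S.Dj x ∧ Off S y x ∧ ((∏ u, S.nm (x u) : ℕ) : ℝ) ≤ Y
    then g (fun u => S.tys (x u)) else 0

/-- the factor of the primes of `y` -/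
noncomputable def ty0 (ι : Type) [Fintype ι] (y : Finset S.P) : ℝ :=
  ∏ p ∈ y, (1 + (Fintype.card ι : ℝ) / (S.N p : ℝ))⁻¹

/-- the loss of the primes of `y` -/
noncomputable def lo (A0 : ℝ) (y : Finset S.P) : ℝ :=
  ∏ p ∈ y, (1 + A0 * (S.N p : ℝ) ^ (-(1 / 2) : ℝ))

/-- the value of a type character on an ideal -/
noncomputable def cv (c : S.T) (f : S.P →₀ ℕ) : ℤ :=
  sg (f.sum fun p k => (k : ZMod 2) * (c ⬝ᵥ S.ty p))

open Classical in
/-- sums over tuples of ideals -/
noncomputable def DD {ι : Type} [Fintype ι] (c : ι → S.T) (Y : ℝ) : ℝ :=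
  ∑ f ∈ Fintype.piFinset (fun _ : ι => S.idl Y),
    if ((∏ u, S.nf (f u) : ℕ) : ℝ) ≤ Y then ((∏ u, cv (c u) (f u) : ℤ) : ℝ) else 0

open Classical in
/-- sums over disjoint families with characters -/
noncomputable def CCc {ι : Type} [Fintype ι] (y : Finset S.P) (c : ι → S.T) (Y : ℝ) : ℝ :=
  ∑ x ∈ Fintype.piFinset (fun _ : ι => S.bx Y),
    if S.Dj x ∧ Off S y x ∧ ((∏ u, S.nm (x u) : ℕ) : ℝ) ≤ Y
    then ((sg (∑ u, c u ⬝ᵥ S.tys (x u)) : ℤ) : ℝ) else 0

/-! ### both parts -/

open Classical in
/-- the primes of a family -/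
noncomputable def un {ι : Type} [Fintype ι] (x : ι → Finset S.P) : Finset S.P :=
  Finset.univ.biUnion x

/-- the nonzero central vectors -/
def RZ (n : ℕ) : Finset (VV n) := Finset.univ.filter fun v => v ≠ 0

open Classical in
/-- assignments of central elements to the primes of a finite set, zero elsewhere -/
noncomputable def asg (n : ℕ) (y : Finset S.P) : Finset (S.P →₀ VV n) :=
  y.finsupp fun _ => Finset.univ

/-- the total type of central data: an assignment and a family indexed by the central vectors -/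
noncomputable def tz {n : ℕ} (z : S.P →₀ VV n) (t : RZ n → S.T) : Fin n → S.T :=
  fun i => (z.sum fun p v => v i • S.ty p) + ∑ v : RZ n, (v : VV n) i • t v

open Classical in
/-- the number of pairs of a noncentral and a central family of bounded norm, weighted by a
function of the total type of the central data -/
noncomputable def NN {d n : ℕ} (Bd : BD d n) (R : Finset (VV d)) (c : VV d → VV n → El S)
    (M : Finset S.P) (Φ : Finset R → Prop)
    (g : (R → Finset S.P) → (Fin n → S.T) → ℝ) (Y : ℝ) : ℝ :=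
  ∑ x ∈ Fintype.piFinset (fun _ : R => S.bx Y),
    if S.Dj x ∧ Off S M x ∧ okc Bd R c x ∧ Φ (pat x) ∧ ((∏ u, S.nm (x u) : ℕ) : ℝ) ≤ Y
    then ∑ z ∈ asg n (un x), CC (un x) (fun t : RZ n → S.T => g x (tz z t))
      (Y / (∏ u, S.nm (x u) : ℕ))
    else 0

end Central

end Pool.Agent.EV
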