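import Pool.Agent.EV.CStm

/-!
# Project T4 (MP_a3214d), even order, block C: the uniform bound for a subset of the central
vectors
-/

set_option autoImplicit false

open scoped BigOperators Topology
open Filter

namespace Pool.Agent.EV

open Pool.Agent.H98.MK (sg)
open Pool.Agent.H98.MF
open Pool.Agent.H32.MQ (El)
open Pool.Agent.D8 (pat Tk ls ad)

open Classical in
/-- the number of pairs of a noncentral and a central family of bounded norm, the central vectors
being in `A` -/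
noncomputable def NA {S : Sys} {d n : ℕ} (Bd : BD d n) (R : Finset (VV d)) (A : Finset (VV n))
    (c : VV d → VV n → El S) (M : Finset S.P) (Φ : Finset R → Prop) (Y : ℝ) : ℝ :=
  ∑ x ∈ Fintype.piFinset (fun _ : R => S.bx Y),
    if S.Dj x ∧ Off S M x ∧ okc Bd R c x ∧ Φ (pat x) ∧ ((∏ u, S.nm (x u) : ℕ) : ℝ) ≤ Y
    then ((2 : ℝ) ^ n) ^ (un x).card * CC (un x) (fun _ : A → S.T => 1)
      (Y / (∏ u, S.nm (x u) : ℕ))
    else 0

/-- the uniform bound for a nonempty set of central vectors -/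
def SUnA : Prop := ∀ (S : Sys) (d n : ℕ) (Bd : BD d n) (R : Finset (VV d))
  (A : Finset (VV n)) (ε : ℝ), A.Nonempty → 0 < ε → ∃ C : ℝ, 0 ≤ C ∧
  ∀ (c : VV d → VV n → El S) (M : Finset S.P) (Φ : Finset R → Prop),
    Adc c → (∀ v ζ, (c v ζ).2 ⊆ M) → Gen Bd R c Φ →
    ∀ Y : ℝ, 2 ≤ Y → NA Bd R A c M Φ Y ≤
      C * (S.nm M : ℝ) ^ ε * (Y * Real.log Y ^ (bV Bd R c + A.card - 1))

end Pool.Agent.EV
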