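import Pool.Agent.EV.CPatB

/-!
# Project T4 (MP_a3214d), even half, row C4: the pattern theorem, final part
-/

set_option autoImplicit false

open scoped BigOperators Topology
open Filter

namespace Pool.Agent.EV

open Pool.Agent.H98.MK (sg)
open Pool.Agent.H98.MF
open Pool.Agent.H32.MQ (El pw)
open Pool.Agent.D8 (pat Tk ls ad)

namespace CPt

variable {S : Sys} {ι : Type} [Fintype ι]

open Classical in
/-- the kernels of D8 for the data without conditions -/
theorem Kt_D8 (τ : S.P → ℝ) (s : ℝ) (b : ι → ι → ZMod 2) (c : ι → El S) (M : Finset S.P)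
    (U : Finset ι) (x : ι → Finset S.P) :
    Pool.Agent.D8.Kt τ 1 s b ⟨M, c, fun _ => (0, ∅), fun _ => M⟩
      (fun P => if P = U then (1 : ℝ) else 0) x = if pat x = U then Kt τ s b c M x else 0 := by
  have hK : Pool.Agent.D8.KE b (⟨M, c, fun _ => (0, ∅), fun _ => M⟩ : Pool.Agent.D8.Vd S ι) x =
      EE b c x := rfl
  unfold Pool.Agent.D8.Kt Kt
  rw [hK]
  dsimp only
  by_cases hD : S.Dj x
  · rw [if_pos hD]
    by_cases hM : Off S M x
    · rw [if_pos (show S.Dj x ∧ Off S M x from ⟨hD, hM⟩)]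
      have h1 : ∏ u, ∏ p ∈ x u, (Pool.Agent.D8.hh S τ 1 (0, ∅) M p * (S.N p : ℝ) ^ (-s)) =
          ∏ u, ∏ p ∈ x u, (τ p * (S.N p : ℝ) ^ (-s)) := by
        refine Finset.prod_congr rfl fun u _ => Finset.prod_congr rfl fun p hp => ?_
        have h2 : p ∉ M := Finset.disjoint_left.mp (hM u) hp
        have h3 : S.ex (∅ : Finset S.P) (0 : S.T) p = 0 := by
          unfold Sys.ex
          rw [Finset.sum_empty, zero_dotProduct, add_zero]
        unfold Pool.Agent.D8.hh
        rw [if_neg h2]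
        dsimp only
        rw [h3]
        have h4 : ((sg (0 : ZMod 2) : ℤ) : ℝ) = 1 := by
          have : sg (0 : ZMod 2) = 1 := by decide
          rw [this]
          norm_num
        rw [h4]
        norm_num
      rw [h1]
      by_cases hp : pat x = U
      · rw [if_pos hp, if_pos hp, one_mul]
      · rw [if_neg hp, if_neg hp, zero_mul, zero_mul]
    · rw [if_neg (show ¬ (S.Dj x ∧ Off S M x) from fun h => hM h.2)]
      have h1 : ∏ u, ∏ p ∈ x u, (Pool.Agent.D8.hh S τ 1 (0, ∅) M p * (S.N p : ℝ) ^ (-s)) = 0 := by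
        unfold Off at hM
        push Not at hM
        obtain ⟨u, hu⟩ := hM
        rw [Finset.not_disjoint_iff] at hu
        obtain ⟨p, hp, hpM⟩ := hu
        refine Finset.prod_eq_zero (Finset.mem_univ u) (Finset.prod_eq_zero hp ?_)
        unfold Pool.Agent.D8.hh
        rw [if_pos hpM, zero_mul]
      rw [h1, mul_zero]
      split_ifs <;> rfl
  · rw [if_neg hD, if_neg (show ¬ (S.Dj x ∧ Off S M x) from fun h => hD h.1)]
    split_ifs <;> rfl

open Classical in
/-- two large linked variables -/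
theorem lbd {τ : S.P → ℝ} {b : ι → ι → ZMod 2} {c : ι → El S} {M : Finset S.P} {σ X : ℝ}
    {J : ℕ} (hS : Summable fun x : ι → Finset S.P => ‖Kt τ (1 + σ) b c M x‖)
    {U W L : Finset ι} (hL : L ⊆ W) (hX : 0 ≤ X)
    (hF : ∀ I : Finset ι, L ⊆ I → |∑' x : ι → Finset S.P,
      (if Pool.Agent.D8.lrg S J x = I then
        Pool.Agent.D8.Kt τ 1 (1 + σ) b ⟨M, c, fun _ => (0, ∅), fun _ => M⟩
          (fun P => if P = U then (1 : ℝ) else 0) x else 0)| ≤ X) :
    ‖∑' x : ι → Finset S.P, (if pat x = U ∧ ∀ w ∈ W, (w ∈ L ↔ 2 ^ J < S.nm (x w))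
      then Kt τ (1 + σ) b c M x else 0)‖ ≤ 2 ^ (Fintype.card ι) * X := by
  have h1 : ∀ x : ι → Finset S.P, (if pat x = U ∧ ∀ w ∈ W, (w ∈ L ↔ 2 ^ J < S.nm (x w))
      then Kt τ (1 + σ) b c M x else 0) =
      ∑ I ∈ Finset.univ.filter (fun I : Finset ι => I ∩ W = L),
        (if Pool.Agent.D8.lrg S J x = I then
          (if pat x = U then Kt τ (1 + σ) b c M x else 0) else 0) := by
    intro x
    rw [Finset.sum_ite_eq]
    have h2 : Pool.Agent.D8.lrg S J x ∈ Finset.univ.filter (fun I : Finset ι => I ∩ W = L) ↔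
        ∀ w ∈ W, (w ∈ L ↔ 2 ^ J < S.nm (x w)) := by
      rw [Finset.mem_filter]
      unfold Pool.Agent.D8.lrg
      constructor
      · rintro ⟨-, h⟩ w hw
        rw [← h, Finset.mem_inter, Finset.mem_filter]
        exact ⟨fun h3 => h3.1.2, fun h3 => ⟨⟨Finset.mem_univ _, h3⟩, hw⟩⟩
      · intro h
        refine ⟨Finset.mem_univ _, ?_⟩
        ext w
        rw [Finset.mem_inter, Finset.mem_filter]
        exact ⟨fun h3 => (h w h3.2).mpr h3.1.2,
          fun h3 => ⟨⟨Finset.mem_univ _, (h w (hL h3)).mp h3⟩, hL h3⟩⟩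
    by_cases h3 : ∀ w ∈ W, (w ∈ L ↔ 2 ^ J < S.nm (x w))
    · rw [if_pos (h2.mpr h3)]
      by_cases h4 : pat x = U
      · rw [if_pos ⟨h4, h3⟩, if_pos h4]
      · rw [if_neg (fun h => h4 h.1), if_neg h4]
    · rw [if_neg (fun h => h3 h.2), if_neg (fun h => h3 (h2.mp h))]
  rw [tsum_congr h1, Summable.tsum_finsetSum]
  · refine (norm_sum_le _ _).trans ?_
    have h2 : ∀ I ∈ Finset.univ.filter (fun I : Finset ι => I ∩ W = L),
        ‖∑' x : ι → Finset S.P, (if Pool.Agent.D8.lrg S J x = I then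
          (if pat x = U then Kt τ (1 + σ) b c M x else 0) else 0)‖ ≤ X := by
      intro I hI
      have h3 : L ⊆ I := by
        rw [← (Finset.mem_filter.mp hI).2]
        exact Finset.inter_subset_left
      have h4 := hF I h3
      simp only [Kt_D8] at h4
      rw [Real.norm_eq_abs]
      exact h4
    refine (Finset.sum_le_sum h2).trans ?_
    rw [Finset.sum_const, nsmul_eq_mul]
    refine mul_le_mul_of_nonneg_right ?_ hX
    have h5 : (Finset.univ.filter (fun I : Finset ι => I ∩ W = L)).card ≤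
        2 ^ (Fintype.card ι) := by
      refine (Finset.card_le_univ _).trans ?_
      rw [Fintype.card_finset]
    exact_mod_cast h5
  · intro I _
    refine Summable.of_norm_bounded hS fun x => ?_
    split_ifs
    · exact le_rfl
    · rw [norm_zero]
      exact norm_nonneg _
    · rw [norm_zero]
      exact norm_nonneg _

open Classical in
/-- the sums with unlinked large variables -/
theorem Lbound (hC : SCh1) (b : ι → ι → ZMod 2) (hb : ∀ u, b u u = 0) (hb2 : ∀ u v, b u v = 0 ∨ b v u = 0) {c : ι → El S}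
    {M : Finset S.P} (hOk : (∀ u, (c u).2 ⊆ M)) (J : ℕ) (U : Finset ι) {L : Finset ι}
    (hL : L ⊆ U \ iso b U) (hLL : ∀ u ∈ L, ∀ v ∈ L, ¬ Lk b u v) {τ : S.P → ℝ}
    (hτ : ∀ p, 0 ≤ τ p) {σ : ℝ} (hσ : 0 < σ) (hσ1 : σ ≤ 1) {C E : ℝ} (hC0 : 0 ≤ C)
    (hE : 0 ≤ E)
    (hIn : ∀ (I : Finset ι) (c' : {u // u ∈ I} → El S) (M' : Finset S.P), (∀ u, (c' u).2 ⊆ M') →
      ‖inS τ (1 + σ) c' M'‖ ≤ C * (1 + Real.log (S.nm M')) ^ E * ls S M' ^ E *
        σ ^ (-((Finset.univ.filter fun u => c' u = (0, ∅)).card : ℝ)))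
    {a : ℕ} (ha : (1 : ℝ) * E ≤ a) {C2 : ℝ} (hC2 : 1 ≤ C2)
    (hT : ∑ x ∈ S.bx (2 ^ J), (∏ p ∈ x, 1 * τ p) * ls S x ^ a * pw 1 x ≤
      C2 * (1 + (J : ℝ)) ^ (1 : ℝ))
    (hS : Summable fun x : ι → Finset S.P => ‖Kt τ (1 + σ) b c M x‖) :
    ‖∑' x : ι → Finset S.P, (if pat x = U ∧ ∀ w ∈ U \ iso b U,
      (w ∈ L ↔ 2 ^ J < S.nm (x w)) then Kt τ (1 + σ) b c M x else 0)‖ ≤
      2 ^ (Fintype.card ι) * (C * ((1 + Real.log (S.nm M)) *
        (1 + (1 : ℝ) * Fintype.card ι * J)) ^ E *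
        ls S M ^ E * (C2 * (1 + (J : ℝ))) ^ (Fintype.card ι) *
        σ ^ (-(wt b c U : ℝ))) := by
  set I0 := iso b U with hI0
  set W := U \ I0 with hW
  have hiso : ∀ u, u ∈ I0 ↔ u ∈ U ∧ ∀ v ∈ U, ¬ Lk b u v := by
    intro u
    rw [hI0]
    unfold iso
    simp only [Finset.mem_filter]
  have hsub : I0 ⊆ U := fun u hu => ((hiso u).mp hu).1
  have hU : I0 ∪ W = U := Finset.union_sdiff_of_subset hsub
  have hd : Disjoint I0 W := Finset.disjoint_sdiff
  have hWU : W ⊆ U := Finset.sdiff_subset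
  set Q : ℝ := C * ((1 + Real.log (S.nm M)) *
        (1 + (1 : ℝ) * Fintype.card ι * J)) ^ E *
        ls S M ^ E * (C2 * (1 + (J : ℝ))) ^ (Fintype.card ι) *
        σ ^ (-(wt b c U : ℝ)) with hQ
  have hQ0 : 0 ≤ Q := by
    rw [hQ]
    have h1 := log_nm_nn (S := S) M
    have h2 : 0 < ls S M := Real.exp_pos _
    have h3 : 0 ≤ C2 := by linarith
    refine mul_nonneg (mul_nonneg (mul_nonneg (mul_nonneg hC0 (Real.rpow_nonneg (by positivity) _))
      (Real.rpow_nonneg h2.le _)) (by positivity)) (Real.rpow_nonneg hσ.le _)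
  have h1 : ∑' x : ι → Finset S.P, (if pat x = U ∧ ∀ w ∈ W,
      (w ∈ L ↔ 2 ^ J < S.nm (x w)) then Kt τ (1 + σ) b c M x else 0) =
      ∑ T ∈ (L ∪ I0).powerset, (-1 : ℝ) ^ T.card * ∑' x : ι → Finset S.P,
        (if Qc J ((L ∪ I0) \ T) ((T ∩ L) ∪ (W \ L)) (W \ L) x
          then Kt τ (1 + σ) b c M x else 0) := by
    have h2 : ∀ T : Finset ι, Summable fun x : ι → Finset S.P =>
        (if Qc J ((L ∪ I0) \ T) ((T ∩ L) ∪ (W \ L)) (W \ L) x
          then Kt τ (1 + σ) b c M x else 0) := by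
      intro T
      refine Summable.of_norm_bounded hS fun x => ?_
      by_cases h : Qc J ((L ∪ I0) \ T) ((T ∩ L) ∪ (W \ L)) (W \ L) x
      · rw [if_pos h]
      · rw [if_neg h, norm_zero]
        exact norm_nonneg _
    have h3 : ∀ T : Finset ι, (-1 : ℝ) ^ T.card * ∑' x : ι → Finset S.P,
        (if Qc J ((L ∪ I0) \ T) ((T ∩ L) ∪ (W \ L)) (W \ L) x
          then Kt τ (1 + σ) b c M x else 0) = ∑' x : ι → Finset S.P, (-1 : ℝ) ^ T.card *
        (if Qc J ((L ∪ I0) \ T) ((T ∩ L) ∪ (W \ L)) (W \ L) x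
          then Kt τ (1 + σ) b c M x else 0) := fun T => tsum_mul_left.symm
    rw [Finset.sum_congr rfl fun T _ => h3 T, ← Summable.tsum_finsetSum]
    · exact tsum_congr fun x => ind_eq J hU hd hL x _
    · exact fun T _ => (h2 T).mul_left _
  rw [h1]
  refine (norm_sum_le _ _).trans ?_
  have h2 : ∀ T ∈ (L ∪ I0).powerset, ‖(-1 : ℝ) ^ T.card * ∑' x : ι → Finset S.P,
        (if Qc J ((L ∪ I0) \ T) ((T ∩ L) ∪ (W \ L)) (W \ L) x
          then Kt τ (1 + σ) b c M x else 0)‖ ≤ Q := by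
    intro T _
    rw [norm_mul, norm_pow, norm_neg, norm_one, one_pow, one_mul]
    refine Qbound hC b hb hb2 hOk (U := U) (fun u hu v hv hlk => ?_) ?_ Finset.subset_union_right
      (fun u hu => ?_) hτ hσ hσ1 hC0 hE (hIn _) ha hC2 hT hS
    · have hu1 := (Finset.mem_sdiff.mp hu).1
      have hv1 := (Finset.mem_sdiff.mp hv).1
      rcases Finset.mem_union.mp hu1 with h3 | h3
      · rcases Finset.mem_union.mp hv1 with h4 | h4
        · exact hLL u h3 v h4 hlk
        · exact ((hiso v).mp h4).2 u (hWU (hL h3)) (Lk_symm hlk)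
      · rcases Finset.mem_union.mp hv1 with h4 | h4
        · exact ((hiso u).mp h3).2 v (hWU (hL h4)) hlk
        · exact ((hiso u).mp h3).2 v (hsub h4) hlk
    · rw [Finset.disjoint_left]
      intro u hu hk
      rcases Finset.mem_union.mp hk with h3 | h3
      · exact (Finset.mem_sdiff.mp hu).2 (Finset.mem_inter.mp h3).1
      · rcases Finset.mem_union.mp (Finset.mem_sdiff.mp hu).1 with h4 | h4
        · exact (Finset.mem_sdiff.mp h3).2 h4
        · exact Finset.disjoint_left.mp hd h4 (Finset.mem_sdiff.mp h3).1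
    · rcases Finset.mem_union.mp (Finset.mem_sdiff.mp hu).1 with h3 | h3
      swap
      · exact Or.inl h3
      · refine Or.inr ?_
        have h4 : u ∈ U ∧ u ∉ I0 := Finset.mem_sdiff.mp (hL h3)
        have h5 : ∃ v ∈ U, Lk b u v := by
          by_contra h6
          push Not at h6
          exact h4.2 ((hiso u).mpr ⟨h4.1, h6⟩)
        obtain ⟨v, hv, hlk⟩ := h5
        refine ⟨v, Finset.mem_sdiff.mpr ⟨Finset.mem_sdiff.mpr ⟨hv, fun h6 => ?_⟩, fun h6 => ?_⟩, hlk⟩
        · exact ((hiso v).mp h6).2 u h4.1 (Lk_symm hlk)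
        · exact hLL u h3 v h6 hlk
  refine (Finset.sum_le_sum h2).trans ?_
  rw [Finset.sum_const, nsmul_eq_mul]
  refine mul_le_mul_of_nonneg_right ?_ hQ0
  rw [Finset.card_powerset]
  push_cast
  exact pow_le_pow_right₀ (by norm_num) (Finset.card_le_univ _)
end CPt

open CPt

open Classical in
/-- Row C4: the pattern theorem. -/
theorem spat (h1 : Pool.Agent.D8.SFa) (h2 : SCh1) (h3 : SInn) (h4 : Pool.Agent.D8.SFb)
    (h5 : SSm) (h6 : Pool.Agent.D8.ST1) : SPat := by
  intro S ι _ b B hb hb2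
  choose CI EI hCI hEI hIn using fun I : Finset ι => h3 S {u // u ∈ I} B
  set C0 : ℝ := ∑ I, CI I with hC0d
  set E0 : ℝ := ∑ I, EI I with hE0d
  have hC0 : 0 ≤ C0 := Finset.sum_nonneg fun I _ => hCI I
  have hE0 : 0 ≤ E0 := Finset.sum_nonneg fun I _ => hEI I
  obtain ⟨CG, EF, cF, hCG, hEF, hcF, hFa⟩ := h1 S ι b B 1 one_pos le_rfl
  set CF : ℝ := 2 ^ (Fintype.card ι) * CG with hCFd
  have hCF : 0 ≤ CF := by positivity
  set a : ℕ := ⌈(1 : ℝ) * E0⌉₊ with had
  have ha : (1 : ℝ) * E0 ≤ a := Nat.le_ceil _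
  obtain ⟨C2', hC2', hT⟩ := h6 S B 1 a zero_le_one one_le_two
  set C2 : ℝ := max 1 C2' with hC2d
  have hC2 : 1 ≤ C2 := le_max_left _ _
  have hl2 : 0 < Real.log 2 := Real.log_pos (by norm_num)
  set A : ℝ := EF / (cF * Real.log 2) with hA
  have hA0 : 0 ≤ A := by positivity
  refine ⟨E0 + Fintype.card ι, by positivity, fun ε hε => ?_⟩
  obtain ⟨Ce, hCe, hMb⟩ := Mbound S hE0 hε
  set K : ℝ := C0 * Ce * (1 + (1 : ℝ) * Fintype.card ι) ^ E0 *
    C2 ^ (Fintype.card ι) * (2 + A) ^ (E0 + Fintype.card ι) with hK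
  have hK0 : 0 ≤ K := by
    rw [hK]
    positivity
  refine ⟨2 ^ (Fintype.card ι) * (CF + 2 ^ (Fintype.card ι) * K), by positivity,
    fun τ c M hτ hOk U σ hσ hσ1 => ?_⟩
  have hτ0 : ∀ p, 0 ≤ τ p := fun p => (hτ p).1
  have hlog : 0 ≤ Real.log (1 / σ) := Real.log_nonneg (by
    rw [le_div_iff₀ hσ]
    linarith)
  -- the size of the small variables
  set J : ℕ := if iso b U = U then 0 else ⌈A * Real.log (1 / σ)⌉₊ with hJ
  set Lo : ℝ := if iso b U = U then 1 else 1 + Real.log (1 / σ) with hLo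
  have hLo1 : 1 ≤ Lo := by
    rw [hLo]
    split_ifs
    · exact le_rfl
    · linarith
  have hJL : 1 + (J : ℝ) ≤ (2 + A) * Lo := by
    rw [hJ, hLo]
    split_ifs with h
    · push_cast
      linarith
    · have h6 : (⌈A * Real.log (1 / σ)⌉₊ : ℝ) < A * Real.log (1 / σ) + 1 :=
        Nat.ceil_lt_add_one (mul_nonneg hA0 hlog)
      nlinarith
  have hLoE : (if iso b U = U then (1 : ℝ) else
      (1 + Real.log (1 / σ)) ^ (E0 + (Fintype.card ι : ℝ))) = Lo ^ (E0 + (Fintype.card ι : ℝ)) := by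
    rw [hLo]
    split_ifs
    · rw [Real.one_rpow]
    · rfl
  rw [hLoE]
  -- the final bound
  have hnm : (1 : ℝ) ≤ (S.nm M : ℝ) ^ ε := Real.one_le_rpow (nm_oneR M) hε.le
  have hLE : 1 ≤ Lo ^ (E0 + (Fintype.card ι : ℝ)) := Real.one_le_rpow hLo1 (by positivity)
  have hsw : 1 ≤ σ ^ (-(wt b c U : ℝ)) :=
    Real.one_le_rpow_of_pos_of_le_one_of_nonpos hσ hσ1 (by
      rw [neg_nonpos]
      exact Nat.cast_nonneg _)
  set X : ℝ := (S.nm M : ℝ) ^ ε * Lo ^ (E0 + (Fintype.card ι : ℝ)) *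
    σ ^ (-(wt b c U : ℝ)) with hX
  have hX1 : 1 ≤ X := by
    rw [hX]
    exact one_le_mul_of_one_le_of_one_le (one_le_mul_of_one_le_of_one_le hnm hLE) hsw
  have hgoal : 2 ^ (Fintype.card ι) * (CF + 2 ^ (Fintype.card ι) * K) * (S.nm M : ℝ) ^ ε *
      Lo ^ (E0 + (Fintype.card ι : ℝ)) * σ ^ (-(wt b c U : ℝ)) =
      2 ^ (Fintype.card ι) * ((CF + 2 ^ (Fintype.card ι) * K) * X) := by
    rw [hX]
    ring
  rw [hgoal]
  have hSum : Summable fun x : ι → Finset S.P => ‖Kt τ (1 + σ) b c M x‖ :=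
    h5 S ι b c M B τ hτ σ hσ
  rw [← Real.norm_eq_abs]
  rw [PS_eq J τ (1 + σ) b c M U (U \ iso b U) hSum]
  refine (norm_sum_le _ _).trans ?_
  have hInn : ∀ (I : Finset ι) (c' : {u // u ∈ I} → El S) (M' : Finset S.P), (∀ u, (c' u).2 ⊆ M') →
      ‖inS τ (1 + σ) c' M'‖ ≤ C0 * (1 + Real.log (S.nm M')) ^ E0 * ls S M' ^ E0 *
        σ ^ (-((Finset.univ.filter fun u => c' u = (0, ∅)).card : ℝ)) := by
    intro I c' M' hOk'
    have h6 := hIn I τ c' M' hτ hOk' σ hσ hσ1
    refine le_trans h6 ?_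
    have h7 : (1 : ℝ) ≤ 1 + Real.log (S.nm M') := by
      have := log_nm_nn (S := S) M'
      linarith
    have h8 : 1 ≤ ls S M' := by
      rw [ls_eq]
      exact Real.one_le_exp (rs_nn M')
    have h9 : EI I ≤ E0 := Finset.single_le_sum (f := EI) (fun I _ => hEI I) (Finset.mem_univ I)
    have h10 : CI I ≤ C0 := Finset.single_le_sum (f := CI) (fun I _ => hCI I) (Finset.mem_univ I)
    refine mul_le_mul_of_nonneg_right ?_ (Real.rpow_nonneg hσ.le _)
    refine mul_le_mul (mul_le_mul h10 (Real.rpow_le_rpow_of_exponent_le h7 h9)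
      (Real.rpow_nonneg (by linarith) _) hC0) (Real.rpow_le_rpow_of_exponent_le h8 h9)
      (Real.rpow_nonneg (by linarith) _) (mul_nonneg hC0 (Real.rpow_nonneg (by linarith) _))
  have hTT : ∑ x ∈ S.bx (2 ^ J), (∏ p ∈ x, 1 * τ p) * ls S x ^ a * pw 1 x ≤
      C2 * (1 + (J : ℝ)) ^ (1 : ℝ) := by
    refine ((hT τ hτ σ hσ hσ1).2.2 J).trans ?_
    exact mul_le_mul_of_nonneg_right (le_max_right _ _) (Real.rpow_nonneg (by positivity) _)
  have hmain : ∀ L ∈ (U \ iso b U).powerset, ‖∑' x : ι → Finset S.P,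
      (if pat x = U ∧ ∀ w ∈ U \ iso b U, (w ∈ L ↔ 2 ^ J < S.nm (x w))
        then Kt τ (1 + σ) b c M x else 0)‖ ≤ (CF + 2 ^ (Fintype.card ι) * K) * X := by
    intro L hL
    rw [Finset.mem_powerset] at hL
    by_cases hLL : ∀ u ∈ L, ∀ v ∈ L, ¬ Lk b u v
    · have h6 := Lbound h2 b hb hb2 hOk J U hL hLL hτ0 hσ hσ1 hC0 hE0 hInn ha hC2 hTT hSum
      refine h6.trans ?_
      have h7 : C0 * ((1 + Real.log (S.nm M)) *
          (1 + (1 : ℝ) * Fintype.card ι * J)) ^ E0 *
          ls S M ^ E0 * (C2 * (1 + (J : ℝ))) ^ (Fintype.card ι) *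
          σ ^ (-(wt b c U : ℝ)) ≤ K * X := by
        have hlg := log_nm_nn (S := S) M
        have h8 : (1 + (1 : ℝ) * Fintype.card ι * J) ≤
            (1 + (1 : ℝ) * Fintype.card ι) * ((2 + A) * Lo) := by
          have h9 : (0 : ℝ) ≤ (1 : ℝ) * Fintype.card ι := by positivity
          have h10 : (0 : ℝ) ≤ J := Nat.cast_nonneg _
          calc (1 + (1 : ℝ) * Fintype.card ι * J)
              ≤ (1 + (1 : ℝ) * Fintype.card ι) * (1 + (J : ℝ)) := by nlinarith
            _ ≤ (1 + (1 : ℝ) * Fintype.card ι) * ((2 + A) * Lo) :=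
                mul_le_mul_of_nonneg_left hJL (by linarith)
        have h9 : ((1 + Real.log (S.nm M)) *
            (1 + (1 : ℝ) * Fintype.card ι * J)) ^ E0 ≤
            (1 + Real.log (S.nm M)) ^ E0 * ((1 + (1 : ℝ) * Fintype.card ι) ^ E0 *
            ((2 + A) ^ E0 * Lo ^ E0)) := by
          rw [Real.mul_rpow (by linarith) (by positivity)]
          refine mul_le_mul_of_nonneg_left ?_ (Real.rpow_nonneg (by linarith) _)
          rw [← Real.mul_rpow (by positivity) (by linarith), ← Real.mul_rpow (by positivity)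
            (by positivity)]
          exact Real.rpow_le_rpow (by positivity) h8 hE0
        have h10 : (C2 * (1 + (J : ℝ))) ^ (Fintype.card ι) ≤ C2 ^ (Fintype.card ι) *
            ((2 + A) ^ (Fintype.card ι : ℝ) * Lo ^ (Fintype.card ι : ℝ)) := by
          rw [mul_pow, Real.rpow_natCast, Real.rpow_natCast,
            ← mul_pow (2 + A) Lo (Fintype.card ι)]
          exact mul_le_mul_of_nonneg_left (pow_le_pow_left₀ (by positivity) hJL _) (by positivity)
        have h11 : (2 + A) ^ (E0 + (Fintype.card ι : ℝ)) =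
            (2 + A) ^ E0 * (2 + A) ^ (Fintype.card ι : ℝ) :=
          Real.rpow_add (by linarith) _ _
        have h12 : Lo ^ (E0 + (Fintype.card ι : ℝ)) = Lo ^ E0 * Lo ^ (Fintype.card ι : ℝ) :=
          Real.rpow_add (by linarith) _ _
        have hls : 0 ≤ ls S M := (Real.exp_pos _).le
        calc C0 * ((1 + Real.log (S.nm M)) *
                (1 + (1 : ℝ) * Fintype.card ι * J)) ^ E0 *
                ls S M ^ E0 * (C2 * (1 + (J : ℝ))) ^ (Fintype.card ι) *
                σ ^ (-(wt b c U : ℝ))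
            ≤ C0 * ((1 + Real.log (S.nm M)) ^ E0 *
            ((1 + (1 : ℝ) * Fintype.card ι) ^ E0 *
            ((2 + A) ^ E0 * Lo ^ E0))) * ls S M ^ E0 * (C2 ^ (Fintype.card ι) *
            ((2 + A) ^ (Fintype.card ι : ℝ) * Lo ^ (Fintype.card ι : ℝ))) *
            σ ^ (-(wt b c U : ℝ)) := by
              refine mul_le_mul_of_nonneg_right ?_ (Real.rpow_nonneg hσ.le _)
              have hn1 : 0 ≤ ls S M ^ E0 := Real.rpow_nonneg hls _
              have hn2 : 0 ≤ (C2 * (1 + (J : ℝ))) ^ (Fintype.card ι) := by positivity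
              have hn3 : 0 ≤ (1 + Real.log (S.nm M)) ^ E0 *
                ((1 + (1 : ℝ) * Fintype.card ι) ^ E0 *
                ((2 + A) ^ E0 * Lo ^ E0)) := by
                have : 0 ≤ 1 + Real.log (S.nm M) := by linarith
                positivity
              exact mul_le_mul (mul_le_mul_of_nonneg_right (mul_le_mul_of_nonneg_left h9 hC0) hn1)
                h10 hn2 (mul_nonneg (mul_nonneg hC0 hn3) hn1)
          _ = C0 * (((1 + Real.log (S.nm M)) ^ E0 * ls S M ^ E0) *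
            ((1 + (1 : ℝ) * Fintype.card ι) ^ E0 *
            C2 ^ (Fintype.card ι) * (2 + A) ^ (E0 + (Fintype.card ι : ℝ)) *
            Lo ^ (E0 + (Fintype.card ι : ℝ)) * σ ^ (-(wt b c U : ℝ)))) := by
              rw [h11, h12]
              ring
          _ ≤ C0 * ((Ce * (S.nm M : ℝ) ^ ε) *
            ((1 + (1 : ℝ) * Fintype.card ι) ^ E0 *
            C2 ^ (Fintype.card ι) * (2 + A) ^ (E0 + (Fintype.card ι : ℝ)) *
            Lo ^ (E0 + (Fintype.card ι : ℝ)) * σ ^ (-(wt b c U : ℝ)))) := by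
              refine mul_le_mul_of_nonneg_left (mul_le_mul_of_nonneg_right (hMb M) ?_) hC0
              positivity
          _ = K * X := by
              rw [hK, hX]
              ring
      calc (2 : ℝ) ^ (Fintype.card ι) * (C0 * ((1 + Real.log (S.nm M)) *
              (1 + (1 : ℝ) * Fintype.card ι * J)) ^ E0 *
              ls S M ^ E0 * (C2 * (1 + (J : ℝ))) ^ (Fintype.card ι) *
              σ ^ (-(wt b c U : ℝ))) ≤ 2 ^ (Fintype.card ι) * (K * X) :=
            mul_le_mul_of_nonneg_left h7 (by positivity)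
        _ ≤ (CF + 2 ^ (Fintype.card ι) * K) * X := by
            have : 0 ≤ CF * X := mul_nonneg hCF (by linarith)
            linarith
    · push Not at hLL
      obtain ⟨u, hu, v, hv, hlk⟩ := hLL
      have hiso : iso b U ≠ U := by
        intro h
        have := hL hu
        rw [h, Finset.sdiff_self] at this
        exact absurd this (Finset.notMem_empty u)
      have h6 := lbd (U := U) (W := U \ iso b U) (J := J) hSum hL
        (X := CG * σ ^ (-EF) * (2 : ℝ) ^ (-(cF * J)))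
        (mul_nonneg (mul_nonneg hCG (Real.rpow_nonneg hσ.le _))
          (Real.rpow_nonneg (by norm_num) _)) fun I hI =>
        hFa τ ⟨M, c, fun _ => (0, ∅), fun _ => M⟩ (fun P => if P = U then (1 : ℝ) else 0) hτ
          (fun P => by split_ifs <;> simp) I u v (hI hu) (hI hv) hlk σ J hσ hσ1
      have h6' : 2 ^ (Fintype.card ι) * (CG * σ ^ (-EF) * (2 : ℝ) ^ (-(cF * J))) =
          CF * σ ^ (-EF) * (2 : ℝ) ^ (-(cF * J)) := by
        rw [hCFd]
        ring
      rw [h6'] at h6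
      refine le_trans h6 ?_
      have hJ2 : A * Real.log (1 / σ) ≤ J := by
        rw [hJ, if_neg hiso]
        exact Nat.le_ceil _
      have h7 : σ ^ (-EF) * (2 : ℝ) ^ (-(cF * J)) ≤ 1 := by
        rw [Real.rpow_def_of_pos hσ, Real.rpow_def_of_pos (by norm_num : (0 : ℝ) < 2),
          ← Real.exp_add]
        rw [Real.exp_le_one_iff]
        have h8 : Real.log (1 / σ) = -Real.log σ := by rw [one_div, Real.log_inv]
        have h9 : EF * Real.log (1 / σ) ≤ Real.log 2 * (cF * J) := by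
          have h10 : A * (cF * Real.log 2) = EF := by
            rw [hA]
            field_simp
          calc EF * Real.log (1 / σ) = (A * Real.log (1 / σ)) * (cF * Real.log 2) := by
                rw [← h10]
                ring
            _ ≤ (J : ℝ) * (cF * Real.log 2) := mul_le_mul_of_nonneg_right hJ2 (by positivity)
            _ = Real.log 2 * (cF * J) := by ring
        rw [h8] at h9
        linarith
      calc CF * σ ^ (-EF) * (2 : ℝ) ^ (-(cF * J)) = CF * (σ ^ (-EF) * (2 : ℝ) ^ (-(cF * J))) := by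
            ring
        _ ≤ CF * 1 := mul_le_mul_of_nonneg_left h7 hCF
        _ ≤ CF * X := mul_le_mul_of_nonneg_left hX1 hCF
        _ ≤ (CF + 2 ^ (Fintype.card ι) * K) * X := by
            have : 0 ≤ 2 ^ (Fintype.card ι) * K * X := by positivity
            linarith
  refine (Finset.sum_le_sum hmain).trans ?_
  rw [Finset.sum_const, nsmul_eq_mul]
  refine mul_le_mul_of_nonneg_right ?_ (by positivity)
  rw [Finset.card_powerset]
  push_cast
  exact pow_le_pow_right₀ (by norm_num) (Finset.card_le_univ _)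

end Pool.Agent.EV
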