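import Pool.Agent.EV.CStm

/-!
# Project T4 (MP_a3214d), even half, row C4: the pattern theorem, first part
-/

set_option autoImplicit false

open scoped BigOperators Topology
open Filter

namespace Pool.Agent.EV

open Pool.Agent.H98.MK (sg)
open Pool.Agent.H98.MF
open Pool.Agent.H32.MQ (El pw)
open Pool.Agent.D8 (pat Tk ls ad)

namespace CPt

theorem sg_ad (a b : ZMod 2) : ((sg (a + b) : ℤ) : ℝ) = ((sg a : ℤ) : ℝ) * ((sg b : ℤ) : ℝ) := by
  have h : ∀ a b : ZMod 2, sg (a + b) = sg a * sg b := by decide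
  rw [h]
  push_cast
  ring

theorem sg_abs (a : ZMod 2) : ‖((sg a : ℤ) : ℝ)‖ = 1 := by
  have h : ∀ a : ZMod 2, sg a = 1 ∨ sg a = -1 := by decide
  rcases h a with h | h <;> rw [h] <;> norm_num

theorem sum_bU {α β : Type} [DecidableEq β] (s : Finset α) (t : α → Finset β) (f : β → ℝ)
    (hf : ∀ b, 0 ≤ f b) : ∑ b ∈ s.biUnion t, f b ≤ ∑ a ∈ s, ∑ b ∈ t a, f b := by
  classical
  induction s using Finset.induction_on with
  | empty => simp
  | insert a s ha ih =>
    rw [Finset.biUnion_insert, Finset.sum_insert ha]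
    have h1 : ∑ b ∈ t a ∪ s.biUnion t, f b ≤ ∑ b ∈ t a, f b + ∑ b ∈ s.biUnion t, f b := by
      rw [← Finset.sum_union_inter]
      exact le_add_of_nonneg_right (Finset.sum_nonneg fun b _ => hf b)
    linarith

variable (S : Sys) {ι : Type} [Fintype ι]

/-- the weight of a set of primes -/
noncomputable def wg (τ : S.P → ℝ) (s : ℝ) (x : Finset S.P) : ℝ :=
  ∏ p ∈ x, (τ p * (S.N p : ℝ) ^ (-s))

/-- the reciprocal sum -/
noncomputable def rs (x : Finset S.P) : ℝ := ∑ p ∈ x, 2 / (S.N p : ℝ)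

variable {S}

theorem wg_nn {τ : S.P → ℝ} (hτ : ∀ p, 0 ≤ τ p) (s : ℝ) (x : Finset S.P) : 0 ≤ wg S τ s x :=
  Finset.prod_nonneg fun p _ => mul_nonneg (hτ p) (Real.rpow_nonneg (Nat.cast_nonneg _) _)

theorem N_pos (p : S.P) : (0 : ℝ) < S.N p := by
  have := S.two_le p
  exact_mod_cast (by omega : 0 < S.N p)

theorem rs_nn (x : Finset S.P) : 0 ≤ rs S x :=
  Finset.sum_nonneg fun p _ => div_nonneg (by norm_num) (N_pos p).le

theorem nm_one (x : Finset S.P) : 1 ≤ S.nm x := by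
  unfold Pre.nm
  exact Nat.one_le_iff_ne_zero.mpr (Finset.prod_ne_zero_iff.mpr fun p _ => by
    have := S.two_le p
    omega)

theorem nm_oneR (x : Finset S.P) : (1 : ℝ) ≤ S.nm x := by exact_mod_cast nm_one x

theorem log_nm (x : Finset S.P) : Real.log (S.nm x) = ∑ p ∈ x, Real.log (S.N p) := by
  unfold Pre.nm
  push_cast
  rw [Real.log_prod]
  intro p _
  exact (N_pos p).ne'

theorem log_nm_nn (x : Finset S.P) : 0 ≤ Real.log (S.nm x) := Real.log_nonneg (nm_oneR x)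

theorem ls_eq (x : Finset S.P) : ls S x = Real.exp (rs S x) := rfl
/-- sums over the primes of a larger set -/
theorem sum_M' {M M' : Finset S.P} {y : ι → Finset S.P}
    (hM : ∀ p, p ∈ M' ↔ (p ∈ M ∨ ∃ u, p ∈ y u)) (f : S.P → ℝ) (hf : ∀ p, 0 ≤ f p) :
    ∑ p ∈ M', f p ≤ ∑ p ∈ M, f p + (1 : ℝ) * ∑ u, ∑ q ∈ y u, f q := by
  classical
  set Z : Finset S.P := Finset.univ.biUnion y with hZ
  have h1 : M' ⊆ M ∪ Z := by
    intro p hp
    rcases (hM p).mp hp with h | ⟨u, hu⟩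
    · exact Finset.mem_union_left _ h
    · exact Finset.mem_union_right _ (Finset.mem_biUnion.mpr ⟨u, Finset.mem_univ _, hu⟩)
  have h2 : ∑ p ∈ M', f p ≤ ∑ p ∈ M ∪ Z, f p :=
    Finset.sum_le_sum_of_subset_of_nonneg h1 fun p _ _ => hf p
  have h3 : ∑ p ∈ M ∪ Z, f p ≤ ∑ p ∈ M, f p + ∑ p ∈ Z, f p := by
    rw [← Finset.sum_union_inter]
    exact le_add_of_nonneg_right (Finset.sum_nonneg fun b _ => hf b)
  have h4 : ∑ p ∈ Z, f p ≤ ∑ u, ∑ q ∈ y u, f q := sum_bU _ _ f hf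
  linarith

theorem log_M' {M M' : Finset S.P} {y : ι → Finset S.P}
    (hM : ∀ p, p ∈ M' ↔ (p ∈ M ∨ ∃ u, p ∈ y u)) :
    Real.log (S.nm M') ≤ Real.log (S.nm M) +
      (1 : ℝ) * ∑ u, Real.log (S.nm (y u)) := by
  simp only [log_nm]
  refine sum_M' hM (fun p => Real.log (S.N p)) fun p => ?_
  have := S.two_le p
  exact Real.log_nonneg (by exact_mod_cast (by omega : 1 ≤ S.N p))

theorem ls_M' {M M' : Finset S.P} {y : ι → Finset S.P}
    (hM : ∀ p, p ∈ M' ↔ (p ∈ M ∨ ∃ u, p ∈ y u)) :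
    ls S M' ≤ ls S M * ∏ u, ls S (y u) ^ 1 := by
  have h1 : rs S M' ≤ rs S M + (1 : ℝ) * ∑ u, rs S (y u) :=
    sum_M' hM (fun p => 2 / (S.N p : ℝ)) fun p => div_nonneg (by norm_num) (N_pos p).le
  have h2 : ls S M * ∏ u, ls S (y u) ^ 1 =
      Real.exp (rs S M + (1 : ℝ) * ∑ u, rs S (y u)) := by
    simp only [ls_eq, pow_one, one_mul]
    rw [Real.exp_add, Real.exp_sum]
  rw [h2, ls_eq]
  exact Real.exp_le_exp.mpr h1

/-! ### families with given small variables -/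

open Classical in
/-- the family with large variables `z` and small variables `y` -/
noncomputable def jn (I : Finset ι) (y : ι → Finset S.P) (z : {u // u ∈ I} → Finset S.P) :
    ι → Finset S.P := fun w => if h : w ∈ I then z ⟨w, h⟩ else y w

open Classical in
/-- extension by the empty set -/
noncomputable def xt (I : Finset ι) (z : {u // u ∈ I} → Finset S.P) : ι → Finset S.P :=
  fun w => if h : w ∈ I then z ⟨w, h⟩ else ∅

theorem xt_out {I : Finset ι} (z : {u // u ∈ I} → Finset S.P) {u : ι} (hu : u ∉ I) :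
    xt I z u = ∅ := by
  unfold xt
  rw [dif_neg hu]

theorem xt_in {I : Finset ι} (z : {u // u ∈ I} → Finset S.P) (u : {u // u ∈ I}) :
    xt I z u.1 = z u := by
  unfold xt
  rw [dif_pos u.2]

theorem jn_eq {I : Finset ι} {y : ι → Finset S.P} (hy : ∀ u ∈ I, y u = ∅)
    (z : {u // u ∈ I} → Finset S.P) : jn I y z = fun u => xt I z u ∪ y u := by
  funext u
  unfold jn xt
  by_cases h : u ∈ I
  · rw [dif_pos h, dif_pos h, hy u h, Finset.union_empty]
  · rw [dif_neg h, dif_neg h, Finset.empty_union]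

theorem xt_Gd {I : Finset ι} (z : {u // u ∈ I} → Finset S.P) : S.Dj (xt I z) ↔ S.Dj z := by
  constructor
  · intro h u v huv
    have h1 := h u.1 v.1 fun h => huv (Subtype.ext h)
    rwa [xt_in, xt_in] at h1
  · intro h u v huv
    by_cases hu : u ∈ I
    · by_cases hv : v ∈ I
      · rw [show xt I z u = z ⟨u, hu⟩ from xt_in z ⟨u, hu⟩,
          show xt I z v = z ⟨v, hv⟩ from xt_in z ⟨v, hv⟩]
        exact h ⟨u, hu⟩ ⟨v, hv⟩ fun h => huv (congrArg Subtype.val h)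
      · rw [xt_out z hv]
        exact Finset.disjoint_empty_right _
    · rw [xt_out z hu]
      exact Finset.disjoint_empty_left _

theorem xt_Off {I : Finset ι} (M : Finset S.P) (z : {u // u ∈ I} → Finset S.P) :
    Off S M (xt I z) ↔ Off S M z := by
  constructor
  · intro h u
    have := h u.1
    rwa [xt_in] at this
  · intro h u
    by_cases hu : u ∈ I
    · rw [show xt I z u = z ⟨u, hu⟩ from xt_in z ⟨u, hu⟩]
      exact h ⟨u, hu⟩
    · rw [xt_out z hu]
      exact Finset.disjoint_empty_left _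

/-- sums over the large variables -/
theorem xt_sum {A : Type} [AddCommMonoid A] {I : Finset ι} (z : {u // u ∈ I} → Finset S.P)
    (F : ι → S.P → A) : ∑ u, ∑ p ∈ xt I z u, F u p = ∑ u : {u // u ∈ I}, ∑ p ∈ z u, F u.1 p := by
  classical
  have h1 : ∑ u, ∑ p ∈ xt I z u, F u p = ∑ u ∈ I, ∑ p ∈ xt I z u, F u p := by
    symm
    refine Finset.sum_subset (Finset.subset_univ _) fun u _ hu => ?_
    rw [xt_out z hu, Finset.sum_empty]
  rw [h1, ← Finset.sum_coe_sort I]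
  exact Finset.sum_congr rfl fun u _ => by rw [xt_in]

theorem Gd_mono {x y : ι → Finset S.P} (h : ∀ u, y u ⊆ x u) (hx : S.Dj x) : S.Dj y :=
  fun u v huv => Finset.disjoint_of_subset_left (h u)
    (Finset.disjoint_of_subset_right (h v) (hx u v huv))

theorem Off_mono {M : Finset S.P} {x y : ι → Finset S.P} (h : ∀ u, y u ⊆ x u)
    (hx : Off S M x) : Off S M y := fun u => Finset.disjoint_of_subset_left (h u) (hx u)

open Classical in
/-- the inner sums -/
noncomputable def inS (τ : S.P → ℝ) (s : ℝ) {κ : Type} [Fintype κ] (c : κ → El S)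
    (M : Finset S.P) : ℝ :=
  ∑' x : κ → Finset S.P, (if S.Dj x ∧ Off S M x then
      ((sg (∑ u, ∑ p ∈ x u, xc (c u) p) : ℤ) : ℝ) *
        ∏ u, ∏ p ∈ x u, (τ p * (S.N p : ℝ) ^ (-s)) else 0)

open Classical in
/-- the sum over the large variables -/
theorem fixY0 (hC : SCh1) (b : ι → ι → ZMod 2) (hb : ∀ u, b u u = 0) (hb2 : ∀ u v, b u v = 0 ∨ b v u = 0) {c : ι → El S}
    {M : Finset S.P} (hOk : (∀ u, (c u).2 ⊆ M)) {I : Finset ι} (hI : ∀ u ∈ I, ∀ v ∈ I, ¬ Lk b u v)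
    {y : ι → Finset S.P} (hy : ∀ u ∈ I, y u = ∅) (τ : S.P → ℝ) (s : ℝ) :
    (¬ (S.Dj y ∧ Off S M y) ∧
      ∑' x : ι → Finset S.P, (if ∀ w, w ∉ I → x w = y w then Kt τ s b c M x else 0) = 0) ∨
    ∃ (c' : ι → El S) (M' : Finset S.P), (∀ u, (c' u).2 ⊆ M') ∧
      (∀ p, p ∈ M' ↔ (p ∈ M ∨ ∃ u, p ∈ y u)) ∧
      (∀ u ∈ I, (c' u = (0, ∅) ↔ (c u = (0, ∅) ∧ ∀ v, Lk b u v → y v = ∅))) ∧
      ∑' x : ι → Finset S.P, (if ∀ w, w ∉ I → x w = y w then Kt τ s b c M x else 0) =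
        ((sg (EE b c y) : ℤ) : ℝ) * (∏ u, wg S τ s (y u)) *
          inS τ s (fun u : {u // u ∈ I} => c' u.1) M' := by
  -- the sum is a sum over the large variables
  have h0 : ∑' x : ι → Finset S.P,
      (if ∀ w, w ∉ I → x w = y w then Kt τ s b c M x else 0) =
      ∑' z : {u // u ∈ I} → Finset S.P, Kt τ s b c M (jn I y z) := by
    have hinj : Function.Injective (jn (S := S) I y) := by
      intro z z' h
      funext u
      have h1 := congrFun h u.1
      unfold jn at h1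
      rw [dif_pos u.2, dif_pos u.2] at h1
      exact h1
    rw [← hinj.tsum_eq (f := fun x : ι → Finset S.P =>
      (if ∀ w, w ∉ I → x w = y w then Kt τ s b c M x else 0))]
    · refine tsum_congr fun z => ?_
      rw [if_pos]
      intro w hw
      unfold jn
      rw [dif_neg hw]
    · intro x hx
      have h1 : ∀ w, w ∉ I → x w = y w := by
        by_contra h
        exact hx (if_neg h)
      refine ⟨fun u => x u.1, ?_⟩
      funext w
      unfold jn
      by_cases hw : w ∈ I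
      · rw [dif_pos hw]
      · rw [dif_neg hw, h1 w hw]
  by_cases hg : S.Dj y ∧ Off S M y
  swap
  · refine Or.inl ⟨hg, ?_⟩
    rw [h0]
    have h1 : ∀ z : {u // u ∈ I} → Finset S.P, Kt τ s b c M (jn I y z) = 0 := by
      intro z
      unfold Kt
      rw [if_neg]
      intro h
      rw [jn_eq hy] at h
      exact hg ⟨Gd_mono (fun u => Finset.subset_union_right) h.1,
        Off_mono (fun u => Finset.subset_union_right) h.2⟩
    simp only [h1, tsum_zero]
  · refine Or.inr ?_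
    obtain ⟨c', M', hOk', hM', hc', hx'⟩ := hC S ι b c M hb hb2 hOk I y hI hy hg.1 hg.2
    refine ⟨c', M', hOk', hM', hc', ?_⟩
    rw [h0]
    unfold inS
    rw [← tsum_mul_left]
    refine tsum_congr fun z => ?_
    have h2 := hx' (xt I z) (fun u hu => xt_out z hu)
    rw [jn_eq hy]
    unfold Kt
    by_cases h3 : S.Dj z ∧ Off S M' z
    · have h4 : S.Dj (xt I z) ∧ Off S M' (xt I z) := ⟨(xt_Gd z).mpr h3.1, (xt_Off M' z).mpr h3.2⟩
      rw [if_pos (h2.1.mpr h4), if_pos h3, h2.2 h4.1 h4.2, sg_ad, xt_sum]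
      have h5 : (∏ u, ∏ p ∈ xt I z u ∪ y u, (τ p * (S.N p : ℝ) ^ (-s)) : ℝ) =
          (∏ u, wg S τ s (y u)) * ∏ u : {u // u ∈ I}, ∏ p ∈ z u, (τ p * (S.N p : ℝ) ^ (-s)) := by
        have h6 : ∀ u, ∏ p ∈ xt I z u ∪ y u, (τ p * (S.N p : ℝ) ^ (-s)) =
            wg S τ s (y u) * ∏ p ∈ xt I z u, (τ p * (S.N p : ℝ) ^ (-s)) := by
          intro u
          by_cases hu : u ∈ I
          · rw [hy u hu]
            unfold wg
            rw [Finset.union_empty, Finset.prod_empty, one_mul]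
          · rw [xt_out z hu, Finset.empty_union, Finset.prod_empty, mul_one]
            rfl
        rw [Finset.prod_congr rfl fun u _ => h6 u, Finset.prod_mul_distrib]
        congr 1
        have h7 : ∏ u, ∏ p ∈ xt I z u, (τ p * (S.N p : ℝ) ^ (-s)) =
            ∏ u ∈ I, ∏ p ∈ xt I z u, (τ p * (S.N p : ℝ) ^ (-s)) := by
          symm
          refine Finset.prod_subset (Finset.subset_univ _) fun u _ hu => ?_
          rw [xt_out z hu, Finset.prod_empty]
        rw [h7, ← Finset.prod_coe_sort I]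
        exact Finset.prod_congr rfl fun u _ => by rw [xt_in]
      rw [h5]
      ring
    · rw [if_neg h3, if_neg (fun h => h3 ⟨(xt_Gd z).mp (h2.1.mp h).1,
        (xt_Off M' z).mp (h2.1.mp h).2⟩), mul_zero]

/-! ### bounds -/

open Classical in
/-- the bound for given small variables -/
theorem fixY1 (hC : SCh1) (b : ι → ι → ZMod 2) (hb : ∀ u, b u u = 0) (hb2 : ∀ u v, b u v = 0 ∨ b v u = 0) {c : ι → El S}
    {M : Finset S.P} (hOk : (∀ u, (c u).2 ⊆ M)) {I : Finset ι} (hI : ∀ u ∈ I, ∀ v ∈ I, ¬ Lk b u v)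
    {y : ι → Finset S.P} (hy : ∀ u ∈ I, y u = ∅) {τ : S.P → ℝ} (hτ : ∀ p, 0 ≤ τ p) {σ : ℝ}
    (hσ : 0 < σ) (hσ1 : σ ≤ 1) {C E : ℝ} (hC0 : 0 ≤ C) (hE : 0 ≤ E)
    (hIn : ∀ (c' : {u // u ∈ I} → El S) (M' : Finset S.P), (∀ u, (c' u).2 ⊆ M') →
      ‖inS τ (1 + σ) c' M'‖ ≤ C * (1 + Real.log (S.nm M')) ^ E * ls S M' ^ E *
        σ ^ (-((Finset.univ.filter fun u => c' u = (0, ∅)).card : ℝ)))
    {n : ℕ} (hn : (I.filter fun u => c u = (0, ∅) ∧ ∀ v, Lk b u v → y v = ∅).card ≤ n)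
    {Z : ℝ} (hZ : ∑ u, Real.log (S.nm (y u)) ≤ Z) :
    ‖∑' x : ι → Finset S.P, (if ∀ w, w ∉ I → x w = y w then Kt τ (1 + σ) b c M x else 0)‖ ≤
      (∏ u, wg S τ (1 + σ) (y u)) * (C * (1 + Real.log (S.nm M) +
        (1 : ℝ) * Z) ^ E *
        (ls S M * ∏ u, ls S (y u) ^ 1) ^ E * σ ^ (-(n : ℝ))) := by
  have hw : 0 ≤ ∏ u, wg S τ (1 + σ) (y u) :=
    Finset.prod_nonneg fun u _ => wg_nn hτ _ _
  have hZ0 : 0 ≤ Z := (Finset.sum_nonneg fun u _ => log_nm_nn (y u)).trans hZ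
  have hls : ∀ x : Finset S.P, 0 < ls S x := fun x => Real.exp_pos _
  rcases fixY0 hC b hb hb2 hOk hI hy τ (1 + σ) with ⟨-, h⟩ | ⟨c', M', hOk', hM', hc', h⟩
  · rw [h, norm_zero]
    have h1 : 0 ≤ 1 + Real.log (S.nm M) + (1 : ℝ) * Z := by
      have := log_nm_nn (S := S) M
      positivity
    have h2 : 0 ≤ ls S M * ∏ u, ls S (y u) ^ 1 :=
      mul_nonneg (hls M).le (Finset.prod_nonneg fun u _ => pow_nonneg (hls _).le _)
    exact mul_nonneg hw (mul_nonneg (mul_nonneg (mul_nonneg hC0 (Real.rpow_nonneg h1 _))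
      (Real.rpow_nonneg h2 _)) (Real.rpow_nonneg hσ.le _))
  · rw [h, norm_mul, norm_mul, sg_abs, one_mul, Real.norm_of_nonneg hw]
    refine mul_le_mul_of_nonneg_left ?_ hw
    have hOk2 : ∀ u : {u // u ∈ I}, (c' u.1).2 ⊆ M' := fun u => hOk' u.1
    refine (hIn _ M' hOk2).trans ?_
    have h1 : (1 + Real.log (S.nm M')) ^ E ≤ (1 + Real.log (S.nm M) +
        (1 : ℝ) * Z) ^ E := by
      refine Real.rpow_le_rpow (by have := log_nm_nn (S := S) M'; linarith) ?_ hE
      have h2 := log_M' hM'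
      have h3 : (1 : ℝ) * ∑ u, Real.log (S.nm (y u)) ≤
          (1 : ℝ) * Z := mul_le_mul_of_nonneg_left hZ zero_le_one
      linarith
    have h2 : ls S M' ^ E ≤ (ls S M * ∏ u, ls S (y u) ^ 1) ^ E :=
      Real.rpow_le_rpow (hls M').le (ls_M' hM') hE
    have h3 : σ ^ (-((Finset.univ.filter fun u : {u // u ∈ I} => c' u.1 = (0, ∅)).card : ℝ)) ≤
        σ ^ (-(n : ℝ)) := by
      refine Real.rpow_le_rpow_of_exponent_ge hσ hσ1 ?_
      have h4 : (Finset.univ.filter fun u : {u // u ∈ I} => c' u.1 = (0, ∅)).card ≤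
          (I.filter fun u => c u = (0, ∅) ∧ ∀ v, Lk b u v → y v = ∅).card := by
        refine Finset.card_le_card_of_injOn (fun u => u.1) (fun u hu => ?_)
          (fun u _ v _ huv => Subtype.ext huv)
        have h5 := (Finset.mem_filter.mp (Finset.mem_coe.mp hu)).2
        exact Finset.mem_coe.mpr (Finset.mem_filter.mpr ⟨u.2, (hc' u.1 u.2).mp h5⟩)
      have h6 : ((Finset.univ.filter fun u : {u // u ∈ I} => c' u.1 = (0, ∅)).card : ℝ) ≤ n := by
        exact_mod_cast h4.trans hn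
      linarith
    have h7 : 0 ≤ (1 + Real.log (S.nm M')) := by have := log_nm_nn (S := S) M'; linarith
    have h8 : 0 ≤ (1 + Real.log (S.nm M) + (1 : ℝ) * Z) ^ E := by
      refine (Real.rpow_nonneg h7 E).trans h1
    have h9 : 0 ≤ (ls S M * ∏ u, ls S (y u) ^ 1) ^ E :=
      (Real.rpow_nonneg (hls M').le E).trans h2
    refine mul_le_mul (mul_le_mul (mul_le_mul_of_nonneg_left h1 hC0) h2
      (Real.rpow_nonneg (hls M').le E) (mul_nonneg hC0 h8)) h3 (Real.rpow_nonneg hσ.le _)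
      (mul_nonneg (mul_nonneg hC0 h8) h9)

open Classical in
/-- the small variables -/
noncomputable def Ys (J : ℕ) (K V : Finset ι) : Finset (ι → Finset S.P) :=
  Fintype.piFinset (fun w => if w ∈ K then (if w ∈ V then (S.bx ((2 : ℝ) ^ J)).erase ∅
    else S.bx ((2 : ℝ) ^ J)) else {∅})

theorem mem_bx {t : ℝ} {x : Finset S.P} : x ∈ S.bx t ↔ (S.nm x : ℝ) ≤ t := by
  unfold Pre.bx
  rw [Finset.mem_filter, Finset.mem_powerset]
  refine ⟨fun h => h.2, fun h => ⟨fun p hp => ?_, h⟩⟩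
  have h0 : (0 : ℝ) ≤ t := (Nat.cast_nonneg _).trans h
  rw [S.mem_pr h0]
  refine le_trans ?_ h
  have h1 : S.N p ∣ S.nm x := Finset.dvd_prod_of_mem _ hp
  exact_mod_cast Nat.le_of_dvd (nm_one x) h1

theorem mem_Ys {J : ℕ} {K V : Finset ι} {y : ι → Finset S.P} :
    y ∈ Ys (S := S) J K V ↔ (∀ w, w ∉ K → y w = ∅) ∧ (∀ w ∈ K, S.nm (y w) ≤ 2 ^ J) ∧
      ∀ w ∈ K, w ∈ V → (y w).Nonempty := by
  classical
  unfold Ys
  rw [Fintype.mem_piFinset]
  have hb : ∀ x : Finset S.P, x ∈ S.bx ((2 : ℝ) ^ J) ↔ S.nm x ≤ 2 ^ J := by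
    intro x
    rw [mem_bx]
    exact_mod_cast Iff.rfl
  constructor
  · intro h
    refine ⟨fun w hw => ?_, fun w hw => ?_, fun w hw hv => ?_⟩
    · have := h w
      rw [if_neg hw] at this
      exact Finset.mem_singleton.mp this
    · have := h w
      rw [if_pos hw] at this
      by_cases hv : w ∈ V
      · rw [if_pos hv] at this
        exact (hb _).mp (Finset.mem_of_mem_erase this)
      · rw [if_neg hv] at this
        exact (hb _).mp this
    · have := h w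
      rw [if_pos hw, if_pos hv] at this
      exact Finset.nonempty_iff_ne_empty.mpr (Finset.ne_of_mem_erase this)
  · intro h w
    by_cases hw : w ∈ K
    · rw [if_pos hw]
      by_cases hv : w ∈ V
      · rw [if_pos hv]
        exact Finset.mem_erase.mpr ⟨Finset.nonempty_iff_ne_empty.mp (h.2.2 w hw hv),
          (hb _).mpr (h.2.1 w hw)⟩
      · rw [if_neg hv]
        exact (hb _).mpr (h.2.1 w hw)
    · rw [if_neg hw]
      exact Finset.mem_singleton.mpr (h.1 w hw)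

theorem nm_empty : S.nm (∅ : Finset S.P) = 1 := by
  unfold Pre.nm
  exact Finset.prod_empty

theorem log_Ys {J : ℕ} {K V : Finset ι} {y : ι → Finset S.P} (hy : y ∈ Ys (S := S) J K V) :
    ∑ u, Real.log (S.nm (y u)) ≤ (Fintype.card ι : ℝ) * J := by
  have h1 : ∀ u, Real.log (S.nm (y u)) ≤ J := by
    intro u
    have h2 : S.nm (y u) ≤ 2 ^ J := by
      by_cases hu : u ∈ K
      · exact (mem_Ys.mp hy).2.1 u hu
      · rw [(mem_Ys.mp hy).1 u hu, nm_empty]
        exact Nat.one_le_two_pow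
    have h3 : Real.log (S.nm (y u)) ≤ Real.log ((2 : ℝ) ^ J) :=
      Real.log_le_log (lt_of_lt_of_le one_pos (nm_oneR _)) (by exact_mod_cast h2)
    rw [Real.log_pow] at h3
    have h4 : Real.log 2 ≤ 1 := by
      have := Real.log_two_lt_d9
      linarith
    calc Real.log (S.nm (y u)) ≤ (J : ℝ) * Real.log 2 := h3
      _ ≤ (J : ℝ) * 1 := mul_le_mul_of_nonneg_left h4 (Nat.cast_nonneg _)
      _ = J := mul_one _
  refine (Finset.sum_le_sum fun u _ => h1 u).trans ?_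
  rw [Finset.sum_const, Finset.card_univ, nsmul_eq_mul]

/-- the sum of the weights of the small variables -/
theorem sum_Ys {J : ℕ} {K V : Finset ι} {τ : S.P → ℝ} (hτ : ∀ p, 0 ≤ τ p) {σ : ℝ} (hσ : 0 < σ)
    {a : ℕ} {C2 : ℝ} (hC2 : 1 ≤ C2)
    (hT : ∑ x ∈ S.bx (2 ^ J), (∏ p ∈ x, 1 * τ p) * ls S x ^ a * pw 1 x ≤
      C2 * (1 + (J : ℝ)) ^ (1 : ℝ)) :
    ∑ y ∈ Ys (S := S) J K V, ∏ u, (wg S τ (1 + σ) (y u) * ls S (y u) ^ a) ≤
      (C2 * (1 + (J : ℝ))) ^ (Fintype.card ι) := by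
  classical
  have hls : ∀ x : Finset S.P, 0 < ls S x := fun x => Real.exp_pos _
  have hJ : (0 : ℝ) ≤ J := Nat.cast_nonneg _
  have hh : ∀ x : Finset S.P, 0 ≤ wg S τ (1 + σ) x * ls S x ^ a := fun x =>
    mul_nonneg (wg_nn hτ _ _) (pow_nonneg (hls x).le _)
  unfold Ys
  rw [← Finset.prod_univ_sum (t := fun w : ι => if w ∈ K then (if w ∈ V then
    (S.bx ((2 : ℝ) ^ J)).erase ∅ else S.bx ((2 : ℝ) ^ J)) else {∅})
    (f := fun (_ : ι) (x : Finset S.P) => wg S τ (1 + σ) x * ls S x ^ a)]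
  have h1 : ∀ u : ι, ∑ x ∈ (if u ∈ K then (if u ∈ V then (S.bx ((2 : ℝ) ^ J)).erase ∅
      else S.bx ((2 : ℝ) ^ J)) else {∅}), (wg S τ (1 + σ) x * ls S x ^ a) ≤
      C2 * (1 + (J : ℝ)) := by
    intro u
    have h2 : ∑ x ∈ S.bx ((2 : ℝ) ^ J), (wg S τ (1 + σ) x * ls S x ^ a) ≤
        C2 * (1 + (J : ℝ)) := by
      rw [Real.rpow_one] at hT
      refine le_trans (Finset.sum_le_sum fun x _ => ?_) hT
      have h3 : wg S τ (1 + σ) x ≤ (∏ p ∈ x, 1 * τ p) * pw 1 x := by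
        unfold wg pw Pre.nm
        push_cast
        rw [← Real.finsetProd_rpow _ _ (fun p _ => Nat.cast_nonneg _), ← Finset.prod_mul_distrib]
        refine Finset.prod_le_prod (fun p _ => mul_nonneg (hτ p)
          (Real.rpow_nonneg (Nat.cast_nonneg _) _)) fun p _ => ?_
        rw [one_mul]
        refine mul_le_mul_of_nonneg_left ?_ (hτ p)
        have h4 : (1 : ℝ) ≤ S.N p := by
          have := S.two_le p
          exact_mod_cast (by omega : 1 ≤ S.N p)
        exact Real.rpow_le_rpow_of_exponent_le h4 (by linarith)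
      calc wg S τ (1 + σ) x * ls S x ^ a ≤ ((∏ p ∈ x, 1 * τ p) * pw 1 x) * ls S x ^ a :=
            mul_le_mul_of_nonneg_right h3 (pow_nonneg (hls x).le _)
        _ = (∏ p ∈ x, 1 * τ p) * ls S x ^ a * pw 1 x := by ring
    by_cases hK : u ∈ K
    · rw [if_pos hK]
      by_cases hV : u ∈ V
      · rw [if_pos hV]
        exact (Finset.sum_le_sum_of_subset_of_nonneg (Finset.erase_subset _ _)
          fun x _ _ => hh x).trans h2
      · rw [if_neg hV]
        exact h2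
    · rw [if_neg hK, Finset.sum_singleton]
      have h3 : wg S τ (1 + σ) ∅ * ls S ∅ ^ a = 1 := by
        unfold wg ls
        rw [Finset.prod_empty, Finset.sum_empty, Real.exp_zero, one_pow, one_mul]
      rw [h3]
      nlinarith
  calc ∏ u : ι, ∑ x ∈ (if u ∈ K then (if u ∈ V then (S.bx ((2 : ℝ) ^ J)).erase ∅
      else S.bx ((2 : ℝ) ^ J)) else {∅}), (wg S τ (1 + σ) x * ls S x ^ a)
      ≤ ∏ _u : ι, (C2 * (1 + (J : ℝ))) :=
        Finset.prod_le_prod (fun u _ => Finset.sum_nonneg fun x _ => hh x) fun u _ => h1 u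
    _ = (C2 * (1 + (J : ℝ))) ^ (Fintype.card ι) := by
        rw [Finset.prod_const, Finset.card_univ]

end CPt

end Pool.Agent.EV
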