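import Pool.Agent.EV.CPatA

/-!
# Project T4 (MP_a3214d), even half, row C4: the pattern theorem, second part
-/

set_option autoImplicit false

open scoped BigOperators Topology
open Filter

namespace Pool.Agent.EV

open Pool.Agent.H98.MK (sg)
open Pool.Agent.H98.MF
open Pool.Agent.H32.MQ (El pw)
open Pool.Agent.D8 (pat Tk ls ad)

namespace CPt

variable {S : Sys} {ι : Type} [Fintype ι]

/-- the condition: `I` free, `K` small, `V` nonempty -/
def Qc (J : ℕ) (I K V : Finset ι) (x : ι → Finset S.P) : Prop :=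
  (∀ w, w ∉ I → w ∉ K → x w = ∅) ∧ (∀ w ∈ K, S.nm (x w) ≤ 2 ^ J) ∧ ∀ w ∈ V, (x w).Nonempty

open Classical in
theorem Q_eq {J : ℕ} {I K V : Finset ι} (hIK : Disjoint I K) (hV : V ⊆ K)
    (x : ι → Finset S.P) (F : ℝ) :
    (if Qc J I K V x then F else 0) =
      ∑ y ∈ Ys (S := S) J K V, if ∀ w, w ∉ I → x w = y w then F else 0 := by
  by_cases h : Qc J I K V x
  · rw [if_pos h]
    have h0 : (fun w => if w ∈ I then (∅ : Finset S.P) else x w) ∈ Ys (S := S) J K V := by
      rw [mem_Ys]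
      refine ⟨fun w hw => ?_, fun w hw => ?_, fun w hw hv => ?_⟩
      · by_cases hi : w ∈ I
        · exact if_pos hi
        · rw [if_neg hi]
          exact h.1 w hi hw
      · rw [if_neg (fun hi => Finset.disjoint_left.mp hIK hi hw)]
        exact h.2.1 w hw
      · rw [if_neg (fun hi => Finset.disjoint_left.mp hIK hi hw)]
        exact h.2.2 w hv
    rw [Finset.sum_eq_single_of_mem _ h0]
    · rw [if_pos]
      intro w hw
      exact (if_neg hw).symm
    · intro y hy hne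
      rw [if_neg]
      intro h1
      refine hne (funext fun w => ?_)
      show y w = if w ∈ I then (∅ : Finset S.P) else x w
      by_cases hi : w ∈ I
      · rw [if_pos hi]
        exact (mem_Ys.mp hy).1 w (Finset.disjoint_left.mp hIK hi)
      · rw [if_neg hi]
        exact (h1 w hi).symm
  · rw [if_neg h]
    symm
    refine Finset.sum_eq_zero fun y hy => ?_
    rw [if_neg]
    intro h1
    refine h ⟨fun w hi hk => ?_, fun w hk => ?_, fun w hv => ?_⟩
    · rw [h1 w hi]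
      exact (mem_Ys.mp hy).1 w hk
    · rw [h1 w (fun hi => Finset.disjoint_left.mp hIK hi hk)]
      exact (mem_Ys.mp hy).2.1 w hk
    · rw [h1 w (fun hi => Finset.disjoint_left.mp hIK hi (hV hv))]
      exact (mem_Ys.mp hy).2.2 w (hV hv) hv

open Classical in
/-- the bound for the sum with a condition -/
theorem Qbound (hC : SCh1) (b : ι → ι → ZMod 2) (hb : ∀ u, b u u = 0) (hb2 : ∀ u v, b u v = 0 ∨ b v u = 0) {c : ι → El S}
    {M : Finset S.P} (hOk : (∀ u, (c u).2 ⊆ M)) {J : ℕ} {I K V U : Finset ι}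
    (hI : ∀ u ∈ I, ∀ v ∈ I, ¬ Lk b u v) (hIK : Disjoint I K) (hV : V ⊆ K)
    (hL : ∀ u ∈ I, u ∈ iso b U ∨ ∃ v ∈ V, Lk b u v) {τ : S.P → ℝ} (hτ : ∀ p, 0 ≤ τ p)
    {σ : ℝ} (hσ : 0 < σ) (hσ1 : σ ≤ 1) {C E : ℝ} (hC0 : 0 ≤ C) (hE : 0 ≤ E)
    (hIn : ∀ (c' : {u // u ∈ I} → El S) (M' : Finset S.P), (∀ u, (c' u).2 ⊆ M') →
      ‖inS τ (1 + σ) c' M'‖ ≤ C * (1 + Real.log (S.nm M')) ^ E * ls S M' ^ E *
        σ ^ (-((Finset.univ.filter fun u => c' u = (0, ∅)).card : ℝ)))
    {a : ℕ} (ha : (1 : ℝ) * E ≤ a) {C2 : ℝ} (hC2 : 1 ≤ C2)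
    (hT : ∑ x ∈ S.bx (2 ^ J), (∏ p ∈ x, 1 * τ p) * ls S x ^ a * pw 1 x ≤
      C2 * (1 + (J : ℝ)) ^ (1 : ℝ))
    (hS : Summable fun x : ι → Finset S.P => ‖Kt τ (1 + σ) b c M x‖) :
    ‖∑' x : ι → Finset S.P, (if Qc J I K V x then Kt τ (1 + σ) b c M x else 0)‖ ≤
      C * ((1 + Real.log (S.nm M)) * (1 + (1 : ℝ) * Fintype.card ι * J)) ^ E *
        ls S M ^ E * (C2 * (1 + (J : ℝ))) ^ (Fintype.card ι) *
        σ ^ (-(wt b c U : ℝ)) := by
  have hls : ∀ x : Finset S.P, 0 < ls S x := fun x => Real.exp_pos _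
  have hls1 : ∀ x : Finset S.P, 1 ≤ ls S x := fun x => by
    rw [ls_eq]
    exact Real.one_le_exp (rs_nn x)
  have hlg := log_nm_nn (S := S) M
  -- exchange
  have h1 : ∑' x : ι → Finset S.P, (if Qc J I K V x then Kt τ (1 + σ) b c M x else 0) =
      ∑ y ∈ Ys (S := S) J K V, ∑' x : ι → Finset S.P,
        (if ∀ w, w ∉ I → x w = y w then Kt τ (1 + σ) b c M x else 0) := by
    rw [← Summable.tsum_finsetSum]
    · exact tsum_congr fun x => Q_eq hIK hV x _
    · intro y _
      refine Summable.of_norm_bounded hS fun x => ?_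
      by_cases h : ∀ w, w ∉ I → x w = y w
      · rw [if_pos h]
      · rw [if_neg h, norm_zero]
        exact norm_nonneg _
  rw [h1]
  set G : ℝ := C * ((1 + Real.log (S.nm M)) *
    (1 + (1 : ℝ) * Fintype.card ι * J)) ^ E * ls S M ^ E *
    σ ^ (-(wt b c U : ℝ)) with hG
  have hD : (0 : ℝ) ≤ (1 : ℝ) * Fintype.card ι * J := by positivity
  have hG0 : 0 ≤ G := by
    rw [hG]
    exact mul_nonneg (mul_nonneg (mul_nonneg hC0 (Real.rpow_nonneg (by positivity) _))
      (Real.rpow_nonneg (hls M).le _)) (Real.rpow_nonneg hσ.le _)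
  have h2 : ∀ y ∈ Ys (S := S) J K V, ‖∑' x : ι → Finset S.P,
      (if ∀ w, w ∉ I → x w = y w then Kt τ (1 + σ) b c M x else 0)‖ ≤
      G * ∏ u, (wg S τ (1 + σ) (y u) * ls S (y u) ^ a) := by
    intro y hy
    have hyI : ∀ u ∈ I, y u = ∅ := fun u hu =>
      (mem_Ys.mp hy).1 u (Finset.disjoint_left.mp hIK hu)
    have hn : (I.filter fun u => c u = (0, ∅) ∧ ∀ v, Lk b u v → y v = ∅).card ≤ wt b c U := by
      unfold wt
      refine Finset.card_le_card fun u hu => ?_
      rw [Finset.mem_filter] at hu ⊢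
      refine ⟨?_, hu.2.1⟩
      rcases hL u hu.1 with h | ⟨v, hv, hlk⟩
      · exact h
      · exact absurd (hu.2.2 v hlk) (Finset.nonempty_iff_ne_empty.mp
          ((mem_Ys.mp hy).2.2 v (hV hv) hv))
    refine (fixY1 hC b hb hb2 hOk hI hyI hτ hσ hσ1 hC0 hE hIn hn (log_Ys hy)).trans ?_
    have h3 : (1 + Real.log (S.nm M) + (1 : ℝ) *
        ((Fintype.card ι : ℝ) * J)) ^ E ≤ ((1 + Real.log (S.nm M)) *
        (1 + (1 : ℝ) * Fintype.card ι * J)) ^ E := by
      refine Real.rpow_le_rpow (by positivity) ?_ hE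
      nlinarith [mul_nonneg hlg hD]
    have h4 : (ls S M * ∏ u, ls S (y u) ^ 1) ^ E ≤
        ls S M ^ E * ∏ u, ls S (y u) ^ a := by
      rw [Real.mul_rpow (hls M).le (Finset.prod_nonneg fun u _ => pow_nonneg (hls _).le _),
        ← Real.finsetProd_rpow _ _ (fun u _ => pow_nonneg (hls _).le _)]
      refine mul_le_mul_of_nonneg_left (Finset.prod_le_prod
        (fun u _ => Real.rpow_nonneg (pow_nonneg (hls _).le _) _) fun u _ => ?_)
        (Real.rpow_nonneg (hls M).le _)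
      rw [← Real.rpow_natCast, ← Real.rpow_mul (hls _).le, ← Real.rpow_natCast]
      exact Real.rpow_le_rpow_of_exponent_le (hls1 _) (by push_cast; exact ha)
    have hw : 0 ≤ ∏ u, wg S τ (1 + σ) (y u) :=
      Finset.prod_nonneg fun u _ => wg_nn hτ _ _
    have hA : 0 ≤ C * ((1 + Real.log (S.nm M)) *
        (1 + (1 : ℝ) * Fintype.card ι * J)) ^ E :=
      mul_nonneg hC0 (Real.rpow_nonneg (by positivity) _)
    calc (∏ u, wg S τ (1 + σ) (y u)) * (C * (1 + Real.log (S.nm M) +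
        (1 : ℝ) * ((Fintype.card ι : ℝ) * J)) ^ E *
        (ls S M * ∏ u, ls S (y u) ^ 1) ^ E * σ ^ (-(wt b c U : ℝ)))
        ≤ (∏ u, wg S τ (1 + σ) (y u)) * (C * ((1 + Real.log (S.nm M)) *
        (1 + (1 : ℝ) * Fintype.card ι * J)) ^ E *
        (ls S M ^ E * ∏ u, ls S (y u) ^ a) * σ ^ (-(wt b c U : ℝ))) := by
          refine mul_le_mul_of_nonneg_left (mul_le_mul_of_nonneg_right (mul_le_mul
            (mul_le_mul_of_nonneg_left h3 hC0) h4 (Real.rpow_nonneg (mul_nonneg (hls M).le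
            (Finset.prod_nonneg fun u _ => pow_nonneg (hls _).le _)) _) hA)
            (Real.rpow_nonneg hσ.le _)) hw
      _ = G * ∏ u, (wg S τ (1 + σ) (y u) * ls S (y u) ^ a) := by
          rw [hG, Finset.prod_mul_distrib]
          ring
  calc ‖∑ y ∈ Ys (S := S) J K V, ∑' x : ι → Finset S.P,
        (if ∀ w, w ∉ I → x w = y w then Kt τ (1 + σ) b c M x else 0)‖
      ≤ ∑ y ∈ Ys (S := S) J K V, ‖∑' x : ι → Finset S.P,
        (if ∀ w, w ∉ I → x w = y w then Kt τ (1 + σ) b c M x else 0)‖ := norm_sum_le _ _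
    _ ≤ ∑ y ∈ Ys (S := S) J K V, G * ∏ u, (wg S τ (1 + σ) (y u) * ls S (y u) ^ a) :=
        Finset.sum_le_sum h2
    _ = G * ∑ y ∈ Ys (S := S) J K V, ∏ u, (wg S τ (1 + σ) (y u) * ls S (y u) ^ a) :=
        (Finset.mul_sum _ _ _).symm
    _ ≤ G * (C2 * (1 + (J : ℝ))) ^ (Fintype.card ι) :=
        mul_le_mul_of_nonneg_left (sum_Ys hτ hσ hC2 hT) hG0
    _ = _ := by rw [hG]; ring

/-! ### the decomposition of a pattern -/

omit [Fintype ι] in
/-- linked variables, symmetry -/
theorem Lk_symm {b : ι → ι → ZMod 2} {u v : ι} (h : Lk b u v) : Lk b v u := by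
  unfold Lk at h ⊢
  rw [add_comm]
  exact h

omit [Fintype ι] in
theorem Lk_irr {b : ι → ι → ZMod 2} (hb : ∀ u, b u u = 0) (u : ι) : ¬ Lk b u u := by
  unfold Lk
  rw [hb, add_zero]
  decide

open Classical in
/-- the terms with large variables `L` -/
theorem ind_eq (J : ℕ) {U I0 W L : Finset ι} (hU : I0 ∪ W = U) (hd : Disjoint I0 W)
    (hL : L ⊆ W) (x : ι → Finset S.P) (F : ℝ) :
    (if pat x = U ∧ ∀ w ∈ W, (w ∈ L ↔ 2 ^ J < S.nm (x w)) then F else 0) =
      ∑ T ∈ (L ∪ I0).powerset, (-1 : ℝ) ^ T.card *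
        (if Qc J ((L ∪ I0) \ T) ((T ∩ L) ∪ (W \ L)) (W \ L) x then F else 0) := by
  set R : Prop := (∀ w, w ∉ U → x w = ∅) ∧ ∀ w ∈ W \ L, (x w).Nonempty ∧ S.nm (x w) ≤ 2 ^ J
    with hR
  set a : ι → Prop := fun w => if w ∈ L then S.nm (x w) ≤ 2 ^ J else x w = ∅ with ha
  have hpat : ∀ w, w ∈ pat x ↔ (x w).Nonempty := by
    intro w
    unfold pat
    rw [Finset.mem_filter]
    exact ⟨fun h => h.2, fun h => ⟨Finset.mem_univ _, h⟩⟩
  have hbig : ∀ w, 2 ^ J < S.nm (x w) → (x w).Nonempty := by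
    intro w h
    by_contra h1
    rw [Finset.not_nonempty_iff_eq_empty] at h1
    rw [h1, nm_empty] at h
    exact absurd h (not_lt.mpr Nat.one_le_two_pow)
  have hLI : ∀ w ∈ I0, w ∉ L := fun w h1 h2 => Finset.disjoint_left.mp hd h1 (hL h2)
  -- the left condition
  have h1 : (pat x = U ∧ ∀ w ∈ W, (w ∈ L ↔ 2 ^ J < S.nm (x w))) ↔
      (R ∧ ∀ w ∈ L ∪ I0, ¬ a w) := by
    constructor
    · rintro ⟨h2, h3⟩
      refine ⟨⟨fun w hw => ?_, fun w hw => ?_⟩, fun w hw => ?_⟩
      · rw [← Finset.not_nonempty_iff_eq_empty, ← hpat, h2]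
        exact hw
      · rw [Finset.mem_sdiff] at hw
        refine ⟨?_, not_lt.mp fun h4 => hw.2 ((h3 w hw.1).mpr h4)⟩
        rw [← hpat, h2, ← hU]
        exact Finset.mem_union_right _ hw.1
      · rcases Finset.mem_union.mp hw with h4 | h4
        · rw [ha]
          dsimp only
          rw [if_pos h4]
          exact not_le.mpr ((h3 w (hL h4)).mp h4)
        · rw [ha]
          dsimp only
          rw [if_neg (hLI w h4), ← Finset.not_nonempty_iff_eq_empty, not_not, ← hpat, h2, ← hU]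
          exact Finset.mem_union_left _ h4
    · rintro ⟨h2, h3⟩
      have h4 : ∀ w ∈ L, 2 ^ J < S.nm (x w) := by
        intro w hw
        have := h3 w (Finset.mem_union_left _ hw)
        rw [ha] at this
        dsimp only at this
        rw [if_pos hw] at this
        exact not_le.mp this
      refine ⟨?_, fun w hw => ⟨h4 w, fun h5 => ?_⟩⟩
      · ext w
        rw [hpat]
        constructor
        · intro h5
          by_contra h6
          exact Finset.nonempty_iff_ne_empty.mp h5 (h2.1 w h6)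
        · intro h5
          rw [← hU] at h5
          rcases Finset.mem_union.mp h5 with h6 | h6
          · have := h3 w (Finset.mem_union_right _ h6)
            rw [ha] at this
            dsimp only at this
            rw [if_neg (hLI w h6), ← Finset.not_nonempty_iff_eq_empty, not_not] at this
            exact this
          · by_cases h7 : w ∈ L
            · exact hbig w (h4 w h7)
            · exact (h2.2 w (Finset.mem_sdiff.mpr ⟨h6, h7⟩)).1
      · by_contra h6
        exact absurd h5 (not_lt.mpr (h2.2 w (Finset.mem_sdiff.mpr ⟨hw, h6⟩)).2)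
  -- the right condition
  have h2 : ∀ T ∈ (L ∪ I0).powerset,
      (Qc J ((L ∪ I0) \ T) ((T ∩ L) ∪ (W \ L)) (W \ L) x ↔ (R ∧ ∀ w ∈ T, a w)) := by
    intro T hT
    rw [Finset.mem_powerset] at hT
    constructor
    · rintro ⟨h3, h4, h5⟩
      refine ⟨⟨fun w hw => ?_, fun w hw => ⟨h5 w hw, h4 w (Finset.mem_union_right _ hw)⟩⟩,
        fun w hw => ?_⟩
      · refine h3 w (fun h6 => hw ?_) fun h6 => hw ?_
        · rw [← hU]
          rcases Finset.mem_union.mp (Finset.mem_sdiff.mp h6).1 with h7 | h7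
          · exact Finset.mem_union_right _ (hL h7)
          · exact Finset.mem_union_left _ h7
        · rw [← hU]
          rcases Finset.mem_union.mp h6 with h7 | h7
          · exact Finset.mem_union_right _ (hL (Finset.mem_inter.mp h7).2)
          · exact Finset.mem_union_right _ (Finset.mem_sdiff.mp h7).1
      · rw [ha]
        dsimp only
        by_cases h6 : w ∈ L
        · rw [if_pos h6]
          exact h4 w (Finset.mem_union_left _ (Finset.mem_inter.mpr ⟨hw, h6⟩))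
        · rw [if_neg h6]
          refine h3 w (fun h7 => (Finset.mem_sdiff.mp h7).2 hw) fun h7 => ?_
          rcases Finset.mem_union.mp h7 with h8 | h8
          · exact h6 (Finset.mem_inter.mp h8).2
          · rcases Finset.mem_union.mp (hT hw) with h9 | h9
            · exact h6 h9
            · exact Finset.disjoint_left.mp hd h9 (Finset.mem_sdiff.mp h8).1
    · rintro ⟨⟨h3, h4⟩, h5⟩
      refine ⟨fun w h6 h7 => ?_, fun w h6 => ?_, fun w h6 => (h4 w h6).1⟩
      · by_cases h8 : w ∈ U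
        · rw [← hU] at h8
          have h9 : w ∉ W \ L := fun h => h7 (Finset.mem_union_right _ h)
          have h10 : w ∈ T := by
            by_contra h11
            rcases Finset.mem_union.mp h8 with h12 | h12
            · exact h6 (Finset.mem_sdiff.mpr ⟨Finset.mem_union_right _ h12, h11⟩)
            · by_cases h13 : w ∈ L
              · exact h6 (Finset.mem_sdiff.mpr ⟨Finset.mem_union_left _ h13, h11⟩)
              · exact h9 (Finset.mem_sdiff.mpr ⟨h12, h13⟩)
          have h14 := h5 w h10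
          have h15 : w ∉ L := fun h => h7 (Finset.mem_union_left _ (Finset.mem_inter.mpr ⟨h10, h⟩))
          rwa [ha, if_neg h15] at h14
        · exact h3 w h8
      · rcases Finset.mem_union.mp h6 with h7 | h7
        · have h8 := h5 w (Finset.mem_inter.mp h7).1
          rwa [ha, if_pos (Finset.mem_inter.mp h7).2] at h8
        · exact (h4 w h7).2
  -- inclusion and exclusion
  have h3 : ∏ w ∈ L ∪ I0, ((-(if a w then (1 : ℝ) else 0)) + 1) =
      ∑ T ∈ (L ∪ I0).powerset, (-1 : ℝ) ^ T.card * (if ∀ w ∈ T, a w then 1 else 0) := by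
    rw [Finset.prod_add]
    refine Finset.sum_congr rfl fun T _ => ?_
    rw [Finset.prod_const_one, mul_one, Finset.prod_neg]
    congr 1
    by_cases h4 : ∀ w ∈ T, a w
    · rw [if_pos h4]
      exact Finset.prod_eq_one fun w hw => if_pos (h4 w hw)
    · rw [if_neg h4]
      push Not at h4
      obtain ⟨w, hw, hw2⟩ := h4
      exact Finset.prod_eq_zero hw (if_neg hw2)
  have h4 : ∏ w ∈ L ∪ I0, ((-(if a w then (1 : ℝ) else 0)) + 1) =
      if ∀ w ∈ L ∪ I0, ¬ a w then 1 else 0 := by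
    by_cases h5 : ∀ w ∈ L ∪ I0, ¬ a w
    · rw [if_pos h5]
      refine Finset.prod_eq_one fun w hw => ?_
      rw [if_neg (h5 w hw), neg_zero, zero_add]
    · rw [if_neg h5]
      push Not at h5
      obtain ⟨w, hw, hw2⟩ := h5
      refine Finset.prod_eq_zero hw ?_
      rw [if_pos hw2, neg_add_cancel]
  rw [h4] at h3
  by_cases hRR : R
  · have h5 : (if pat x = U ∧ ∀ w ∈ W, (w ∈ L ↔ 2 ^ J < S.nm (x w)) then F else 0) =
        (if ∀ w ∈ L ∪ I0, ¬ a w then 1 else 0) * F := by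
      by_cases h6 : ∀ w ∈ L ∪ I0, ¬ a w
      · rw [if_pos h6, if_pos (h1.mpr ⟨hRR, h6⟩), one_mul]
      · rw [if_neg h6, if_neg (fun h => h6 (h1.mp h).2), zero_mul]
    rw [h5, h3, Finset.sum_mul]
    refine Finset.sum_congr rfl fun T hT => ?_
    rw [mul_assoc]
    congr 1
    by_cases h6 : ∀ w ∈ T, a w
    · rw [if_pos h6, if_pos ((h2 T hT).mpr ⟨hRR, h6⟩), one_mul]
    · rw [if_neg h6, if_neg (fun h => h6 ((h2 T hT).mp h).2), zero_mul]
  · rw [if_neg (fun h => hRR (h1.mp h).1)]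
    symm
    refine Finset.sum_eq_zero fun T hT => ?_
    rw [if_neg (fun h => hRR ((h2 T hT).mp h).1), mul_zero]

/-! ### the factor of the modulus -/

variable (S) in
theorem rs_le {η : ℝ} (hη : 0 < η) : ∃ n : ℝ, 0 ≤ n ∧ ∀ M : Finset S.P,
    rs S M ≤ η * Real.log (S.nm M) + n := by
  classical
  have hl2 : 0 < Real.log 2 := Real.log_pos (by norm_num)
  set X : ℝ := 2 / (η * Real.log 2) with hX
  have hX0 : 0 < X := by positivity
  refine ⟨((S.pr X).card : ℝ), Nat.cast_nonneg _, fun M => ?_⟩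
  rw [log_nm, Finset.mul_sum]
  have h1 : ∀ p : S.P, 2 / (S.N p : ℝ) ≤ η * Real.log (S.N p) + if p ∈ S.pr X then 1 else 0 := by
    intro p
    have h2 : (2 : ℝ) ≤ S.N p := by exact_mod_cast S.two_le p
    have h3 : 0 ≤ η * Real.log (S.N p) :=
      mul_nonneg hη.le (Real.log_nonneg (by linarith))
    by_cases hp : p ∈ S.pr X
    · rw [if_pos hp]
      have h4 : 2 / (S.N p : ℝ) ≤ 1 := by
        rw [div_le_one (by linarith)]
        exact h2
      linarith
    · rw [if_neg hp, add_zero]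
      rw [S.mem_pr hX0.le, not_le] at hp
      have h4 : 2 / (S.N p : ℝ) ≤ 2 / X :=
        div_le_div_of_nonneg_left (by norm_num) hX0 hp.le
      have h5 : 2 / X = η * Real.log 2 := by
        rw [hX]
        field_simp
      have h6 : Real.log 2 ≤ Real.log (S.N p) := Real.log_le_log (by norm_num) h2
      calc 2 / (S.N p : ℝ) ≤ η * Real.log 2 := by rw [← h5]; exact h4
        _ ≤ η * Real.log (S.N p) := mul_le_mul_of_nonneg_left h6 hη.le
  have h2 : rs S M ≤ ∑ p ∈ M, (η * Real.log (S.N p) + if p ∈ S.pr X then (1 : ℝ) else 0) :=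
    Finset.sum_le_sum fun p _ => h1 p
  rw [Finset.sum_add_distrib] at h2
  have h3 : ∑ p ∈ M, (if p ∈ S.pr X then (1 : ℝ) else 0) ≤ (S.pr X).card := by
    rw [← Finset.sum_filter, Finset.sum_const, nsmul_eq_mul, mul_one]
    exact_mod_cast Finset.card_le_card fun p hp => (Finset.mem_filter.mp hp).2
  linarith

variable (S) in
theorem Mbound {E0 ε : ℝ} (hE : 0 ≤ E0) (hε : 0 < ε) : ∃ C : ℝ, 0 ≤ C ∧ ∀ M : Finset S.P,
    (1 + Real.log (S.nm M)) ^ E0 * ls S M ^ E0 ≤ C * (S.nm M : ℝ) ^ ε := by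
  set η : ℝ := ε / (2 * (E0 + 1)) with hη
  have hη0 : 0 < η := by positivity
  obtain ⟨n, hn, h⟩ := rs_le S hη0
  refine ⟨(1 + 1 / η) ^ E0 * Real.exp (E0 * n), by positivity, fun M => ?_⟩
  have hm := nm_oneR (S := S) M
  have hm0 : (0 : ℝ) < S.nm M := by linarith
  have h1 : 1 + Real.log (S.nm M) ≤ (1 + 1 / η) * (S.nm M : ℝ) ^ η := by
    have h2 : Real.log (S.nm M) ≤ (S.nm M : ℝ) ^ η / η := Real.log_le_rpow_div hm0.le hη0
    have h3 : (1 : ℝ) ≤ (S.nm M : ℝ) ^ η := Real.one_le_rpow hm hη0.le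
    calc 1 + Real.log (S.nm M) ≤ (S.nm M : ℝ) ^ η + (S.nm M : ℝ) ^ η / η := add_le_add h3 h2
      _ = (1 + 1 / η) * (S.nm M : ℝ) ^ η := by ring
  have h2 : (1 + Real.log (S.nm M)) ^ E0 ≤ (1 + 1 / η) ^ E0 * (S.nm M : ℝ) ^ (η * E0) := by
    have h3 := Real.rpow_le_rpow (by have := log_nm_nn (S := S) M; linarith) h1 hE
    rwa [Real.mul_rpow (by positivity) (Real.rpow_nonneg hm0.le _), ← Real.rpow_mul hm0.le] at h3
  have h3 : ls S M ^ E0 ≤ Real.exp (E0 * n) * (S.nm M : ℝ) ^ (η * E0) := by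
    rw [ls_eq, ← Real.exp_mul, Real.rpow_def_of_pos hm0, ← Real.exp_add]
    refine Real.exp_le_exp.mpr ?_
    have h4 := mul_le_mul_of_nonneg_right (h M) hE
    linarith
  have h4 : (S.nm M : ℝ) ^ (η * E0) * (S.nm M : ℝ) ^ (η * E0) ≤ (S.nm M : ℝ) ^ ε := by
    rw [← Real.rpow_add hm0]
    refine Real.rpow_le_rpow_of_exponent_le hm ?_
    have h5 : η * E0 + η * E0 = ε * (E0 / (E0 + 1)) := by
      rw [hη]
      field_simp
      ring
    rw [h5]
    have h6 : E0 / (E0 + 1) ≤ 1 := by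
      rw [div_le_one (by linarith)]
      linarith
    nlinarith
  have h5 : 0 ≤ (1 + 1 / η) ^ E0 * Real.exp (E0 * n) := by positivity
  calc (1 + Real.log (S.nm M)) ^ E0 * ls S M ^ E0
      ≤ ((1 + 1 / η) ^ E0 * (S.nm M : ℝ) ^ (η * E0)) *
        (Real.exp (E0 * n) * (S.nm M : ℝ) ^ (η * E0)) :=
        mul_le_mul h2 h3 (Real.rpow_nonneg (Real.exp_pos _).le _)
          (mul_nonneg (by positivity) (Real.rpow_nonneg hm0.le _))
    _ = (1 + 1 / η) ^ E0 * Real.exp (E0 * n) *
        ((S.nm M : ℝ) ^ (η * E0) * (S.nm M : ℝ) ^ (η * E0)) := by ring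
    _ ≤ (1 + 1 / η) ^ E0 * Real.exp (E0 * n) * (S.nm M : ℝ) ^ ε :=
        mul_le_mul_of_nonneg_left h4 h5

/-! ### the pattern theorem -/

open Classical in
/-- the decomposition by the large variables -/
theorem PS_eq (J : ℕ) (τ : S.P → ℝ) (s : ℝ) (b : ι → ι → ZMod 2) (c : ι → El S)
    (M : Finset S.P) (U W : Finset ι) (hS : Summable fun x : ι → Finset S.P =>
      ‖Kt τ s b c M x‖) :
    PS τ s b c M U = ∑ L ∈ W.powerset, ∑' x : ι → Finset S.P,
      (if pat x = U ∧ ∀ w ∈ W, (w ∈ L ↔ 2 ^ J < S.nm (x w)) then Kt τ s b c M x else 0) := by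
  unfold PS
  rw [← Summable.tsum_finsetSum]
  · refine tsum_congr fun x => ?_
    by_cases h : pat x = U
    · rw [if_pos h]
      have h0 : W.filter (fun w => 2 ^ J < S.nm (x w)) ∈ W.powerset :=
        Finset.mem_powerset.mpr (Finset.filter_subset _ _)
      rw [Finset.sum_eq_single_of_mem _ h0]
      · rw [if_pos]
        refine ⟨h, fun w hw => ?_⟩
        rw [Finset.mem_filter]
        exact ⟨fun h1 => h1.2, fun h1 => ⟨hw, h1⟩⟩
      · intro L hL hne
        rw [if_neg]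
        rintro ⟨-, h1⟩
        refine hne ?_
        ext w
        rw [Finset.mem_filter]
        exact ⟨fun h2 => ⟨Finset.mem_powerset.mp hL h2, (h1 w (Finset.mem_powerset.mp hL h2)).mp h2⟩,
          fun h2 => (h1 w h2.1).mpr h2.2⟩
    · rw [if_neg h]
      symm
      refine Finset.sum_eq_zero fun L _ => ?_
      rw [if_neg (fun h1 => h h1.1)]
  · intro L _
    refine Summable.of_norm_bounded hS fun x => ?_
    by_cases h : pat x = U ∧ ∀ w ∈ W, (w ∈ L ↔ 2 ^ J < S.nm (x w))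
    · rw [if_pos h]
    · rw [if_neg h, norm_zero]
      exact norm_nonneg _

end CPt

end Pool.Agent.EV
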