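import Pool.Agent.EV.CStm
import Pool.Agent.H98.MF.NLog

/-!
# Project T4 (MP_a3214d), even order, block C: limits of prime sums, Euler products
-/

set_option autoImplicit false

open scoped BigOperators Topology
open Filter

namespace Pool.Agent.EV

open Pool.Agent.H98.MF (Pre summable_nf pre_summable_N abel_nf)

/-! ### Euler products -/

section

variable {P : Type}

open Classical in
/-- splitting off one prime -/
noncomputable def cplEquiv (p : P) (T : Finset P) (hp : p ∉ T) :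
    {f : P →₀ ℕ // f.support ⊆ insert p T} ≃ {f : P →₀ ℕ // f.support ⊆ T} × ℕ where
  toFun f := (⟨f.1.erase p, fun q hq => by
    rw [Finsupp.support_erase, Finset.mem_erase] at hq
    exact (Finset.mem_insert.1 (f.2 hq.2)).resolve_left hq.1⟩, f.1 p)
  invFun z := ⟨z.1.1 + Finsupp.single p z.2, fun q hq => by
    have h1 := Finsupp.support_add hq
    rw [Finset.mem_union] at h1
    rcases h1 with h1 | h1
    · exact Finset.mem_insert_of_mem (z.1.2 h1)
    · have h2 := Finsupp.support_single_subset h1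
      rw [Finset.mem_singleton] at h2
      rw [h2]
      exact Finset.mem_insert_self _ _⟩
  left_inv f := by
    apply Subtype.ext
    exact Finsupp.erase_add_single p f.1
  right_inv z := by
    obtain ⟨⟨f, hf⟩, n⟩ := z
    have h0 : f p = 0 := by
      by_contra h
      exact hp (hf (Finsupp.mem_support_iff.2 h))
    have h1 : (f + Finsupp.single p n) p = n := by
      rw [Finsupp.add_apply, h0, zero_add, Finsupp.single_eq_same]
    have h2 : (f + Finsupp.single p n).erase p = f := by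
      rw [Finsupp.erase_add, Finsupp.erase_single, add_zero]
      exact Finsupp.erase_of_notMem_support (Finsupp.notMem_support_iff.2 h0)
    simp only [h1, h2]

theorem cpl_split (c : P → ℂ) (p : P) (f : P →₀ ℕ) :
    (f.prod fun q n => c q ^ n) = ((f.erase p).prod fun q n => c q ^ n) * c p ^ f p := by
  classical
  conv_lhs => rw [← Finsupp.erase_add_single p f]
  rw [Finsupp.prod_add_index' (fun q => pow_zero _) fun q a b => pow_add _ _ _,
    Finsupp.prod_single_index (h := fun q n => c q ^ n) (pow_zero _)]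

theorem cpl_gen (c : P → ℂ) (hc : ∀ p, ‖c p‖ < 1) (T : Finset P) :
    HasSum (fun f : {f : P →₀ ℕ // f.support ⊆ T} => f.1.prod fun p n => c p ^ n)
      (∏ p ∈ T, (1 - c p)⁻¹) := by
  classical
  induction T using Finset.induction_on with
  | empty =>
    have h1 : ∀ f : {f : P →₀ ℕ // f.support ⊆ (∅ : Finset P)}, f = ⟨0, by simp⟩ := by
      rintro ⟨f, hf⟩
      apply Subtype.ext
      exact Finsupp.support_eq_empty.1 (Finset.subset_empty.1 hf)
    rw [Finset.prod_empty]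
    have h2 := hasSum_single (f := fun f : {f : P →₀ ℕ // f.support ⊆ (∅ : Finset P)} =>
      f.1.prod fun p n => c p ^ n) ⟨0, by simp⟩ (fun f hf => absurd (h1 f) hf)
    simpa using h2
  | insert p T hp ih =>
    have hg : HasSum (fun n : ℕ => c p ^ n) (1 - c p)⁻¹ := hasSum_geometric_of_norm_lt_one (hc p)
    have hn1 : Summable fun f : {f : P →₀ ℕ // f.support ⊆ T} =>
        ‖f.1.prod fun p n => c p ^ n‖ := ih.summable.norm
    have hn2 : Summable fun n : ℕ => ‖c p ^ n‖ := hg.summable.norm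
    have h3 := summable_mul_of_summable_norm hn1 hn2
    have h4 := tsum_mul_tsum_of_summable_norm hn1 hn2
    rw [ih.tsum_eq, hg.tsum_eq] at h4
    have h5 := h3.hasSum
    rw [← h4] at h5
    rw [Finset.prod_insert hp, mul_comm]
    have h6 := (cplEquiv p T hp).hasSum_iff.2 h5
    have h7 : (fun f : {f : P →₀ ℕ // f.support ⊆ insert p T} => f.1.prod fun p n => c p ^ n) =
        (fun z : {f : P →₀ ℕ // f.support ⊆ T} × ℕ =>
          (z.1.1.prod fun p n => c p ^ n) * c p ^ z.2) ∘ (cplEquiv p T hp) := by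
      funext f
      exact cpl_split c p f.1
    rw [h7]
    exact h6

end

/-- the logarithm minus its first term -/
noncomputable def cpl_g (u : ℂ) : ℂ := - Complex.log (1 - u) - u

theorem cpl_exp {u : ℂ} (hu : ‖u‖ < 1) : Complex.exp (u + cpl_g u) = (1 - u)⁻¹ := by
  have h1 : (1 : ℂ) - u ≠ 0 := by
    intro h
    have h2 : u = 1 := by linear_combination -h
    rw [h2] at hu
    simp at hu
  unfold cpl_g
  have e : u + (-Complex.log (1 - u) - u) = -Complex.log (1 - u) := by ring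
  rw [e, Complex.exp_neg, Complex.exp_log h1]

theorem cpl_g_le {u : ℂ} (hu : ‖u‖ ≤ 1 / 2) : ‖cpl_g u‖ ≤ ‖u‖ ^ 2 := by
  have h1 : ‖-u‖ < 1 := by rw [norm_neg]; linarith
  have h2 := Complex.norm_log_one_add_sub_self_le h1
  have h3 : Complex.log (1 + -u) - -u = - cpl_g u := by
    unfold cpl_g
    rw [← sub_eq_add_neg]
    ring
  rw [h3, norm_neg, norm_neg] at h2
  refine h2.trans ?_
  have h4 : (1 - ‖u‖)⁻¹ ≤ 2 := by
    rw [inv_le_comm₀ (by linarith) (by norm_num)]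
    linarith
  have h5 : 0 ≤ ‖u‖ ^ 2 := sq_nonneg _
  nlinarith

theorem cpl_g_cont {u : ℂ} (hu : ‖u‖ < 1) : ContinuousAt cpl_g u := by
  unfold cpl_g
  refine ContinuousAt.sub (ContinuousAt.neg (ContinuousAt.clog (by fun_prop) ?_)) continuousAt_id
  rw [Complex.mem_slitPlane_iff]
  left
  have h1 : |u.re| ≤ ‖u‖ := Complex.abs_re_le_norm u
  rw [abs_le] at h1
  simp only [Complex.sub_re, Complex.one_re]
  linarith [h1.2]

section

variable (S : Pre)

theorem cpl_two (p : S.P) : (2 : ℝ) ≤ S.N p := by exact_mod_cast S.two_le p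

theorem cpl_pos (p : S.P) (s : ℝ) : 0 < (S.N p : ℝ) ^ (-s) :=
  Real.rpow_pos_of_pos (lt_of_lt_of_le two_pos (cpl_two S p)) _

theorem cpl_le_inv (p : S.P) {s : ℝ} (hs : 1 ≤ s) :
    (S.N p : ℝ) ^ (-s) ≤ (S.N p : ℝ) ^ (-1 : ℝ) := by
  have h2 := cpl_two S p
  exact Real.rpow_le_rpow_of_exponent_le (by linarith) (by linarith)

theorem cpl_inv_half (p : S.P) : (S.N p : ℝ) ^ (-1 : ℝ) ≤ 1 / 2 := by
  rw [Real.rpow_neg_one, inv_le_comm₀ (by linarith [cpl_two S p]) (by norm_num)]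
  have := cpl_two S p
  linarith

/-- the term of a prime -/
noncomputable def cpl_u (x : S.P → ℂ) (s : ℝ) (p : S.P) : ℂ :=
  x p * (((S.N p : ℝ) ^ (-s) : ℝ) : ℂ)

theorem cpl_u_le {x : S.P → ℂ} (hx : ∀ p, ‖x p‖ ≤ 1) (s : ℝ) (p : S.P) :
    ‖cpl_u S x s p‖ ≤ (S.N p : ℝ) ^ (-s) := by
  unfold cpl_u
  rw [norm_mul, Complex.norm_real, Real.norm_eq_abs, abs_of_pos (cpl_pos S p s)]
  calc ‖x p‖ * (S.N p : ℝ) ^ (-s) ≤ 1 * (S.N p : ℝ) ^ (-s) :=
        mul_le_mul_of_nonneg_right (hx p) (cpl_pos S p s).le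
    _ = _ := one_mul _

theorem cpl_u_half {x : S.P → ℂ} (hx : ∀ p, ‖x p‖ ≤ 1) {s : ℝ} (hs : 1 ≤ s) (p : S.P) :
    ‖cpl_u S x s p‖ ≤ 1 / 2 :=
  (cpl_u_le S hx s p).trans ((cpl_le_inv S p hs).trans (cpl_inv_half S p))

theorem cpl_gu_le {x : S.P → ℂ} (hx : ∀ p, ‖x p‖ ≤ 1) {s : ℝ} (hs : 1 ≤ s) (p : S.P) :
    ‖cpl_g (cpl_u S x s p)‖ ≤ (S.N p : ℝ) ^ (-2 : ℝ) := by
  refine (cpl_g_le (cpl_u_half S hx hs p)).trans ?_
  calc ‖cpl_u S x s p‖ ^ 2 ≤ ((S.N p : ℝ) ^ (-1 : ℝ)) ^ 2 :=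
        pow_le_pow_left₀ (norm_nonneg _) ((cpl_u_le S hx s p).trans (cpl_le_inv S p hs)) 2
    _ = (S.N p : ℝ) ^ (-2 : ℝ) := by
        rw [← Real.rpow_natCast, ← Real.rpow_mul (by linarith [cpl_two S p])]
        norm_num

variable (C₀ : ℝ) (hC₀ : ∀ X : ℝ, 1 ≤ X → ((S.idl X).card : ℝ) ≤ C₀ * X)

include hC₀ in
theorem cpl_sum_u {x : S.P → ℂ} (hx : ∀ p, ‖x p‖ ≤ 1) {s : ℝ} (hs : 1 < s) :
    Summable (cpl_u S x s) :=
  Summable.of_norm_bounded (pre_summable_N S C₀ hC₀ s hs) (cpl_u_le S hx s)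

include hC₀ in
theorem cpl_sum_g {x : S.P → ℂ} (hx : ∀ p, ‖x p‖ ≤ 1) {s : ℝ} (hs : 1 ≤ s) :
    Summable (fun p => cpl_g (cpl_u S x s p)) :=
  Summable.of_norm_bounded (pre_summable_N S C₀ hC₀ 2 (by norm_num)) (cpl_gu_le S hx hs)

/-- the series over the ideals -/
noncomputable def cpl_L (x : S.P → ℂ) (s : ℝ) : ℂ :=
  ∑' f : S.P →₀ ℕ, (f.prod fun p n => x p ^ n) * (((S.nf f : ℝ) ^ (-s) : ℝ) : ℂ)

theorem cpl_prod_le {x : S.P → ℂ} (hx : ∀ p, ‖x p‖ ≤ 1) (f : S.P →₀ ℕ) :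
    ‖f.prod fun p n => x p ^ n‖ ≤ 1 := by
  unfold Finsupp.prod
  rw [norm_prod]
  refine Finset.prod_le_one (fun p _ => norm_nonneg _) fun p _ => ?_
  rw [norm_pow]
  exact pow_le_one₀ (norm_nonneg _) (hx p)

theorem cpl_term {x : S.P → ℂ} (s : ℝ) (f : S.P →₀ ℕ) :
    (f.prod fun p n => x p ^ n) * (((S.nf f : ℝ) ^ (-s) : ℝ) : ℂ) =
      f.prod fun p n => (cpl_u S x s p) ^ n := by
  have h1 : (S.nf f : ℝ) ^ (-s) = f.prod fun p n => ((S.N p : ℝ) ^ (-s)) ^ n := by
    unfold Pre.nf Finsupp.prod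
    push_cast
    rw [← Real.finsetProd_rpow _ _ fun p _ => by positivity]
    refine Finset.prod_congr rfl fun p _ => ?_
    rw [← Real.rpow_natCast, ← Real.rpow_natCast, ← Real.rpow_mul (Nat.cast_nonneg _),
      ← Real.rpow_mul (Nat.cast_nonneg _), mul_comm]
  rw [h1]
  unfold Finsupp.prod cpl_u
  rw [Complex.ofReal_prod, ← Finset.prod_mul_distrib]
  refine Finset.prod_congr rfl fun p _ => ?_
  beta_reduce
  rw [mul_pow, Complex.ofReal_pow]

include hC₀ in
/-- the Euler product -/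
theorem cpl_euler {x : S.P → ℂ} (hx : ∀ p, ‖x p‖ ≤ 1) {s : ℝ} (hs : 1 < s) :
    cpl_L S x s = Complex.exp (∑' p, cpl_u S x s p + ∑' p, cpl_g (cpl_u S x s p)) := by
  classical
  have hsf := summable_nf S C₀ hC₀ s hs
  have hlt : ∀ p, ‖cpl_u S x s p‖ < 1 := fun p =>
    lt_of_le_of_lt (cpl_u_half S hx hs.le p) (by norm_num)
  have h1 : Tendsto (fun T : Finset S.P => ∏ p ∈ T, (1 - cpl_u S x s p)⁻¹) atTop
      (𝓝 (Complex.exp (∑' p, cpl_u S x s p + ∑' p, cpl_g (cpl_u S x s p)))) := by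
    have h2 : Tendsto (fun T : Finset S.P => ∑ p ∈ T, cpl_u S x s p +
        ∑ p ∈ T, cpl_g (cpl_u S x s p)) atTop
        (𝓝 (∑' p, cpl_u S x s p + ∑' p, cpl_g (cpl_u S x s p))) :=
      Tendsto.add (cpl_sum_u S C₀ hC₀ hx hs).hasSum (cpl_sum_g S C₀ hC₀ hx hs.le).hasSum
    have h3 := (Complex.continuous_exp.tendsto _).comp h2
    refine h3.congr fun T => ?_
    show Complex.exp (∑ p ∈ T, cpl_u S x s p + ∑ p ∈ T, cpl_g (cpl_u S x s p)) = _
    rw [← Finset.sum_add_distrib, Complex.exp_sum]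
    exact Finset.prod_congr rfl fun p _ => cpl_exp (hlt p)
  have h4 : Tendsto (fun T : Finset S.P => ∏ p ∈ T, (1 - cpl_u S x s p)⁻¹) atTop
      (𝓝 (cpl_L S x s)) := by
    have h5 : ∀ T : Finset S.P, ∏ p ∈ T, (1 - cpl_u S x s p)⁻¹ =
        ∑' f : S.P →₀ ℕ, if f.support ⊆ T then
          (f.prod fun p n => x p ^ n) * (((S.nf f : ℝ) ^ (-s) : ℝ) : ℂ) else 0 := by
      intro T
      rw [← (cpl_gen (cpl_u S x s) hlt T).tsum_eq]
      have h6 := tsum_subtype {f : S.P →₀ ℕ | f.support ⊆ T}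
        (fun f => f.prod fun p n => (cpl_u S x s p) ^ n)
      refine h6.trans (tsum_congr fun f => ?_)
      rw [Set.indicator_apply]
      show (if f.support ⊆ T then _ else 0) = _
      rw [cpl_term]
    rw [show (fun T : Finset S.P => ∏ p ∈ T, (1 - cpl_u S x s p)⁻¹) = _ from funext h5]
    unfold cpl_L
    refine tendsto_tsum_of_dominated_convergence hsf (fun f => ?_) (Eventually.of_forall
      fun T f => ?_)
    · refine tendsto_const_nhds.congr' ?_
      filter_upwards [eventually_ge_atTop f.support] with T hT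
      rw [if_pos hT]
    · have hpos : (0 : ℝ) < (S.nf f : ℝ) ^ (-s) :=
        Real.rpow_pos_of_pos (by exact_mod_cast S.nf_pos f) _
      split_ifs
      · rw [norm_mul, Complex.norm_real, Real.norm_eq_abs, abs_of_pos hpos]
        calc _ ≤ 1 * (S.nf f : ℝ) ^ (-s) :=
              mul_le_mul_of_nonneg_right (cpl_prod_le S hx f) hpos.le
          _ = _ := one_mul _
      · rw [norm_zero]
        exact hpos.le
  exact tendsto_nhds_unique h4 h1

include hC₀ in
/-- the limit of the higher terms -/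
theorem cpl_g_lim {x : S.P → ℂ} (hx : ∀ p, ‖x p‖ ≤ 1) :
    Tendsto (fun σ : ℝ => ∑' p, cpl_g (cpl_u S x (1 + σ) p)) (𝓝[>] 0)
      (𝓝 (∑' p, cpl_g (cpl_u S x 1 p))) := by
  refine tendsto_tsum_of_dominated_convergence (pre_summable_N S C₀ hC₀ 2 (by norm_num))
    (fun p => ?_) ?_
  · have h1 : ContinuousAt cpl_g (cpl_u S x 1 p) :=
      cpl_g_cont (lt_of_le_of_lt (cpl_u_half S hx le_rfl p) (by norm_num))
    have h2 : Tendsto (fun σ : ℝ => cpl_u S x (1 + σ) p) (𝓝[>] 0) (𝓝 (cpl_u S x 1 p)) := by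
      have h3 : Continuous fun σ : ℝ => cpl_u S x (1 + σ) p := by
        unfold cpl_u
        have h4 : (S.N p : ℝ) ≠ 0 := by linarith [cpl_two S p]
        have h5 : Continuous fun σ : ℝ => (S.N p : ℝ) ^ (-(1 + σ)) :=
          Continuous.rpow continuous_const (by fun_prop) fun σ => Or.inl h4
        exact continuous_const.mul (Complex.continuous_ofReal.comp h5)
      have h6 := h3.tendsto 0
      rw [add_zero] at h6
      exact tendsto_nhdsWithin_of_tendsto_nhds h6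
    exact h1.tendsto.comp h2
  · filter_upwards [self_mem_nhdsWithin] with σ hσ p
    exact cpl_gu_le S hx (by have : (0 : ℝ) < σ := hσ; linarith) p

end

end Pool.Agent.EV
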