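import Pool.Agent.EV.EAb1
import Pool.Agent.EV.ATm

/-!
# Project T4 (MP_a3214d), even order, row EV-E3: the two inner statements for elementary abelian
groups
-/

set_option autoImplicit false

open scoped BigOperators Topology
open NumberField IsDedekindDomain Filter

namespace Pool.Agent.EV

open Pool.Agent.H98.MF
open Pool.Agent.D8 (pat RxF)
open Pool.Agent.H92.EL (TM Om1 Ncl Zt Ctn Hk HLo Cg nO HI InnF InnU Hyp)

section

variable {k : Type} [Field k] [NumberField k] {G : Type} [Group G] (C : EC G)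

theorem ca_eq (F : Frm k) (Rk : RxF k) (ρ0 : Gm k →* G) (H : (Gm k →* G) → Prop) (Y : ℝ) :
    Ca F Rk C.gd ρ0 H Y = Sa F Rk H Y := by
  ext ρ
  constructor
  · rintro ⟨h1, h2, -, h3, -, h4⟩
    exact ⟨h1, h2, h3, h4⟩
  · rintro ⟨h1, h2, h3, h4⟩
    refine ⟨h1, h2, fun σ => ?_, h3, fun p => C.sq _, h4⟩
    obtain ⟨v, hv⟩ := C.bij.2 ((ρ0 σ)⁻¹ * ρ σ)
    refine ⟨v, 0, ?_⟩
    show ρ σ = ρ0 σ * (C.z v * 1)
    rw [mul_one, hv, mul_inv_cancel_left]

open Classical in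
/-- the inner statement for fixed data -/
theorem ea_innF (hC : SCc) (T : TM k) : InnF T G 2 (RZ (C.r + 1)).card := by
  intro ρ0 _ S _ H hH
  obtain ⟨Rk, ht, -⟩ := rk_of T
  obtain ⟨F, hS⟩ := Pool.Agent.D8.cFrm k S
  have hl : ∀ E, LcS F.S (f2H T (F.S \ S) H E) := fun E =>
    f2_lcs T hS Finset.sdiff_subset hH E
  choose L hL0 hLt hLp using fun E => Sa_lim F Rk C hC (hl E)
  have hfin : ∀ E Y, (Sa F Rk (f2H T (F.S \ S) H E) Y).Finite := fun E Y =>
    (Sa_card F Rk C (hl E) Y).1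
  have hU : ∀ Y : ℝ, HI T 2 ρ0 H S Y = ⋃ E ∈ (F.S \ S).powerset,
      Sa F Rk (f2H T (F.S \ S) H E) (Y / ((∏ P ∈ E, nrm P : ℕ) : ℝ)) := by
    intro Y
    rw [f2_union T Rk ht C.p2 C.gd F hS ρ0 H Y]
    simp only [ca_eq]
  have hcard : ∀ Y : ℝ, ((HI T 2 ρ0 H S Y).ncard : ℝ) = ∑ E ∈ (F.S \ S).powerset,
      ((Sa F Rk (f2H T (F.S \ S) H E) (Y / ((∏ P ∈ E, nrm P : ℕ) : ℝ))).ncard : ℝ) := by
    intro Y
    rw [hU Y]
    have h1 : (⋃ E ∈ (F.S \ S).powerset, Sa F Rk (f2H T (F.S \ S) H E)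
        (Y / ((∏ P ∈ E, nrm P : ℕ) : ℝ))) =
        (((F.S \ S).powerset.biUnion fun E => (hfin E (Y / ((∏ P ∈ E, nrm P : ℕ) : ℝ))).toFinset :
          Finset (Gm k →* G)) : Set (Gm k →* G)) := by
      ext ρ
      simp only [Set.mem_iUnion, exists_prop, Finset.coe_biUnion, Finset.mem_coe,
        Set.Finite.coe_toFinset]
    rw [h1, Set.ncard_coe_finset, Finset.card_biUnion]
    · push_cast
      refine Finset.sum_congr rfl fun E _ => ?_
      rw [Set.ncard_eq_toFinset_card _ (hfin E _)]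
    · intro E hE1 E' hE' hne
      show Disjoint _ _
      rw [Finset.disjoint_left]
      intro ρ hr hr'
      apply hne
      rw [Set.Finite.mem_toFinset] at hr hr'
      have h3 : ∀ P ∈ F.S \ S, (ρ (T.tau P) ≠ 1 ↔ P ∈ E) := fun P hP => (hr.2.2.1.2 P hP).2
      have h3' : ∀ P ∈ F.S \ S, (ρ (T.tau P) ≠ 1 ↔ P ∈ E') := fun P hP =>
        (hr'.2.2.1.2 P hP).2
      rw [Finset.mem_coe, Finset.mem_powerset] at hE1 hE'
      ext P
      constructor
      · intro h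
        exact (h3' P (hE1 h)).1 ((h3 P (hE1 h)).2 h)
      · intro h
        exact (h3 P (hE' h)).1 ((h3' P (hE' h)).2 h)
  refine ⟨∑ E ∈ (F.S \ S).powerset, L E * (1 / ((∏ P ∈ E, nrm P : ℕ) : ℝ)), ?_, ?_, ?_⟩
  · refine Finset.sum_nonneg fun E _ => mul_nonneg (hL0 E) ?_
    positivity
  · have h1 := tendsto_finsetSum (F.S \ S).powerset fun E _ =>
      f2_comp ((∏ P ∈ E, nrm P : ℕ) : ℝ) (by exact_mod_cast f2_N E)
        ((RZ (C.r + 1)).card - 1) _ (L E) (hLt E)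
    refine h1.congr fun Y => ?_
    rw [hcard Y, Finset.sum_div]
  · rintro ⟨Y, ρ, hρ⟩
    rw [hU Y] at hρ
    simp only [Set.mem_iUnion, exists_prop] at hρ
    obtain ⟨E, hE1, hρE⟩ := hρ
    refine lt_of_lt_of_le (mul_pos (hLp E ⟨_, ρ, hρE.2⟩)
      (one_div_pos.2 (by exact_mod_cast f2_N E))) (Finset.single_le_sum (f := fun E =>
        L E * (1 / ((∏ P ∈ E, nrm P : ℕ) : ℝ))) (fun E _ => mul_nonneg (hL0 E) ?_) hE1)
    positivity

/-! ### the uniform statement -/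

open Classical in
/-- the parameters away from a set of primes -/
noncomputable def er (F : Frm k) (R : Finset (HeightOneSpectrum (𝓞 k)))
    (b : F.I →₀ VV (C.r + 1)) : F.I →₀ VV (C.r + 1) :=
  b.filter fun i => ∀ p, i = Sum.inr p → F.pl p ∉ R

theorem er_inl (F : Frm k) (R : Finset (HeightOneSpectrum (𝓞 k))) (b : F.I →₀ VV (C.r + 1))
    (j : Fin F.sys.m) : er C F R b (Sum.inl j) = b (Sum.inl j) := by
  classical
  exact Finsupp.filter_apply_pos _ _ fun p h => absurd h (by simp)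

theorem er_out (F : Frm k) (R : Finset (HeightOneSpectrum (𝓞 k))) (b : F.I →₀ VV (C.r + 1))
    (p : F.sys.P) (hp : F.pl p ∉ R) : er C F R b (Sum.inr p) = b (Sum.inr p) := by
  classical
  refine Finsupp.filter_apply_pos _ _ fun q h => ?_
  rw [← Sum.inr_injective h]
  exact hp

theorem er_in (F : Frm k) (R : Finset (HeightOneSpectrum (𝓞 k))) (b : F.I →₀ VV (C.r + 1))
    (p : F.sys.P) (hp : F.pl p ∈ R) : er C F R b (Sum.inr p) = 0 := by
  classical
  exact Finsupp.filter_apply_neg _ _ fun h => h p rfl hp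

open Classical in
/-- the number of homomorphisms with given values at finitely many primes -/
theorem ea_unif (F : Frm k) (T : TM k) (R : Finset (HeightOneSpectrum (𝓞 k)))
    (hR : Disjoint R F.S) (u : HeightOneSpectrum (𝓞 k) → G) (Y : ℝ) :
    {ρ : Gm k →* G | ρ ∈ Hk k G ∧ (∀ P ∈ R, ρ (T.tau P) = u P) ∧
      (nO T (F.S ∪ R) ρ : ℝ) ≤ Y}.ncard ≤ (Bq F (C.r + 1) ∅ Y).ncard := by
  obtain ⟨Rk, ht, -⟩ := rk_of T
  have htau : ∀ (b : F.I →₀ VV (C.r + 1)) (p : F.sys.P),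
      hZ F C b (T.tau (F.pl p)) = C.z (b (Sum.inr p)) := by
    intro b p
    rw [← ht]
    exact hZ_tau F Rk C b p
  set B1 : Set (F.I →₀ VV (C.r + 1)) := {b | (∀ p, F.pl p ∈ R → C.z (b (Sum.inr p)) = u (F.pl p)) ∧
    er C F R b ∈ Bq F (C.r + 1) ∅ Y} with hB1
  have hmap : ∀ b ∈ B1, er C F R b ∈ Bq F (C.r + 1) ∅ Y := fun b hb => hb.2
  have hinj : Set.InjOn (er C F R) B1 := by
    intro b hb b' hb' h
    ext1 i
    rcases i with j | p
    · have h1 := DFunLike.congr_fun h (Sum.inl j)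
      rwa [er_inl, er_inl] at h1
    · by_cases hp : F.pl p ∈ R
      · exact C.bij.1 ((hb.1 p hp).trans (hb'.1 p hp).symm)
      · have h1 := DFunLike.congr_fun h (Sum.inr p)
        rwa [er_out C F R b p hp, er_out C F R b' p hp] at h1
  have hf := (bq_card F (C.r + 1) Y).1
  have hfB : B1.Finite := Set.Finite.of_injOn (fun b hb => hmap b hb) hinj hf
  have hsub : {ρ : Gm k →* G | ρ ∈ Hk k G ∧ (∀ P ∈ R, ρ (T.tau P) = u P) ∧
      (nO T (F.S ∪ R) ρ : ℝ) ≤ Y} ⊆ hZ F C '' B1 := by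
    rintro ρ ⟨⟨-, hl⟩, hu, hn⟩
    obtain ⟨b, rfl⟩ := hZ_ex F C ρ hl
    refine ⟨b, ⟨fun p hp => ?_, ?_⟩, rfl⟩
    · rw [← htau]
      exact hu _ hp
    · refine (bq_iff F _).2 ⟨(er C F R b).support.preimage Sum.inr Sum.inr_injective.injOn,
        ?_, fun p => ?_⟩
      · have hset : {P : HeightOneSpectrum (𝓞 k) | P ∉ F.S ∪ R ∧ hZ F C b (T.tau P) ≠ 1} =
            ((((er C F R b).support.preimage Sum.inr Sum.inr_injective.injOn).image F.pl :
              Finset (HeightOneSpectrum (𝓞 k))) : Set _) := by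
          ext P
          rw [Finset.mem_coe, Finset.mem_image, Set.mem_setOf_eq, Finset.mem_union, not_or]
          constructor
          · rintro ⟨⟨h1, h2⟩, h3⟩
            obtain ⟨p, rfl⟩ := (F.pl_iff P).2 h1
            refine ⟨p, ?_, rfl⟩
            rw [Finset.mem_preimage, Finsupp.mem_support_iff, er_out C F R b p h2]
            rw [htau, Ne, C.one_iff] at h3
            exact h3
          · rintro ⟨p, hp, rfl⟩
            rw [Finset.mem_preimage, Finsupp.mem_support_iff] at hp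
            have h2 : F.pl p ∉ R := fun h2 => hp (er_in C F R b p h2)
            rw [er_out C F R b p h2] at hp
            refine ⟨⟨(F.pl_iff _).1 ⟨p, rfl⟩, h2⟩, ?_⟩
            rw [htau, Ne, C.one_iff]
            exact hp
        rw [F.sys.mem_bx]
        unfold nO at hn
        rw [hset, finprod_mem_coe_finset, Finset.prod_image fun p _ q _ h => F.pl_inj h] at hn
        refine le_trans (le_of_eq ?_) hn
        unfold Pre.nm
        rw [Finset.prod_congr rfl fun p _ => F.N_eq p]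
      · rw [Finset.mem_preimage, Finsupp.mem_support_iff]
  calc _ ≤ (hZ F C '' B1).ncard := Set.ncard_le_ncard hsub (hfB.image _)
    _ = B1.ncard := Set.ncard_image_of_injective _ (hZ_inj F C)
    _ ≤ _ := Set.ncard_le_ncard_of_injOn _ hmap hinj hf

/-- the uniform inner statement -/
theorem ea_innU (hC : SCc) (T : TM k) : InnU T G 2 (RZ (C.r + 1)).card := by
  classical
  obtain ⟨F, -⟩ := Pool.Agent.D8.cFrm k ∅
  refine ⟨F.S, fun P hP => ?_, fun ε hε => ?_⟩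
  · rw [C.card]
    exact Nat.Coprime.pow_left _ (atm_odd P (LTK.ord_two_eq F.adm hP))
  · have := ea_rz_ne C.r
    obtain ⟨c, hc, h⟩ := ea_ub hC F.sys (RZ (C.r + 1))
      (Fintype.card (Fin F.sys.m → VV (C.r + 1)) : ℝ) (Nat.cast_nonneg _)
    refine ⟨c, hc, fun R hR ρ0 _ u Y hY => ?_⟩
    have h1 : ({ρ : Gm k →* G | ρ ∈ Hk k G ∧ Cg 2 ρ ρ0 ∧ (∀ P ∈ R, ρ (T.tau P) = u P) ∧
        (∀ P, P ∉ F.S → P ∉ R → ρ (T.tau P) ^ 2 = 1) ∧ (nO T (F.S ∪ R) ρ : ℝ) ≤ Y}) =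
        {ρ : Gm k →* G | ρ ∈ Hk k G ∧ (∀ P ∈ R, ρ (T.tau P) = u P) ∧
          (nO T (F.S ∪ R) ρ : ℝ) ≤ Y} := by
      ext ρ
      constructor
      · rintro ⟨a1, -, a2, -, a3⟩
        exact ⟨a1, a2, a3⟩
      · rintro ⟨a1, a2, a3⟩
        exact ⟨a1, fun σ => C.om _, a2, fun P _ _ => C.sq _, a3⟩
    have h2 := h Y hY
    rw [← (bq_card F (C.r + 1) Y).2, Fintype.card_coe] at h2
    have h3 : (({ρ : Gm k →* G | ρ ∈ Hk k G ∧ (∀ P ∈ R, ρ (T.tau P) = u P) ∧
        (nO T (F.S ∪ R) ρ : ℝ) ≤ Y}.ncard : ℕ) : ℝ) ≤ ((Bq F (C.r + 1) ∅ Y).ncard : ℝ) := by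
      exact_mod_cast ea_unif C F T R hR u Y
    have h4 : (1 : ℝ) ≤ ((∏ P ∈ R, nrm P : ℕ) : ℝ) ^ ε :=
      Real.one_le_rpow (by exact_mod_cast f2_N R) hε.le
    have h5 : 0 ≤ Y * Real.log Y ^ ((RZ (C.r + 1)).card - 1) :=
      mul_nonneg (by linarith) (pow_nonneg (Real.log_nonneg (by linarith)) _)
    rw [h1]
    refine h3.trans (h2.trans ?_)
    exact mul_le_mul_of_nonneg_right (le_mul_of_one_le_right hc h4) h5

end

/-- E3: elementary abelian groups -/
theorem seAb (hC : SCc) : SeAb := by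
  intro k _ _ T G _ hf h hne
  obtain ⟨C⟩ := ea_ex G hf h hne
  rw [C.ncl]
  exact ⟨ea_innF C hC T, ea_innU C hC T⟩

end Pool.Agent.EV
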