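import Pool.Agent.EV.AStm
import Pool.Agent.EV.KCx
import Mathlib.LinearAlgebra.FreeModule.Finite.Basic

/-!
# Project T4 (MP_a3214d), even order, row EV-E3: elementary abelian groups, coordinates and the
limits of the sums over central families
-/

set_option autoImplicit false

open scoped BigOperators Topology
open NumberField IsDedekindDomain Filter

namespace Pool.Agent.EV

open Pool.Agent.H98.MF
open Pool.Agent.H92.EL (Om1 Ncl)

/-! ### coordinates -/

/-- coordinates of an elementary abelian group of rank `r + 1` -/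
structure EC (G : Type) [Group G] where
  /-- the rank, minus one -/
  r : ℕ
  /-- the isomorphism -/
  z : VV (r + 1) → G
  add : ∀ x y, z (x + y) = z x * z y
  bij : Function.Bijective z

theorem ea_ex (G : Type) [Group G] (hf : Finite G) (h : ∀ g : G, g * g = 1)
    (hne : ∃ g : G, g ≠ 1) : Nonempty (EC G) := by
  classical
  have hinv : ∀ x : G, x⁻¹ = x := fun x => inv_eq_of_mul_eq_one_right (h x)
  letI : CommGroup G := { ‹Group G› with
    mul_comm := fun x y => by
      rw [← hinv (x * y), mul_inv_rev, hinv, hinv] }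
  letI : Module (ZMod 2) (Additive G) := AddCommGroup.zmodModule (n := 2) (by
    intro x
    rw [two_nsmul]
    exact congrArg Additive.ofMul (h (Additive.toMul x)))
  have : Finite (Additive G) := hf
  have : Module.Finite (ZMod 2) (Additive G) := Module.Finite.of_finite
  obtain ⟨g, hg⟩ := hne
  have : Nontrivial (Additive G) := ⟨⟨Additive.ofMul g, 0, fun e => hg (congrArg Additive.toMul e)⟩⟩
  have hpos : 0 < Module.finrank (ZMod 2) (Additive G) := Module.finrank_pos
  obtain ⟨r, hr⟩ : ∃ r, Module.finrank (ZMod 2) (Additive G) = r + 1 :=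
    ⟨_, (Nat.succ_pred_eq_of_pos hpos).symm⟩
  let b := (Module.finBasis (ZMod 2) (Additive G)).reindex (finCongr hr)
  refine ⟨⟨r, fun v => Additive.toMul (b.equivFun.symm v), fun x y => ?_, ?_⟩⟩
  · show Additive.toMul (b.equivFun.symm (x + y)) = _
    rw [map_add]
    rfl
  · exact Additive.toMul.bijective.comp b.equivFun.symm.bijective

namespace EC

variable {G : Type} [Group G] (C : EC G)

theorem zero : C.z 0 = 1 := by
  have h := C.add 0 0
  rw [add_zero] at h
  exact left_eq_mul.1 h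

theorem one_iff (v : VV (C.r + 1)) : C.z v = 1 ↔ v = 0 := by
  constructor
  · intro h
    exact C.bij.1 (h.trans C.zero.symm)
  · rintro rfl
    exact C.zero

theorem self (v : VV (C.r + 1)) : C.z v * C.z v = 1 := by
  rw [← C.add, GD.two_V, C.zero]

include C in
theorem sq (g : G) : g ^ 2 = 1 := by
  obtain ⟨v, rfl⟩ := C.bij.2 g
  rw [pow_two, C.self]

include C in
theorem comm (g h : G) : g * h = h * g := by
  obtain ⟨v, rfl⟩ := C.bij.2 g
  obtain ⟨w, rfl⟩ := C.bij.2 h
  rw [← C.add, add_comm, C.add]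

include C in
theorem om (g : G) : g ∈ Om1 2 G := Subgroup.subset_closure (C.sq g)

include C in
theorem fin : Finite G := Finite.of_surjective C.z C.bij.2

theorem card : Nat.card G = 2 ^ (C.r + 1) := by
  rw [← Nat.card_congr (Equiv.ofBijective C.z C.bij), Nat.card_fun, Nat.card_eq_fintype_card,
    Nat.card_eq_fintype_card, ZMod.card, Fintype.card_fin]

include C in
theorem p2 : P2 G := ⟨C.fin, C.r + 1, C.card⟩

theorem ncl : Nat.card (Ncl 2 G) = (RZ (C.r + 1)).card := by
  classical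
  have h1 : (RZ (C.r + 1)).card = Nat.card (RZ (C.r + 1)) := by
    rw [Nat.card_eq_fintype_card, Fintype.card_coe]
  rw [h1]
  symm
  have hord : ∀ v : RZ (C.r + 1), orderOf (C.z (v : VV (C.r + 1))) = 2 := by
    intro v
    refine orderOf_eq_prime (C.sq _) fun h => ?_
    have h2 := (C.one_iff _).1 h
    have h3 := v.2
    unfold RZ at h3
    exact (Finset.mem_filter.1 h3).2 h2
  refine Nat.card_congr (Equiv.ofBijective (fun v : RZ (C.r + 1) =>
    (⟨ConjClasses.mk (C.z (v : VV (C.r + 1))), C.z (v : VV (C.r + 1)), rfl, hord v⟩ :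
      Ncl 2 G)) ⟨?_, ?_⟩)
  · intro v w hvw
    have h2 : ConjClasses.mk (C.z (v : VV (C.r + 1))) = ConjClasses.mk (C.z (w : VV (C.r + 1))) :=
      congrArg Subtype.val hvw
    rw [ConjClasses.mk_eq_mk_iff_isConj, isConj_iff] at h2
    obtain ⟨c, hc⟩ := h2
    rw [C.comm c, mul_assoc, mul_inv_cancel, mul_one] at hc
    exact Subtype.ext (C.bij.1 hc)
  · rintro ⟨c, g, rfl, hg⟩
    obtain ⟨v, rfl⟩ := C.bij.2 g
    have hv : v ≠ 0 := by
      rintro rfl
      rw [C.zero, orderOf_one] at hg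
      exact absurd hg (by norm_num)
    exact ⟨⟨v, by unfold RZ; exact Finset.mem_filter.2 ⟨Finset.mem_univ _, hv⟩⟩, rfl⟩

/-- the coordinates with trivial central part -/
noncomputable def gd : GD G where
  d := C.r + 1
  n := 0
  β := 0
  s := C.z
  zz _ := 1
  s_mul v w := by rw [mul_one, C.add]
  zz_add _ _ := (mul_one _).symm
  zz_cen _ g := by rw [one_mul, mul_one]
  inj v x h := by
    rw [mul_one] at h
    exact ⟨(C.one_iff v).1 h, Subsingleton.elim _ _⟩
  c _ _ := 0
  com g v := by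
    rw [mul_one]
    exact C.comm _ _
  mem g := by
    refine ⟨fun _ => ?_, fun _ => C.om g⟩
    obtain ⟨v, rfl⟩ := C.bij.2 g
    exact ⟨v, 0, (mul_one _).symm⟩
  frat H h := by
    rw [eq_top_iff]
    intro g _
    obtain ⟨_, hx⟩ := h g
    rwa [mul_one] at hx

end EC

/-! ### the number of nonzero vectors -/

theorem ea_rz (n : ℕ) : (RZ n).card + 1 = 2 ^ n := by
  classical
  have h1 : RZ n = (Finset.univ : Finset (VV n)).erase 0 := by
    ext v
    unfold RZ
    rw [Finset.mem_filter, Finset.mem_erase]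
    exact and_comm
  rw [h1, Finset.card_erase_add_one (Finset.mem_univ _), Finset.card_univ, Fintype.card_fun,
    ZMod.card, Fintype.card_fin]

theorem ea_rz_lt (n : ℕ) : (RZ n).card < (RZ (n + 1)).card := by
  have h1 := ea_rz n
  have h2 := ea_rz (n + 1)
  have h3 : 0 < 2 ^ n := by positivity
  rw [pow_succ] at h2
  omega

theorem ea_rz_ne (n : ℕ) : Nonempty (RZ (n + 1)) := by
  have h : 0 < (RZ (n + 1)).card := (Nat.zero_le _).trans_lt (ea_rz_lt n)
  obtain ⟨v, hv⟩ := Finset.card_pos.1 h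
  exact ⟨⟨v, hv⟩⟩

/-! ### limits of the sums over central families -/

theorem ea_err (c : ℕ) (hc : 1 ≤ c) : Tendsto (fun Y : ℝ =>
    Y * (1 + Real.log Y) ^ ((c : ℝ) - 3 / 2) / (Y * Real.log Y ^ (c - 1))) atTop (𝓝 0) := by
  have h1 : Tendsto (fun Y : ℝ => 1 + Real.log Y) atTop atTop :=
    tendsto_atTop_add_const_left _ _ Real.tendsto_log_atTop
  have h2 : Tendsto (fun Y : ℝ => (1 + Real.log Y) ^ (-(1 / 2) : ℝ)) atTop (𝓝 0) :=
    (tendsto_rpow_neg_atTop (by norm_num : (0 : ℝ) < 1 / 2)).comp h1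
  have h3 : Tendsto (fun Y : ℝ => (1 / Real.log Y + 1) ^ (c - 1)) atTop (𝓝 ((0 + 1) ^ (c - 1))) :=
    ((Real.tendsto_log_atTop.const_div_atTop 1).add_const 1).pow _
  have h4 := h3.mul h2
  rw [zero_add, one_pow, one_mul] at h4
  refine h4.congr' ?_
  filter_upwards [eventually_gt_atTop (1 : ℝ)] with Y hY
  have hY0 : Y ≠ 0 := by linarith
  have hl : 0 < Real.log Y := Real.log_pos hY
  have e1 : (c : ℝ) - 3 / 2 = ((c - 1 : ℕ) : ℝ) + (-(1 / 2) : ℝ) := by
    rw [Nat.cast_sub hc]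
    push_cast
    ring
  rw [e1, Real.rpow_add (by linarith), Real.rpow_natCast]
  have e2 : 1 / Real.log Y + 1 = (1 + Real.log Y) / Real.log Y := by
    field_simp
  rw [e2, div_pow]
  have hl' : Real.log Y ^ (c - 1) ≠ 0 := pow_ne_zero _ hl.ne'
  field_simp

section

variable {S : Sys}

theorem ea_lo (A : ℝ) : lo (S := S) A ∅ = 1 := by
  unfold lo
  exact Finset.prod_empty

theorem ea_ty (ι : Type) [Fintype ι] : ty0 (S := S) ι ∅ = 1 := by
  unfold ty0
  exact Finset.prod_empty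

open Classical in
/-- the limit of the weighted sums -/
theorem ea_lim (h : SCc) (S : Sys) (ι : Type) [Fintype ι] [Nonempty ι] : ∃ κ : ℝ, 0 < κ ∧
    ∀ g : (ι → S.T) → ℝ, Tendsto (fun Y : ℝ => CC ∅ g Y /
      (Y * Real.log Y ^ (Fintype.card ι - 1))) atTop (𝓝 (κ * ∑ t, g t)) := by
  classical
  obtain ⟨κ1, A0, C, hκ, hA, hC, h⟩ := h S ι
  have hq : (0 : ℝ) < 1 / ((2 : ℝ) ^ S.m) ^ Fintype.card ι := by positivity
  refine ⟨κ1 * (1 / ((2 : ℝ) ^ S.m) ^ Fintype.card ι), mul_pos hκ hq, fun g => ?_⟩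
  set B : ℝ := 1 + ∑ t, |g t| with hB
  have hB0 : 0 < B := by
    have : 0 ≤ ∑ t, |g t| := Finset.sum_nonneg fun t _ => abs_nonneg _
    linarith
  have hg : ∀ t, |g t / B| ≤ 1 := by
    intro t
    rw [abs_div, abs_of_pos hB0, div_le_one hB0]
    have : |g t| ≤ ∑ t, |g t| :=
      Finset.single_le_sum (f := fun t => |g t|) (fun t _ => abs_nonneg _) (Finset.mem_univ t)
    linarith
  have h1 : ∀ Y : ℝ, CC ∅ g Y = B * CC ∅ (fun t => g t / B) Y := by
    intro Y
    rw [← kcx_CC_mul]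
    congr 1
    funext t
    field_simp
  set M : ℝ := κ1 * ((1 / ((2 : ℝ) ^ S.m) ^ Fintype.card ι) * ∑ t : ι → S.T, g t / B) with hM
  have h2 : Tendsto (fun Y : ℝ => CC ∅ (fun t => g t / B) Y /
      (Y * Real.log Y ^ (Fintype.card ι - 1)) - M) atTop (𝓝 0) := by
    have h3 := (ea_err (Fintype.card ι) Fintype.card_pos).const_mul C
    rw [mul_zero] at h3
    refine squeeze_zero_norm' ?_ h3
    filter_upwards [eventually_gt_atTop (1 : ℝ)] with Y hY
    have hl : 0 < Real.log Y := Real.log_pos hY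
    have hd : 0 < Y * Real.log Y ^ (Fintype.card ι - 1) :=
      mul_pos (by linarith) (pow_pos hl _)
    have h4 := h ∅ (fun t => g t / B) hg Y hY.le
    rw [ea_lo, ea_ty, mul_one, mul_one] at h4
    rw [Real.norm_eq_abs]
    have e1 : CC ∅ (fun t => g t / B) Y / (Y * Real.log Y ^ (Fintype.card ι - 1)) - M =
        (CC ∅ (fun t => g t / B) Y - M * (Y * Real.log Y ^ (Fintype.card ι - 1))) /
          (Y * Real.log Y ^ (Fintype.card ι - 1)) := by
      field_simp
    rw [e1, abs_div, abs_of_pos hd, ← mul_div_assoc, div_le_div_iff_of_pos_right hd]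
    exact h4.trans (le_of_eq (mul_assoc _ _ _))
  have h5 := (h2.add_const M).const_mul B
  rw [zero_add] at h5
  have e2 : B * M = κ1 * (1 / ((2 : ℝ) ^ S.m) ^ Fintype.card ι) * ∑ t : ι → S.T, g t := by
    rw [hM, ← Finset.sum_div]
    field_simp
  rw [← e2]
  refine h5.congr fun Y => ?_
  rw [h1 Y, mul_div_assoc]
  ring

/-- the limit for nonnegative weights -/
theorem ea_limP (h : SCc) (S : Sys) (ι : Type) [Fintype ι] [Nonempty ι]
    (g : (ι → S.T) → ℝ) (hg : ∀ t, 0 ≤ g t) : ∃ L : ℝ, 0 ≤ L ∧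
    Tendsto (fun Y : ℝ => CC ∅ g Y / (Y * Real.log Y ^ (Fintype.card ι - 1))) atTop (𝓝 L) ∧
    ((∃ t, g t ≠ 0) → 0 < L) := by
  classical
  obtain ⟨κ, hκ, hl⟩ := ea_lim h S ι
  refine ⟨_, mul_nonneg hκ.le (Finset.sum_nonneg fun t _ => hg t), hl g, ?_⟩
  rintro ⟨t, ht⟩
  exact mul_pos hκ (Finset.sum_pos' (fun t _ => hg t)
    ⟨t, Finset.mem_univ t, lt_of_le_of_ne (hg t) (Ne.symm ht)⟩)

/-- the upper bound for the sums with constant weight -/
theorem ea_ub (h : SCc) (S : Sys) (ι : Type) [Fintype ι] [Nonempty ι] (a : ℝ) (ha : 0 ≤ a) :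
    ∃ C : ℝ, 0 ≤ C ∧ ∀ Y : ℝ, 2 ≤ Y → CC (S := S) (ι := ι) ∅ (fun _ => a) Y ≤
      C * (Y * Real.log Y ^ (Fintype.card ι - 1)) := by
  classical
  obtain ⟨κ1, A0, C, hκ, hA, hC, h⟩ := h S ι
  set k : ℝ := κ1 * ((1 / ((2 : ℝ) ^ S.m) ^ Fintype.card ι) * ∑ _t : ι → S.T, (1 : ℝ)) with hk
  have hk0 : 0 ≤ k := by
    refine mul_nonneg hκ.le (mul_nonneg (by positivity) (Finset.sum_nonneg fun _ _ => zero_le_one))
  have hl2 : 0 < Real.log 2 := Real.log_pos (by norm_num)
  set q : ℝ := (1 / Real.log 2 + 1) ^ (Fintype.card ι - 1) with hq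
  have hq0 : 0 ≤ q := pow_nonneg (by positivity) _
  refine ⟨a * (k + C * q), by positivity, fun Y hY => ?_⟩
  have hL : Real.log 2 ≤ Real.log Y := Real.log_le_log (by norm_num) hY
  have hY0 : 0 ≤ Y := by linarith
  have e1 : CC (S := S) (ι := ι) ∅ (fun _ => a) Y =
      a * CC (S := S) (ι := ι) ∅ (fun _ => 1) Y := by
    rw [← kcx_CC_mul]
    simp only [mul_one]
  have h4 := (abs_le.1 (h ∅ (fun _ => 1) (fun _ => by rw [abs_one]) Y (by linarith))).2
  rw [ea_lo, ea_ty, mul_one, mul_one, ← hk] at h4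
  have h5 : (1 + Real.log Y) ^ ((Fintype.card ι : ℝ) - 3 / 2) ≤
      (1 + Real.log Y) ^ (Fintype.card ι - 1) := by
    rw [← Real.rpow_natCast]
    refine Real.rpow_le_rpow_of_exponent_le (by linarith) ?_
    rw [Nat.cast_sub Fintype.card_pos]
    push_cast
    linarith
  have h6 : (1 + Real.log Y) ^ (Fintype.card ι - 1) ≤ q * Real.log Y ^ (Fintype.card ι - 1) := by
    rw [hq, ← mul_pow]
    refine pow_le_pow_left₀ (by linarith) ?_ _
    have h7 : 1 ≤ 1 / Real.log 2 * Real.log Y := by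
      rw [one_div, inv_mul_eq_div, one_le_div hl2]
      exact hL
    linarith [h7]
  have h8 : C * Y * (1 + Real.log Y) ^ ((Fintype.card ι : ℝ) - 3 / 2) ≤
      C * Y * (q * Real.log Y ^ (Fintype.card ι - 1)) :=
    mul_le_mul_of_nonneg_left (h5.trans h6) (mul_nonneg hC hY0)
  rw [e1]
  calc a * CC (S := S) (ι := ι) ∅ (fun _ => 1) Y ≤ a * (k * (Y * Real.log Y ^ (Fintype.card ι - 1)) +
        C * Y * (q * Real.log Y ^ (Fintype.card ι - 1))) := by
        refine mul_le_mul_of_nonneg_left ?_ ha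
        linarith
    _ = _ := by ring

open Classical in
theorem ea_emp (S : Sys) (ι : Type) [Fintype ι] [IsEmpty ι] (a : ℝ) (ha : 0 ≤ a) (Y : ℝ) :
    |CC (S := S) (ι := ι) ∅ (fun _ => a) Y| ≤ a := by
  unfold CC
  refine (Finset.abs_sum_le_sum_abs _ _).trans ?_
  refine (Finset.sum_le_card_nsmul _ _ a fun x _ => ?_).trans ?_
  · split_ifs
    · rw [abs_of_nonneg ha]
    · rw [abs_zero]
      exact ha
  · have h1 : (Fintype.piFinset fun _ : ι => S.bx Y).card = 1 := by
      convert Fintype.card_piFinset (fun _ : ι => S.bx Y)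
      rw [Finset.univ_eq_empty, Finset.prod_empty]
    rw [h1, one_smul]

/-- the sums over fewer central vectors are negligible -/
theorem ea_neg (h : SCc) (S : Sys) (r : ℕ) (a : ℝ) (ha : 0 ≤ a) :
    Tendsto (fun Y : ℝ => CC (S := S) (ι := RZ r) ∅ (fun _ => a) Y /
      (Y * Real.log Y ^ ((RZ (r + 1)).card - 1))) atTop (𝓝 0) := by
  classical
  have hlt := ea_rz_lt r
  have hcard : Fintype.card (RZ r) = (RZ r).card := Fintype.card_coe _
  have hlog : Tendsto (fun Y : ℝ => 1 / Real.log Y) atTop (𝓝 0) :=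
    Real.tendsto_log_atTop.const_div_atTop 1
  rcases Nat.eq_zero_or_pos (RZ r).card with h0 | h0
  · have hemp : IsEmpty (RZ r) := by
      rw [← Fintype.card_eq_zero_iff, hcard, h0]
    have hb : ∀ Y : ℝ, |CC (S := S) (ι := RZ r) ∅ (fun _ => a) Y| ≤ a :=
      ea_emp S (RZ r) a ha
    have h1 : Tendsto (fun Y : ℝ => a * (1 / Y)) atTop (𝓝 0) := by
      have := (tendsto_id.const_div_atTop (1 : ℝ)).const_mul a
      rw [mul_zero] at this
      exact this
    refine squeeze_zero_norm' ?_ h1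
    filter_upwards [eventually_gt_atTop (Real.exp 1)] with Y hY
    have hY1 : 1 < Y := lt_trans (by
      have := Real.add_one_lt_exp (one_ne_zero (α := ℝ))
      linarith) hY
    have hl : 1 ≤ Real.log Y := by
      rw [Real.le_log_iff_exp_le (by linarith)]
      exact hY.le
    have hd : Y ≤ Y * Real.log Y ^ ((RZ (r + 1)).card - 1) :=
      le_mul_of_one_le_right (by linarith) (one_le_pow₀ hl)
    rw [Real.norm_eq_abs, abs_div, abs_of_pos (by linarith : 0 < Y * Real.log Y ^ ((RZ (r + 1)).card - 1)), mul_one_div]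
    exact (div_le_div_of_nonneg_right (hb Y) (by linarith)).trans
      (div_le_div_of_nonneg_left ha (by linarith) hd)
  · have : Nonempty (RZ r) := by
      obtain ⟨v, hv⟩ := Finset.card_pos.1 h0
      exact ⟨⟨v, hv⟩⟩
    obtain ⟨κ, -, hκ⟩ := ea_lim h S (RZ r)
    have h1 := hκ fun _ => a
    obtain ⟨j, hj⟩ : ∃ j, (RZ (r + 1)).card - 1 = (Fintype.card (RZ r) - 1) + (j + 1) :=
      ⟨(RZ (r + 1)).card - (RZ r).card - 1, by omega⟩
    have h2 : Tendsto (fun Y : ℝ => (1 / Real.log Y) ^ (j + 1)) atTop (𝓝 (0 ^ (j + 1))) :=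
      hlog.pow _
    have h3 := h1.mul h2
    rw [zero_pow (Nat.succ_ne_zero j), mul_zero] at h3
    refine h3.congr' ?_
    filter_upwards [eventually_gt_atTop (1 : ℝ)] with Y hY
    have hl : Real.log Y ≠ 0 := (Real.log_pos hY).ne'
    rw [hj, pow_add _ (Fintype.card (RZ r) - 1), one_div, inv_pow, ← div_eq_mul_inv, div_div,
      mul_assoc]

end

end Pool.Agent.EV
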