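import Pool.Agent.EV.EAb0
import Pool.Agent.EV.EF2
import Pool.Agent.EV.KLoc
import Pool.Agent.EV.KNum

/-!
# Project T4 (MP_a3214d), even order, row EV-E3: elementary abelian groups, the number of
homomorphisms for a frame
-/

set_option autoImplicit false

open scoped BigOperators Topology
open NumberField IsDedekindDomain Filter

namespace Pool.Agent.EV

open Pool.Agent.H98.MF
open Pool.Agent.D8 (pat RxF)

section

variable {k : Type} [Field k] [NumberField k] (F : Frm k) (Rk : RxF k) {G : Type} [Group G]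
  (C : EC G)

/-- the homomorphism of parameters -/
noncomputable def hZ (b : F.I →₀ VV (C.r + 1)) : Gm k →* G :=
  MonoidHom.mk' (fun σ => C.z (F.par b σ)) fun σ τ => by rw [F.par_hom, C.add]

theorem hZ_apply (b : F.I →₀ VV (C.r + 1)) (σ : Gm k) : hZ F C b σ = C.z (F.par b σ) := rfl

theorem hZ_lc (b : F.I →₀ VV (C.r + 1)) : IsLocallyConstant (hZ F C b) :=
  (F.par_lc b).comp C.z

theorem hZ_ex (ρ : Gm k →* G) (h : IsLocallyConstant ρ) : ∃ b, ρ = hZ F C b := by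
  let e : VV (C.r + 1) ≃ G := Equiv.ofBijective C.z C.bij
  have he : ∀ v, e.symm (C.z v) = v := fun v => e.symm_apply_apply v
  have he' : ∀ g, C.z (e.symm g) = g := fun g => e.apply_symm_apply g
  obtain ⟨b, hb⟩ := F.par_exists (fun σ => e.symm (ρ σ)) (h.comp e.symm) (by
    intro σ τ
    rw [← he (e.symm (ρ σ) + e.symm (ρ τ)), C.add, he', he', map_mul])
  refine ⟨b, MonoidHom.ext fun σ => ?_⟩
  rw [hZ_apply, ← hb]
  exact (he' _).symm

theorem hZ_inj : Function.Injective (hZ F C) := by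
  intro b b' h
  apply F.par_inj
  funext σ
  exact C.bij.1 (DFunLike.congr_fun h σ)

theorem hZ_tau (b : F.I →₀ VV (C.r + 1)) (p : F.sys.P) :
    hZ F C b (Rk.tau (F.pl p)) = C.z (b (Sum.inr p)) := by
  rw [hZ_apply, F.par_tau Rk.toRx b p]

theorem hZ_ne (b : F.I →₀ VV (C.r + 1)) (p : F.sys.P) :
    hZ F C b (Rk.tau (F.pl p)) ≠ 1 ↔ b (Sum.inr p) ≠ 0 := by
  rw [hZ_tau, Ne, C.one_iff]

/-- all homomorphisms with a condition and bounded ramification -/
def Aa (H : (Gm k →* G) → Prop) (Y : ℝ) : Set (Gm k →* G) :=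
  {ρ | IsLocallyConstant ρ ∧ H ρ ∧ ∃ c ∈ F.sys.bx Y, ∀ p, p ∈ c ↔ ρ (Rk.tau (F.pl p)) ≠ 1}

/-- the condition in terms of the unit coordinates and the total type -/
def Qa (H : (Gm k →* G) → Prop) (u : Fin F.sys.m → VV (C.r + 1))
    (t : Fin (C.r + 1) → F.sys.T) : Prop :=
  ∃ b : F.I →₀ VV (C.r + 1), (fun j => b (Sum.inl j)) = u ∧ tot F b = t ∧ H (hZ F C b)

theorem Qa_iff {H : (Gm k →* G) → Prop} (hH : LcS F.S H) (b : F.I →₀ VV (C.r + 1)) :
    Qa F C H (fun j => b (Sum.inl j)) (tot F b) ↔ H (hZ F C b) := by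
  constructor
  · rintro ⟨b', h1, h2, h3⟩
    refine (hH (hZ F C b') (hZ F C b) (hZ_lc F C b') (hZ_lc F C b) fun v hv σ hσ => ?_).1 h3
    rw [hZ_apply, hZ_apply, scLoc k F _ b' v hv σ hσ, scLoc k F _ b v hv σ hσ, h1, h2]
  · intro h
    exact ⟨b, rfl, rfl, h⟩

theorem bq_iff {n : ℕ} {Y : ℝ} (b : F.I →₀ VV n) : b ∈ Bq F n ∅ Y ↔
    ∃ c ∈ F.sys.bx Y, ∀ p, p ∈ c ↔ b (Sum.inr p) ≠ 0 := by
  unfold Bq
  constructor
  · rintro ⟨c, hc, -, h⟩
    exact ⟨c, hc, fun p => h p (Finset.notMem_empty p)⟩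
  · rintro ⟨c, hc, h⟩
    exact ⟨c, hc, Finset.disjoint_empty_right c, fun p _ => h p⟩

theorem Aa_eq {H : (Gm k →* G) → Prop} (hH : LcS F.S H) (Y : ℝ) : Aa F Rk H Y =
    hZ F C '' {b | b ∈ Bq F (C.r + 1) ∅ Y ∧ Qa F C H (fun j => b (Sum.inl j)) (tot F b)} := by
  ext ρ
  constructor
  · rintro ⟨h1, h2, c, hc, h3⟩
    obtain ⟨b, rfl⟩ := hZ_ex F C ρ h1
    refine ⟨b, ⟨(bq_iff F b).2 ⟨c, hc, fun p => ?_⟩, (Qa_iff F C hH b).2 h2⟩, rfl⟩
    rw [h3 p, hZ_ne]
  · rintro ⟨b, ⟨h1, h2⟩, rfl⟩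
    obtain ⟨c, hc, h3⟩ := (bq_iff F b).1 h1
    refine ⟨hZ_lc F C b, (Qa_iff F C hH b).1 h2, c, hc, fun p => ?_⟩
    rw [hZ_ne, h3 p]

open Classical in
/-- the weight of a family of types -/
noncomputable def ga (H : (Gm k →* G) → Prop) (t : RZ (C.r + 1) → F.sys.T) : ℝ :=
  ∑ u : Fin F.sys.m → VV (C.r + 1), if Qa F C H u (tz 0 t) then (1 : ℝ) else 0

open Classical in
theorem Aa_card {H : (Gm k →* G) → Prop} (hH : LcS F.S H) (Y : ℝ) :
    (Aa F Rk H Y).Finite ∧ ((Aa F Rk H Y).ncard : ℝ) = CC ∅ (ga F C H) Y := by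
  obtain ⟨h1, h2⟩ := scNum k F (C.r + 1) ∅ (Qa F C H) Y
  rw [Aa_eq F Rk C hH]
  refine ⟨h1.image _, ?_⟩
  rw [Set.ncard_image_of_injective _ (hZ_inj F C), h2]
  have h3 : asg (S := F.sys) (C.r + 1) ∅ = {0} := by
    ext z
    unfold asg
    rw [Finset.mem_finsupp_iff, Finset.mem_singleton]
    constructor
    · rintro ⟨h4, -⟩
      exact Finsupp.support_eq_empty.1 (Finset.subset_empty.1 h4)
    · rintro rfl
      exact ⟨by rw [Finsupp.support_zero], fun i hi => absurd hi (Finset.notMem_empty i)⟩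
  rw [h3, Finset.sum_singleton]
  rfl

open Classical in
/-- the number of all parameters of bounded norm -/
theorem bq_card (n : ℕ) (Y : ℝ) : (Bq F n ∅ Y).Finite ∧ ((Bq F n ∅ Y).ncard : ℝ) =
    CC (S := F.sys) (ι := RZ n) ∅
      (fun _ => (Fintype.card (Fin F.sys.m → VV n) : ℝ)) Y := by
  obtain ⟨h1, h2⟩ := scNum k F n ∅ (fun _ _ => True) Y
  have h0 : {b | b ∈ Bq F n ∅ Y ∧ True} = Bq F n ∅ Y := by
    ext b
    exact ⟨fun h => h.1, fun h => ⟨h, trivial⟩⟩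
  rw [h0] at h1 h2
  refine ⟨h1, ?_⟩
  rw [h2]
  have h3 : asg (S := F.sys) n ∅ = {0} := by
    ext z
    unfold asg
    rw [Finset.mem_finsupp_iff, Finset.mem_singleton]
    constructor
    · rintro ⟨h4, -⟩
      exact Finsupp.support_eq_empty.1 (Finset.subset_empty.1 h4)
    · rintro rfl
      exact ⟨by rw [Finsupp.support_zero], fun i hi => absurd hi (Finset.notMem_empty i)⟩
  rw [h3, Finset.sum_singleton]
  congr 1
  funext t
  simp only [if_true, Finset.sum_const, Finset.card_univ, nsmul_eq_mul, mul_one]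

/-! ### homomorphisms that are not surjective -/

/-- forgetting one coordinate -/
noncomputable def dc {n : ℕ} (i : Fin (n + 1)) : VV (n + 1) →+ VV n where
  toFun v j := v (i.succAbove j)
  map_zero' := rfl
  map_add' _ _ := rfl

theorem dc_zero {n : ℕ} (i : Fin (n + 1)) (ζ v : VV (n + 1)) (hi : ζ i = 1)
    (hv : ζ ⬝ᵥ v = 0) (h : dc i v = 0) : v = 0 := by
  have h1 : ∀ j, j ≠ i → v j = 0 := by
    intro j hj
    obtain ⟨l, rfl⟩ := Fin.exists_succAbove_eq hj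
    exact congrFun h l
  funext j
  by_cases hj : j = i
  · subst hj
    unfold dotProduct at hv
    rw [Finset.sum_eq_single j (fun l _ hl => by rw [h1 l hl, mul_zero])
      (fun hn => absurd (Finset.mem_univ j) hn), hi, one_mul] at hv
    exact hv
  · exact h1 j hj

/-- the parameters orthogonal to a vector -/
def Or {n : ℕ} (ζ : VV (n + 1)) (Y : ℝ) : Set (F.I →₀ VV (n + 1)) :=
  {b | b ∈ Bq F (n + 1) ∅ Y ∧ ∀ i, ζ ⬝ᵥ b i = 0}

theorem or_card {n : ℕ} (ζ : VV (n + 1)) (hζ : ζ ≠ 0) (Y : ℝ) :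
    (Or F ζ Y).Finite ∧ (Or F ζ Y).ncard ≤ (Bq F n ∅ Y).ncard := by
  obtain ⟨i, hi⟩ : ∃ i, ζ i ≠ 0 := by
    by_contra h
    push Not at h
    exact hζ (funext h)
  have hi1 : ζ i = 1 := by
    have h : ∀ x : ZMod 2, x ≠ 0 → x = 1 := by decide
    exact h _ hi
  have hmap : ∀ b ∈ Or F ζ Y, (Finsupp.mapRange (dc i) (map_zero _) b) ∈ Bq F n ∅ Y := by
    rintro b ⟨hb, ho⟩
    obtain ⟨c, hc, h3⟩ := (bq_iff F b).1 hb
    refine (bq_iff F _).2 ⟨c, hc, fun p => ?_⟩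
    rw [h3 p, Finsupp.mapRange_apply, not_iff_not]
    constructor
    · intro h
      rw [h, map_zero]
    · intro h
      exact dc_zero i ζ _ hi1 (ho _) h
  have hinj : Set.InjOn (fun b : F.I →₀ VV (n + 1) => Finsupp.mapRange (dc i) (map_zero _) b)
      (Or F ζ Y) := by
    rintro b ⟨_, ho⟩ b' ⟨_, ho'⟩ h
    ext1 l
    have h1 : dc i (b l) = dc i (b' l) := DFunLike.congr_fun h l
    have h2 : b l - b' l = 0 := by
      refine dc_zero i ζ _ hi1 ?_ ?_
      · rw [dotProduct_sub, ho, ho', sub_zero]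
      · rw [map_sub, h1, sub_self]
    exact sub_eq_zero.1 h2
  have hf := (bq_card F n Y).1
  exact ⟨Set.Finite.of_injOn (fun b hb => hmap b hb) hinj hf,
    Set.ncard_le_ncard_of_injOn _ hmap hinj hf⟩

theorem nsur (b : F.I →₀ VV (C.r + 1)) (h : ¬ Function.Surjective (hZ F C b)) :
    ∃ ζ : VV (C.r + 1), ζ ≠ 0 ∧ ∀ i, ζ ⬝ᵥ b i = 0 := by
  have h1 : ¬ Function.Surjective (F.par b) := fun hs => h (C.bij.2.comp hs)
  rw [F.par_surj] at h1
  obtain ⟨l, hl, hle⟩ := Submodule.exists_le_ker_of_lt_top _ (lt_top_iff_ne_top.2 h1)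
  have h2 : ∀ v : VV (C.r + 1), l v = (fun i => l (Pi.single i 1)) ⬝ᵥ v := by
    intro v
    conv_lhs => rw [← Finset.univ_sum_single v]
    rw [map_sum]
    unfold dotProduct
    refine Finset.sum_congr rfl fun i _ => ?_
    have h3 : (Pi.single i (v i) : VV (C.r + 1)) = v i • Pi.single i 1 := by
      rw [← Pi.single_smul, smul_eq_mul, mul_one]
    rw [h3, map_smul, smul_eq_mul, mul_comm]
  refine ⟨fun i => l (Pi.single i 1), fun h0 => hl (LinearMap.ext fun v => ?_), fun i => ?_⟩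
  · rw [h2, h0, zero_dotProduct]
    rfl
  · rw [← h2]
    exact hle (Submodule.subset_span ⟨i, rfl⟩)

/-- the surjective homomorphisms -/
def Sa (H : (Gm k →* G) → Prop) (Y : ℝ) : Set (Gm k →* G) :=
  {ρ | Function.Surjective ρ ∧ ρ ∈ Aa F Rk H Y}

open Classical in
theorem Sa_card {H : (Gm k →* G) → Prop} (hH : LcS F.S H) (Y : ℝ) :
    (Sa F Rk H Y).Finite ∧ (Sa F Rk H Y).ncard ≤ (Aa F Rk H Y).ncard ∧
    (Aa F Rk H Y).ncard ≤ (Sa F Rk H Y).ncard +
      (RZ (C.r + 1)).card * (Bq F C.r ∅ Y).ncard := by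
  have hf := (Aa_card F Rk C hH Y).1
  have hsub : Sa F Rk H Y ⊆ Aa F Rk H Y := fun ρ h => h.2
  refine ⟨hf.subset hsub, Set.ncard_le_ncard hsub hf, ?_⟩
  have h1 : Aa F Rk H Y ⊆ Sa F Rk H Y ∪ ⋃ ζ ∈ RZ (C.r + 1), hZ F C '' Or F ζ Y := by
    intro ρ hρ
    by_cases hs : Function.Surjective ρ
    · exact Or.inl ⟨hs, hρ⟩
    · right
      rw [Aa_eq F Rk C hH] at hρ
      obtain ⟨b, ⟨hb, -⟩, rfl⟩ := hρ
      obtain ⟨ζ, hζ, ho⟩ := nsur F C b hs
      simp only [Set.mem_iUnion, exists_prop]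
      exact ⟨ζ, Finset.mem_filter.2 ⟨Finset.mem_univ _, hζ⟩, b, ⟨hb, ho⟩, rfl⟩
  have h2 : (⋃ ζ ∈ RZ (C.r + 1), hZ F C '' Or F ζ Y).Finite := by
    refine Set.Finite.biUnion (Finset.finite_toSet _) fun ζ hζ => ?_
    exact (or_card F ζ (Finset.mem_filter.1 hζ).2 Y).1.image _
  refine (Set.ncard_le_ncard h1 ((hf.subset hsub).union h2)).trans
    ((Set.ncard_union_le _ _).trans (Nat.add_le_add_left ?_ _))
  refine (Finset.set_ncard_biUnion_le _ _).trans ?_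
  refine (Finset.sum_le_card_nsmul _ _ (Bq F C.r ∅ Y).ncard fun ζ hζ => ?_).trans
    (le_of_eq (by rw [smul_eq_mul]))
  rw [Set.ncard_image_of_injective _ (hZ_inj F C)]
  exact (or_card F ζ (Finset.mem_filter.1 hζ).2 Y).2

/-- the limit for a frame -/
theorem Sa_lim (hC : SCc) {H : (Gm k →* G) → Prop} (hH : LcS F.S H) : ∃ L : ℝ, 0 ≤ L ∧
    Tendsto (fun Y : ℝ => ((Sa F Rk H Y).ncard : ℝ) /
      (Y * Real.log Y ^ ((RZ (C.r + 1)).card - 1))) atTop (𝓝 L) ∧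
    ((∃ Y, (Aa F Rk H Y).Nonempty) → 0 < L) := by
  classical
  have := ea_rz_ne C.r
  have hg0 : ∀ t, 0 ≤ ga F C H t := by
    intro t
    unfold ga
    refine Finset.sum_nonneg fun u _ => ?_
    split_ifs
    · exact zero_le_one
    · exact le_rfl
  obtain ⟨L, hL, h1, hp⟩ := ea_limP hC F.sys (RZ (C.r + 1)) (ga F C H) hg0
  refine ⟨L, hL, ?_, ?_⟩
  · rw [Fintype.card_coe] at h1
    have h2 := (ea_neg hC F.sys C.r (Fintype.card (Fin F.sys.m → VV C.r) : ℝ)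
      (Nat.cast_nonneg _)).const_mul ((RZ (C.r + 1)).card : ℝ)
    rw [mul_zero] at h2
    have h3 := h1.sub h2
    rw [sub_zero] at h3
    refine tendsto_of_tendsto_of_tendsto_of_le_of_le' h3 h1 ?_ ?_
    · filter_upwards [eventually_gt_atTop (1 : ℝ)] with Y hY
      have hd : 0 < Y * Real.log Y ^ ((RZ (C.r + 1)).card - 1) :=
        mul_pos (by linarith) (pow_pos (Real.log_pos hY) _)
      obtain ⟨-, -, h4⟩ := Sa_card F Rk C hH Y
      have h5 : ((Aa F Rk H Y).ncard : ℝ) ≤ (Sa F Rk H Y).ncard +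
          (RZ (C.r + 1)).card * (Bq F C.r ∅ Y).ncard := by exact_mod_cast h4
      rw [← (Aa_card F Rk C hH Y).2, ← (bq_card F C.r Y).2, ← mul_div_assoc, ← sub_div]
      refine div_le_div_of_nonneg_right ?_ hd.le
      rw [sub_le_iff_le_add]
      exact h5
    · filter_upwards [eventually_gt_atTop (1 : ℝ)] with Y hY
      have hd : 0 < Y * Real.log Y ^ ((RZ (C.r + 1)).card - 1) :=
        mul_pos (by linarith) (pow_pos (Real.log_pos hY) _)
      obtain ⟨-, h4, -⟩ := Sa_card F Rk C hH Y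
      rw [← (Aa_card F Rk C hH Y).2]
      exact div_le_div_of_nonneg_right (by exact_mod_cast h4) hd.le
  · rintro ⟨Y, hY⟩
    refine hp ?_
    by_contra hn
    have h0 : ∀ t, ga F C H t = 0 := by
      intro t
      by_contra h
      exact hn ⟨t, h⟩
    obtain ⟨h1, h2⟩ := Aa_card F Rk C hH Y
    have h3 : CC ∅ (ga F C H) Y = 0 := by
      unfold CC
      refine Finset.sum_eq_zero fun x _ => ?_
      split_ifs
      · exact h0 _
      · rfl
    rw [h3, Nat.cast_eq_zero, Set.ncard_eq_zero h1] at h2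
    rw [h2] at hY
    exact Set.not_nonempty_empty hY

end

end Pool.Agent.EV
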