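import Pool.Agent.EV.ProdU
import Pool.Agent.H92.EL.DHer

/-!
# Project T4 (MP_a3214d): enlargement of the set of primes in the first inner statement
-/

set_option autoImplicit false

open scoped BigOperators Pointwise Topology
open NumberField IsDedekindDomain Filter

namespace Pool.Agent.EV

open Pool.Agent.H98.MF (Om Gm ord Dec top nrm fld rdN rexp rex)
open Pool.Agent.H92.EL

theorem enl_log (q : ℝ) (hq : 1 ≤ q) :
    Tendsto (fun Y : ℝ => Real.log (Y / q) / Real.log Y) atTop (𝓝 1) := by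
  have hq0 : q ≠ 0 := by linarith
  have h1 : Tendsto (fun Y : ℝ => 1 - Real.log q / Real.log Y) atTop (𝓝 (1 - 0)) :=
    tendsto_const_nhds.sub (tendsto_const_nhds.div_atTop Real.tendsto_log_atTop)
  rw [sub_zero] at h1
  refine h1.congr' ?_
  filter_upwards [eventually_gt_atTop (1 : ℝ)] with Y hY
  have h2 : Real.log Y ≠ 0 := (Real.log_pos hY).ne'
  rw [Real.log_div (by linarith) hq0, sub_div, div_self h2]

/-- rescaling of the variable -/
theorem enl_scale (f : ℝ → ℝ) (n : ℕ) (L q : ℝ) (hq : 1 ≤ q)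
    (h : Tendsto (fun Y : ℝ => f Y / (Y * Real.log Y ^ n)) atTop (𝓝 L)) :
    Tendsto (fun Y : ℝ => f (Y / q) / (Y * Real.log Y ^ n)) atTop (𝓝 (L / q)) := by
  have hq0 : 0 < q := by linarith
  have h1 : Tendsto (fun Y : ℝ => Y / q) atTop atTop := tendsto_id.atTop_div_const hq0
  have h2 := h.comp h1
  have h3 := (h2.mul ((enl_log q hq).pow n)).div_const q
  rw [one_pow, mul_one] at h3
  refine h3.congr' ?_
  filter_upwards [eventually_gt_atTop (1 : ℝ), h1.eventually (eventually_gt_atTop (1 : ℝ))]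
    with Y hY hYq
  have h4 : Real.log Y ≠ 0 := (Real.log_pos hY).ne'
  have h5 : Real.log (Y / q) ≠ 0 := (Real.log_pos hYq).ne'
  have h6 : Y ≠ 0 := by linarith
  change f (Y / q) / (Y / q * Real.log (Y / q) ^ n) * (Real.log (Y / q) / Real.log Y) ^ n / q = _
  rw [div_pow]
  field_simp

section

variable {k : Type} [Field k] [NumberField k]

open Classical in
/-- the ramified primes of a larger set -/
theorem enl_nO (T : TM k) {G : Type} [Group G] (S S1 E : Finset (HeightOneSpectrum (𝓞 k)))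
    (hSS : S ⊆ S1) (ρ : Gm k →* G)
    (hf : {P | P ∉ S ∧ ρ (T.tau P) ≠ 1}.Finite)
    (hE : ∀ P, P ∈ E ↔ (P ∈ S1 \ S ∧ ρ (T.tau P) ≠ 1)) :
    nO T S ρ = (∏ P ∈ E, nrm P) * nO T S1 ρ := by
  have hf1 : {P | P ∉ S1 ∧ ρ (T.tau P) ≠ 1}.Finite :=
    hf.subset fun P hP => ⟨fun h => hP.1 (hSS h), hP.2⟩
  unfold nO
  rw [finprod_mem_eq_finite_toFinset_prod _ hf, finprod_mem_eq_finite_toFinset_prod _ hf1,
    ← Finset.prod_union]
  · congr 1
    ext P
    rw [Set.Finite.mem_toFinset, Finset.mem_union, Set.Finite.mem_toFinset, hE,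
      Finset.mem_sdiff]
    constructor
    · rintro ⟨h1, h2⟩
      by_cases h3 : P ∈ S1
      · exact Or.inl ⟨⟨h3, h1⟩, h2⟩
      · exact Or.inr ⟨h3, h2⟩
    · rintro (⟨⟨h1, h2⟩, h3⟩ | ⟨h1, h2⟩)
      · exact ⟨h2, h3⟩
      · exact ⟨fun h => h1 (hSS h), h2⟩
  · rw [Finset.disjoint_left]
    intro P hP hP'
    rw [Set.Finite.mem_toFinset] at hP'
    exact hP'.1 (Finset.mem_sdiff.1 ((hE P).1 hP).1).1

open Classical in
/-- it is enough to prove the first inner statement for large sets of primes -/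
theorem innF_enl (T : TM k) (G : Type) [Group G] (l b : ℕ) (hG : Hyp l G) (hz : ZDis)
    (hs : SHer)
    (h : ∀ ρ0 : Gm k →* G, IsLocallyConstant ρ0 → ∀ S : Finset (HeightOneSpectrum (𝓞 k)),
      ∃ S1 : Finset (HeightOneSpectrum (𝓞 k)), S ⊆ S1 ∧ Ctn S1 (Nat.card G) ∧
        ∀ H : (Gm k →* G) → Prop, HLo S1 H → ∃ L : ℝ, 0 ≤ L ∧
          Tendsto (fun Y : ℝ => ((HI T l ρ0 H S1 Y).ncard : ℝ) /
            (Y * Real.log Y ^ (b - 1))) atTop (𝓝 L) ∧
          ((∃ Y, (HI T l ρ0 H S1 Y).Nonempty) → 0 < L)) : InnF T G l b := by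
  intro ρ0 h0 S hS H hH
  obtain ⟨S1, hSS, hS1, h1⟩ := h ρ0 h0 S
  set D : Finset (HeightOneSpectrum (𝓞 k)) := S1 \ S with hD
  let HE : Finset (HeightOneSpectrum (𝓞 k)) → (Gm k →* G) → Prop := fun E ρ =>
    H ρ ∧ (∀ P ∈ D, ρ (T.tau P) ^ l = 1) ∧ ∀ P ∈ D, (P ∈ E ↔ ρ (T.tau P) ≠ 1)
  have hHE : ∀ E, HLo S1 (HE E) := by
    intro E ρ ρ' h2 ⟨h3, h4, h5⟩
    have h6 : ∀ P ∈ D, ρ (T.tau P) = ρ' (T.tau P) := fun P hP =>
      h2 P (Finset.mem_sdiff.1 hP).1 _ (T.tm P).decτ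
    refine ⟨hH ρ ρ' (fun P hP => h2 P (hSS hP)) h3, fun P hP => ?_, fun P hP => ?_⟩
    · rw [← h6 P hP]
      exact h4 P hP
    · rw [← h6 P hP]
      exact h5 P hP
  choose L hL hl hp using fun E => h1 (HE E) (hHE E)
  let q : Finset (HeightOneSpectrum (𝓞 k)) → ℕ := fun E => ∏ P ∈ E, nrm P
  have hq : ∀ E, 1 ≤ (q E : ℝ) := fun E => by
    have h2 : 0 < q E := Finset.prod_pos fun P _ => d6h_nrm_pos P
    exact_mod_cast h2
  have hfinE : ∀ E Y, (HI T l ρ0 (HE E) S1 Y).Finite := fun E Y => by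
    refine (prd_bdd T G l hG hz hs S1 hS1 Y).subset ?_
    rintro ρ ⟨h2, -, -, -, h3⟩
    exact ⟨h2, h3⟩
  obtain ⟨hz1, -⟩ := hz k T G l hG S hS
  have hun : ∀ Y : ℝ, HI T l ρ0 H S Y = ⋃ E ∈ D.powerset, HI T l ρ0 (HE E) S1 (Y / q E) := by
    intro Y
    ext ρ
    rw [Set.mem_iUnion₂]
    constructor
    · rintro ⟨h2, h3, h4, h5, h6⟩
      obtain ⟨-, hf, -⟩ := hz1 ρ h2
      refine ⟨D.filter fun P => ρ (T.tau P) ≠ 1, ?_, h2, h3, ⟨h4, ?_, ?_⟩, ?_, ?_⟩
      · exact Finset.mem_powerset.2 (Finset.filter_subset _ _)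
      · intro P hP
        exact h5 P (Finset.mem_sdiff.1 hP).2
      · intro P hP
        rw [Finset.mem_filter]
        exact ⟨fun h7 => h7.2, fun h7 => ⟨hP, h7⟩⟩
      · intro P hP
        exact h5 P fun h7 => hP (hSS h7)
      · rw [le_div_iff₀ (by linarith [hq (D.filter fun P => ρ (T.tau P) ≠ 1)])]
        have h7 := enl_nO T S S1 (D.filter fun P => ρ (T.tau P) ≠ 1) hSS ρ hf fun P => by
          rw [Finset.mem_filter, hD]
        rw [h7, Nat.cast_mul] at h6
        rw [mul_comm]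
        exact h6
    · rintro ⟨E, hE, h2, h3, ⟨h4, h5, h6⟩, h7, h8⟩
      obtain ⟨-, hf, -⟩ := hz1 ρ h2
      refine ⟨h2, h3, h4, ?_, ?_⟩
      · intro P hP
        by_cases h9 : P ∈ S1
        · exact h5 P (Finset.mem_sdiff.2 ⟨h9, hP⟩)
        · exact h7 P h9
      · have h9 := enl_nO T S S1 E hSS ρ hf fun P => by
          constructor
          · intro h10
            have h11 : P ∈ D := Finset.mem_powerset.1 hE h10
            exact ⟨h11, (h6 P h11).1 h10⟩
          · rintro ⟨h10, h11⟩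
            exact (h6 P h10).2 h11
        rw [h9, Nat.cast_mul]
        rw [le_div_iff₀ (by linarith [hq E])] at h8
        rw [mul_comm]
        exact h8
  have hcard : ∀ Y : ℝ, ((HI T l ρ0 H S Y).ncard : ℝ) =
      ∑ E ∈ D.powerset, ((HI T l ρ0 (HE E) S1 (Y / q E)).ncard : ℝ) := by
    intro Y
    have h2 : (HI T l ρ0 H S Y).ncard =
        ∑ E ∈ D.powerset, (HI T l ρ0 (HE E) S1 (Y / q E)).ncard := by
      rw [hun Y]
      have h3 : (⋃ E ∈ D.powerset, HI T l ρ0 (HE E) S1 (Y / q E)) =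
          ((D.powerset.biUnion fun E => (hfinE E (Y / q E)).toFinset :
            Finset (Gm k →* G)) : Set (Gm k →* G)) := by
        ext ρ
        simp only [Set.mem_iUnion, Finset.coe_biUnion, Set.Finite.coe_toFinset, Finset.mem_coe]
      rw [h3, Set.ncard_coe_finset, Finset.card_biUnion]
      · exact Finset.sum_congr rfl fun E _ =>
          (Set.ncard_eq_toFinset_card _ (hfinE E (Y / q E))).symm
      · intro E hE E' hE' hne
        rw [Function.onFun, Finset.disjoint_left]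
        intro ρ hρ hρ'
        rw [Set.Finite.mem_toFinset] at hρ hρ'
        obtain ⟨-, -, ⟨-, -, h5⟩, -, -⟩ := hρ
        obtain ⟨-, -, ⟨-, -, h6⟩, -, -⟩ := hρ'
        refine hne (Finset.ext fun P => ?_)
        constructor
        · intro h7
          have h8 : P ∈ D := Finset.mem_powerset.1 hE h7
          exact (h6 P h8).2 ((h5 P h8).1 h7)
        · intro h7
          have h8 : P ∈ D := Finset.mem_powerset.1 hE' h7
          exact (h5 P h8).2 ((h6 P h8).1 h7)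
    rw [h2, Nat.cast_sum]
  refine ⟨∑ E ∈ D.powerset, L E / q E, ?_, ?_, ?_⟩
  · exact Finset.sum_nonneg fun E _ => div_nonneg (hL E) (by linarith [hq E])
  · have h2 := tendsto_finsetSum (D.powerset) fun E _ =>
      enl_scale _ (b - 1) (L E) (q E) (hq E) (hl E)
    refine h2.congr fun Y => ?_
    rw [hcard Y, Finset.sum_div]
  · rintro ⟨Y, ρ, hρ⟩
    rw [hun Y, Set.mem_iUnion₂] at hρ
    obtain ⟨E, hE, h2⟩ := hρ
    have h3 : 0 < L E := hp E ⟨_, ρ, h2⟩
    have h4 : 0 < L E / q E := div_pos h3 (by linarith [hq E])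
    exact lt_of_lt_of_le h4 (Finset.single_le_sum (f := fun E => L E / (q E : ℝ))
      (fun E _ => div_nonneg (hL E) (by linarith [hq E])) hE)

end

end Pool.Agent.EV
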