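import Pool.Agent.EV.AStm

/-!
# Project T4 (MP_a3214d), even order, row G2: the number of classes of involutions
-/

set_option autoImplicit false

open scoped BigOperators

namespace Pool.Agent.EV

open Pool.Agent.H92.EL (Om1 Ncl)

/-- The annihilator of a subspace has the size of the quotient. -/
private theorem gb_perp (s : ℕ) (W : Submodule (ZMod 2) (Fin s → ZMod 2)) :
    Nat.card ((Fin s → ZMod 2) ⧸ W) =
      Nat.card {x : Fin s → ZMod 2 // ∀ y ∈ W, x ⬝ᵥ y = 0} := by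
  have e1 : {x : Fin s → ZMod 2 // ∀ y ∈ W, x ⬝ᵥ y = 0} ≃ W.dualAnnihilator :=
    (dotProductEquiv (ZMod 2) (Fin s)).toEquiv.subtypeEquiv fun x => by
      rw [Submodule.mem_dualAnnihilator]
      rfl
  have e2 : Module.Dual (ZMod 2) ((Fin s → ZMod 2) ⧸ W) ≃ W.dualAnnihilator :=
    (W.dualQuotEquivDualAnnihilator).toEquiv
  rw [Nat.card_congr e1, ← Nat.card_congr e2,
    Module.natCard_eq_pow_finrank (K := ZMod 2) (V := ((Fin s → ZMod 2) ⧸ W)),
    Module.natCard_eq_pow_finrank (K := ZMod 2)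
      (V := Module.Dual (ZMod 2) ((Fin s → ZMod 2) ⧸ W)),
    Subspace.dual_finrank_eq]

section

variable {G : Type} [Group G] (D : GD G)

/-- the commutators with `v` -/
private def gbC (v : VV D.d) : Submodule (ZMod 2) (VV D.n) where
  carrier := {x | ∃ g, D.c g v = x}
  zero_mem' := ⟨1, D.c_one v⟩
  add_mem' := by
    rintro _ _ ⟨g, rfl⟩ ⟨h, rfl⟩
    exact ⟨g * h, D.c_mul g h v⟩
  smul_mem' := by
    rintro t _ ⟨g, rfl⟩
    have ht : t = 0 ∨ t = 1 := by
      revert t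
      decide
    rcases ht with rfl | rfl
    · exact ⟨1, by rw [D.c_one, zero_smul]⟩
    · exact ⟨g, by rw [one_smul]⟩

private theorem mem_gbC {v : VV D.d} {x : VV D.n} : x ∈ gbC D v ↔ ∃ g, D.c g v = x := Iff.rfl

private theorem gb_card (v : VV D.d) :
    Nat.card (VV D.n ⧸ gbC D v) = Nat.card {ζ : VV D.n // ∀ g, ζ ⬝ᵥ D.c g v = 0} := by
  rw [gb_perp]
  refine Nat.card_congr (Equiv.subtypeEquivRight fun ζ => ?_)
  constructor
  · intro h g
    exact h _ ⟨g, rfl⟩
  · rintro h _ ⟨g, rfl⟩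
    exact h g

private theorem gb_card_zero : Nat.card (VV D.n ⧸ gbC D 0) = 2 ^ D.n := by
  rw [gb_card]
  have e : {ζ : VV D.n // ∀ g, ζ ⬝ᵥ D.c g 0 = 0} ≃ VV D.n :=
    Equiv.subtypeUnivEquiv fun ζ g => by rw [D.c_zero, dotProduct_zero]
  rw [Nat.card_congr e, Nat.card_eq_fintype_card, Fintype.card_fun, ZMod.card, Fintype.card_fin]

private theorem gb_conj (g : G) (v : VV D.d) (x : VV D.n) :
    g⁻¹ * (D.s v * D.zz x) * g = D.s v * D.zz (D.c g v + x) := by
  have h1 : D.s v * D.zz x * g = g * (D.s v * D.zz (D.c g v + x)) := by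
    rw [mul_assoc, D.zz_cen, ← mul_assoc, D.com g v, D.zz_add]
    simp only [mul_assoc]
  rw [mul_assoc, h1, inv_mul_cancel_left]

private theorem gb_mk {v w : VV D.d} {x y : VV D.n} :
    ConjClasses.mk (D.s v * D.zz x) = ConjClasses.mk (D.s w * D.zz y) ↔
      v = w ∧ x - y ∈ gbC D v := by
  rw [ConjClasses.mk_eq_mk_iff_isConj, isConj_iff]
  constructor
  · rintro ⟨c, hc⟩
    have h1 := gb_conj D c⁻¹ v x
    rw [inv_inv, hc] at h1
    obtain ⟨h2, h3⟩ := D.sz_inj h1
    refine ⟨h2.symm, (mem_gbC D).2 ⟨c⁻¹, ?_⟩⟩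
    rw [h3]
    have h4 := GD.two_V (D.c c⁻¹ v)
    have h5 : D.c c⁻¹ v = -D.c c⁻¹ v := eq_neg_of_add_eq_zero_left h4
    rw [sub_add_eq_sub_sub, sub_right_comm, sub_self, zero_sub]
    exact h5
  · rintro ⟨rfl, h⟩
    obtain ⟨g, hg⟩ := (mem_gbC D).1 h
    refine ⟨g⁻¹, ?_⟩
    rw [inv_inv, gb_conj D g v x, hg]
    congr 2
    have h4 := GD.two_V x
    calc x - y + x = (x + x) - y := by abel
      _ = -y := by rw [h4, zero_sub]
      _ = y := (eq_neg_of_add_eq_zero_left (GD.two_V y)).symm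

/-- the classes of the elements with square one -/
private def gbX (G : Type) [Group G] : Set (ConjClasses G) :=
  {c | ∃ g : G, ConjClasses.mk g = c ∧ g ^ 2 = 1}

private theorem gbX_eq : gbX G = insert (ConjClasses.mk 1)
    {c | ∃ g : G, ConjClasses.mk g = c ∧ orderOf g = 2} := by
  ext c
  constructor
  · rintro ⟨g, rfl, hg⟩
    by_cases h : g = 1
    · left
      rw [h]
    · right
      exact ⟨g, rfl, orderOf_eq_prime hg h⟩
  · rintro (rfl | ⟨g, rfl, hg⟩)
    · exact ⟨1, rfl, one_pow _⟩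
    · exact ⟨g, rfl, by rw [← hg, pow_orderOf_eq_one]⟩

private theorem gb_one_notMem :
    ConjClasses.mk (1 : G) ∉ {c | ∃ g : G, ConjClasses.mk g = c ∧ orderOf g = 2} := by
  rintro ⟨g, h1, h2⟩
  rw [ConjClasses.mk_eq_mk_iff_isConj, isConj_iff] at h1
  obtain ⟨c, hc⟩ := h1
  have h3 : g = 1 := by
    have h4 : c * g = c := by
      have := congrArg (· * c) hc
      simpa using this
    exact mul_eq_left.1 h4
  rw [h3, orderOf_one] at h2
  omega

private theorem gb_b [Finite G] : D.b + 1 = (gbX G).ncard := by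
  rw [gbX_eq, Set.ncard_insert_of_notMem gb_one_notMem (Set.toFinite _)]
  rfl

/-- the map from the parameters to the classes -/
private noncomputable def gbF : (Σ v : {v : VV D.d // D.β v v = 0}, VV D.n ⧸ gbC D v.1) →
    ConjClasses G := fun t => ConjClasses.mk (D.s t.1.1 * D.zz (Quotient.out t.2))

private theorem gb_out (v : VV D.d) (q : VV D.n ⧸ gbC D v) :
    Submodule.Quotient.mk (p := gbC D v) (Quotient.out q) = q := Quotient.out_eq q

private theorem gbF_inj : Function.Injective (gbF D) := by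
  rintro ⟨⟨v, hv⟩, q⟩ ⟨⟨w, hw⟩, r⟩ h
  obtain ⟨h1, h2⟩ := (gb_mk D).1 h
  simp only at h1 h2
  subst h1
  congr 1
  rw [← gb_out D v q, ← gb_out D v r]
  exact (Submodule.Quotient.eq _).2 h2

private theorem gbF_range : Set.range (gbF D) = gbX G := by
  ext c
  constructor
  · rintro ⟨⟨⟨v, hv⟩, q⟩, rfl⟩
    exact ⟨_, rfl, (D.sz_sq_eq_one v _).2 hv⟩
  · rintro ⟨g, rfl, hg⟩
    have h1 : g ∈ Om1 2 G := Subgroup.subset_closure hg
    obtain ⟨v, x, rfl⟩ := (D.mem g).1 h1
    refine ⟨⟨⟨v, (D.sz_sq_eq_one v x).1 hg⟩, Submodule.Quotient.mk x⟩, ?_⟩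
    refine (gb_mk D).2 ⟨rfl, ?_⟩
    rw [← Submodule.Quotient.eq]
    exact gb_out D v _

end

/-- Row G2: the number of classes of involutions. -/
theorem sgB : SgB := by
  classical
  intro G _ _ D
  rw [gb_b D, ← gbF_range D, ← Nat.card_coe_set_eq,
    ← Nat.card_congr (Equiv.ofInjective _ (gbF_inj D)), Nat.card_sigma]
  have h0 : (0 : VV D.d) ∉ D.R := by
    rw [D.mem_R]
    exact fun h => h.1 rfl
  have h1 : ∀ v : VV D.d, v ∈ insert 0 D.R ↔ D.β v v = 0 := by
    intro v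
    rw [Finset.mem_insert, D.mem_R]
    constructor
    · rintro (rfl | h)
      · rw [map_zero]
      · exact h.2
    · intro h
      by_cases hv : v = 0
      · exact Or.inl hv
      · exact Or.inr ⟨hv, h⟩
  rw [← Finset.sum_subtype (insert 0 D.R) h1 fun v => Nat.card (VV D.n ⧸ gbC D v),
    Finset.sum_insert h0, gb_card_zero]
  congr 1
  exact Finset.sum_congr rfl fun v _ => gb_card D v

end Pool.Agent.EV
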