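import Pool.Agent.EV.Main
import Pool.Agent.H92.EL.OddFin

/-!
# Project T4 (MP_a3214d): the two inner statements for all primes
-/

set_option autoImplicit false

namespace Pool.Agent.EV

open Pool.Agent.H92.EL (TM Ncl Zt InnF InnU Hyp Inn)

/-- the two inner statements for the prime two -/
theorem inn_even2 : Inn 2 := by
  intro k _ _ T G _ b hG hZ hb
  rw [enil_cyc k, mul_one] at hb
  rw [hb]
  exact inn_all k T G hG hZ

/-- the two inner statements for all primes -/
theorem inn_prime (l : ℕ) (hl : l.Prime) : Inn l := by
  by_cases h : l = 2
  · subst h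
    exact inn_even2
  · exact Pool.Agent.H92.EL.inn_odd l hl h

end Pool.Agent.EV
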