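import Pool.Agent.EV.AEnd
import Pool.Agent.EV.BOk
import Pool.Agent.EV.EAb
import Pool.Agent.EV.AFin
import Pool.Agent.EV.ENil
import Pool.Agent.EV.CAll
import Pool.Agent.EV.UEnd
import Pool.Agent.H92.EL.ZDis
import Pool.Agent.H92.EL.DDis
import Pool.Agent.H92.EL.DHer
import Pool.Agent.H92.EL.DLoc
import Pool.Agent.H92.EL.DRel

/-!
# Project T4 (MP_a3214d), even order: the two inner statements
-/

set_option autoImplicit false

open scoped BigOperators Topology
open NumberField IsDedekindDomain Filter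

namespace Pool.Agent.EV

open Pool.Agent.H98.MF
open Pool.Agent.H92.EL (TM Ncl Zt InnF InnU Hyp)

/-- the two inner statements for nilpotent groups of even order -/
theorem inn_all (k : Type) [Field k] [NumberField k] (T : TM k)
    (G : Type) [Group G] (hG : Hyp 2 G) (hZ : Zt 2 G) :
    InnF T G 2 (Nat.card (Ncl 2 G)) ∧ InnU T G 2 (Nat.card (Ncl 2 G)) :=
  inn_even sgD (seF2_of sbOk all_fix) (seAb all_cc) (fun k _ _ => sinnU_of all_unf all_cc k)
    (seNil (Pool.Agent.H92.EL.zdis
      (Pool.Agent.H92.EL.sprodT Pool.Agent.H92.EL.sdisT) Pool.Agent.H92.EL.sexp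
      Pool.Agent.H92.EL.sdisT) (Pool.Agent.H92.EL.sher Pool.Agent.H92.EL.sbdT)) k T G hG hZ

end Pool.Agent.EV
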