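import Pool.Agent.H92.EL.ZStm
import Pool.Agent.H92.EL.DOut

/-!
# Project T4 (MP_a3214d): the inner statements for a product with a group of order prime to `l`
-/

set_option autoImplicit false

open scoped BigOperators Pointwise Topology
open NumberField IsDedekindDomain Filter

namespace Pool.Agent.EV

open Pool.Agent.H98.MF (Om Gm ord Dec top nrm fld rdN rexp rex)
open Pool.Agent.H92.EL

section

variable {A B G : Type} [Group A] [Group B] [Group G] (e : G ≃* A × B) {l : ℕ}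

theorem prd_one [Finite B] (hB : Nat.Coprime l (Nat.card B)) {c : B} (h : c ^ l = 1) : c = 1 := by
  have h1 : orderOf c ∣ l := orderOf_dvd_of_pow_eq_one h
  have h2 : orderOf c ∣ Nat.card B := orderOf_dvd_natCard c
  exact orderOf_eq_one_iff.1 (Nat.eq_one_of_dvd_coprimes hB h1 h2)

theorem prd_pow [Finite B] (hB : Nat.Coprime l (Nat.card B)) (g : G) :
    g ^ l = 1 ↔ (e g).1 ^ l = 1 ∧ (e g).2 = 1 := by
  constructor
  · intro h
    have h1 : (e g) ^ l = 1 := by rw [← map_pow, h, map_one]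
    have h2 := congrArg Prod.fst h1
    have h3 := congrArg Prod.snd h1
    rw [Prod.pow_fst, Prod.fst_one] at h2
    rw [Prod.pow_snd, Prod.snd_one] at h3
    exact ⟨h2, prd_one hB h3⟩
  · rintro ⟨h1, h2⟩
    refine e.injective ?_
    rw [map_pow, map_one]
    refine Prod.ext ?_ ?_
    · rw [Prod.pow_fst, Prod.fst_one, h1]
    · rw [Prod.pow_snd, Prod.snd_one, h2, one_pow]

theorem prd_om [Finite B] (hB : Nat.Coprime l (Nat.card B)) (g : G) :
    g ∈ Om1 l G ↔ (e g).1 ∈ Om1 l A ∧ (e g).2 = 1 := by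
  have h1 : Om1 l G = (Om1 l A).map (e.symm.toMonoidHom.comp (MonoidHom.inl A B)) := by
    unfold Om1
    rw [MonoidHom.map_closure]
    congr 1
    ext g
    constructor
    · intro hg
      obtain ⟨h2, h3⟩ := (prd_pow e hB g).1 hg
      refine ⟨(e g).1, h2, ?_⟩
      change e.symm ((e g).1, 1) = g
      rw [← h3]
      exact e.symm_apply_apply g
    · rintro ⟨a, ha, rfl⟩
      have ha' : a ^ l = 1 := ha
      refine (prd_pow e hB _).2 ?_
      change (e (e.symm (a, 1))).1 ^ l = 1 ∧ (e (e.symm (a, 1))).2 = 1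
      rw [e.apply_symm_apply]
      exact ⟨ha', rfl⟩
  rw [h1, Subgroup.mem_map]
  constructor
  · rintro ⟨a, ha, rfl⟩
    change (e (e.symm (a, 1))).1 ∈ Om1 l A ∧ (e (e.symm (a, 1))).2 = 1
    rw [e.apply_symm_apply]
    exact ⟨ha, rfl⟩
  · rintro ⟨h2, h3⟩
    refine ⟨(e g).1, h2, ?_⟩
    change e.symm ((e g).1, 1) = g
    rw [← h3]
    exact e.symm_apply_apply g

variable {Γ : Type} [Group Γ]

/-- the first component -/
def fA (ρ : Γ →* G) : Γ →* A := (MonoidHom.fst A B).comp (e.toMonoidHom.comp ρ)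

/-- the second component -/
def fB (ρ : Γ →* G) : Γ →* B := (MonoidHom.snd A B).comp (e.toMonoidHom.comp ρ)

/-- the homomorphism with given components -/
def mkAB (α : Γ →* A) (β : Γ →* B) : Γ →* G := e.symm.toMonoidHom.comp (α.prod β)

theorem fA_apply (ρ : Γ →* G) (s : Γ) : fA e ρ s = (e (ρ s)).1 := rfl

theorem fB_apply (ρ : Γ →* G) (s : Γ) : fB e ρ s = (e (ρ s)).2 := rfl

theorem mkAB_apply (α : Γ →* A) (β : Γ →* B) (s : Γ) : mkAB e α β s = e.symm (α s, β s) := rfl

theorem fA_mk (α : Γ →* A) (β : Γ →* B) : fA e (mkAB e α β) = α := by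
  ext s
  rw [fA_apply, mkAB_apply, e.apply_symm_apply]

theorem fB_mk (α : Γ →* A) (β : Γ →* B) : fB e (mkAB e α β) = β := by
  ext s
  rw [fB_apply, mkAB_apply, e.apply_symm_apply]

theorem mk_f (ρ : Γ →* G) : mkAB e (fA e ρ) (fB e ρ) = ρ := by
  ext s
  rw [mkAB_apply]
  exact e.symm_apply_apply _

theorem prd_surj [Finite A] [Finite B] (hAB : Nat.Coprime (Nat.card A) (Nat.card B))
    (ρ : Γ →* G) : Function.Surjective ρ ↔
      Function.Surjective (fA e ρ) ∧ Function.Surjective (fB e ρ) := by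
  constructor
  · intro h
    constructor
    · intro a
      obtain ⟨s, hs⟩ := h (e.symm (a, 1))
      refine ⟨s, ?_⟩
      rw [fA_apply, hs, e.apply_symm_apply]
    · intro b
      obtain ⟨s, hs⟩ := h (e.symm (1, b))
      refine ⟨s, ?_⟩
      rw [fB_apply, hs, e.apply_symm_apply]
  · rintro ⟨h1, h2⟩
    have hfin : Finite G := Finite.of_equiv _ e.toEquiv.symm
    have h3 : Nat.card A ∣ Nat.card ρ.range := by
      refine Subgroup.card_dvd_of_surjective
        ((MonoidHom.fst A B).comp (e.toMonoidHom.comp ρ.range.subtype)) ?_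
      intro a
      obtain ⟨s, hs⟩ := h1 a
      exact ⟨⟨ρ s, s, rfl⟩, hs⟩
    have h4 : Nat.card B ∣ Nat.card ρ.range := by
      refine Subgroup.card_dvd_of_surjective
        ((MonoidHom.snd A B).comp (e.toMonoidHom.comp ρ.range.subtype)) ?_
      intro b
      obtain ⟨s, hs⟩ := h2 b
      exact ⟨⟨ρ s, s, rfl⟩, hs⟩
    have h5 : Nat.card A * Nat.card B ∣ Nat.card ρ.range := hAB.mul_dvd_of_dvd_of_dvd h3 h4
    have h6 : Nat.card G = Nat.card A * Nat.card B := by
      rw [Nat.card_congr e.toEquiv, Nat.card_prod]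
    have h7 : Nat.card ρ.range = Nat.card G :=
      Nat.dvd_antisymm (Subgroup.card_subgroup_dvd_card _) (h6 ▸ h5)
    exact MonoidHom.range_eq_top.1 (Subgroup.eq_top_of_card_eq _ h7)

end

section

variable {A B G : Type} [Group A] [Group B] [Group G] (e : G ≃* A × B) {l : ℕ}
variable {k : Type} [Field k] [NumberField k]

theorem prd_lc (ρ : Gm k →* G) : IsLocallyConstant ρ ↔
    IsLocallyConstant (fA e ρ) ∧ IsLocallyConstant (fB e ρ) := by
  constructor
  · intro h
    exact ⟨h.comp (fun g => (e g).1), h.comp (fun g => (e g).2)⟩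
  · rintro ⟨h1, h2⟩
    have h3 : IsLocallyConstant (fun s => (fA e ρ s, fB e ρ s)) := h1.prodMk h2
    have h4 := h3.comp (fun x => e.symm x)
    have h5 : (fun x => e.symm x) ∘ (fun s => (fA e ρ s, fB e ρ s)) = ρ := by
      funext s
      exact e.symm_apply_apply _
    rw [h5] at h4
    exact h4

theorem prd_Hk [Finite A] [Finite B] (hAB : Nat.Coprime (Nat.card A) (Nat.card B))
    (ρ : Gm k →* G) : ρ ∈ Hk k G ↔ fA e ρ ∈ Hk k A ∧ fB e ρ ∈ Hk k B := by
  unfold Hk
  rw [Set.mem_ofPred_eq, Set.mem_ofPred_eq, Set.mem_ofPred_eq, prd_surj e hAB, prd_lc e]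
  tauto

theorem prd_Cg [Finite B] (hB : Nat.Coprime l (Nat.card B)) (ρ ρ0 : Gm k →* G) :
    Cg l ρ ρ0 ↔ Cg l (fA e ρ) (fA e ρ0) ∧ fB e ρ = fB e ρ0 := by
  unfold Cg
  constructor
  · intro h
    refine ⟨fun s => ?_, ?_⟩
    · have h1 := ((prd_om e hB _).1 (h s)).1
      rw [map_mul, map_inv, Prod.fst_mul, Prod.fst_inv] at h1
      exact h1
    · ext s
      have h1 := ((prd_om e hB _).1 (h s)).2
      rw [map_mul, map_inv, Prod.snd_mul, Prod.snd_inv] at h1
      exact mul_inv_eq_one.1 h1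
  · rintro ⟨h1, h2⟩ s
    refine (prd_om e hB _).2 ?_
    rw [map_mul, map_inv, Prod.fst_mul, Prod.fst_inv, Prod.snd_mul, Prod.snd_inv]
    refine ⟨h1 s, ?_⟩
    have h3 := DFunLike.congr_fun h2 s
    rw [fB_apply, fB_apply] at h3
    rw [h3, mul_inv_cancel]

theorem prd_ne (ρ : Gm k →* G) (s : Gm k) (h : fB e ρ s = 1) : ρ s ≠ 1 ↔ fA e ρ s ≠ 1 := by
  rw [not_iff_not]
  constructor
  · intro h1
    rw [fA_apply, h1, map_one]
    rfl
  · intro h1
    refine e.injective ?_
    rw [map_one]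
    exact Prod.ext h1 h

theorem prd_nO (T : TM k) (S : Finset (HeightOneSpectrum (𝓞 k))) (ρ : Gm k →* G)
    (h : ∀ P, P ∉ S → fB e ρ (T.tau P) = 1) : nO T S ρ = nO T S (fA e ρ) := by
  unfold nO
  have h1 : {P : HeightOneSpectrum (𝓞 k) | P ∉ S ∧ ρ (T.tau P) ≠ 1} =
      {P : HeightOneSpectrum (𝓞 k) | P ∉ S ∧ fA e ρ (T.tau P) ≠ 1} := by
    ext P
    rw [Set.mem_ofPred_eq, Set.mem_ofPred_eq]
    constructor
    · rintro ⟨h2, h3⟩
      exact ⟨h2, (prd_ne e ρ _ (h P h2)).1 h3⟩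
    · rintro ⟨h2, h3⟩
      exact ⟨h2, (prd_ne e ρ _ (h P h2)).2 h3⟩
  rw [h1]

include e in
/-- the first inner statement for a product -/
theorem innF_prod (T : TM k) [Finite A] [Finite B]
    (hAB : Nat.Coprime (Nat.card A) (Nat.card B)) (hB : Nat.Coprime l (Nat.card B)) {b : ℕ}
    (h : InnF T A l b) : InnF T G l b := by
  intro ρ0 h0 S hS H hH
  have hcard : Nat.card G = Nat.card A * Nat.card B := by
    rw [Nat.card_congr e.toEquiv, Nat.card_prod]
  have hSA : Ctn S (Nat.card A) := fun P hP =>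
    Nat.Coprime.coprime_dvd_left ⟨_, hcard⟩ (hS P hP)
  by_cases hc : Function.Surjective (fB e ρ0) ∧ ∀ P, P ∉ S → fB e ρ0 (T.tau P) = 1
  · obtain ⟨hc1, hc2⟩ := hc
    have hlc := (prd_lc e ρ0).1 h0
    have hH' : HLo S (fun α : Gm k →* A => H (mkAB e α (fB e ρ0))) := by
      intro α α' h1 h2
      refine hH _ _ (fun P hP s hs => ?_) h2
      rw [mkAB_apply, mkAB_apply, h1 P hP s hs]
    obtain ⟨L, hL, hl, hp⟩ := h (fA e ρ0) hlc.1 S hSA _ hH'
    have himg : ∀ Y : ℝ, HI T l ρ0 H S Y = (fun α : Gm k →* A => mkAB e α (fB e ρ0)) ''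
        HI T l (fA e ρ0) (fun α : Gm k →* A => H (mkAB e α (fB e ρ0))) S Y := by
      intro Y
      ext ρ
      constructor
      · rintro ⟨h1, h2, h3, h4, h5⟩
        obtain ⟨h6, h7⟩ := (prd_Cg e hB _ _).1 h2
        have h8 : mkAB e (fA e ρ) (fB e ρ0) = ρ := by rw [← h7, mk_f]
        refine ⟨fA e ρ, ⟨((prd_Hk e hAB _).1 h1).1, h6, ?_, ?_, ?_⟩, h8⟩
        · change H (mkAB e (fA e ρ) (fB e ρ0))
          rw [h8]
          exact h3
        · intro P hP
          exact ((prd_pow e hB _).1 (h4 P hP)).1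
        · rw [← prd_nO e T S ρ (fun P hP => by rw [h7]; exact hc2 P hP)]
          exact h5
      · rintro ⟨α, ⟨h1, h2, h3, h4, h5⟩, rfl⟩
        have h6 : fA e (mkAB e α (fB e ρ0)) = α := fA_mk e _ _
        have h7 : fB e (mkAB e α (fB e ρ0)) = fB e ρ0 := fB_mk e _ _
        refine ⟨(prd_Hk e hAB _).2 ?_, (prd_Cg e hB _ _).2 ?_, h3, ?_, ?_⟩
        · rw [h6, h7]
          exact ⟨h1, hc1, hlc.2⟩
        · rw [h6, h7]
          exact ⟨h2, rfl⟩
        · intro P hP
          refine (prd_pow e hB _).2 ⟨?_, ?_⟩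
          · change (fA e (mkAB e α (fB e ρ0)) (T.tau P)) ^ l = 1
            rw [h6]
            exact h4 P hP
          · change fB e (mkAB e α (fB e ρ0)) (T.tau P) = 1
            rw [h7]
            exact hc2 P hP
        · rw [prd_nO e T S _ (fun P hP => by rw [h7]; exact hc2 P hP), h6]
          exact h5
    have hinj : Function.Injective (fun α : Gm k →* A => mkAB e α (fB e ρ0)) := by
      intro α α' h1
      have h2 := congrArg (fA e) h1
      change fA e (mkAB e α (fB e ρ0)) = fA e (mkAB e α' (fB e ρ0)) at h2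
      rwa [fA_mk, fA_mk] at h2
    refine ⟨L, hL, ?_, ?_⟩
    · refine hl.congr fun Y => ?_
      rw [himg Y, Set.ncard_image_of_injective _ hinj]
    · rintro ⟨Y, hY⟩
      refine hp ⟨Y, ?_⟩
      rw [himg Y] at hY
      exact Set.image_nonempty.1 hY
  · have hem : ∀ Y : ℝ, HI T l ρ0 H S Y = ∅ := by
      intro Y
      rw [Set.eq_empty_iff_forall_notMem]
      rintro ρ ⟨h1, h2, h3, h4, h5⟩
      refine hc ?_
      obtain ⟨h6, h7⟩ := (prd_Cg e hB _ _).1 h2
      rw [← h7]
      refine ⟨((prd_Hk e hAB _).1 h1).2.1, fun P hP => ?_⟩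
      exact ((prd_pow e hB _).1 (h4 P hP)).2
    refine ⟨0, le_rfl, ?_, ?_⟩
    · refine tendsto_const_nhds.congr fun Y => ?_
      rw [hem Y, Set.ncard_empty, Nat.cast_zero, zero_div]
    · rintro ⟨Y, hY⟩
      rw [hem Y] at hY
      exact absurd hY Set.not_nonempty_empty

end

end Pool.Agent.EV
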