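import Pool.Agent.EV.Prod

/-!
# Project T4 (MP_a3214d): the uniform inner statement for a product with a group of order prime
to `l`
-/

set_option autoImplicit false

open scoped BigOperators Pointwise Topology
open NumberField IsDedekindDomain Filter

namespace Pool.Agent.EV

open Pool.Agent.H98.MF (Om Gm ord Dec top nrm fld rdN rexp rex)
open Pool.Agent.H92.EL

section

variable {k : Type} [Field k] [NumberField k]

/-- a prime whose norm is not prime to `n` divides `n` -/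
theorem prd_mem (n : ℕ) (P : HeightOneSpectrum (𝓞 k)) (h : ¬ Nat.Coprime n (nrm P)) :
    (n : 𝓞 k) ∈ P.asIdeal := by
  obtain ⟨p, hp, hpn, hpP⟩ := Nat.Prime.not_coprime_iff_dvd.1 h
  have hne : P.asIdeal ≠ ⊥ := P.ne_bot
  have hfin : Finite (𝓞 k ⧸ P.asIdeal) := Ideal.finiteQuotientOfFreeOfNeBot P.asIdeal hne
  have hcard : Nat.card (𝓞 k ⧸ P.asIdeal) = nrm P := rfl
  have : Fact p.Prime := ⟨hp⟩
  obtain ⟨x, hx⟩ := exists_prime_addOrderOf_dvd_card' (G := 𝓞 k ⧸ P.asIdeal) p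
    (by rw [hcard]; exact hpP)
  have hx0 : x ≠ 0 := by
    intro h0
    rw [h0, addOrderOf_zero] at hx
    exact hp.one_lt.ne hx
  have hpx : (p : 𝓞 k ⧸ P.asIdeal) * x = 0 := by
    rw [← nsmul_eq_mul, ← hx]
    exact addOrderOf_nsmul_eq_zero x
  have hdom : IsDomain (𝓞 k ⧸ P.asIdeal) := Ideal.Quotient.isDomain P.asIdeal
  have hp0 : (p : 𝓞 k ⧸ P.asIdeal) = 0 := (mul_eq_zero.1 hpx).resolve_right hx0
  have hp1 : (p : 𝓞 k) ∈ P.asIdeal := by
    rw [← Ideal.Quotient.eq_zero_iff_mem]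
    exact_mod_cast hp0
  obtain ⟨m, rfl⟩ := hpn
  rw [Nat.cast_mul]
  exact Ideal.mul_mem_right _ _ hp1

/-- the primes whose norm is not prime to `n` are finitely many -/
theorem prd_fin (n : ℕ) (hn : n ≠ 0) :
    {P : HeightOneSpectrum (𝓞 k) | ¬ Nat.Coprime n (nrm P)}.Finite := by
  have hn0 : (n : 𝓞 k) ≠ 0 := by exact_mod_cast hn
  have h1 := Ideal.finite_factors (R := 𝓞 k) (I := Ideal.span {(n : 𝓞 k)})
    (by rwa [Ne, Ideal.zero_eq_bot, Ideal.span_singleton_eq_bot])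
  refine h1.subset fun Q hQ => ?_
  show Q.asIdeal ∣ Ideal.span {(n : 𝓞 k)}
  rw [Ideal.dvd_span_singleton]
  exact prd_mem n Q hQ

open Classical in
/-- every finite set of primes is contained in one adapted to `n` -/
theorem prd_ctn (n : ℕ) (hn : n ≠ 0) (S : Finset (HeightOneSpectrum (𝓞 k))) :
    ∃ S' : Finset (HeightOneSpectrum (𝓞 k)), S ⊆ S' ∧ Ctn S' n := by
  refine ⟨S ∪ (prd_fin (k := k) n hn).toFinset, Finset.subset_union_left, fun P hP => ?_⟩
  by_contra h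
  exact hP (Finset.mem_union_right _ ((prd_fin (k := k) n hn).mem_toFinset.2 h))

open Classical in
/-- homomorphisms with bounded ramification outside a finite set are finitely many -/
theorem prd_bdd (T : TM k) (A : Type) [Group A] (l : ℕ) (hA : Hyp l A) (hz : ZDis)
    (hs : SHer) (S : Finset (HeightOneSpectrum (𝓞 k))) (hS : Ctn S (Nat.card A)) (Y : ℝ) :
    {ρ : Gm k →* A | ρ ∈ Hk k A ∧ (nO T S ρ : ℝ) ≤ Y}.Finite := by
  have hfA : Finite A := hA.fin
  obtain ⟨hz1, -⟩ := hz k T A l hA S hS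
  have hb : {P : HeightOneSpectrum (𝓞 k) | nrm P ≤ ⌊Y⌋₊}.Finite := by
    have h1 := Ideal.finite_setOfPred_absNorm_le (S := 𝓞 k) ⌊Y⌋₊
    refine Set.Finite.of_finite_image (f := fun P : HeightOneSpectrum (𝓞 k) => P.asIdeal)
      (h1.subset ?_) ?_
    · rintro _ ⟨P, hP, rfl⟩
      exact hP
    · intro P _ Q _ h
      exact HeightOneSpectrum.ext h
  have h2 := hs k T A (S ∪ hb.toFinset) (dout_ctn_union hS _)
  refine h2.subset ?_
  rintro ρ ⟨h3, h4⟩
  refine ⟨h3.2, fun P hP => ?_⟩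
  by_contra h5
  have hPS : P ∉ S := fun h6 => hP (Finset.mem_union_left _ h6)
  refine hP (Finset.mem_union_right _ (hb.mem_toFinset.2 ?_))
  obtain ⟨-, h6, -⟩ := hz1 ρ h3
  have h7 : nrm P ∣ nO T S ρ := by
    unfold nO
    rw [finprod_mem_eq_finite_toFinset_prod _ h6]
    exact Finset.dvd_prod_of_mem _ (h6.mem_toFinset.2 ⟨hPS, h5⟩)
  have h8 : 0 < nO T S ρ := (hz1 ρ h3).1
  have h9 : nO T S ρ ≤ ⌊Y⌋₊ := Nat.le_floor h4
  exact (Nat.le_of_dvd h8 h7).trans h9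

end

section

variable {A B G : Type} [Group A] [Group B] [Group G] (e : G ≃* A × B) {l : ℕ}
variable {k : Type} [Field k] [NumberField k]

open Classical in
include e in
/-- the second inner statement for a product -/
theorem innU_prod (T : TM k) (hA : Hyp l A) [Finite B]
    (hAB : Nat.Coprime (Nat.card A) (Nat.card B)) (hB : Nat.Coprime l (Nat.card B)) {b : ℕ}
    (hz : ZDis) (hs : SHer) (h : InnU T A l b) : InnU T G l b := by
  have hfA : Finite A := hA.fin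
  have hcard : Nat.card G = Nat.card A * Nat.card B := by
    rw [Nat.card_congr e.toEquiv, Nat.card_prod]
  have hG0 : Nat.card G ≠ 0 := by
    rw [hcard]
    exact Nat.mul_ne_zero Nat.card_pos.ne' Nat.card_pos.ne'
  obtain ⟨S, hS, hU⟩ := h
  obtain ⟨S', hSS, hS'⟩ := prd_ctn (k := k) (Nat.card G) hG0 S
  refine ⟨S', hS', fun ε hε => ?_⟩
  obtain ⟨C, hC, hU⟩ := hU ε hε
  set D : Finset (HeightOneSpectrum (𝓞 k)) := S' \ S with hD
  have : Fintype A := Fintype.ofFinite A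
  set W : Finset (D → A) := Finset.univ with hW
  refine ⟨W.card * (C * ((∏ P ∈ D, nrm P : ℕ) : ℝ) ^ ε), by positivity, ?_⟩
  intro R hR ρ0 h0 u Y hY
  have hlc := (prd_lc e ρ0).1 h0
  set X : Set (Gm k →* G) := {ρ : Gm k →* G | ρ ∈ Hk k G ∧ Cg l ρ ρ0 ∧
    (∀ P ∈ R, ρ (T.tau P) = u P) ∧ (∀ P, P ∉ S' → P ∉ R → ρ (T.tau P) ^ l = 1) ∧
      (nO T (S' ∪ R) ρ : ℝ) ≤ Y} with hX
  have hRD : Disjoint (R ∪ D) S := by
    rw [Finset.disjoint_union_left]
    exact ⟨hR.mono_right hSS, Finset.sdiff_disjoint⟩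
  have hSRD : S ∪ (R ∪ D) = S' ∪ R := by
    ext P
    rw [hD]
    simp only [Finset.mem_union, Finset.mem_sdiff]
    constructor
    · rintro (h1 | h1 | h1)
      · exact Or.inl (hSS h1)
      · exact Or.inr h1
      · exact Or.inl h1.1
    · rintro (h1 | h1)
      · by_cases h2 : P ∈ S
        · exact Or.inl h2
        · exact Or.inr (Or.inr ⟨h1, h2⟩)
      · exact Or.inr (Or.inl h1)
  -- the value on the additional primes
  let uw : (D → A) → HeightOneSpectrum (𝓞 k) → A := fun w P =>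
    if hP : P ∈ D then w ⟨P, hP⟩ else (e (u P)).1
  let XA : (D → A) → Set (Gm k →* A) := fun w => {ρ : Gm k →* A | ρ ∈ Hk k A ∧
    Cg l ρ (fA e ρ0) ∧ (∀ P ∈ R ∪ D, ρ (T.tau P) = uw w P) ∧
      (∀ P, P ∉ S → P ∉ R ∪ D → ρ (T.tau P) ^ l = 1) ∧ (nO T (S ∪ (R ∪ D)) ρ : ℝ) ≤ Y}
  have hctA : Ctn (S ∪ (R ∪ D)) (Nat.card A) := dout_ctn_union hS _
  have hfinA : ∀ w, (XA w).Finite := fun w => by
    refine (prd_bdd T A l hA hz hs (S ∪ (R ∪ D)) hctA Y).subset ?_
    rintro ρ ⟨h1, -, -, -, h2⟩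
    exact ⟨h1, h2⟩
  have hbound : ∀ w, ((XA w).ncard : ℝ) ≤ C * ((∏ P ∈ R ∪ D, nrm P : ℕ) : ℝ) ^ ε *
      (Y * Real.log Y ^ (b - 1)) := fun w => hU (R ∪ D) hRD (fA e ρ0) hlc.1 (uw w) Y hY
  have hsub : X ⊆ (fun α : Gm k →* A => mkAB e α (fB e ρ0)) '' (⋃ w ∈ W, XA w) := by
    rintro ρ ⟨h1, h2, h3, h4, h5⟩
    obtain ⟨h6, h7⟩ := (prd_Cg e hB _ _).1 h2
    refine ⟨fA e ρ, ?_, ?_⟩
    · rw [Set.mem_iUnion₂]
      refine ⟨fun P => fA e ρ (T.tau P.1), Finset.mem_univ _, ?_⟩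
      refine ⟨((prd_Hk e hAB _).1 h1).1, h6, ?_, ?_, ?_⟩
      · intro P hP
        change fA e ρ (T.tau P) = if hP : P ∈ D then fA e ρ (T.tau P) else (e (u P)).1
        split_ifs with hPD
        · rfl
        · have hPR : P ∈ R := (Finset.mem_union.1 hP).resolve_right hPD
          rw [fA_apply, h3 P hPR]
      · intro P hPS hPR
        have hP1 : P ∉ R := fun h8 => hPR (Finset.mem_union_left _ h8)
        have hP2 : P ∉ S' := fun h8 =>
          hPR (Finset.mem_union_right _ (Finset.mem_sdiff.2 ⟨h8, hPS⟩))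
        exact ((prd_pow e hB _).1 (h4 P hP2 hP1)).1
      · rw [hSRD, ← prd_nO e T (S' ∪ R) ρ ?_]
        · exact h5
        · intro P hP
          have hP1 : P ∉ R := fun h8 => hP (Finset.mem_union_right _ h8)
          have hP2 : P ∉ S' := fun h8 => hP (Finset.mem_union_left _ h8)
          exact ((prd_pow e hB _).1 (h4 P hP2 hP1)).2
    · change mkAB e (fA e ρ) (fB e ρ0) = ρ
      rw [← h7, mk_f]
  have hfinU : (⋃ w ∈ W, XA w).Finite := Set.Finite.biUnion (Finset.finite_toSet W)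
    fun w _ => hfinA w
  have hN : (∏ P ∈ R ∪ D, nrm P : ℕ) = (∏ P ∈ R, nrm P) * ∏ P ∈ D, nrm P := by
    refine Finset.prod_union ?_
    rw [hD]
    exact hR.mono_right Finset.sdiff_subset
  have hYl : 0 ≤ Y * Real.log Y ^ (b - 1) :=
    mul_nonneg (by linarith) (pow_nonneg (Real.log_nonneg (by linarith)) _)
  calc (X.ncard : ℝ) ≤ ((⋃ w ∈ W, XA w).ncard : ℝ) := by
        have h1 := Set.ncard_le_ncard hsub (hfinU.image _)
        have h2 := Set.ncard_image_le (f := fun α : Gm k →* A => mkAB e α (fB e ρ0)) hfinU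
        exact_mod_cast h1.trans h2
    _ ≤ ∑ w ∈ W, ((XA w).ncard : ℝ) := by
        have h1 := Finset.set_ncard_biUnion_le W XA
        exact_mod_cast h1
    _ ≤ ∑ w ∈ W, C * ((∏ P ∈ R ∪ D, nrm P : ℕ) : ℝ) ^ ε * (Y * Real.log Y ^ (b - 1)) :=
        Finset.sum_le_sum fun w _ => hbound w
    _ = _ := by
        rw [Finset.sum_const, nsmul_eq_mul, hN, Nat.cast_mul,
          Real.mul_rpow (Nat.cast_nonneg _) (Nat.cast_nonneg _)]
        ring

end

end Pool.Agent.EV
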