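import Pool.Agent.EV.UStm
import Pool.Agent.EV.ATm
import Pool.Agent.H98.MF.NEnd
import Pool.Agent.H98.MF.LhTauK

/-!
# Project T4 (MP_a3214d), even order: the uniform inner statement, assembly
-/

set_option autoImplicit false

open scoped BigOperators
open NumberField IsDedekindDomain

namespace Pool.Agent.EV

open Pool.Agent.H98.MF
open Pool.Agent.H98.ML (norb m3_norb_lt)
open Pool.Agent.H98.MK (sg)
open Pool.Agent.H32.MQ (El rep co)
open Pool.Agent.D8 (pat RxF)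
open Pool.Agent.H92.EL (Om1 Ncl TM InnU Ctn Hk Cg nO)

/-! ### the analytic bound -/

theorem uf_log {L : ℝ} (hL : Real.log 2 ≤ L) {i j : ℕ} (hij : i ≤ j) :
    L ^ i ≤ (1 / Real.log 2) ^ j * L ^ j := by
  have h0 : 0 < Real.log 2 := Real.log_pos (by norm_num)
  have h1 : Real.log 2 ≤ 1 := by
    have := Real.log_le_sub_one_of_pos (show (0 : ℝ) < 2 by norm_num)
    linarith
  have h2 : 1 ≤ L / Real.log 2 := by
    rw [le_div_iff₀ h0]
    linarith
  have h3 : (L / Real.log 2) ^ i ≤ (L / Real.log 2) ^ j := pow_le_pow_right₀ h2 hij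
  have h4 : L ^ i ≤ (L / Real.log 2) ^ i := by
    apply pow_le_pow_left₀ (by linarith)
    rw [le_div_iff₀ h0]
    nlinarith
  calc L ^ i ≤ (L / Real.log 2) ^ j := h4.trans h3
    _ = (1 / Real.log 2) ^ j * L ^ j := by
      rw [← mul_pow]
      congr 1
      ring

theorem uf_bd0 (h0 : SUn0) (S : Sys) (d n : ℕ) (hn : n = 0) (Bd : BD d n)
    (R : Finset (VV d)) (hR : R.Nonempty) :
    ∃ C : ℝ, 0 ≤ C ∧ ∀ (c : VV d → VV n → El S) (M : Finset S.P) (Φ : Finset R → Prop)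
    (Y : ℝ), 2 ≤ Y → NN Bd R c M Φ (fun _ _ => 1) Y ≤
      C * (Y * Real.log Y ^ (R.card - 1)) := by
  subst hn
  exact h0 S d Bd R hR

theorem uf_nm {S : Sys} (M : Finset S.P) : (1 : ℝ) ≤ (S.nm M : ℝ) := by
  have h : 1 ≤ S.nm M := by
    unfold Pre.nm
    exact Nat.succ_le_of_lt (Finset.prod_pos fun p _ => S.one_le_N p)
  exact_mod_cast h

section

variable {G : Type} [Group G]

theorem uf_R (D : GD G) [Finite G] (h2 : 2 ∣ Nat.card G) (hn : D.n = 0) : D.R.Nonempty := by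
  have : Fact (Nat.Prime 2) := ⟨Nat.prime_two⟩
  obtain ⟨g, hg⟩ := exists_prime_orderOf_dvd_card' 2 h2
  have h3 : g ^ 2 = 1 := by
    rw [← hg]
    exact pow_orderOf_eq_one g
  obtain ⟨v, x, h4⟩ := (D.mem g).1 (Subgroup.subset_closure h3)
  have h5 : x = 0 := by
    funext i
    exact absurd i.2 (by omega)
  refine ⟨v, D.mem_R.2 ⟨?_, ?_⟩⟩
  · rintro rfl
    rw [h5, D.s_zero, D.zz_zero, mul_one] at h4
    rw [h4, orderOf_one] at hg
    omega
  · rw [h4] at h3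
    exact (D.sz_sq_eq_one v x).1 h3

theorem uf_nvG (D : GD G) (hn : D.n = 0) (v : VV D.d) : nvG D v = 1 := by
  classical
  have h1 : ∀ x y : VV D.n, x = y := by
    intro x y
    funext i
    exact absurd i.2 (by omega)
  unfold nvG
  rw [Finset.card_eq_one]
  refine ⟨0, ?_⟩
  ext ζ
  rw [Finset.mem_filter, Finset.mem_singleton]
  constructor
  · intro _
    exact h1 _ _
  · rintro rfl
    exact ⟨Finset.mem_univ _, fun g => zero_dotProduct _⟩

theorem uf_RZ (D : GD G) (hn : D.n = 0) : (RZ D.n).card = 0 := by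
  rw [Finset.card_eq_zero]
  unfold RZ
  rw [Finset.filter_eq_empty_iff]
  intro v _
  rw [not_not]
  funext i
  exact absurd i.2 (by omega)

/-- the bound for the analytic sums -/
theorem uf_bound (hb : SUb) (h0 : SUn0) (hu : SUnf) (S : Sys) [Finite G] (D : GD G)
    (h2 : 2 ∣ Nat.card G) {ε : ℝ} (hε : 0 < ε) : ∃ C : ℝ, 0 ≤ C ∧
    ∀ (c : VV D.d → VV D.n → El S) (M : Finset S.P) (Φ : Finset D.R → Prop),
      Adc c → (∀ v ζ, (c v ζ).2 ⊆ M) → Gen D.Bd D.R c Φ →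
      (∀ v ∈ D.R, nv D.Bd D.R c v ≤ nvG D v) → ∀ Y : ℝ, 2 ≤ Y →
      NN D.Bd D.R c M Φ (fun _ _ => 1) Y ≤
        C * (S.nm M : ℝ) ^ ε * (Y * Real.log Y ^ (D.b - 1)) := by
  have hbD := hb G D
  have hl : 0 < Real.log 2 := Real.log_pos (by norm_num)
  rcases Nat.eq_zero_or_pos D.n with hn | hn
  · obtain ⟨C, hC, h⟩ := uf_bd0 h0 S D.d D.n hn D.Bd D.R (uf_R D h2 hn)
    refine ⟨C, hC, fun c M Φ _ _ _ _ Y hY => ?_⟩
    have h1 : D.b = D.R.card := by
      rw [← hbD, uf_RZ D hn, add_zero, Finset.sum_congr rfl fun v _ => uf_nvG D hn v]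
      simp
    rw [h1]
    refine (h c M Φ Y hY).trans ?_
    have hY0 : 0 ≤ Y * Real.log Y ^ (D.R.card - 1) :=
      mul_nonneg (by linarith) (pow_nonneg (Real.log_nonneg (by linarith)) _)
    refine mul_le_mul_of_nonneg_right ?_ hY0
    have h3 : (1 : ℝ) ≤ (S.nm M : ℝ) ^ ε := Real.one_le_rpow (uf_nm M) hε.le
    nlinarith
  · obtain ⟨C, hC, h⟩ := hu S D.d D.n D.Bd D.R ε hn hε
    refine ⟨C * (1 / Real.log 2) ^ (D.b - 1), by positivity,
      fun c M Φ hA hs hg hnv Y hY => ?_⟩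
    refine (h c M Φ hA hs hg Y hY).trans ?_
    have h3 : bV D.Bd D.R c + (RZ D.n).card - 1 ≤ D.b - 1 := by
      apply Nat.sub_le_sub_right
      rw [← hbD]
      exact Nat.add_le_add_right (Finset.sum_le_sum hnv) _
    have hY1 : Real.log 2 ≤ Real.log Y := Real.log_le_log (by norm_num) hY
    have h4 := uf_log hY1 h3
    have hM : 0 ≤ C * (S.nm M : ℝ) ^ ε := mul_nonneg hC (Real.rpow_nonneg (by positivity) _)
    have h5 : Y * Real.log Y ^ (bV D.Bd D.R c + (RZ D.n).card - 1) ≤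
        Y * ((1 / Real.log 2) ^ (D.b - 1) * Real.log Y ^ (D.b - 1)) :=
      mul_le_mul_of_nonneg_left h4 (by linarith)
    calc C * (S.nm M : ℝ) ^ ε * (Y * Real.log Y ^ (bV D.Bd D.R c + (RZ D.n).card - 1))
        ≤ C * (S.nm M : ℝ) ^ ε *
          (Y * ((1 / Real.log 2) ^ (D.b - 1) * Real.log Y ^ (D.b - 1))) :=
          mul_le_mul_of_nonneg_left h5 hM
      _ = _ := by ring

end

/-! ### ramification -/

section

variable {k : Type} [Field k] [NumberField k] (F : Frm k) (Rk : RxF k) {G : Type} [Group G]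

/-- ramification is finite -/
theorem uf_ram [Finite G] (hG : IsPGroup 2 G) (ρ : Gm k →* G) (hρ : IsLocallyConstant ρ) :
    {p : F.sys.P | ρ (Rk.tau (F.pl p)) ≠ 1}.Finite := by
  have : Fact (Nat.Prime 2) := ⟨Nat.prime_two⟩
  have hop : IsOpen (ρ.ker : Set (Gm k)) := by
    have h := hρ.isOpen_fiber (1 : G)
    have h2 : (ρ.ker : Set (Gm k)) = {x | ρ x = 1} := by
      ext x
      exact MonoidHom.mem_ker
    rw [h2]
    exact h
  have hidx : ∃ j, ρ.ker.index = 2 ^ j := by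
    rw [Subgroup.index_ker]
    exact IsPGroup.iff_card.1 (hG.to_subgroup ρ.range)
  refine Set.Finite.subset ((Rk.fin ρ.ker hop).preimage F.pl_inj.injOn) fun p hp => ?_
  have h2 := Rk.disc (F.pl p) (F.ltk_two p) ρ.ker hop hidx ρ.ker le_rfl
  have h3 : norb ρ.ker (Rk.tau (F.pl p)) < ρ.ker.index := by
    apply m3_norb_lt
    · obtain ⟨j, hj⟩ := hidx
      rw [hj]
      positivity
    · intro h
      exact hp (MonoidHom.mem_ker.1 h)
  show Rk.rex (F.pl p) ρ.ker ≠ 0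
  omega

end

/-! ### the assembly -/

theorem sinnU (k : Type) [Field k] [NumberField k] (hb : SUb) (hxs : SUxs k) (hco : SUco k)
    (hcl : SUcl k) (hok : SUok k) (hph : SUph k) (hnc : SUnc k) (h0 : SUn0) (hu : SUnf) :
    SInnU k := by
  classical
  intro T G _ _ D hG h2
  obtain ⟨F⟩ := exists_frm k
  obtain ⟨Rk, hτ, -⟩ := rk_of T
  refine ⟨F.S, ?_, fun ε hε => ?_⟩
  · intro P hP
    obtain ⟨p, rfl⟩ := (F.pl_iff P).2 hP
    have : Fact (Nat.Prime 2) := ⟨Nat.prime_two⟩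
    obtain ⟨j, hj⟩ := IsPGroup.iff_card.1 hG
    rw [hj]
    exact Nat.Coprime.pow_left j (atm_odd (F.pl p) (F.ltk_two p))
  obtain ⟨C, hC, hbd⟩ := uf_bound hb h0 hu F.sys D h2 hε
  let K : ℝ := ((Fintype.card (Fin F.sys.m → VV D.d) : ℕ) : ℝ) * ((2 : ℝ) ^ D.n) ^ F.sys.m * C
  refine ⟨K, by positivity, fun R hR ρ0 hρ0 u Y hY => ?_⟩
  have hYl : 0 ≤ Y * Real.log Y ^ (D.b - 1) :=
    mul_nonneg (by linarith) (pow_nonneg (Real.log_nonneg (by linarith)) _)
  have hRS : ∀ P ∈ R, P ∉ F.S := fun P hP hP' => Finset.disjoint_left.1 hR hP hP'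
  let M : Finset F.sys.P := R.preimage F.pl F.pl_inj.injOn
  have hM : ∀ p, p ∈ M ↔ F.pl p ∈ R := fun p => Finset.mem_preimage
  have hnm : F.sys.nm M = ∏ P ∈ R, nrm P := by
    have h1 : R = M.image F.pl := by
      ext P
      rw [Finset.mem_image]
      constructor
      · intro hP
        obtain ⟨p, rfl⟩ := (F.pl_iff P).2 (hRS P hP)
        exact ⟨p, (hM p).2 hP, rfl⟩
      · rintro ⟨p, hp, rfl⟩
        exact (hM p).1 hp
    rw [h1, Finset.prod_image fun x _ y _ h => F.pl_inj h]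
    unfold Pre.nm
    exact Finset.prod_congr rfl fun p _ => F.N_eq p
  set A : Set (Gm k →* G) := {ρ : Gm k →* G | ρ ∈ Hk k G ∧ Cg 2 ρ ρ0 ∧
    (∀ P ∈ R, ρ (T.tau P) = u P) ∧ (∀ P, P ∉ F.S → P ∉ R → ρ (T.tau P) ^ 2 = 1) ∧
    (nO T (F.S ∪ R) ρ : ℝ) ≤ Y} with hA
  rcases Set.eq_empty_or_nonempty A with hAe | ⟨ρs, hρs⟩
  · rw [hAe, Set.ncard_empty, Nat.cast_zero]
    exact mul_nonneg (mul_nonneg (by positivity) (Real.rpow_nonneg (by positivity) _)) hYl
  have hUA : ∀ ρ ∈ A, UA F Rk D ρs M ρ := by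
    intro ρ hρ
    refine ⟨hρ.1.1, hρ.1.2, fun σ => ?_, fun p hp => ?_, fun p hp => ?_⟩
    · have h1 : (ρs σ)⁻¹ * ((ρ σ * (ρ0 σ)⁻¹) * (ρs σ * (ρ0 σ)⁻¹)⁻¹) * ((ρs σ)⁻¹)⁻¹ ∈ Om1 2 G :=
        (Pool.Agent.H92.EL.Om1.normal 2 G).conj_mem _
          (Subgroup.mul_mem _ (hρ.2.1 σ) (Subgroup.inv_mem _ (hρs.2.1 σ))) _
      obtain ⟨v, x, h3⟩ := (D.mem _).1 h1
      refine ⟨v, x, ?_⟩
      rw [← h3]
      group
    · rw [hτ, hρ.2.2.1 _ ((hM p).1 hp), hρs.2.2.1 _ ((hM p).1 hp)]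
    · rw [hτ]
      exact hρ.2.2.2.1 _ (F.ltk_notMem p) fun h => hp ((hM p).2 h)
  obtain ⟨xs, hx⟩ := hxs F Rk G D hG ρs M (hUA ρs hρs)
  have hc := hcl F Rk G D hG ρs M xs (hUA ρs hρs) hx
  choose c hc using hc
  have hcount : ∀ y, (US F Rk D ρs M xs y Y).Finite ∧ ((US F Rk D ρs M xs y Y).ncard : ℝ) ≤
      ((2 : ℝ) ^ D.n) ^ F.sys.m * (C * (F.sys.nm M : ℝ) ^ ε * (Y * Real.log Y ^ (D.b - 1))) := by
    intro y
    by_cases hne : ∃ ρ X f, UA F Rk D ρs M ρ ∧ UC F Rk D ρs M xs y X f ρ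
    · obtain ⟨ρ1, X1, f1, h1, h1'⟩ := hne
      have h3 := hnc F Rk G D hG ρs M xs y (c y) (Pc D.Bd D.R (c y)) hx
        (fun ρ X f h h' => ⟨hok F Rk G D hG ρs M xs y (c y) (hc y) ρ X f h h',
          (hph F Rk G D ρs M xs y (c y) (hc y) ρ X f h h').1⟩) Y (by linarith)
      refine ⟨h3.1, h3.2.trans (mul_le_mul_of_nonneg_left ?_ (by positivity))⟩
      exact hbd (c y) M (Pc D.Bd D.R (c y)) (hc y).add (hc y).sub (fun U h => h)
        (hph F Rk G D ρs M xs y (c y) (hc y) ρ1 X1 f1 h1 h1').2 Y hY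
    · have h3 : US F Rk D ρs M xs y Y = ∅ := by
        rw [Set.eq_empty_iff_forall_notMem]
        rintro ρ ⟨h4, ⟨X, f, h5⟩, -⟩
        exact hne ⟨ρ, X, f, h4, h5⟩
      rw [h3, Set.ncard_empty, Nat.cast_zero]
      exact ⟨Set.finite_empty, mul_nonneg (by positivity)
        (mul_nonneg (mul_nonneg hC (Real.rpow_nonneg (by positivity) _)) hYl)⟩
  have hsub : A ⊆ ⋃ y : Fin F.sys.m → VV D.d, US F Rk D ρs M xs y Y := by
    intro ρ hρ
    obtain ⟨y, X, f, hUC⟩ := hco F Rk G D hG ρs M xs (hUA ρs hρs) hx ρ (hUA ρ hρ)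
    rw [Set.mem_iUnion]
    have hfin : {p : F.sys.P | p ∉ M ∧ ρ (Rk.tau (F.pl p)) ≠ 1}.Finite :=
      (uf_ram F Rk hG ρ hρ.1.2).subset fun p hp => hp.2
    refine ⟨y, hUA ρ hρ, ⟨X, f, hUC⟩, hfin.toFinset, fun p => by
      rw [Set.Finite.mem_toFinset]; rfl, ?_⟩
    have h3 : nO T (F.S ∪ R) ρ = F.sys.nm hfin.toFinset := by
      unfold nO
      have h4 : {P : HeightOneSpectrum (𝓞 k) | P ∉ F.S ∪ R ∧ ρ (T.tau P) ≠ 1} =
          ((hfin.toFinset.image F.pl : Finset (HeightOneSpectrum (𝓞 k))) :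
            Set (HeightOneSpectrum (𝓞 k))) := by
        ext P
        rw [Finset.mem_coe, Finset.mem_image, Set.mem_setOf_eq, Finset.mem_union, not_or]
        constructor
        · rintro ⟨⟨hP1, hP2⟩, hP3⟩
          obtain ⟨p, rfl⟩ := (F.pl_iff P).2 hP1
          refine ⟨p, ?_, rfl⟩
          rw [Set.Finite.mem_toFinset]
          refine ⟨fun h => hP2 ((hM p).1 h), ?_⟩
          rw [hτ]
          exact hP3
        · rintro ⟨p, hp, rfl⟩
          rw [Set.Finite.mem_toFinset] at hp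
          have hp2 := hp.2
          rw [hτ] at hp2
          exact ⟨⟨F.ltk_notMem p, fun h => hp.1 ((hM p).2 h)⟩, hp2⟩
      rw [h4, finprod_mem_coe_finset, Finset.prod_image fun x _ y _ h => F.pl_inj h]
      unfold Pre.nm
      exact Finset.prod_congr rfl fun p _ => (F.N_eq p).symm
    rw [← h3]
    exact hρ.2.2.2.2
  have hfinU : (⋃ y : Fin F.sys.m → VV D.d, US F Rk D ρs M xs y Y).Finite :=
    Set.finite_iUnion fun y => (hcount y).1
  have h3 : (A.ncard : ℝ) ≤ ∑ y : Fin F.sys.m → VV D.d,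
      ((US F Rk D ρs M xs y Y).ncard : ℝ) := by
    have h4 : A.ncard ≤ (⋃ y : Fin F.sys.m → VV D.d, US F Rk D ρs M xs y Y).ncard :=
      Set.ncard_le_ncard hsub hfinU
    have h5 : (⋃ y : Fin F.sys.m → VV D.d, US F Rk D ρs M xs y Y).ncard ≤
        ∑ y : Fin F.sys.m → VV D.d, (US F Rk D ρs M xs y Y).ncard := by
      have h6 : (⋃ y : Fin F.sys.m → VV D.d, US F Rk D ρs M xs y Y) =
          ((Finset.univ.biUnion fun y : Fin F.sys.m → VV D.d =>
            (hcount y).1.toFinset : Finset (Gm k →* G)) : Set (Gm k →* G)) := by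
        ext ρ
        simp
      rw [h6, Set.ncard_coe_finset]
      refine Finset.card_biUnion_le.trans (Finset.sum_le_sum fun y _ => ?_)
      exact (Set.ncard_eq_toFinset_card _ (hcount y).1).ge
    exact_mod_cast h4.trans h5
  refine h3.trans ((Finset.sum_le_sum fun y _ => (hcount y).2).trans ?_)
  rw [Finset.sum_const, Finset.card_univ, nsmul_eq_mul, ← hnm]
  apply le_of_eq
  simp only [K]
  ring

end Pool.Agent.EV
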